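import Mathlib
import Pool.Agent.Lib.MP_8d00da_gt.h42t.TDefs

namespace Pool.Agent.Lib.MP_8d00da_gt.h42r
end Pool.Agent.Lib.MP_8d00da_gt.h42r


/-!
# Elementary properties
-/

namespace Pool.Agent.Lib.MP_8d00da_gt.h42t

open MeasureTheory Set Filter
open Pool.Agent.Lib.MP_8d00da_gt.h25 Pool.Agent.Lib.MP_8d00da_gt.h42
open Pool.Agent.Lib.MP_8d00da_gt.h42s Pool.Agent.Lib.MP_8d00da_gt.h42o
open Pool.Agent.Lib.MP_8d00da_gt.h97r Pool.Agent.Lib.MP_8d00da_gt.h42r
open scoped Topology NNReal ENNReal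

set_option linter.unusedSectionVars false

variable {F : Type*} [NormedAddCommGroup F] [InnerProductSpace ℝ F]
    [FiniteDimensional ℝ F] [MeasurableSpace F] [BorelSpace F]

variable {G : Type*} [NormedAddCommGroup G] [InnerProductSpace ℝ G]
    [FiniteDimensional ℝ G] [MeasurableSpace G] [BorelSpace G]

variable {ι : Type*} [Fintype ι]

variable {q : ℕ}

private theorem ta2_diff : Measurable fun p : F × (Fin q → F) => p.1 - ∑ i, p.2 i := by
  have h1 : Continuous fun p : F × (Fin q → F) => p.1 - ∑ i, p.2 i := by fun_prop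
  exact h1.measurable

private theorem ta2_coord (i : Fin q) : Measurable fun p : F × (Fin q → F) => p.2 i :=
  (measurable_pi_apply i).comp measurable_snd

theorem hm_nonneg {h : F → ℝ} (h0 : ∀ x, 0 ≤ h x) (y : F) (s : Fin q → F) : 0 ≤ hm h y s := by
  unfold hm
  exact mul_nonneg (h0 _) (Finset.prod_nonneg fun i _ => h0 _)

theorem hm_meas {h : F → ℝ} (hh : Measurable h) :
    Measurable fun p : F × (Fin q → F) => hm h p.1 p.2 := by
  unfold hm
  exact (hh.comp ta2_diff).mul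
    (Finset.measurable_prod _ fun i _ => hh.comp (ta2_coord i))

theorem cm_meas {A : F → ℝ} (hA : Measurable A) :
    Measurable fun p : F × (Fin q → F) => cm A p.1 p.2 := by
  unfold cm
  exact ((hA.comp ta2_diff).add
    (Finset.measurable_sum _ fun i _ => hA.comp (ta2_coord i))).div_const _

theorem xm_meas {ω : F → ℝ} (hω : Measurable ω) :
    Measurable fun p : F × (Fin q → F) => xm ω p.1 p.2 := by
  unfold xm
  exact ((hω.comp ta2_diff).inv.add
    (Finset.measurable_sum _ fun i _ => (hω.comp (ta2_coord i)).inv)).inv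

theorem cm_nonneg {A : F → ℝ} (A0 : ∀ x, 0 ≤ A x) (y : F) (s : Fin q → F) : 0 ≤ cm A y s := by
  unfold cm
  have h1 : 0 ≤ A (y - ∑ i, s i) + ∑ i, A (s i) :=
    add_nonneg (A0 _) (Finset.sum_nonneg fun i _ => A0 _)
  positivity

theorem cm_le {A : F → ℝ} {Ab : ℝ} (hA : ∀ x, A x ≤ Ab) (y : F) (s : Fin q → F) :
    cm A y s ≤ Ab := by
  unfold cm
  have hq : (0 : ℝ) < q + 1 := by positivity
  rw [div_le_iff₀ hq]
  have h1 : ∑ i, A (s i) ≤ ∑ _i : Fin q, Ab := Finset.sum_le_sum fun i _ => hA _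
  rw [Finset.sum_const, Finset.card_univ, Fintype.card_fin, nsmul_eq_mul] at h1
  have h2 := hA (y - ∑ i, s i)
  linarith

theorem xm_nonneg {ω : F → ℝ} (ω0 : ∀ x, 0 ≤ ω x) (y : F) (s : Fin q → F) : 0 ≤ xm ω y s := by
  unfold xm
  exact inv_nonneg.2 (add_nonneg (inv_nonneg.2 (ω0 _))
    (Finset.sum_nonneg fun i _ => inv_nonneg.2 (ω0 _)))

/-- If the weight is positive, then `h` is positive at all points. -/
theorem hm_pos {h : F → ℝ} (h0 : ∀ x, 0 ≤ h x) {y : F} {s : Fin q → F} (hp : 0 < hm h y s) :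
    0 < h (y - ∑ i, s i) ∧ ∀ i, 0 < h (s i) := by
  unfold hm at hp
  have h1 : h (y - ∑ i, s i) ≠ 0 := left_ne_zero_of_mul hp.ne'
  have h2 : ∏ i, h (s i) ≠ 0 := right_ne_zero_of_mul hp.ne'
  refine ⟨lt_of_le_of_ne (h0 _) (Ne.symm h1), fun i => lt_of_le_of_ne (h0 _) (Ne.symm ?_)⟩
  exact Finset.prod_ne_zero_iff.1 h2 i (Finset.mem_univ i)

theorem cm_pos {h A : F → ℝ} (h0 : ∀ x, 0 ≤ h x) (A0 : ∀ x, 0 ≤ A x)
    (Apos : ∀ x, 0 < h x → 0 < A x) {y : F} {s : Fin q → F} (hp : 0 < hm h y s) :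
    0 < cm A y s := by
  obtain ⟨h1, h2⟩ := hm_pos h0 hp
  unfold cm
  have h3 : 0 < A (y - ∑ i, s i) + ∑ i, A (s i) :=
    add_pos_of_pos_of_nonneg (Apos _ h1) (Finset.sum_nonneg fun i _ => A0 _)
  positivity

theorem xm_pos {h ω : F → ℝ} (h0 : ∀ x, 0 ≤ h x) (ωpos : ∀ x, 0 < h x → 0 < ω x)
    {y : F} {s : Fin q → F} (hp : 0 < hm h y s) : 0 < xm ω y s := by
  obtain ⟨h1, h2⟩ := hm_pos h0 hp
  unfold xm
  exact inv_pos.2 (add_pos_of_pos_of_nonneg (inv_pos.2 (ωpos _ h1))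
    (Finset.sum_nonneg fun i _ => inv_nonneg.2 (ωpos _ (h2 i)).le))

/-- The parallel sum is at most each of the terms. -/
theorem xm_le {h ω : F → ℝ} (h0 : ∀ x, 0 ≤ h x) (ωpos : ∀ x, 0 < h x → 0 < ω x)
    {y : F} {s : Fin q → F} (hp : 0 < hm h y s) (i : Fin q) : xm ω y s ≤ ω (s i) := by
  obtain ⟨h1, h2⟩ := hm_pos h0 hp
  unfold xm
  have h3 : (ω (s i))⁻¹ ≤ (ω (y - ∑ i, s i))⁻¹ + ∑ i, (ω (s i))⁻¹ := by
    have h4 : (ω (s i))⁻¹ ≤ ∑ i, (ω (s i))⁻¹ :=
      Finset.single_le_sum (f := fun i => (ω (s i))⁻¹)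
        (fun j _ => inv_nonneg.2 (ωpos _ (h2 j)).le) (Finset.mem_univ i)
    have h5 : 0 ≤ (ω (y - ∑ i, s i))⁻¹ := inv_nonneg.2 (ωpos _ h1).le
    linarith
  have h6 : 0 < (ω (s i))⁻¹ := inv_pos.2 (ωpos _ (h2 i))
  calc _ ≤ ((ω (s i))⁻¹)⁻¹ := inv_anti₀ h6 h3
    _ = ω (s i) := inv_inv _

theorem hm_le {h : F → ℝ} (h0 : ∀ x, 0 ≤ h x) {Hb : ℝ} (hb : ∀ x, h x ≤ Hb) (y : F)
    (s : Fin q → F) : hm h y s ≤ Hb * ∏ i, h (s i) := by
  unfold hm
  exact mul_le_mul_of_nonneg_right (hb _) (Finset.prod_nonneg fun i _ => h0 _)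

/-- `Integrable.fintype_prod`. -/
theorem prod_int {h : F → ℝ} (hi : Integrable h) :
    Integrable fun s : Fin q → F => ∏ i, h (s i) := by
  exact Integrable.fintype_prod (f := fun _ : Fin q => h) (fun _ => hi)

theorem hm_int {h : F → ℝ} (hh : Measurable h) (h0 : ∀ x, 0 ≤ h x) {Hb : ℝ}
    (hb : ∀ x, h x ≤ Hb) (hi : Integrable h) (y : F) :
    Integrable fun s : Fin q → F => hm h y s := by
  refine ((prod_int (q := q) hi).const_mul Hb).mono'
    ((hm_meas (q := q) hh).comp measurable_prodMk_left).aestronglyMeasurable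
    (Eventually.of_forall fun s => ?_)
  rw [Real.norm_of_nonneg (hm_nonneg h0 y s)]
  exact hm_le h0 hb y s

/-- Bound by `Hb * (h (s 0) ω (s 0)) * ∏_{i ≥ 1} h (s i)` (`xm_le`), which is a product of
integrable functions of the coordinates (`Integrable.fintype_prod` with the functions
`f 0 = h ω`, `f i = h`). -/
theorem hmx_int {h ω : F → ℝ} (hh : Measurable h) (h0 : ∀ x, 0 ≤ h x) {Hb : ℝ}
    (hb : ∀ x, h x ≤ Hb) (hi : Integrable h) (hω : Measurable ω) (ω0 : ∀ x, 0 ≤ ω x)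
    (ωpos : ∀ x, 0 < h x → 0 < ω x) (ωi : Integrable fun x => h x * ω x) (y : F) :
    Integrable fun s : Fin (q + 1) → F => hm h y s * xm ω y s := by
  have h1 : Integrable fun s : Fin (q + 1) → F =>
      ∏ i, (Fin.cons (fun x => h x * ω x) (fun _ => h) : Fin (q + 1) → F → ℝ) i (s i) := by
    refine Integrable.fintype_prod (fun i => ?_)
    refine Fin.cases ?_ (fun j => ?_) i
    · exact ωi
    · exact hi
  refine (h1.const_mul Hb).mono'
    (((hm_meas (q := q + 1) hh).mul (xm_meas (q := q + 1) hω)).comp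
      measurable_prodMk_left).aestronglyMeasurable
    (Eventually.of_forall fun s => ?_)
  have hHb : 0 ≤ Hb := (h0 0).trans (hb 0)
  rw [Real.norm_of_nonneg (mul_nonneg (hm_nonneg h0 y s) (xm_nonneg ω0 y s)),
    Fin.prod_univ_succ]
  simp only [Fin.cons_zero, Fin.cons_succ]
  rcases (hm_nonneg h0 y s).eq_or_lt with hz | hz
  · rw [← hz, zero_mul]
    exact mul_nonneg hHb (mul_nonneg (mul_nonneg (h0 _) (ω0 _))
      (Finset.prod_nonneg fun i _ => h0 _))
  · calc hm h y s * xm ω y s ≤ (Hb * ∏ i, h (s i)) * ω (s 0) :=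
          mul_le_mul (hm_le h0 hb y s) (xm_le h0 ωpos hz 0) (xm_nonneg ω0 y s)
            (mul_nonneg hHb (Finset.prod_nonneg fun i _ => h0 _))
      _ = Hb * (h (s 0) * ω (s 0) * ∏ i : Fin q, h (s i.succ)) := by
          rw [Fin.prod_univ_succ]
          ring

end Pool.Agent.Lib.MP_8d00da_gt.h42t
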