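import Mathlib
import Pool.Agent.Lib.MP_8d00da_gt.h42t.TDefs

namespace Pool.Agent.Lib.MP_8d00da_gt.h42r
end Pool.Agent.Lib.MP_8d00da_gt.h42r


/-!
# Parallel sums
-/

namespace Pool.Agent.Lib.MP_8d00da_gt.h42t

open MeasureTheory Set Filter
open Pool.Agent.Lib.MP_8d00da_gt.h25 Pool.Agent.Lib.MP_8d00da_gt.h42
open Pool.Agent.Lib.MP_8d00da_gt.h42s Pool.Agent.Lib.MP_8d00da_gt.h42o
open Pool.Agent.Lib.MP_8d00da_gt.h97r Pool.Agent.Lib.MP_8d00da_gt.h42r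
open scoped Topology NNReal ENNReal

set_option linter.unusedSectionVars false

variable {F : Type*} [NormedAddCommGroup F] [InnerProductSpace ℝ F]
    [FiniteDimensional ℝ F] [MeasurableSpace F] [BorelSpace F]

variable {G : Type*} [NormedAddCommGroup G] [InnerProductSpace ℝ G]
    [FiniteDimensional ℝ G] [MeasurableSpace G] [BorelSpace G]

variable {ι : Type*} [Fintype ι]

variable {q : ℕ}

/-- `∑ ω_l ‖τ_l‖² ≥ (∑ 1/ω_l)⁻¹ ‖∑ τ_l‖²` (Cauchy-Schwarz), for the `q + 1` values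
`ω0, ω 0, …, ω (q-1)`. -/
theorem par_cs {ω0 : ℝ} {ω : Fin q → ℝ} (h0 : 0 < ω0) (hω : ∀ i, 0 < ω i) (t0 : G)
    (t : Fin q → G) :
    (ω0⁻¹ + ∑ i, (ω i)⁻¹)⁻¹ * ‖t0 + ∑ i, t i‖ ^ 2 ≤ ω0 * ‖t0‖ ^ 2 + ∑ i, ω i * ‖t i‖ ^ 2 := by
  obtain ⟨W, hW⟩ : ∃ W : Fin (q + 1) → ℝ, W = Fin.cons ω0 ω := ⟨_, rfl⟩
  obtain ⟨A, hA⟩ : ∃ A : Fin (q + 1) → ℝ, A = Fin.cons ‖t0‖ (fun i => ‖t i‖) := ⟨_, rfl⟩
  have hWpos : ∀ i, 0 < W i := by
    intro i
    rw [hW]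
    refine Fin.cases ?_ (fun j => ?_) i
    · exact h0
    · exact hω j
  have h1 : (∑ i, A i) ^ 2 ≤ (∑ i, (W i)⁻¹) * ∑ i, W i * A i ^ 2 := by
    refine Finset.sum_sq_le_sum_mul_sum_of_sq_eq_mul Finset.univ
      (fun i _ => (inv_pos.2 (hWpos i)).le)
      (fun i _ => mul_nonneg (hWpos i).le (sq_nonneg _)) (fun i _ => ?_)
    rw [← mul_assoc, inv_mul_cancel₀ (hWpos i).ne', one_mul]
  rw [Fin.sum_univ_succ, Fin.sum_univ_succ, Fin.sum_univ_succ] at h1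
  rw [hW, hA] at h1
  simp only [Fin.cons_zero, Fin.cons_succ] at h1
  have hS : 0 < ω0⁻¹ + ∑ i, (ω i)⁻¹ :=
    add_pos_of_pos_of_nonneg (inv_pos.2 h0) (Finset.sum_nonneg fun i _ => (inv_pos.2 (hω i)).le)
  rw [inv_mul_le_iff₀ hS]
  refine le_trans ?_ h1
  refine pow_le_pow_left₀ (norm_nonneg _) ?_ 2
  exact (norm_add_le _ _).trans (add_le_add_right (norm_sum_le _ _) _)

/-- Let the displacements `u₀ = -u - ∑ v`, `v i` have sum `-u`. If all norms are at most `r`, use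
the lower bounds `∑_j ω_j ‖P_j ·‖²` and `par_cs` for every `j` (`P_j u₀ + ∑ P_j (v i) = -P_j u`);
otherwise one of them is at least `κ r²`. Always the sum is at least
`κ (‖u₀‖² + ∑ ‖v i‖²) ≥ κ ‖u‖²/(q+1)`. -/
theorem tt_le {P : ι → F →L[ℝ] G} {ω : ι → F → ℝ} {κ r : ℝ} (hκ : 0 ≤ κ) (hr : 0 ≤ r)
    {L : F → F → ℝ} {y : F} {s : Fin q → F} (p0 : ∀ j, 0 < ω j (y - ∑ i, s i))
    (p1 : ∀ j i, 0 < ω j (s i)) (a0 : ∀ v, κ * ‖v‖ ^ 2 ≤ L (y - ∑ i, s i) v)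
    (a1 : ∀ i v, κ * ‖v‖ ^ 2 ≤ L (s i) v)
    (b0 : ∀ v, ‖v‖ ≤ r → ∑ j, ω j (y - ∑ i, s i) * ‖P j v‖ ^ 2 ≤ L (y - ∑ i, s i) v)
    (b1 : ∀ i v, ‖v‖ ≤ r → ∑ j, ω j (s i) * ‖P j v‖ ^ 2 ≤ L (s i) v) (u : F) (v : Fin q → F) :
    TT P ω κ r y s u ≤ L (y - ∑ i, s i) (-u - ∑ i, v i) + ∑ i, L (s i) (v i) := by
  obtain ⟨u0, hu0⟩ : ∃ u0, u0 = -u - ∑ i, v i := ⟨_, rfl⟩
  rw [← hu0]
  have hsum : u0 + ∑ i, v i = -u := by
    rw [hu0]
    abel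
  have hR : κ * (‖u0‖ ^ 2 + ∑ i, ‖v i‖ ^ 2) ≤ L (y - ∑ i, s i) u0 + ∑ i, L (s i) (v i) := by
    rw [mul_add, Finset.mul_sum]
    exact add_le_add (a0 u0) (Finset.sum_le_sum fun i _ => a1 i (v i))
  unfold TT
  refine max_le ?_ ?_
  · by_cases hall : ‖u0‖ ≤ r ∧ ∀ i, ‖v i‖ ≤ r
    · refine (min_le_left _ _).trans ?_
      have h1 : ∑ j, xm (ω j) y s * ‖P j u‖ ^ 2 ≤
          ∑ j, (ω j (y - ∑ i, s i) * ‖P j u0‖ ^ 2 + ∑ i, ω j (s i) * ‖P j (v i)‖ ^ 2) := by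
        refine Finset.sum_le_sum fun j _ => ?_
        have h2 := par_cs (p0 j) (p1 j) (P j u0) (fun i => P j (v i))
        have h3 : P j u0 + ∑ i, P j (v i) = - P j u := by
          rw [← map_sum, ← map_add, hsum, map_neg]
        rw [h3, norm_neg] at h2
        exact h2
      refine h1.trans ?_
      rw [Finset.sum_add_distrib, Finset.sum_comm]
      exact add_le_add (b0 u0 hall.1) (Finset.sum_le_sum fun i _ => b1 i (v i) (hall.2 i))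
    · refine (min_le_right _ _).trans (le_trans ?_ hR)
      refine mul_le_mul_of_nonneg_left ?_ hκ
      have hn : 0 ≤ ∑ i, ‖v i‖ ^ 2 := Finset.sum_nonneg fun i _ => sq_nonneg _
      rw [not_and_or] at hall
      rcases hall with h | h
      · have h1 : r ^ 2 ≤ ‖u0‖ ^ 2 := pow_le_pow_left₀ hr (not_le.1 h).le 2
        linarith
      · push Not at h
        obtain ⟨i, hi⟩ := h
        have h1 : r ^ 2 ≤ ‖v i‖ ^ 2 := pow_le_pow_left₀ hr hi.le 2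
        have h2 : ‖v i‖ ^ 2 ≤ ∑ i, ‖v i‖ ^ 2 :=
          Finset.single_le_sum (f := fun i => ‖v i‖ ^ 2) (fun i _ => sq_nonneg _)
            (Finset.mem_univ i)
        have h3 := sq_nonneg ‖u0‖
        linarith
  · refine le_trans ?_ hR
    have h1 := par_cs (G := F) (q := q) (ω0 := 1) (ω := fun _ => 1) one_pos (fun _ => one_pos)
      u0 v
    rw [hsum, norm_neg] at h1
    simp only [inv_one, one_mul, Finset.sum_const, Finset.card_univ, Fintype.card_fin,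
      nsmul_eq_mul, mul_one] at h1
    have h2 : κ * ‖u‖ ^ 2 / ((q : ℝ) + 1) = κ * ((1 + (q : ℝ))⁻¹ * ‖u‖ ^ 2) := by
      rw [add_comm (1 : ℝ)]
      ring
    rw [h2]
    exact mul_le_mul_of_nonneg_left h1 hκ

/-- Scaling. -/
theorem tt_scale {P : ι → F →L[ℝ] G} {ω : ι → F → ℝ} {κ r c : ℝ} (hc : 0 < c) (y : F)
    (s : Fin q → F) (u : F) :
    TT P (fun j x => ω j x / c) (κ / c) r y s u = TT P ω κ r y s u / c := by
  have h1 : ∀ j, xm (fun x => ω j x / c) y s = xm (ω j) y s / c := by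
    intro j
    unfold xm
    have h2 : (ω j (y - ∑ i, s i) / c)⁻¹ + ∑ i, (ω j (s i) / c)⁻¹ =
        c * ((ω j (y - ∑ i, s i))⁻¹ + ∑ i, (ω j (s i))⁻¹) := by
      rw [mul_add, Finset.mul_sum]
      congr 1
      · rw [inv_div, div_eq_mul_inv]
      · refine Finset.sum_congr rfl fun i _ => ?_
        rw [inv_div, div_eq_mul_inv]
    rw [h2, mul_inv, div_eq_mul_inv, mul_comm]
  unfold TT
  have e1 : ∑ j, xm (fun x => ω j x / c) y s * ‖P j u‖ ^ 2 =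
      (∑ j, xm (ω j) y s * ‖P j u‖ ^ 2) / c := by
    rw [Finset.sum_div]
    refine Finset.sum_congr rfl fun j _ => ?_
    rw [h1]
    ring
  have e2 : κ / c * r ^ 2 = κ * r ^ 2 / c := by ring
  have e3 : κ / c * ‖u‖ ^ 2 / ((q : ℝ) + 1) = κ * ‖u‖ ^ 2 / (q + 1) / c := by ring
  rw [e1, e2, e3, min_div_div_right hc.le, max_div_div_right hc.le]

end Pool.Agent.Lib.MP_8d00da_gt.h42t
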