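import Mathlib
import Pool.Agent.Lib.MP_8d00da_gt.h42t.TA2
import Pool.Agent.Lib.MP_8d00da_gt.h42t.TE1

namespace Pool.Agent.Lib.MP_8d00da_gt.h42r
end Pool.Agent.Lib.MP_8d00da_gt.h42r


/-!
# Densities: the midpoint inequality
-/

namespace Pool.Agent.Lib.MP_8d00da_gt.h42t

open MeasureTheory Set Filter
open Pool.Agent.Lib.MP_8d00da_gt.h25 Pool.Agent.Lib.MP_8d00da_gt.h42
open Pool.Agent.Lib.MP_8d00da_gt.h42s Pool.Agent.Lib.MP_8d00da_gt.h42o
open Pool.Agent.Lib.MP_8d00da_gt.h97r Pool.Agent.Lib.MP_8d00da_gt.h42r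
open scoped Topology NNReal ENNReal

set_option linter.unusedSectionVars false

variable {F : Type*} [NormedAddCommGroup F] [InnerProductSpace ℝ F]
    [FiniteDimensional ℝ F] [MeasurableSpace F] [BorelSpace F]

variable {G : Type*} [NormedAddCommGroup G] [InnerProductSpace ℝ G]
    [FiniteDimensional ℝ G] [MeasurableSpace G] [BorelSpace G]

variable {ι : Type*} [Fintype ι]

variable {q : ℕ}

private theorem te3_split (h : F → ℝ) (x y u : F) (s v : Fin q → F) :
    (h (x + u) * hm h (y - u) (s + v)) * (h (x - u) * hm h (y + u) (s - v)) =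
      (h (x + u) * h (x - u)) *
        ((h (y - ∑ i, s i + (-u - ∑ i, v i)) * h (y - ∑ i, s i - (-u - ∑ i, v i))) *
          ∏ i, (h (s i + v i) * h (s i - v i))) := by
  have e1 : y - u - ∑ i, (s + v) i = y - ∑ i, s i + (-u - ∑ i, v i) := by
    simp only [Pi.add_apply, Finset.sum_add_distrib]
    abel
  have e2 : y + u - ∑ i, (s - v) i = y - ∑ i, s i - (-u - ∑ i, v i) := by
    simp only [Pi.sub_apply, Finset.sum_sub_distrib]
    abel
  unfold hm
  rw [e1, e2, Finset.prod_mul_distrib]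
  simp only [Pi.add_apply, Pi.sub_apply]
  ring

private theorem te3_bound {h : F → ℝ} (h0 : ∀ x, 0 ≤ h x) {L : F → F → ℝ} (L0 : ∀ z v, 0 ≤ L z v)
    (hL : ∀ z v, h (z + v) * h (z - v) ≤ h z ^ 2 * Real.exp (-L z v)) (x y u : F)
    (s v : Fin q → F) :
    (h (x + u) * hm h (y - u) (s + v)) * (h (x - u) * hm h (y + u) (s - v)) ≤
      (h x * hm h y s) ^ 2 *
        Real.exp (-(L (y - ∑ i, s i) (-u - ∑ i, v i) + ∑ i, L (s i) (v i))) := by
  rw [te3_split]
  have a1 : h (x + u) * h (x - u) ≤ h x ^ 2 := by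
    refine (hL x u).trans ?_
    have : Real.exp (-L x u) ≤ 1 := Real.exp_le_one_iff.2 (by have := L0 x u; linarith)
    exact mul_le_of_le_one_right (sq_nonneg _) this
  have a2 := hL (y - ∑ i, s i) (-u - ∑ i, v i)
  have a3 : ∏ i, (h (s i + v i) * h (s i - v i)) ≤
      ∏ i, (h (s i) ^ 2 * Real.exp (-L (s i) (v i))) :=
    Finset.prod_le_prod (fun i _ => mul_nonneg (h0 _) (h0 _)) (fun i _ => hL _ _)
  have b3 : 0 ≤ ∏ i, (h (s i + v i) * h (s i - v i)) :=
    Finset.prod_nonneg fun i _ => mul_nonneg (h0 _) (h0 _)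
  have b2 : 0 ≤ h (y - ∑ i, s i) ^ 2 * Real.exp (-L (y - ∑ i, s i) (-u - ∑ i, v i)) :=
    mul_nonneg (sq_nonneg _) (Real.exp_pos _).le
  refine (mul_le_mul a1 (mul_le_mul a2 a3 b3 b2)
    (mul_nonneg (mul_nonneg (h0 _) (h0 _)) b3) (sq_nonneg _)).trans (le_of_eq ?_)
  rw [Finset.prod_mul_distrib, Finset.prod_pow, ← Real.exp_sum, neg_add, Real.exp_add,
    Finset.sum_neg_distrib]
  unfold hm
  ring

/-- Densities. `A = 1`, so `cm = 1`, `φ± = 1`. `√(W+ W-)` is the product of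
`√(h (x+u) h (x-u)) ≤ h x`, and of `√(h (y_l + v_l) h (y_l - v_l)) ≤ h y_l exp (-L y_l v_l/2)`
with `L y v = max (κ ‖v‖²) (if ‖v‖ ≤ r then ∑ ω_j y ‖P_j v‖² else 0)`. So it is at most
`h x hm h y s exp (-T/2)`, `T ≥ TT P ω κ r y s u` by `tt_le` (where `hm > 0`; otherwise the
product of the `h (y_l)` vanishes), and `exp (-T/2) ≤ 1/(1 + T/2)`; `tt_scale` with `c = 2`. -/
theorem pd_dens {h : F → ℝ} (hh : Measurable h) (h0 : ∀ x, 0 ≤ h x) {Hb : ℝ}
    (hb : ∀ x, h x ≤ Hb) (hi : Integrable h) {κ r : ℝ} (hκ : 0 < κ) (hr : 0 < r)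
    (hs : ∀ x u, h (x + u) * h (x - u) ≤ h x ^ 2 * Real.exp (-(κ * ‖u‖ ^ 2)))
    {P : ι → F →L[ℝ] G} {ω : ι → F → ℝ} (hωm : ∀ j, Measurable (ω j)) (hω0 : ∀ j x, 0 ≤ ω j x)
    (hωp : ∀ j x, 0 < h x → 0 < ω j x) (hωi : ∀ j, Integrable fun x => h x * ω j x)
    (hlow : ∀ x u, ‖u‖ ≤ r →
      h (x + u) * h (x - u) ≤ h x ^ 2 * Real.exp (-∑ j, ω j x * ‖P j u‖ ^ 2)) :
    PD q h (fun _ => 1) P (fun j x => ω j x / 2) (κ / 2) r Hb 1 := by
  classical
  obtain ⟨L, hLdef⟩ : ∃ L : F → F → ℝ, L = fun y v =>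
      max (κ * ‖v‖ ^ 2) (if ‖v‖ ≤ r then ∑ j, ω j y * ‖P j v‖ ^ 2 else 0) := ⟨_, rfl⟩
  have L1 : ∀ z v, κ * ‖v‖ ^ 2 ≤ L z v := by
    intro z v
    rw [hLdef]
    exact le_max_left _ _
  have L2 : ∀ z v, ‖v‖ ≤ r → ∑ j, ω j z * ‖P j v‖ ^ 2 ≤ L z v := by
    intro z v hv
    rw [hLdef]
    simp only [if_pos hv]
    exact le_max_right _ _
  have L0 : ∀ z v, 0 ≤ L z v := fun z v => (by positivity : 0 ≤ κ * ‖v‖ ^ 2).trans (L1 z v)
  have hL : ∀ z v, h (z + v) * h (z - v) ≤ h z ^ 2 * Real.exp (-L z v) := by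
    intro z v
    by_cases hv : ‖v‖ ≤ r
    · rcases le_total (κ * ‖v‖ ^ 2) (∑ j, ω j z * ‖P j v‖ ^ 2) with hle | hle
      · rw [hLdef]
        simp only [if_pos hv, max_eq_right hle]
        exact hlow z v hv
      · rw [hLdef]
        simp only [if_pos hv, max_eq_left hle]
        exact hs z v
    · rw [hLdef]
      simp only [if_neg hv, max_eq_left (by positivity : 0 ≤ κ * ‖v‖ ^ 2)]
      exact hs z v
  have hcm : ∀ (y : F) (s : Fin q → F), cm (fun _ => (1 : ℝ)) y s = 1 := by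
    intro y s
    unfold cm
    have hq : (q : ℝ) + 1 ≠ 0 := by positivity
    simp only [Finset.sum_const, Finset.card_univ, Fintype.card_fin, nsmul_eq_mul, mul_one]
    rw [add_comm, div_self hq]
  have mid1 : ∀ (x y u : F) (s v : Fin q → F),
      (h (x + u) * hm h (y - u) (s + v)) * (h (x - u) * hm h (y + u) (s - v)) ≤
        (h x * hm h y s) ^ 2 := by
    intro x y u s v
    refine (te3_bound h0 L0 hL x y u s v).trans ?_
    refine mul_le_of_le_one_right (sq_nonneg _) (Real.exp_le_one_iff.2 ?_)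
    have h1 := L0 (y - ∑ i, s i) (-u - ∑ i, v i)
    have h2 : 0 ≤ ∑ i, L (s i) (v i) := Finset.sum_nonneg fun i _ => L0 _ _
    linarith
  refine ⟨by positivity, hr, hh, h0, hb, hi, measurable_const, fun _ => zero_le_one,
    fun _ => le_rfl, fun _ _ => one_pos, fun j => (hωm j).div_const 2,
    fun j x => div_nonneg (hω0 j x) zero_le_two, fun j x hx => div_pos (hωp j x hx) two_pos,
    fun j => ?_, mid1, ?_⟩
  · have h1 := (hωi j).div_const 2
    refine h1.congr (Filter.Eventually.of_forall fun x => ?_)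
    simp only
    ring
  · intro x y u s v
    have hone : ((√((1 : ℝ) * cm (fun _ => (1 : ℝ)) (y - u) (s + v)) +
        √((1 : ℝ) * cm (fun _ => (1 : ℝ)) (y + u) (s - v))) / 2) ^ 2 = 1 := by
      rw [hcm, hcm, mul_one, Real.sqrt_one]
      norm_num
    rw [hone, mul_one, hcm, tt_scale two_pos]
    have hn : 0 ≤ hm h y s := hm_nonneg h0 y s
    rcases hn.eq_or_lt with h1 | h1
    · have h2 := mid1 x y u s v
      rw [← h1, mul_zero, zero_pow two_ne_zero] at h2
      rw [Real.sqrt_eq_zero_of_nonpos h2, ← h1, mul_zero, zero_mul]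
    · obtain ⟨p0, p1⟩ := hm_pos h0 h1
      have hT := tt_le (P := P) (ω := ω) hκ.le hr.le (L := L) (y := y) (s := s)
        (fun j => hωp j _ p0) (fun j i => hωp j _ (p1 i)) (fun v => L1 _ v) (fun i v => L1 _ v)
        (fun v hv => L2 _ v hv) (fun i v hv => L2 _ v hv) u v
      obtain ⟨T, hTdef⟩ : ∃ T, T = L (y - ∑ i, s i) (-u - ∑ i, v i) + ∑ i, L (s i) (v i) := ⟨_, rfl⟩
      rw [← hTdef] at hT
      have hTT : 0 ≤ TT P ω κ r y s u := by
        unfold TT
        exact le_max_of_le_right (by positivity)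
      have h3 := te3_bound h0 L0 hL x y u s v
      rw [← hTdef] at h3
      have h4 : √((h (x + u) * hm h (y - u) (s + v)) * (h (x - u) * hm h (y + u) (s - v))) ≤
          h x * hm h y s * Real.exp (-(T / 2)) := by
        rw [Real.sqrt_le_iff]
        refine ⟨mul_nonneg (mul_nonneg (h0 _) hn) (Real.exp_pos _).le, h3.trans (le_of_eq ?_)⟩
        have h6 : Real.exp (-T) = Real.exp (-(T / 2)) ^ 2 := by
          rw [← Real.exp_nat_mul]
          congr 1
          push_cast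
          ring
        rw [h6]
        ring
      refine h4.trans (mul_le_mul_of_nonneg_left ?_ (mul_nonneg (h0 _) hn))
      rw [one_mul, one_pow, Real.exp_neg, ← one_div]
      refine one_div_le_one_div_of_le (by positivity) ?_
      have h5 := Real.add_one_le_exp (T / 2)
      linarith

end Pool.Agent.Lib.MP_8d00da_gt.h42t
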