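import Mathlib
import Pool.Agent.Lib.MP_8d00da_gt.h42.PL

namespace Pool.Agent.Lib.MP_8d00da_gt.h25
end Pool.Agent.Lib.MP_8d00da_gt.h25
namespace Pool.Agent.Lib.MP_8d00da_gt.h42s
end Pool.Agent.Lib.MP_8d00da_gt.h42s
namespace Pool.Agent.Lib.MP_8d00da_gt.h42o
end Pool.Agent.Lib.MP_8d00da_gt.h42o
namespace Pool.Agent.Lib.MP_8d00da_gt.h97r
end Pool.Agent.Lib.MP_8d00da_gt.h97r
namespace Pool.Agent.Lib.MP_8d00da_gt.h42r
end Pool.Agent.Lib.MP_8d00da_gt.h42r


/-!
# Prekopa-Leindler for products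
-/

namespace Pool.Agent.Lib.MP_8d00da_gt.h42t

open MeasureTheory Set Filter
open Pool.Agent.Lib.MP_8d00da_gt.h25 Pool.Agent.Lib.MP_8d00da_gt.h42
open Pool.Agent.Lib.MP_8d00da_gt.h42s Pool.Agent.Lib.MP_8d00da_gt.h42o
open Pool.Agent.Lib.MP_8d00da_gt.h97r Pool.Agent.Lib.MP_8d00da_gt.h42r
open scoped Topology NNReal ENNReal

set_option linter.unusedSectionVars false

variable {F : Type*} [NormedAddCommGroup F] [InnerProductSpace ℝ F]
    [FiniteDimensional ℝ F] [MeasurableSpace F] [BorelSpace F]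

variable {G : Type*} [NormedAddCommGroup G] [InnerProductSpace ℝ G]
    [FiniteDimensional ℝ G] [MeasurableSpace G] [BorelSpace G]

variable {ι : Type*} [Fintype ι]

/-- Prekopa-Leindler for `Fin q → F` with the product measure. Induction on `q` exactly as
`h42.pl_pi` (file `h42/PL.lean`), with `pl_space F` in place of `pl_real`
(`PLProp.prod`, `PLProp.map`, `MeasurableEquiv.piFinSuccAbove`). -/
theorem pi_pl : ∀ q : ℕ, PLProp (volume : Measure (Fin q → F))
  | 0 => by
    intro a ha0 ha1 u v w hu hv hw h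
    have h1a : 0 < 1 - a := by linarith
    have hvol : (volume : Measure (Fin 0 → F)) = Measure.dirac default := by
      rw [volume_pi, Measure.pi_of_empty _ default]
    rw [hvol, lintegral_dirac, lintegral_dirac, lintegral_dirac]
    have := h default default
    rwa [Subsingleton.elim ((1 - a) • (default : Fin 0 → F) + a • default) default] at this
  | n + 1 => by
    have h1 : PLProp ((volume : Measure F).prod (volume : Measure (Fin n → F))) :=
      (pl_space F).prod (pi_pl n)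
    refine h1.map (MeasurableEquiv.piFinSuccAbove (fun _ => F) 0).symm
      (volume_preserving_piFinSuccAbove (fun _ => F) 0).symm ?_
    intro a x y
    ext i
    refine Fin.cases ?_ (fun j => ?_) i
    · simp [MeasurableEquiv.piFinSuccAbove]
    · simp [MeasurableEquiv.piFinSuccAbove]

/-- Midpoint version for real functions (compare `h42.pl_mid`, file `h42/PLReal.lean`). -/
theorem pi_mid {q : ℕ} {u v w : (Fin q → F) → ℝ} (hu0 : ∀ s, 0 ≤ u s) (hv0 : ∀ s, 0 ≤ v s)
    (hw0 : ∀ s, 0 ≤ w s) (hum : Measurable u) (hvm : Measurable v) (hwm : Measurable w)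
    (hui : Integrable u) (hvi : Integrable v) (hwi : Integrable w)
    (h : ∀ s t, u (s + t) * v (s - t) ≤ w s ^ 2) :
    (∫ s, u s) * (∫ s, v s) ≤ (∫ s, w s) ^ 2 := by
  have h2 : ∀ x y : Fin q → F, u x * v y ≤ w ((1 / 2 : ℝ) • (x + y)) ^ 2 := by
    intro x y
    have h3 := h ((1 / 2 : ℝ) • (x + y)) ((1 / 2 : ℝ) • (x - y))
    have e1 : (1 / 2 : ℝ) • (x + y) + (1 / 2 : ℝ) • (x - y) = x := by
      rw [← smul_add]
      have : x + y + (x - y) = (2 : ℝ) • x := by
        rw [two_smul]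
        abel
      rw [this, smul_smul]
      norm_num
    have e2 : (1 / 2 : ℝ) • (x + y) - (1 / 2 : ℝ) • (x - y) = y := by
      rw [← smul_sub]
      have : x + y - (x - y) = (2 : ℝ) • y := by
        rw [two_smul]
        abel
      rw [this, smul_smul]
      norm_num
    rwa [e1, e2] at h3
  have iu : 0 ≤ ∫ x, u x := integral_nonneg hu0
  have iv : 0 ≤ ∫ x, v x := integral_nonneg hv0
  have h12 : (1 - 1 / 2 : ℝ) = 1 / 2 := by norm_num
  have key0 := pi_pl (F := F) q (1 / 2) (by norm_num) (by norm_num)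
    (fun x => ENNReal.ofReal (u x)) (fun x => ENNReal.ofReal (v x))
    (fun x => ENNReal.ofReal (w x)) hum.ennreal_ofReal hvm.ennreal_ofReal hwm.ennreal_ofReal
    (fun x y => by
      rw [h12, ENNReal.ofReal_rpow_of_nonneg (hu0 x) (by norm_num),
        ENNReal.ofReal_rpow_of_nonneg (hv0 y) (by norm_num),
        ← ENNReal.ofReal_mul (Real.rpow_nonneg (hu0 x) _)]
      apply ENNReal.ofReal_le_ofReal
      have e : (1 / 2 : ℝ) • x + (1 / 2 : ℝ) • y = (1 / 2 : ℝ) • (x + y) := by
        rw [smul_add]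
      rw [e, ← Real.mul_rpow (hu0 x) (hv0 y), ← Real.sqrt_eq_rpow]
      calc Real.sqrt (u x * v y) ≤ Real.sqrt (w ((1 / 2 : ℝ) • (x + y)) ^ 2) :=
            Real.sqrt_le_sqrt (h2 x y)
        _ = w ((1 / 2 : ℝ) • (x + y)) := Real.sqrt_sq (hw0 _))
  rw [h12, ← ofReal_integral_eq_lintegral_ofReal hui (Eventually.of_forall hu0),
    ← ofReal_integral_eq_lintegral_ofReal hvi (Eventually.of_forall hv0),
    ← ofReal_integral_eq_lintegral_ofReal hwi (Eventually.of_forall hw0),
    ENNReal.ofReal_rpow_of_nonneg iu (by norm_num),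
    ENNReal.ofReal_rpow_of_nonneg iv (by norm_num),
    ← ENNReal.ofReal_mul (Real.rpow_nonneg iu _)] at key0
  have key := (ENNReal.ofReal_le_ofReal_iff (integral_nonneg hw0)).1 key0
  rw [← Real.mul_rpow iu iv, ← Real.sqrt_eq_rpow] at key
  have := pow_le_pow_left₀ (Real.sqrt_nonneg _) key 2
  rwa [Real.sq_sqrt (mul_nonneg iu iv)] at this

end Pool.Agent.Lib.MP_8d00da_gt.h42t
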