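import Mathlib
import Pool.Agent.Lib.MP_8d00da_gt.h42t.TA2

namespace Pool.Agent.Lib.MP_8d00da_gt.h42r
end Pool.Agent.Lib.MP_8d00da_gt.h42r


/-!
# The averaged functions
-/

namespace Pool.Agent.Lib.MP_8d00da_gt.h42t

open MeasureTheory Set Filter
open Pool.Agent.Lib.MP_8d00da_gt.h25 Pool.Agent.Lib.MP_8d00da_gt.h42
open Pool.Agent.Lib.MP_8d00da_gt.h42s Pool.Agent.Lib.MP_8d00da_gt.h42o
open Pool.Agent.Lib.MP_8d00da_gt.h97r Pool.Agent.Lib.MP_8d00da_gt.h42r
open scoped Topology NNReal ENNReal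

set_option linter.unusedSectionVars false

variable {F : Type*} [NormedAddCommGroup F] [InnerProductSpace ℝ F]
    [FiniteDimensional ℝ F] [MeasurableSpace F] [BorelSpace F]

variable {G : Type*} [NormedAddCommGroup G] [InnerProductSpace ℝ G]
    [FiniteDimensional ℝ G] [MeasurableSpace G] [BorelSpace G]

variable {ι : Type*} [Fintype ι]

variable {q : ℕ}

/-- All by `StronglyMeasurable.integral_prod_right` and `hm_meas`, `cm_meas`, `xm_meas`. -/
theorem P0_meas {h : F → ℝ} (hh : Measurable h) : Measurable (P0 q h) :=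
  ((hm_meas (q := q) hh).stronglyMeasurable.integral_prod_right'
    (ν := (volume : Measure (Fin q → F)))).measurable

theorem P1_meas {h A : F → ℝ} (hh : Measurable h) (hA : Measurable A) :
    Measurable (P1 q h A) :=
  ((((hm_meas (q := q) hh).mul (cm_meas (q := q) hA).sqrt)).stronglyMeasurable.integral_prod_right'
    (ν := (volume : Measure (Fin q → F)))).measurable

theorem P2_meas {h A : F → ℝ} (hh : Measurable h) (hA : Measurable A) :
    Measurable (P2 q h A) :=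
  ((((hm_meas (q := q) hh).mul (cm_meas (q := q) hA))).stronglyMeasurable.integral_prod_right'
    (ν := (volume : Measure (Fin q → F)))).measurable

theorem oh_meas {h ω : F → ℝ} (hh : Measurable h) (hω : Measurable ω) :
    Measurable (oh q h ω) :=
  ((((hm_meas (q := q) hh).mul (xm_meas (q := q) hω))).stronglyMeasurable.integral_prod_right'
    (ν := (volume : Measure (Fin q → F)))).measurable

theorem bt_meas {h A : F → ℝ} {P : ι → F →L[ℝ] G} {ω : ι → F → ℝ} (hh : Measurable h)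
    (hA : Measurable A) (hω : ∀ j, Measurable (ω j)) (κ r ρ : ℝ) :
    Measurable (bt q h A P ω κ r ρ) := by
  have h1 : Measurable fun p : F × (Fin q → F) => bS P ω κ p.1 p.2 := by
    unfold bS
    refine measurable_const.add ?_
    exact Finset.measurable_sum _ fun j _ => (xm_meas (q := q) (hω j)).mul_const _
  have h2 : Measurable fun p : F × (Fin q → F) => tS A P ω κ r ρ p.1 p.2 := by
    unfold tS
    refine measurable_const.min ?_
    exact ((h1.mul_const _).div (cm_meas (q := q) hA)).add ((h1.mul_const _).div_const _)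
  have h3 : Measurable fun p : F × (Fin q → F) =>
      hm h p.1 p.2 * ((1 + bS P ω κ p.1 p.2) * tS A P ω κ r ρ p.1 p.2) :=
    (hm_meas (q := q) hh).mul ((measurable_const.add h1).mul h2)
  exact (h3.stronglyMeasurable.integral_prod_right'
    (ν := (volume : Measure (Fin q → F)))).measurable

private theorem ta3_int {h : F → ℝ} (hh : Measurable h) (h0 : ∀ x, 0 ≤ h x) {Hb : ℝ}
    (hb : ∀ x, h x ≤ Hb) (hi : Integrable h) (y : F) {g : (Fin q → F) → ℝ} (hg : Measurable g)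
    {C : ℝ} (hC : ∀ s, |g s| ≤ C) : Integrable fun s : Fin q → F => hm h y s * g s := by
  have h1 : Integrable fun s : Fin q → F => hm h y s := hm_int hh h0 hb hi y
  refine h1.mul_bdd (c := C) hg.aestronglyMeasurable ?_
  exact Filter.Eventually.of_forall fun s => by rw [Real.norm_eq_abs]; exact hC s

private theorem ta3_cm_meas {A : F → ℝ} (hA : Measurable A) (y : F) :
    Measurable fun s : Fin q → F => cm A y s :=
  (cm_meas (q := q) hA).comp measurable_prodMk_left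

private theorem ta3_int1 {h A : F → ℝ} (hh : Measurable h) (h0 : ∀ x, 0 ≤ h x) {Hb : ℝ}
    (hb : ∀ x, h x ≤ Hb) (hi : Integrable h) (hA : Measurable A) {Ab : ℝ}
    (hAb : ∀ x, A x ≤ Ab) (y : F) : Integrable fun s : Fin q → F => hm h y s * √(cm A y s) := by
  refine ta3_int hh h0 hb hi y (ta3_cm_meas hA y).sqrt (C := √Ab) fun s => ?_
  rw [abs_of_nonneg (Real.sqrt_nonneg _)]
  exact Real.sqrt_le_sqrt (cm_le hAb y s)

private theorem ta3_int2 {h A : F → ℝ} (hh : Measurable h) (h0 : ∀ x, 0 ≤ h x) {Hb : ℝ}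
    (hb : ∀ x, h x ≤ Hb) (hi : Integrable h) (hA : Measurable A) (A0 : ∀ x, 0 ≤ A x) {Ab : ℝ}
    (hAb : ∀ x, A x ≤ Ab) (y : F) : Integrable fun s : Fin q → F => hm h y s * cm A y s := by
  refine ta3_int hh h0 hb hi y (ta3_cm_meas hA y) (C := Ab) fun s => ?_
  rw [abs_of_nonneg (cm_nonneg A0 y s)]
  exact cm_le hAb y s

theorem P0_nonneg {h : F → ℝ} (h0 : ∀ x, 0 ≤ h x) (y : F) : 0 ≤ P0 q h y :=
  integral_nonneg fun s => hm_nonneg h0 y s

theorem P0_le {h : F → ℝ} (hh : Measurable h) (h0 : ∀ x, 0 ≤ h x) {Hb : ℝ}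
    (hb : ∀ x, h x ≤ Hb) (hi : Integrable h) (y : F) : P0 q h y ≤ Hb * (∫ x, h x) ^ q := by
  have h1 : ∫ s : Fin q → F, ∏ i, h (s i) = (∫ x, h x) ^ q := by
    have := integral_fintype_prod_volume_eq_pow (ι := Fin q) (E := F) h
    rwa [Fintype.card_fin] at this
  calc P0 q h y ≤ ∫ s : Fin q → F, Hb * ∏ i, h (s i) :=
        integral_mono (hm_int hh h0 hb hi y) ((prod_int hi).const_mul Hb)
          fun s => hm_le h0 hb y s
    _ = Hb * (∫ x, h x) ^ q := by rw [integral_const_mul, h1]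

theorem P1_nonneg {h A : F → ℝ} (h0 : ∀ x, 0 ≤ h x) (y : F) : 0 ≤ P1 q h A y :=
  integral_nonneg fun s => mul_nonneg (hm_nonneg h0 y s) (Real.sqrt_nonneg _)

theorem P1_le {h A : F → ℝ} (hh : Measurable h) (h0 : ∀ x, 0 ≤ h x) {Hb : ℝ}
    (hb : ∀ x, h x ≤ Hb) (hi : Integrable h) (hA : Measurable A) (A0 : ∀ x, 0 ≤ A x) {Ab : ℝ}
    (hAb : ∀ x, A x ≤ Ab) (y : F) : P1 q h A y ≤ √Ab * P0 q h y := by
  have h1 : √Ab * P0 q h y = ∫ s : Fin q → F, √Ab * hm h y s := by
    rw [integral_const_mul]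
    rfl
  rw [h1]
  refine integral_mono (ta3_int1 hh h0 hb hi hA hAb y) ((hm_int hh h0 hb hi y).const_mul _)
    fun s => ?_
  change hm h y s * √(cm A y s) ≤ √Ab * hm h y s
  rw [mul_comm]
  exact mul_le_mul_of_nonneg_right (Real.sqrt_le_sqrt (cm_le hAb y s)) (hm_nonneg h0 y s)

/-- Cauchy-Schwarz. -/
theorem P1_sq {h A : F → ℝ} (hh : Measurable h) (h0 : ∀ x, 0 ≤ h x) {Hb : ℝ}
    (hb : ∀ x, h x ≤ Hb) (hi : Integrable h) (hA : Measurable A) (A0 : ∀ x, 0 ≤ A x) {Ab : ℝ}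
    (hAb : ∀ x, A x ≤ Ab) (y : F) : P1 q h A y ^ 2 ≤ P0 q h y * P2 q h A y := by
  have i0 : Integrable fun s : Fin q → F => hm h y s := hm_int hh h0 hb hi y
  have i1 : Integrable fun s : Fin q → F => hm h y s * √(cm A y s) :=
    ta3_int1 hh h0 hb hi hA hAb y
  have i2 : Integrable fun s : Fin q → F => hm h y s * cm A y s :=
    ta3_int2 hh h0 hb hi hA A0 hAb y
  have hq : ∀ t : ℝ, 0 ≤ P0 q h y * (t * t) + (-2 * P1 q h A y) * t + P2 q h A y := by
    intro t
    have h1 : P0 q h y * (t * t) + (-2 * P1 q h A y) * t + P2 q h A y =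
        ∫ s : Fin q → F, hm h y s * (√(cm A y s) - t) ^ 2 := by
      have h2 : ∀ s : Fin q → F, hm h y s * (√(cm A y s) - t) ^ 2 =
          (t * t) * hm h y s + (-2 * t) * (hm h y s * √(cm A y s)) + hm h y s * cm A y s := by
        intro s
        have h3 := Real.sq_sqrt (cm_nonneg A0 y s)
        calc hm h y s * (√(cm A y s) - t) ^ 2 = (t * t) * hm h y s +
              (-2 * t) * (hm h y s * √(cm A y s)) + hm h y s * √(cm A y s) ^ 2 := by ring
          _ = _ := by rw [h3]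
      simp only [h2]
      have i3 : Integrable fun s : Fin q → F => t * t * hm h y s +
          -2 * t * (hm h y s * √(cm A y s)) := (i0.const_mul (t * t)).add (i1.const_mul (-2 * t))
      rw [integral_add i3 i2, integral_add (i0.const_mul (t * t)) (i1.const_mul (-2 * t)),
        integral_const_mul, integral_const_mul]
      simp only [P0, P1, P2]
      ring
    rw [h1]
    exact integral_nonneg fun s => mul_nonneg (hm_nonneg h0 y s) (sq_nonneg _)
  have hd := discrim_le_zero hq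
  rw [discrim] at hd
  nlinarith

theorem P2_nonneg {h A : F → ℝ} (h0 : ∀ x, 0 ≤ h x) (A0 : ∀ x, 0 ≤ A x) (y : F) :
    0 ≤ P2 q h A y :=
  integral_nonneg fun s => mul_nonneg (hm_nonneg h0 y s) (cm_nonneg A0 y s)

theorem P2_le {h A : F → ℝ} (hh : Measurable h) (h0 : ∀ x, 0 ≤ h x) {Hb : ℝ}
    (hb : ∀ x, h x ≤ Hb) (hi : Integrable h) (hA : Measurable A) (A0 : ∀ x, 0 ≤ A x) {Ab : ℝ}
    (hAb : ∀ x, A x ≤ Ab) (y : F) : P2 q h A y ≤ Ab * P0 q h y := by
  have h1 : Ab * P0 q h y = ∫ s : Fin q → F, Ab * hm h y s := by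
    rw [integral_const_mul]
    rfl
  rw [h1]
  refine integral_mono (ta3_int2 hh h0 hb hi hA A0 hAb y) ((hm_int hh h0 hb hi y).const_mul _)
    fun s => ?_
  change hm h y s * cm A y s ≤ Ab * hm h y s
  rw [mul_comm]
  exact mul_le_mul_of_nonneg_right (cm_le hAb y s) (hm_nonneg h0 y s)

/-- If `P0 > 0` the weight is positive on a set of positive measure, where `xm > 0`. -/
theorem oh_pos {h ω : F → ℝ} (hh : Measurable h) (h0 : ∀ x, 0 ≤ h x) {Hb : ℝ}
    (hb : ∀ x, h x ≤ Hb) (hi : Integrable h) (hω : Measurable ω) (ω0 : ∀ x, 0 ≤ ω x)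
    (ωpos : ∀ x, 0 < h x → 0 < ω x) (ωi : Integrable fun x => h x * ω x) {y : F}
    (hp : 0 < P0 (q + 1) h y) : 0 < oh (q + 1) h ω y := by
  have i0 : Integrable fun s : Fin (q + 1) → F => hm h y s := hm_int hh h0 hb hi y
  have i1 : Integrable fun s : Fin (q + 1) → F => hm h y s * xm ω y s :=
    hmx_int hh h0 hb hi hω ω0 ωpos ωi y
  have n0 : ∀ s : Fin (q + 1) → F, 0 ≤ hm h y s := fun s => hm_nonneg h0 y s
  have n1 : ∀ s : Fin (q + 1) → F, 0 ≤ hm h y s * xm ω y s := fun s =>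
    mul_nonneg (n0 s) (xm_nonneg ω0 y s)
  have h1 : 0 < volume (Function.support fun s : Fin (q + 1) → F => hm h y s) :=
    (integral_pos_iff_support_of_nonneg n0 i0).1 hp
  refine (integral_pos_iff_support_of_nonneg n1 i1).2 (h1.trans_le (measure_mono ?_))
  intro s hs
  rw [Function.mem_support] at hs ⊢
  have h2 : 0 < hm h y s := lt_of_le_of_ne (n0 s) (Ne.symm hs)
  exact (mul_pos h2 (xm_pos h0 ωpos h2)).ne'

theorem oh_nonneg {h ω : F → ℝ} (h0 : ∀ x, 0 ≤ h x) (ω0 : ∀ x, 0 ≤ ω x) (y : F) :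
    0 ≤ oh q h ω y :=
  integral_nonneg fun s => mul_nonneg (hm_nonneg h0 y s) (xm_nonneg ω0 y s)

/-- If `P1 = 0` then `P0 = 0`. -/
theorem P0_zero {h A : F → ℝ} (hh : Measurable h) (h0 : ∀ x, 0 ≤ h x) {Hb : ℝ}
    (hb : ∀ x, h x ≤ Hb) (hi : Integrable h) (hA : Measurable A) (A0 : ∀ x, 0 ≤ A x) {Ab : ℝ}
    (hAb : ∀ x, A x ≤ Ab) (Apos : ∀ x, 0 < h x → 0 < A x) {y : F} (hp : P1 q h A y = 0) :
    P0 q h y = 0 := by
  have i1 : Integrable fun s : Fin q → F => hm h y s * √(cm A y s) :=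
    ta3_int1 hh h0 hb hi hA hAb y
  have n1 : ∀ s : Fin q → F, 0 ≤ hm h y s * √(cm A y s) := fun s =>
    mul_nonneg (hm_nonneg h0 y s) (Real.sqrt_nonneg _)
  have h1 := (integral_eq_zero_iff_of_nonneg n1 i1).1 hp
  refine integral_eq_zero_of_ae ?_
  filter_upwards [h1] with s hs
  have hs' : hm h y s * √(cm A y s) = 0 := hs
  rcases (hm_nonneg h0 y s).eq_or_lt with h2 | h2
  · exact h2.symm
  · exact absurd hs' (mul_pos h2 (Real.sqrt_pos.2 (cm_pos h0 A0 Apos h2))).ne'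

end Pool.Agent.Lib.MP_8d00da_gt.h42t
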