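import Mathlib
import Pool.Agent.Lib.MP_8d00da_gt.h42t.TA3

namespace Pool.Agent.Lib.MP_8d00da_gt.h42r
end Pool.Agent.Lib.MP_8d00da_gt.h42r


/-!
# Inner Prekopa-Leindler inequality
-/

namespace Pool.Agent.Lib.MP_8d00da_gt.h42t

open MeasureTheory Set Filter
open Pool.Agent.Lib.MP_8d00da_gt.h25 Pool.Agent.Lib.MP_8d00da_gt.h42
open Pool.Agent.Lib.MP_8d00da_gt.h42s Pool.Agent.Lib.MP_8d00da_gt.h42o
open Pool.Agent.Lib.MP_8d00da_gt.h97r Pool.Agent.Lib.MP_8d00da_gt.h42r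
open scoped Topology NNReal ENNReal

set_option linter.unusedSectionVars false

variable {F : Type*} [NormedAddCommGroup F] [InnerProductSpace ℝ F]
    [FiniteDimensional ℝ F] [MeasurableSpace F] [BorelSpace F]

variable {G : Type*} [NormedAddCommGroup G] [InnerProductSpace ℝ G]
    [FiniteDimensional ℝ G] [MeasurableSpace G] [BorelSpace G]

variable {ι : Type*} [Fintype ι]

variable {q : ℕ}

lemma tb1_hm_nonneg {h : F → ℝ} (h0 : ∀ x, 0 ≤ h x) (y : F) (s : Fin q → F) :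
    0 ≤ hm h y s :=
  mul_nonneg (h0 _) (Finset.prod_nonneg fun i _ => h0 _)

lemma tb1_max_mul {p m e₁ e₂ e : ℝ} (hp : 0 ≤ p) (hm : 0 ≤ m) (he : 0 ≤ e)
    (h12 : |e₁ + e₂| ≤ 2 * e) :
    max (p + e₁) 0 * max (m + e₂) 0 ≤ ((p + m) / 2 + e) ^ 2 := by
  have hr : 0 ≤ ((p + m) / 2 + e) ^ 2 := sq_nonneg _
  rcases le_total (p + e₁) 0 with h1 | h1
  · rw [max_eq_right h1, zero_mul]; exact hr
  rcases le_total (m + e₂) 0 with h2 | h2
  · rw [max_eq_right h2, mul_zero]; exact hr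
  rw [max_eq_left h1, max_eq_left h2]
  have h3 := (abs_le.mp h12).2
  have h4 : (p + e₁) * (m + e₂) ≤ (((p + e₁) + (m + e₂)) / 2) ^ 2 := by
    nlinarith [sq_nonneg ((p + e₁) - (m + e₂))]
  refine h4.trans ?_
  apply pow_le_pow_left₀ (by linarith)
  linarith

lemma tb1_abs {Wp Wm W fp fm a C T e₁ e₂ e : ℝ} (hWp : 0 ≤ Wp) (hWm : 0 ≤ Wm) (hW : 0 ≤ W)
    (hfp : 0 ≤ fp) (hfm : 0 ≤ fm) (ha : 0 ≤ a) (hC : 0 ≤ C) (hT : 0 ≤ T) (he : 0 ≤ e)
    (h12 : |e₁ + e₂| ≤ 2 * e) (m1 : Wp * Wm ≤ W ^ 2)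
    (m2 : √(Wp * Wm) * ((fp + fm) / 2) ^ 2 ≤ W * (a * (C ^ 2 / (C + T)))) :
    (Wp * (max (fp + e₁) 0) ^ 2) * (Wm * (max (fm + e₂) 0) ^ 2) ≤
      (W * (a * (C ^ 2 / (C + T)) + 2 * e * √(a * C) + e ^ 2)) ^ 2 := by
  have hWW : 0 ≤ Wp * Wm := mul_nonneg hWp hWm
  set p := √(Wp * Wm) with hp
  have hp0 : 0 ≤ p := Real.sqrt_nonneg _
  have hpsq : p ^ 2 = Wp * Wm := Real.sq_sqrt hWW
  have hpW : p ≤ W := by
    rw [hp]
    exact Real.sqrt_le_iff.mpr ⟨hW, m1⟩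
  set m := (fp + fm) / 2 with hm
  have hm0 : 0 ≤ m := by positivity
  set X := a * (C ^ 2 / (C + T)) with hX
  have hX0 : 0 ≤ X := by positivity
  have hXC : X ≤ a * C := by
    rw [hX]
    apply mul_le_mul_of_nonneg_left _ ha
    rcases eq_or_lt_of_le hC with h0 | h0
    · rw [← h0]; simp
    · rw [div_le_iff₀ (by linarith)]
      nlinarith [mul_nonneg hC hT]
  have hpm : p * m ≤ W * √(a * C) := by
    have h1 : (p * m) ^ 2 ≤ (W * √(a * C)) ^ 2 := by
      rw [mul_pow W, Real.sq_sqrt (mul_nonneg ha hC)]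
      calc (p * m) ^ 2 = (p * m ^ 2) * p := by ring
        _ ≤ (W * X) * W := mul_le_mul m2 hpW hp0 (mul_nonneg hW hX0)
        _ ≤ (W * (a * C)) * W := by gcongr
        _ = W ^ 2 * (a * C) := by ring
    exact abs_le_of_sq_le_sq' h1 (by positivity) |>.2
  have hmm := tb1_max_mul hfp hfm he h12
  set M1 := max (fp + e₁) 0 with hM1
  set M2 := max (fm + e₂) 0 with hM2
  have hM10 : 0 ≤ M1 := le_max_right _ _
  have hM20 : 0 ≤ M2 := le_max_right _ _
  have key : p * (M1 * M2) ≤ W * (X + 2 * e * √(a * C) + e ^ 2) := by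
    calc p * (M1 * M2) ≤ p * (m + e) ^ 2 := mul_le_mul_of_nonneg_left hmm hp0
      _ = p * m ^ 2 + 2 * e * (p * m) + e ^ 2 * p := by ring
      _ ≤ W * X + 2 * e * (W * √(a * C)) + e ^ 2 * W := by
        have h1 : 2 * e * (p * m) ≤ 2 * e * (W * √(a * C)) :=
          mul_le_mul_of_nonneg_left hpm (by positivity)
        have h2 : e ^ 2 * p ≤ e ^ 2 * W := mul_le_mul_of_nonneg_left hpW (sq_nonneg _)
        linarith
      _ = W * (X + 2 * e * √(a * C) + e ^ 2) := by ring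
  calc (Wp * M1 ^ 2) * (Wm * M2 ^ 2) = (p * (M1 * M2)) ^ 2 := by
        rw [mul_pow p, hpsq]; ring
    _ ≤ _ := pow_le_pow_left₀ (by positivity) key 2

/-- Pointwise inequality. With `W± = h (x±u) hm h (y∓u) (s±v)`, `φ± = √(A cm A)` at the same
points, `W = h x hm h y s`, `a = A x`, `C = cm A y s`, `T = TT ..`: by `mid1` `√(W+ W-) ≤ W`, by
`mid2` `√(W+ W-) ((φ+ + φ-)/2)² ≤ W a C²/(C+T) ≤ W a C`, hence
`√(W+ W-) (φ+ + φ-)/2 ≤ W √(a C)` (`p m² ≤ W² · X`, `p ≤ W` give `p m = √(p m²) √p`). And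
`max (φ+ + e₁) 0 * max (φ- + e₂) 0 ≤ ((φ+ + φ-)/2 + e)²` if `|e₁ + e₂| ≤ 2 e`. So the product of
the two square roots is at most `√(W+W-) ((φ+ + φ-)/2 + e)² ≤ W (a C²/(C+T) + 2 e √(a C) + e²)`. -/
theorem tb_point {h A : F → ℝ} {P : ι → F →L[ℝ] G} {ω : ι → F → ℝ} {κ r Hb Ab : ℝ}
    (H : PD q h A P ω κ r Hb Ab) (x y u : F) (s v : Fin q → F) {e₁ e₂ e : ℝ} (he : 0 ≤ e)
    (h12 : |e₁ + e₂| ≤ 2 * e) :
    (h (x + u) * hm h (y - u) (s + v) * (max (√(A (x + u) * cm A (y - u) (s + v)) + e₁) 0) ^ 2) *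
      (h (x - u) * hm h (y + u) (s - v) *
        (max (√(A (x - u) * cm A (y + u) (s - v)) + e₂) 0) ^ 2) ≤
      (h x * hm h y s * (A x * (cm A y s ^ 2 / (cm A y s + TT P ω κ r y s u)) +
        2 * e * √(A x * cm A y s) + e ^ 2)) ^ 2 := by
  have hT : 0 ≤ TT P ω κ r y s u := by
    unfold TT
    refine le_max_of_le_right ?_
    have := H.κpos
    positivity
  exact tb1_abs (mul_nonneg (H.h0 _) (tb1_hm_nonneg H.h0 _ _))
    (mul_nonneg (H.h0 _) (tb1_hm_nonneg H.h0 _ _)) (mul_nonneg (H.h0 _) (tb1_hm_nonneg H.h0 _ _))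
    (Real.sqrt_nonneg _) (Real.sqrt_nonneg _) (H.A0 x) (cm_nonneg H.A0 y s) hT he h12
    (H.mid1 x y u s v) (H.mid2 x y u s v)

lemma tb1_bound {h A : F → ℝ} (h0 : ∀ x, 0 ≤ h x) (A0 : ∀ x, 0 ≤ A x) {Ab : ℝ}
    (hAb : ∀ x, A x ≤ Ab) (f : F → ℝ) (c ε : ℝ) (z x : F) (s : Fin q → F) :
    h x * hm h (z - x) s * (max (√(A x * cm A (z - x) s) + ε * (f x - c)) 0) ^ 2 ≤
      hm h (z - x) s * (h x * (√(A x * Ab) + |ε * (f x - c)|) ^ 2) := by
  have h1 : (max (√(A x * cm A (z - x) s) + ε * (f x - c)) 0) ^ 2 ≤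
      (√(A x * Ab) + |ε * (f x - c)|) ^ 2 := by
    apply pow_le_pow_left₀ (le_max_right _ _)
    apply max_le
    · exact add_le_add (Real.sqrt_le_sqrt (mul_le_mul_of_nonneg_left (cm_le hAb _ _) (A0 x)))
        (le_abs_self _)
    · positivity
  have h2 : 0 ≤ h x * hm h (z - x) s := mul_nonneg (h0 _) (tb1_hm_nonneg h0 _ _)
  have h3 := mul_le_mul_of_nonneg_left h1 h2
  linarith

/-- `RR` is finite: the integrand is bounded by a constant times `hm h (z-x) s`. -/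
theorem rr_int {h A : F → ℝ} (hh : Measurable h) (h0 : ∀ x, 0 ≤ h x) {Hb : ℝ}
    (hb : ∀ x, h x ≤ Hb) (hi : Integrable h) (hA : Measurable A) (A0 : ∀ x, 0 ≤ A x) {Ab : ℝ}
    (hAb : ∀ x, A x ≤ Ab) (f : F → ℝ) (c ε : ℝ) (z x : F) :
    Integrable fun s : Fin q → F =>
      h x * hm h (z - x) s * (max (√(A x * cm A (z - x) s) + ε * (f x - c)) 0) ^ 2 := by
  have hmi := (hm_int (q := q) hh h0 hb hi (z - x)).mul_const
    (h x * (√(A x * Ab) + |ε * (f x - c)|) ^ 2)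
  refine hmi.mono' ?_ (Filter.Eventually.of_forall fun s => ?_)
  · have e1 : Measurable fun s : Fin q → F => hm h (z - x) s :=
      (hm_meas hh).comp (measurable_const.prodMk measurable_id)
    have e2 : Measurable fun s : Fin q → F => cm A (z - x) s :=
      (cm_meas hA).comp (measurable_const.prodMk measurable_id)
    exact ((e1.const_mul _).mul ((((e2.const_mul _).sqrt.add_const _).max
      measurable_const).pow_const 2)).aestronglyMeasurable
  · rw [Real.norm_eq_abs, abs_of_nonneg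
      (mul_nonneg (mul_nonneg (h0 _) (tb1_hm_nonneg h0 _ _)) (sq_nonneg _))]
    have := tb1_bound (q := q) h0 A0 hAb f c ε z x s
    linarith

/-- `RR` is measurable and integrable in `x` (bounded by `const * h x * P0 (z - x)`). -/
theorem rr_int2 {h A : F → ℝ} (hh : Measurable h) (h0 : ∀ x, 0 ≤ h x) {Hb : ℝ}
    (hb : ∀ x, h x ≤ Hb) (hi : Integrable h) (hA : Measurable A) (A0 : ∀ x, 0 ≤ A x) {Ab : ℝ}
    (hAb : ∀ x, A x ≤ Ab) {f : F → ℝ} (hf : BL f) (c ε : ℝ) (z : F) :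
    Measurable (RR q h A f c ε z) ∧ Integrable (RR q h A f c ε z) ∧
      ∀ x, 0 ≤ RR q h A f c ε z x := by
  obtain ⟨⟨L, hL⟩, Bf, hBf⟩ := hf
  have hfm : Measurable f := hL.continuous.measurable
  have hmeas : Measurable (RR q h A f c ε z) := by
    have e0 : Measurable fun p : F × (Fin q → F) => (z - p.1, p.2) :=
      (measurable_const.sub measurable_fst).prodMk measurable_snd
    have e1 : Measurable fun p : F × (Fin q → F) => hm h (z - p.1) p.2 := (hm_meas hh).comp e0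
    have e2 : Measurable fun p : F × (Fin q → F) => cm A (z - p.1) p.2 := (cm_meas hA).comp e0
    have e3 : Measurable fun p : F × (Fin q → F) => h p.1 * hm h (z - p.1) p.2 *
        (max (√(A p.1 * cm A (z - p.1) p.2) + ε * (f p.1 - c)) 0) ^ 2 :=
      ((hh.comp measurable_fst).mul e1).mul ((((((hA.comp measurable_fst).mul e2).sqrt).add
        (((hfm.comp measurable_fst).sub_const c).const_mul ε)).max measurable_const).pow_const 2)
    exact (e3.stronglyMeasurable.integral_prod_right (ν := volume)).measurable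
  have hnn : ∀ x, 0 ≤ RR q h A f c ε z x := fun x =>
    integral_nonneg fun s => mul_nonneg (mul_nonneg (h0 _) (tb1_hm_nonneg h0 _ _)) (sq_nonneg _)
  refine ⟨hmeas, ?_, hnn⟩
  have hAb0 : 0 ≤ Ab := (A0 z).trans (hAb z)
  set K : ℝ := (√(Ab * Ab) + |ε| * (Bf + |c|)) ^ 2 with hK
  have hi2 := hi.const_mul (K * (Hb * (∫ x, h x) ^ q))
  refine hi2.mono' hmeas.aestronglyMeasurable (Filter.Eventually.of_forall fun x => ?_)
  rw [Real.norm_eq_abs, abs_of_nonneg (hnn x)]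
  have hle : RR q h A f c ε z x ≤ ∫ s : Fin q → F, h x * K * hm h (z - x) s := by
    refine integral_mono (rr_int hh h0 hb hi hA A0 hAb f c ε z x)
      ((hm_int (q := q) hh h0 hb hi (z - x)).const_mul _) fun s => ?_
    have h1 := tb1_bound (q := q) h0 A0 hAb f c ε z x s
    have h2 : (√(A x * Ab) + |ε * (f x - c)|) ^ 2 ≤ K := by
      apply pow_le_pow_left₀ (by positivity)
      apply add_le_add
      · exact Real.sqrt_le_sqrt (mul_le_mul_of_nonneg_right (hAb x) hAb0)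
      · rw [abs_mul]
        apply mul_le_mul_of_nonneg_left _ (abs_nonneg _)
        exact (abs_sub _ _).trans (add_le_add (hBf x) le_rfl)
    have h3 : 0 ≤ hm h (z - x) s := tb1_hm_nonneg h0 _ _
    have h4 : hm h (z - x) s * (h x * (√(A x * Ab) + |ε * (f x - c)|) ^ 2) ≤
        hm h (z - x) s * (h x * K) :=
      mul_le_mul_of_nonneg_left (mul_le_mul_of_nonneg_left h2 (h0 x)) h3
    change h x * hm h (z - x) s * (max (√(A x * cm A (z - x) s) + ε * (f x - c)) 0) ^ 2 ≤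
      h x * K * hm h (z - x) s
    linarith
  refine hle.trans ?_
  rw [integral_const_mul]
  have hP := P0_le (q := q) hh h0 hb hi (z - x)
  have h5 : (∫ s : Fin q → F, hm h (z - x) s) = P0 q h (z - x) := rfl
  rw [h5]
  have h6 : h x * K * P0 q h (z - x) ≤ h x * K * (Hb * (∫ x, h x) ^ q) :=
    mul_le_mul_of_nonneg_left hP (mul_nonneg (h0 x) (sq_nonneg _))
  linarith

end Pool.Agent.Lib.MP_8d00da_gt.h42t
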