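import Mathlib
import Pool.Agent.Lib.MP_8d00da_gt.h42t.TA1
import Pool.Agent.Lib.MP_8d00da_gt.h42t.TB1

namespace Pool.Agent.Lib.MP_8d00da_gt.h42r
end Pool.Agent.Lib.MP_8d00da_gt.h42r


/-!
# Inner Prekopa-Leindler inequality, integrated
-/

namespace Pool.Agent.Lib.MP_8d00da_gt.h42t

open MeasureTheory Set Filter
open Pool.Agent.Lib.MP_8d00da_gt.h25 Pool.Agent.Lib.MP_8d00da_gt.h42
open Pool.Agent.Lib.MP_8d00da_gt.h42s Pool.Agent.Lib.MP_8d00da_gt.h42o
open Pool.Agent.Lib.MP_8d00da_gt.h97r Pool.Agent.Lib.MP_8d00da_gt.h42r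
open scoped Topology NNReal ENNReal

set_option linter.unusedSectionVars false

variable {F : Type*} [NormedAddCommGroup F] [InnerProductSpace ℝ F]
    [FiniteDimensional ℝ F] [MeasurableSpace F] [BorelSpace F]

variable {G : Type*} [NormedAddCommGroup G] [InnerProductSpace ℝ G]
    [FiniteDimensional ℝ G] [MeasurableSpace G] [BorelSpace G]

variable {ι : Type*} [Fintype ι]

variable {q : ℕ}

private lemma tb2_hmm {h : F → ℝ} (hh : Measurable h) (y : F) :
    Measurable fun s : Fin q → F => hm h y s :=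
  (hm_meas hh).comp (measurable_const.prodMk measurable_id)

private lemma tb2_cmm {A : F → ℝ} (hA : Measurable A) (y : F) :
    Measurable fun s : Fin q → F => cm A y s :=
  (cm_meas hA).comp (measurable_const.prodMk measurable_id)

private lemma tb2_int {h : F → ℝ} (hh : Measurable h) (h0 : ∀ x, 0 ≤ h x) {Hb : ℝ}
    (hb : ∀ x, h x ≤ Hb) (hi : Integrable h) (y : F) {φ : (Fin q → F) → ℝ} (hφ : Measurable φ)
    (φ0 : ∀ s, 0 ≤ φ s) {M : ℝ} (hM : ∀ s, φ s ≤ M) :
    Integrable fun s : Fin q → F => hm h y s * φ s := by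
  refine ((hm_int hh h0 hb hi y).mul_const M).mono' ?_ ?_
  · exact ((tb2_hmm hh y).mul hφ).aestronglyMeasurable
  · filter_upwards with s
    rw [Real.norm_of_nonneg (mul_nonneg (hm_nonneg h0 y s) (φ0 s))]
    exact mul_le_mul_of_nonneg_left (hM s) (hm_nonneg h0 y s)

private lemma tb2_TT0 {P : ι → F →L[ℝ] G} {ω : ι → F → ℝ} {κ : ℝ} (hκ : 0 < κ) (r : ℝ) (y : F)
    (s : Fin q → F) (u : F) : 0 ≤ TT P ω κ r y s u := by
  unfold TT
  exact le_max_of_le_right (by positivity)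

private lemma tb2_TTm {P : ι → F →L[ℝ] G} {ω : ι → F → ℝ} (hω : ∀ j, Measurable (ω j)) (κ r : ℝ)
    (y u : F) : Measurable fun s : Fin q → F => TT P ω κ r y s u := by
  unfold TT
  refine Measurable.max (Measurable.min ?_ measurable_const) measurable_const
  refine Finset.measurable_sum _ fun j _ => ?_
  exact ((xm_meas (hω j)).comp (measurable_const.prodMk measurable_id)).mul_const _

private lemma tb2_par {C T : ℝ} (hC : 0 ≤ C) (hT : 0 ≤ T) :
    0 ≤ C * T / (C + T) ∧ C * T / (C + T) ≤ C ∧ C - C * T / (C + T) = C ^ 2 / (C + T) := by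
  rcases (add_nonneg hC hT).eq_or_lt with h | h
  · have hC0 : C = 0 := by linarith
    rw [← h, div_zero, div_zero, sub_zero]
    exact ⟨le_rfl, hC, hC0⟩
  · refine ⟨by positivity, ?_, ?_⟩
    · rw [div_le_iff₀ h]
      nlinarith
    · field_simp
      ring

/-- `pi_mid` for the two functions of `s` (the integrands of `RR ε (x+u)` and `RR (-ε) (x-u)`,
`e₁ = ε (f (x+u) - c)`, `e₂ = -ε (f (x-u) - c)`) and the right side of `tb_point` with
`y = z - x`. Its integral is `h x (A x (P2 - DD) + 2 e √(A x) P1 + e² P0)`, because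
`C²/(C+T) = C - C T/(C+T)` (also when `C + T = 0`), `√(a C) = √a √C`. -/
theorem rr_prod {h A : F → ℝ} {P : ι → F →L[ℝ] G} {ω : ι → F → ℝ} {κ r Hb Ab : ℝ}
    (H : PD q h A P ω κ r Hb Ab) {f : F → ℝ} (hf : BL f) (c : ℝ) {ε : ℝ} (hε : 0 < ε) (z x u : F) :
    RR q h A f c ε z (x + u) * RR q h A f c (-ε) z (x - u) ≤
      (h x * (A x * (P2 q h A (z - x) - DD q h A P ω κ r (z - x) u) +
        2 * (ε * |f (x + u) - f (x - u)| / 2) * √(A x) * P1 q h A (z - x) +
        (ε * |f (x + u) - f (x - u)| / 2) ^ 2 * P0 q h (z - x))) ^ 2 := by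
  have hκ := H.κpos
  obtain ⟨y, hy⟩ : ∃ y, y = z - x := ⟨_, rfl⟩
  obtain ⟨e, he⟩ : ∃ e, e = ε * |f (x + u) - f (x - u)| / 2 := ⟨_, rfl⟩
  rw [← hy, ← he]
  have he0 : 0 ≤ e := by rw [he]; positivity
  have h12 : |ε * (f (x + u) - c) + -ε * (f (x - u) - c)| ≤ 2 * e := by
    have h1 : ε * (f (x + u) - c) + -ε * (f (x - u) - c) = ε * (f (x + u) - f (x - u)) := by ring
    rw [h1, abs_mul, abs_of_pos hε, he]
    linarith
  have hcm0 : ∀ s : Fin q → F, 0 ≤ cm A y s := fun s => cm_nonneg H.A0 y s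
  have hTT0 : ∀ s : Fin q → F, 0 ≤ TT P ω κ r y s u := fun s => tb2_TT0 hκ r y s u
  have hcmb : ∀ s : Fin q → F, cm A y s ≤ Ab := fun s => cm_le H.Ab y s
  have hAb0 : 0 ≤ Ab := (H.A0 x).trans (H.Ab x)
  have hcmm := tb2_cmm (q := q) H.Am y
  have hTTm := tb2_TTm (q := q) (P := P) H.ωm κ r y u
  -- the four integrable functions
  have i0 : Integrable fun s : Fin q → F => hm h y s := hm_int H.meas H.h0 H.hb H.hi y
  have i1 : Integrable fun s : Fin q → F => hm h y s * √(cm A y s) :=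
    tb2_int H.meas H.h0 H.hb H.hi y hcmm.sqrt (fun s => Real.sqrt_nonneg _)
      (fun s => Real.sqrt_le_sqrt (hcmb s))
  have i2 : Integrable fun s : Fin q → F => hm h y s * cm A y s :=
    tb2_int H.meas H.h0 H.hb H.hi y hcmm hcm0 hcmb
  have i3 : Integrable fun s : Fin q → F =>
      hm h y s * (cm A y s * TT P ω κ r y s u / (cm A y s + TT P ω κ r y s u)) :=
    tb2_int H.meas H.h0 H.hb H.hi y ((hcmm.mul hTTm).div (hcmm.add hTTm))
      (fun s => (tb2_par (hcm0 s) (hTT0 s)).1)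
      (fun s => (tb2_par (hcm0 s) (hTT0 s)).2.1.trans (hcmb s))
  obtain ⟨w, hw⟩ : ∃ w : (Fin q → F) → ℝ, w = fun s => h x * hm h y s *
      (A x * (cm A y s ^ 2 / (cm A y s + TT P ω κ r y s u)) + 2 * e * √(A x * cm A y s) + e ^ 2) :=
    ⟨_, rfl⟩
  have hw' : w = fun s => h x * (A x * (hm h y s * cm A y s -
      hm h y s * (cm A y s * TT P ω κ r y s u / (cm A y s + TT P ω κ r y s u))) +
      2 * e * √(A x) * (hm h y s * √(cm A y s)) + e ^ 2 * hm h y s) := by
    rw [hw]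
    funext s
    have h1 := (tb2_par (hcm0 s) (hTT0 s)).2.2
    rw [← h1, Real.sqrt_mul (H.A0 x)]
    ring
  have hwi : Integrable w := by
    rw [hw']
    exact ((((i2.sub i3).const_mul (A x)).add (i1.const_mul _)).add (i0.const_mul _)).const_mul _
  have hwI : ∫ s, w s = h x * (A x * (P2 q h A y - DD q h A P ω κ r y u) +
      2 * e * √(A x) * P1 q h A y + e ^ 2 * P0 q h y) := by
    rw [hw']
    rw [integral_const_mul, integral_add, integral_add, integral_const_mul, integral_sub i2 i3,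
      integral_const_mul, integral_const_mul]
    · rfl
    · exact (i2.sub i3).const_mul (A x)
    · exact i1.const_mul _
    · exact ((i2.sub i3).const_mul (A x)).add (i1.const_mul _)
    · exact i0.const_mul _
  rw [← hwI]
  have hw0 : ∀ s, 0 ≤ w s := by
    intro s
    rw [hw]
    have h1 := hcm0 s
    have h2 := hTT0 s
    have h3 := H.A0 x
    have h4 := H.h0 x
    have h5 := hm_nonneg H.h0 y s
    have h6 := Real.sqrt_nonneg (A x * cm A y s)
    positivity
  have hwm : Measurable w := by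
    rw [hw]
    have h1 := tb2_hmm (q := q) H.meas y
    exact (h1.const_mul (h x)).mul (((((hcmm.pow_const 2).div (hcmm.add hTTm)).const_mul (A x)).add
      ((hcmm.const_mul (A x)).sqrt.const_mul (2 * e))).add_const (e ^ 2))
  have hum : ∀ (ε' : ℝ) (x' : F), Measurable fun s : Fin q → F =>
      h x' * hm h (z - x') s * (max (√(A x' * cm A (z - x') s) + ε' * (f x' - c)) 0) ^ 2 := by
    intro ε' x'
    have h1 := tb2_hmm (q := q) H.meas (z - x')
    have h2 := tb2_cmm (q := q) H.Am (z - x')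
    exact (h1.const_mul (h x')).mul
      ((((h2.const_mul (A x')).sqrt.add_const _).max measurable_const).pow_const 2)
  have hu0 : ∀ (ε' : ℝ) (x' : F) (s : Fin q → F), 0 ≤
      h x' * hm h (z - x') s * (max (√(A x' * cm A (z - x') s) + ε' * (f x' - c)) 0) ^ 2 := by
    intro ε' x' s
    exact mul_nonneg (mul_nonneg (H.h0 x') (hm_nonneg H.h0 _ s)) (sq_nonneg _)
  have hui : ∀ (ε' : ℝ) (x' : F), Integrable fun s : Fin q → F =>
      h x' * hm h (z - x') s * (max (√(A x' * cm A (z - x') s) + ε' * (f x' - c)) 0) ^ 2 :=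
    fun ε' x' => rr_int H.meas H.h0 H.hb H.hi H.Am H.A0 H.Ab f c ε' z x'
  have hmain := pi_mid (hu0 ε (x + u)) (hu0 (-ε) (x - u)) hw0 (hum ε (x + u)) (hum (-ε) (x - u))
    hwm (hui ε (x + u)) (hui (-ε) (x - u)) hwi (fun s t => by
      have h1 := tb_point H x y u s t he0 h12
      have e1 : z - (x + u) = y - u := by rw [hy]; abel
      have e2 : z - (x - u) = y + u := by rw [hy]; abel
      simp only [e1, e2]
      rw [hw]
      exact h1)
  exact hmain

/-- `0 ≤ C T/(C+T) ≤ C`. -/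
theorem dd_le {h A : F → ℝ} {P : ι → F →L[ℝ] G} {ω : ι → F → ℝ} {κ r Hb Ab : ℝ}
    (H : PD q h A P ω κ r Hb Ab) (y u : F) :
    0 ≤ DD q h A P ω κ r y u ∧ DD q h A P ω κ r y u ≤ P2 q h A y := by
  have hκ := H.κpos
  have hcm0 : ∀ s : Fin q → F, 0 ≤ cm A y s := fun s => cm_nonneg H.A0 y s
  have hTT0 : ∀ s : Fin q → F, 0 ≤ TT P ω κ r y s u := fun s => tb2_TT0 hκ r y s u
  have hcmb : ∀ s : Fin q → F, cm A y s ≤ Ab := fun s => cm_le H.Ab y s
  have hcmm := tb2_cmm (q := q) H.Am y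
  have hTTm := tb2_TTm (q := q) (P := P) H.ωm κ r y u
  have i2 : Integrable fun s : Fin q → F => hm h y s * cm A y s :=
    tb2_int H.meas H.h0 H.hb H.hi y hcmm hcm0 hcmb
  have i3 : Integrable fun s : Fin q → F =>
      hm h y s * (cm A y s * TT P ω κ r y s u / (cm A y s + TT P ω κ r y s u)) :=
    tb2_int H.meas H.h0 H.hb H.hi y ((hcmm.mul hTTm).div (hcmm.add hTTm))
      (fun s => (tb2_par (hcm0 s) (hTT0 s)).1)
      (fun s => (tb2_par (hcm0 s) (hTT0 s)).2.1.trans (hcmb s))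
  constructor
  · exact integral_nonneg fun s =>
      mul_nonneg (hm_nonneg H.h0 y s) (tb2_par (hcm0 s) (hTT0 s)).1
  · exact integral_mono i3 i2 fun s =>
      mul_le_mul_of_nonneg_left (tb2_par (hcm0 s) (hTT0 s)).2.1 (hm_nonneg H.h0 y s)

end Pool.Agent.Lib.MP_8d00da_gt.h42t
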