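import Mathlib
import Pool.Agent.Lib.MP_8d00da_gt.h42t.TA3

namespace Pool.Agent.Lib.MP_8d00da_gt.h42r
end Pool.Agent.Lib.MP_8d00da_gt.h42r


/-!
# Lower bound for the perturbed weight
-/

namespace Pool.Agent.Lib.MP_8d00da_gt.h42t

open MeasureTheory Set Filter
open Pool.Agent.Lib.MP_8d00da_gt.h25 Pool.Agent.Lib.MP_8d00da_gt.h42
open Pool.Agent.Lib.MP_8d00da_gt.h42s Pool.Agent.Lib.MP_8d00da_gt.h42o
open Pool.Agent.Lib.MP_8d00da_gt.h97r Pool.Agent.Lib.MP_8d00da_gt.h42r
open scoped Topology NNReal ENNReal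

set_option linter.unusedSectionVars false

variable {F : Type*} [NormedAddCommGroup F] [InnerProductSpace ℝ F]
    [FiniteDimensional ℝ F] [MeasurableSpace F] [BorelSpace F]

variable {G : Type*} [NormedAddCommGroup G] [InnerProductSpace ℝ G]
    [FiniteDimensional ℝ G] [MeasurableSpace G] [BorelSpace G]

variable {ι : Type*} [Fintype ι]

variable {q : ℕ}

/-- The error term: the part of the fibre where `√(A x cm) < ε B`. -/
noncomputable def EE (q : ℕ) (h A : F → ℝ) (B : ℝ) (z : F) (ε : ℝ) (x : F) : ℝ :=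
  B ^ 2 * ∫ s : Fin q → F, h x * hm h (z - x) s *
    (if √(A x * cm A (z - x) s) < ε * B then 1 else 0)

private theorem tb3_point {φ g B ε : ℝ} (hφ : 0 ≤ φ) (hg : |g| ≤ B) :
    φ ^ 2 + 2 * ε * g * φ + ε ^ 2 * g ^ 2 - ε ^ 2 * B ^ 2 * (if φ < |ε| * B then 1 else 0) ≤
      (max (φ + ε * g) 0) ^ 2 := by
  have hB : 0 ≤ B := (abs_nonneg g).trans hg
  have hεg : |ε * g| ≤ |ε| * B := by
    rw [abs_mul]
    exact mul_le_mul_of_nonneg_left hg (abs_nonneg ε)
  rcases le_or_gt 0 (φ + ε * g) with h1 | h1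
  · rw [max_eq_left h1]
    have h2 : 0 ≤ ε ^ 2 * B ^ 2 * (if φ < |ε| * B then (1 : ℝ) else 0) := by
      split_ifs
      · positivity
      · simp
    nlinarith
  · rw [max_eq_right h1.le]
    have h2 : φ < |ε| * B := by
      have h3 := neg_abs_le (ε * g)
      linarith
    rw [if_pos h2]
    have h4 : |φ + ε * g| ≤ |ε| * B := by
      rw [abs_le]
      have h3 := neg_abs_le (ε * g)
      constructor
      · linarith
      · have : 0 ≤ |ε| * B := by positivity
        linarith
    have h5 : (φ + ε * g) ^ 2 ≤ (|ε| * B) ^ 2 := by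
      rw [← sq_abs (φ + ε * g)]
      exact pow_le_pow_left₀ (abs_nonneg _) h4 2
    rw [mul_pow, sq_abs] at h5
    nlinarith

private theorem tb3_hmy {h : F → ℝ} (hh : Measurable h) (y : F) :
    Measurable fun s : Fin q → F => hm h y s :=
  (hm_meas hh).comp (measurable_const.prodMk measurable_id)

private theorem tb3_cmy {A : F → ℝ} (hA : Measurable A) (y : F) :
    Measurable fun s : Fin q → F => cm A y s :=
  (cm_meas hA).comp (measurable_const.prodMk measurable_id)

private theorem tb3_ite {A : F → ℝ} (hA : Measurable A) (y x : F) (B ε : ℝ) :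
    Measurable fun s : Fin q → F => (if √(A x * cm A y s) < ε * B then (1 : ℝ) else 0) :=
  Measurable.ite (measurableSet_lt ((tb3_cmy hA y).const_mul _).sqrt measurable_const)
    measurable_const measurable_const

private theorem tb3_ee_int {h A : F → ℝ} (hh : Measurable h) (h0 : ∀ x, 0 ≤ h x) {Hb : ℝ}
    (hb : ∀ x, h x ≤ Hb) (hi : Integrable h) (hA : Measurable A) (B ε : ℝ) (z x : F) :
    Integrable fun s : Fin q → F => h x * hm h (z - x) s *
      (if √(A x * cm A (z - x) s) < ε * B then (1 : ℝ) else 0) := by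
  refine ((hm_int hh h0 hb hi (z - x)).const_mul (h x)).mul_bdd (c := 1)
    (tb3_ite hA (z - x) x B ε).aestronglyMeasurable (ae_of_all _ fun s => ?_)
  split_ifs <;> simp

/-- For `φ ≥ 0` and `|g| ≤ B`, `(max (φ + ε g) 0)² ≥ φ² + 2 ε g φ + ε² g² - ε² B² 1_{φ < |ε| B}`.
`∫ W φ² = h A P2`, `∫ W φ = h √A P1`, `∫ W = h P0`. -/
theorem rr_low {h A : F → ℝ} (hh : Measurable h) (h0 : ∀ x, 0 ≤ h x) {Hb : ℝ}
    (hb : ∀ x, h x ≤ Hb) (hi : Integrable h) (hA : Measurable A) (A0 : ∀ x, 0 ≤ A x) {Ab : ℝ}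
    (hAb : ∀ x, A x ≤ Ab) {f : F → ℝ} {c B : ℝ} (hB : ∀ x, |f x - c| ≤ B) (ε : ℝ) (z x : F) :
    h x * (A x * P2 q h A (z - x) + 2 * ε * (f x - c) * √(A x) * P1 q h A (z - x) +
      ε ^ 2 * (f x - c) ^ 2 * P0 q h (z - x)) - ε ^ 2 * EE q h A B z |ε| x ≤
      RR q h A f c ε z x := by
  have hAb0 : 0 ≤ Ab := (A0 x).trans (hAb x)
  have hB0 : 0 ≤ B := (abs_nonneg _).trans (hB x)
  set W : (Fin q → F) → ℝ := fun s => h x * hm h (z - x) s with hW
  have hW0 : ∀ s, 0 ≤ W s := fun s => mul_nonneg (h0 x) (hm_nonneg h0 _ s)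
  have hWi : Integrable W := (hm_int hh h0 hb hi (z - x)).const_mul (h x)
  set φ : (Fin q → F) → ℝ := fun s => √(A x * cm A (z - x) s) with hφ
  have hφm : Measurable φ := ((tb3_cmy hA (z - x)).const_mul _).sqrt
  have hφ0 : ∀ s, 0 ≤ φ s := fun s => Real.sqrt_nonneg _
  have hφb : ∀ s, φ s ≤ Ab := fun s => by
    rw [hφ]
    refine Real.sqrt_le_iff.2 ⟨hAb0, ?_⟩
    rw [sq]
    exact mul_le_mul (hAb x) (cm_le hAb _ s) (cm_nonneg A0 _ s) hAb0
  have hφs : ∀ s, φ s ^ 2 = A x * cm A (z - x) s := fun s =>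
    Real.sq_sqrt (mul_nonneg (A0 x) (cm_nonneg A0 _ s))
  -- integrability
  have i1 : Integrable fun s => W s * φ s ^ 2 := by
    refine hWi.mul_bdd (c := Ab ^ 2) (hφm.pow_const 2).aestronglyMeasurable
      (ae_of_all _ fun s => ?_)
    rw [Real.norm_of_nonneg (by positivity)]
    exact pow_le_pow_left₀ (hφ0 s) (hφb s) 2
  have i2 : Integrable fun s => W s * φ s := by
    refine hWi.mul_bdd (c := Ab) hφm.aestronglyMeasurable (ae_of_all _ fun s => ?_)
    rw [Real.norm_of_nonneg (hφ0 s)]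
    exact hφb s
  have i3 : Integrable fun s => W s * (if φ s < |ε| * B then (1 : ℝ) else 0) :=
    tb3_ee_int hh h0 hb hi hA B |ε| z x
  have i4 : Integrable fun s => W s * (max (φ s + ε * (f x - c)) 0) ^ 2 := by
    refine hWi.mul_bdd (c := (Ab + |ε| * B) ^ 2)
      (((hφm.add_const _).max measurable_const).pow_const 2).aestronglyMeasurable
      (ae_of_all _ fun s => ?_)
    rw [Real.norm_of_nonneg (by positivity)]
    refine pow_le_pow_left₀ (le_max_right _ _) (max_le ?_ (by positivity)) 2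
    have h1 : ε * (f x - c) ≤ |ε| * B := by
      refine (le_abs_self _).trans ?_
      rw [abs_mul]
      exact mul_le_mul_of_nonneg_left (hB x) (abs_nonneg ε)
    exact add_le_add (hφb s) h1
  have e1 : ∫ s, W s * φ s ^ 2 = h x * A x * P2 q h A (z - x) := by
    rw [P2, ← integral_const_mul]
    refine integral_congr_ae (ae_of_all _ fun s => ?_)
    simp only [hφs, hW]
    ring
  have e2 : ∫ s, W s * φ s = h x * √(A x) * P1 q h A (z - x) := by
    rw [P1, ← integral_const_mul]
    refine integral_congr_ae (ae_of_all _ fun s => ?_)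
    simp only [hφ, hW]
    rw [Real.sqrt_mul (A0 x)]
    ring
  have e3 : ∫ s, W s = h x * P0 q h (z - x) := by
    rw [P0, ← integral_const_mul]
  have e4 : ε ^ 2 * EE q h A B z |ε| x =
      ∫ s, ε ^ 2 * B ^ 2 * (W s * (if φ s < |ε| * B then (1 : ℝ) else 0)) := by
    rw [EE, integral_const_mul, mul_assoc]
  have e5 : RR q h A f c ε z x = ∫ s, W s * (max (φ s + ε * (f x - c)) 0) ^ 2 := rfl
  have i12 : Integrable fun s => W s * φ s ^ 2 + 2 * ε * (f x - c) * (W s * φ s) :=
    i1.add (i2.const_mul _)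
  have i123 : Integrable fun s => W s * φ s ^ 2 + 2 * ε * (f x - c) * (W s * φ s) +
      ε ^ 2 * (f x - c) ^ 2 * W s := i12.add (hWi.const_mul _)
  have i5 : Integrable fun s => ε ^ 2 * B ^ 2 * (W s * (if φ s < |ε| * B then (1 : ℝ) else 0)) :=
    i3.const_mul _
  have e6 : h x * (A x * P2 q h A (z - x) + 2 * ε * (f x - c) * √(A x) * P1 q h A (z - x) +
      ε ^ 2 * (f x - c) ^ 2 * P0 q h (z - x)) =
      ∫ s, (W s * φ s ^ 2 + 2 * ε * (f x - c) * (W s * φ s) + ε ^ 2 * (f x - c) ^ 2 * W s) := by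
    rw [integral_add i12 (hWi.const_mul _), integral_add i1 (i2.const_mul _),
      integral_const_mul, integral_const_mul, e1, e2, e3]
    ring
  rw [e6, e4, e5, ← integral_sub i123 i5]
  refine integral_mono (i123.sub i5) i4 fun s => ?_
  have h1 := mul_le_mul_of_nonneg_left (tb3_point (φ := φ s) (g := f x - c) (B := B) (ε := ε)
    (hφ0 s) (hB x)) (hW0 s)
  simp only
  linarith

/-- The error is nonnegative, measurable, integrable, and its integral tends to zero: dominated
convergence, `√(A x cm) > 0` wherever `h x hm > 0` (`cm_pos`). -/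
theorem ee_tend {h A : F → ℝ} (hh : Measurable h) (h0 : ∀ x, 0 ≤ h x) {Hb : ℝ}
    (hb : ∀ x, h x ≤ Hb) (hi : Integrable h) (hA : Measurable A) (A0 : ∀ x, 0 ≤ A x) {Ab : ℝ}
    (hAb : ∀ x, A x ≤ Ab) (Apos : ∀ x, 0 < h x → 0 < A x) {B : ℝ} (hB : 0 ≤ B) (z : F) :
    (∀ ε x, 0 ≤ EE q h A B z ε x) ∧ (∀ ε, Measurable (EE q h A B z ε)) ∧
      (∀ ε, Integrable (EE q h A B z ε)) ∧
      Tendsto (fun ε => ∫ x, EE q h A B z ε x) (𝓝[>] 0) (𝓝 0) := by
  have hiq : 0 ≤ ∫ x, h x := integral_nonneg h0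
  have hHb0 : ∀ x : F, 0 ≤ Hb := fun x => (h0 x).trans (hb x)
  have hind : ∀ (a b : ℝ), (0 : ℝ) ≤ (if a < b then (1 : ℝ) else 0) := fun a b => by
    split_ifs <;> norm_num
  have hind1 : ∀ (a b : ℝ), (if a < b then (1 : ℝ) else 0) ≤ 1 := fun a b => by
    split_ifs <;> norm_num
  have hW0 : ∀ x (s : Fin q → F), 0 ≤ h x * hm h (z - x) s :=
    fun x s => mul_nonneg (h0 x) (hm_nonneg h0 _ s)
  have k1 : ∀ ε x, 0 ≤ EE q h A B z ε x := fun ε x =>
    mul_nonneg (sq_nonneg B) (integral_nonneg fun s => mul_nonneg (hW0 x s) (hind _ _))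
  have k2 : ∀ ε, Measurable (EE q h A B z ε) := by
    intro ε
    have hp : Measurable fun p : F × (Fin q → F) => ((z - p.1, p.2) : F × (Fin q → F)) :=
      (measurable_const.sub measurable_fst).prodMk measurable_snd
    have m1 : Measurable fun p : F × (Fin q → F) => h p.1 * hm h (z - p.1) p.2 :=
      (hh.comp measurable_fst).mul ((hm_meas hh).comp hp)
    have m2 : Measurable fun p : F × (Fin q → F) => √(A p.1 * cm A (z - p.1) p.2) :=
      ((hA.comp measurable_fst).mul ((cm_meas hA).comp hp)).sqrt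
    have m3 : Measurable fun p : F × (Fin q → F) => h p.1 * hm h (z - p.1) p.2 *
        (if √(A p.1 * cm A (z - p.1) p.2) < ε * B then (1 : ℝ) else 0) :=
      m1.mul (Measurable.ite (measurableSet_lt m2 measurable_const) measurable_const
        measurable_const)
    exact (m3.stronglyMeasurable.integral_prod_right (ν := (volume : Measure (Fin q → F)))).measurable.const_mul _
  have k0 : ∀ ε x, EE q h A B z ε x ≤ B ^ 2 * (h x * (Hb * (∫ x, h x) ^ q)) := by
    intro ε x
    refine mul_le_mul_of_nonneg_left ?_ (sq_nonneg B)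
    calc ∫ s : Fin q → F, h x * hm h (z - x) s *
          (if √(A x * cm A (z - x) s) < ε * B then (1 : ℝ) else 0)
        ≤ ∫ s : Fin q → F, h x * hm h (z - x) s := by
          refine integral_mono (tb3_ee_int hh h0 hb hi hA B ε z x)
            ((hm_int hh h0 hb hi (z - x)).const_mul (h x)) fun s => ?_
          exact mul_le_of_le_one_right (hW0 x s) (hind1 _ _)
      _ = h x * P0 q h (z - x) := by rw [P0, ← integral_const_mul]
      _ ≤ _ := mul_le_mul_of_nonneg_left (P0_le hh h0 hb hi _) (h0 x)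
  have kb : Integrable fun x => B ^ 2 * (h x * (Hb * (∫ x, h x) ^ q)) :=
    (hi.mul_const _).const_mul _
  have k3 : ∀ ε, Integrable (EE q h A B z ε) := by
    intro ε
    refine kb.mono' (k2 ε).aestronglyMeasurable (ae_of_all _ fun x => ?_)
    rw [Real.norm_of_nonneg (k1 ε x)]
    exact k0 ε x
  refine ⟨k1, k2, k3, ?_⟩
  have hpt : ∀ x, Tendsto (fun ε => EE q h A B z ε x) (𝓝[>] 0) (𝓝 0) := by
    intro x
    have h1 : Tendsto (fun ε => ∫ s : Fin q → F, h x * hm h (z - x) s *
        (if √(A x * cm A (z - x) s) < ε * B then (1 : ℝ) else 0)) (𝓝[>] 0)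
        (𝓝 (∫ _s : Fin q → F, (0 : ℝ))) := by
      refine tendsto_integral_filter_of_dominated_convergence
        (fun s => h x * hm h (z - x) s) (Eventually.of_forall fun ε =>
          (tb3_ee_int hh h0 hb hi hA B ε z x).aestronglyMeasurable)
        (Eventually.of_forall fun ε => ae_of_all _ fun s => ?_)
        ((hm_int hh h0 hb hi (z - x)).const_mul (h x)) (ae_of_all _ fun s => ?_)
      · rw [Real.norm_of_nonneg (mul_nonneg (hW0 x s) (hind _ _))]
        exact mul_le_of_le_one_right (hW0 x s) (hind1 _ _)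
      · rcases (hW0 x s).eq_or_lt with h2 | h2
        · rw [← h2]
          simp
        · have hx : 0 < h x := by
            rcases (h0 x).eq_or_lt with h3 | h3
            · rw [← h3, zero_mul] at h2
              exact absurd h2 (lt_irrefl _)
            · exact h3
          have hs : 0 < hm h (z - x) s := pos_of_mul_pos_right h2 hx.le
          have hφ : 0 < √(A x * cm A (z - x) s) :=
            Real.sqrt_pos.2 (mul_pos (Apos x hx) (cm_pos h0 A0 Apos hs))
          have h4 : ∀ᶠ ε in 𝓝[>] (0 : ℝ), ε * B < √(A x * cm A (z - x) s) := by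
            have h5 : Tendsto (fun ε : ℝ => ε * B) (𝓝[>] 0) (𝓝 (0 * B)) :=
              (tendsto_id.mul_const B).mono_left nhdsWithin_le_nhds
            rw [zero_mul] at h5
            exact h5.eventually_lt_const hφ
          refine tendsto_const_nhds.congr' ?_
          filter_upwards [h4] with ε h6
          rw [if_neg (not_lt.2 h6.le), mul_zero]
    rw [integral_zero] at h1
    have h2 := h1.const_mul (B ^ 2)
    rw [mul_zero] at h2
    exact h2
  have h1 : Tendsto (fun ε => ∫ x, EE q h A B z ε x) (𝓝[>] 0) (𝓝 (∫ _x : F, (0 : ℝ))) := by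
    refine tendsto_integral_filter_of_dominated_convergence
      (fun x => B ^ 2 * (h x * (Hb * (∫ x, h x) ^ q))) (Eventually.of_forall fun ε =>
        (k2 ε).aestronglyMeasurable)
      (Eventually.of_forall fun ε => ae_of_all _ fun x => ?_) kb (ae_of_all _ fun x => hpt x)
    rw [Real.norm_of_nonneg (k1 ε x)]
    exact k0 ε x
  rw [integral_zero] at h1
  exact h1

end Pool.Agent.Lib.MP_8d00da_gt.h42t
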