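import Mathlib
import Pool.Agent.Lib.MP_8d00da_gt.h42t.TA2

namespace Pool.Agent.Lib.MP_8d00da_gt.h42r
end Pool.Agent.Lib.MP_8d00da_gt.h42r


/-!
# The decrease: lower bounds
-/

namespace Pool.Agent.Lib.MP_8d00da_gt.h42t

open MeasureTheory Set Filter
open Pool.Agent.Lib.MP_8d00da_gt.h25 Pool.Agent.Lib.MP_8d00da_gt.h42
open Pool.Agent.Lib.MP_8d00da_gt.h42s Pool.Agent.Lib.MP_8d00da_gt.h42o
open Pool.Agent.Lib.MP_8d00da_gt.h97r Pool.Agent.Lib.MP_8d00da_gt.h42r
open scoped Topology NNReal ENNReal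

set_option linter.unusedSectionVars false

variable {F : Type*} [NormedAddCommGroup F] [InnerProductSpace ℝ F]
    [FiniteDimensional ℝ F] [MeasurableSpace F] [BorelSpace F]

variable {G : Type*} [NormedAddCommGroup G] [InnerProductSpace ℝ G]
    [FiniteDimensional ℝ G] [MeasurableSpace G] [BorelSpace G]

variable {ι : Type*} [Fintype ι]

variable {q : ℕ}

private theorem tb4_hm_meas {h : F → ℝ} (hh : Measurable h) (y : F) :
    Measurable fun s : Fin q → F => hm h y s :=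
  (hm_meas hh).comp measurable_prodMk_left

private theorem tb4_cm_meas {A : F → ℝ} (hA : Measurable A) (y : F) :
    Measurable fun s : Fin q → F => cm A y s :=
  (cm_meas hA).comp measurable_prodMk_left

private theorem tb4_xm_meas {ω : F → ℝ} (hω : Measurable ω) (y : F) :
    Measurable fun s : Fin q → F => xm ω y s :=
  (xm_meas hω).comp measurable_prodMk_left

private theorem tb4_bS_meas {P : ι → F →L[ℝ] G} {ω : ι → F → ℝ} (hω : ∀ j, Measurable (ω j))
    (κ : ℝ) (y : F) : Measurable fun s : Fin q → F => bS P ω κ y s := by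
  unfold bS
  exact measurable_const.add (Finset.measurable_sum _ fun j _ =>
    (tb4_xm_meas (hω j) y).mul measurable_const)

private theorem tb4_bS_nonneg {P : ι → F →L[ℝ] G} {ω : ι → F → ℝ} {κ : ℝ} (hκ : 0 < κ)
    (ω0 : ∀ j x, 0 ≤ ω j x) (y : F) (s : Fin q → F) : 0 ≤ bS P ω κ y s := by
  unfold bS
  have h1 : 0 ≤ ∑ j, xm (ω j) y s * ‖P j‖ ^ 2 :=
    Finset.sum_nonneg fun j _ => mul_nonneg (xm_nonneg (ω0 j) y s) (by positivity)
  positivity

private theorem tb4_tS_meas {A : F → ℝ} {P : ι → F →L[ℝ] G} {ω : ι → F → ℝ} (hA : Measurable A)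
    (hω : ∀ j, Measurable (ω j)) (κ r ρ : ℝ) (y : F) :
    Measurable fun s : Fin q → F => tS A P ω κ r ρ y s := by
  unfold tS
  have h1 := tb4_bS_meas (q := q) (P := P) hω κ y
  have h2 := tb4_cm_meas (q := q) hA y
  exact measurable_const.min (((h1.mul measurable_const).div h2).add
    ((h1.mul measurable_const).div measurable_const))

private theorem tb4_tS_nonneg {A : F → ℝ} {P : ι → F →L[ℝ] G} {ω : ι → F → ℝ} {κ : ℝ}
    (hκ : 0 < κ) (A0 : ∀ x, 0 ≤ A x) (ω0 : ∀ j x, 0 ≤ ω j x) (r ρ : ℝ) (y : F)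
    (s : Fin q → F) : 0 ≤ tS A P ω κ r ρ y s := by
  unfold tS
  have h1 := tb4_bS_nonneg (q := q) (P := P) hκ ω0 y s
  have h2 := cm_nonneg A0 y s
  exact le_min zero_le_one (by positivity)

private theorem tb4_tS_le {A : F → ℝ} {P : ι → F →L[ℝ] G} {ω : ι → F → ℝ} {κ : ℝ}
    (r ρ : ℝ) (y : F) (s : Fin q → F) : tS A P ω κ r ρ y s ≤ 1 := min_le_left _ _

private theorem tb4_hb_int {h A : F → ℝ} {P : ι → F →L[ℝ] G} {ω : ι → F → ℝ} {κ r Hb Ab : ℝ}
    (H : PD (q + 1) h A P ω κ r Hb Ab) (y : F) :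
    Integrable fun s : Fin (q + 1) → F => hm h y s * (1 + bS P ω κ y s) := by
  have h1 : Integrable fun s : Fin (q + 1) → F => hm h y s := hm_int H.meas H.h0 H.hb H.hi y
  have h2 : ∀ j, Integrable fun s : Fin (q + 1) → F => hm h y s * xm (ω j) y s := fun j =>
    hmx_int H.meas H.h0 H.hb H.hi (H.ωm j) (H.ω0 j) (H.ωpos j) (H.ωi j) y
  have h3 : Integrable fun s : Fin (q + 1) → F =>
      hm h y s * (1 + κ / (((q + 1 : ℕ) : ℝ) + 1)) +
        ∑ j, hm h y s * xm (ω j) y s * ‖P j‖ ^ 2 :=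
    (h1.mul_const _).add (integrable_finsetSum _ fun j _ => (h2 j).mul_const _)
  refine h3.congr (Eventually.of_forall fun s => ?_)
  simp only [bS]
  rw [mul_add, mul_one, mul_add, mul_add, mul_one, Finset.mul_sum, add_assoc]
  congr 2
  exact Finset.sum_congr rfl fun j _ => by ring

/-- The truncation error `bt` is an integral of an integrable function. `bS` times the weight is
integrable by `hmx_int`, `0 ≤ tS ≤ 1` where the weight is positive (if `hm = 0` nothing to do;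
`bS, cm ≥ 0` always, so `0 ≤ tS ≤ 1` everywhere). -/
theorem bt_int {h A : F → ℝ} {P : ι → F →L[ℝ] G} {ω : ι → F → ℝ} {κ r Hb Ab : ℝ}
    (H : PD (q + 1) h A P ω κ r Hb Ab) (ρ : ℝ) (y : F) :
    (Integrable fun s : Fin (q + 1) → F =>
      hm h y s * ((1 + bS P ω κ y s) * tS A P ω κ r ρ y s)) ∧ 0 ≤ bt (q + 1) h A P ω κ r ρ y := by
  have hnn : ∀ s : Fin (q + 1) → F,
      0 ≤ hm h y s * ((1 + bS P ω κ y s) * tS A P ω κ r ρ y s) := by
    intro s
    have h1 := hm_nonneg H.h0 y s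
    have h2 := tb4_bS_nonneg (P := P) H.κpos H.ω0 y s
    have h3 := tb4_tS_nonneg (P := P) H.κpos H.A0 H.ω0 r ρ y s
    positivity
  refine ⟨?_, integral_nonneg hnn⟩
  refine (tb4_hb_int H y).mono' ?_ (Eventually.of_forall fun s => ?_)
  · exact ((tb4_hm_meas H.meas y).mul ((measurable_const.add (tb4_bS_meas H.ωm κ y)).mul
      (tb4_tS_meas H.Am H.ωm κ r ρ y))).aestronglyMeasurable
  · rw [Real.norm_of_nonneg (hnn s)]
    have h2 := tb4_bS_nonneg (P := P) H.κpos H.ω0 y s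
    exact mul_le_mul_of_nonneg_left (mul_le_of_le_one_right (by linarith)
      (tb4_tS_le r ρ y s)) (hm_nonneg H.h0 y s)

/-- Dominated convergence: `tS → 0` as `ρ → 0` where the weight is positive (`cm > 0` there). -/
theorem bt_tend {h A : F → ℝ} {P : ι → F →L[ℝ] G} {ω : ι → F → ℝ} {κ r Hb Ab : ℝ}
    (H : PD (q + 1) h A P ω κ r Hb Ab) (y : F) :
    Tendsto (fun ρ => bt (q + 1) h A P ω κ r ρ y) (𝓝[>] 0) (𝓝 0) := by
  suffices h0 : Tendsto (fun ρ => bt (q + 1) h A P ω κ r ρ y) (𝓝[>] 0)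
      (𝓝 (∫ _ : Fin (q + 1) → F, (0 : ℝ))) by
    rwa [integral_zero] at h0
  refine tendsto_integral_filter_of_dominated_convergence
    (fun s : Fin (q + 1) → F => hm h y s * (1 + bS P ω κ y s)) (Eventually.of_forall fun ρ => ?_)
    (Eventually.of_forall fun ρ => Eventually.of_forall fun s => ?_) (tb4_hb_int H y)
    (Eventually.of_forall fun s => ?_)
  · exact (bt_int H ρ y).1.aestronglyMeasurable
  · have h1 := hm_nonneg H.h0 y s
    have h2 := tb4_bS_nonneg (P := P) H.κpos H.ω0 y s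
    have h3 := tb4_tS_nonneg (P := P) H.κpos H.A0 H.ω0 r ρ y s
    rw [Real.norm_of_nonneg (by positivity)]
    exact mul_le_mul_of_nonneg_left (mul_le_of_le_one_right (by linarith)
      (tb4_tS_le r ρ y s)) h1
  · have hc : Continuous fun ρ : ℝ => hm h y s * ((1 + bS P ω κ y s) * tS A P ω κ r ρ y s) := by
      unfold tS
      fun_prop
    have h1 := hc.tendsto 0
    have h2 : hm h y s * ((1 + bS P ω κ y s) * tS A P ω κ r 0 y s) = 0 := by
      unfold tS
      simp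
    rw [h2] at h1
    exact h1.mono_left nhdsWithin_le_nhds

private theorem tb4_real {B C K S T U R : ℝ} (hB : 0 ≤ B) (hC : 0 < C) (hK : 0 < K)
    (hS0 : 0 ≤ S) (hS : S ≤ B * U) (hT0 : 0 ≤ T) (hT : T ≤ B * U) (hTS : min S K ≤ T)
    (hU0 : 0 ≤ U) (hU : U ≤ R) :
    S - U * ((1 + B) * min 1 (B * R / C + B * R / K)) ≤ C * T / (C + T) := by
  have hCT : 0 ≤ C * T / (C + T) := by positivity
  rcases le_total 1 (B * R / C + B * R / K) with h1 | h1
  · rw [min_eq_left h1]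
    nlinarith
  · rw [min_eq_right h1]
    have hR : 0 ≤ R := hU0.trans hU
    have hBU : B * U ≤ B * R := mul_le_mul_of_nonneg_left hU hB
    have e1 : C * T / (C + T) = T - T ^ 2 / (C + T) := by
      field_simp
      ring
    have e2 : T ^ 2 / (C + T) ≤ (B * U) * (B * R / C) := by
      have h2 : T ^ 2 ≤ (B * U) * (B * R) := by nlinarith
      calc T ^ 2 / (C + T) ≤ T ^ 2 / C :=
            div_le_div_of_nonneg_left (by positivity) hC (by linarith)
        _ ≤ (B * U) * (B * R) / C := div_le_div_of_nonneg_right h2 hC.le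
        _ = (B * U) * (B * R / C) := by ring
    have e3 : S - (B * U) * (B * R / K) ≤ min S K := by
      have h2 : S ^ 2 / K ≤ (B * U) * (B * R / K) := by
        have h3 : S ^ 2 ≤ (B * U) * (B * R) := by nlinarith
        calc S ^ 2 / K ≤ (B * U) * (B * R) / K := div_le_div_of_nonneg_right h3 hK.le
          _ = (B * U) * (B * R / K) := by ring
      have h4 : S - S ^ 2 / K ≤ min S K := by
        apply le_min
        · have : 0 ≤ S ^ 2 / K := by positivity
          linarith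
        · rw [sub_le_iff_le_add, ← sub_le_iff_le_add', le_div_iff₀ hK]
          nlinarith [sq_nonneg (S - K), mul_nonneg hS0 hK.le]
      linarith
    have e4 : 0 ≤ B * R / C + B * R / K := by positivity
    have e5 : U * ((1 + B) * (B * R / C + B * R / K)) =
        U * (B * R / C + B * R / K) + ((B * U) * (B * R / C) + (B * U) * (B * R / K)) := by ring
    have e6 : 0 ≤ U * (B * R / C + B * R / K) := mul_nonneg hU0 e4
    rw [e1, e5]
    linarith

/-- Let `B = bS`, `C = cm > 0`, `T = TT u`, `Σ = ∑ xm ‖P u‖² ≤ B ‖u‖²`, `‖u‖ ≤ ρ`. Then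
`T ≤ B ‖u‖²`, `C T/(C+T) = T - T²/(C+T) ≥ T - B‖u‖² min 1 (B ρ²/C)`, and
`T ≥ min Σ (κ r²) ≥ Σ - B‖u‖² min 1 (B ρ²/(κ r²))`. Altogether (case distinction whether the sum
`B ρ²/C + B ρ²/(κ r²) ≥ 1`, then `C T/(C+T) ≥ 0 ≥ Σ - B‖u‖²`)
`C T/(C+T) ≥ Σ - ‖u‖² B tS`. Integrate. -/
theorem dd_low1 {h A : F → ℝ} {P : ι → F →L[ℝ] G} {ω : ι → F → ℝ} {κ r Hb Ab : ℝ}
    (H : PD (q + 1) h A P ω κ r Hb Ab) {ρ : ℝ} (hρ : 0 < ρ) {u : F} (hu : ‖u‖ ≤ ρ) (y : F) :
    (∑ j, oh (q + 1) h (ω j) y * ‖P j u‖ ^ 2) - ‖u‖ ^ 2 * bt (q + 1) h A P ω κ r ρ y ≤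
      DD (q + 1) h A P ω κ r y u := by
  have hx : ∀ j, Integrable fun s : Fin (q + 1) → F => hm h y s * xm (ω j) y s := fun j =>
    hmx_int H.meas H.h0 H.hb H.hi (H.ωm j) (H.ω0 j) (H.ωpos j) (H.ωi j) y
  have hTT : Measurable fun s : Fin (q + 1) → F => TT P ω κ r y s u := by
    unfold TT
    exact ((Finset.measurable_sum _ fun j _ =>
      (tb4_xm_meas (H.ωm j) y).mul measurable_const).min measurable_const).max measurable_const
  have hTT0 : ∀ s : Fin (q + 1) → F, 0 ≤ TT P ω κ r y s u := by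
    intro s
    have h1 := H.κpos
    exact le_max_of_le_right (by positivity)
  have hcm := tb4_cm_meas (q := q + 1) H.Am y
  have hDD : Integrable fun s : Fin (q + 1) → F =>
      hm h y s * (cm A y s * TT P ω κ r y s u / (cm A y s + TT P ω κ r y s u)) := by
    refine ((hm_int (q := q + 1) H.meas H.h0 H.hb H.hi y).mul_const Ab).mono' ?_
      (Eventually.of_forall fun s => ?_)
    · exact ((tb4_hm_meas H.meas y).mul ((hcm.mul hTT).div (hcm.add hTT))).aestronglyMeasurable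
    · have h1 := hm_nonneg H.h0 y s
      have h2 := cm_nonneg H.A0 y s
      have h3 := hTT0 s
      have h4 : cm A y s * TT P ω κ r y s u / (cm A y s + TT P ω κ r y s u) ≤ Ab := by
        refine le_trans ?_ (cm_le H.Ab y s)
        exact div_le_of_le_mul₀ (by positivity) h2 (by nlinarith)
      rw [Real.norm_of_nonneg (by positivity)]
      exact mul_le_mul_of_nonneg_left h4 h1
  have e1 : (∑ j, oh (q + 1) h (ω j) y * ‖P j u‖ ^ 2) =
      ∫ s : Fin (q + 1) → F, ∑ j, hm h y s * xm (ω j) y s * ‖P j u‖ ^ 2 := by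
    rw [integral_finsetSum _ fun j _ => (hx j).mul_const _]
    refine Finset.sum_congr rfl fun j _ => ?_
    rw [integral_mul_const]
    rfl
  have i1 : Integrable fun s : Fin (q + 1) → F =>
      ∑ j, hm h y s * xm (ω j) y s * ‖P j u‖ ^ 2 :=
    integrable_finsetSum _ fun j _ => (hx j).mul_const _
  have e2 : ‖u‖ ^ 2 * bt (q + 1) h A P ω κ r ρ y =
      ∫ s : Fin (q + 1) → F, ‖u‖ ^ 2 * (hm h y s * ((1 + bS P ω κ y s) * tS A P ω κ r ρ y s)) := by
    rw [integral_const_mul]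
    rfl
  have i2 : Integrable fun s : Fin (q + 1) → F =>
      ‖u‖ ^ 2 * (hm h y s * ((1 + bS P ω κ y s) * tS A P ω κ r ρ y s)) :=
    (bt_int H ρ y).1.const_mul _
  rw [e1, e2, ← integral_sub i1 i2]
  refine integral_mono (i1.sub i2) hDD fun s => ?_
  have hm0 := hm_nonneg H.h0 y s
  have e3 : (∑ j, hm h y s * xm (ω j) y s * ‖P j u‖ ^ 2) -
      ‖u‖ ^ 2 * (hm h y s * ((1 + bS P ω κ y s) * tS A P ω κ r ρ y s)) =
      hm h y s * ((∑ j, xm (ω j) y s * ‖P j u‖ ^ 2) -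
        ‖u‖ ^ 2 * ((1 + bS P ω κ y s) * tS A P ω κ r ρ y s)) := by
    rw [mul_sub, Finset.mul_sum]
    congr 1
    · exact Finset.sum_congr rfl fun j _ => by ring
    · ring
  change (∑ j, hm h y s * xm (ω j) y s * ‖P j u‖ ^ 2) -
      ‖u‖ ^ 2 * (hm h y s * ((1 + bS P ω κ y s) * tS A P ω κ r ρ y s)) ≤
      hm h y s * (cm A y s * TT P ω κ r y s u / (cm A y s + TT P ω κ r y s u))
  rw [e3]
  rcases hm0.eq_or_lt with h0 | hpos
  · rw [← h0, zero_mul, zero_mul]
  refine mul_le_mul_of_nonneg_left ?_ hm0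
  have hC := cm_pos H.h0 H.A0 H.Apos hpos
  have hB := tb4_bS_nonneg (P := P) H.κpos H.ω0 y s
  have hκ := H.κpos
  have hr := H.rpos
  have hS0 : 0 ≤ ∑ j, xm (ω j) y s * ‖P j u‖ ^ 2 :=
    Finset.sum_nonneg fun j _ => mul_nonneg (xm_nonneg (H.ω0 j) y s) (by positivity)
  have hPu : ∑ j, xm (ω j) y s * ‖P j u‖ ^ 2 ≤ (∑ j, xm (ω j) y s * ‖P j‖ ^ 2) * ‖u‖ ^ 2 := by
    rw [Finset.sum_mul]
    refine Finset.sum_le_sum fun j _ => ?_
    rw [mul_assoc, ← mul_pow]
    exact mul_le_mul_of_nonneg_left (pow_le_pow_left₀ (norm_nonneg _) ((P j).le_opNorm u) 2)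
      (xm_nonneg (H.ω0 j) y s)
  have hu2 : (0 : ℝ) ≤ ‖u‖ ^ 2 := by positivity
  have hX0 : 0 ≤ ∑ j, xm (ω j) y s * ‖P j‖ ^ 2 :=
    Finset.sum_nonneg fun j _ => mul_nonneg (xm_nonneg (H.ω0 j) y s) (by positivity)
  have hκq : 0 ≤ κ / (((q + 1 : ℕ) : ℝ) + 1) := by positivity
  have hSB : ∑ j, xm (ω j) y s * ‖P j u‖ ^ 2 ≤ bS P ω κ y s * ‖u‖ ^ 2 := by
    unfold bS
    rw [add_mul]
    have := mul_nonneg hκq hu2
    linarith
  have hTB : TT P ω κ r y s u ≤ bS P ω κ y s * ‖u‖ ^ 2 := by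
    apply max_le
    · exact (min_le_left _ _).trans hSB
    · unfold bS
      rw [add_mul, mul_div_right_comm]
      have := mul_nonneg hX0 hu2
      linarith
  exact tb4_real hB hC (by positivity : 0 < κ * r ^ 2) hS0 hSB (hTT0 s) hTB (le_max_left _ _) hu2
    (pow_le_pow_left₀ (norm_nonneg _) hu 2)

end Pool.Agent.Lib.MP_8d00da_gt.h42t
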