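import Mathlib
import Pool.Agent.Lib.MP_8d00da_gt.h42t.TA3
import Pool.Agent.Lib.MP_8d00da_gt.h42t.TB4

namespace Pool.Agent.Lib.MP_8d00da_gt.h42r
end Pool.Agent.Lib.MP_8d00da_gt.h42r


/-!
# The decrease: coercivity
-/

namespace Pool.Agent.Lib.MP_8d00da_gt.h42t

open MeasureTheory Set Filter
open Pool.Agent.Lib.MP_8d00da_gt.h25 Pool.Agent.Lib.MP_8d00da_gt.h42
open Pool.Agent.Lib.MP_8d00da_gt.h42s Pool.Agent.Lib.MP_8d00da_gt.h42o
open Pool.Agent.Lib.MP_8d00da_gt.h97r Pool.Agent.Lib.MP_8d00da_gt.h42r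
open scoped Topology NNReal ENNReal

set_option linter.unusedSectionVars false

variable {F : Type*} [NormedAddCommGroup F] [InnerProductSpace ℝ F]
    [FiniteDimensional ℝ F] [MeasurableSpace F] [BorelSpace F]

variable {G : Type*} [NormedAddCommGroup G] [InnerProductSpace ℝ G]
    [FiniteDimensional ℝ G] [MeasurableSpace G] [BorelSpace G]

variable {ι : Type*} [Fintype ι]

variable {q : ℕ}

private theorem tb5_hmy {h : F → ℝ} (hh : Measurable h) (y : F) :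
    Measurable fun s : Fin q → F => hm h y s :=
  (hm_meas hh).comp (measurable_const.prodMk measurable_id)

private theorem tb5_cmy {A : F → ℝ} (hA : Measurable A) (y : F) :
    Measurable fun s : Fin q → F => cm A y s :=
  (cm_meas hA).comp (measurable_const.prodMk measurable_id)

private theorem tb5_xmy {ω : F → ℝ} (hω : Measurable ω) (y : F) :
    Measurable fun s : Fin q → F => xm ω y s :=
  (xm_meas hω).comp (measurable_const.prodMk measurable_id)

private theorem tb5_TT {P : ι → F →L[ℝ] G} {ω : ι → F → ℝ} (hω : ∀ j, Measurable (ω j))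
    (κ r : ℝ) (y u : F) : Measurable fun s : Fin q → F => TT P ω κ r y s u := by
  unfold TT
  exact ((Finset.measurable_sum _ fun j _ => (tb5_xmy (hω j) y).mul_const _).min
    measurable_const).max measurable_const

private theorem tb5_TTlow {P : ι → F →L[ℝ] G} {ω : ι → F → ℝ} (κ r : ℝ) (y u : F)
    (s : Fin q → F) : κ * ‖u‖ ^ 2 / (q + 1) ≤ TT P ω κ r y s u := le_max_right _ _

private theorem tb5_frac {C T : ℝ} (hC : 0 ≤ C) (hT : 0 ≤ T) :
    0 ≤ C * T / (C + T) ∧ C * T / (C + T) ≤ C := by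
  refine ⟨by positivity, ?_⟩
  rcases (add_nonneg hC hT).eq_or_lt with h | h
  · rw [← h, div_zero]
    exact hC
  · rw [div_le_iff₀ h]
    nlinarith

private theorem tb5_mono {C T t : ℝ} (hC : 0 < C) (ht : 0 ≤ t) (htT : t ≤ T) :
    C * t / (C + t) ≤ C * T / (C + T) := by
  rw [div_le_div_iff₀ (by linarith) (by linarith)]
  nlinarith [mul_pos hC hC]

private theorem tb5_dint {h A : F → ℝ} {P : ι → F →L[ℝ] G} {ω : ι → F → ℝ} {κ r Hb Ab : ℝ}
    (H : PD q h A P ω κ r Hb Ab) (y u : F) :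
    Integrable fun s : Fin q → F =>
      hm h y s * (cm A y s * TT P ω κ r y s u / (cm A y s + TT P ω κ r y s u)) := by
  have hC : ∀ s : Fin q → F, 0 ≤ cm A y s := fun s => cm_nonneg H.A0 y s
  have hT : ∀ s : Fin q → F, 0 ≤ TT P ω κ r y s u := fun s => by
    refine le_trans ?_ (tb5_TTlow κ r y u s)
    have := H.κpos
    positivity
  refine (hm_int H.meas H.h0 H.hb H.hi y).mul_bdd (c := Ab) ?_ (ae_of_all _ fun s => ?_)
  · exact (((tb5_cmy H.Am y).mul (tb5_TT H.ωm κ r y u)).div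
      ((tb5_cmy H.Am y).add (tb5_TT H.ωm κ r y u))).aestronglyMeasurable
  · have h1 := tb5_frac (hC s) (hT s)
    rw [Real.norm_of_nonneg h1.1]
    exact h1.2.trans (cm_le H.Ab y s)

private theorem tb5_low {h A : F → ℝ} {P : ι → F →L[ℝ] G} {ω : ι → F → ℝ} {κ r Hb Ab : ℝ}
    (H : PD (q + 1) h A P ω κ r Hb Ab) {ρ : ℝ} {u : F} {t : ℝ} (ht0 : 0 ≤ t)
    (ht1 : t ≤ κ / (((q + 1 : ℕ) : ℝ) + 1) * ρ ^ 2)
    (ht2 : t ≤ κ * ‖u‖ ^ 2 / (((q + 1 : ℕ) : ℝ) + 1)) (y : F) :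
    t * (P0 (q + 1) h y - bt (q + 1) h A P ω κ r ρ y) ≤ DD (q + 1) h A P ω κ r y u := by
  have hκ := H.κpos
  have i0 := hm_int (q := q + 1) H.meas H.h0 H.hb H.hi y
  have ib := (bt_int H ρ y).1
  have e1 : t * (P0 (q + 1) h y - bt (q + 1) h A P ω κ r ρ y) =
      ∫ s : Fin (q + 1) → F, t * (hm h y s -
        hm h y s * ((1 + bS P ω κ y s) * tS A P ω κ r ρ y s)) := by
    rw [integral_const_mul, integral_sub i0 ib]
    rfl
  rw [e1]
  refine integral_mono ((i0.sub ib).const_mul t) (tb5_dint H y u) fun s => ?_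
  simp only
  rcases (hm_nonneg H.h0 y s).eq_or_lt with h0 | h0
  · rw [← h0]
    simp
  have hC : 0 < cm A y s := cm_pos H.h0 H.A0 H.Apos h0
  have hTt : t ≤ TT P ω κ r y s u := ht2.trans (tb5_TTlow κ r y u s)
  have h1 := tb5_mono hC ht0 hTt
  have hx : 0 ≤ ∑ j, xm (ω j) y s * ‖P j‖ ^ 2 :=
    Finset.sum_nonneg fun j _ => mul_nonneg (xm_nonneg (H.ω0 j) y s) (sq_nonneg _)
  have hbS : κ / (((q + 1 : ℕ) : ℝ) + 1) ≤ bS P ω κ y s := by
    unfold bS
    linarith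
  have hk0 : 0 ≤ κ / (((q + 1 : ℕ) : ℝ) + 1) := by positivity
  have hbS0 : 0 ≤ bS P ω κ y s := hk0.trans hbS
  have hrest : 0 ≤ bS P ω κ y s * ρ ^ 2 / (κ * r ^ 2) := by positivity
  have htS : min 1 (t / cm A y s) ≤ tS A P ω κ r ρ y s := by
    unfold tS
    refine min_le_min le_rfl ?_
    have h2 : t / cm A y s ≤ bS P ω κ y s * ρ ^ 2 / cm A y s := by
      refine div_le_div_of_nonneg_right ?_ hC.le
      exact ht1.trans (mul_le_mul_of_nonneg_right hbS (sq_nonneg ρ))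
    linarith
  have htS0 : 0 ≤ tS A P ω κ r ρ y s := by
    refine le_trans ?_ htS
    exact le_min zero_le_one (div_nonneg ht0 hC.le)
  have h3 : t * (1 - min 1 (t / cm A y s)) ≤ cm A y s * t / (cm A y s + t) := by
    have hpos : 0 < cm A y s + t := by linarith
    rcases le_total 1 (t / cm A y s) with h4 | h4
    · rw [min_eq_left h4, sub_self, mul_zero]
      positivity
    · rw [min_eq_right h4, le_div_iff₀ hpos]
      have h5 : t * (1 - t / cm A y s) * (cm A y s + t) =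
          t * cm A y s - t * (t / cm A y s) * t := by
        field_simp
        ring
      rw [h5]
      have h6 : 0 ≤ t * (t / cm A y s) * t := by positivity
      linarith
  have h4 : t * (1 - (1 + bS P ω κ y s) * tS A P ω κ r ρ y s) ≤
      t * (1 - min 1 (t / cm A y s)) := by
    refine mul_le_mul_of_nonneg_left ?_ ht0
    have : 0 ≤ bS P ω κ y s * tS A P ω κ r ρ y s := mul_nonneg hbS0 htS0
    linarith
  have h5 := mul_le_mul_of_nonneg_left ((h4.trans h3).trans h1) h0.le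
  refine le_trans (le_of_eq ?_) h5
  ring

private theorem tb5_point {k C T a K ε e τ : ℝ} (hk : 0 < k) (hC : 0 < C) (ha : 0 ≤ a)
    (hK : 0 ≤ K) (hε : 0 < ε) (he : 0 ≤ e) (hτ0 : 0 ≤ τ) (hτ1 : τ ≤ 1) (heK : e ≤ ε * K * τ)
    (hT : k * τ ^ 2 ≤ T) :
    -(a * (C * T / (C + T))) + 2 * e * √a * √C + e ^ 2 ≤ K ^ 2 * (2 * C / k + 3) * ε ^ 2 := by
  have hT0 : 0 ≤ T := le_trans (by positivity) hT
  have hsC : √C ^ 2 = C := Real.sq_sqrt hC.le
  have hsa : √a ^ 2 = a := Real.sq_sqrt ha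
  have hsa0 := Real.sqrt_nonneg a
  have hsC0 := Real.sqrt_nonneg C
  have he2 : e ^ 2 ≤ K ^ 2 * ε ^ 2 := by
    have h1 : e ≤ ε * K := heK.trans (mul_le_of_le_one_right (by positivity) hτ1)
    calc e ^ 2 ≤ (ε * K) ^ 2 := pow_le_pow_left₀ he h1 2
      _ = K ^ 2 * ε ^ 2 := by ring
  have h2 : 2 * e * √a * √C ≤ 2 * (ε * K * τ) * √a * √C := by
    have : e * (√a * √C) ≤ (ε * K * τ) * (√a * √C) :=
      mul_le_mul_of_nonneg_right heK (by positivity)
    nlinarith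
  have hCk : 0 ≤ 2 * C / k := by positivity
  rcases le_total (k * τ ^ 2) C with hc | hc
  · -- `C T / (C + T) ≥ k τ² / 2`
    have h3 : k * τ ^ 2 / 2 ≤ C * T / (C + T) := by
      refine le_trans ?_ (tb5_mono hC (by positivity) hT)
      rw [div_le_div_iff₀ (by norm_num) (by positivity)]
      nlinarith [mul_nonneg (by positivity : 0 ≤ k * τ ^ 2) (sub_nonneg.2 hc)]
    have h4 := mul_le_mul_of_nonneg_left h3 ha
    -- complete the square
    have h5 : 2 * (ε * K * τ) * √a * √C - a * (k * τ ^ 2 / 2) ≤ K ^ 2 * (2 * C / k) * ε ^ 2 := by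
      have h6 : K ^ 2 * (2 * C / k) * ε ^ 2 - (2 * (ε * K * τ) * √a * √C - a * (k * τ ^ 2 / 2)) =
          (2 / k) * (ε * K * √C - k * (√a * τ) / 2) ^ 2 := by
        have e1 : (ε * K * √C - k * (√a * τ) / 2) ^ 2 =
            ε ^ 2 * K ^ 2 * C - ε * K * √C * (k * (√a * τ)) + k ^ 2 * (a * τ ^ 2) / 4 := by
          calc (ε * K * √C - k * (√a * τ) / 2) ^ 2 =
              ε ^ 2 * K ^ 2 * √C ^ 2 - ε * K * √C * (k * (√a * τ)) +
                k ^ 2 * (√a ^ 2 * τ ^ 2) / 4 := by ring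
            _ = _ := by rw [hsC, hsa]
        rw [e1]
        field_simp
        ring
      have h7 : 0 ≤ (2 / k) * (ε * K * √C - k * (√a * τ) / 2) ^ 2 := by positivity
      linarith
    have h8 : 0 ≤ K ^ 2 * ε ^ 2 := by positivity
    nlinarith
  · have h3 : C / 2 ≤ C * T / (C + T) := by
      have hCT : C ≤ T := hc.trans hT
      rw [div_le_div_iff₀ (by norm_num) (by positivity)]
      nlinarith
    have h4 := mul_le_mul_of_nonneg_left h3 ha
    have h5 : 2 * (ε * K * τ) * √a * √C ≤ 2 * (ε * K) * (√a * √C) := by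
      have : (ε * K) * τ ≤ (ε * K) * 1 := mul_le_mul_of_nonneg_left hτ1 (by positivity)
      have h6 : (ε * K * τ) * (√a * √C) ≤ (ε * K) * (√a * √C) := by
        refine mul_le_mul_of_nonneg_right ?_ (by positivity)
        linarith
      nlinarith
    have h6 : 2 * (ε * K) * (√a * √C) - a * (C / 2) ≤ 2 * (K ^ 2 * ε ^ 2) := by
      have h7 : a * C = (√a * √C) ^ 2 := by rw [mul_pow, hsa, hsC]
      have h8 := sq_nonneg (√a * √C - 2 * (ε * K))
      nlinarith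
    have h8 : 0 ≤ K ^ 2 * (2 * C / k) * ε ^ 2 := by positivity
    nlinarith

/-- `T ≥ k ‖u‖²`, `k = κ/(q+2) ≤ B`, and `t ↦ C t/(C+t)` is increasing:
`C T/(C+T) ≥ k‖u‖² (1 - min 1 (k‖u‖²/C)) ≥ k ‖u‖² (1 - tS)`. Integrate; `tS ≤ (1+B) tS`. -/
theorem dd_low2 {h A : F → ℝ} {P : ι → F →L[ℝ] G} {ω : ι → F → ℝ} {κ r Hb Ab : ℝ}
    (H : PD (q + 1) h A P ω κ r Hb Ab) {ρ : ℝ} (hρ : 0 < ρ) {u : F} (hu : ‖u‖ ≤ ρ) (y : F) :
    κ / (((q + 1 : ℕ) : ℝ) + 1) * ‖u‖ ^ 2 * (P0 (q + 1) h y - bt (q + 1) h A P ω κ r ρ y) ≤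
      DD (q + 1) h A P ω κ r y u := by
  have hκ := H.κpos
  refine tb5_low H (by positivity) ?_ (le_of_eq (by ring)) y
  have h1 : ‖u‖ ^ 2 ≤ ρ ^ 2 := pow_le_pow_left₀ (norm_nonneg u) hu 2
  exact mul_le_mul_of_nonneg_left h1 (by positivity)

/-- The same with `T ≥ k ‖u‖² ≥ k ρ²`. -/
theorem dd_low3 {h A : F → ℝ} {P : ι → F →L[ℝ] G} {ω : ι → F → ℝ} {κ r Hb Ab : ℝ}
    (H : PD (q + 1) h A P ω κ r Hb Ab) {ρ : ℝ} (hρ : 0 < ρ) {u : F} (hu : ρ ≤ ‖u‖) (y : F) :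
    κ / (((q + 1 : ℕ) : ℝ) + 1) * ρ ^ 2 * (P0 (q + 1) h y - bt (q + 1) h A P ω κ r ρ y) ≤
      DD (q + 1) h A P ω κ r y u := by
  have hκ := H.κpos
  refine tb5_low H (by positivity) le_rfl ?_ y
  have h1 : ρ ^ 2 ≤ ‖u‖ ^ 2 := pow_le_pow_left₀ hρ.le hu 2
  rw [div_mul_eq_mul_div]
  refine div_le_div_of_nonneg_right (mul_le_mul_of_nonneg_left h1 hκ.le) (by positivity)

/-- Crude bound. Let `t = min ‖u‖ 1`, `k = κ/(q+1)`, `a = A x ∈ [0, Ab]`, `C = cm ≤ Ab`,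
`T ≥ k t²`, so `C T/(C+T) ≥ min (k t²) C / 2`. If `k t² ≤ C`:
`-a k t²/2 + 2 ε K t √(a C) ≤ 2 ε² K² C/k`. If `C < k t²`: `-a C/2 + 2 ε K t √(a C) ≤ 2 ε² K²`.
`e² ≤ ε² K²`. Integrate against `hm`: `2 e √a P1 = ∫ hm 2 e √(a C)`. -/
theorem dd_crude {h A : F → ℝ} {P : ι → F →L[ℝ] G} {ω : ι → F → ℝ} {κ r Hb Ab : ℝ}
    (H : PD q h A P ω κ r Hb Ab) {K : ℝ} (hK : 0 ≤ K) {ε e : ℝ} (hε : 0 < ε) (he : 0 ≤ e) {u : F}
    (heK : e ≤ ε * K * min ‖u‖ 1) {a : ℝ} (ha0 : 0 ≤ a) (y : F) :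
    -(a * DD q h A P ω κ r y u) + 2 * e * √a * P1 q h A y + e ^ 2 * P0 q h y ≤
      K ^ 2 * (2 * (q + 1) * Ab / κ + 3) * ε ^ 2 * P0 q h y := by
  have hκ := H.κpos
  have i0 := hm_int (q := q) H.meas H.h0 H.hb H.hi y
  have i1 : Integrable fun s : Fin q → F => hm h y s * √(cm A y s) := by
    refine i0.mul_bdd (c := √Ab) (tb5_cmy H.Am y).sqrt.aestronglyMeasurable
      (ae_of_all _ fun s => ?_)
    rw [Real.norm_of_nonneg (Real.sqrt_nonneg _)]
    exact Real.sqrt_le_sqrt (cm_le H.Ab y s)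
  have i2 := tb5_dint H y u
  have i3 : Integrable fun s : Fin q → F => -a * (hm h y s * (cm A y s * TT P ω κ r y s u /
      (cm A y s + TT P ω κ r y s u))) + 2 * e * √a * (hm h y s * √(cm A y s)) :=
    (i2.const_mul _).add (i1.const_mul _)
  have i4 : Integrable fun s : Fin q → F => -a * (hm h y s * (cm A y s * TT P ω κ r y s u /
      (cm A y s + TT P ω κ r y s u))) + 2 * e * √a * (hm h y s * √(cm A y s)) +
      e ^ 2 * hm h y s := i3.add (i0.const_mul _)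
  have e1 : -(a * DD q h A P ω κ r y u) + 2 * e * √a * P1 q h A y + e ^ 2 * P0 q h y =
      ∫ s : Fin q → F, (-a * (hm h y s * (cm A y s * TT P ω κ r y s u /
        (cm A y s + TT P ω κ r y s u))) + 2 * e * √a * (hm h y s * √(cm A y s)) +
        e ^ 2 * hm h y s) := by
    rw [integral_add i3 (i0.const_mul _),
      integral_add (i2.const_mul _) (i1.const_mul _), integral_const_mul, integral_const_mul,
      integral_const_mul, DD, P1, P0]
    ring
  have e2 : K ^ 2 * (2 * (q + 1) * Ab / κ + 3) * ε ^ 2 * P0 q h y =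
      ∫ s : Fin q → F, K ^ 2 * (2 * (q + 1) * Ab / κ + 3) * ε ^ 2 * hm h y s := by
    rw [integral_const_mul, P0]
  rw [e1, e2]
  refine integral_mono i4 (i0.const_mul _) fun s => ?_
  simp only
  rcases (hm_nonneg H.h0 y s).eq_or_lt with h0 | h0
  · rw [← h0]
    simp
  have hC : 0 < cm A y s := cm_pos H.h0 H.A0 H.Apos h0
  have hCA := cm_le H.Ab y s
  have hk : 0 < κ / ((q : ℝ) + 1) := by positivity
  have hT : κ / ((q : ℝ) + 1) * (min ‖u‖ 1) ^ 2 ≤ TT P ω κ r y s u := by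
    refine le_trans ?_ (tb5_TTlow κ r y u s)
    rw [div_mul_eq_mul_div]
    refine div_le_div_of_nonneg_right (mul_le_mul_of_nonneg_left ?_ hκ.le) (by positivity)
    exact pow_le_pow_left₀ (le_min (norm_nonneg u) zero_le_one) (min_le_left _ _) 2
  have h1 := tb5_point hk hC ha0 hK hε he (le_min (norm_nonneg u) zero_le_one)
    (min_le_right _ _) heK hT
  have h2 : K ^ 2 * (2 * cm A y s / (κ / ((q : ℝ) + 1)) + 3) * ε ^ 2 ≤
      K ^ 2 * (2 * (q + 1) * Ab / κ + 3) * ε ^ 2 := by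
    refine mul_le_mul_of_nonneg_right (mul_le_mul_of_nonneg_left ?_ (sq_nonneg K)) (sq_nonneg ε)
    have h3 : 2 * cm A y s / (κ / ((q : ℝ) + 1)) = 2 * (q + 1) * cm A y s / κ := by
      field_simp
    rw [h3]
    have h4 : 2 * ((q : ℝ) + 1) * cm A y s / κ ≤ 2 * (q + 1) * Ab / κ := by
      refine div_le_div_of_nonneg_right (mul_le_mul_of_nonneg_left hCA (by positivity)) hκ.le
    linarith
  have h3 := mul_le_mul_of_nonneg_left (h1.trans h2) h0.le
  refine le_trans (le_of_eq ?_) (h3.trans (le_of_eq ?_))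
  · ring
  · ring

end Pool.Agent.Lib.MP_8d00da_gt.h42t
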