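import Mathlib
import Pool.Agent.Lib.MP_8d00da_gt.h97r.RDefs

namespace Pool.Agent.Lib.MP_8d00da_gt.h42r
end Pool.Agent.Lib.MP_8d00da_gt.h42r


/-!
# Data for the outer inequality
-/

namespace Pool.Agent.Lib.MP_8d00da_gt.h42t

open MeasureTheory Set Filter
open Pool.Agent.Lib.MP_8d00da_gt.h25 Pool.Agent.Lib.MP_8d00da_gt.h42
open Pool.Agent.Lib.MP_8d00da_gt.h42s Pool.Agent.Lib.MP_8d00da_gt.h42o
open Pool.Agent.Lib.MP_8d00da_gt.h97r Pool.Agent.Lib.MP_8d00da_gt.h42r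
open scoped Topology NNReal ENNReal

set_option linter.unusedSectionVars false

variable {F : Type*} [NormedAddCommGroup F] [InnerProductSpace ℝ F]
    [FiniteDimensional ℝ F] [MeasurableSpace F] [BorelSpace F]

variable {G : Type*} [NormedAddCommGroup G] [InnerProductSpace ℝ G]
    [FiniteDimensional ℝ G] [MeasurableSpace G] [BorelSpace G]

variable {ι : Type*} [Fintype ι]

/-- Data for the outer Prekopa-Leindler step (fixed `z`): weights `h, a, w0, w1, w2`, decrease `D`,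
quadratic form `S` (second variable: direction), error `β ρ x`, dual bound `Q`. -/
structure OD (h a w0 w1 w2 Q : F → ℝ) (D S : F → F → ℝ) (β : ℝ → F → ℝ) (c0 C5 wb K : ℝ)
    (f : F → ℝ) : Prop where
  c0pos : 0 < c0
  c5nn : 0 ≤ C5
  wbnn : 0 ≤ wb
  Knn : 0 ≤ K
  h0 : ∀ x, 0 ≤ h x
  a0 : ∀ x, 0 ≤ a x
  w00 : ∀ x, 0 ≤ w0 x
  w10 : ∀ x, 0 ≤ w1 x
  w1b : ∀ x, w1 x ≤ wb * w0 x
  Q0 : ∀ x, 0 ≤ Q x
  S0 : ∀ x u, 0 ≤ S x u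
  hm : Measurable h
  am : Measurable a
  w0m : Measurable w0
  w1m : Measurable w1
  w2m : Measurable w2
  Qm : Measurable Q
  βm : ∀ ρ, Measurable (β ρ)
  apos : ∀ x, 0 < h x → 0 < a x
  sm : Sm f
  QS : ∀ x, 0 < h x → 0 < w0 x → ∀ u, (fderiv ℝ f x u) ^ 2 ≤ Q x * S x u
  D1 : ∀ ρ x u, 0 < ρ → ‖u‖ ≤ ρ → S x u - ‖u‖ ^ 2 * β ρ x ≤ D x u
  D2 : ∀ ρ x u, 0 < ρ → ‖u‖ ≤ ρ → c0 * ‖u‖ ^ 2 * (w0 x - β ρ x) ≤ D x u
  D3 : ∀ ρ x u, 0 < ρ → ρ ≤ ‖u‖ → c0 * ρ ^ 2 * (w0 x - β ρ x) ≤ D x u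
  Dw : ∀ x u, D x u ≤ w2 x
  βt : ∀ x, Tendsto (fun ρ => β ρ x) (𝓝[>] 0) (𝓝 0)
  fK : ∀ x u, |f (x + u) - f (x - u)| / 2 ≤ K * min ‖u‖ 1
  crude : ∀ ε x u e, 0 < ε → 0 ≤ e → e ≤ ε * K * min ‖u‖ 1 →
    -(a x * D x u) + 2 * e * √(a x) * w1 x + e ^ 2 * w0 x ≤ C5 * ε ^ 2 * w0 x

/-- The right side of the outer product bound. -/
noncomputable def NN (h a w0 w1 w2 : F → ℝ) (D : F → F → ℝ) (f : F → ℝ) (ε : ℝ) (x u : F) : ℝ :=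
  h x * (a x * (w2 x - D x u) + 2 * (ε * |f (x + u) - f (x - u)| / 2) * √(a x) * w1 x +
    (ε * |f (x + u) - f (x - u)| / 2) ^ 2 * w0 x)

/-- The explicit majorant. -/
noncomputable def MM (h a w0 w1 w2 Q : F → ℝ) (β : ℝ → F → ℝ) (C5 η η₁ ε ρ : ℝ) (x : F) : ℝ :=
  h x * (a x * w2 x + ε ^ 2 * (w1 x ^ 2 * Q x / (1 - η) +
    if ε ≤ a x ∧ β ρ x ≤ η₁ * w0 x then 0 else C5 * w0 x))

end Pool.Agent.Lib.MP_8d00da_gt.h42t
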