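import Mathlib
import Pool.Agent.Lib.MP_8d00da_gt.h42t.TC0

namespace Pool.Agent.Lib.MP_8d00da_gt.h42r
end Pool.Agent.Lib.MP_8d00da_gt.h42r


/-!
# The outer majorant
-/

namespace Pool.Agent.Lib.MP_8d00da_gt.h42t

open MeasureTheory Set Filter
open Pool.Agent.Lib.MP_8d00da_gt.h25 Pool.Agent.Lib.MP_8d00da_gt.h42
open Pool.Agent.Lib.MP_8d00da_gt.h42s Pool.Agent.Lib.MP_8d00da_gt.h42o
open Pool.Agent.Lib.MP_8d00da_gt.h97r Pool.Agent.Lib.MP_8d00da_gt.h42r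
open scoped Topology NNReal ENNReal

set_option linter.unusedSectionVars false

variable {F : Type*} [NormedAddCommGroup F] [InnerProductSpace ℝ F]
    [FiniteDimensional ℝ F] [MeasurableSpace F] [BorelSpace F]

variable {G : Type*} [NormedAddCommGroup G] [InnerProductSpace ℝ G]
    [FiniteDimensional ℝ G] [MeasurableSpace G] [BorelSpace G]

variable {ι : Type*} [Fintype ι]

private theorem tc1_lipD {f : F → ℝ} (hf : Sm f) :
    ∃ M : ℝ, 0 ≤ M ∧ ∀ x y, ‖fderiv ℝ f x - fderiv ℝ f y‖ ≤ M * ‖x - y‖ := by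
  let b := stdOrthonormalBasis ℝ F
  have h1 : ∀ i, ∃ L : ℝ≥0, LipschitzWith L fun x => fderiv ℝ f x (b i) := fun i => (hf.dbl (b i)).1
  choose K hK using h1
  refine ⟨∑ i, (K i : ℝ), Finset.sum_nonneg fun i _ => (K i).2, fun x y => ?_⟩
  have hn : 0 ≤ (∑ i, (K i : ℝ)) * ‖x - y‖ :=
    mul_nonneg (Finset.sum_nonneg fun i _ => (K i).2) (norm_nonneg _)
  refine ContinuousLinearMap.opNorm_le_bound _ hn fun v => ?_
  have h2 : (fderiv ℝ f x - fderiv ℝ f y) v =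
      ∑ i, inner ℝ (b i) v * (fderiv ℝ f x (b i) - fderiv ℝ f y (b i)) := by
    conv_lhs => rw [← b.sum_repr' v]
    rw [map_sum]
    refine Finset.sum_congr rfl fun i _ => ?_
    rw [map_smul, smul_eq_mul]
    rfl
  rw [h2]
  refine (norm_sum_le _ _).trans ?_
  rw [Finset.sum_mul, Finset.sum_mul]
  refine Finset.sum_le_sum fun i _ => ?_
  rw [norm_mul]
  have h3 : ‖(inner ℝ (b i) v : ℝ)‖ ≤ ‖v‖ := by
    have := norm_inner_le_norm (𝕜 := ℝ) (b i) v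
    rwa [b.norm_eq_one, one_mul] at this
  have h4 : ‖fderiv ℝ f x (b i) - fderiv ℝ f y (b i)‖ ≤ K i * ‖x - y‖ := by
    have := (hK i).dist_le_mul x y
    rwa [dist_eq_norm, dist_eq_norm] at this
  calc ‖(inner ℝ (b i) v : ℝ)‖ * ‖fderiv ℝ f x (b i) - fderiv ℝ f y (b i)‖ ≤
        ‖v‖ * (K i * ‖x - y‖) := mul_le_mul h3 h4 (norm_nonneg _) (norm_nonneg _)
    _ = _ := by ring

/-- Second order difference quotients of a function with Lipschitz derivative. -/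
theorem sm_taylor {f : F → ℝ} (hf : Sm f) : ∃ K2 : ℝ, 0 ≤ K2 ∧ ∀ x u,
    |f (x + u) - f (x - u)| / 2 ≤ |fderiv ℝ f x u| + K2 * ‖u‖ ^ 2 := by
  obtain ⟨M, hM0, hM⟩ := tc1_lipD hf
  refine ⟨M, hM0, fun x u => ?_⟩
  have hd : ∀ z, HasFDerivAt (fun y => f y - fderiv ℝ f x y) (fderiv ℝ f z - fderiv ℝ f x) z :=
    fun z => (hf.diff z).hasFDerivAt.sub (fderiv ℝ f x).hasFDerivAt
  have hb : ∀ z ∈ Metric.closedBall x ‖u‖, ‖fderiv ℝ f z - fderiv ℝ f x‖ ≤ M * ‖u‖ := by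
    intro z hz
    refine (hM z x).trans (mul_le_mul_of_nonneg_left ?_ hM0)
    rwa [mem_closedBall_iff_norm] at hz
  have h1 := (convex_closedBall x ‖u‖).norm_image_sub_le_of_norm_hasFDerivWithin_le
    (fun z _ => (hd z).hasFDerivWithinAt) hb
    (mem_closedBall_iff_norm.2 (by rw [sub_sub_cancel_left, norm_neg]) : x - u ∈ _)
    (mem_closedBall_iff_norm.2 (by rw [add_sub_cancel_left]) : x + u ∈ _)
  have h2 : f (x + u) - fderiv ℝ f x (x + u) - (f (x - u) - fderiv ℝ f x (x - u)) =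
      f (x + u) - f (x - u) - 2 * fderiv ℝ f x u := by
    rw [map_add, map_sub]
    ring
  have h3 : ‖x + u - (x - u)‖ = 2 * ‖u‖ := by
    rw [show x + u - (x - u) = (2 : ℝ) • u by rw [two_smul]; abel, norm_smul]
    norm_num
  rw [h2, h3, Real.norm_eq_abs] at h1
  have h4 : |f (x + u) - f (x - u)| ≤
      |f (x + u) - f (x - u) - 2 * fderiv ℝ f x u| + |2 * fderiv ℝ f x u| := by
    have := abs_add_le (f (x + u) - f (x - u) - 2 * fderiv ℝ f x u) (2 * fderiv ℝ f x u)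
    rwa [sub_add_cancel] at this
  rw [abs_mul, abs_two] at h4
  nlinarith [h1, h4]

private theorem tc1_amgm {a S Q w1 ε t η : ℝ} (ha : 0 ≤ a) (hS : 0 ≤ S) (hQ : 0 ≤ Q)
    (ht : t ^ 2 ≤ Q * S) (hη : η < 1) :
    2 * (ε * t) * √a * w1 ≤ a * (1 - η) * S + ε ^ 2 * (w1 ^ 2 * Q / (1 - η)) := by
  have h1 : 0 < 1 - η := by linarith
  have hA : 0 ≤ a * (1 - η) * S := by positivity
  have hB : 0 ≤ ε ^ 2 * (w1 ^ 2 * Q / (1 - η)) := by positivity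
  have hAB : (a * (1 - η) * S) * (ε ^ 2 * (w1 ^ 2 * Q / (1 - η))) =
      (ε * w1) ^ 2 * a * (Q * S) := by
    field_simp
  have h2 : (2 * (ε * t) * √a * w1) ^ 2 = 4 * ((ε * w1) ^ 2 * a * t ^ 2) := by
    have : √a ^ 2 = a := Real.sq_sqrt ha
    calc (2 * (ε * t) * √a * w1) ^ 2 = 4 * ((ε * w1) ^ 2 * (√a ^ 2) * t ^ 2) := by ring
      _ = _ := by rw [this]
  have h3 : (ε * w1) ^ 2 * a * t ^ 2 ≤ (ε * w1) ^ 2 * a * (Q * S) :=
    mul_le_mul_of_nonneg_left ht (by positivity)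
  have h4 : (2 * (ε * t) * √a * w1) ^ 2 ≤
      (a * (1 - η) * S + ε ^ 2 * (w1 ^ 2 * Q / (1 - η))) ^ 2 := by
    rw [h2]
    nlinarith [sq_nonneg (a * (1 - η) * S - ε ^ 2 * (w1 ^ 2 * Q / (1 - η)))]
  exact (le_abs_self _).trans (abs_le_of_sq_le_sq h4 (by linarith))

private theorem tc1_sqrt {ε a : ℝ} (hε : 0 < ε) (h : ε ≤ a) : ε * √a ≤ √ε * a := by
  have ha : 0 ≤ a := hε.le.trans h
  have h1 : √ε * √ε = ε := Real.mul_self_sqrt hε.le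
  have h2 : √a * √a = a := Real.mul_self_sqrt ha
  have h3 : √ε ≤ √a := Real.sqrt_le_sqrt h
  calc ε * √a = √ε * (√ε * √a) := by rw [← mul_assoc, h1]
    _ ≤ √ε * (√a * √a) := by
        refine mul_le_mul_of_nonneg_left ?_ (Real.sqrt_nonneg _)
        exact mul_le_mul_of_nonneg_right h3 (Real.sqrt_nonneg _)
    _ = √ε * a := by rw [h2]

private theorem tc1_sqrt_rho {ε ρ : ℝ} (hρ : 0 < ρ) (h : ε ≤ ρ ^ 8) : √ε ≤ ρ ^ 4 := by
  rw [show ρ ^ 8 = (ρ ^ 4) ^ 2 by ring] at h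
  exact Real.sqrt_le_iff.2 ⟨by positivity, h⟩

private theorem tc1_near {a w0 w1 Q S D β c0 wb K K2 ε ρ η η₁ n t e : ℝ}
    (hε : 0 < ε) (hρ : 0 < ρ) (hρ1 : ρ ≤ 1) (h8 : ε ≤ ρ ^ 8) (hea : ε ≤ a)
    (hc0 : 0 < c0) (hK2 : 0 ≤ K2) (hη : 0 < η) (hη1 : η < 1)
    (hη₁ : η₁ * (1 + c0) ≤ η * c0 / 2) (hη₁0 : 0 ≤ η₁)
    (hw0 : 0 < w0) (hw1 : 0 ≤ w1) (hw1b : w1 ≤ wb * w0)
    (hQ : 0 ≤ Q) (hS : 0 ≤ S) (hβ : β ≤ η₁ * w0)
    (hD1 : S - n ^ 2 * β ≤ D) (hD2 : c0 * n ^ 2 * (w0 - β) ≤ D)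
    (ht : t ^ 2 ≤ Q * S) (he0 : 0 ≤ e) (he1 : e ≤ ε * (|t| + K2 * n ^ 2)) (he2 : e ≤ ε * (K * n))
    (hsm : ρ * (2 * K2 * wb + K ^ 2) ≤ η * c0 / 2) :
    -(a * D) + 2 * e * √a * w1 + e ^ 2 * w0 ≤ ε ^ 2 * (w1 ^ 2 * Q / (1 - η)) := by
  have ha : 0 < a := hε.trans_le hea
  have hDD : (1 - η) * S + (η * c0 / 2) * (n ^ 2 * w0) ≤ D := by
    have h1 : (1 - η) * (S - n ^ 2 * β) ≤ (1 - η) * D :=
      mul_le_mul_of_nonneg_left hD1 (by linarith)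
    have h2 : η * (c0 * n ^ 2 * (w0 - β)) ≤ η * D := mul_le_mul_of_nonneg_left hD2 hη.le
    have h3 : (η * c0 + (1 - η)) * (n ^ 2 * β) ≤ (η * c0 + (1 - η)) * (n ^ 2 * (η₁ * w0)) := by
      refine mul_le_mul_of_nonneg_left ?_ (by nlinarith)
      exact mul_le_mul_of_nonneg_left hβ (sq_nonneg _)
    have h4 : (η * c0 + (1 - η)) * (n ^ 2 * (η₁ * w0)) ≤ (η * c0 / 2) * (n ^ 2 * w0) := by
      have h5 : (η * c0 + (1 - η)) * η₁ ≤ η * c0 / 2 := by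
        refine le_trans ?_ hη₁
        rw [mul_comm]
        refine mul_le_mul_of_nonneg_left ?_ hη₁0
        nlinarith
      have h6 : 0 ≤ n ^ 2 * w0 := by positivity
      have := mul_le_mul_of_nonneg_right h5 h6
      calc (η * c0 + (1 - η)) * (n ^ 2 * (η₁ * w0)) = (η * c0 + (1 - η)) * η₁ * (n ^ 2 * w0) := by
            ring
        _ ≤ _ := this
    nlinarith [h1, h2, h3, h4]
  have hsa := tc1_sqrt hε hea
  have hsr := tc1_sqrt_rho hρ h8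
  have h1 : 2 * (ε * |t|) * √a * w1 ≤ a * (1 - η) * S + ε ^ 2 * (w1 ^ 2 * Q / (1 - η)) :=
    tc1_amgm ha.le hS hQ (by rwa [sq_abs]) hη1
  have h2 : 2 * e * √a * w1 ≤ 2 * (ε * |t|) * √a * w1 + 2 * (ε * (K2 * n ^ 2)) * √a * w1 := by
    have : 0 ≤ 2 * √a * w1 := by positivity
    have h3 := mul_le_mul_of_nonneg_left he1 this
    nlinarith [h3]
  have h3 : 2 * (ε * (K2 * n ^ 2)) * √a * w1 ≤ (2 * K2 * wb) * (ρ * a) * (n ^ 2 * w0) := by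
    have h4 : ε * √a ≤ ρ * a := by
      refine hsa.trans (mul_le_mul_of_nonneg_right ?_ ha.le)
      refine hsr.trans ?_
      calc ρ ^ 4 ≤ ρ ^ 1 := pow_le_pow_of_le_one hρ.le hρ1 (by norm_num)
        _ = ρ := pow_one _
    calc 2 * (ε * (K2 * n ^ 2)) * √a * w1 = (2 * K2 * n ^ 2) * ((ε * √a) * w1) := by ring
      _ ≤ (2 * K2 * n ^ 2) * ((ρ * a) * (wb * w0)) := by
          refine mul_le_mul_of_nonneg_left ?_ (by positivity)
          exact mul_le_mul h4 hw1b hw1 (by positivity)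
      _ = _ := by ring
  have h4 : e ^ 2 * w0 ≤ K ^ 2 * (ρ * a) * (n ^ 2 * w0) := by
    have h5 : e ^ 2 ≤ (ε * (K * n)) ^ 2 := pow_le_pow_left₀ he0 he2 2
    have h6 : ε ^ 2 ≤ ρ * a := by
      have h7 : ε ≤ ρ := by
        refine h8.trans ?_
        calc ρ ^ 8 ≤ ρ ^ 1 := pow_le_pow_of_le_one hρ.le hρ1 (by norm_num)
          _ = ρ := pow_one _
      rw [pow_two]
      exact mul_le_mul h7 hea hε.le hρ.le
    have h8 : e ^ 2 * w0 ≤ (ε * (K * n)) ^ 2 * w0 := mul_le_mul_of_nonneg_right h5 hw0.le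
    have h9 : (ε * (K * n)) ^ 2 * w0 = ε ^ 2 * (K ^ 2 * (n ^ 2 * w0)) := by ring
    have h10 : ε ^ 2 * (K ^ 2 * (n ^ 2 * w0)) ≤ (ρ * a) * (K ^ 2 * (n ^ 2 * w0)) :=
      mul_le_mul_of_nonneg_right h6 (by positivity)
    calc e ^ 2 * w0 ≤ _ := h8
      _ = _ := h9
      _ ≤ _ := h10
      _ = _ := by ring
  have h5 : a * ((1 - η) * S + (η * c0 / 2) * (n ^ 2 * w0)) ≤ a * D :=
    mul_le_mul_of_nonneg_left hDD ha.le
  have h6 : ρ * (2 * K2 * wb + K ^ 2) * (a * (n ^ 2 * w0)) ≤ (η * c0 / 2) * (a * (n ^ 2 * w0)) :=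
    mul_le_mul_of_nonneg_right hsm (by positivity)
  nlinarith [h1, h2, h3, h4, h5, h6]

private theorem tc1_far {a w0 w1 D β c0 wb K ε ρ η₁ e : ℝ}
    (hε : 0 < ε) (hρ : 0 < ρ) (hρ1 : ρ ≤ 1) (h8 : ε ≤ ρ ^ 8) (hea : ε ≤ a)
    (hc0 : 0 < c0) (hK : 0 ≤ K)
    (hη₁ : η₁ ≤ 1 / 2)
    (hw0 : 0 < w0) (hw1 : 0 ≤ w1) (hw1b : w1 ≤ wb * w0) (hβ : β ≤ η₁ * w0)
    (hD3 : c0 * ρ ^ 2 * (w0 - β) ≤ D) (he0 : 0 ≤ e) (he : e ≤ ε * K)
    (hsm : ρ * (2 * K * wb + K ^ 2) ≤ c0 / 2) :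
    -(a * D) + 2 * e * √a * w1 + e ^ 2 * w0 ≤ 0 := by
  have ha : 0 < a := hε.trans_le hea
  have hsa := tc1_sqrt hε hea
  have hsr := tc1_sqrt_rho hρ h8
  have hρ3 : ρ ^ 4 ≤ ρ ^ 2 * ρ := by
    calc ρ ^ 4 = ρ ^ 3 * ρ := by ring
      _ ≤ ρ ^ 3 * 1 := mul_le_mul_of_nonneg_left hρ1 (by positivity)
      _ = _ := by ring
  have hρ8 : ρ ^ 8 ≤ ρ ^ 2 * ρ := by
    calc ρ ^ 8 ≤ ρ ^ 3 := pow_le_pow_of_le_one hρ.le hρ1 (by norm_num)
      _ = _ := by ring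
  have hDD : c0 * ρ ^ 2 * (w0 / 2) ≤ D := by
    refine le_trans (mul_le_mul_of_nonneg_left ?_ (by positivity)) hD3
    nlinarith
  have h3 : 2 * e * √a * w1 ≤ (2 * K * wb) * (ρ ^ 2 * ρ * a) * w0 := by
    have h4 : ε * √a ≤ ρ ^ 2 * ρ * a :=
      hsa.trans (mul_le_mul_of_nonneg_right (hsr.trans hρ3) ha.le)
    calc 2 * e * √a * w1 = 2 * (e * (√a * w1)) := by ring
      _ ≤ 2 * (ε * K * (√a * w1)) := by
          refine mul_le_mul_of_nonneg_left ?_ (by norm_num)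
          exact mul_le_mul_of_nonneg_right he (by positivity)
      _ = (2 * K) * ((ε * √a) * w1) := by ring
      _ ≤ (2 * K) * ((ρ ^ 2 * ρ * a) * (wb * w0)) := by
          refine mul_le_mul_of_nonneg_left ?_ (by positivity)
          exact mul_le_mul h4 hw1b hw1 (by positivity)
      _ = _ := by ring
  have h4 : e ^ 2 * w0 ≤ K ^ 2 * (ρ ^ 2 * ρ * a) * w0 := by
    refine mul_le_mul_of_nonneg_right ?_ hw0.le
    have h5 : e ^ 2 ≤ (ε * K) ^ 2 := pow_le_pow_left₀ he0 he 2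
    have h6 : ε ^ 2 ≤ ρ ^ 2 * ρ * a := by
      rw [pow_two]
      exact mul_le_mul (h8.trans hρ8) hea hε.le (by positivity)
    calc e ^ 2 ≤ (ε * K) ^ 2 := h5
      _ = K ^ 2 * ε ^ 2 := by ring
      _ ≤ _ := mul_le_mul_of_nonneg_left h6 (by positivity)
  have h5 : a * (c0 * ρ ^ 2 * (w0 / 2)) ≤ a * D := mul_le_mul_of_nonneg_left hDD ha.le
  have h6 : ρ * (2 * K * wb + K ^ 2) * (ρ ^ 2 * a * w0) ≤ (c0 / 2) * (ρ ^ 2 * a * w0) :=
    mul_le_mul_of_nonneg_right hsm (by positivity)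
  nlinarith [h3, h4, h5, h6]

/-- For `0 < η < 1` and `η₁` small (in terms of `η, c0`; e.g.
`η₁ = min (1/2) (η c0 / (2 (1 + c0)))`) there is `ε0 > 0` such that for `0 < ε < ε0` and
`ρ = ε ^ (1/8)` (here: any `ρ ∈ (0, 1]` with `ε ≤ ρ^8`), `NN ≤ MM` for all `x, u`.
Proof. If `h x = 0` both sides are `0`. Not good (`a x < ε` or `β > η₁ w0`): `crude` with
`e = ε |..|/2 ≤ ε K min ‖u‖ 1` (`fK`), and `w1² Q/(1-η) ≥ 0`. If `w0 x = 0` then `w1 x = 0` and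
`crude` gives `-(a D) ≤ 0`; done. Good and `w0 x > 0`, `‖u‖ ≤ ρ`:
`D ≥ (1-η)(S - ‖u‖² β) + η c0 ‖u‖² (w0 - β) ≥ (1-η) S + (η c0/2) ‖u‖² w0`,
`e ≤ ε (|f'(x) u| + K2 ‖u‖²)`, `e ≤ ε K ‖u‖`, `2 ε |f'u| √a w1 ≤ a (1-η) S + ε² w1² Q/(1-η)`
(`QS`, arithmetic-geometric mean), and the rest is
`‖u‖² w0 (-a η c0/2 + 2 ε K2 √a wb + ε² K²) ≤ 0` because `ε √a ≤ √ε a`, `ε² ≤ ε a` (`ε ≤ a`) and
`ε` is small. `‖u‖ > ρ`: `D ≥ c0 ρ² w0/2`, `e ≤ ε K`, and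
`w0 (-a c0 ρ²/2 + 2 ε K wb √a + ε² K²) ≤ w0 a (-c0 ρ²/2 + 2 √ε K wb + ε K²) ≤ 0` if
`√ε ≤ ρ⁴ ≤ ρ² · ρ²` and `ρ` is small; so also an upper bound `ρ < ρ0` is required. -/
theorem nn_le_mm {h a w0 w1 w2 Q : F → ℝ} {D S : F → F → ℝ} {β : ℝ → F → ℝ} {c0 C5 wb K : ℝ}
    {f : F → ℝ} (H : OD h a w0 w1 w2 Q D S β c0 C5 wb K f) {η : ℝ} (hη : 0 < η) (hη1 : η < 1) :
    ∃ η₁ ρ0 : ℝ, 0 < η₁ ∧ 0 < ρ0 ∧ ∀ ε ρ, 0 < ε → 0 < ρ → ρ < ρ0 → ε ≤ ρ ^ 8 → ∀ x u,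
      NN h a w0 w1 w2 D f ε x u ≤ MM h a w0 w1 w2 Q β C5 η η₁ ε ρ x := by
  obtain ⟨K2, hK2, hT⟩ := sm_taylor H.sm
  have hc0 := H.c0pos
  have hwb := H.wbnn
  have hK := H.Knn
  have hC : 0 < 2 * K2 * wb + 2 * K * wb + K ^ 2 + 1 := by positivity
  refine ⟨η * c0 / (2 * (1 + c0)),
    min 1 (η * c0 / (2 * (2 * K2 * wb + 2 * K * wb + K ^ 2 + 1))), by positivity,
    lt_min one_pos (by positivity), fun ε ρ hε hρ hρ0 h8 x u => ?_⟩
  have hρ1 : ρ ≤ 1 := hρ0.le.trans (min_le_left _ _)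
  have hρ2 : ρ ≤ η * c0 / (2 * (2 * K2 * wb + 2 * K * wb + K ^ 2 + 1)) :=
    hρ0.le.trans (min_le_right _ _)
  have hρ3 : ρ * (2 * K2 * wb + 2 * K * wb + K ^ 2 + 1) ≤ η * c0 / 2 := by
    rw [le_div_iff₀ (by positivity)] at hρ2
    linarith
  have hn1 : ρ * (2 * K2 * wb + K ^ 2) ≤ η * c0 / 2 := by
    refine le_trans (mul_le_mul_of_nonneg_left ?_ hρ.le) hρ3
    have : 0 ≤ 2 * K * wb := by positivity
    linarith
  have hn2 : ρ * (2 * K * wb + K ^ 2) ≤ c0 / 2 := by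
    refine le_trans (mul_le_mul_of_nonneg_left ?_ hρ.le) (hρ3.trans ?_)
    · have : 0 ≤ 2 * K2 * wb := by positivity
      linarith
    · nlinarith
  have hη₁a : η * c0 / (2 * (1 + c0)) * (1 + c0) ≤ η * c0 / 2 := by
    apply le_of_eq
    field_simp
  have hη₁b : η * c0 / (2 * (1 + c0)) ≤ 1 / 2 := by
    rw [div_le_div_iff₀ (by positivity) (by norm_num)]
    nlinarith
  have hη₁0 : 0 ≤ η * c0 / (2 * (1 + c0)) := by positivity
  unfold NN MM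
  rcases eq_or_lt_of_le (H.h0 x) with h0 | hpos
  · rw [← h0, zero_mul, zero_mul]
  have ha := H.apos x hpos
  refine mul_le_mul_of_nonneg_left ?_ hpos.le
  have he0 : 0 ≤ ε * |f (x + u) - f (x - u)| / 2 := by positivity
  have he1 : ε * |f (x + u) - f (x - u)| / 2 ≤ ε * K * min ‖u‖ 1 := by
    have := mul_le_mul_of_nonneg_left (H.fK x u) hε.le
    calc ε * |f (x + u) - f (x - u)| / 2 = ε * (|f (x + u) - f (x - u)| / 2) := by ring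
      _ ≤ ε * (K * min ‖u‖ 1) := this
      _ = _ := by ring
  have he2 : ε * |f (x + u) - f (x - u)| / 2 ≤ ε * (|fderiv ℝ f x u| + K2 * ‖u‖ ^ 2) := by
    have := mul_le_mul_of_nonneg_left (hT x u) hε.le
    calc ε * |f (x + u) - f (x - u)| / 2 = ε * (|f (x + u) - f (x - u)| / 2) := by ring
      _ ≤ _ := this
  have hcr := H.crude ε x u _ hε he0 he1
  generalize ε * |f (x + u) - f (x - u)| / 2 = e at *
  have hB : 0 ≤ w1 x ^ 2 * Q x / (1 - η) := by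
    have h1 := H.Q0 x
    have h2 : 0 < 1 - η := by linarith
    positivity
  have hB2 : 0 ≤ ε ^ 2 * (w1 x ^ 2 * Q x / (1 - η)) := by positivity
  have key : -(a x * D x u) + 2 * e * √(a x) * w1 x + e ^ 2 * w0 x ≤
      ε ^ 2 * (w1 x ^ 2 * Q x / (1 - η) +
        if ε ≤ a x ∧ β ρ x ≤ η * c0 / (2 * (1 + c0)) * w0 x then 0 else C5 * w0 x) := by
    split_ifs with hg
    · rw [add_zero]
      rcases eq_or_lt_of_le (H.w00 x) with hw | hw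
      · have hw1 : w1 x = 0 := le_antisymm (by
          have := H.w1b x
          rwa [← hw, mul_zero] at this) (H.w10 x)
        rw [← hw, hw1] at hcr
        rw [← hw, hw1]
        refine hcr.trans ?_
        simp
      · rcases le_or_gt ‖u‖ ρ with hu | hu
        · exact tc1_near hε hρ hρ1 h8 hg.1 hc0 hK2 hη hη1 hη₁a hη₁0 hw (H.w10 x) (H.w1b x)
            (H.Q0 x) (H.S0 x u) hg.2 (H.D1 ρ x u hρ hu) (H.D2 ρ x u hρ hu)
            (H.QS x hpos hw u) he0 he2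
            (he1.trans (by
              rw [mul_assoc]
              exact mul_le_mul_of_nonneg_left
                (mul_le_mul_of_nonneg_left (min_le_left _ _) hK) hε.le)) hn1
        · exact (tc1_far hε hρ hρ1 h8 hg.1 hc0 hK hη₁b hw (H.w10 x) (H.w1b x) hg.2
            (H.D3 ρ x u hρ hu.le) he0
            (he1.trans (by
              calc ε * K * min ‖u‖ 1 ≤ ε * K * 1 :=
                    mul_le_mul_of_nonneg_left (min_le_right _ _) (by positivity)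
                _ = _ := mul_one _)) hn2).trans hB2
    · refine hcr.trans ?_
      rw [mul_add]
      calc C5 * ε ^ 2 * w0 x = ε ^ 2 * (C5 * w0 x) := by ring
        _ ≤ _ := le_add_of_nonneg_left hB2
  rw [mul_sub]
  linarith [key]

end Pool.Agent.Lib.MP_8d00da_gt.h42t
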