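import Mathlib
import Pool.Agent.Lib.MP_8d00da_gt.h42t.TC1

namespace Pool.Agent.Lib.MP_8d00da_gt.h42r
end Pool.Agent.Lib.MP_8d00da_gt.h42r


/-!
# The outer Prekopa-Leindler step
-/

namespace Pool.Agent.Lib.MP_8d00da_gt.h42t

open MeasureTheory Set Filter
open Pool.Agent.Lib.MP_8d00da_gt.h25 Pool.Agent.Lib.MP_8d00da_gt.h42
open Pool.Agent.Lib.MP_8d00da_gt.h42s Pool.Agent.Lib.MP_8d00da_gt.h42o
open Pool.Agent.Lib.MP_8d00da_gt.h97r Pool.Agent.Lib.MP_8d00da_gt.h42r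
open scoped Topology NNReal ENNReal

set_option linter.unusedSectionVars false

variable {F : Type*} [NormedAddCommGroup F] [InnerProductSpace ℝ F]
    [FiniteDimensional ℝ F] [MeasurableSpace F] [BorelSpace F]

variable {G : Type*} [NormedAddCommGroup G] [InnerProductSpace ℝ G]
    [FiniteDimensional ℝ G] [MeasurableSpace G] [BorelSpace G]

variable {ι : Type*} [Fintype ι]

private theorem tc2_rho (n : ℕ) : (0 : ℝ) < 1 / ((n : ℝ) + 2) := by positivity

private theorem tc2_rho_t : Tendsto (fun n : ℕ => (1 : ℝ) / ((n : ℝ) + 2)) atTop (𝓝[>] 0) := by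
  rw [tendsto_nhdsWithin_iff]
  refine ⟨?_, Eventually.of_forall fun n => tc2_rho n⟩
  have h1 : Tendsto (fun n : ℕ => (n : ℝ) + 2) atTop atTop :=
    tendsto_atTop_add_const_right _ _ tendsto_natCast_atTop_atTop
  have h2 := h1.inv_tendsto_atTop
  refine h2.congr fun n => ?_
  rw [Pi.inv_apply, one_div]

private theorem tc2_eps_t : Tendsto (fun n : ℕ => ((1 : ℝ) / ((n : ℝ) + 2)) ^ 8) atTop
    (𝓝[>] 0) := by
  rw [tendsto_nhdsWithin_iff]
  refine ⟨?_, Eventually.of_forall fun n => pow_pos (tc2_rho n) 8⟩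
  have h1 := (tc2_rho_t.mono_right nhdsWithin_le_nhds).pow 8
  rwa [zero_pow (by norm_num)] at h1

/-- Integral of the majorant: `∫ MM ≤ ∫ h a w2 + ε² (∫ h w1² Q/(1-η) + o(1))`, `o(1) → 0` as
`ρ → 0`, `ε ≤ ρ^8`: dominated convergence for `h w0 C5 1_{not good}` (if `h x > 0` then `a x > 0`
and `β ρ x ≤ η₁ w0 x` for small `ρ` if `w0 x > 0`). Take `ρ = 1/(n+2)`, `ε = ρ^8`. -/
theorem mm_int {h a w0 w1 w2 Q : F → ℝ} {D S : F → F → ℝ} {β : ℝ → F → ℝ} {c0 C5 wb K : ℝ}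
    {f : F → ℝ} (H : OD h a w0 w1 w2 Q D S β c0 C5 wb K f)
    (i0 : Integrable fun x => h x * w0 x) (i2 : Integrable fun x => h x * (a x * w2 x))
    (iQ : Integrable fun x => h x * (w1 x ^ 2 * Q x)) {η η₁ : ℝ} (hη : 0 < η) (hη1 : η < 1)
    (h1 : 0 < η₁) :
    ∃ δ : ℕ → ℝ, Tendsto δ atTop (𝓝 0) ∧ ∀ n : ℕ,
      Measurable (MM h a w0 w1 w2 Q β C5 η η₁ ((1 / ((n : ℝ) + 2)) ^ 8) (1 / ((n : ℝ) + 2))) ∧
      Integrable (MM h a w0 w1 w2 Q β C5 η η₁ ((1 / ((n : ℝ) + 2)) ^ 8) (1 / ((n : ℝ) + 2))) ∧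
      ∫ x, MM h a w0 w1 w2 Q β C5 η η₁ ((1 / ((n : ℝ) + 2)) ^ 8) (1 / ((n : ℝ) + 2)) x ≤
        (∫ x, h x * (a x * w2 x)) + ((1 / ((n : ℝ) + 2)) ^ 8) ^ 2 *
          ((∫ x, h x * (w1 x ^ 2 * Q x)) / (1 - η) + δ n) := by
  classical
  -- the bad part
  let bad : ℕ → F → ℝ := fun n x =>
    if ((1 / ((n : ℝ) + 2)) ^ 8 : ℝ) ≤ a x ∧ β (1 / ((n : ℝ) + 2)) x ≤ η₁ * w0 x then 0
      else C5 * (h x * w0 x)
  have hsm : ∀ n : ℕ, MeasurableSet {x | ((1 / ((n : ℝ) + 2)) ^ 8 : ℝ) ≤ a x ∧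
      β (1 / ((n : ℝ) + 2)) x ≤ η₁ * w0 x} := fun n =>
    (measurableSet_le measurable_const H.am).inter
      (measurableSet_le (H.βm _) (measurable_const.mul H.w0m))
  have hbm : ∀ n, Measurable (bad n) := fun n =>
    Measurable.ite (hsm n) measurable_const (measurable_const.mul (H.hm.mul H.w0m))
  have hbb : ∀ n x, ‖bad n x‖ ≤ C5 * (h x * w0 x) := by
    intro n x
    have h2 : 0 ≤ C5 * (h x * w0 x) := mul_nonneg H.c5nn (mul_nonneg (H.h0 x) (H.w00 x))
    change ‖(if _ then _ else _ : ℝ)‖ ≤ _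
    split_ifs
    · rw [norm_zero]
      exact h2
    · rw [Real.norm_of_nonneg h2]
  have hbi : ∀ n, Integrable (bad n) := fun n =>
    Integrable.mono' (i0.const_mul C5) (hbm n).aestronglyMeasurable
      (Eventually.of_forall (hbb n))
  have hbt : Tendsto (fun n => ∫ x, bad n x) atTop (𝓝 0) := by
    have h2 : Tendsto (fun n => ∫ x, bad n x) atTop (𝓝 (∫ _ : F, (0 : ℝ))) := by
      apply tendsto_integral_of_dominated_convergence (fun x => C5 * (h x * w0 x))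
        (fun n => (hbm n).aestronglyMeasurable) (i0.const_mul C5)
        (fun n => Eventually.of_forall (hbb n))
      refine Eventually.of_forall fun x => ?_
      by_cases hx : h x * w0 x = 0
      · have h3 : ∀ n, bad n x = 0 := by
          intro n
          change (if _ then _ else _ : ℝ) = 0
          rw [hx, mul_zero]
          split_ifs <;> rfl
        simp only [h3]
        exact tendsto_const_nhds
      · have hh : 0 < h x := lt_of_le_of_ne (H.h0 x) (fun h3 => hx (by rw [← h3, zero_mul]))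
        have hw : 0 < w0 x := lt_of_le_of_ne (H.w00 x) (fun h3 => hx (by rw [← h3, mul_zero]))
        have ha := H.apos x hh
        have e1 : ∀ᶠ n : ℕ in atTop, ((1 / ((n : ℝ) + 2)) ^ 8 : ℝ) < a x :=
          (tc2_eps_t.mono_right nhdsWithin_le_nhds).eventually (gt_mem_nhds ha)
        have e2 : ∀ᶠ n : ℕ in atTop, β (1 / ((n : ℝ) + 2)) x < η₁ * w0 x :=
          ((H.βt x).comp tc2_rho_t).eventually (gt_mem_nhds (mul_pos h1 hw))
        refine tendsto_const_nhds.congr' ?_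
        filter_upwards [e1, e2] with n h3 h4
        exact (if_pos ⟨h3.le, h4.le⟩).symm
    rwa [integral_zero] at h2
  refine ⟨fun n => ∫ x, bad n x, hbt, fun n => ?_⟩
  have hMM : MM h a w0 w1 w2 Q β C5 η η₁ ((1 / ((n : ℝ) + 2)) ^ 8) (1 / ((n : ℝ) + 2)) =
      fun x => h x * (a x * w2 x) + ((1 / ((n : ℝ) + 2)) ^ 8) ^ 2 *
        ((h x * (w1 x ^ 2 * Q x)) / (1 - η) + bad n x) := by
    funext x
    have h3 : h x * (if ((1 / ((n : ℝ) + 2)) ^ 8 : ℝ) ≤ a x ∧
        β (1 / ((n : ℝ) + 2)) x ≤ η₁ * w0 x then 0 else C5 * w0 x) = bad n x := by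
      change _ = (if _ then _ else _ : ℝ)
      split_ifs
      · rw [mul_zero]
      · ring
    rw [← h3]
    unfold MM
    ring
  have j1 : Integrable fun x => (h x * (w1 x ^ 2 * Q x)) / (1 - η) := iQ.div_const _
  have j2 : Integrable fun x => ((1 / ((n : ℝ) + 2)) ^ 8) ^ 2 *
      ((h x * (w1 x ^ 2 * Q x)) / (1 - η) + bad n x) := (j1.add (hbi n)).const_mul _
  refine ⟨?_, ?_, ?_⟩
  · rw [hMM]
    exact (H.hm.mul (H.am.mul H.w2m)).add (measurable_const.mul
      (((H.hm.mul ((H.w1m.pow_const 2).mul H.Qm)).div_const _).add (hbm n)))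
  · rw [hMM]
    exact i2.add j2
  · rw [hMM, integral_add i2 j2, integral_const_mul, integral_add j1 (hbi n), integral_div]

/-- The outer step. Prekopa-Leindler (`h42.pl_mid`) for `R ε`, `R (-ε)` and `MM` (`MM ≥ 0` since
`MM ≥ NN x 0 = h a (w2 - D x 0) ≥ 0`), `ε = (1/(n+2))^8`:
`(∫ R ε)(∫ R (-ε)) ≤ (∫ MM)²`, and by `low` and `hmean` both integrals on the left are at least
`∫ h a w2 + ε² (∫ h g² w0 - ∫ E ε)`. Divide by `ε²`, `n → ∞`, then `η → 0`. (If the lower bound is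
negative, the claim for that `n` still follows: `b ≤ I`, `b ≤ J`, `I J ≤ M²`, `M ≥ 0`, `I, J ≥ 0`
imply `b ≤ M`.) -/
theorem out_core {h a w0 w1 w2 Q : F → ℝ} {D S : F → F → ℝ} {β : ℝ → F → ℝ} {c0 C5 wb K : ℝ}
    {f : F → ℝ} (H : OD h a w0 w1 w2 Q D S β c0 C5 wb K f) (c : ℝ)
    (i0 : Integrable fun x => h x * w0 x) (i2 : Integrable fun x => h x * (a x * w2 x))
    (i1 : Integrable fun x => h x * (√(a x) * w1 x))
    (iQ : Integrable fun x => h x * (w1 x ^ 2 * Q x)) {R E : ℝ → F → ℝ}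
    (Rm : ∀ ε, Measurable (R ε)) (Ri : ∀ ε, Integrable (R ε)) (R0 : ∀ ε x, 0 ≤ R ε x)
    (hprod : ∀ ε, 0 < ε → ∀ x u, R ε (x + u) * R (-ε) (x - u) ≤ NN h a w0 w1 w2 D f ε x u ^ 2)
    (low : ∀ ε x, h x * (a x * w2 x + 2 * ε * (f x - c) * √(a x) * w1 x +
      ε ^ 2 * (f x - c) ^ 2 * w0 x) - ε ^ 2 * E |ε| x ≤ R ε x)
    (Ei : ∀ ε, Integrable (E ε)) (Et : Tendsto (fun ε => ∫ x, E ε x) (𝓝[>] 0) (𝓝 0))
    (hmean : ∫ x, h x * ((f x - c) * √(a x) * w1 x) = 0) :
    ∫ x, h x * ((f x - c) ^ 2 * w0 x) ≤ ∫ x, h x * (w1 x ^ 2 * Q x) := by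
  -- boundedness and integrability
  obtain ⟨⟨Lf, hLf⟩, A, hA⟩ := H.sm.bl
  have fm : Measurable f := hLf.continuous.measurable
  have gm : Measurable fun x => f x - c := fm.sub_const c
  have gb : ∀ x, |f x - c| ≤ A + |c| := fun x => (abs_sub _ _).trans (add_le_add (hA x) le_rfl)
  have hA0 : 0 ≤ A + |c| := (abs_nonneg _).trans (gb 0)
  have k1 : Integrable fun x => h x * ((f x - c) * √(a x) * w1 x) := by
    have h2 : Integrable fun x => (f x - c) * (h x * (√(a x) * w1 x)) :=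
      i1.bdd_mul gm.aestronglyMeasurable (c := A + |c|)
        (Eventually.of_forall fun x => by rw [Real.norm_eq_abs]; exact gb x)
    refine h2.congr (Eventually.of_forall fun x => ?_)
    ring
  have k0 : Integrable fun x => h x * ((f x - c) ^ 2 * w0 x) := by
    have h2 : Integrable fun x => (f x - c) ^ 2 * (h x * w0 x) :=
      i0.bdd_mul (gm.pow_const 2).aestronglyMeasurable (c := (A + |c|) ^ 2)
        (Eventually.of_forall fun x => by
          rw [Real.norm_eq_abs, abs_pow]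
          exact pow_le_pow_left₀ (abs_nonneg _) (gb x) 2)
    refine h2.congr (Eventually.of_forall fun x => ?_)
    ring
  have lower : ∀ ε : ℝ, (∫ x, h x * (a x * w2 x)) + ε ^ 2 *
      ((∫ x, h x * ((f x - c) ^ 2 * w0 x)) - ∫ x, E |ε| x) ≤ ∫ x, R ε x := by
    intro ε
    have h3 : ∫ x, (h x * (a x * w2 x) + (2 * ε * (h x * ((f x - c) * √(a x) * w1 x)) +
        (ε ^ 2 * (h x * ((f x - c) ^ 2 * w0 x)) - ε ^ 2 * E |ε| x))) ≤ ∫ x, R ε x := by
      apply integral_mono _ (Ri ε)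
      · intro x
        refine le_trans (le_of_eq ?_) (low ε x)
        ring
      · exact i2.add ((k1.const_mul _).add ((k0.const_mul _).sub ((Ei |ε|).const_mul _)))
    have j1 : Integrable fun x => 2 * ε * (h x * ((f x - c) * √(a x) * w1 x)) := k1.const_mul _
    have j2 : Integrable fun x => ε ^ 2 * (h x * ((f x - c) ^ 2 * w0 x)) := k0.const_mul _
    have j3 : Integrable fun x => ε ^ 2 * E |ε| x := (Ei |ε|).const_mul _
    have j4 : Integrable fun x => ε ^ 2 * (h x * ((f x - c) ^ 2 * w0 x)) - ε ^ 2 * E |ε| x :=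
      j2.sub j3
    have j5 : Integrable fun x => 2 * ε * (h x * ((f x - c) * √(a x) * w1 x)) +
        (ε ^ 2 * (h x * ((f x - c) ^ 2 * w0 x)) - ε ^ 2 * E |ε| x) := j1.add j4
    rw [integral_add i2 j5, integral_add j1 j4, integral_sub j2 j3, integral_const_mul,
      integral_const_mul, integral_const_mul, hmean] at h3
    refine le_trans (le_of_eq ?_) h3
    ring
  have NN0 : ∀ ε : ℝ, 0 < ε → ∀ x u, 0 ≤ NN h a w0 w1 w2 D f ε x u := by
    intro ε hε x u
    unfold NN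
    have t1 : 0 ≤ a x * (w2 x - D x u) := mul_nonneg (H.a0 x) (sub_nonneg.mpr (H.Dw x u))
    have t2 : 0 ≤ 2 * (ε * |f (x + u) - f (x - u)| / 2) * √(a x) * w1 x := by
      have := H.w10 x
      positivity
    have t3 : 0 ≤ (ε * |f (x + u) - f (x - u)| / 2) ^ 2 * w0 x :=
      mul_nonneg (sq_nonneg _) (H.w00 x)
    exact mul_nonneg (H.h0 x) (by linarith)
  set J := ∫ x, h x * ((f x - c) ^ 2 * w0 x) with hJ
  set Kq := ∫ x, h x * (w1 x ^ 2 * Q x) with hKq
  -- the bound with `η`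
  have main : ∀ η : ℝ, 0 < η → η < 1 → J ≤ Kq / (1 - η) := by
    intro η hη hη1
    obtain ⟨η₁, ρ0, h1, hρ0, hle⟩ := nn_le_mm H hη hη1
    obtain ⟨δ, hδ, hMM⟩ := mm_int H i0 i2 iQ hη hη1 h1
    have hE := Et.comp tc2_eps_t
    have hev : ∀ᶠ n : ℕ in atTop, J - (∫ x, E ((1 / ((n : ℝ) + 2)) ^ 8) x) ≤
        Kq / (1 - η) + δ n := by
      have h2 : ∀ᶠ n : ℕ in atTop, (1 : ℝ) / ((n : ℝ) + 2) < ρ0 :=
        (tc2_rho_t.mono_right nhdsWithin_le_nhds).eventually (gt_mem_nhds hρ0)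
      filter_upwards [h2] with n hn
      obtain ⟨m1, m2, m3⟩ := hMM n
      have hρ := tc2_rho n
      set ρ : ℝ := 1 / ((n : ℝ) + 2) with hρd
      have hε : 0 < ρ ^ 8 := pow_pos hρ 8
      set ε : ℝ := ρ ^ 8 with hεd
      have hNM := hle ε ρ hε hρ hn le_rfl
      have hM0 : ∀ x, 0 ≤ MM h a w0 w1 w2 Q β C5 η η₁ ε ρ x := fun x =>
        (NN0 ε hε x 0).trans (hNM x 0)
      have hpl := pl_mid (R0 ε) (R0 (-ε)) hM0 (Rm ε) (Rm (-ε)) m1 (Ri ε) (Ri (-ε)) m2 (by
        intro x y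
        have e1 : (1 / 2 : ℝ) • (x + y) + (1 / 2 : ℝ) • (x - y) = x := by
          rw [← smul_add, add_add_sub_cancel, ← two_smul ℝ x, smul_smul]
          norm_num
        have e2 : (1 / 2 : ℝ) • (x + y) - (1 / 2 : ℝ) • (x - y) = y := by
          rw [← smul_sub, add_sub_sub_cancel, ← two_smul ℝ y, smul_smul]
          norm_num
        have h3 := hprod ε hε ((1 / 2 : ℝ) • (x + y)) ((1 / 2 : ℝ) • (x - y))
        rw [e1, e2] at h3
        exact h3.trans (pow_le_pow_left₀ (NN0 ε hε _ _) (hNM _ _) 2))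
      have l1 := lower ε
      have l2 := lower (-ε)
      rw [abs_of_pos hε] at l1
      rw [abs_neg, abs_of_pos hε, neg_sq] at l2
      set I := ∫ x, h x * (a x * w2 x) with hI
      set e := ∫ x, E ε x with he
      set M := ∫ x, MM h a w0 w1 w2 Q β C5 η η₁ ε ρ x with hM
      have hMnn : 0 ≤ M := integral_nonneg hM0
      have hb : I + ε ^ 2 * (J - e) ≤ M := by
        rcases lt_or_ge (I + ε ^ 2 * (J - e)) 0 with hneg | hpos
        · exact hneg.le.trans hMnn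
        · have h4 : (I + ε ^ 2 * (J - e)) * (I + ε ^ 2 * (J - e)) ≤
              (∫ x, R ε x) * (∫ x, R (-ε) x) :=
            mul_le_mul l1 l2 hpos (hpos.trans l1)
          have h5 : (I + ε ^ 2 * (J - e)) ^ 2 ≤ M ^ 2 := by
            rw [pow_two]
            exact h4.trans hpl
          exact (pow_le_pow_iff_left₀ hpos hMnn two_ne_zero).mp h5
      have h6 : ε ^ 2 * (J - e) ≤ ε ^ 2 * (Kq / (1 - η) + δ n) := by linarith
      exact le_of_mul_le_mul_left h6 (by positivity)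
    have hl : Tendsto (fun n : ℕ => J - (∫ x, E ((1 / ((n : ℝ) + 2)) ^ 8) x)) atTop
        (𝓝 (J - 0)) := hE.const_sub J
    have hr : Tendsto (fun n : ℕ => Kq / (1 - η) + δ n) atTop (𝓝 (Kq / (1 - η) + 0)) :=
      hδ.const_add _
    have h7 := le_of_tendsto_of_tendsto hl hr hev
    rwa [sub_zero, add_zero] at h7
  have hKq0 : 0 ≤ Kq := integral_nonneg fun x =>
    mul_nonneg (H.h0 x) (mul_nonneg (sq_nonneg _) (H.Q0 x))
  by_contra hcon
  rw [not_le] at hcon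
  have hJ0 : 0 < J := hKq0.trans_lt hcon
  have hη : 0 < (J - Kq) / (2 * J) := div_pos (by linarith) (by linarith)
  have hη1 : (J - Kq) / (2 * J) < 1 := by
    rw [div_lt_one (by linarith)]
    linarith
  have h8 := main _ hη hη1
  rw [le_div_iff₀ (by linarith)] at h8
  have h9 : J * (1 - (J - Kq) / (2 * J)) = (J + Kq) / 2 := by
    field_simp
    ring
  rw [h9] at h8
  linarith

end Pool.Agent.Lib.MP_8d00da_gt.h42t
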