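import Mathlib
import Pool.Agent.Lib.MP_8d00da_gt.h42t.TC2
import Pool.Agent.Lib.MP_8d00da_gt.h42t.TB3
import Pool.Agent.Lib.MP_8d00da_gt.h42t.TB5
import Pool.Agent.Lib.MP_8d00da_gt.h42t.TB2

namespace Pool.Agent.Lib.MP_8d00da_gt.h42r
end Pool.Agent.Lib.MP_8d00da_gt.h42r


/-!
# The fibre inequality
-/

namespace Pool.Agent.Lib.MP_8d00da_gt.h42t

open MeasureTheory Set Filter
open Pool.Agent.Lib.MP_8d00da_gt.h25 Pool.Agent.Lib.MP_8d00da_gt.h42
open Pool.Agent.Lib.MP_8d00da_gt.h42s Pool.Agent.Lib.MP_8d00da_gt.h42o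
open Pool.Agent.Lib.MP_8d00da_gt.h97r Pool.Agent.Lib.MP_8d00da_gt.h42r
open scoped Topology NNReal ENNReal

set_option linter.unusedSectionVars false

variable {F : Type*} [NormedAddCommGroup F] [InnerProductSpace ℝ F]
    [FiniteDimensional ℝ F] [MeasurableSpace F] [BorelSpace F]

variable {G : Type*} [NormedAddCommGroup G] [InnerProductSpace ℝ G]
    [FiniteDimensional ℝ G] [MeasurableSpace G] [BorelSpace G]

variable {ι : Type*} [Fintype ι]

variable {q : ℕ}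

/-- `out_core` with `a = A`, `w_i x = P_i (z - x)`, `D x u = DD (z - x) u`,
`S x u = ∑ oh (z - x) ‖P u‖²`, `β ρ x = bt ρ (z - x)`, `R ε x = RR .. c ε z x` (`rr_prod`,
`rr_int2`), `E = EE` with `B = sup |f| + |c|` (`rr_low`, `ee_tend`), `c0 = κ/(q+2)`,
`wb = √Ab`, `K = max (Lip f) (sup |f|)`, `C5 = K² (2 (q+2) Ab/κ + 3)` (`dd_crude`; `Ab ≥ 0`
because `0 ≤ A 0 ≤ Ab`). -/
theorem fib {h A : F → ℝ} {P : ι → F →L[ℝ] G} {ω : ι → F → ℝ} {κ r Hb Ab : ℝ}
    (H : PD (q + 1) h A P ω κ r Hb Ab) {f : F → ℝ} (hf : Sm f) (z : F) (c : ℝ) {Q : F → ℝ}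
    (hQm : Measurable Q) (hQ0 : ∀ x, 0 ≤ Q x)
    (hQS : ∀ x, 0 < h x → 0 < P0 (q + 1) h (z - x) → ∀ u,
      (fderiv ℝ f x u) ^ 2 ≤ Q x * ∑ j, oh (q + 1) h (ω j) (z - x) * ‖P j u‖ ^ 2)
    (hQi : Integrable fun x => h x * (P1 (q + 1) h A (z - x) ^ 2 * Q x))
    (hmean : ∫ x, h x * ((f x - c) * √(A x) * P1 (q + 1) h A (z - x)) = 0) :
    ∫ x, h x * ((f x - c) ^ 2 * P0 (q + 1) h (z - x)) ≤
      ∫ x, h x * (P1 (q + 1) h A (z - x) ^ 2 * Q x) := by
  obtain ⟨⟨Lf, hLf⟩, M, hM⟩ := hf.bl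
  have hM0 : 0 ≤ M := (abs_nonneg _).trans (hM 0)
  have hAb0 : 0 ≤ Ab := (H.A0 0).trans (H.Ab 0)
  obtain ⟨K, hK⟩ : ∃ K : ℝ, K = max (Lf : ℝ) M := ⟨_, rfl⟩
  have hKL : (Lf : ℝ) ≤ K := hK ▸ le_max_left _ _
  have hKM : M ≤ K := hK ▸ le_max_right _ _
  have hK0 : 0 ≤ K := hM0.trans hKM
  have hκ := H.κpos
  have hzm : Measurable fun x : F => z - x := measurable_const.sub measurable_id
  have hB : ∀ x, |f x - c| ≤ M + |c| := fun x =>
    (abs_sub _ _).trans (add_le_add (hM x) le_rfl)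
  have hB0 : 0 ≤ M + |c| := add_nonneg hM0 (abs_nonneg _)
  have hP0b : ∀ y, P0 (q + 1) h y ≤ Hb * (∫ x, h x) ^ (q + 1) := P0_le H.meas H.h0 H.hb H.hi
  have hP0n : ∀ y, 0 ≤ P0 (q + 1) h y := P0_nonneg H.h0
  have hP1n : ∀ y, 0 ≤ P1 (q + 1) h A y := P1_nonneg H.h0
  have hP2n : ∀ y, 0 ≤ P2 (q + 1) h A y := P2_nonneg H.h0 H.A0
  have hP1b : ∀ y, P1 (q + 1) h A y ≤ √Ab * P0 (q + 1) h y :=
    P1_le H.meas H.h0 H.hb H.hi H.Am H.A0 H.Ab
  have hP2b : ∀ y, P2 (q + 1) h A y ≤ Ab * P0 (q + 1) h y :=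
    P2_le H.meas H.h0 H.hb H.hi H.Am H.A0 H.Ab
  have m0 : Measurable fun x => P0 (q + 1) h (z - x) := (P0_meas H.meas).comp hzm
  have m1 : Measurable fun x => P1 (q + 1) h A (z - x) := (P1_meas H.meas H.Am).comp hzm
  have m2 : Measurable fun x => P2 (q + 1) h A (z - x) := (P2_meas H.meas H.Am).comp hzm
  obtain ⟨N, hN⟩ : ∃ N : ℝ, N = Hb * (∫ x, h x) ^ (q + 1) := ⟨_, rfl⟩
  rw [← hN] at hP0b
  have hN0 : 0 ≤ N := (hP0n 0).trans (hP0b 0)
  have bdd : ∀ (g : F → ℝ) (C : ℝ), Measurable g → (∀ x, |g x| ≤ C) →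
      Integrable fun x => h x * g x := by
    intro g C hg hgC
    refine (H.hi.norm.const_mul C).mono' (H.meas.mul hg).aestronglyMeasurable ?_
    filter_upwards with x
    rw [norm_mul, Real.norm_eq_abs (g x), mul_comm]
    exact mul_le_mul_of_nonneg_right (hgC x) (norm_nonneg _)
  have i0 : Integrable fun x => h x * P0 (q + 1) h (z - x) :=
    bdd _ N m0 fun x => by rw [abs_of_nonneg (hP0n _)]; exact hP0b _
  have i2 : Integrable fun x => h x * (A x * P2 (q + 1) h A (z - x)) :=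
    bdd _ (Ab * (Ab * N)) (H.Am.mul m2) fun x => by
      rw [abs_of_nonneg (mul_nonneg (H.A0 x) (hP2n _))]
      exact mul_le_mul (H.Ab x) ((hP2b _).trans (mul_le_mul_of_nonneg_left (hP0b _) hAb0))
        (hP2n _) hAb0
  have i1 : Integrable fun x => h x * (√(A x) * P1 (q + 1) h A (z - x)) :=
    bdd _ (√Ab * (√Ab * N)) (H.Am.sqrt.mul m1) fun x => by
      rw [abs_of_nonneg (mul_nonneg (Real.sqrt_nonneg _) (hP1n _))]
      exact mul_le_mul (Real.sqrt_le_sqrt (H.Ab x))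
        ((hP1b _).trans (mul_le_mul_of_nonneg_left (hP0b _) (Real.sqrt_nonneg _)))
        (hP1n _) (Real.sqrt_nonneg _)
  have hOD : OD h A (fun x => P0 (q + 1) h (z - x)) (fun x => P1 (q + 1) h A (z - x))
      (fun x => P2 (q + 1) h A (z - x)) Q (fun x u => DD (q + 1) h A P ω κ r (z - x) u)
      (fun x u => ∑ j, oh (q + 1) h (ω j) (z - x) * ‖P j u‖ ^ 2)
      (fun ρ x => bt (q + 1) h A P ω κ r ρ (z - x)) (κ / (((q + 1 : ℕ) : ℝ) + 1))
      (K ^ 2 * (2 * (((q + 1 : ℕ) : ℝ) + 1) * Ab / κ + 3)) (√Ab) K f :=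
    { c0pos := by positivity
      c5nn := by positivity
      wbnn := Real.sqrt_nonneg _
      Knn := hK0
      h0 := H.h0
      a0 := H.A0
      w00 := fun x => hP0n _
      w10 := fun x => hP1n _
      w1b := fun x => hP1b _
      Q0 := hQ0
      S0 := fun x u => Finset.sum_nonneg fun j _ =>
        mul_nonneg (oh_nonneg H.h0 (H.ω0 j) _) (by positivity)
      hm := H.meas
      am := H.Am
      w0m := m0
      w1m := m1
      w2m := m2
      Qm := hQm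
      βm := fun ρ => (bt_meas H.meas H.Am H.ωm κ r ρ).comp hzm
      apos := H.Apos
      sm := hf
      QS := hQS
      D1 := fun ρ x u hρ hu => dd_low1 H hρ hu _
      D2 := fun ρ x u hρ hu => dd_low2 H hρ hu _
      D3 := fun ρ x u hρ hu => dd_low3 H hρ hu _
      Dw := fun x u => (dd_le H _ u).2
      βt := fun x => bt_tend H _
      fK := by
        intro x u
        have e1 : |f (x + u) - f (x - u)| ≤ Lf * (2 * ‖u‖) := by
          have h1 := hLf.dist_le_mul (x + u) (x - u)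
          rw [Real.dist_eq, dist_eq_norm] at h1
          have e : x + u - (x - u) = (2 : ℝ) • u := by module
          rw [e, norm_smul] at h1
          simpa using h1
        have e2 : |f (x + u) - f (x - u)| ≤ M + M :=
          (abs_sub _ _).trans (add_le_add (hM _) (hM _))
        rcases le_total ‖u‖ 1 with hu | hu
        · rw [min_eq_left hu]
          have := mul_le_mul_of_nonneg_right hKL (norm_nonneg u)
          linarith
        · rw [min_eq_right hu]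
          linarith
      crude := fun ε x u e hε he heK => dd_crude H hK0 hε he heK (H.A0 x) _ }
  have hRR := fun ε : ℝ => rr_int2 (q := q + 1) H.meas H.h0 H.hb H.hi H.Am H.A0 H.Ab hf.bl c ε z
  obtain ⟨-, -, eI, eT⟩ := ee_tend (q := q + 1) H.meas H.h0 H.hb H.hi H.Am H.A0 H.Ab H.Apos hB0 z
  exact out_core hOD c i0 i2 i1 hQi (fun ε => (hRR ε).1) (fun ε => (hRR ε).2.1)
    (fun ε => (hRR ε).2.2) (fun ε hε x u => rr_prod H hf.bl c hε z x u)
    (fun ε x => rr_low H.meas H.h0 H.hb H.hi H.Am H.A0 H.Ab hB ε z x) eI eT hmean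

end Pool.Agent.Lib.MP_8d00da_gt.h42t
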