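import Mathlib
import Pool.Agent.Lib.MP_8d00da_gt.h42t.TA2

namespace Pool.Agent.Lib.MP_8d00da_gt.h42r
end Pool.Agent.Lib.MP_8d00da_gt.h42r


/-!
# Integration over the sum
-/

namespace Pool.Agent.Lib.MP_8d00da_gt.h42t

open MeasureTheory Set Filter
open Pool.Agent.Lib.MP_8d00da_gt.h25 Pool.Agent.Lib.MP_8d00da_gt.h42
open Pool.Agent.Lib.MP_8d00da_gt.h42s Pool.Agent.Lib.MP_8d00da_gt.h42o
open Pool.Agent.Lib.MP_8d00da_gt.h97r Pool.Agent.Lib.MP_8d00da_gt.h42r
open scoped Topology NNReal ENNReal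

set_option linter.unusedSectionVars false

variable {F : Type*} [NormedAddCommGroup F] [InnerProductSpace ℝ F]
    [FiniteDimensional ℝ F] [MeasurableSpace F] [BorelSpace F]

variable {G : Type*} [NormedAddCommGroup G] [InnerProductSpace ℝ G]
    [FiniteDimensional ℝ G] [MeasurableSpace G] [BorelSpace G]

variable {ι : Type*} [Fintype ι]

variable {q : ℕ}

/-- For fixed `s` translate `y` by `∑ s`; Tonelli. -/
theorem shift_lint {Φ : F → (Fin q → F) → ℝ≥0∞} (hΦ : Measurable (Function.uncurry Φ)) :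
    ∫⁻ y, ∫⁻ s : Fin q → F, Φ (y - ∑ i, s i) s = ∫⁻ x, ∫⁻ s : Fin q → F, Φ x s := by
  have hd : Measurable fun p : F × (Fin q → F) => (p.1 - ∑ i, p.2 i, p.2) := by
    have h1 : Continuous fun p : F × (Fin q → F) => (p.1 - ∑ i, p.2 i, p.2) := by fun_prop
    exact h1.measurable
  have h2 : Measurable (Function.uncurry fun (y : F) (s : Fin q → F) => Φ (y - ∑ i, s i) s) :=
    hΦ.comp hd
  rw [lintegral_lintegral_swap h2.aemeasurable, lintegral_lintegral_swap hΦ.aemeasurable]
  refine lintegral_congr fun s => ?_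
  exact lintegral_sub_right_eq_self (fun y => Φ y s) (∑ i, s i)

private theorem TA4_pow {ψ : F → ℝ≥0∞} (hψ : Measurable ψ) (q : ℕ) :
    ∫⁻ s : Fin q → F, ∏ i, ψ (s i) = (∫⁻ x, ψ x) ^ q := by
  induction q with
  | zero =>
    rw [Measure.volume_pi_eq_dirac]
    simp
  | succ n ih =>
    have hm : Measurable fun s : Fin n → F => ∏ i, ψ (s i) :=
      Finset.measurable_prod _ fun i _ => hψ.comp (measurable_pi_apply i)
    have h1 := (volume_preserving_piFinSuccAbove (fun _ : Fin (n + 1) => F) 0).symm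
    rw [← h1.lintegral_comp_emb (MeasurableEquiv.measurableEmbedding _)]
    have h2 : ∀ p : F × (Fin n → F),
        ∏ i, ψ ((MeasurableEquiv.piFinSuccAbove (fun _ : Fin (n + 1) => F) 0).symm p i)
          = ψ p.1 * ∏ i, ψ (p.2 i) := by
      intro p
      rw [Fin.prod_univ_succ]
      rfl
    simp only [h2]
    rw [Measure.volume_eq_prod, lintegral_prod_mul hψ.aemeasurable hm.aemeasurable, ih, pow_succ']

/-- `∫_y ∫_s φ(y - ∑ s) ∏ ψ (s i) = (∫ φ) (∫ ψ)^q` for nonnegative measurable functions. -/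
theorem prod_lint {φ ψ : F → ℝ} (hφ : Measurable φ) (hψ : Measurable ψ) (φ0 : ∀ x, 0 ≤ φ x)
    (ψ0 : ∀ x, 0 ≤ ψ x) :
    ∫⁻ y, ∫⁻ s : Fin q → F, ENNReal.ofReal (φ (y - ∑ i, s i) * ∏ i, ψ (s i)) =
      (∫⁻ x, ENNReal.ofReal (φ x)) * (∫⁻ x, ENNReal.ofReal (ψ x)) ^ q := by
  have hψ' : Measurable fun x => ENNReal.ofReal (ψ x) := hψ.ennreal_ofReal
  have hm : Measurable fun s : Fin q → F => ∏ i, ENNReal.ofReal (ψ (s i)) :=
    Finset.measurable_prod _ fun i _ => hψ'.comp (measurable_pi_apply i)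
  have h1 : ∀ (x : F) (s : Fin q → F), ENNReal.ofReal (φ x * ∏ i, ψ (s i))
      = ENNReal.ofReal (φ x) * ∏ i, ENNReal.ofReal (ψ (s i)) := by
    intro x s
    rw [ENNReal.ofReal_mul (φ0 x), ENNReal.ofReal_prod_of_nonneg fun i _ => ψ0 _]
  simp only [h1]
  have hΦ : Measurable (Function.uncurry fun (x : F) (s : Fin q → F) =>
      ENNReal.ofReal (φ x) * ∏ i, ENNReal.ofReal (ψ (s i))) :=
    (hφ.ennreal_ofReal.comp measurable_fst).mul (hm.comp measurable_snd)
  rw [shift_lint (q := q) (Φ := fun (x : F) (s : Fin q → F) =>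
      ENNReal.ofReal (φ x) * ∏ i, ENNReal.ofReal (ψ (s i))) hΦ]
  have h3 : ∀ x : F, ∫⁻ s : Fin q → F, ENNReal.ofReal (φ x) * ∏ i, ENNReal.ofReal (ψ (s i))
      = ENNReal.ofReal (φ x) * (∫⁻ x, ENNReal.ofReal (ψ x)) ^ q := by
    intro x
    rw [lintegral_const_mul _ hm, TA4_pow hψ' q]
  simp only [h3]
  rw [lintegral_mul_const _ hφ.ennreal_ofReal]

/-- `∫ P0 = (∫ h)^(q+1)`. -/
theorem P0_int {h : F → ℝ} (hh : Measurable h) (h0 : ∀ x, 0 ≤ h x) {Hb : ℝ}
    (hb : ∀ x, h x ≤ Hb) (hi : Integrable h) :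
    Integrable (P0 q h) ∧ ∫ y, P0 q h y = (∫ x, h x) ^ (q + 1) := by
  have hP0 : ∀ y, 0 ≤ P0 q h y := fun y => integral_nonneg fun s => hm_nonneg h0 y s
  have hPm : Measurable (P0 q h) :=
    ((hm_meas (q := q) hh).stronglyMeasurable.integral_prod_right').measurable
  have h1 : ∀ y, ENNReal.ofReal (P0 q h y)
      = ∫⁻ s : Fin q → F, ENNReal.ofReal (h (y - ∑ i, s i) * ∏ i, h (s i)) := by
    intro y
    exact ofReal_integral_eq_lintegral_ofReal (hm_int hh h0 hb hi y)
      (Eventually.of_forall fun s => hm_nonneg h0 y s)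
  have h2 : ∫⁻ y, ENNReal.ofReal (P0 q h y) = (∫⁻ x, ENNReal.ofReal (h x)) ^ (q + 1) := by
    simp only [h1]
    rw [prod_lint hh hh h0 h0, pow_succ']
  have h3 : ∫⁻ x, ENNReal.ofReal (h x) = ENNReal.ofReal (∫ x, h x) :=
    (ofReal_integral_eq_lintegral_ofReal hi (Eventually.of_forall h0)).symm
  have h4 : 0 ≤ ∫ x, h x := integral_nonneg h0
  have h5 : ∫⁻ y, ENNReal.ofReal (P0 q h y) = ENNReal.ofReal ((∫ x, h x) ^ (q + 1)) := by
    rw [h2, h3, ENNReal.ofReal_pow h4]
  have h6 : Integrable (P0 q h) := by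
    refine ⟨hPm.aestronglyMeasurable, ?_⟩
    rw [hasFiniteIntegral_iff_ofReal (Eventually.of_forall hP0), h5]
    exact ENNReal.ofReal_lt_top
  refine ⟨h6, ?_⟩
  rw [integral_eq_lintegral_of_nonneg_ae (Eventually.of_forall hP0) hPm.aestronglyMeasurable, h5,
    ENNReal.toReal_ofReal (by positivity)]

/-- Exchange of one of the points `s i` with `y - ∑ s`: the map `s ↦ s` with `s i` replaced by
`y - ∑ s` is an involution preserving the measure (for fixed other coordinates it is
`t ↦ const - t`: `MeasurableEquiv.piFinSuccAbove _ i`, `Measure.prod`, reflection and translation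
invariance of `volume` on `F`). -/
theorem swap_mp (y : F) (i : Fin q) :
    MeasurePreserving (fun s : Fin q → F => Function.update s i (y - ∑ k, s k)) volume volume := by
  obtain ⟨n, rfl⟩ : ∃ n, q = n + 1 := ⟨q - 1, by have := i.pos; omega⟩
  have he := volume_preserving_piFinSuccAbove (fun _ : Fin (n + 1) => F) i
  have hsk : MeasurePreserving
      (fun p : (Fin n → F) × F => (p.1, y - ∑ k, p.1 k - p.2)) volume volume := by
    rw [Measure.volume_eq_prod]
    refine MeasurePreserving.skew_product (MeasurePreserving.id (volume : Measure (Fin n → F)))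
      (g := fun (a : Fin n → F) (t : F) => y - ∑ k, a k - t) ?_ ?_
    · have h1 : Continuous (Function.uncurry fun (a : Fin n → F) (t : F) => y - ∑ k, a k - t) := by
        unfold Function.uncurry
        fun_prop
      exact h1.measurable
    · exact Eventually.of_forall fun a => (Measure.measurePreserving_sub_left volume _).map_eq
  have hsw1 : MeasurePreserving (Prod.swap : F × (Fin n → F) → (Fin n → F) × F)
      volume volume := by
    rw [Measure.volume_eq_prod, Measure.volume_eq_prod]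
    exact Measure.measurePreserving_swap
  have hsw2 : MeasurePreserving (Prod.swap : (Fin n → F) × F → F × (Fin n → F))
      volume volume := by
    rw [Measure.volume_eq_prod, Measure.volume_eq_prod]
    exact Measure.measurePreserving_swap
  have hcomp := he.symm.comp (hsw2.comp (hsk.comp (hsw1.comp he)))
  have hfun : (fun s : Fin (n + 1) → F => Function.update s i (y - ∑ k, s k))
      = (MeasurableEquiv.piFinSuccAbove (fun _ : Fin (n + 1) => F) i).symm ∘ (Prod.swap ∘
        ((fun p : (Fin n → F) × F => (p.1, y - ∑ k, p.1 k - p.2)) ∘ (Prod.swap ∘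
          (MeasurableEquiv.piFinSuccAbove (fun _ : Fin (n + 1) => F) i)))) := by
    funext s
    have h1 : ∑ k, s k = s i + ∑ k, i.removeNth s k := Fin.sum_univ_succAbove s i
    have h2 : y - ∑ k, s k = y - ∑ k, i.removeNth s k - s i := by
      rw [h1]
      abel
    show Function.update s i (y - ∑ k, s k)
      = i.insertNth (y - ∑ k, i.removeNth s k - s i) (i.removeNth s)
    rw [Fin.insertNth_removeNth, h2]
  rw [hfun]
  exact hcomp

/-- `y - ∑ (update s i (y - ∑ s)) = s i`. -/
theorem swap_sum (y : F) (i : Fin q) (s : Fin q → F) :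
    y - ∑ k, Function.update s i (y - ∑ l, s l) k = s i := by
  have h1 : ∑ k, Function.update s i (y - ∑ l, s l) k
      = (y - ∑ l, s l) + ∑ k ∈ Finset.univ \ {i}, s k :=
    Finset.sum_update_of_mem (Finset.mem_univ i) s _
  have h2 : ∑ l, s l = s i + ∑ k ∈ Finset.univ \ {i}, s k := by
    rw [← Finset.erase_eq]
    exact (Finset.add_sum_erase _ s (Finset.mem_univ i)).symm
  rw [h1, h2]
  abel

/-- The weight is invariant under the exchange. -/
theorem hm_swap (h : F → ℝ) (y : F) (i : Fin q) (s : Fin q → F) :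
    hm h y (Function.update s i (y - ∑ k, s k)) = hm h y s := by
  unfold hm
  rw [swap_sum]
  have h1 : ∏ k, h (Function.update s i (y - ∑ l, s l) k)
      = h (y - ∑ l, s l) * ∏ k ∈ Finset.univ \ {i}, h (s k) := by
    have h3 : (fun k => h (Function.update s i (y - ∑ l, s l) k))
        = Function.update (fun k => h (s k)) i (h (y - ∑ l, s l)) := by
      funext k
      by_cases hk : k = i
      · subst hk
        simp
      · simp [hk]
    rw [h3]
    exact Finset.prod_update_of_mem (Finset.mem_univ i) (fun k => h (s k)) _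
  have h2 : ∏ k, h (s k) = h (s i) * ∏ k ∈ Finset.univ \ {i}, h (s k) := by
    rw [← Finset.erase_eq]
    exact (Finset.mul_prod_erase _ (fun k => h (s k)) (Finset.mem_univ i)).symm
  rw [h1, h2]
  ring

end Pool.Agent.Lib.MP_8d00da_gt.h42t
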