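import Mathlib
import Pool.Agent.Lib.MP_8d00da_gt.h42t.TA3
import Pool.Agent.Lib.MP_8d00da_gt.h42t.TA4

namespace Pool.Agent.Lib.MP_8d00da_gt.h42r
end Pool.Agent.Lib.MP_8d00da_gt.h42r


/-!
# The global inequality
-/

namespace Pool.Agent.Lib.MP_8d00da_gt.h42t

open MeasureTheory Set Filter
open Pool.Agent.Lib.MP_8d00da_gt.h25 Pool.Agent.Lib.MP_8d00da_gt.h42
open Pool.Agent.Lib.MP_8d00da_gt.h42s Pool.Agent.Lib.MP_8d00da_gt.h42o
open Pool.Agent.Lib.MP_8d00da_gt.h97r Pool.Agent.Lib.MP_8d00da_gt.h42r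
open scoped Topology NNReal ENNReal

set_option linter.unusedSectionVars false

variable {F : Type*} [NormedAddCommGroup F] [InnerProductSpace ℝ F]
    [FiniteDimensional ℝ F] [MeasurableSpace F] [BorelSpace F]

variable {G : Type*} [NormedAddCommGroup G] [InnerProductSpace ℝ G]
    [FiniteDimensional ℝ G] [MeasurableSpace G] [BorelSpace G]

variable {ι : Type*} [Fintype ι]

variable {q : ℕ}

private lemma sl_K_meas {h f c : F → ℝ} (hh : Measurable h) (hf : Measurable f)
    (hc : Measurable c) : Measurable fun p : (F × F) × (Fin (q + 1) → F) =>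
      ENNReal.ofReal (h p.1.1 * ((f p.1.1 - c (p.1.2 + ∑ i, p.2 i + p.1.1)) ^ 2 *
        (h p.1.2 * ∏ i, h (p.2 i)))) := by
  have hs : Measurable fun p : (F × F) × (Fin (q + 1) → F) => ∑ i, p.2 i :=
    Finset.measurable_sum _ fun i _ => (measurable_pi_apply i).comp measurable_snd
  have hp : Measurable fun p : (F × F) × (Fin (q + 1) → F) => ∏ i, h (p.2 i) :=
    Finset.measurable_prod _ fun i _ => hh.comp ((measurable_pi_apply i).comp measurable_snd)
  have h1 : Measurable fun p : (F × F) × (Fin (q + 1) → F) => p.1.1 :=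
    measurable_fst.comp measurable_fst
  have h2 : Measurable fun p : (F × F) × (Fin (q + 1) → F) => p.1.2 :=
    measurable_snd.comp measurable_fst
  exact ENNReal.measurable_ofReal.comp ((hh.comp h1).mul
    ((((hf.comp h1).sub (hc.comp ((h2.add hs).add h1))).pow_const 2).mul ((hh.comp h2).mul hp)))

/-- Symmetrisation. For a measurable bounded function `c : F → ℝ` and bounded `f`
`∫_z ∫_x h x (f x - c z)² P0 (z - x) ≥ ½ (∫ h)^(q+1) (∫ f² h ∫ h - (∫ f h)²)`
(inner dimension `q+1`). Proof with `y_0 = z - x - ∑ s`: for fixed `z, s` the substitution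
`x ↦ z - ∑ s - x` exchanges `x` and `y_0` and preserves
`h x h y_0 ∏ h (s i)`, so the left side is
`½ ∫_z ∫_x ∫_s h x h y_0 ∏ h (s i) ((f x - c z)² + (f y_0 - c z)²)
 ≥ ¼ ∫_z ∫_x ∫_s h x h y_0 ∏ h (s i) (f x - f y_0)²`, and for fixed `x, s` translate `z`
(`y_0` becomes the variable): the last integral is
`(∫ h)^(q+1) ∫∫ h x h y (f x - f y)² = 2 (∫ h)^(q+1) (∫ f² h ∫ h - (∫ f h)²)`. -/
theorem sym_low {h : F → ℝ} (hh : Measurable h) (h0 : ∀ x, 0 ≤ h x) {Hb : ℝ}
    (hb : ∀ x, h x ≤ Hb) (hi : Integrable h) {f : F → ℝ} (hf : BL f) {c : F → ℝ}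
    (hc : Measurable c) {B : ℝ} (hcB : ∀ z, |c z| ≤ B) :
    (Integrable fun z => ∫ x, h x * ((f x - c z) ^ 2 * P0 (q + 1) h (z - x))) ∧
    1 / 2 * (∫ x, h x) ^ (q + 1) *
      ((∫ x, f x ^ 2 * h x) * (∫ x, h x) - (∫ x, f x * h x) ^ 2) ≤
      ∫ z, ∫ x, h x * ((f x - c z) ^ 2 * P0 (q + 1) h (z - x)) := by
  obtain ⟨⟨Lf, hLf⟩, M, hM⟩ := hf
  have hfm : Measurable f := hLf.continuous.measurable
  have hM0 : 0 ≤ M := (abs_nonneg _).trans (hM 0)
  have hB0 : 0 ≤ B := (abs_nonneg _).trans (hcB 0)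
  have hP0m : Measurable (P0 (q + 1) h) := P0_meas hh
  have hP0n : ∀ y, 0 ≤ P0 (q + 1) h y := P0_nonneg h0
  have hP0b : ∀ y, P0 (q + 1) h y ≤ Hb * (∫ x, h x) ^ (q + 1) := P0_le hh h0 hb hi
  obtain ⟨hP0i, -⟩ := P0_int (q := q + 1) hh h0 hb hi
  have hmp : MeasurePreserving (fun z : F × F => (z.2, -z.2 + z.1)) (volume.prod volume)
      (volume.prod volume) := measurePreserving_prod_neg_add_swap volume volume
  have hsub : ∀ z x : F, -x + z = z - x := fun z x => by abel
  have hsq : ∀ z x, (f x - c z) ^ 2 ≤ (M + B) ^ 2 := fun z x =>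
    sq_le_sq' (by linarith [abs_le.mp (hM x), abs_le.mp (hcB z)])
      (by linarith [abs_le.mp (hM x), abs_le.mp (hcB z)])
  -- integrability on the product
  have hΦ : Integrable (fun p : F × F => h p.1 * P0 (q + 1) h p.2) (volume.prod volume) :=
    hi.mul_prod hP0i
  have hΨ := (hmp.integrable_comp hΦ.aestronglyMeasurable).2 hΦ
  have hI : Integrable (fun p : F × F =>
      h p.2 * ((f p.2 - c p.1) ^ 2 * P0 (q + 1) h (p.1 - p.2))) (volume.prod volume) := by
    refine (hΨ.norm.const_mul ((M + B) ^ 2)).mono' ?_ ?_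
    · exact ((hh.comp measurable_snd).mul ((((hfm.comp measurable_snd).sub
        (hc.comp measurable_fst)).pow_const 2).mul
          (hP0m.comp (measurable_fst.sub measurable_snd)))).aestronglyMeasurable
    · filter_upwards with p
      have e : h p.2 * ((f p.2 - c p.1) ^ 2 * P0 (q + 1) h (p.1 - p.2)) =
          (f p.2 - c p.1) ^ 2 * (h p.2 * P0 (q + 1) h (p.1 - p.2)) := by ring
      rw [e, norm_mul, Real.norm_eq_abs, abs_of_nonneg (sq_nonneg _)]
      simp only [Function.comp, hsub]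
      exact mul_le_mul_of_nonneg_right (hsq _ _) (norm_nonneg _)
  have hz : ∀ z, Integrable fun x => h x * ((f x - c z) ^ 2 * P0 (q + 1) h (z - x)) := by
    intro z
    refine (hi.norm.const_mul ((M + B) ^ 2 * (Hb * (∫ x, h x) ^ (q + 1)))).mono' ?_ ?_
    · exact (hh.mul (((hfm.sub measurable_const).pow_const 2).mul
        (hP0m.comp (measurable_const.sub measurable_id)))).aestronglyMeasurable
    · filter_upwards with x
      rw [norm_mul, mul_comm, norm_mul, Real.norm_eq_abs, Real.norm_eq_abs,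
        abs_of_nonneg (sq_nonneg _), abs_of_nonneg (hP0n _)]
      exact mul_le_mul_of_nonneg_right (mul_le_mul (hsq _ _) (hP0b _) (hP0n _) (sq_nonneg _))
        (norm_nonneg _)
  refine ⟨hI.integral_prod_left, ?_⟩
  have hn : ∀ z x, 0 ≤ h x * ((f x - c z) ^ 2 * P0 (q + 1) h (z - x)) := fun z x =>
    mul_nonneg (h0 x) (mul_nonneg (sq_nonneg _) (hP0n _))
  -- the left side as an iterated lintegral
  have hJ : ENNReal.ofReal (∫ z, ∫ x, h x * ((f x - c z) ^ 2 * P0 (q + 1) h (z - x))) =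
      ∫⁻ x, ∫⁻ y, ∫⁻ s : Fin (q + 1) → F, ENNReal.ofReal (h x *
        ((f x - c (y + ∑ i, s i + x)) ^ 2 * (h y * ∏ i, h (s i)))) := by
    rw [ofReal_integral_eq_lintegral_ofReal hI.integral_prod_left
      (Eventually.of_forall fun z => integral_nonneg (hn z))]
    have e1 : ∀ z, ENNReal.ofReal (∫ x, h x * ((f x - c z) ^ 2 * P0 (q + 1) h (z - x))) =
        ∫⁻ x, ∫⁻ s : Fin (q + 1) → F, ENNReal.ofReal (h x *
          ((f x - c z) ^ 2 * hm h (z - x) s)) := by
      intro z
      rw [ofReal_integral_eq_lintegral_ofReal (hz z) (Eventually.of_forall (hn z))]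
      refine lintegral_congr fun x => ?_
      have e2 : h x * ((f x - c z) ^ 2 * P0 (q + 1) h (z - x)) =
          ∫ s : Fin (q + 1) → F, h x * ((f x - c z) ^ 2 * hm h (z - x) s) := by
        rw [integral_const_mul, integral_const_mul, P0]
      rw [e2, ofReal_integral_eq_lintegral_ofReal
        (((hm_int hh h0 hb hi (z - x)).const_mul _).const_mul _)
        (Eventually.of_forall fun s =>
          mul_nonneg (h0 x) (mul_nonneg (sq_nonneg _) (hm_nonneg h0 _ _)))]
    have hmeas : Measurable fun p : (F × F) × (Fin (q + 1) → F) =>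
        ENNReal.ofReal (h p.1.2 * ((f p.1.2 - c p.1.1) ^ 2 * hm h (p.1.1 - p.1.2) p.2)) := by
      have h1 : Measurable fun p : (F × F) × (Fin (q + 1) → F) => p.1.1 :=
        measurable_fst.comp measurable_fst
      have h2 : Measurable fun p : (F × F) × (Fin (q + 1) → F) => p.1.2 :=
        measurable_snd.comp measurable_fst
      exact ENNReal.measurable_ofReal.comp ((hh.comp h2).mul
        ((((hfm.comp h2).sub (hc.comp h1)).pow_const 2).mul
          ((hm_meas hh).comp ((h1.sub h2).prodMk measurable_snd))))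
    rw [lintegral_congr e1, lintegral_lintegral_swap hmeas.lintegral_prod_right'.aemeasurable]
    refine lintegral_congr fun x => ?_
    have e3 := lintegral_sub_right_eq_self (μ := (volume : Measure F))
      (fun w => ∫⁻ s : Fin (q + 1) → F, ENNReal.ofReal (h x *
        ((f x - c (w + x)) ^ 2 * hm h w s))) x
    simp only [sub_add_cancel] at e3
    rw [e3]
    have e4 := shift_lint (q := q + 1) (Φ := fun y s => ENNReal.ofReal (h x *
        ((f x - c (y + ∑ i, s i + x)) ^ 2 * (h y * ∏ i, h (s i)))))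
      ((sl_K_meas hh hfm hc).comp ((measurable_const.prodMk measurable_fst).prodMk
        measurable_snd))
    simp only [sub_add_cancel] at e4
    exact e4
  have hKm := sl_K_meas (q := q) hh hfm hc
  have hJ2 : ENNReal.ofReal (∫ z, ∫ x, h x * ((f x - c z) ^ 2 * P0 (q + 1) h (z - x))) =
      ∫⁻ x, ∫⁻ y, ∫⁻ s : Fin (q + 1) → F, ENNReal.ofReal (h y *
        ((f y - c (x + ∑ i, s i + y)) ^ 2 * (h x * ∏ i, h (s i)))) := by
    rw [hJ]
    exact lintegral_lintegral_swap hKm.lintegral_prod_right'.aemeasurable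
  -- the lower bound
  have hprodi : Integrable fun s : Fin (q + 1) → F => ∏ i, h (s i) := prod_int hi
  have hIh : 0 ≤ ∫ x, h x := integral_nonneg h0
  have hfh : Integrable (fun x => f x * h x) := by
    refine (hi.norm.const_mul M).mono' (hfm.mul hh).aestronglyMeasurable ?_
    filter_upwards with x
    rw [norm_mul, Real.norm_eq_abs]
    exact mul_le_mul_of_nonneg_right (hM x) (norm_nonneg _)
  have hf2h : Integrable (fun x => f x ^ 2 * h x) := by
    refine (hfh.norm.const_mul M).mono' ((hfm.pow_const 2).mul hh).aestronglyMeasurable ?_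
    filter_upwards with x
    rw [pow_two, mul_assoc, norm_mul, Real.norm_eq_abs]
    exact mul_le_mul_of_nonneg_right (hM x) (norm_nonneg _)
  have h1 : Integrable (fun p : F × F => (f p.1 ^ 2 * h p.1) * h p.2) (volume.prod volume) :=
    hf2h.mul_prod hi
  have h2 : Integrable (fun p : F × F => h p.1 * (f p.2 ^ 2 * h p.2)) (volume.prod volume) :=
    hi.mul_prod hf2h
  have h3 : Integrable (fun p : F × F => (f p.1 * h p.1) * (f p.2 * h p.2))
    (volume.prod volume) := hfh.mul_prod hfh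
  have e : ∀ p : F × F, 1 / 2 * (f p.1 - f p.2) ^ 2 * (h p.1 * h p.2) =
      1 / 2 * ((f p.1 ^ 2 * h p.1) * h p.2 + h p.1 * (f p.2 ^ 2 * h p.2)) -
        (f p.1 * h p.1) * (f p.2 * h p.2) := fun p => by ring
  have h12 : Integrable (fun p : F × F => (f p.1 ^ 2 * h p.1) * h p.2 +
    h p.1 * (f p.2 ^ 2 * h p.2)) (volume.prod volume) := h1.add h2
  have hG : Integrable (fun p : F × F => 1 / 2 * (f p.1 - f p.2) ^ 2 * (h p.1 * h p.2))
      (volume.prod volume) := by
    simp_rw [e]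
    exact (h12.const_mul _).sub h3
  have hI1 : ∫ p : F × F, 1 / 2 * (f p.1 - f p.2) ^ 2 * (h p.1 * h p.2) ∂(volume.prod volume) =
      (∫ x, f x ^ 2 * h x) * (∫ x, h x) - (∫ x, f x * h x) ^ 2 := by
    simp_rw [e]
    rw [integral_sub (h12.const_mul _) h3, integral_const_mul, integral_add h1 h2,
      integral_prod_mul (fun x => f x ^ 2 * h x) h, integral_prod_mul h (fun x => f x ^ 2 * h x),
      integral_prod_mul (fun x => f x * h x) (fun x => f x * h x)]
    ring
  have hlow : ENNReal.ofReal ((∫ x, h x) ^ (q + 1) *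
      ((∫ x, f x ^ 2 * h x) * (∫ x, h x) - (∫ x, f x * h x) ^ 2)) =
      ∫⁻ x, ∫⁻ y, ∫⁻ s : Fin (q + 1) → F, ENNReal.ofReal (1 / 2 * (f x - f y) ^ 2 *
        (h x * h y) * ∏ i, h (s i)) := by
    have e5 : ∀ x y, ∫⁻ s : Fin (q + 1) → F, ENNReal.ofReal (1 / 2 * (f x - f y) ^ 2 *
        (h x * h y) * ∏ i, h (s i)) = ENNReal.ofReal (1 / 2 * (f x - f y) ^ 2 *
        (h x * h y)) * ENNReal.ofReal ((∫ x, h x) ^ (q + 1)) := by
      intro x y
      have hn2 : 0 ≤ 1 / 2 * (f x - f y) ^ 2 * (h x * h y) :=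
        mul_nonneg (by positivity) (mul_nonneg (h0 x) (h0 y))
      rw [← ofReal_integral_eq_lintegral_ofReal (hprodi.const_mul _)
        (Eventually.of_forall fun s => mul_nonneg hn2 (Finset.prod_nonneg fun i _ => h0 _)),
        integral_const_mul, ENNReal.ofReal_mul hn2, integral_fintype_prod_volume_eq_pow h]
      simp only [Fintype.card_fin]
    simp_rw [e5]
    have hmG : Measurable fun p : F × F =>
        ENNReal.ofReal (1 / 2 * (f p.1 - f p.2) ^ 2 * (h p.1 * h p.2)) :=
      ENNReal.measurable_ofReal.comp (((((hfm.comp measurable_fst).sub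
        (hfm.comp measurable_snd)).pow_const 2).const_mul _).mul
          ((hh.comp measurable_fst).mul (hh.comp measurable_snd)))
    have e6 : ∀ x, ∫⁻ y, ENNReal.ofReal (1 / 2 * (f x - f y) ^ 2 *
        (h x * h y)) * ENNReal.ofReal ((∫ x, h x) ^ (q + 1)) =
        (∫⁻ y, ENNReal.ofReal (1 / 2 * (f x - f y) ^ 2 * (h x * h y))) *
          ENNReal.ofReal ((∫ x, h x) ^ (q + 1)) := fun x =>
      lintegral_mul_const' _ _ ENNReal.ofReal_ne_top
    rw [lintegral_congr e6, lintegral_mul_const' _ _ ENNReal.ofReal_ne_top,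
      ← lintegral_prod _ hmG.aemeasurable,
      ← ofReal_integral_eq_lintegral_ofReal hG (Eventually.of_forall fun p =>
        mul_nonneg (by positivity) (mul_nonneg (h0 _) (h0 _))), hI1, mul_comm,
      ENNReal.ofReal_mul' (pow_nonneg hIh _)]
  -- comparison
  have hle : ENNReal.ofReal ((∫ x, h x) ^ (q + 1) *
      ((∫ x, f x ^ 2 * h x) * (∫ x, h x) - (∫ x, f x * h x) ^ 2)) ≤
      ENNReal.ofReal (∫ z, ∫ x, h x * ((f x - c z) ^ 2 * P0 (q + 1) h (z - x))) +
      ENNReal.ofReal (∫ z, ∫ x, h x * ((f x - c z) ^ 2 * P0 (q + 1) h (z - x))) := by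
    rw [hlow]
    nth_rewrite 1 [hJ]
    rw [hJ2]
    have hKs : Measurable fun p : F × F => ∫⁻ s : Fin (q + 1) → F, ENNReal.ofReal (h p.1 *
        ((f p.1 - c (p.2 + ∑ i, s i + p.1)) ^ 2 * (h p.2 * ∏ i, h (s i)))) :=
      hKm.lintegral_prod_right'
    rw [← lintegral_add_left hKs.lintegral_prod_right']
    refine lintegral_mono fun x => ?_
    have hKx : Measurable fun y : F => ∫⁻ s : Fin (q + 1) → F, ENNReal.ofReal (h x *
        ((f x - c (y + ∑ i, s i + x)) ^ 2 * (h y * ∏ i, h (s i)))) :=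
      hKs.comp (measurable_const.prodMk measurable_id)
    simp only
    rw [← lintegral_add_left hKx]
    refine lintegral_mono fun y => ?_
    have hKf : Measurable fun s : Fin (q + 1) → F => ENNReal.ofReal (h x *
        ((f x - c (y + ∑ i, s i + x)) ^ 2 * (h y * ∏ i, h (s i)))) :=
      hKm.comp ((measurable_const (a := (x, y))).prodMk measurable_id)
    rw [← lintegral_add_left hKf]
    refine lintegral_mono fun s => ?_
    have hps : 0 ≤ ∏ i, h (s i) := Finset.prod_nonneg fun i _ => h0 _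
    rw [← ENNReal.ofReal_add
      (mul_nonneg (h0 x) (mul_nonneg (sq_nonneg _) (mul_nonneg (h0 y) hps)))
      (mul_nonneg (h0 y) (mul_nonneg (sq_nonneg _) (mul_nonneg (h0 x) hps)))]
    apply ENNReal.ofReal_le_ofReal
    have ec : x + ∑ i, s i + y = y + ∑ i, s i + x := by abel
    rw [ec]
    have hw : 0 ≤ h x * h y * ∏ i, h (s i) := mul_nonneg (mul_nonneg (h0 x) (h0 y)) hps
    have hsq2 : 1 / 2 * (f x - f y) ^ 2 ≤ (f x - c (y + ∑ i, s i + x)) ^ 2 +
        (f y - c (y + ∑ i, s i + x)) ^ 2 := by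
      nlinarith [sq_nonneg ((f x - c (y + ∑ i, s i + x)) + (f y - c (y + ∑ i, s i + x)))]
    have := mul_le_mul_of_nonneg_right hsq2 hw
    calc 1 / 2 * (f x - f y) ^ 2 * (h x * h y) * ∏ i, h (s i)
        = 1 / 2 * (f x - f y) ^ 2 * (h x * h y * ∏ i, h (s i)) := by ring
      _ ≤ _ := this
      _ = _ := by ring
  have hJn : 0 ≤ ∫ z, ∫ x, h x * ((f x - c z) ^ 2 * P0 (q + 1) h (z - x)) :=
    integral_nonneg fun z => integral_nonneg (hn z)
  rw [← ENNReal.ofReal_add hJn hJn, ENNReal.ofReal_le_ofReal_iff (add_nonneg hJn hJn)] at hle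
  linarith

end Pool.Agent.Lib.MP_8d00da_gt.h42t
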