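import Mathlib
import Pool.Agent.Lib.MP_8d00da_gt.h42t.TD2
import Pool.Agent.Lib.MP_8d00da_gt.h42t.TD1

namespace Pool.Agent.Lib.MP_8d00da_gt.h42r
end Pool.Agent.Lib.MP_8d00da_gt.h42r


/-!
# The global inequality
-/

namespace Pool.Agent.Lib.MP_8d00da_gt.h42t

open MeasureTheory Set Filter
open Pool.Agent.Lib.MP_8d00da_gt.h25 Pool.Agent.Lib.MP_8d00da_gt.h42
open Pool.Agent.Lib.MP_8d00da_gt.h42s Pool.Agent.Lib.MP_8d00da_gt.h42o
open Pool.Agent.Lib.MP_8d00da_gt.h97r Pool.Agent.Lib.MP_8d00da_gt.h42r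
open scoped Topology NNReal ENNReal

set_option linter.unusedSectionVars false

variable {F : Type*} [NormedAddCommGroup F] [InnerProductSpace ℝ F]
    [FiniteDimensional ℝ F] [MeasurableSpace F] [BorelSpace F]

variable {G : Type*} [NormedAddCommGroup G] [InnerProductSpace ℝ G]
    [FiniteDimensional ℝ G] [MeasurableSpace G] [BorelSpace G]

variable {ι : Type*} [Fintype ι]

variable {q : ℕ}

/-- For every `z` let `c z = (∫ h f √A P1 (z - x)) / (∫ h √A P1 (z - x))` (the mean, `|c z| ≤ sup |f|`;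
`0` if the denominator vanishes; then `h x √(A x) P1 (z-x) = 0` a.e., so `P0 (z - x) = 0` a.e. on
`{h > 0}` by `P0_zero` and the fibre integral vanishes). `fib` for a.e. `z` (`hQi` by Fubini after
`(x, z) ↦ (x, z - x)`, which preserves the product measure), then `sym_low`. -/
theorem glob {h A : F → ℝ} {P : ι → F →L[ℝ] G} {ω : ι → F → ℝ} {κ r Hb Ab : ℝ}
    (H : PD (q + 1) h A P ω κ r Hb Ab) {f : F → ℝ} (hf : Sm f) {Q : F → F → ℝ}
    (hQm : Measurable (Function.uncurry Q)) (hQ0 : ∀ x y, 0 ≤ Q x y)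
    (hQS : ∀ x y, 0 < h x → 0 < P0 (q + 1) h y → ∀ u,
      (fderiv ℝ f x u) ^ 2 ≤ Q x y * ∑ j, oh (q + 1) h (ω j) y * ‖P j u‖ ^ 2)
    (hQi : Integrable fun p : F × F => h p.1 * (P1 (q + 1) h A p.2 ^ 2 * Q p.1 p.2)) :
    (∫ x, h x) ^ (q + 1) * ((∫ x, f x ^ 2 * h x) * (∫ x, h x) - (∫ x, f x * h x) ^ 2) ≤
      2 * ∫ p : F × F, h p.1 * (P1 (q + 1) h A p.2 ^ 2 * Q p.1 p.2) := by
  obtain ⟨⟨Lf, hLf⟩, M, hM⟩ := hf.bl
  have hfm : Measurable f := hLf.continuous.measurable
  have hM0 : 0 ≤ M := (abs_nonneg _).trans (hM 0)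
  have hAb0 : 0 ≤ Ab := (H.A0 0).trans (H.Ab 0)
  have hh := H.meas
  have hP0m : Measurable (P0 (q + 1) h) := P0_meas hh
  have hP1m : Measurable (P1 (q + 1) h A) := P1_meas hh H.Am
  have hP0b : ∀ y, P0 (q + 1) h y ≤ Hb * (∫ x, h x) ^ (q + 1) := P0_le H.meas H.h0 H.hb H.hi
  have hP0n : ∀ y, 0 ≤ P0 (q + 1) h y := P0_nonneg H.h0
  have hP1n : ∀ y, 0 ≤ P1 (q + 1) h A y := P1_nonneg H.h0
  have hP1b : ∀ y, P1 (q + 1) h A y ≤ √Ab * P0 (q + 1) h y :=
    P1_le H.meas H.h0 H.hb H.hi H.Am H.A0 H.Ab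
  obtain ⟨N, hN⟩ : ∃ N : ℝ, N = Hb * (∫ x, h x) ^ (q + 1) := ⟨_, rfl⟩
  rw [← hN] at hP0b
  have hN0 : 0 ≤ N := (hP0n 0).trans (hP0b 0)
  have bdd : ∀ (g : F → ℝ) (C : ℝ), Measurable g → (∀ x, |g x| ≤ C) →
      Integrable fun x => h x * g x := by
    intro g C hg hgC
    refine (H.hi.norm.const_mul C).mono' (H.meas.mul hg).aestronglyMeasurable ?_
    filter_upwards with x
    rw [norm_mul, Real.norm_eq_abs (g x), mul_comm]
    exact mul_le_mul_of_nonneg_right (hgC x) (norm_nonneg _)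
  have hAP : ∀ x y, √(A x) * P1 (q + 1) h A y ≤ √Ab * (√Ab * N) := fun x y =>
    mul_le_mul (Real.sqrt_le_sqrt (H.Ab x))
      ((hP1b _).trans (mul_le_mul_of_nonneg_left (hP0b _) (Real.sqrt_nonneg _)))
      (hP1n _) (Real.sqrt_nonneg _)
  have hAPn : ∀ x y, 0 ≤ √(A x) * P1 (q + 1) h A y := fun x y =>
    mul_nonneg (Real.sqrt_nonneg _) (hP1n _)
  have hzm : ∀ z : F, Measurable fun x : F => z - x := fun z =>
    measurable_const.sub measurable_id
  have iD : ∀ z, Integrable fun x => h x * (√(A x) * P1 (q + 1) h A (z - x)) := fun z =>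
    bdd _ (√Ab * (√Ab * N)) (H.Am.sqrt.mul (hP1m.comp (hzm z))) fun x => by
      rw [abs_of_nonneg (hAPn _ _)]
      exact hAP _ _
  have iN : ∀ z, Integrable fun x => h x * (f x * (√(A x) * P1 (q + 1) h A (z - x))) := fun z =>
    bdd _ (M * (√Ab * (√Ab * N))) (hfm.mul (H.Am.sqrt.mul (hP1m.comp (hzm z)))) fun x => by
      rw [abs_mul, abs_of_nonneg (hAPn _ _)]
      exact mul_le_mul (hM x) (hAP _ _) (hAPn _ _) hM0
  -- the mean
  obtain ⟨dn, hdn⟩ : ∃ dn : F → ℝ, dn = fun z =>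
    ∫ x, h x * (√(A x) * P1 (q + 1) h A (z - x)) := ⟨_, rfl⟩
  obtain ⟨nu, hnu⟩ : ∃ nu : F → ℝ, nu = fun z =>
    ∫ x, h x * (f x * (√(A x) * P1 (q + 1) h A (z - x))) := ⟨_, rfl⟩
  have hdn0 : ∀ z, 0 ≤ dn z := by
    intro z
    rw [hdn]
    exact integral_nonneg fun x => mul_nonneg (H.h0 x) (hAPn _ _)
  have hdnm : Measurable dn := by
    rw [hdn]
    refine StronglyMeasurable.measurable ?_
    refine StronglyMeasurable.integral_prod_right (f := fun z x =>
      h x * (√(A x) * P1 (q + 1) h A (z - x))) ?_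
    exact ((hh.comp measurable_snd).mul ((H.Am.comp measurable_snd).sqrt.mul
      (hP1m.comp (measurable_fst.sub measurable_snd)))).stronglyMeasurable
  have hnum : Measurable nu := by
    rw [hnu]
    refine StronglyMeasurable.measurable ?_
    refine StronglyMeasurable.integral_prod_right (f := fun z x =>
      h x * (f x * (√(A x) * P1 (q + 1) h A (z - x)))) ?_
    exact ((hh.comp measurable_snd).mul ((hfm.comp measurable_snd).mul
      ((H.Am.comp measurable_snd).sqrt.mul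
      (hP1m.comp (measurable_fst.sub measurable_snd))))).stronglyMeasurable
  have hnudn : ∀ z, |nu z| ≤ M * dn z := by
    intro z
    rw [hnu, hdn, ← integral_const_mul]
    refine (abs_integral_le_integral_abs).trans (integral_mono (iN z).abs
      ((iD z).const_mul M) fun x => ?_)
    have e : |h x * (f x * (√(A x) * P1 (q + 1) h A (z - x)))| =
        |f x| * (h x * (√(A x) * P1 (q + 1) h A (z - x))) := by
      rw [abs_mul, abs_mul, abs_of_nonneg (H.h0 x), abs_of_nonneg (hAPn _ _)]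
      ring
    simp only [e]
    exact mul_le_mul_of_nonneg_right (hM x) (mul_nonneg (H.h0 x) (hAPn _ _))
  have hcb : ∀ z, |nu z / dn z| ≤ M := by
    intro z
    rw [abs_div, abs_of_nonneg (hdn0 z)]
    exact div_le_of_le_mul₀ (hdn0 z) hM0 (hnudn z)
  have hcm : Measurable fun z => nu z / dn z := hnum.div hdnm
  obtain ⟨hJi, hJ⟩ := sym_low (q := q) hh H.h0 H.hb H.hi hf.bl hcm hcb
  -- change of variables
  have hmp : MeasurePreserving (fun z : F × F => (z.2, -z.2 + z.1)) (volume.prod volume)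
      (volume.prod volume) := measurePreserving_prod_neg_add_swap volume volume
  have hsub : ∀ z x : F, -x + z = z - x := fun z x => by abel
  have hΦ2 : Integrable (fun p : F × F => h p.1 * (P1 (q + 1) h A p.2 ^ 2 * Q p.1 p.2))
      (volume.prod volume) := hQi
  have hΨ2 := (hmp.integrable_comp hΦ2.aestronglyMeasurable).2 hΦ2
  have e2 : ∫ p : F × F, h p.1 * (P1 (q + 1) h A p.2 ^ 2 * Q p.1 p.2) ∂(volume.prod volume) =
      ∫ z, ∫ x, h x * (P1 (q + 1) h A (z - x) ^ 2 * Q x (z - x)) := by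
    have h1 := integral_prod _ hΨ2
    have h2 := hmp.map_eq
    conv_lhs => rw [← h2]
    rw [integral_map hmp.measurable.aemeasurable (by rw [h2]; exact hΦ2.aestronglyMeasurable)]
    refine h1.trans ?_
    simp only [Function.comp, hsub]
  have hi2 : Integrable fun z => ∫ x, h x * (P1 (q + 1) h A (z - x) ^ 2 * Q x (z - x)) := by
    have h1 := hΨ2.integral_prod_left
    simpa only [Function.comp, hsub] using h1
  have hkey : ∀ᵐ z : F, ∫ x, h x * ((f x - nu z / dn z) ^ 2 * P0 (q + 1) h (z - x)) ≤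
      ∫ x, h x * (P1 (q + 1) h A (z - x) ^ 2 * Q x (z - x)) := by
    filter_upwards [hΨ2.prod_right_ae] with z hz2
    have hz2' : Integrable fun x => h x * (P1 (q + 1) h A (z - x) ^ 2 * Q x (z - x)) := by
      simpa only [Function.comp, hsub] using hz2
    have hQz : Measurable fun x => Q x (z - x) :=
      hQm.comp (measurable_id.prodMk (measurable_const.sub measurable_id))
    by_cases hd : dn z = 0
    · have h1 : (fun x => h x * (√(A x) * P1 (q + 1) h A (z - x))) =ᵐ[volume] 0 := by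
        rw [← integral_eq_zero_iff_of_nonneg (fun x => mul_nonneg (H.h0 x) (hAPn _ _)) (iD z)]
        rw [hdn] at hd
        exact hd
      have h2 : (fun x => h x * ((f x - nu z / dn z) ^ 2 * P0 (q + 1) h (z - x))) =ᵐ[volume]
          0 := by
        filter_upwards [h1] with x hx
        simp only [Pi.zero_apply] at hx ⊢
        rcases (H.h0 x).lt_or_eq with hx0 | hx0
        · have h3 : P1 (q + 1) h A (z - x) = 0 := by
            rcases mul_eq_zero.mp hx with h4 | h4
            · exact absurd h4 hx0.ne'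
            · rcases mul_eq_zero.mp h4 with h5 | h5
              · exact absurd h5 (Real.sqrt_pos.mpr (H.Apos x hx0)).ne'
              · exact h5
          rw [P0_zero hh H.h0 H.hb H.hi H.Am H.A0 H.Ab H.Apos h3, mul_zero, mul_zero]
        · rw [← hx0, zero_mul]
      rw [integral_congr_ae h2]
      simp only [Pi.zero_apply, integral_zero]
      exact integral_nonneg fun x => mul_nonneg (H.h0 x) (mul_nonneg (sq_nonneg _) (hQ0 _ _))
    · refine fib H hf z (nu z / dn z) hQz (fun x => hQ0 _ _) (fun x hx hx' u => hQS x _ hx hx' u)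
        hz2' ?_
      have e3 : ∀ x, h x * ((f x - nu z / dn z) * √(A x) * P1 (q + 1) h A (z - x)) =
          h x * (f x * (√(A x) * P1 (q + 1) h A (z - x))) -
            nu z / dn z * (h x * (√(A x) * P1 (q + 1) h A (z - x))) := fun x => by ring
      simp_rw [e3]
      rw [integral_sub (iN z) ((iD z).const_mul _), integral_const_mul]
      have e4 : ∫ x, h x * (f x * (√(A x) * P1 (q + 1) h A (z - x))) = nu z := by rw [hnu]
      have e5 : ∫ x, h x * (√(A x) * P1 (q + 1) h A (z - x)) = dn z := by rw [hdn]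
      rw [e4, e5, div_mul_cancel₀ _ hd, sub_self]
  have h4 := integral_mono_ae hJi hi2 hkey
  rw [← e2] at h4
  have e5 : ∫ p : F × F, h p.1 * (P1 (q + 1) h A p.2 ^ 2 * Q p.1 p.2) =
      ∫ p : F × F, h p.1 * (P1 (q + 1) h A p.2 ^ 2 * Q p.1 p.2) ∂(volume.prod volume) := rfl
  rw [e5]
  have h5 := hJ.trans h4
  linarith

end Pool.Agent.Lib.MP_8d00da_gt.h42t
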