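import Mathlib
import Pool.Agent.Lib.MP_8d00da_gt.h42r.ARaux
import Pool.Agent.Lib.MP_8d00da_gt.h42t.TD3

/-!
# The linearly invariant inequality for smooth functions
-/

namespace Pool.Agent.Lib.MP_8d00da_gt.h42t

open MeasureTheory Set Filter
open Pool.Agent.Lib.MP_8d00da_gt.h25 Pool.Agent.Lib.MP_8d00da_gt.h42
open Pool.Agent.Lib.MP_8d00da_gt.h42s Pool.Agent.Lib.MP_8d00da_gt.h42o
open Pool.Agent.Lib.MP_8d00da_gt.h97r Pool.Agent.Lib.MP_8d00da_gt.h42r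
open scoped Topology NNReal ENNReal

set_option linter.unusedSectionVars false

variable {F : Type*} [NormedAddCommGroup F] [InnerProductSpace ℝ F]
    [FiniteDimensional ℝ F] [MeasurableSpace F] [BorelSpace F]

variable {G : Type*} [NormedAddCommGroup G] [InnerProductSpace ℝ G]
    [FiniteDimensional ℝ G] [MeasurableSpace G] [BorelSpace G]

variable {ι : Type*} [Fintype ι]

variable {q : ℕ}

/-- The right side of `glob` for `Q x y = ∑ j, μ_j² ‖P_j R ∇f(x)‖² / oh_j y` (zero where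
`oh_j y = 0`), `μ_j J_j = 1`, `J_j = ∫ P0 P2/oh_j`, `P1² ≤ P0 P2` (`P1_sq`):
`∫∫ h P1² Q ≤ ∑ μ_j² J_j ∫ h ‖P_j R ∇f‖² = ∫ h ⟪∇f, R ∇f⟫` (`exists_R` with `g = ∇f`,
`u = R ∇f`). `hQS` is `dual_cs` (`oh_j y > 0` by `oh_pos`).
`∇f(x) = (InnerProductSpace.toDual ℝ F).symm (fderiv ℝ f x)`. Compare `h42r.AR2a`. -/
theorem glob_ridge {h A : F → ℝ} {P : ι → F →L[ℝ] G} {ω : ι → F → ℝ} {κ r Hb Ab : ℝ}
    (H : PD (q + 1) h A P ω κ r Hb Ab) {f : F → ℝ} (hf : Sm f) {μ : ι → ℝ} (hμ : ∀ j, 0 < μ j)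
    (hJi : ∀ j, Integrable fun y =>
      P0 (q + 1) h y * P2 (q + 1) h A y / oh (q + 1) h (ω j) y)
    (hμJ : ∀ j, μ j * (∫ y, P0 (q + 1) h y * P2 (q + 1) h A y / oh (q + 1) h (ω j) y) = 1)
    {R : F →L[ℝ] F} (hR : ∀ g u : F, ∑ j, μ j * inner ℝ (P j (R g)) (P j u) = inner ℝ g u) :
    (∫ x, h x) ^ (q + 1) * ((∫ x, f x ^ 2 * h x) * (∫ x, h x) - (∫ x, f x * h x) ^ 2) ≤
      2 * ∫ x, fderiv ℝ f x (R ((InnerProductSpace.toDual ℝ F).symm (fderiv ℝ f x))) * h x := by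
  have hO : ∀ j, Measurable (oh (q + 1) h (ω j)) := fun j => oh_meas H.meas (H.ωm j)
  have hO0 : ∀ j y, 0 ≤ oh (q + 1) h (ω j) y := fun j y => oh_nonneg H.h0 (H.ω0 j) y
  obtain ⟨Q, hQ⟩ : ∃ Q : F → F → ℝ, Q = qrd P (fun j => oh (q + 1) h (ω j)) μ R f := ⟨_, rfl⟩
  have hQm : Measurable (Function.uncurry Q) := by rw [hQ]; exact qrd_meas P hO μ R f
  have hQ0 : ∀ x y, 0 ≤ Q x y := fun x y => by rw [hQ]; exact qrd_nonneg P hO0 μ R f x y
  have hi : Integrable h := H.hi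
  obtain ⟨hint, hval⟩ := qrd_int P (ω := fun j => oh (q + 1) h (ω j)) (m := μ) hR hf.bl (w := h)
    (w' := fun y => P0 (q + 1) h y * P2 (q + 1) h A y) hi hJi (A := 1)
    (fun j => by rw [mul_comm]; exact hμJ j)
  rw [← hQ] at hint hval
  have hle : ∀ p : F × F, h p.1 * (P1 (q + 1) h A p.2 ^ 2 * Q p.1 p.2) ≤
      h p.1 * (P0 (q + 1) h p.2 * P2 (q + 1) h A p.2 * Q p.1 p.2) := fun p =>
    mul_le_mul_of_nonneg_left (mul_le_mul_of_nonneg_right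
      (P1_sq H.meas H.h0 H.hb hi H.Am H.A0 H.Ab p.2) (hQ0 _ _)) (H.h0 _)
  have hQi : Integrable fun p : F × F => h p.1 * (P1 (q + 1) h A p.2 ^ 2 * Q p.1 p.2) := by
    refine hint.mono' ?_ (Eventually.of_forall fun p => ?_)
    · exact ((H.meas.comp measurable_fst).mul
        ((((P1_meas H.meas H.Am).comp measurable_snd).pow_const 2).mul hQm)).aestronglyMeasurable
    · rw [Real.norm_of_nonneg (mul_nonneg (H.h0 _) (mul_nonneg (sq_nonneg _) (hQ0 _ _)))]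
      exact hle p
  have h1 := glob H hf hQm hQ0 (fun x y hx hy u => by
    rw [hQ]
    exact qrd_dom P hR f x y (fun j => oh_pos H.meas H.h0 H.hb hi (H.ωm j) (H.ω0 j) (H.ωpos j)
      (H.ωi j) hy) u) hQi
  have h2 := integral_mono hQi hint hle
  rw [hval, one_mul] at h2
  have h3 : ∫ x, fderiv ℝ f x (R (gdt f x)) * h x = ∫ x, fderiv ℝ f x
      (R ((InnerProductSpace.toDual ℝ F).symm (fderiv ℝ f x))) * h x := rfl
  rw [← h3]
  linarith

end Pool.Agent.Lib.MP_8d00da_gt.h42t
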