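import Mathlib
import Pool.Agent.Lib.MP_8d00da_gt.h42t.TD4

/-!
# The linearly invariant inequality for smooth functions
-/

namespace Pool.Agent.Lib.MP_8d00da_gt.h42t

open MeasureTheory Set Filter
open Pool.Agent.Lib.MP_8d00da_gt.h25 Pool.Agent.Lib.MP_8d00da_gt.h42
open Pool.Agent.Lib.MP_8d00da_gt.h42s Pool.Agent.Lib.MP_8d00da_gt.h42o
open Pool.Agent.Lib.MP_8d00da_gt.h97r Pool.Agent.Lib.MP_8d00da_gt.h42r
open scoped Topology NNReal ENNReal

set_option linter.unusedSectionVars false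

variable {F : Type*} [NormedAddCommGroup F] [InnerProductSpace ℝ F]
    [FiniteDimensional ℝ F] [MeasurableSpace F] [BorelSpace F]

variable {G : Type*} [NormedAddCommGroup G] [InnerProductSpace ℝ G]
    [FiniteDimensional ℝ G] [MeasurableSpace G] [BorelSpace G]

variable {ι : Type*} [Fintype ι]

variable {q : ℕ}

/-- Integrability of the right side of `QJ`. -/
private lemma td5_rhs {w : F → ℝ} (hw0 : ∀ x, 0 ≤ w x) (hwm : Measurable w) (hw : Integrable w)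
    (hw2 : Integrable fun x => ‖x‖ ^ 2 * w x) {f : F → ℝ} (hf : BL f) :
    Integrable fun y => (∫ x, (fderiv ℝ f y x) ^ 2 * w x) * w y := by
  obtain ⟨⟨K, hK⟩, -⟩ := hf
  have hfd : ∀ y, ‖fderiv ℝ f y‖ ≤ K := fun y => norm_fderiv_le_of_lipschitz ℝ hK
  have hbd : ∀ y x, (fderiv ℝ f y x) ^ 2 ≤ (K : ℝ) ^ 2 * ‖x‖ ^ 2 := by
    intro y x
    have h1 : |fderiv ℝ f y x| ≤ K * ‖x‖ := by
      have h2 := (fderiv ℝ f y).le_opNorm x
      rw [Real.norm_eq_abs] at h2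
      exact h2.trans (mul_le_mul_of_nonneg_right (hfd y) (norm_nonneg x))
    have h3 := mul_self_le_mul_self (abs_nonneg _) h1
    rw [abs_mul_abs_self] at h3
    nlinarith [h3]
  have hmeas : Measurable fun p : F × F => (fderiv ℝ f p.1 p.2) ^ 2 * w p.2 := by
    have h1 : Measurable fun p : F × F => fderiv ℝ f p.1 p.2 := by
      have h2 : Continuous fun q : (F →L[ℝ] ℝ) × F => q.1 q.2 :=
        isBoundedBilinearMap_apply.continuous
      exact h2.measurable.comp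
        (((measurable_fderiv ℝ f).comp measurable_fst).prodMk measurable_snd)
    exact (h1.pow_const 2).mul (hwm.comp measurable_snd)
  have hsm : StronglyMeasurable fun y => ∫ x, (fderiv ℝ f y x) ^ 2 * w x :=
    hmeas.stronglyMeasurable.integral_prod_right'
  refine Integrable.bdd_mul (c := (K : ℝ) ^ 2 * ∫ x, ‖x‖ ^ 2 * w x) hw hsm.aestronglyMeasurable
    (Eventually.of_forall fun y => ?_)
  have h0 : 0 ≤ ∫ x, (fderiv ℝ f y x) ^ 2 * w x :=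
    integral_nonneg fun x => mul_nonneg (sq_nonneg _) (hw0 x)
  rw [Real.norm_of_nonneg h0, ← integral_const_mul]
  refine integral_mono_of_nonneg (Eventually.of_forall fun x => mul_nonneg (sq_nonneg _) (hw0 x))
    (hw2.const_mul _) (Eventually.of_forall fun x => ?_)
  have := mul_le_mul_of_nonneg_right (hbd y x) (hw0 x)
  simp only
  linarith

/-- The algebra of the main theorem. -/
private lemma td5_alg {w : F → ℝ} (hw0 : ∀ x, 0 ≤ w x) (hwm : Measurable w) (hw : Integrable w)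
    (hw2 : Integrable fun x => ‖x‖ ^ 2 * w x) {P : ι → F →L[ℝ] G} {m : ι → ℝ}
    (hm : ∀ j, 0 < m j) {A K : ℝ} (hA : 0 < A) (hK : 0 ≤ K)
    (hCR : ∀ θ u : F, (inner ℝ θ u * A) ^ 2 ≤
      (∫ x, (inner ℝ θ x) ^ 2 * w x) * (K * A * ∑ j, m j * ‖P j u‖ ^ 2)) :
    ∃ R : F →L[ℝ] F, (∀ g u : F, ∑ j, m j * inner ℝ (P j (R g)) (P j u) = inner ℝ g u) ∧
      ∀ f : F → ℝ, BL f → A * ∫ x, fderiv ℝ f x (R ((InnerProductSpace.toDual ℝ F).symm
        (fderiv ℝ f x))) * w x ≤ K * ∫ y, (∫ x, (fderiv ℝ f y x) ^ 2 * w x) * w y := by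
  have hker : ∀ u : F, (∀ j, P j u = 0) → u = 0 := by
    intro u hu
    have h1 := hCR u u
    have h2 : ∑ j, m j * ‖P j u‖ ^ 2 = 0 :=
      Finset.sum_eq_zero fun j _ => by rw [hu j, norm_zero]; ring
    rw [h2, mul_zero, mul_zero, real_inner_self_eq_norm_sq] at h1
    have h3 : ‖u‖ ^ 2 * A = 0 := by nlinarith [sq_nonneg (‖u‖ ^ 2 * A)]
    have h4 : ‖u‖ ^ 2 = 0 := by
      rcases mul_eq_zero.1 h3 with h | h
      · exact h
      · exact absurd h hA.ne'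
    exact norm_eq_zero.1 (by simpa using h4)
  obtain ⟨R, hR⟩ := exists_R P hm hker
  refine ⟨R, hR, fun f hf => ?_⟩
  have hs : ∀ θ : F, ∑ j, m j * ‖P j (R θ)‖ ^ 2 = inner ℝ θ (R θ) := by
    intro θ
    rw [← hR θ (R θ)]
    exact Finset.sum_congr rfl fun j _ => by rw [real_inner_self_eq_norm_sq]
  have hs0 : ∀ θ : F, 0 ≤ inner ℝ θ (R θ) := by
    intro θ
    rw [← hs θ]
    exact Finset.sum_nonneg fun j _ => mul_nonneg (hm j).le (sq_nonneg _)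
  have hkey : ∀ θ : F, A * inner ℝ θ (R θ) ≤ K * ∫ x, (inner ℝ θ x) ^ 2 * w x := by
    intro θ
    have h1 := hCR θ (R θ)
    rw [hs θ] at h1
    have hM : 0 ≤ ∫ x, (inner ℝ θ x) ^ 2 * w x :=
      integral_nonneg fun x => mul_nonneg (sq_nonneg _) (hw0 x)
    rcases (hs0 θ).eq_or_lt with h0 | h0
    · rw [← h0, mul_zero]
      exact mul_nonneg hK hM
    · have h2 : 0 < A * inner ℝ θ (R θ) := mul_pos hA h0
      have h3 : (A * inner ℝ θ (R θ)) * (A * inner ℝ θ (R θ)) ≤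
          (A * inner ℝ θ (R θ)) * (K * ∫ x, (inner ℝ θ x) ^ 2 * w x) := by
        calc (A * inner ℝ θ (R θ)) * (A * inner ℝ θ (R θ)) = (inner ℝ θ (R θ) * A) ^ 2 := by ring
          _ ≤ (∫ x, (inner ℝ θ x) ^ 2 * w x) * (K * A * inner ℝ θ (R θ)) := h1
          _ = _ := by ring
      exact le_of_mul_le_mul_left h3 h2
  rw [← integral_const_mul, ← integral_const_mul]
  have hθ : ∀ x v, fderiv ℝ f x v =
      inner ℝ ((InnerProductSpace.toDual ℝ F).symm (fderiv ℝ f x)) v := by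
    intro x v
    rw [InnerProductSpace.toDual_symm_apply]
  refine integral_mono_of_nonneg (Eventually.of_forall fun x => ?_)
    ((td5_rhs hw0 hwm hw hw2 hf).const_mul K) (Eventually.of_forall fun x => ?_)
  · refine mul_nonneg hA.le (mul_nonneg ?_ (hw0 x))
    rw [hθ]
    exact hs0 _
  · simp only
    have h1 := hkey ((InnerProductSpace.toDual ℝ F).symm (fderiv ℝ f x))
    have h2 : ∫ y, (inner ℝ ((InnerProductSpace.toDual ℝ F).symm (fderiv ℝ f x)) y) ^ 2 * w y =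
        ∫ y, (fderiv ℝ f x y) ^ 2 * w y :=
      integral_congr_ae (Eventually.of_forall fun y => by simp only; rw [← hθ])
    rw [h2, ← hθ] at h1
    have h3 := mul_le_mul_of_nonneg_right h1 (hw0 x)
    linarith

/-- The positivity of `J_j`: `P0 P2/oh_j ≥ 0` is positive where `P0 > 0` (`P2 > 0`, `oh > 0`
there), a set of positive measure because `∫ P0 = (∫ h)^(q+2) > 0`. -/
theorem J_pos {h A ω : F → ℝ} (hh : Measurable h) (h0 : ∀ x, 0 ≤ h x) {Hb : ℝ}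
    (hb : ∀ x, h x ≤ Hb) (hi : Integrable h) (hA : Measurable A) (A0 : ∀ x, 0 ≤ A x) {Ab : ℝ}
    (hAb : ∀ x, A x ≤ Ab) (Apos : ∀ x, 0 < h x → 0 < A x) (hω : Measurable ω)
    (ω0 : ∀ x, 0 ≤ ω x) (ωpos : ∀ x, 0 < h x → 0 < ω x) (ωi : Integrable fun x => h x * ω x)
    (hpos : 0 < ∫ x, h x)
    (hJi : Integrable fun y => P0 (q + 1) h y * P2 (q + 1) h A y / oh (q + 1) h ω y) :
    0 < ∫ y, P0 (q + 1) h y * P2 (q + 1) h A y / oh (q + 1) h ω y := by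
  have hnn : ∀ y, 0 ≤ P0 (q + 1) h y * P2 (q + 1) h A y / oh (q + 1) h ω y := fun y =>
    div_nonneg (mul_nonneg (P0_nonneg h0 y) (P2_nonneg h0 A0 y)) (oh_nonneg h0 ω0 y)
  have hn0 : 0 ≤ ∫ y, P0 (q + 1) h y * P2 (q + 1) h A y / oh (q + 1) h ω y := integral_nonneg hnn
  rcases hn0.eq_or_lt with he | he
  · exfalso
    have h1 := (integral_eq_zero_iff_of_nonneg (fun y => hnn y) hJi).1 he.symm
    have h2 : P0 (q + 1) h =ᵐ[volume] fun _ => 0 := by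
      filter_upwards [h1] with y hy
      by_contra hne
      have h3 : 0 < P0 (q + 1) h y := lt_of_le_of_ne (P0_nonneg h0 y) (Ne.symm hne)
      have h4 : 0 < oh (q + 1) h ω y := oh_pos hh h0 hb hi hω ω0 ωpos ωi h3
      have h5 : P1 (q + 1) h A y ≠ 0 := fun h' => hne (P0_zero hh h0 hb hi hA A0 hAb Apos h')
      have h6 := P1_sq (q := q + 1) hh h0 hb hi hA A0 hAb y
      have h7 : 0 < P0 (q + 1) h y * P2 (q + 1) h A y :=
        lt_of_lt_of_le (pow_pos (lt_of_le_of_ne (P1_nonneg h0 y) (Ne.symm h5)) 2) h6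
      exact (div_pos h7 h4).ne' hy
    have h8 : ∫ y, P0 (q + 1) h y = 0 := by
      rw [integral_congr_ae h2]
      simp
    rw [(P0_int (q := q + 1) hh h0 hb hi).2] at h8
    exact (pow_pos hpos _).ne' h8
  · exact he

/-- `μ_j = 1/J_j`, so `γ_j ≤ C₁ Z^(q+1) μ_j`; `exists_R` (the common kernel of the `P_j` is zero by
`hCR`: if all `P_j u = 0` then `⟪θ, u⟫² ≤ 0` for all `θ`). `hCR` with `u = R θ` gives
`⟪θ, R θ⟫² ≤ (∫ ⟪θ,x⟫² h) C₁ Z^(q+1) ⟪R θ, θ⟫`, so `⟪θ, R θ⟫ ≤ C₁ Z^(q+1) ∫ ⟪θ,x⟫² h`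
(`⟪θ, R θ⟫ = ∑ μ_j ‖P_j R θ‖² ≥ 0`). Insert in `glob_ridge` with `θ = ∇f(y)` and divide by
`Z^(q+1)`. Compare `h42r.AR2` (`ar2_alg`). -/
theorem ridge_S {h A : F → ℝ} {P : ι → F →L[ℝ] G} {ω : ι → F → ℝ} {κ r Hb Ab : ℝ}
    (H : PD (q + 1) h A P ω κ r Hb Ab) (hi2 : Integrable fun x => ‖x‖ ^ 2 * h x)
    (hpos : 0 < ∫ x, h x) {C1 : ℝ} (hC1 : 0 ≤ C1) {γ : ι → ℝ} (hγ : ∀ j, 0 ≤ γ j)
    (hJi : ∀ j, Integrable fun y =>
      P0 (q + 1) h y * P2 (q + 1) h A y / oh (q + 1) h (ω j) y)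
    (hγJ : ∀ j, γ j * (∫ y, P0 (q + 1) h y * P2 (q + 1) h A y / oh (q + 1) h (ω j) y) ≤
      C1 * (∫ x, h x) ^ (q + 1))
    (hCR : ∀ θ u : F, (inner ℝ θ u) ^ 2 ≤
      (∫ x, (inner ℝ θ x) ^ 2 * h x) * ∑ j, γ j * ‖P j u‖ ^ 2) : QJS (2 * C1) h := by
  have hi : Integrable h := H.hi
  have hZ : 0 < (∫ x, h x) ^ (q + 1) := pow_pos hpos _
  have hJ : ∀ j, 0 < ∫ y, P0 (q + 1) h y * P2 (q + 1) h A y / oh (q + 1) h (ω j) y := fun j =>
    J_pos H.meas H.h0 H.hb hi H.Am H.A0 H.Ab H.Apos (H.ωm j) (H.ω0 j) (H.ωpos j) (H.ωi j) hpos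
      (hJi j)
  obtain ⟨μ, hμ⟩ : ∃ μ : ι → ℝ, μ = fun j =>
    (∫ y, P0 (q + 1) h y * P2 (q + 1) h A y / oh (q + 1) h (ω j) y)⁻¹ := ⟨_, rfl⟩
  have hμp : ∀ j, 0 < μ j := fun j => by rw [hμ]; exact inv_pos.2 (hJ j)
  have hμJ : ∀ j, μ j * (∫ y, P0 (q + 1) h y * P2 (q + 1) h A y / oh (q + 1) h (ω j) y) = 1 :=
    fun j => by rw [hμ]; exact inv_mul_cancel₀ (hJ j).ne'
  have hγμ : ∀ j, γ j ≤ C1 * (∫ x, h x) ^ (q + 1) * μ j := fun j => by
    have h1 := mul_le_mul_of_nonneg_right (hγJ j) (hμp j).le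
    have h2 := hμJ j
    calc γ j = γ j * (μ j * (∫ y, P0 (q + 1) h y * P2 (q + 1) h A y /
          oh (q + 1) h (ω j) y)) := by rw [h2, mul_one]
      _ = γ j * (∫ y, P0 (q + 1) h y * P2 (q + 1) h A y / oh (q + 1) h (ω j) y) * μ j := by ring
      _ ≤ _ := h1
  have hCR' : ∀ θ u : F, (inner ℝ θ u * (1 : ℝ)) ^ 2 ≤ (∫ x, (inner ℝ θ x) ^ 2 * h x) *
      ((C1 * (∫ x, h x) ^ (q + 1)) * 1 * ∑ j, μ j * ‖P j u‖ ^ 2) := by
    intro θ u
    rw [mul_one, mul_one]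
    refine (hCR θ u).trans (mul_le_mul_of_nonneg_left ?_
      (integral_nonneg fun x => mul_nonneg (sq_nonneg _) (H.h0 x)))
    rw [Finset.mul_sum]
    refine Finset.sum_le_sum fun j _ => ?_
    have := mul_le_mul_of_nonneg_right (hγμ j) (sq_nonneg ‖P j u‖)
    linarith
  obtain ⟨R, hR, hmain⟩ := td5_alg H.h0 H.meas hi hi2 hμp one_pos (mul_nonneg hC1 hZ.le) hCR'
  intro f hf
  have h1 := glob_ridge H hf hμp hJi hμJ hR
  have h2 := hmain f hf.bl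
  rw [one_mul] at h2
  have h3 : (∫ x, h x) ^ (q + 1) * ((∫ x, f x ^ 2 * h x) * (∫ x, h x) - (∫ x, f x * h x) ^ 2) ≤
      (∫ x, h x) ^ (q + 1) * (2 * C1 * ∫ y, (∫ x, (fderiv ℝ f y x) ^ 2 * h x) * h y) := by
    refine h1.trans ((mul_le_mul_of_nonneg_left h2 zero_le_two).trans (le_of_eq ?_))
    ring
  exact le_of_mul_le_mul_left h3 hZ

end Pool.Agent.Lib.MP_8d00da_gt.h42t
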