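import Mathlib
import Pool.Agent.Lib.MP_8d00da_gt.h42r.ADefs
import Pool.Agent.Lib.MP_8d00da_gt.h42t.TA2
import Pool.Agent.Lib.MP_8d00da_gt.h42t.TE1

/-!
# Bodies: the midpoint inequality
-/

namespace Pool.Agent.Lib.MP_8d00da_gt.h42t

open MeasureTheory Set Filter
open Pool.Agent.Lib.MP_8d00da_gt.h25 Pool.Agent.Lib.MP_8d00da_gt.h42
open Pool.Agent.Lib.MP_8d00da_gt.h42s Pool.Agent.Lib.MP_8d00da_gt.h42o
open Pool.Agent.Lib.MP_8d00da_gt.h97r Pool.Agent.Lib.MP_8d00da_gt.h42r
open scoped Topology NNReal ENNReal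

set_option linter.unusedSectionVars false

variable {F : Type*} [NormedAddCommGroup F] [InnerProductSpace ℝ F]
    [FiniteDimensional ℝ F] [MeasurableSpace F] [BorelSpace F]

variable {G : Type*} [NormedAddCommGroup G] [InnerProductSpace ℝ G]
    [FiniteDimensional ℝ G] [MeasurableSpace G] [BorelSpace G]

variable {ι : Type*} [Fintype ι]

variable {q : ℕ}

private theorem te2_one {V : F → ℝ} {L : ℝ} {x : F} (h : V x < L) : ib V L x = 1 := by
  unfold ib
  exact Set.indicator_of_mem (s := {x | V x < L}) h _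

private theorem te2_pos {V : F → ℝ} {L : ℝ} {x : F} (h : 0 < ib V L x) : V x < L := by
  by_contra hx
  have h0 : ib V L x = 0 := by
    unfold ib
    exact Set.indicator_of_notMem (s := {x | V x < L}) hx _
  rw [h0] at h
  exact lt_irrefl _ h

private theorem te2_le_one (V : F → ℝ) (L : ℝ) (x : F) : ib V L x ≤ 1 := by
  by_cases h : V x < L
  · exact (te2_one h).le
  · unfold ib
    rw [Set.indicator_of_notMem (s := {x | V x < L}) h]
    exact zero_le_one

private theorem te2_hm_one {V : F → ℝ} {L : ℝ} {y : F} {s : Fin q → F}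
    (h0 : V (y - ∑ i, s i) < L) (h1 : ∀ i, V (s i) < L) : hm (ib V L) y s = 1 := by
  unfold hm
  rw [te2_one h0, one_mul]
  exact Finset.prod_eq_one fun i _ => te2_one (h1 i)

private theorem te2_pts {V : F → ℝ} {L : ℝ} {x y u : F} {s v : Fin q → F}
    (hp : 0 < (ib V L (x + u) * hm (ib V L) (y - u) (s + v)) *
      (ib V L (x - u) * hm (ib V L) (y + u) (s - v))) :
    (V (x + u) < L ∧ V (x - u) < L) ∧
      (V ((y - ∑ i, s i) + (-u - ∑ i, v i)) < L ∧ V ((y - ∑ i, s i) - (-u - ∑ i, v i)) < L) ∧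
      ∀ i, V (s i + v i) < L ∧ V (s i - v i) < L := by
  have n1 : 0 ≤ ib V L (x + u) := ib_nonneg V L _
  have n2 : 0 ≤ hm (ib V L) (y - u) (s + v) := hm_nonneg (ib_nonneg V L) _ _
  have n3 : 0 ≤ ib V L (x - u) := ib_nonneg V L _
  have n4 : 0 ≤ hm (ib V L) (y + u) (s - v) := hm_nonneg (ib_nonneg V L) _ _
  have p1 : 0 < ib V L (x + u) := by
    refine lt_of_le_of_ne n1 fun h => ?_
    rw [← h, zero_mul, zero_mul] at hp
    exact lt_irrefl _ hp
  have p2 : 0 < hm (ib V L) (y - u) (s + v) := by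
    refine lt_of_le_of_ne n2 fun h => ?_
    rw [← h, mul_zero, zero_mul] at hp
    exact lt_irrefl _ hp
  have p3 : 0 < ib V L (x - u) := by
    refine lt_of_le_of_ne n3 fun h => ?_
    rw [← h, zero_mul, mul_zero] at hp
    exact lt_irrefl _ hp
  have p4 : 0 < hm (ib V L) (y + u) (s - v) := by
    refine lt_of_le_of_ne n4 fun h => ?_
    rw [← h, mul_zero, mul_zero] at hp
    exact lt_irrefl _ hp
  obtain ⟨a1, a2⟩ := hm_pos (ib_nonneg V L) p2
  obtain ⟨b1, b2⟩ := hm_pos (ib_nonneg V L) p4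
  refine ⟨⟨te2_pos p1, te2_pos p3⟩, ⟨?_, ?_⟩, fun i => ⟨te2_pos (a2 i), te2_pos (b2 i)⟩⟩
  · have e : (y - ∑ i, s i) + (-u - ∑ i, v i) = y - u - ∑ i, (s + v) i := by
      simp only [Pi.add_apply, Finset.sum_add_distrib]
      abel
    rw [e]
    exact te2_pos a1
  · have e : (y - ∑ i, s i) - (-u - ∑ i, v i) = y + u - ∑ i, (s - v) i := by
      simp only [Pi.sub_apply, Finset.sum_sub_distrib]
      abel
    rw [e]
    exact te2_pos b1

private theorem te2_mid {V : F → ℝ} (hV : ConvexOn ℝ univ V) {L : ℝ} {x u : F}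
    (h1 : V (x + u) < L) (h2 : V (x - u) < L) : V x < L := by
  have := sd_nonneg hV x u
  unfold sd at this
  linarith

private theorem te2_pp {V : F → ℝ} {L : ℝ} {x : F} (h : V x < L) : pp V L x = L - V x := by
  show max (L - V x) 0 = L - V x
  exact max_eq_left (by linarith)

private theorem te2_cs {a b c d : ℝ} (ha : 0 ≤ a) (hb : 0 ≤ b) (hc : 0 ≤ c) (hd : 0 ≤ d) :
    ((√(a * b) + √(c * d)) / 2) ^ 2 ≤ ((a + c) / 2) * ((b + d) / 2) := by
  have h1 : √(a * b) ^ 2 = a * b := Real.sq_sqrt (mul_nonneg ha hb)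
  have h2 : √(c * d) ^ 2 = c * d := Real.sq_sqrt (mul_nonneg hc hd)
  have h3 : √(a * b) * √(c * d) = √(a * d) * √(c * b) := by
    rw [← Real.sqrt_mul (mul_nonneg ha hb), ← Real.sqrt_mul (mul_nonneg ha hd)]
    congr 1
    ring
  have h4 : √(a * d) ^ 2 = a * d := Real.sq_sqrt (mul_nonneg ha hd)
  have h5 : √(c * b) ^ 2 = c * b := Real.sq_sqrt (mul_nonneg hc hb)
  nlinarith [sq_nonneg (√(a * d) - √(c * b))]

private theorem te2_TT0 {P : ι → F →L[ℝ] G} {ω : ι → F → ℝ} {κ r : ℝ} (hκ : 0 ≤ κ) (y : F)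
    (s : Fin q → F) (u : F) : 0 ≤ TT P ω κ r y s u := by
  unfold TT
  exact le_max_of_le_right (by positivity)

private theorem te2_fin {C T T0 : ℝ} (hC : 0 < C) (hT0 : 0 ≤ T0) (hT : T0 ≤ T) :
    C - T ≤ C ^ 2 / (C + T0) := by
  rw [le_div_iff₀ (by linarith)]
  nlinarith

/-- Bodies. `h = ib V L`, `A = pp V L = max (L - V) 0`, `m = q + 1`.
All values of `h` are `0` or `1`; if the product on the left is not zero, all the `2 (q+2)` points
`x ± u`, `y_0 ∓ (u + ∑ v)`, `s i ± v i` are in `{V < L}`, and so are their midpoints (convexity: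
`sd V ≥ 0`), which gives `mid1`. `mid2`: `√(a b) + √(c d) ≤ √((a + c) (b + d))`, so
`((φ+ + φ-)/2)² ≤ (A(x+u) + A(x-u))/2 · (cm+ + cm-)/2`, the first factor is
`L - V x - sd V x u/2 ≤ A x`, the second one is `C - T`, `C = cm A y s`,
`T = (1/(2m)) (sd V y_0 (-u - ∑ v) + ∑ sd V (s i) (v i))` (`sd V x (-u) = sd V x u`), and
`T ≥ T₀ = TT P (ω/(2m)) (κ/(2m)) r y s u` by `tt_le`, `tt_scale`; `C - T ≤ C - T₀ ≤ C²/(C + T₀)`
(`C > 0`, `T₀ ≥ 0`; multiply out). -/
theorem pd_body {V : F → ℝ} (hV : ConvexOn ℝ univ V) (hVc : Continuous V) {L : ℝ}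
    (hbd : Bornology.IsBounded {x | V x < L}) {κ r : ℝ} (hκ : 0 < κ) (hr : 0 < r)
    (hs : ∀ x u, κ * ‖u‖ ^ 2 ≤ sd V x u) {P : ι → F →L[ℝ] G} {ω : ι → F → ℝ}
    (hωm : ∀ j, Measurable (ω j)) (hω0 : ∀ j x, 0 ≤ ω j x) (hωp : ∀ j x, V x < L → 0 < ω j x)
    (hωi : ∀ j, Integrable fun x => ib V L x * ω j x)
    (hlow : ∀ x u, ‖u‖ ≤ r → ∑ j, ω j x * ‖P j u‖ ^ 2 ≤ sd V x u) :
    ∃ Ab : ℝ, PD q (ib V L) (pp V L) P (fun j x => ω j x / (2 * ((q : ℝ) + 1)))
      (κ / (2 * ((q : ℝ) + 1))) r 1 Ab := by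
  have hq : (0 : ℝ) < (q : ℝ) + 1 := by positivity
  have hq2 : (0 : ℝ) < 2 * ((q : ℝ) + 1) := by positivity
  have hcomp : IsCompact (closure {x | V x < L}) := hbd.isCompact_closure
  obtain ⟨M, hM⟩ := (hcomp.image (pp_cont hVc L)).bddAbove
  have hA : ∀ x, pp V L x ≤ max M 0 := by
    intro x
    by_cases hx : V x < L
    · exact le_max_of_le_left (hM ⟨x, subset_closure hx, rfl⟩)
    · show max (L - V x) 0 ≤ max M 0
      exact max_le (le_max_of_le_right (by linarith [not_lt.1 hx])) (le_max_right _ _)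
  refine ⟨max M 0,
    { κpos := by positivity
      rpos := hr
      meas := ib_meas hVc L
      h0 := ib_nonneg V L
      hb := te2_le_one V L
      hi := ?_
      Am := (pp_cont hVc L).measurable
      A0 := pp_nonneg V L
      Ab := hA
      Apos := fun x hx => by
        rw [te2_pp (te2_pos hx)]
        linarith [te2_pos hx]
      ωm := fun j => (hωm j).div_const _
      ω0 := fun j x => div_nonneg (hω0 j x) hq2.le
      ωpos := fun j x hx => div_pos (hωp j x (te2_pos hx)) hq2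
      ωi := fun j => ?_
      mid1 := ?_
      mid2 := ?_ }⟩
  · unfold ib
    refine IntegrableOn.integrable_indicator ?_ (isOpen_lt hVc continuous_const).measurableSet
    exact integrableOn_const (hbd.measure_lt_top).ne
  · have h1 := (hωi j).div_const (2 * ((q : ℝ) + 1))
    refine h1.congr (Filter.Eventually.of_forall fun x => ?_)
    show ib V L x * ω j x / (2 * ((q : ℝ) + 1)) = ib V L x * (ω j x / (2 * ((q : ℝ) + 1)))
    ring
  · intro x y u s v
    rcases le_or_gt ((ib V L (x + u) * hm (ib V L) (y - u) (s + v)) *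
      (ib V L (x - u) * hm (ib V L) (y + u) (s - v))) 0 with hp | hp
    · exact hp.trans (sq_nonneg _)
    · obtain ⟨⟨h1, h2⟩, ⟨h3, h4⟩, h5⟩ := te2_pts hp
      rw [te2_one (te2_mid hV h1 h2), te2_hm_one (te2_mid hV h3 h4)
        (fun i => te2_mid hV (h5 i).1 (h5 i).2)]
      have k1 : hm (ib V L) (y - u) (s + v) ≤ 1 := by
        refine (hm_le (ib_nonneg V L) (te2_le_one V L) _ _).trans ?_
        rw [one_mul]
        exact Finset.prod_le_one (fun i _ => ib_nonneg V L _) fun i _ => te2_le_one V L _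
      have k2 : hm (ib V L) (y + u) (s - v) ≤ 1 := by
        refine (hm_le (ib_nonneg V L) (te2_le_one V L) _ _).trans ?_
        rw [one_mul]
        exact Finset.prod_le_one (fun i _ => ib_nonneg V L _) fun i _ => te2_le_one V L _
      have n2 : 0 ≤ hm (ib V L) (y - u) (s + v) := hm_nonneg (ib_nonneg V L) _ _
      have n4 : 0 ≤ hm (ib V L) (y + u) (s - v) := hm_nonneg (ib_nonneg V L) _ _
      rw [te2_one h1, te2_one h2]
      nlinarith
  · intro x y u s v
    have hAn : 0 ≤ pp V L x := pp_nonneg V L x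
    have hCn : 0 ≤ cm (pp V L) y s := cm_nonneg (pp_nonneg V L) y s
    have hT0 : 0 ≤ TT P (fun j x => ω j x / (2 * ((q : ℝ) + 1))) (κ / (2 * ((q : ℝ) + 1))) r y s u :=
      te2_TT0 (by positivity) y s u
    rcases le_or_gt ((ib V L (x + u) * hm (ib V L) (y - u) (s + v)) *
      (ib V L (x - u) * hm (ib V L) (y + u) (s - v))) 0 with hp | hp
    · rw [Real.sqrt_eq_zero_of_nonpos hp, zero_mul]
      have n1 : 0 ≤ ib V L x * hm (ib V L) y s :=
        mul_nonneg (ib_nonneg V L x) (hm_nonneg (ib_nonneg V L) _ _)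
      exact mul_nonneg n1 (mul_nonneg hAn (div_nonneg (sq_nonneg _) (add_nonneg hCn hT0)))
    · obtain ⟨⟨h1, h2⟩, ⟨h3, h4⟩, h5⟩ := te2_pts hp
      have m1 : V x < L := te2_mid hV h1 h2
      have m3 : V (y - ∑ i, s i) < L := te2_mid hV h3 h4
      have m5 : ∀ i, V (s i) < L := fun i => te2_mid hV (h5 i).1 (h5 i).2
      have e1 : y - u - ∑ i, (s + v) i = (y - ∑ i, s i) + (-u - ∑ i, v i) := by
        simp only [Pi.add_apply, Finset.sum_add_distrib]
        abel
      have e2 : y + u - ∑ i, (s - v) i = (y - ∑ i, s i) - (-u - ∑ i, v i) := by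
        simp only [Pi.sub_apply, Finset.sum_sub_distrib]
        abel
      have hm1 : hm (ib V L) (y - u) (s + v) = 1 :=
        te2_hm_one (by rw [e1]; exact h3) fun i => (h5 i).1
      have hm2 : hm (ib V L) (y + u) (s - v) = 1 :=
        te2_hm_one (by rw [e2]; exact h4) fun i => (h5 i).2
      rw [te2_one h1, te2_one h2, hm1, hm2, te2_one m1, te2_hm_one m3 m5]
      simp only [one_mul, Real.sqrt_one]
      refine (te2_cs (pp_nonneg V L _) (cm_nonneg (pp_nonneg V L) _ _) (pp_nonneg V L _)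
        (cm_nonneg (pp_nonneg V L) _ _)).trans ?_
      have hx : (pp V L (x + u) + pp V L (x - u)) / 2 ≤ pp V L x := by
        rw [te2_pp h1, te2_pp h2, te2_pp m1]
        have := sd_nonneg hV x u
        unfold sd at this
        linarith
      obtain ⟨T, hT⟩ : ∃ T, T = (sd V (y - ∑ i, s i) (-u - ∑ i, v i) + ∑ i, sd V (s i) (v i)) /
          (2 * ((q : ℝ) + 1)) := ⟨_, rfl⟩
      have hTT : TT P (fun j x => ω j x / (2 * ((q : ℝ) + 1))) (κ / (2 * ((q : ℝ) + 1))) r y s u ≤
          T := by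
        rw [tt_scale hq2, hT]
        refine div_le_div_of_nonneg_right ?_ hq2.le
        exact tt_le hκ.le hr.le (L := sd V) (fun j => hωp j _ m3) (fun j i => hωp j _ (m5 i))
          (fun v => hs _ v) (fun i v => hs _ v) (fun v hv => hlow _ v hv)
          (fun i v hv => hlow _ v hv) u v
      have hC0 : 0 < cm (pp V L) y s := by
        refine cm_pos (ib_nonneg V L) (pp_nonneg V L) (fun x hx => ?_)
          (y := y) (s := s) (by rw [te2_hm_one m3 m5]; exact one_pos)
        rw [te2_pp (te2_pos hx)]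
        linarith [te2_pos hx]
      have hcm : (cm (pp V L) (y - u) (s + v) + cm (pp V L) (y + u) (s - v)) / 2 =
          cm (pp V L) y s - T := by
        have k1 : cm (pp V L) (y - u) (s + v) =
            ((L - V ((y - ∑ i, s i) + (-u - ∑ i, v i))) + ∑ i, (L - V (s i + v i))) / (q + 1) := by
          unfold cm
          rw [e1, te2_pp h3]
          congr 2
          exact Finset.sum_congr rfl fun i _ => te2_pp (h5 i).1
        have k2 : cm (pp V L) (y + u) (s - v) =
            ((L - V ((y - ∑ i, s i) - (-u - ∑ i, v i))) + ∑ i, (L - V (s i - v i))) / (q + 1) := by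
          unfold cm
          rw [e2, te2_pp h4]
          congr 2
          exact Finset.sum_congr rfl fun i _ => te2_pp (h5 i).2
        have k3 : cm (pp V L) y s =
            ((L - V (y - ∑ i, s i)) + ∑ i, (L - V (s i))) / (q + 1) := by
          unfold cm
          rw [te2_pp m3]
          congr 2
          exact Finset.sum_congr rfl fun i _ => te2_pp (m5 i)
        have k4 : ∑ i, sd V (s i) (v i) = 2 * ∑ i, (L - V (s i)) - ∑ i, (L - V (s i + v i)) -
            ∑ i, (L - V (s i - v i)) := by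
          rw [Finset.mul_sum, ← Finset.sum_sub_distrib, ← Finset.sum_sub_distrib]
          refine Finset.sum_congr rfl fun i _ => ?_
          unfold sd
          ring
        rw [k1, k2, k3, hT, k4]
        unfold sd
        field_simp
        ring
      have hCT : 0 ≤ cm (pp V L) y s - T := by
        rw [← hcm]
        have := cm_nonneg (pp_nonneg V L) (y - u) (s + v)
        have := cm_nonneg (pp_nonneg V L) (y + u) (s - v)
        positivity
      rw [hcm]
      exact (mul_le_mul_of_nonneg_right hx hCT).trans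
        (mul_le_mul_of_nonneg_left (te2_fin hC0 hT0 hTT) hAn)

end Pool.Agent.Lib.MP_8d00da_gt.h42t
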