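import Mathlib
import Pool.Agent.Lib.MP_8d00da_gt.h42t.TA3
import Pool.Agent.Lib.MP_8d00da_gt.h42t.TA4

namespace Pool.Agent.Lib.MP_8d00da_gt.h42r
end Pool.Agent.Lib.MP_8d00da_gt.h42r


/-!
# Marginals of the fibre weight
-/

namespace Pool.Agent.Lib.MP_8d00da_gt.h42t

open MeasureTheory Set Filter
open Pool.Agent.Lib.MP_8d00da_gt.h25 Pool.Agent.Lib.MP_8d00da_gt.h42
open Pool.Agent.Lib.MP_8d00da_gt.h42s Pool.Agent.Lib.MP_8d00da_gt.h42o
open Pool.Agent.Lib.MP_8d00da_gt.h97r Pool.Agent.Lib.MP_8d00da_gt.h42r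
open scoped Topology NNReal ENNReal

set_option linter.unusedSectionVars false

variable {F : Type*} [NormedAddCommGroup F] [InnerProductSpace ℝ F]
    [FiniteDimensional ℝ F] [MeasurableSpace F] [BorelSpace F]

variable {G : Type*} [NormedAddCommGroup G] [InnerProductSpace ℝ G]
    [FiniteDimensional ℝ G] [MeasurableSpace G] [BorelSpace G]

variable {ι : Type*} [Fintype ι]

variable {q : ℕ}

private theorem tf1_hm_insert (h : F → ℝ) (y : F) (i : Fin (q + 1)) (s : Fin (q + 1) → F) :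
    hm h y s = h (s i) * hm h (y - s i) (fun j => s (i.succAbove j)) := by
  unfold hm
  rw [Fin.sum_univ_succAbove (fun k => s k) i, Fin.prod_univ_succAbove (fun k => h (s k)) i,
    sub_sub]
  ring

private theorem tf1_hm_meas {h : F → ℝ} (hh : Measurable h) (y : F) :
    Measurable fun s : Fin q → F => hm h y s :=
  (hm_meas hh).comp (measurable_const.prodMk measurable_id)

private theorem tf1_wy_meas {h : F → ℝ} (hh : Measurable h) (y : F) : Measurable (wy q h y) := by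
  unfold wy
  exact hh.mul ((P0_meas hh).comp (measurable_const.sub measurable_id))

private theorem tf1_wy_nonneg {h : F → ℝ} (h0 : ∀ x, 0 ≤ h x) (y x : F) : 0 ≤ wy q h y x :=
  mul_nonneg (h0 x) (P0_nonneg h0 _)

/-- For `s : Fin (q+1) → F` and a measurable function `φ ≥ 0`:
`∫⁻_s φ (s i) hm h y s = ∫⁻_x φ x wy q h y x` (`MeasurableEquiv.piFinSuccAbove _ i`: the other
coordinates `s'` satisfy `y - ∑ s = (y - x) - ∑ s'`). -/
theorem marg_lint {h : F → ℝ} (hh : Measurable h) (h0 : ∀ x, 0 ≤ h x) {Hb : ℝ}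
    (hb : ∀ x, h x ≤ Hb) (hi : Integrable h) {φ : F → ℝ} (hφ : Measurable φ) (φ0 : ∀ x, 0 ≤ φ x)
    (y : F) (i : Fin (q + 1)) :
    ∫⁻ s : Fin (q + 1) → F, ENNReal.ofReal (φ (s i) * hm h y s) =
      ∫⁻ x, ENNReal.ofReal (φ x * wy q h y x) := by
  have hmp := volume_preserving_piFinSuccAbove (fun _ : Fin (q + 1) => F) i
  obtain ⟨g, hg⟩ : ∃ g : F × (Fin q → F) → ℝ≥0∞, g = fun p =>
      ENNReal.ofReal (φ p.1 * h p.1) * ENNReal.ofReal (hm h (y - p.1) p.2) := ⟨_, rfl⟩
  have hgm : Measurable g := by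
    rw [hg]
    have h1 : Measurable fun p : F × (Fin q → F) => hm h (y - p.1) p.2 :=
      (hm_meas hh).comp ((measurable_const.sub measurable_fst).prodMk measurable_snd)
    exact (((hφ.comp measurable_fst).mul (hh.comp measurable_fst)).ennreal_ofReal).mul
      h1.ennreal_ofReal
  have h1 : ∀ s : Fin (q + 1) → F, ENNReal.ofReal (φ (s i) * hm h y s) =
      g (MeasurableEquiv.piFinSuccAbove (fun _ : Fin (q + 1) => F) i s) := by
    intro s
    rw [hg, tf1_hm_insert h y i s, ← mul_assoc, ENNReal.ofReal_mul (mul_nonneg (φ0 _) (h0 _))]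
    rfl
  rw [lintegral_congr h1, hmp.lintegral_comp hgm]
  rw [show (volume : Measure (F × (Fin q → F))) = (volume : Measure F).prod volume from rfl,
    lintegral_prod _ hgm.aemeasurable]
  refine lintegral_congr fun x => ?_
  rw [hg]
  show ∫⁻ s : Fin q → F, ENNReal.ofReal (φ x * h x) * ENNReal.ofReal (hm h (y - x) s) = _
  rw [lintegral_const_mul _ (tf1_hm_meas hh _).ennreal_ofReal,
    ← ofReal_integral_eq_lintegral_ofReal (hm_int hh h0 hb hi _)
      (ae_of_all _ fun s => hm_nonneg h0 _ s),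
    ← ENNReal.ofReal_mul (mul_nonneg (φ0 _) (h0 _))]
  unfold wy P0
  rw [mul_assoc]

/-- The real version. -/
theorem marg_int {h : F → ℝ} (hh : Measurable h) (h0 : ∀ x, 0 ≤ h x) {Hb : ℝ}
    (hb : ∀ x, h x ≤ Hb) (hi : Integrable h) {φ : F → ℝ} (hφ : Measurable φ) (φ0 : ∀ x, 0 ≤ φ x)
    (y : F) (hφi : Integrable fun x => φ x * wy q h y x) (i : Fin (q + 1)) :
    (Integrable fun s : Fin (q + 1) → F => φ (s i) * hm h y s) ∧
      ∫ s : Fin (q + 1) → F, φ (s i) * hm h y s = ∫ x, φ x * wy q h y x := by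
  have hm1 : Measurable fun s : Fin (q + 1) → F => φ (s i) * hm h y s :=
    (hφ.comp (measurable_pi_apply i)).mul (tf1_hm_meas hh y)
  have hn1 : ∀ s : Fin (q + 1) → F, 0 ≤ φ (s i) * hm h y s := fun s =>
    mul_nonneg (φ0 _) (hm_nonneg h0 y s)
  have hn2 : ∀ x, 0 ≤ φ x * wy q h y x := fun x => mul_nonneg (φ0 _) (tf1_wy_nonneg h0 y x)
  have hl := marg_lint hh h0 hb hi hφ φ0 y i
  refine ⟨?_, ?_⟩
  · rw [← lintegral_ofReal_ne_top_iff_integrable hm1.aestronglyMeasurable (ae_of_all _ hn1), hl,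
      lintegral_ofReal_ne_top_iff_integrable hφi.aestronglyMeasurable (ae_of_all _ hn2)]
    exact hφi
  · rw [integral_eq_lintegral_of_nonneg_ae (ae_of_all _ hn1) hm1.aestronglyMeasurable, hl,
      ← integral_eq_lintegral_of_nonneg_ae (ae_of_all _ hn2) hφi.aestronglyMeasurable]

/-- The same for the remaining point `y - ∑ s` (`swap_mp`, `swap_sum`, `hm_swap` with `i = 0`). -/
theorem marg_int0 {h : F → ℝ} (hh : Measurable h) (h0 : ∀ x, 0 ≤ h x) {Hb : ℝ}
    (hb : ∀ x, h x ≤ Hb) (hi : Integrable h) {φ : F → ℝ} (hφ : Measurable φ) (φ0 : ∀ x, 0 ≤ φ x)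
    (y : F) (hφi : Integrable fun x => φ x * wy q h y x) :
    (Integrable fun s : Fin (q + 1) → F => φ (y - ∑ k, s k) * hm h y s) ∧
      ∫ s : Fin (q + 1) → F, φ (y - ∑ k, s k) * hm h y s = ∫ x, φ x * wy q h y x := by
  obtain ⟨h1, h2⟩ := marg_int hh h0 hb hi hφ φ0 y hφi (0 : Fin (q + 1))
  have hmp := swap_mp (q := q + 1) y 0
  have hfun : (fun s : Fin (q + 1) → F => φ (y - ∑ k, s k) * hm h y s) =
      (fun s : Fin (q + 1) → F => φ (s 0) * hm h y s) ∘
        (fun s : Fin (q + 1) → F => Function.update s 0 (y - ∑ k, s k)) := by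
    funext s
    simp only [Function.comp_apply, Function.update_self]
    rw [hm_swap]
  have hm1 : AEStronglyMeasurable (fun s : Fin (q + 1) → F => φ (s 0) * hm h y s)
      (Measure.map (fun s : Fin (q + 1) → F => Function.update s 0 (y - ∑ k, s k)) volume) := by
    rw [hmp.map_eq]
    exact h1.aestronglyMeasurable
  refine ⟨?_, ?_⟩
  · rw [hfun]
    exact (hmp.integrable_comp h1.aestronglyMeasurable).2 h1
  · rw [← h2, hfun]
    have h3 := integral_map hmp.measurable.aemeasurable hm1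
    rw [hmp.map_eq] at h3
    exact h3.symm

/-- `∫ wy = P0 (q+1)`. -/
theorem wy_int {h : F → ℝ} (hh : Measurable h) (h0 : ∀ x, 0 ≤ h x) {Hb : ℝ}
    (hb : ∀ x, h x ≤ Hb) (hi : Integrable h) (y : F) :
    (Integrable (wy q h y)) ∧ ∫ x, wy q h y x = P0 (q + 1) h y := by
  have h1 := marg_lint (φ := fun _ => (1 : ℝ)) hh h0 hb hi measurable_const
    (fun _ => zero_le_one) y (0 : Fin (q + 1))
  simp only [one_mul] at h1
  have hI := hm_int (q := q + 1) hh h0 hb hi y
  have hn1 : ∀ s : Fin (q + 1) → F, 0 ≤ hm h y s := fun s => hm_nonneg h0 y s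
  have hn2 : ∀ x, 0 ≤ wy q h y x := fun x => tf1_wy_nonneg h0 y x
  refine ⟨?_, ?_⟩
  · rw [← lintegral_ofReal_ne_top_iff_integrable (tf1_wy_meas hh y).aestronglyMeasurable
      (ae_of_all _ hn2), ← h1,
      lintegral_ofReal_ne_top_iff_integrable hI.aestronglyMeasurable (ae_of_all _ hn1)]
    exact hI
  · unfold P0
    rw [integral_eq_lintegral_of_nonneg_ae (ae_of_all _ hn2)
      (tf1_wy_meas hh y).aestronglyMeasurable, ← h1,
      ← integral_eq_lintegral_of_nonneg_ae (ae_of_all _ hn1) hI.aestronglyMeasurable]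

/-- `P2 (q+1) = ∫ A wy`: `cm` is the mean of `q + 2` terms with equal integrals. -/
theorem P2_marg {h A : F → ℝ} (hh : Measurable h) (h0 : ∀ x, 0 ≤ h x) {Hb : ℝ}
    (hb : ∀ x, h x ≤ Hb) (hi : Integrable h) (hA : Measurable A) (A0 : ∀ x, 0 ≤ A x) {Ab : ℝ}
    (hAb : ∀ x, A x ≤ Ab) (y : F) : P2 (q + 1) h A y = ∫ x, A x * wy q h y x := by
  have hwi := (wy_int hh h0 hb hi y (q := q)).1
  have hAi : Integrable fun x => A x * wy q h y x := by
    refine (hwi.const_mul Ab).mono' (hA.mul (tf1_wy_meas hh y)).aestronglyMeasurable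
      (ae_of_all _ fun x => ?_)
    rw [Real.norm_of_nonneg (mul_nonneg (A0 x) (tf1_wy_nonneg h0 y x))]
    exact mul_le_mul_of_nonneg_right (hAb x) (tf1_wy_nonneg h0 y x)
  obtain ⟨i0, e0⟩ := marg_int0 hh h0 hb hi hA A0 y hAi
  have h1 : ∀ i : Fin (q + 1), (Integrable fun s : Fin (q + 1) → F => A (s i) * hm h y s) ∧
      ∫ s : Fin (q + 1) → F, A (s i) * hm h y s = ∫ x, A x * wy q h y x := fun i =>
    marg_int hh h0 hb hi hA A0 y hAi i
  have h2 : ∀ s : Fin (q + 1) → F, hm h y s * cm A y s =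
      (A (y - ∑ k, s k) * hm h y s + ∑ i, A (s i) * hm h y s) / ((q : ℝ) + 2) := by
    intro s
    unfold cm
    rw [← Finset.sum_mul]
    push_cast
    ring
  unfold P2
  rw [integral_congr_ae (ae_of_all _ h2), integral_div,
    integral_add i0 (integrable_finsetSum _ fun i _ => (h1 i).1), e0,
    integral_finsetSum _ fun i _ => (h1 i).1]
  rw [Finset.sum_congr rfl fun i _ => (h1 i).2, Finset.sum_const, Finset.card_univ,
    Fintype.card_fin, nsmul_eq_mul]
  have h3 : (q : ℝ) + 2 ≠ 0 := by positivity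
  field_simp
  push_cast
  ring

end Pool.Agent.Lib.MP_8d00da_gt.h42t
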