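import Mathlib
import Pool.Agent.Lib.MP_8d00da_gt.h42.Tail
import Pool.Agent.Lib.MP_8d00da_gt.h42t.TA3

namespace Pool.Agent.Lib.MP_8d00da_gt.h42r
end Pool.Agent.Lib.MP_8d00da_gt.h42r


/-!
# Log-concave weights with all moments
-/

namespace Pool.Agent.Lib.MP_8d00da_gt.h42t

open MeasureTheory Set Filter
open Pool.Agent.Lib.MP_8d00da_gt.h25 Pool.Agent.Lib.MP_8d00da_gt.h42
open Pool.Agent.Lib.MP_8d00da_gt.h42s Pool.Agent.Lib.MP_8d00da_gt.h42o
open Pool.Agent.Lib.MP_8d00da_gt.h97r Pool.Agent.Lib.MP_8d00da_gt.h42r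
open scoped Topology NNReal ENNReal

set_option linter.unusedSectionVars false

variable {F : Type*} [NormedAddCommGroup F] [InnerProductSpace ℝ F]
    [FiniteDimensional ℝ F] [MeasurableSpace F] [BorelSpace F]

variable {G : Type*} [NormedAddCommGroup G] [InnerProductSpace ℝ G]
    [FiniteDimensional ℝ G] [MeasurableSpace G] [BorelSpace G]

variable {ι : Type*} [Fintype ι]

/-- Bounded log-concave weights with all moments. -/
structure LCD (h : F → ℝ) : Prop where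
  meas : Measurable h
  h0 : ∀ x, 0 ≤ h x
  lc : LogConc h
  hb : ∃ B : ℝ, ∀ x, h x ≤ B
  mom : ∀ k : ℕ, Integrable fun x => ‖x‖ ^ k * h x

theorem LCD.int {h : F → ℝ} (H : LCD h) : Integrable h := by
  have := H.mom 0
  simpa using this

/-- `‖P x - b‖^t ≤ C (1 + ‖x‖^k)` for `0 ≤ t ≤ k`. -/
theorem LCD.pow_int {h : F → ℝ} (H : LCD h) (P : F →L[ℝ] G) (b : G) {t : ℝ} (ht : 0 ≤ t) :
    Integrable fun x => ‖P x - b‖ ^ t * h x := by
  obtain ⟨k, hk⟩ := exists_nat_ge t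
  have hkr : t ≤ (k : ℝ) := hk
  -- the integrable bound
  have hI : Integrable fun x => 2 ^ k * ((1 + ‖b‖ ^ k) * h x + ‖P‖ ^ k * (‖x‖ ^ k * h x)) :=
    ((H.int.const_mul _).add ((H.mom k).const_mul _)).const_mul _
  have hmeas : Measurable fun x => ‖P x - b‖ ^ t * h x :=
    ((P.continuous.measurable.sub_const b).norm.pow_const t).mul H.meas
  refine hI.mono' hmeas.aestronglyMeasurable (Eventually.of_forall fun x => ?_)
  have hx0 := H.h0 x
  rw [Real.norm_of_nonneg (mul_nonneg (Real.rpow_nonneg (norm_nonneg _) _) hx0)]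
  set m : ℝ := ‖P x - b‖ with hm
  have hm0 : 0 ≤ m := norm_nonneg _
  have hmle : m ≤ ‖P‖ * ‖x‖ + ‖b‖ := (norm_sub_le _ _).trans (by gcongr; exact P.le_opNorm x)
  have h1 : m ^ t ≤ 1 + m ^ k := by
    rcases le_total m 1 with h | h
    · have h2 : m ^ t ≤ 1 := Real.rpow_le_one hm0 h ht
      have h3 : 0 ≤ m ^ k := pow_nonneg hm0 k
      linarith
    · have h2 : m ^ t ≤ m ^ (k : ℝ) := Real.rpow_le_rpow_of_exponent_le h hkr
      rw [Real.rpow_natCast] at h2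
      linarith
  have hPx : 0 ≤ ‖P‖ * ‖x‖ := by positivity
  have h2 : m ^ k ≤ 2 ^ k * ((‖P‖ * ‖x‖) ^ k + ‖b‖ ^ k) := by
    have h3 : m ≤ 2 * max (‖P‖ * ‖x‖) ‖b‖ := by
      have := le_max_left (‖P‖ * ‖x‖) ‖b‖
      have := le_max_right (‖P‖ * ‖x‖) ‖b‖
      linarith
    have h4 : (max (‖P‖ * ‖x‖) ‖b‖) ^ k ≤ (‖P‖ * ‖x‖) ^ k + ‖b‖ ^ k := by
      rcases max_cases (‖P‖ * ‖x‖) ‖b‖ with ⟨h, -⟩ | ⟨h, -⟩
      · rw [h]
        have : 0 ≤ ‖b‖ ^ k := by positivity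
        linarith
      · rw [h]
        have : 0 ≤ (‖P‖ * ‖x‖) ^ k := by positivity
        linarith
    calc m ^ k ≤ (2 * max (‖P‖ * ‖x‖) ‖b‖) ^ k := pow_le_pow_left₀ hm0 h3 k
      _ = 2 ^ k * (max (‖P‖ * ‖x‖) ‖b‖) ^ k := mul_pow _ _ _
      _ ≤ _ := by gcongr
  have h2k : (1 : ℝ) ≤ 2 ^ k := one_le_pow₀ (by norm_num)
  have h5 : m ^ t ≤ 2 ^ k * ((1 + ‖b‖ ^ k) + ‖P‖ ^ k * ‖x‖ ^ k) := by
    rw [mul_pow] at h2
    nlinarith [h1, h2]
  calc m ^ t * h x ≤ (2 ^ k * ((1 + ‖b‖ ^ k) + ‖P‖ ^ k * ‖x‖ ^ k)) * h x :=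
        mul_le_mul_of_nonneg_right h5 hx0
    _ = _ := by ring

/-- Products of log-concave inequalities. -/
private theorem tf0_gm {u v u' v' w w' a : ℝ} (hu : 0 ≤ u) (hv : 0 ≤ v) (hu' : 0 ≤ u')
    (hv' : 0 ≤ v') (hw : 0 ≤ w) (h1 : u ^ (1 - a) * v ^ a ≤ w)
    (h2 : u' ^ (1 - a) * v' ^ a ≤ w') : (u * u') ^ (1 - a) * (v * v') ^ a ≤ w * w' := by
  rw [Real.mul_rpow hu hu', Real.mul_rpow hv hv']
  calc u ^ (1 - a) * u' ^ (1 - a) * (v ^ a * v' ^ a) =
        (u ^ (1 - a) * v ^ a) * (u' ^ (1 - a) * v' ^ a) := by ring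
    _ ≤ w * w' := mul_le_mul h1 h2
        (mul_nonneg (Real.rpow_nonneg hu' _) (Real.rpow_nonneg hv' _)) hw

/-- The product with a bounded function which is concave on `{h > 0}`: log-concave by the weighted
arithmetic-geometric mean. -/
theorem LCD.mul {h A : F → ℝ} (H : LCD h) (hA : Measurable A) (A0 : ∀ x, 0 ≤ A x) {Ab : ℝ}
    (hAb : ∀ x, A x ≤ Ab) (hAC : ACon h A) : LCD fun x => h x * A x := by
  have hAb0 : 0 ≤ Ab := (A0 0).trans (hAb 0)
  refine ⟨H.meas.mul hA, fun x => mul_nonneg (H.h0 x) (A0 x), ?_, ?_, fun k => ?_⟩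
  · intro a ha0 ha1 x y
    have h1a : 0 < 1 - a := by linarith
    rcases (H.h0 x).eq_or_lt with hx | hx
    · simp only [← hx, zero_mul, Real.zero_rpow h1a.ne']
      exact mul_nonneg (H.h0 _) (A0 _)
    rcases (H.h0 y).eq_or_lt with hy | hy
    · simp only [← hy, zero_mul, Real.zero_rpow ha0.ne', mul_zero]
      exact mul_nonneg (H.h0 _) (A0 _)
    refine tf0_gm hx.le hy.le (A0 x) (A0 y) (H.h0 _) (H.lc a ha0 ha1 x y) ?_
    refine le_trans ?_ (hAC x y hx hy a ha0.le ha1.le)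
    exact Real.geom_mean_le_arith_mean2_weighted h1a.le ha0.le (A0 x) (A0 y) (by ring)
  · obtain ⟨B, hB⟩ := H.hb
    refine ⟨B * Ab, fun x => mul_le_mul (hB x) (hAb x) (A0 x) ((H.h0 x).trans (hB x))⟩
  · refine ((H.mom k).const_mul Ab).mono'
      ((measurable_norm.pow_const k).mul (H.meas.mul hA)).aestronglyMeasurable
      (Eventually.of_forall fun x => ?_)
    have h0 : 0 ≤ ‖x‖ ^ k * h x := mul_nonneg (by positivity) (H.h0 x)
    rw [Real.norm_of_nonneg (mul_nonneg (by positivity) (mul_nonneg (H.h0 x) (A0 x)))]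
    calc ‖x‖ ^ k * (h x * A x) = A x * (‖x‖ ^ k * h x) := by ring
      _ ≤ Ab * (‖x‖ ^ k * h x) := mul_le_mul_of_nonneg_right (hAb x) h0

private theorem tf0_prod {q : ℕ} {u v w : Fin q → ℝ} {a : ℝ} (hu : ∀ i, 0 ≤ u i)
    (hv : ∀ i, 0 ≤ v i) (h : ∀ i, u i ^ (1 - a) * v i ^ a ≤ w i) :
    (∏ i, u i) ^ (1 - a) * (∏ i, v i) ^ a ≤ ∏ i, w i := by
  rw [← Real.finsetProd_rpow _ _ fun i _ => hu i, ← Real.finsetProd_rpow _ _ fun i _ => hv i,
    ← Finset.prod_mul_distrib]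
  exact Finset.prod_le_prod (fun i _ => mul_nonneg (Real.rpow_nonneg (hu i) _)
    (Real.rpow_nonneg (hv i) _)) fun i _ => h i

/-- `hm h` is log-concave in both variables. -/
private theorem tf0_hm {q : ℕ} {h : F → ℝ} (h0 : ∀ x, 0 ≤ h x) (hl : LogConc h) {a : ℝ}
    (ha0 : 0 < a) (ha1 : a < 1) (y y' : F) (s s' : Fin q → F) :
    hm h y s ^ (1 - a) * hm h y' s' ^ a ≤
      hm h ((1 - a) • y + a • y') ((1 - a) • s + a • s') := by
  unfold hm
  refine tf0_gm (h0 _) (h0 _) (Finset.prod_nonneg fun i _ => h0 _)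
    (Finset.prod_nonneg fun i _ => h0 _) (h0 _) ?_ ?_
  · have e : (1 - a) • y + a • y' - ∑ i, ((1 - a) • s + a • s') i =
        (1 - a) • (y - ∑ i, s i) + a • (y' - ∑ i, s' i) := by
      simp only [Pi.add_apply, Pi.smul_apply, Finset.sum_add_distrib, ← Finset.smul_sum,
        smul_sub]
      abel
    rw [e]
    exact hl a ha0 ha1 _ _
  · exact tf0_prod (fun i => h0 _) (fun i => h0 _) fun i => hl a ha0 ha1 _ _

/-- `P0 q h` is log-concave: Prekopa-Leindler `pi_pl q`... (`TA1`; here proved with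
`hm h ((1-a) y + a y') ((1-a) s + a s') ≥ hm h y s ^ (1-a) hm h y' s' ^ a`). -/
theorem P0_lc {q : ℕ} {h : F → ℝ} (H : LCD h) (hPL : PLProp (volume : Measure (Fin q → F))) :
    LogConc (P0 q h) := by
  obtain ⟨B, hB⟩ := H.hb
  intro a ha0 ha1 y y'
  have hmy : ∀ y : F, Measurable fun s : Fin q → F => hm h y s := fun y =>
    (hm_meas (q := q) H.meas).comp measurable_prodMk_left
  exact hPL.integral ha0 ha1 (fun s => hm_nonneg H.h0 y s) (fun s => hm_nonneg H.h0 y' s)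
    (fun s => hm_nonneg H.h0 _ s) (hmy y) (hmy y') (hmy _)
    (hm_int H.meas H.h0 hB H.int y) (hm_int H.meas H.h0 hB H.int y')
    (hm_int H.meas H.h0 hB H.int _) fun s s' => tf0_hm H.h0 H.lc ha0 ha1 y y' s s'

/-- The marginal weight. -/
theorem wy_lcd {q : ℕ} {h : F → ℝ} (H : LCD h) (hPL : PLProp (volume : Measure (Fin q → F)))
    (y : F) : LCD (wy q h y) := by
  obtain ⟨B, hB⟩ := H.hb
  have hB0 : 0 ≤ B := (H.h0 0).trans (hB 0)
  have hPb : ∀ z, P0 q h z ≤ B * (∫ x, h x) ^ q := P0_le H.meas H.h0 hB H.int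
  have hP0 : ∀ z, 0 ≤ P0 q h z := P0_nonneg H.h0
  have hPm : Measurable fun x => P0 q h (y - x) :=
    (P0_meas H.meas).comp (measurable_const.sub measurable_id)
  refine ⟨H.meas.mul hPm, fun x => mul_nonneg (H.h0 x) (hP0 _), ?_, ?_, fun k => ?_⟩
  · intro a ha0 ha1 x x'
    unfold wy
    refine tf0_gm (H.h0 _) (H.h0 _) (hP0 _) (hP0 _) (H.h0 _) (H.lc a ha0 ha1 x x') ?_
    have h1 := P0_lc H hPL a ha0 ha1 (y - x) (y - x')
    have e : (1 - a) • (y - x) + a • (y - x') = y - ((1 - a) • x + a • x') := by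
      have : y = (1 - a) • y + a • y := by
        rw [← add_smul]
        simp
      conv_rhs => rw [this]
      rw [smul_sub, smul_sub]
      abel
    rwa [e] at h1
  · exact ⟨B * (B * (∫ x, h x) ^ q), fun x => mul_le_mul (hB x) (hPb _) (hP0 _) hB0⟩
  · refine ((H.mom k).const_mul (B * (∫ x, h x) ^ q)).mono'
      ((measurable_norm.pow_const k).mul (H.meas.mul hPm)).aestronglyMeasurable
      (Eventually.of_forall fun x => ?_)
    have h0 : 0 ≤ ‖x‖ ^ k * h x := mul_nonneg (by positivity) (H.h0 x)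
    unfold wy
    rw [Real.norm_of_nonneg (mul_nonneg (by positivity) (mul_nonneg (H.h0 x) (hP0 _)))]
    calc ‖x‖ ^ k * (h x * P0 q h (y - x)) = P0 q h (y - x) * (‖x‖ ^ k * h x) := by ring
      _ ≤ (B * (∫ x, h x) ^ q) * (‖x‖ ^ k * h x) := mul_le_mul_of_nonneg_right (hPb _) h0

end Pool.Agent.Lib.MP_8d00da_gt.h42t
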