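import Mathlib
import Pool.Agent.Lib.MP_8d00da_gt.h42r.AM2a
import Pool.Agent.Lib.MP_8d00da_gt.h42t.TF0

/-!
# Second moment of a concave function
-/

namespace Pool.Agent.Lib.MP_8d00da_gt.h42t

open MeasureTheory Set Filter
open Pool.Agent.Lib.MP_8d00da_gt.h25 Pool.Agent.Lib.MP_8d00da_gt.h42
open Pool.Agent.Lib.MP_8d00da_gt.h42s Pool.Agent.Lib.MP_8d00da_gt.h42o
open Pool.Agent.Lib.MP_8d00da_gt.h97r Pool.Agent.Lib.MP_8d00da_gt.h42r
open scoped Topology NNReal ENNReal

set_option linter.unusedSectionVars false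

variable {F : Type*} [NormedAddCommGroup F] [InnerProductSpace ℝ F]
    [FiniteDimensional ℝ F] [MeasurableSpace F] [BorelSpace F]

variable {G : Type*} [NormedAddCommGroup G] [InnerProductSpace ℝ G]
    [FiniteDimensional ℝ G] [MeasurableSpace G] [BorelSpace G]

variable {ι : Type*} [Fintype ι]

/-- `S t = ∫⁻_{A > t} h` for `t ≥ 0`, `S t = 0` for `t < 0` satisfies `LC1` (Prekopa-Leindler
`h42.pl_space F`: if `A x > s`, `A y > t`, `h x, h y > 0` then `A ((1-a)x+ay) > (1-a)s+at` by
`hAC`). `h42r.half_moment` at `y0 = 0`: `S 0 ∫⁻_{t>0} t S t ≤ (∫⁻_{t>0} S t)²`, `S 0 = ∫⁻ h`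
(`Apos`), and by the layer cake formula for the measure `h dx`
`∫⁻ A h = ∫⁻_{t>0} S t`, `∫⁻ A² h = 2 ∫⁻_{t>0} t S t`
(`lintegral_comp_eq_lintegral_meas_lt_mul`, `lintegral_eq_lintegral_meas_lt`). -/
theorem l2_conc {h A : F → ℝ} (H : LCD h) (hA : Measurable A) (A0 : ∀ x, 0 ≤ A x) {Ab : ℝ}
    (hAb : ∀ x, A x ≤ Ab) (Apos : ∀ x, 0 < h x → 0 < A x) (hAC : ACon h A) :
    (∫ x, h x) * (∫ x, A x ^ 2 * h x) ≤ 2 * (∫ x, A x * h x) ^ 2 := by
  set r : F → ℝ≥0∞ := fun x => ENNReal.ofReal (h x) with hr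
  have hrm : Measurable r := H.meas.ennreal_ofReal
  set μ : Measure F := volume.withDensity r with hμ
  have hint := H.int
  have hAb0 : 0 ≤ Ab := (A0 0).trans (hAb 0)
  -- the level sets
  have hμs : ∀ t : ℝ, μ {x | t < A x} = ∫⁻ x, {x | t < A x}.indicator r x := by
    intro t
    have hms : MeasurableSet {x | t < A x} := measurableSet_lt measurable_const hA
    rw [hμ, withDensity_apply _ hms, lintegral_indicator hms]
  set S : ℝ → ℝ≥0∞ := (Ici (0 : ℝ)).indicator (fun t => μ {x | t < A x}) with hS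
  have hSpos : ∀ t, 0 ≤ t → S t = μ {x | t < A x} := fun t ht =>
    indicator_of_mem (show t ∈ Ici (0 : ℝ) from ht) _
  have hSneg : ∀ t, t < 0 → S t = 0 := fun t ht =>
    indicator_of_notMem (show t ∉ Ici (0 : ℝ) from not_le.2 ht) _
  have hanti : Antitone fun t => μ {x | t < A x} := by
    intro s t hst
    exact measure_mono fun x (hx : t < A x) => lt_of_le_of_lt hst hx
  have hSm : Measurable S := hanti.measurable.indicator measurableSet_Ici
  have hSlc : LC1 S := by
    intro a ha0 ha1 s t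
    have h1a : 0 < 1 - a := by linarith
    rcases lt_or_ge s 0 with hs | hs
    · rw [hSneg s hs, ENNReal.zero_rpow_of_pos h1a, zero_mul]; exact zero_le
    rcases lt_or_ge t 0 with ht | ht
    · rw [hSneg t ht, ENNReal.zero_rpow_of_pos ha0, mul_zero]; exact zero_le
    have hst : 0 ≤ (1 - a) * s + a * t := by positivity
    rw [hSpos s hs, hSpos t ht, hSpos _ hst, hμs, hμs, hμs]
    refine pl_space F a ha0 ha1 _ _ _ (hrm.indicator (measurableSet_lt measurable_const hA))
      (hrm.indicator (measurableSet_lt measurable_const hA))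
      (hrm.indicator (measurableSet_lt measurable_const hA)) ?_
    intro x y
    by_cases hx : s < A x
    · by_cases hy : t < A y
      · rw [indicator_of_mem (show x ∈ {x | s < A x} from hx),
          indicator_of_mem (show y ∈ {x | t < A x} from hy)]
        rcases (H.h0 x).eq_or_lt with h0x | h0x
        · rw [hr]
          simp only [← h0x, ENNReal.ofReal_zero]
          rw [ENNReal.zero_rpow_of_pos h1a, zero_mul]; exact zero_le
        rcases (H.h0 y).eq_or_lt with h0y | h0y
        · rw [hr]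
          simp only [← h0y, ENNReal.ofReal_zero]
          rw [ENNReal.zero_rpow_of_pos ha0, mul_zero]; exact zero_le
        have h1 := hAC x y h0x h0y a ha0.le ha1.le
        have h2 : (1 - a) * s + a * t < A ((1 - a) • x + a • y) := by
          refine lt_of_lt_of_le ?_ h1
          have h3 := mul_lt_mul_of_pos_left hx h1a
          have h4 := mul_lt_mul_of_pos_left hy ha0
          linarith
        rw [indicator_of_mem (show (1 - a) • x + a • y ∈ {x | (1 - a) * s + a * t < A x} from h2)]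
        simp only [hr]
        rw [ENNReal.ofReal_rpow_of_nonneg (H.h0 x) h1a.le,
          ENNReal.ofReal_rpow_of_nonneg (H.h0 y) ha0.le,
          ← ENNReal.ofReal_mul (Real.rpow_nonneg (H.h0 x) _)]
        exact ENNReal.ofReal_le_ofReal (H.lc a ha0 ha1 x y)
      · rw [indicator_of_notMem (show y ∉ {x | t < A x} from hy),
          ENNReal.zero_rpow_of_pos ha0, mul_zero]
        exact zero_le
    · rw [indicator_of_notMem (show x ∉ {x | s < A x} from hx),
        ENNReal.zero_rpow_of_pos h1a, zero_mul]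
      exact zero_le
  -- integrals
  have hi1 : Integrable fun x => A x * h x := by
    refine Integrable.mono' (hint.const_mul Ab) (hA.mul H.meas).aestronglyMeasurable
      (Eventually.of_forall fun x => ?_)
    rw [Real.norm_of_nonneg (mul_nonneg (A0 x) (H.h0 x))]
    exact mul_le_mul_of_nonneg_right (hAb x) (H.h0 x)
  have hi2 : Integrable fun x => A x ^ 2 * h x := by
    refine Integrable.mono' (hint.const_mul (Ab ^ 2)) ((hA.pow_const 2).mul
      H.meas).aestronglyMeasurable (Eventually.of_forall fun x => ?_)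
    rw [Real.norm_of_nonneg (mul_nonneg (sq_nonneg _) (H.h0 x))]
    exact mul_le_mul_of_nonneg_right (pow_le_pow_left₀ (A0 x) (hAb x) 2) (H.h0 x)
  have e0 : S 0 = ENNReal.ofReal (∫ x, h x) := by
    rw [hSpos 0 le_rfl, hμs, ofReal_integral_eq_lintegral_ofReal hint (Eventually.of_forall H.h0)]
    refine lintegral_congr fun x => ?_
    by_cases hx : 0 < A x
    · rw [indicator_of_mem (show x ∈ {x | 0 < A x} from hx)]
    · rw [indicator_of_notMem (show x ∉ {x | 0 < A x} from hx)]
      have h1 : h x ≤ 0 := not_lt.1 fun h2 => hx (Apos x h2)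
      rw [ENNReal.ofReal_of_nonpos h1]
  have e1 : ∫⁻ t in Ioi (0 : ℝ), S t = ENNReal.ofReal (∫ x, A x * h x) := by
    have h1 := lintegral_eq_lintegral_meas_lt μ (f := A) (Eventually.of_forall A0) hA.aemeasurable
    have h2 : ∫⁻ t in Ioi (0 : ℝ), S t = ∫⁻ t in Ioi (0 : ℝ), μ {x | t < A x} :=
      setLIntegral_congr_fun measurableSet_Ioi fun t ht => hSpos t (le_of_lt ht)
    rw [h2, ← h1, hμ, lintegral_withDensity_eq_lintegral_mul _ hrm hA.ennreal_ofReal,
      ofReal_integral_eq_lintegral_ofReal hi1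
        (Eventually.of_forall fun x => mul_nonneg (A0 x) (H.h0 x))]
    refine lintegral_congr fun x => ?_
    rw [Pi.mul_apply, mul_comm, ← ENNReal.ofReal_mul (A0 x)]
  have e2 : ENNReal.ofReal (∫ x, A x ^ 2 * h x) =
      2 * ∫⁻ t in Ioi (0 : ℝ), ENNReal.ofReal t * S t := by
    have h1 := lintegral_rpow_eq_lintegral_meas_lt_mul μ (f := A) (Eventually.of_forall A0)
      hA.aemeasurable (p := 2) (by norm_num)
    have h2 : ∫⁻ t in Ioi (0 : ℝ), ENNReal.ofReal t * S t =
        ∫⁻ t in Ioi (0 : ℝ), μ {x | t < A x} * ENNReal.ofReal (t ^ ((2 : ℝ) - 1)) := by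
      refine setLIntegral_congr_fun measurableSet_Ioi fun t ht => ?_
      have ht' : (0 : ℝ) < t := ht
      rw [hSpos t ht'.le, mul_comm, show (2 : ℝ) - 1 = 1 by norm_num, Real.rpow_one]
    have h3 : (2 : ℝ≥0∞) = ENNReal.ofReal 2 := by simp
    rw [h2, h3, ← h1, hμ, lintegral_withDensity_eq_lintegral_mul _ hrm
      (hA.pow_const (2 : ℝ)).ennreal_ofReal,
      ofReal_integral_eq_lintegral_ofReal hi2
        (Eventually.of_forall fun x => mul_nonneg (sq_nonneg _) (H.h0 x))]
    refine lintegral_congr fun x => ?_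
    rw [Pi.mul_apply, ENNReal.ofReal_mul (sq_nonneg (A x)), mul_comm, Real.rpow_two]
  have hfin : ∫⁻ t, S t < ⊤ := by
    have h1 : ∫⁻ t, S t = ∫⁻ t in Ioi (0 : ℝ), S t := by
      have h2 : S = (Ici (0 : ℝ)).indicator S := by
        rw [hS, indicator_indicator, inter_self]
      rw [h2, lintegral_indicator measurableSet_Ici, ← h2, restrict_Ioi_eq_restrict_Ici]
    rw [h1, e1]
    exact ENNReal.ofReal_lt_top
  have key := half_moment hSm hSlc hfin 0
  simp only [zero_add] at key
  rw [e0, e1] at key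
  have h5 : ENNReal.ofReal (∫ x, h x) * ENNReal.ofReal (∫ x, A x ^ 2 * h x) ≤
      2 * ENNReal.ofReal (∫ x, A x * h x) ^ 2 := by
    rw [e2]
    calc _ = 2 * (ENNReal.ofReal (∫ x, h x) * ∫⁻ t in Ioi (0 : ℝ), ENNReal.ofReal t * S t) := by
          ring
      _ ≤ _ := mul_le_mul_right key _
  have hI0 : 0 ≤ ∫ x, h x := integral_nonneg H.h0
  have hI1 : 0 ≤ ∫ x, A x * h x := integral_nonneg fun x => mul_nonneg (A0 x) (H.h0 x)
  have h3 : (2 : ℝ≥0∞) = ENNReal.ofReal 2 := by simp
  rw [← ENNReal.ofReal_mul hI0, ← ENNReal.ofReal_pow hI1, h3,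
    ← ENNReal.ofReal_mul (by norm_num)] at h5
  exact (ENNReal.ofReal_le_ofReal_iff (by positivity)).1 h5

end Pool.Agent.Lib.MP_8d00da_gt.h42t
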