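import Mathlib
import Pool.Agent.Lib.MP_8d00da_gt.h42t.TF0

namespace Pool.Agent.Lib.MP_8d00da_gt.h42r
end Pool.Agent.Lib.MP_8d00da_gt.h42r


/-!
# Borell's lemma
-/

namespace Pool.Agent.Lib.MP_8d00da_gt.h42t

open MeasureTheory Set Filter
open Pool.Agent.Lib.MP_8d00da_gt.h25 Pool.Agent.Lib.MP_8d00da_gt.h42
open Pool.Agent.Lib.MP_8d00da_gt.h42s Pool.Agent.Lib.MP_8d00da_gt.h42o
open Pool.Agent.Lib.MP_8d00da_gt.h97r Pool.Agent.Lib.MP_8d00da_gt.h42r
open scoped Topology NNReal ENNReal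

set_option linter.unusedSectionVars false

variable {F : Type*} [NormedAddCommGroup F] [InnerProductSpace ℝ F]
    [FiniteDimensional ℝ F] [MeasurableSpace F] [BorelSpace F]

variable {G : Type*} [NormedAddCommGroup G] [InnerProductSpace ℝ G]
    [FiniteDimensional ℝ G] [MeasurableSpace G] [BorelSpace G]

variable {ι : Type*} [Fintype ι]

/-- Borell's lemma. `N x = ‖P x - b‖`. If `x, g` satisfy `N x > l ρ`, `N g ≤ ρ`, then
`z = (2/(l+1)) x + ((l-1)/(l+1)) g` has `N z ≥ (2/(l+1)) N x - ((l-1)/(l+1)) N g > ρ`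
(`P z - b` is the same combination of `P x - b`, `P g - b`). Prekopa-Leindler
(`h42.pl_space F`, `a = (l-1)/(l+1)`, for `l > 1`) for `h 1_{N > l ρ}`, `h 1_{N ≤ ρ}`:
`B^(2/(l+1)) Gd^((l-1)/(l+1)) ≤ Z - Gd`, `Gd = ∫_{N ≤ ρ} h ≥ (3/4) Z`, `B = ∫_{N > lρ} h`; so
`B/Z ≤ (1/4)^((l+1)/2) (4/3)^((l-1)/2) ≤ exp (-l/2)`. `l = 1`: `B ≤ Z/4 ≤ exp (-1/2) Z`. -/
theorem borell_set {h : F → ℝ} (H : LCD h) (P : F →L[ℝ] G) (b : G) {ρ l : ℝ} (hρ : 0 ≤ ρ)
    (hl : 1 ≤ l) (hG : 3 / 4 * (∫ x, h x) ≤ ∫ x in {x | ‖P x - b‖ ≤ ρ}, h x) :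
    ∫ x in {x | l * ρ < ‖P x - b‖}, h x ≤ Real.exp (-(l / 2)) * ∫ x, h x := by
  classical
  have hint := H.int
  have hNm : Measurable fun x : F => ‖P x - b‖ :=
    ((P.continuous.sub continuous_const).norm).measurable
  obtain ⟨S1, hS1⟩ : ∃ S1 : Set F, S1 = {x | l * ρ < ‖P x - b‖} := ⟨_, rfl⟩
  obtain ⟨S0, hS0⟩ : ∃ S0 : Set F, S0 = {x | ‖P x - b‖ ≤ ρ} := ⟨_, rfl⟩
  rw [← hS1]
  rw [← hS0] at hG
  have hS1m : MeasurableSet S1 := by rw [hS1]; exact measurableSet_lt measurable_const hNm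
  have hS0m : MeasurableSet S0 := by rw [hS0]; exact measurableSet_le hNm measurable_const
  have hcompl : ∫ x in S0ᶜ, h x = (∫ x, h x) - ∫ x in S0, h x := by
    rw [← integral_add_compl hS0m hint]
    ring
  have hB0 : 0 ≤ ∫ x in S1, h x := setIntegral_nonneg hS1m fun x _ => H.h0 x
  have hG0 : 0 ≤ ∫ x in S0, h x := setIntegral_nonneg hS0m fun x _ => H.h0 x
  have hBZ : ∫ x in S1, h x ≤ ∫ x, h x :=
    setIntegral_le_integral hint (Eventually.of_forall H.h0)
  obtain ⟨Z, hZ⟩ : ∃ Z : ℝ, Z = ∫ x, h x := ⟨_, rfl⟩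
  rw [← hZ] at hcompl hBZ hG ⊢
  have hlog3 : 1 ≤ Real.log 3 := by
    rw [Real.le_log_iff_exp_le (by norm_num)]
    linarith [Real.exp_one_lt_d9]
  have hlog4 : Real.log 3 ≤ Real.log 4 := Real.log_le_log (by norm_num) (by norm_num)
  rcases (hB0.trans hBZ).eq_or_lt with hZ0 | hZ0
  · rw [← hZ0, mul_zero, hZ0]
    exact hBZ
  rcases hl.eq_or_lt with hl1 | hl1
  · have hSS : S1 ⊆ S0ᶜ := by
      intro x hx
      rw [hS1, Set.mem_ofPred_eq, ← hl1, one_mul] at hx
      rw [Set.mem_compl_iff, hS0, Set.mem_ofPred_eq, not_le]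
      exact hx
    have h1 : ∫ x in S1, h x ≤ ∫ x in S0ᶜ, h x :=
      setIntegral_mono_set hint.integrableOn (Eventually.of_forall H.h0)
        (Eventually.of_forall hSS)
    have h2 : (1 / 4 : ℝ) ≤ Real.exp (-(l / 2)) := by
      rw [← hl1, ← Real.log_le_iff_le_exp (by norm_num), one_div, Real.log_inv]
      linarith
    nlinarith
  · obtain ⟨a, ha⟩ : ∃ a : ℝ, a = (l - 1) / (l + 1) := ⟨_, rfl⟩
    have hl0 : 0 < l + 1 := by linarith
    have ha0 : 0 < a := by rw [ha]; exact div_pos (by linarith) hl0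
    have ha1 : a < 1 := by rw [ha, div_lt_one hl0]; linarith
    have h1a : 1 - a = 2 / (l + 1) := by rw [ha]; field_simp; ring
    have key := pl_integral (F := F) ha0 ha1 (u := S1.indicator h) (v := S0.indicator h)
      (w := S0ᶜ.indicator h) (fun x => Set.indicator_nonneg (fun x _ => H.h0 x) x)
      (fun x => Set.indicator_nonneg (fun x _ => H.h0 x) x)
      (fun x => Set.indicator_nonneg (fun x _ => H.h0 x) x)
      (H.meas.indicator hS1m) (H.meas.indicator hS0m) (H.meas.indicator hS0m.compl)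
      (hint.indicator hS1m) (hint.indicator hS0m) (hint.indicator hS0m.compl) (by
        intro x y
        by_cases hx : x ∈ S1
        · by_cases hy : y ∈ S0
          · have hz : (1 - a) • x + a • y ∈ S0ᶜ := by
              rw [Set.mem_compl_iff, hS0, Set.mem_ofPred_eq, not_le]
              rw [hS1, Set.mem_ofPred_eq] at hx
              rw [hS0, Set.mem_ofPred_eq] at hy
              have e1 : P ((1 - a) • x + a • y) - b = (1 - a) • (P x - b) + a • (P y - b) := by
                rw [map_add, map_smul, map_smul]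
                module
              rw [e1]
              have e2 : (1 - a) * ‖P x - b‖ - a * ‖P y - b‖ ≤
                  ‖(1 - a) • (P x - b) + a • (P y - b)‖ := by
                have h5 := norm_sub_norm_le ((1 - a) • (P x - b)) (-(a • (P y - b)))
                rw [sub_neg_eq_add, norm_neg, norm_smul, norm_smul, Real.norm_eq_abs,
                  Real.norm_eq_abs, abs_of_pos ha0, abs_of_pos (by linarith : 0 < 1 - a)] at h5
                exact h5
              have e3 : (1 - a) * (l * ρ) < (1 - a) * ‖P x - b‖ :=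
                mul_lt_mul_of_pos_left hx (by linarith)
              have e4 : a * ‖P y - b‖ ≤ a * ρ := mul_le_mul_of_nonneg_left hy ha0.le
              have e5 : (1 - a) * (l * ρ) - a * ρ = ρ := by
                rw [h1a, ha]
                field_simp
                ring
              linarith
            rw [Set.indicator_of_mem hx, Set.indicator_of_mem hy, Set.indicator_of_mem hz]
            exact H.lc a ha0 ha1 x y
          · rw [Set.indicator_of_notMem hy, Real.zero_rpow ha0.ne', mul_zero]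
            exact Set.indicator_nonneg (fun x _ => H.h0 x) _
        · rw [Set.indicator_of_notMem hx, Real.zero_rpow (by linarith), zero_mul]
          exact Set.indicator_nonneg (fun x _ => H.h0 x) _)
    rw [integral_indicator hS1m, integral_indicator hS0m, integral_indicator hS0m.compl,
      hcompl] at key
    by_contra hcon
    rw [not_le] at hcon
    have hE : 0 < Real.exp (-(l / 2)) := Real.exp_pos _
    have h1 : (Real.exp (-(l / 2)) * Z) ^ (1 - a) < (∫ x in S1, h x) ^ (1 - a) :=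
      Real.rpow_lt_rpow (by positivity) hcon (by linarith)
    have h2 : (3 / 4 * Z) ^ a ≤ (∫ x in S0, h x) ^ a :=
      Real.rpow_le_rpow (by positivity) hG ha0.le
    have h3 : (Real.exp (-(l / 2)) * Z) ^ (1 - a) * (3 / 4 * Z) ^ a < Z / 4 := by
      calc (Real.exp (-(l / 2)) * Z) ^ (1 - a) * (3 / 4 * Z) ^ a
          < (∫ x in S1, h x) ^ (1 - a) * (3 / 4 * Z) ^ a :=
            mul_lt_mul_of_pos_right h1 (Real.rpow_pos_of_pos (by positivity) _)
        _ ≤ (∫ x in S1, h x) ^ (1 - a) * (∫ x in S0, h x) ^ a :=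
            mul_le_mul_of_nonneg_left h2 (Real.rpow_nonneg hB0 _)
        _ ≤ Z - ∫ x in S0, h x := key
        _ ≤ Z / 4 := by linarith
    have h4 : (Real.exp (-(l / 2)) * Z) ^ (1 - a) * (3 / 4 * Z) ^ a =
        Real.exp (-(l / 2) * (1 - a) + Real.log (3 / 4) * a) * Z := by
      rw [Real.mul_rpow hE.le hZ0.le, Real.mul_rpow (by norm_num) hZ0.le, ← Real.exp_mul,
        Real.exp_add, Real.rpow_def_of_pos (by norm_num : (0 : ℝ) < 3 / 4)]
      have h5 : Z ^ (1 - a) * Z ^ a = Z := by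
        rw [← Real.rpow_add hZ0, sub_add_cancel, Real.rpow_one]
      calc _ = Real.exp (-(l / 2) * (1 - a)) * Real.exp (Real.log (3 / 4) * a) *
            (Z ^ (1 - a) * Z ^ a) := by ring
        _ = _ := by rw [h5]
    have h5 : (1 / 4 : ℝ) ≤ Real.exp (-(l / 2) * (1 - a) + Real.log (3 / 4) * a) := by
      rw [← Real.log_le_iff_le_exp (by norm_num), one_div, Real.log_inv,
        Real.log_div (by norm_num) (by norm_num), h1a, ha]
      have e1 : -(l / 2) * (2 / (l + 1)) + (Real.log 3 - Real.log 4) * ((l - 1) / (l + 1)) =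
          (-l + (Real.log 3 - Real.log 4) * (l - 1)) / (l + 1) := by
        field_simp
      rw [e1, le_div_iff₀ hl0]
      nlinarith
    rw [h4] at h3
    nlinarith

end Pool.Agent.Lib.MP_8d00da_gt.h42t
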