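import Mathlib
import Pool.Agent.Lib.MP_8d00da_gt.h42t.TF3

namespace Pool.Agent.Lib.MP_8d00da_gt.h42r
end Pool.Agent.Lib.MP_8d00da_gt.h42r


/-!
# Moments of norms, Borell's lemma
-/

namespace Pool.Agent.Lib.MP_8d00da_gt.h42t

open MeasureTheory Set Filter
open Pool.Agent.Lib.MP_8d00da_gt.h25 Pool.Agent.Lib.MP_8d00da_gt.h42
open Pool.Agent.Lib.MP_8d00da_gt.h42s Pool.Agent.Lib.MP_8d00da_gt.h42o
open Pool.Agent.Lib.MP_8d00da_gt.h97r Pool.Agent.Lib.MP_8d00da_gt.h42r
open scoped Topology NNReal ENNReal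

set_option linter.unusedSectionVars false

variable {F : Type*} [NormedAddCommGroup F] [InnerProductSpace ℝ F]
    [FiniteDimensional ℝ F] [MeasurableSpace F] [BorelSpace F]

variable {G : Type*} [NormedAddCommGroup G] [InnerProductSpace ℝ G]
    [FiniteDimensional ℝ G] [MeasurableSpace G] [BorelSpace G]

variable {ι : Type*} [Fintype ι]

private theorem kah_layer {α : Type*} [MeasurableSpace α] (ν : Measure α) {T : α → ℝ} (hT : Measurable T)
    (hT0 : ∀ x, 0 ≤ T x) {Z : ℝ} (hZ : 0 ≤ Z) (h1 : ν univ ≤ ENNReal.ofReal Z)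
    (h2 : ∀ t : ℝ, 1 ≤ t → ν {x | t < T x} ≤ ENNReal.ofReal (Real.exp (-(t / 2)) * Z)) {k : ℕ}
    (hk : 1 ≤ k) :
    ∫⁻ x, ENNReal.ofReal (T x ^ k) ∂ν ≤ ENNReal.ofReal (Z * (1 + 2 ^ k * (k.factorial : ℝ))) := by
  have hk0 : (0 : ℝ) < k := by exact_mod_cast hk
  have e0 : ∀ x, T x ^ k = T x ^ (k : ℝ) := fun x => (Real.rpow_natCast _ _).symm
  simp only [e0]
  rw [lintegral_rpow_eq_lintegral_meas_lt_mul ν (Eventually.of_forall hT0) hT.aemeasurable hk0]
  -- the two integrals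
  have i1 : ∫⁻ t in Ioc (0 : ℝ) 1, ENNReal.ofReal (t ^ ((k : ℝ) - 1)) = ENNReal.ofReal (1 / k) := by
    have hint : IntegrableOn (fun t : ℝ => t ^ ((k : ℝ) - 1)) (Ioc 0 1) := by
      have := intervalIntegral.intervalIntegrable_rpow' (a := 0) (b := 1) (r := (k : ℝ) - 1)
        (by linarith)
      rwa [intervalIntegrable_iff_integrableOn_Ioc_of_le zero_le_one] at this
    rw [← ofReal_integral_eq_lintegral_ofReal hint, ← intervalIntegral.integral_of_le zero_le_one,
      integral_rpow (Or.inl (by linarith))]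
    · congr 1
      rw [sub_add_cancel, Real.one_rpow, Real.zero_rpow hk0.ne', sub_zero]
    · refine (ae_restrict_iff' measurableSet_Ioc).2 (Eventually.of_forall fun t ht => ?_)
      exact Real.rpow_nonneg ht.1.le _
  have i2 : ∫⁻ t in Ioi (0 : ℝ), ENNReal.ofReal (t ^ ((k : ℝ) - 1) * Real.exp (-(1 / 2 * t))) =
      ENNReal.ofReal (2 ^ k * Real.Gamma k) := by
    have hval := Real.integral_rpow_mul_exp_neg_mul_Ioi hk0 (show (0 : ℝ) < 1 / 2 by norm_num)
    have hpos : 0 < (1 / (1 / 2) : ℝ) ^ (k : ℝ) * Real.Gamma k :=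
      mul_pos (Real.rpow_pos_of_pos (by norm_num) _) (Real.Gamma_pos_of_pos hk0)
    have hint : IntegrableOn (fun t : ℝ => t ^ ((k : ℝ) - 1) * Real.exp (-(1 / 2 * t))) (Ioi 0) := by
      by_contra hno
      rw [IntegrableOn] at hno
      rw [integral_undef hno] at hval
      linarith
    rw [← ofReal_integral_eq_lintegral_ofReal hint, hval]
    · congr 1
      rw [Real.rpow_natCast]
      norm_num
    · refine (ae_restrict_iff' measurableSet_Ioi).2 (Eventually.of_forall fun t ht => ?_)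
      exact mul_nonneg (Real.rpow_nonneg (le_of_lt ht) _) (Real.exp_pos _).le
  -- pointwise bound
  have hb : ∫⁻ t in Ioi (0 : ℝ), ν {a | t < T a} * ENNReal.ofReal (t ^ ((k : ℝ) - 1)) ≤
      ∫⁻ t in Ioi (0 : ℝ), ((Ioc (0 : ℝ) 1).indicator
        (fun t => ENNReal.ofReal Z * ENNReal.ofReal (t ^ ((k : ℝ) - 1))) t +
        ENNReal.ofReal Z * ENNReal.ofReal (t ^ ((k : ℝ) - 1) * Real.exp (-(1 / 2 * t)))) := by
    refine setLIntegral_mono' measurableSet_Ioi fun t ht => ?_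
    have ht0 : (0 : ℝ) < t := ht
    rcases le_or_gt t 1 with h3 | h3
    · refine le_trans ?_ (le_add_of_nonneg_right zero_le)
      rw [indicator_of_mem (show t ∈ Ioc (0 : ℝ) 1 from ⟨ht0, h3⟩)]
      exact mul_le_mul_left ((measure_mono (subset_univ _)).trans h1) _
    · refine le_trans ?_ (le_add_of_nonneg_left zero_le)
      calc ν {a | t < T a} * ENNReal.ofReal (t ^ ((k : ℝ) - 1))
          ≤ ENNReal.ofReal (Real.exp (-(t / 2)) * Z) * ENNReal.ofReal (t ^ ((k : ℝ) - 1)) :=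
            mul_le_mul_left (h2 t h3.le) _
        _ = ENNReal.ofReal Z * ENNReal.ofReal (t ^ ((k : ℝ) - 1) * Real.exp (-(1 / 2 * t))) := by
            rw [← ENNReal.ofReal_mul (by positivity), ← ENNReal.ofReal_mul hZ]
            congr 1
            have e1 : -(t / 2) = -(1 / 2 * t) := by ring
            rw [e1]
            ring
  have hm1 : Measurable fun t : ℝ => ENNReal.ofReal (t ^ ((k : ℝ) - 1)) :=
    ENNReal.measurable_ofReal.comp (measurable_id.pow_const _)
  have hm2 : Measurable fun t : ℝ => ENNReal.ofReal (t ^ ((k : ℝ) - 1) * Real.exp (-(1 / 2 * t))) := by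
    refine ENNReal.measurable_ofReal.comp ((measurable_id.pow_const _).mul ?_)
    exact Real.measurable_exp.comp ((measurable_id.const_mul _).neg)
  have hs : ∫⁻ t in Ioi (0 : ℝ), ((Ioc (0 : ℝ) 1).indicator
        (fun t => ENNReal.ofReal Z * ENNReal.ofReal (t ^ ((k : ℝ) - 1))) t +
        ENNReal.ofReal Z * ENNReal.ofReal (t ^ ((k : ℝ) - 1) * Real.exp (-(1 / 2 * t)))) =
      ENNReal.ofReal Z * ENNReal.ofReal (1 / k) + ENNReal.ofReal Z * ENNReal.ofReal (2 ^ k * Real.Gamma k) := by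
    rw [lintegral_add_left ((hm1.const_mul _).indicator measurableSet_Ioc),
      lintegral_const_mul _ hm2, i2, setLIntegral_indicator measurableSet_Ioc]
    congr 1
    have e2 : Ioc (0 : ℝ) 1 ∩ Ioi 0 = Ioc 0 1 := inter_eq_left.2 fun t ht => ht.1
    rw [e2, lintegral_const_mul _ hm1, i1]
  refine (mul_le_mul_right (hb.trans hs.le) _).trans ?_
  have hG : 0 ≤ Real.Gamma k := (Real.Gamma_pos_of_pos hk0).le
  rw [← ENNReal.ofReal_mul hZ, ← ENNReal.ofReal_mul hZ, ← ENNReal.ofReal_add (by positivity) (by positivity),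
    ← ENNReal.ofReal_mul hk0.le]
  refine le_of_eq ?_
  congr 1
  have e3 : (k : ℝ) * Real.Gamma k = (k.factorial : ℝ) := by
    rw [← Real.Gamma_add_one hk0.ne', Real.Gamma_nat_eq_factorial]
  rw [← e3]
  field_simp

private theorem kah_one_le (k : ℕ) : 1 ≤ cK k := by
  unfold cK
  have h1 : (0 : ℝ) ≤ 2 ^ k * (k.factorial : ℝ) := by positivity
  have h2 : (1 : ℝ) ≤ 4 ^ k := one_le_pow₀ (by norm_num)
  nlinarith

/-- Let `Z = ∫ h`, `a = (∫ N^s h)/Z`. If `Z = 0` both sides vanish; `s = 0` is clear (`1 ≤ cK k`);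
if `a = 0` (`s > 0`) then `N = 0` a.e. on `{h > 0}`. Let `ρ = (4 a)^(1/s)`. Markov:
`∫_{N > ρ} h ≤ Z/4`. For `μ ≥ 1`, `l = μ^(1/s) ≥ μ`, `borell_set`:
`∫_{N^s > 4 a μ} h ≤ exp (-μ/2) Z`. Layer cake for `(N^s/(4a))^k`:
`∫ (N^s/(4a))^k h ≤ Z (1 + ∫_1^∞ k μ^(k-1) exp (-μ/2) dμ) ≤ Z (1 + k! 2^k)`. -/
theorem kah {h : F → ℝ} (H : LCD h) (P : F →L[ℝ] G) (b : G) {s : ℝ} (hs0 : 0 ≤ s) (hs1 : s ≤ 1)
    {k : ℕ} (hk : 1 ≤ k) :
    (∫ x, ‖P x - b‖ ^ ((k : ℝ) * s) * h x) * (∫ x, h x) ^ (k - 1) ≤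
      cK k * (∫ x, ‖P x - b‖ ^ s * h x) ^ k := by
  have hh := H.h0
  have hint := H.int
  set Z : ℝ := ∫ x, h x with hZ
  have hZ0 : 0 ≤ Z := integral_nonneg hh
  have hMi : Integrable fun x => ‖P x - b‖ ^ s * h x := H.pow_int P b hs0
  have hks : 0 ≤ (k : ℝ) * s := by positivity
  have hMk : ∀ x, ‖P x - b‖ ^ ((k : ℝ) * s) = (‖P x - b‖ ^ s) ^ k := fun x => by
    rw [mul_comm, Real.rpow_mul_natCast (norm_nonneg _)]
  have hk' : k ≠ 0 := by omega
  set A : ℝ := ∫ x, ‖P x - b‖ ^ s * h x with hA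
  have hA0 : 0 ≤ A := integral_nonneg fun x => mul_nonneg (Real.rpow_nonneg (norm_nonneg _) _) (hh x)
  rcases hs0.eq_or_lt with hs | hs
  · -- `s = 0`
    have hs' : s = 0 := hs.symm
    have e1 : (∫ x, ‖P x - b‖ ^ ((k : ℝ) * s) * h x) = Z := by
      rw [hs', mul_zero, hZ]
      simp only [Real.rpow_zero, one_mul]
    have e2 : A = Z := by
      rw [hA, hs', hZ]
      simp only [Real.rpow_zero, one_mul]
    rw [e1, e2, ← pow_succ', Nat.sub_add_cancel hk]
    exact le_mul_of_one_le_left (pow_nonneg hZ0 _) (kah_one_le k)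
  rcases hA0.eq_or_lt with hA1 | hA1
  · -- `A = 0`
    have h1 : (fun x => ‖P x - b‖ ^ s * h x) =ᵐ[volume] 0 :=
      (integral_eq_zero_iff_of_nonneg (fun x => mul_nonneg (Real.rpow_nonneg (norm_nonneg _) _) (hh x))
        hMi).1 hA1.symm
    have h2 : (∫ x, ‖P x - b‖ ^ ((k : ℝ) * s) * h x) = 0 := by
      refine integral_eq_zero_of_ae ?_
      filter_upwards [h1] with x hx
      have hx' : ‖P x - b‖ ^ s * h x = 0 := hx
      rw [hMk]
      rcases mul_eq_zero.1 hx' with h3 | h3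
      · rw [h3, zero_pow hk', zero_mul]
        rfl
      · rw [h3, mul_zero]
        rfl
    rw [h2, zero_mul, ← hA1, zero_pow hk', mul_zero]
  rcases hZ0.eq_or_lt with hZ1 | hZ1
  · -- `Z = 0`
    exfalso
    have h1 : h =ᵐ[volume] 0 := (integral_eq_zero_iff_of_nonneg hh hint).1 hZ1.symm
    have h2 : A = 0 := by
      refine integral_eq_zero_of_ae ?_
      filter_upwards [h1] with x hx
      have hx' : h x = 0 := hx
      rw [hx', mul_zero]
      rfl
    linarith
  -- the main case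
  have hNm : Continuous fun x => ‖P x - b‖ := (P.continuous.sub continuous_const).norm
  have hMm : Measurable fun x => ‖P x - b‖ ^ s := hNm.measurable.pow_const s
  set D : ℝ := 4 * A / Z with hD
  have hD0 : 0 < D := by positivity
  set ρ : ℝ := D ^ (1 / s) with hρ
  have hρ0 : 0 ≤ ρ := Real.rpow_nonneg hD0.le _
  have hρs : ρ ^ s = D := by
    rw [hρ, ← Real.rpow_mul hD0.le, one_div, inv_mul_cancel₀ hs.ne', Real.rpow_one]
  have hGd : 3 / 4 * Z ≤ ∫ x in {x | ‖P x - b‖ ≤ ρ}, h x := by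
    have hms : MeasurableSet {x : F | ‖P x - b‖ ≤ ρ} := (isClosed_le hNm continuous_const).measurableSet
    have h1 := integral_add_compl hms hint
    have h2 : ∫ x in {x : F | ‖P x - b‖ ≤ ρ}ᶜ, h x ≤ Z / 4 := by
      calc ∫ x in {x : F | ‖P x - b‖ ≤ ρ}ᶜ, h x
          ≤ ∫ x in {x : F | ‖P x - b‖ ≤ ρ}ᶜ, D⁻¹ * (‖P x - b‖ ^ s * h x) := by
            refine setIntegral_mono_on hint.integrableOn (hMi.const_mul _).integrableOn hms.compl ?_
            intro x hx
            have hx' : ρ < ‖P x - b‖ := by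
              simpa using hx
            have h3 : D ≤ ‖P x - b‖ ^ s := by
              rw [← hρs]
              exact Real.rpow_le_rpow hρ0 hx'.le hs0
            rw [← mul_assoc]
            refine le_mul_of_one_le_left (hh x) ?_
            rw [inv_mul_eq_div, one_le_div hD0]
            exact h3
        _ ≤ ∫ x, D⁻¹ * (‖P x - b‖ ^ s * h x) := by
            refine setIntegral_le_integral (hMi.const_mul _) (Eventually.of_forall fun x => ?_)
            exact mul_nonneg (inv_nonneg.2 hD0.le)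
              (mul_nonneg (Real.rpow_nonneg (norm_nonneg _) _) (hh x))
        _ = D⁻¹ * A := integral_const_mul _ _
        _ = Z / 4 := by
            rw [hD]
            field_simp
    linarith
  set ν : Measure F := volume.withDensity fun x => ENNReal.ofReal (h x) with hν
  have hhm : Measurable fun x => ENNReal.ofReal (h x) := ENNReal.measurable_ofReal.comp H.meas
  set T : F → ℝ := fun x => ‖P x - b‖ ^ s / D with hT
  have hTm : Measurable T := hMm.div_const D
  have hT0 : ∀ x, 0 ≤ T x := fun x => div_nonneg (Real.rpow_nonneg (norm_nonneg _) _) hD0.le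
  have hν1 : ν univ ≤ ENNReal.ofReal Z := by
    rw [hν, withDensity_apply _ MeasurableSet.univ, Measure.restrict_univ, hZ,
      ofReal_integral_eq_lintegral_ofReal hint (Eventually.of_forall hh)]
  have hν2 : ∀ t : ℝ, 1 ≤ t → ν {x | t < T x} ≤ ENNReal.ofReal (Real.exp (-(t / 2)) * Z) := by
    intro t ht
    have ht0 : (0 : ℝ) ≤ t := by linarith
    set l : ℝ := t ^ (1 / s) with hl
    have hl1 : t ≤ l := by
      have h3 : (1 : ℝ) ≤ 1 / s := by
        rw [le_div_iff₀ hs]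
        linarith
      calc t = t ^ (1 : ℝ) := (Real.rpow_one t).symm
        _ ≤ t ^ (1 / s) := Real.rpow_le_rpow_of_exponent_le ht h3
    have hls : l ^ s = t := by
      rw [hl, ← Real.rpow_mul ht0, one_div, inv_mul_cancel₀ hs.ne', Real.rpow_one]
    have hsub : {x | t < T x} ⊆ {x | l * ρ < ‖P x - b‖} := by
      intro x hx
      have hx' : t < ‖P x - b‖ ^ s / D := hx
      rw [lt_div_iff₀ hD0] at hx'
      show l * ρ < ‖P x - b‖
      by_contra hno
      have h4 : ‖P x - b‖ ^ s ≤ (l * ρ) ^ s := Real.rpow_le_rpow (norm_nonneg _) (not_lt.1 hno) hs0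
      rw [Real.mul_rpow (by linarith) hρ0, hls, hρs] at h4
      linarith
    have hms : MeasurableSet {x : F | l * ρ < ‖P x - b‖} := (isOpen_lt continuous_const hNm).measurableSet
    have h5 := borell_set H P b hρ0 (ht.trans hl1) hGd
    calc ν {x | t < T x} ≤ ν {x | l * ρ < ‖P x - b‖} := measure_mono hsub
      _ = ENNReal.ofReal (∫ x in {x | l * ρ < ‖P x - b‖}, h x) := by
          rw [hν, withDensity_apply _ hms,
            ofReal_integral_eq_lintegral_ofReal hint.integrableOn (Eventually.of_forall hh)]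
      _ ≤ ENNReal.ofReal (Real.exp (-(t / 2)) * Z) := by
          refine ENNReal.ofReal_le_ofReal (h5.trans ?_)
          refine mul_le_mul_of_nonneg_right (Real.exp_le_exp.2 (by linarith)) hZ0
  have h6 := kah_layer ν hTm hT0 hZ0 hν1 hν2 hk
  have h7 : ∫⁻ x, ENNReal.ofReal (T x ^ k) ∂ν = ENNReal.ofReal (∫ x, T x ^ k * h x) := by
    have hTk : Measurable fun x => ENNReal.ofReal (T x ^ k) :=
      ENNReal.measurable_ofReal.comp (hTm.pow_const k)
    rw [hν, lintegral_withDensity_eq_lintegral_mul _ hhm hTk, ofReal_integral_eq_lintegral_ofReal]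
    · refine lintegral_congr fun x => ?_
      rw [Pi.mul_apply, mul_comm, ← ENNReal.ofReal_mul (pow_nonneg (hT0 x) k)]
    · have h8 : Integrable fun x => (D ^ k)⁻¹ * (‖P x - b‖ ^ ((k : ℝ) * s) * h x) :=
        (H.pow_int P b hks).const_mul _
      refine h8.congr (Eventually.of_forall fun x => ?_)
      show (D ^ k)⁻¹ * (‖P x - b‖ ^ ((k : ℝ) * s) * h x) = (‖P x - b‖ ^ s / D) ^ k * h x
      rw [hMk, div_pow (‖P x - b‖ ^ s) D k, div_eq_mul_inv]
      generalize (‖P x - b‖ ^ s) ^ k = u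
      generalize (D ^ k)⁻¹ = v
      ring
    · exact Eventually.of_forall fun x => mul_nonneg (pow_nonneg (hT0 x) k) (hh x)
  rw [h7] at h6
  have h9 : ∫ x, T x ^ k * h x ≤ Z * (1 + 2 ^ k * (k.factorial : ℝ)) :=
    (ENNReal.ofReal_le_ofReal_iff (by positivity)).1 h6
  have h10 : ∫ x, T x ^ k * h x = (D ^ k)⁻¹ * ∫ x, ‖P x - b‖ ^ ((k : ℝ) * s) * h x := by
    rw [← integral_const_mul]
    refine integral_congr_ae (Eventually.of_forall fun x => ?_)
    show (‖P x - b‖ ^ s / D) ^ k * h x = (D ^ k)⁻¹ * (‖P x - b‖ ^ ((k : ℝ) * s) * h x)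
    rw [hMk, div_pow (‖P x - b‖ ^ s) D k, div_eq_mul_inv]
    generalize (‖P x - b‖ ^ s) ^ k = u
    generalize (D ^ k)⁻¹ = v
    ring
  rw [h10, inv_mul_eq_div, div_le_iff₀ (pow_pos hD0 k)] at h9
  calc (∫ x, ‖P x - b‖ ^ ((k : ℝ) * s) * h x) * Z ^ (k - 1)
      ≤ Z * (1 + 2 ^ k * (k.factorial : ℝ)) * D ^ k * Z ^ (k - 1) :=
        mul_le_mul_of_nonneg_right h9 (pow_nonneg hZ0 _)
    _ = cK k * A ^ k := by
        have e4 : Z * Z ^ (k - 1) = Z ^ k := by rw [← pow_succ', Nat.sub_add_cancel hk]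
        have e5 : D ^ k * Z ^ k = 4 ^ k * A ^ k := by
          rw [← mul_pow, ← mul_pow, hD, div_mul_cancel₀ _ hZ1.ne']
        unfold cK
        calc Z * (1 + 2 ^ k * (k.factorial : ℝ)) * D ^ k * Z ^ (k - 1)
            = (1 + 2 ^ k * (k.factorial : ℝ)) * (D ^ k * (Z * Z ^ (k - 1))) := by ring
          _ = _ := by rw [e4, e5]; ring

end Pool.Agent.Lib.MP_8d00da_gt.h42t
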