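import Mathlib
import Pool.Agent.Lib.MP_8d00da_gt.h42r.AB1
import Pool.Agent.Lib.MP_8d00da_gt.h42r.AM5
import Pool.Agent.Lib.MP_8d00da_gt.h42t.TF2
import Pool.Agent.Lib.MP_8d00da_gt.h42t.TF3b

/-!
# Comparison of weights
-/

namespace Pool.Agent.Lib.MP_8d00da_gt.h42t

open MeasureTheory Set Filter
open Pool.Agent.Lib.MP_8d00da_gt.h25 Pool.Agent.Lib.MP_8d00da_gt.h42
open Pool.Agent.Lib.MP_8d00da_gt.h42s Pool.Agent.Lib.MP_8d00da_gt.h42o
open Pool.Agent.Lib.MP_8d00da_gt.h97r Pool.Agent.Lib.MP_8d00da_gt.h42r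
open scoped Topology NNReal ENNReal

set_option linter.unusedSectionVars false

variable {F : Type*} [NormedAddCommGroup F] [InnerProductSpace ℝ F]
    [FiniteDimensional ℝ F] [MeasurableSpace F] [BorelSpace F]

variable {G : Type*} [NormedAddCommGroup G] [InnerProductSpace ℝ G]
    [FiniteDimensional ℝ G] [MeasurableSpace G] [BorelSpace G]

variable {ι : Type*} [Fintype ι]

private lemma tf4_ne {P : F →L[ℝ] G} (hP : P ≠ 0) (b : G) : ∀ᵐ x : F, P x - b ≠ 0 := by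
  obtain ⟨v, hv⟩ : ∃ v, P v ≠ 0 := by
    by_contra h
    push Not at h
    exact hP (ContinuousLinearMap.ext h)
  let s : AffineSubspace ℝ F :=
    { carrier := {x | P x = b}
      smul_vsub_vadd_mem' := by
        intro t a b d ha hb hd
        simp only [mem_ofPred_eq, vsub_eq_sub, vadd_eq_add, map_add, map_smul, map_sub] at *
        rw [ha, hb, hd]; simp }
  have hs : s ≠ ⊤ := by
    intro h
    have h0 : (0 : F) ∈ s := by rw [h]; exact AffineSubspace.mem_top ℝ F _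
    have h1 : v ∈ s := by rw [h]; exact AffineSubspace.mem_top ℝ F _
    have h0' : P (0 : F) = b := h0
    have h1' : P v = b := h1
    rw [map_zero] at h0'
    exact hv (h1'.trans h0'.symm)
  have := Measure.addHaar_affineSubspace (volume : Measure F) s hs
  rw [ae_iff]
  refine measure_mono_null (fun x hx => ?_) this
  have hx' : ¬ (P x - b ≠ 0) := hx
  rw [not_not, sub_eq_zero] at hx'
  exact hx'

private lemma tf4_cs {h u v : F → ℝ} (hm : Measurable h) (h0 : ∀ x, 0 ≤ h x)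
    (um : Measurable u) (vm : Measurable v)
    (iu : Integrable fun x => u x ^ 2 * h x) (iv : Integrable fun x => v x ^ 2 * h x) :
    (Integrable fun x => u x * v x * h x) ∧
      (∫ x, u x * v x * h x) ^ 2 ≤ (∫ x, u x ^ 2 * h x) * ∫ x, v x ^ 2 * h x := by
  have hI : Integrable fun x => u x * v x * h x := by
    refine (iu.add iv).mono' ((um.mul vm).mul hm).aestronglyMeasurable
      (Eventually.of_forall fun x => ?_)
    rw [Pi.add_apply, Real.norm_eq_abs, abs_mul, abs_of_nonneg (h0 x), ← add_mul]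
    refine mul_le_mul_of_nonneg_right ?_ (h0 x)
    rw [abs_le]
    constructor <;> nlinarith [sq_nonneg (u x + v x), sq_nonneg (u x - v x), sq_nonneg (u x),
      sq_nonneg (v x)]
  refine ⟨hI, ?_⟩
  have e1 : ∀ x, (u x * √(h x)) ^ 2 = u x ^ 2 * h x := fun x => by
    rw [mul_pow, Real.sq_sqrt (h0 x)]
  have e2 : ∀ x, (v x * √(h x)) ^ 2 = v x ^ 2 * h x := fun x => by
    rw [mul_pow, Real.sq_sqrt (h0 x)]
  have e3 : ∀ x, (u x * √(h x)) * (v x * √(h x)) = u x * v x * h x := fun x => by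
    have := Real.mul_self_sqrt (h0 x)
    calc (u x * √(h x)) * (v x * √(h x)) = u x * v x * (√(h x) * √(h x)) := by ring
      _ = _ := by rw [this]
  have key := cs_int (μ := (volume : Measure F)) (a := fun x => u x * √(h x))
    (b := fun x => v x * √(h x)) (by simpa only [e1] using iu) (by simpa only [e2] using iv)
    (by simpa only [e3] using hI)
  simpa only [e1, e2, e3] using key

/-- Real form of `h42r.A2_pow` (with `A2.real`). -/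
theorem a2r {h : F → ℝ} (H : LCD h) {P : F →L[ℝ] G} (hP : P ≠ 0) (b : G) {α : ℝ} (hα0 : 0 ≤ α)
    (hα1 : α < 1) {K : ℝ} (hK : cA α ≤ K) (hpos : 0 < ∫ x, h x) :
    (Integrable fun x => ‖P x - b‖ ^ (-α) * h x) ∧ (0 < ∫ x, ‖P x - b‖ ^ α * h x) ∧
    (∫ x, ‖P x - b‖ ^ α * h x) * (∫ x, ‖P x - b‖ ^ (-α) * h x) ≤ K * (∫ x, h x) ^ 2 := by
  have hβ : |α| < 1 := by rw [abs_of_nonneg hα0]; exact hα1
  have hi1 : Integrable fun x => ‖x‖ * h x := by simpa using H.mom 1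
  have h1 := A2_pow H.h0 H.meas H.lc H.int hi1 hP b hβ one_pos
  rw [abs_of_nonneg hα0] at h1
  have hc0 : 0 ≤ h42r.cA α := by
    unfold h42r.cA
    exact div_nonneg (mul_nonneg (Real.rpow_nonneg (by norm_num) _) (by linarith)) (by linarith)
  obtain ⟨i1, i2, p1, p2, h2⟩ := h1.real hc0 H.meas (by fun_prop) H.h0 (fun x => by positivity)
    H.int hpos (by
      filter_upwards [tf4_ne hP b] with x hx _
      rw [one_mul]
      exact Real.rpow_pos_of_pos (norm_pos_iff.2 hx) _)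
  have e1 : ∀ x, h x * (1 * ‖P x - b‖ ^ α) = ‖P x - b‖ ^ α * h x := fun x => by ring
  have e2 : ∀ x, h x / (1 * ‖P x - b‖ ^ α) = ‖P x - b‖ ^ (-α) * h x := fun x => by
    rw [one_mul, Real.rpow_neg (norm_nonneg _), div_eq_mul_inv, mul_comm]
  simp only [e1] at p1
  simp only [e2] at i2
  simp only [e1, e2] at h2
  exact ⟨i2, p1, h2.trans (mul_le_mul_of_nonneg_right hK (sq_nonneg _))⟩

/-- Cauchy-Schwarz, `l2_conc` and `kah` with `k = 2`. -/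
theorem cmp {h A : F → ℝ} (H : LCD h) (hA : Measurable A) (A0 : ∀ x, 0 ≤ A x) {Ab : ℝ}
    (hAb : ∀ x, A x ≤ Ab) (Apos : ∀ x, 0 < h x → 0 < A x) (hAC : ACon h A) (P : F →L[ℝ] G) (b : G)
    {s : ℝ} (hs0 : 0 ≤ s) (hs1 : s ≤ 1) :
    (∫ x, h x) * (∫ x, A x * ‖P x - b‖ ^ s * h x) ≤
      √(2 * cK 2) * (∫ x, A x * h x) * ∫ x, ‖P x - b‖ ^ s * h x := by
  have h1 := l2_conc H hA A0 hAb Apos hAC
  have h2 := kah H P b hs0 hs1 (k := 2) (by norm_num)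
  have hNm : Measurable fun x : F => ‖P x - b‖ ^ s := by fun_prop
  have e1 : ∀ x : F, (‖P x - b‖ ^ s) ^ 2 = ‖P x - b‖ ^ (((2 : ℕ) : ℝ) * s) := fun x => by
    rw [← Real.rpow_natCast, ← Real.rpow_mul (norm_nonneg _), mul_comm]
  have iA : Integrable fun x => A x ^ 2 * h x := by
    refine (H.int.const_mul (Ab ^ 2)).mono' ((hA.pow_const 2).mul H.meas).aestronglyMeasurable
      (Eventually.of_forall fun x => ?_)
    rw [Real.norm_of_nonneg (mul_nonneg (sq_nonneg _) (H.h0 x))]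
    exact mul_le_mul_of_nonneg_right (pow_le_pow_left₀ (A0 x) (hAb x) 2) (H.h0 x)
  have iN : Integrable fun x => (‖P x - b‖ ^ s) ^ 2 * h x := by
    simp only [e1]
    exact H.pow_int P b (by positivity)
  obtain ⟨iD, h3⟩ := tf4_cs H.meas H.h0 hA hNm iA iN
  simp only [e1] at h3
  rw [show 2 - 1 = 1 from rfl, pow_one] at h2
  have Z0 : 0 ≤ ∫ x, h x := integral_nonneg H.h0
  have M0 : 0 ≤ ∫ x, A x * h x := integral_nonneg fun x => mul_nonneg (A0 x) (H.h0 x)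
  have T0 : 0 ≤ ∫ x, ‖P x - b‖ ^ s * h x :=
    integral_nonneg fun x => mul_nonneg (Real.rpow_nonneg (norm_nonneg _) _) (H.h0 x)
  have A20 : 0 ≤ ∫ x, A x ^ 2 * h x := integral_nonneg fun x => mul_nonneg (sq_nonneg _) (H.h0 x)
  have T20 : 0 ≤ ∫ x, ‖P x - b‖ ^ (((2 : ℕ) : ℝ) * s) * h x :=
    integral_nonneg fun x => mul_nonneg (Real.rpow_nonneg (norm_nonneg _) _) (H.h0 x)
  have c0 : 0 ≤ 2 * cK 2 := by unfold cK; positivity
  obtain ⟨Z, hZ⟩ : ∃ Z : ℝ, Z = ∫ x, h x := ⟨_, rfl⟩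
  obtain ⟨M, hM⟩ : ∃ M : ℝ, M = ∫ x, A x * h x := ⟨_, rfl⟩
  obtain ⟨T, hT⟩ : ∃ T : ℝ, T = ∫ x, ‖P x - b‖ ^ s * h x := ⟨_, rfl⟩
  obtain ⟨D, hD⟩ : ∃ D : ℝ, D = ∫ x, A x * ‖P x - b‖ ^ s * h x := ⟨_, rfl⟩
  obtain ⟨A2, hA2⟩ : ∃ A2 : ℝ, A2 = ∫ x, A x ^ 2 * h x := ⟨_, rfl⟩
  obtain ⟨T2, hT2⟩ : ∃ T2 : ℝ, T2 = ∫ x, ‖P x - b‖ ^ (((2 : ℕ) : ℝ) * s) * h x := ⟨_, rfl⟩
  rw [← hZ, ← hM, ← hA2] at h1
  rw [← hZ, ← hT, ← hT2] at h2
  rw [← hD, ← hA2, ← hT2] at h3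
  rw [← hZ] at Z0
  rw [← hM] at M0
  rw [← hT] at T0
  rw [← hA2] at A20
  rw [← hT2] at T20
  rw [← hZ, ← hM, ← hT, ← hD]
  have key : (Z * D) ^ 2 ≤ (√(2 * cK 2) * M * T) ^ 2 := by
    calc (Z * D) ^ 2 = Z ^ 2 * D ^ 2 := by ring
      _ ≤ Z ^ 2 * (A2 * T2) := mul_le_mul_of_nonneg_left h3 (sq_nonneg _)
      _ = (Z * A2) * (T2 * Z) := by ring
      _ ≤ (2 * M ^ 2) * (cK 2 * T ^ 2) :=
        mul_le_mul h1 h2 (mul_nonneg T20 Z0) (by positivity)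
      _ = (2 * cK 2) * M ^ 2 * T ^ 2 := by ring
      _ = (√(2 * cK 2) * M * T) ^ 2 := by rw [mul_pow, mul_pow, Real.sq_sqrt c0]
  exact le_of_sq_le_sq key (by positivity)

/-- The reverse comparison. With `E = ∫ · h / ∫ h`: by Hoelder (exponents `3`, `3/2`; `A = (A N^ρ)^(1/3)
(A N^(-ρ/2))^(2/3)`) `(E A)³ ≤ E[A N^ρ] (E[A N^(-ρ/2)])²`, and by Cauchy-Schwarz, `l2_conc`, `a2r`
`(E[A N^(-ρ/2)])² ≤ E A² E N^(-ρ) ≤ 2 (E A)² K / E N^ρ`. -/
theorem rcmp {h A : F → ℝ} (H : LCD h) (hA : Measurable A) (A0 : ∀ x, 0 ≤ A x) {Ab : ℝ}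
    (hAb : ∀ x, A x ≤ Ab) (Apos : ∀ x, 0 < h x → 0 < A x) (hAC : ACon h A) {P : F →L[ℝ] G}
    (hP : P ≠ 0) (b : G) {ρ : ℝ} (hρ0 : 0 ≤ ρ) (hρ1 : ρ < 1) {K : ℝ} (hK : cA ρ ≤ K)
    (hpos : 0 < ∫ x, h x) :
    (∫ x, A x * h x) * (∫ x, ‖P x - b‖ ^ ρ * h x) ≤
      2 * K * (∫ x, h x) * ∫ x, A x * ‖P x - b‖ ^ ρ * h x := by
  have h1 := l2_conc H hA A0 hAb Apos hAC
  obtain ⟨iI, _, h2⟩ := a2r H hP b hρ0 hρ1 hK hpos
  have hRm : Measurable fun x : F => ‖P x - b‖ ^ (-(ρ / 2)) := by fun_prop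
  have e1 : ∀ x : F, (‖P x - b‖ ^ (-(ρ / 2))) ^ 2 = ‖P x - b‖ ^ (-ρ) := fun x => by
    rw [← Real.rpow_natCast, ← Real.rpow_mul (norm_nonneg _)]
    congr 1
    push_cast
    ring
  have iA : Integrable fun x => A x ^ 2 * h x := by
    refine (H.int.const_mul (Ab ^ 2)).mono' ((hA.pow_const 2).mul H.meas).aestronglyMeasurable
      (Eventually.of_forall fun x => ?_)
    rw [Real.norm_of_nonneg (mul_nonneg (sq_nonneg _) (H.h0 x))]
    exact mul_le_mul_of_nonneg_right (pow_le_pow_left₀ (A0 x) (hAb x) 2) (H.h0 x)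
  have iR2 : Integrable fun x => (‖P x - b‖ ^ (-(ρ / 2))) ^ 2 * h x := by
    simp only [e1]
    exact iI
  obtain ⟨iR, h3⟩ := tf4_cs H.meas H.h0 hA hRm iA iR2
  simp only [e1] at h3
  have iM : Integrable fun x => A x * h x := by
    refine (H.int.const_mul Ab).mono' (hA.mul H.meas).aestronglyMeasurable
      (Eventually.of_forall fun x => ?_)
    rw [Real.norm_of_nonneg (mul_nonneg (A0 x) (H.h0 x))]
    exact mul_le_mul_of_nonneg_right (hAb x) (H.h0 x)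
  have iD : Integrable fun x => A x * ‖P x - b‖ ^ ρ * h x := by
    refine ((H.pow_int P b hρ0).const_mul Ab).mono'
      ((hA.mul (by fun_prop)).mul H.meas).aestronglyMeasurable (Eventually.of_forall fun x => ?_)
    have hp : 0 ≤ ‖P x - b‖ ^ ρ := Real.rpow_nonneg (norm_nonneg _) _
    rw [Real.norm_of_nonneg (mul_nonneg (mul_nonneg (A0 x) hp) (H.h0 x)), mul_assoc]
    exact mul_le_mul_of_nonneg_right (hAb x) (mul_nonneg hp (H.h0 x))
  have M0 : 0 ≤ ∫ x, A x * h x := integral_nonneg fun x => mul_nonneg (A0 x) (H.h0 x)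
  have T0 : 0 ≤ ∫ x, ‖P x - b‖ ^ ρ * h x :=
    integral_nonneg fun x => mul_nonneg (Real.rpow_nonneg (norm_nonneg _) _) (H.h0 x)
  have D0 : 0 ≤ ∫ x, A x * ‖P x - b‖ ^ ρ * h x := integral_nonneg fun x =>
    mul_nonneg (mul_nonneg (A0 x) (Real.rpow_nonneg (norm_nonneg _) _)) (H.h0 x)
  have R0 : 0 ≤ ∫ x, A x * ‖P x - b‖ ^ (-(ρ / 2)) * h x := integral_nonneg fun x =>
    mul_nonneg (mul_nonneg (A0 x) (Real.rpow_nonneg (norm_nonneg _) _)) (H.h0 x)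
  have I0 : 0 ≤ ∫ x, ‖P x - b‖ ^ (-ρ) * h x :=
    integral_nonneg fun x => mul_nonneg (Real.rpow_nonneg (norm_nonneg _) _) (H.h0 x)
  have A20 : 0 ≤ ∫ x, A x ^ 2 * h x := integral_nonneg fun x => mul_nonneg (sq_nonneg _) (H.h0 x)
  have K0 : 0 ≤ K := by
    refine le_trans ?_ hK
    unfold h42r.cA
    exact div_nonneg (mul_nonneg (Real.rpow_nonneg (by norm_num) _) (by linarith)) (by linarith)
  -- the pointwise inequality, integrated
  have h4 : ∀ t : ℝ, 0 < t → ∫ x, A x * h x ≤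
      t ^ 2 / 3 * (∫ x, A x * ‖P x - b‖ ^ ρ * h x) +
        2 / (3 * t) * ∫ x, A x * ‖P x - b‖ ^ (-(ρ / 2)) * h x := by
    intro t ht
    rw [← integral_const_mul, ← integral_const_mul,
      ← integral_add (iD.const_mul _) (iR.const_mul _)]
    refine integral_mono_ae iM ((iD.const_mul _).add (iR.const_mul _)) ?_
    filter_upwards [tf4_ne hP b] with x hx
    have hn : 0 < ‖P x - b‖ := norm_pos_iff.2 hx
    obtain ⟨n, hn'⟩ : ∃ n : ℝ, n = ‖P x - b‖ ^ (ρ / 2) := ⟨_, rfl⟩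
    have n0 : 0 < n := by rw [hn']; exact Real.rpow_pos_of_pos hn _
    have f1 : ‖P x - b‖ ^ ρ = n ^ 2 := by
      rw [hn', ← Real.rpow_natCast, ← Real.rpow_mul (norm_nonneg _)]
      congr 1
      push_cast
      ring
    have f2 : ‖P x - b‖ ^ (-(ρ / 2)) = n⁻¹ := by
      rw [hn', Real.rpow_neg (norm_nonneg _)]
    have hAh : 0 ≤ A x * h x := mul_nonneg (A0 x) (H.h0 x)
    have f3 : 1 ≤ t ^ 2 / 3 * n ^ 2 + 2 / (3 * t) * n⁻¹ := by
      have hu : 0 < t * n := mul_pos ht n0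
      have f4 : t ^ 2 / 3 * n ^ 2 + 2 / (3 * t) * n⁻¹ = ((t * n) ^ 3 + 2) / (3 * (t * n)) := by
        field_simp
      rw [f4, le_div_iff₀ (by positivity)]
      nlinarith [mul_nonneg (sq_nonneg (t * n - 1)) (by linarith : 0 ≤ t * n + 2)]
    rw [f1, f2]
    calc A x * h x = 1 * (A x * h x) := by ring
      _ ≤ (t ^ 2 / 3 * n ^ 2 + 2 / (3 * t) * n⁻¹) * (A x * h x) :=
        mul_le_mul_of_nonneg_right f3 hAh
      _ = t ^ 2 / 3 * (A x * n ^ 2 * h x) + 2 / (3 * t) * (A x * n⁻¹ * h x) := by ring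
  obtain ⟨Z, hZ⟩ : ∃ Z : ℝ, Z = ∫ x, h x := ⟨_, rfl⟩
  obtain ⟨M, hM⟩ : ∃ M : ℝ, M = ∫ x, A x * h x := ⟨_, rfl⟩
  obtain ⟨T, hT⟩ : ∃ T : ℝ, T = ∫ x, ‖P x - b‖ ^ ρ * h x := ⟨_, rfl⟩
  obtain ⟨D, hD⟩ : ∃ D : ℝ, D = ∫ x, A x * ‖P x - b‖ ^ ρ * h x := ⟨_, rfl⟩
  obtain ⟨R, hR⟩ : ∃ R : ℝ, R = ∫ x, A x * ‖P x - b‖ ^ (-(ρ / 2)) * h x := ⟨_, rfl⟩
  obtain ⟨I, hI⟩ : ∃ I : ℝ, I = ∫ x, ‖P x - b‖ ^ (-ρ) * h x := ⟨_, rfl⟩
  obtain ⟨A2, hA2⟩ : ∃ A2 : ℝ, A2 = ∫ x, A x ^ 2 * h x := ⟨_, rfl⟩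
  rw [← hZ, ← hM, ← hA2] at h1
  rw [← hZ, ← hT, ← hI] at h2
  rw [← hR, ← hA2, ← hI] at h3
  rw [← hM, ← hD, ← hR] at h4
  rw [← hZ] at hpos
  rw [← hM] at M0
  rw [← hT] at T0
  rw [← hD] at D0
  rw [← hR] at R0
  rw [← hI] at I0
  rw [← hA2] at A20
  rw [← hZ, ← hM, ← hT, ← hD]
  rcases M0.eq_or_lt with M0' | Mpos
  · rw [← M0', zero_mul]
    positivity
  rcases R0.eq_or_lt with R0' | Rpos
  · -- then `M ≤ t² D / 3` for every `t`
    exfalso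
    rw [← R0'] at h4
    have h5 := h4 (√(M / (D + 1))) (Real.sqrt_pos.2 (div_pos Mpos (by linarith)))
    rw [Real.sq_sqrt (div_nonneg M0 (by linarith)), mul_zero, add_zero] at h5
    have h6 : M / (D + 1) / 3 * D ≤ M / 3 := by
      rw [div_div, div_mul_eq_mul_div, div_le_div_iff₀ (by positivity) (by norm_num)]
      nlinarith
    linarith
  have h5 := h4 (R / M) (div_pos Rpos Mpos)
  have h6 : M ^ 3 ≤ D * R ^ 2 := by
    have e : (R / M) ^ 2 / 3 * D + 2 / (3 * (R / M)) * R = (D * R ^ 2 / M ^ 2 + 2 * M) / 3 := by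
      field_simp
    rw [e] at h5
    have h7 : M ≤ D * R ^ 2 / M ^ 2 := by linarith
    rw [le_div_iff₀ (by positivity)] at h7
    calc M ^ 3 = M * M ^ 2 := by ring
      _ ≤ _ := h7
  have h7 : (M ^ 2 * Z) * (M * T) ≤ (M ^ 2 * Z) * (2 * K * Z * D) := by
    calc (M ^ 2 * Z) * (M * T) = M ^ 3 * (Z * T) := by ring
      _ ≤ (D * R ^ 2) * (Z * T) := mul_le_mul_of_nonneg_right h6 (by positivity)
      _ ≤ (D * (A2 * I)) * (Z * T) :=
        mul_le_mul_of_nonneg_right (mul_le_mul_of_nonneg_left h3 D0) (by positivity)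
      _ = D * ((Z * A2) * (T * I)) := by ring
      _ ≤ D * ((2 * M ^ 2) * (K * Z ^ 2)) :=
        mul_le_mul_of_nonneg_left (mul_le_mul h1 h2 (mul_nonneg T0 I0) (by positivity)) D0
      _ = (M ^ 2 * Z) * (2 * K * Z * D) := by ring
  exact le_of_mul_le_mul_left h7 (by positivity)

end Pool.Agent.Lib.MP_8d00da_gt.h42t
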