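import Mathlib
import Pool.Agent.Lib.MP_8d00da_gt.h42t.TA3
import Pool.Agent.Lib.MP_8d00da_gt.h42t.TA4

namespace Pool.Agent.Lib.MP_8d00da_gt.h42r
end Pool.Agent.Lib.MP_8d00da_gt.h42r


/-!
# Integration of product functions
-/

namespace Pool.Agent.Lib.MP_8d00da_gt.h42t

open MeasureTheory Set Filter
open Pool.Agent.Lib.MP_8d00da_gt.h25 Pool.Agent.Lib.MP_8d00da_gt.h42
open Pool.Agent.Lib.MP_8d00da_gt.h42s Pool.Agent.Lib.MP_8d00da_gt.h42o
open Pool.Agent.Lib.MP_8d00da_gt.h97r Pool.Agent.Lib.MP_8d00da_gt.h42r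
open scoped Topology NNReal ENNReal

set_option linter.unusedSectionVars false

variable {F : Type*} [NormedAddCommGroup F] [InnerProductSpace ℝ F]
    [FiniteDimensional ℝ F] [MeasurableSpace F] [BorelSpace F]

variable {G : Type*} [NormedAddCommGroup G] [InnerProductSpace ℝ G]
    [FiniteDimensional ℝ G] [MeasurableSpace G] [BorelSpace G]

variable {ι : Type*} [Fintype ι]

variable {q : ℕ}

private theorem TF7_shift_mp :
    MeasurePreserving (fun p : F × (Fin q → F) => (p.1 - ∑ i, p.2 i, p.2))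
      ((volume : Measure F).prod (volume : Measure (Fin q → F)))
      ((volume : Measure F).prod (volume : Measure (Fin q → F))) := by
  have hT : Measurable (fun p : F × (Fin q → F) => (p.1 - ∑ i, p.2 i, p.2)) := by
    fun_prop
  refine ⟨hT, ?_⟩
  ext S hS
  rw [Measure.map_apply hT hS, Measure.prod_apply (hT hS), Measure.prod_apply hS]
  have h1 := shift_lint (q := q) (F := F)
    (Φ := fun x s => S.indicator (fun _ => (1 : ℝ≥0∞)) (x, s)) (by
      have h2 : Measurable (S.indicator (fun _ : F × (Fin q → F) => (1 : ℝ≥0∞))) :=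
        measurable_const.indicator hS
      exact h2)
  have h2 : ∀ x : F, ∫⁻ s : Fin q → F, S.indicator (fun _ => (1 : ℝ≥0∞)) (x, s) =
      volume (Prod.mk x ⁻¹' S) := by
    intro x
    rw [← lintegral_indicator_one (measurable_prodMk_left hS)]
    rfl
  have h3 : ∀ y : F, ∫⁻ s : Fin q → F,
      S.indicator (fun _ => (1 : ℝ≥0∞)) (y - ∑ i, s i, s) =
      volume (Prod.mk y ⁻¹' ((fun p : F × (Fin q → F) => (p.1 - ∑ i, p.2 i, p.2)) ⁻¹' S)) := by
    intro y
    rw [← lintegral_indicator_one (measurable_prodMk_left (hT hS))]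
    rfl
  simp only [h2, h3] at h1
  exact h1

private theorem TF7_shift_int {Ψ : F × (Fin q → F) → ℝ} (hΨ : Measurable Ψ)
    (hi : Integrable Ψ ((volume : Measure F).prod (volume : Measure (Fin q → F)))) :
    (Integrable fun y => ∫ s : Fin q → F, Ψ (y - ∑ i, s i, s)) ∧
    ∫ y, ∫ s : Fin q → F, Ψ (y - ∑ i, s i, s) =
      ∫ p, Ψ p ∂((volume : Measure F).prod (volume : Measure (Fin q → F))) := by
  have hT := TF7_shift_mp (F := F) (q := q)
  have h1 : Integrable (fun p : F × (Fin q → F) => Ψ (p.1 - ∑ i, p.2 i, p.2))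
      ((volume : Measure F).prod (volume : Measure (Fin q → F))) :=
    hT.integrable_comp_of_integrable hi
  refine ⟨h1.integral_prod_left, ?_⟩
  rw [← integral_prod _ h1]
  have h2 := integral_map (μ := (volume : Measure F).prod (volume : Measure (Fin q → F)))
    hT.measurable.aemeasurable (f := Ψ) hΨ.aestronglyMeasurable
  rw [hT.map_eq] at h2
  exact h2.symm

/-- For a bounded measurable `φ ≥ 0`: `cm` is the mean of `q + 2` terms; each term gives
`(∫ A φ h) (∫ φ h)^(q+1)` (`prod_lint` for the term `A (y - ∑ s)`; for `A (s i)` use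
`shift_lint` and `lintegral_fintype_prod...` with the functions `A φ h` at `i`, `φ h`
elsewhere). -/
theorem prod_cm {h A φ : F → ℝ} (hh : Measurable h) (h0 : ∀ x, 0 ≤ h x) {Hb : ℝ}
    (hb : ∀ x, h x ≤ Hb) (hi : Integrable h) (hA : Measurable A) (A0 : ∀ x, 0 ≤ A x) {Ab : ℝ}
    (hAb : ∀ x, A x ≤ Ab) (hφ : Measurable φ) (φ0 : ∀ x, 0 ≤ φ x) {B : ℝ} (hφB : ∀ x, φ x ≤ B) :
    (Integrable fun y => ∫ s : Fin q → F, hm h y s * (cm A y s *
      (φ (y - ∑ i, s i) * ∏ i, φ (s i)))) ∧
    ∫ y, ∫ s : Fin q → F, hm h y s * (cm A y s * (φ (y - ∑ i, s i) * ∏ i, φ (s i))) =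
      (∫ x, A x * φ x * h x) * (∫ x, φ x * h x) ^ q := by
  obtain ⟨g, hg⟩ : ∃ g : F → ℝ, g = fun x => φ x * h x := ⟨_, rfl⟩
  have gm : Measurable g := by
    rw [hg]
    exact hφ.mul hh
  have g0 : ∀ x, 0 ≤ g x := fun x => by
    rw [hg]
    exact mul_nonneg (φ0 x) (h0 x)
  have gi : Integrable g := by
    refine Integrable.mono' (hi.const_mul B) gm.aestronglyMeasurable (ae_of_all _ fun x => ?_)
    rw [Real.norm_eq_abs, abs_of_nonneg (g0 x), hg]
    exact mul_le_mul_of_nonneg_right (hφB x) (h0 x)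
  have Agi : Integrable fun x => A x * g x := by
    refine Integrable.mono' (gi.const_mul Ab) (hA.mul gm).aestronglyMeasurable
      (ae_of_all _ fun x => ?_)
    rw [Real.norm_eq_abs, abs_of_nonneg (mul_nonneg (A0 x) (g0 x))]
    exact mul_le_mul_of_nonneg_right (hAb x) (g0 x)
  obtain ⟨f, hf⟩ : ∃ f : Fin q → Fin q → F → ℝ,
      f = fun i k x => (if k = i then A x else 1) * g x := ⟨_, rfl⟩
  have fm : ∀ i k, Measurable (f i k) := by
    intro i k
    rw [hf]
    by_cases hk : k = i
    · simp only [if_pos hk]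
      exact hA.mul gm
    · simp only [if_neg hk, one_mul]
      exact gm
  have fi : ∀ i k, Integrable (f i k) := by
    intro i k
    rw [hf]
    by_cases hk : k = i
    · simp only [if_pos hk]
      exact Agi
    · simp only [if_neg hk, one_mul]
      exact gi
  have fprod : ∀ (i : Fin q) (s : Fin q → F), ∏ k, f i k (s k) = A (s i) * ∏ k, g (s k) := by
    intro i s
    rw [hf]
    simp only
    rw [Finset.prod_mul_distrib, Finset.prod_ite_eq' Finset.univ i, if_pos (Finset.mem_univ i)]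
  have fpi : ∀ i : Fin q, Integrable (fun s : Fin q → F => ∏ k, f i k (s k)) :=
    fun i => Integrable.fintype_prod (fi i)
  have gpi : Integrable (fun s : Fin q → F => ∏ k, g (s k)) :=
    Integrable.fintype_prod (fun _ => gi)
  have fint : ∀ i : Fin q, (∫ x, g x) * ∫ s : Fin q → F, ∏ k, f i k (s k) =
      (∫ x, A x * g x) * (∫ x, g x) ^ q := by
    intro i
    rw [integral_fintype_prod_volume_eq_prod]
    have h1 : ∀ k, ∫ x, f i k x = if k = i then ∫ x, A x * g x else ∫ x, g x := by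
      intro k
      rw [hf]
      by_cases hk : k = i
      · simp only [if_pos hk]
      · simp only [if_neg hk, one_mul]
    rw [Finset.prod_congr rfl fun k _ => h1 k, ← Finset.mul_prod_erase Finset.univ _
      (Finset.mem_univ i), if_pos rfl]
    have h2 : ∏ k ∈ Finset.univ.erase i, (if k = i then ∫ x, A x * g x else ∫ x, g x) =
        (∫ x, g x) ^ (q - 1) := by
      rw [Finset.prod_congr rfl fun k hk => if_neg (Finset.ne_of_mem_erase hk), Finset.prod_const,
        Finset.card_erase_of_mem (Finset.mem_univ i), Finset.card_univ, Fintype.card_fin]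
    rw [h2]
    have h3 : q = (q - 1) + 1 := by
      have := i.pos
      omega
    have h4 : (∫ x, g x) ^ q = (∫ x, g x) ^ (q - 1) * ∫ x, g x := by
      rw [← pow_succ, ← h3]
    rw [h4]
    ring
  obtain ⟨Ψ, hΨ⟩ : ∃ Ψ : F × (Fin q → F) → ℝ, Ψ = fun p =>
      ((A p.1 * g p.1) * (∏ i, g (p.2 i)) + ∑ i, g p.1 * ∏ k, f i k (p.2 k)) * (1 / (q + 1)) :=
    ⟨_, rfl⟩
  have i1 : Integrable (fun p : F × (Fin q → F) => (A p.1 * g p.1) * (∏ i, g (p.2 i)))
      ((volume : Measure F).prod (volume : Measure (Fin q → F))) :=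
    Agi.mul_prod gpi
  have i2 : ∀ i : Fin q, Integrable (fun p : F × (Fin q → F) => g p.1 * ∏ k, f i k (p.2 k))
      ((volume : Measure F).prod (volume : Measure (Fin q → F))) :=
    fun i => gi.mul_prod (fpi i)
  have i3 : Integrable (fun p : F × (Fin q → F) => ∑ i, g p.1 * ∏ k, f i k (p.2 k))
      ((volume : Measure F).prod (volume : Measure (Fin q → F))) :=
    integrable_finsetSum _ fun i _ => i2 i
  have Ψi : Integrable Ψ ((volume : Measure F).prod (volume : Measure (Fin q → F))) := by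
    rw [hΨ]
    exact (i1.add i3).mul_const _
  have Ψm : Measurable Ψ := by
    rw [hΨ]
    refine Measurable.mul_const ?_ _
    refine Measurable.add ?_ ?_
    · exact ((hA.comp measurable_fst).mul (gm.comp measurable_fst)).mul
        (Finset.measurable_fun_prod _ fun i _ =>
          gm.comp ((measurable_pi_apply i).comp measurable_snd))
    · exact Finset.measurable_fun_sum _ fun i _ => (gm.comp measurable_fst).mul
        (Finset.measurable_fun_prod _ fun k _ =>
          (fm i k).comp ((measurable_pi_apply k).comp measurable_snd))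
  have Ψint : ∫ p, Ψ p ∂((volume : Measure F).prod (volume : Measure (Fin q → F))) =
      (∫ x, A x * g x) * (∫ x, g x) ^ q := by
    have e0 : ∫ p, Ψ p ∂((volume : Measure F).prod (volume : Measure (Fin q → F))) =
        (∫ p : F × (Fin q → F), ((A p.1 * g p.1) * (∏ i, g (p.2 i)) +
          ∑ i, g p.1 * ∏ k, f i k (p.2 k)) ∂((volume : Measure F).prod
            (volume : Measure (Fin q → F)))) * (1 / (q + 1)) := by
      rw [hΨ]
      exact integral_mul_const _ _
    rw [e0, integral_add i1 i3, integral_finsetSum _ fun i _ => i2 i]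
    have e1 : ∫ p : F × (Fin q → F), (A p.1 * g p.1) * (∏ i, g (p.2 i))
        ∂((volume : Measure F).prod (volume : Measure (Fin q → F))) =
        (∫ x, A x * g x) * (∫ x, g x) ^ q := by
      have := integral_prod_mul (μ := (volume : Measure F)) (ν := (volume : Measure (Fin q → F)))
        (fun x => A x * g x) (fun s => ∏ i, g (s i))
      rw [integral_fintype_prod_volume_eq_pow, Fintype.card_fin] at this
      exact this
    have e2 : ∀ i : Fin q, ∫ p : F × (Fin q → F), g p.1 * ∏ k, f i k (p.2 k)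
        ∂((volume : Measure F).prod (volume : Measure (Fin q → F))) =
        (∫ x, A x * g x) * (∫ x, g x) ^ q := by
      intro i
      rw [← fint i]
      exact integral_prod_mul (μ := (volume : Measure F)) (ν := (volume : Measure (Fin q → F)))
        g (fun s => ∏ k, f i k (s k))
    rw [e1, Finset.sum_congr rfl fun i _ => e2 i, Finset.sum_const, Finset.card_univ,
      Fintype.card_fin, nsmul_eq_mul]
    have hq : (q : ℝ) + 1 ≠ 0 := by positivity
    field_simp
    ring
  have key : ∀ (y : F) (s : Fin q → F),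
      hm h y s * (cm A y s * (φ (y - ∑ i, s i) * ∏ i, φ (s i))) = Ψ (y - ∑ i, s i, s) := by
    intro y s
    rw [hΨ]
    simp only [fprod]
    have e1 : ∏ k, g (s k) = (∏ k, φ (s k)) * ∏ k, h (s k) := by
      rw [hg]
      exact Finset.prod_mul_distrib
    have e2 : ∑ i, g (y - ∑ k, s k) * (A (s i) * ∏ k, g (s k)) =
        (∑ i, A (s i)) * (g (y - ∑ k, s k) * ∏ k, g (s k)) := by
      rw [Finset.sum_mul]
      exact Finset.sum_congr rfl fun i _ => by ring
    rw [e2, e1, hg]
    unfold hm cm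
    have hq : (q : ℝ) + 1 ≠ 0 := by positivity
    field_simp
  simp only [key]
  have h1 := TF7_shift_int Ψm Ψi
  rw [Ψint] at h1
  have e1 : ∫ x, A x * φ x * h x = ∫ x, A x * g x := by
    rw [hg]
    exact integral_congr_ae (ae_of_all _ fun x => by simp only; ring)
  have e2 : ∫ x, φ x * h x = ∫ x, g x := by rw [hg]
  rw [e1, e2]
  exact h1

private theorem TF7_jensen (A : F → ℝ) (y : F) (s : Fin (q + 1) → F) :
    cm A y s ^ 2 ≤ cm (fun x => A x ^ 2) y s := by
  unfold cm
  obtain ⟨a, ha⟩ : ∃ a, A (y - ∑ i, s i) = a := ⟨_, rfl⟩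
  simp only [ha]
  obtain ⟨b, hb⟩ : ∃ b : Fin (q + 1) → ℝ, (fun i => A (s i)) = b := ⟨_, rfl⟩
  have h1 := sq_sum_le_card_mul_sum_sq (s := (Finset.univ : Finset (Fin (q + 1 + 1))))
    (f := (Fin.cons a b : Fin (q + 1 + 1) → ℝ))
  have h2 : ∑ i, (Fin.cons a b : Fin (q + 1 + 1) → ℝ) i = a + ∑ i, A (s i) := by
    rw [Fin.sum_univ_succ, ← hb]
    simp only [Fin.cons_zero, Fin.cons_succ]
  have h3 : ∑ i, (Fin.cons a b : Fin (q + 1 + 1) → ℝ) i ^ 2 = a ^ 2 + ∑ i, A (s i) ^ 2 := by
    rw [Fin.sum_univ_succ, ← hb]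
    simp only [Fin.cons_zero, Fin.cons_succ]
  rw [h2, h3, Finset.card_univ, Fintype.card_fin] at h1
  push_cast at h1 ⊢
  rw [div_pow, div_le_div_iff₀ (by positivity) (by positivity)]
  have h4 : (0 : ℝ) < (q : ℝ) + 1 + 1 := by positivity
  nlinarith [mul_le_mul_of_nonneg_right h1 h4.le]

/-- Second moments of the averages: `∫ P2²/P0 ≤ ∫ A² h (∫ h)^(q+1)`:
`P2² ≤ P0 ∫ hm cm²`, `cm² ≤` mean of `A (y_l)²`. (`x / 0 = 0`.) -/
theorem P2_sq_int {h A : F → ℝ} (hh : Measurable h) (h0 : ∀ x, 0 ≤ h x) {Hb : ℝ}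
    (hb : ∀ x, h x ≤ Hb) (hi : Integrable h) (hA : Measurable A) (A0 : ∀ x, 0 ≤ A x) {Ab : ℝ}
    (hAb : ∀ x, A x ≤ Ab) :
    (Integrable fun y => P2 (q + 1) h A y ^ 2 / P0 (q + 1) h y) ∧
    ∫ y, P2 (q + 1) h A y ^ 2 / P0 (q + 1) h y ≤ (∫ x, A x ^ 2 * h x) * (∫ x, h x) ^ (q + 1) := by
  have A2 := prod_cm (q := q + 1) (A := fun x => A x ^ 2) (φ := fun _ => 1) (Ab := Ab ^ 2) (B := 1)
    hh h0 hb hi (hA.pow_const 2) (fun x => sq_nonneg _)
    (fun x => pow_le_pow_left₀ (A0 x) (hAb x) 2) measurable_const (fun _ => zero_le_one)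
    (fun _ => le_rfl)
  simp only [mul_one, one_mul, Finset.prod_const_one] at A2
  obtain ⟨j1, j2⟩ := A2
  have hmm : ∀ y, Measurable fun s : Fin (q + 1) → F => hm h y s :=
    fun y => (hm_meas hh).comp measurable_prodMk_left
  have cmm : ∀ {A' : F → ℝ}, Measurable A' → ∀ y,
      Measurable fun s : Fin (q + 1) → F => cm A' y s :=
    fun hA' y => (cm_meas hA').comp measurable_prodMk_left
  have hpt : ∀ y, P2 (q + 1) h A y ^ 2 / P0 (q + 1) h y ≤
      ∫ s : Fin (q + 1) → F, hm h y s * cm (fun x => A x ^ 2) y s := by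
    intro y
    have hmi := hm_int (q := q + 1) hh h0 hb hi y
    have n0 : ∀ s : Fin (q + 1) → F, 0 ≤ hm h y s := fun s => hm_nonneg h0 y s
    have c0 : ∀ s : Fin (q + 1) → F, 0 ≤ cm A y s := fun s => cm_nonneg A0 y s
    have i1 : Integrable fun s : Fin (q + 1) → F => hm h y s * cm A y s := by
      refine Integrable.mono' (hmi.mul_const Ab) ((hmm y).mul (cmm hA y)).aestronglyMeasurable
        (ae_of_all _ fun s => ?_)
      rw [Real.norm_eq_abs, abs_of_nonneg (mul_nonneg (n0 s) (c0 s))]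
      exact mul_le_mul_of_nonneg_left (cm_le hAb y s) (n0 s)
    have c2 : ∀ s : Fin (q + 1) → F, 0 ≤ cm (fun x => A x ^ 2) y s :=
      fun s => cm_nonneg (fun x => sq_nonneg _) y s
    have i2 : Integrable fun s : Fin (q + 1) → F => hm h y s * cm (fun x => A x ^ 2) y s := by
      refine Integrable.mono' (hmi.mul_const (Ab ^ 2))
        ((hmm y).mul (cmm (hA.pow_const 2) y)).aestronglyMeasurable (ae_of_all _ fun s => ?_)
      rw [Real.norm_eq_abs, abs_of_nonneg (mul_nonneg (n0 s) (c2 s))]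
      exact mul_le_mul_of_nonneg_left
        (cm_le (fun x => pow_le_pow_left₀ (A0 x) (hAb x) 2) y s) (n0 s)
    have jen : ∀ s : Fin (q + 1) → F, cm A y s ^ 2 ≤ cm (fun x => A x ^ 2) y s :=
      fun s => TF7_jensen A y s
    by_cases hP : P0 (q + 1) h y = 0
    · rw [hP, div_zero]
      exact integral_nonneg fun s => mul_nonneg (n0 s) (c2 s)
    · have hP0 : 0 < P0 (q + 1) h y :=
        lt_of_le_of_ne (integral_nonneg n0) (Ne.symm hP)
      obtain ⟨t, ht⟩ : ∃ t, t = P2 (q + 1) h A y / P0 (q + 1) h y := ⟨_, rfl⟩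
      have k1 : ∫ s : Fin (q + 1) → F, (2 * t * (hm h y s * cm A y s) - t ^ 2 * hm h y s) ≤
          ∫ s : Fin (q + 1) → F, hm h y s * cm (fun x => A x ^ 2) y s := by
        refine integral_mono ((i1.const_mul _).sub (hmi.const_mul _)) i2 fun s => ?_
        have := jen s
        simp only
        nlinarith [mul_nonneg (n0 s) (sq_nonneg (cm A y s - t)),
          mul_le_mul_of_nonneg_left this (n0 s)]
      rw [integral_sub (i1.const_mul _) (hmi.const_mul _), integral_const_mul,
        integral_const_mul] at k1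
      have k2 : 2 * t * P2 (q + 1) h A y - t ^ 2 * P0 (q + 1) h y =
          P2 (q + 1) h A y ^ 2 / P0 (q + 1) h y := by
        rw [ht]
        field_simp
        ring
      rw [← k2]
      exact k1
  have hint : Integrable fun y => P2 (q + 1) h A y ^ 2 / P0 (q + 1) h y := by
    refine Integrable.mono' j1 (((P2_meas hh hA).pow_const 2).div
      (P0_meas hh)).aestronglyMeasurable (ae_of_all _ fun y => ?_)
    rw [Real.norm_eq_abs, abs_of_nonneg (div_nonneg (sq_nonneg _) (P0_nonneg h0 y))]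
    exact hpt y
  exact ⟨hint, (integral_mono hint j1 hpt).trans j2.le⟩

end Pool.Agent.Lib.MP_8d00da_gt.h42t
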