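import Mathlib
import Pool.Agent.Lib.MP_8d00da_gt.h42t.TF1
import Pool.Agent.Lib.MP_8d00da_gt.h42t.TF7
import Pool.Agent.Lib.MP_8d00da_gt.h42t.TF4

/-!
# Core inequality, negative exponents
-/

namespace Pool.Agent.Lib.MP_8d00da_gt.h42t

open MeasureTheory Set Filter
open Pool.Agent.Lib.MP_8d00da_gt.h25 Pool.Agent.Lib.MP_8d00da_gt.h42
open Pool.Agent.Lib.MP_8d00da_gt.h42s Pool.Agent.Lib.MP_8d00da_gt.h42o
open Pool.Agent.Lib.MP_8d00da_gt.h97r Pool.Agent.Lib.MP_8d00da_gt.h42r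
open scoped Topology NNReal ENNReal

set_option linter.unusedSectionVars false

variable {F : Type*} [NormedAddCommGroup F] [InnerProductSpace ℝ F]
    [FiniteDimensional ℝ F] [MeasurableSpace F] [BorelSpace F]

variable {G : Type*} [NormedAddCommGroup G] [InnerProductSpace ℝ G]
    [FiniteDimensional ℝ G] [MeasurableSpace G] [BorelSpace G]

variable {ι : Type*} [Fintype ι]

variable {q : ℕ}

noncomputable def cN (q : ℕ) (K : ℝ) : ℝ := 2 * ((q : ℝ) + 2) * K ^ 2 * √(2 * cK 2)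

/-- Cauchy-Schwarz: `P0² ≤ oh ∫ hm/X`, `1/X = ∑_l 1/ω(y_l)`, so where `P0 > 0`
`P0/oh ≤ (q+2) (∫ ω⁻¹ wy)/P0`. -/
theorem oh_plain {h ω : F → ℝ} (hh : Measurable h) (h0 : ∀ x, 0 ≤ h x) {Hb : ℝ}
    (hb : ∀ x, h x ≤ Hb) (hi : Integrable h) (hω : Measurable ω) (ω0 : ∀ x, 0 ≤ ω x)
    (ωpos : ∀ x, 0 < h x → 0 < ω x) (ωi : Integrable fun x => h x * ω x)
    (ωj : Integrable fun x => h x / ω x) (y : F) :
    P0 (q + 1) h y / oh (q + 1) h ω y ≤
      ((q : ℝ) + 2) * (∫ x, (ω x)⁻¹ * wy q h y x) / P0 (q + 1) h y := by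
  have hωi : Measurable fun x => (ω x)⁻¹ := hω.inv
  have hωi0 : ∀ x, 0 ≤ (ω x)⁻¹ := fun x => inv_nonneg.2 (ω0 x)
  have hJ : Integrable fun x => (ω x)⁻¹ * wy q h y x := by
    have h1 : Integrable fun x => (h x / ω x) * (Hb * (∫ x, h x) ^ q) := ωj.mul_const _
    refine h1.mono' ?_ (Eventually.of_forall fun x => ?_)
    · unfold wy
      exact (hωi.mul (hh.mul ((P0_meas hh).comp
        (measurable_const.sub measurable_id)))).aestronglyMeasurable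
    · have h2 : 0 ≤ P0 q h (y - x) := P0_nonneg h0 _
      have h3 : P0 q h (y - x) ≤ Hb * (∫ x, h x) ^ q := P0_le hh h0 hb hi _
      have h4 : 0 ≤ h x / ω x := div_nonneg (h0 x) (ω0 x)
      unfold wy
      rw [Real.norm_of_nonneg (mul_nonneg (hωi0 x) (mul_nonneg (h0 x) h2))]
      calc (ω x)⁻¹ * (h x * P0 q h (y - x)) = (h x / ω x) * P0 q h (y - x) := by
            rw [div_eq_mul_inv]; ring
        _ ≤ _ := mul_le_mul_of_nonneg_left h3 h4
  by_cases hP : P0 (q + 1) h y = 0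
  · rw [hP, zero_div, div_zero]
  have hP' : 0 < P0 (q + 1) h y := lt_of_le_of_ne (P0_nonneg h0 y) (Ne.symm hP)
  have ho := oh_pos (q := q) hh h0 hb hi hω ω0 ωpos ωi hP'
  rw [div_le_div_iff₀ ho hP']
  obtain ⟨i0, e0⟩ := marg_int0 (q := q) hh h0 hb hi hωi hωi0 y hJ
  have i1 := fun i => marg_int (q := q) hh h0 hb hi hωi hωi0 y hJ i
  have hX0 : ∀ s : Fin (q + 1) → F, 0 ≤ hm h y s * xm ω y s := fun s =>
    mul_nonneg (hm_nonneg h0 y s) (xm_nonneg ω0 y s)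
  have hXi0 : ∀ s : Fin (q + 1) → F, 0 ≤ hm h y s * (xm ω y s)⁻¹ := fun s =>
    mul_nonneg (hm_nonneg h0 y s) (inv_nonneg.2 (xm_nonneg ω0 y s))
  have hX := hmx_int (q := q) hh h0 hb hi hω ω0 ωpos ωi y
  have hexp : (fun s : Fin (q + 1) → F => hm h y s * (xm ω y s)⁻¹) = fun s =>
      (ω (y - ∑ k, s k))⁻¹ * hm h y s + ∑ i, (ω (s i))⁻¹ * hm h y s := by
    funext s
    unfold xm
    rw [inv_inv, ← Finset.sum_mul]
    ring
  have hXi : Integrable fun s : Fin (q + 1) → F => hm h y s * (xm ω y s)⁻¹ := by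
    rw [hexp]
    exact i0.add (integrable_finsetSum _ fun i _ => (i1 i).1)
  have hXe : ∫ s : Fin (q + 1) → F, hm h y s * (xm ω y s)⁻¹ =
      ((q : ℝ) + 2) * ∫ x, (ω x)⁻¹ * wy q h y x := by
    rw [hexp, integral_add i0 (integrable_finsetSum _ fun i _ => (i1 i).1), e0,
      integral_finsetSum _ fun i _ => (i1 i).1]
    rw [Finset.sum_congr rfl fun i _ => (i1 i).2, Finset.sum_const, Finset.card_univ,
      Fintype.card_fin, nsmul_eq_mul]
    push_cast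
    ring
  have hab : ∀ s : Fin (q + 1) → F,
      √(hm h y s * xm ω y s) * √(hm h y s * (xm ω y s)⁻¹) = hm h y s := by
    intro s
    rw [← Real.sqrt_mul (hX0 s)]
    rcases eq_or_lt_of_le (hm_nonneg h0 y s) with h1 | h1
    · rw [← h1]
      simp
    · have h2 := xm_pos h0 ωpos h1
      have h3 : hm h y s * xm ω y s * (hm h y s * (xm ω y s)⁻¹) = hm h y s ^ 2 := by
        field_simp
      rw [h3, Real.sqrt_sq h1.le]
  have hcs := cs_int (μ := (volume : Measure (Fin (q + 1) → F)))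
    (a := fun s => √(hm h y s * xm ω y s)) (b := fun s => √(hm h y s * (xm ω y s)⁻¹))
    (by simp only [Real.sq_sqrt (hX0 _)]; exact hX)
    (by simp only [Real.sq_sqrt (hXi0 _)]; exact hXi)
    (by simp only [hab]; exact hm_int hh h0 hb hi y)
  simp only [Real.sq_sqrt (hX0 _), Real.sq_sqrt (hXi0 _), hab] at hcs
  rw [hXe] at hcs
  have e1 : P0 (q + 1) h y = ∫ s : Fin (q + 1) → F, hm h y s := rfl
  have e2 : oh (q + 1) h ω y = ∫ s : Fin (q + 1) → F, hm h y s * xm ω y s := rfl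
  rw [e1, e2, ← pow_two]
  refine hcs.trans (le_of_eq ?_)
  ring

private lemma tf9_arith {q : ℕ} {I0 I1 U2 V2 a2 n2 a n1 nm np Z K κ c : ℝ} (hZ : 0 < Z)
    (hc : 0 < c) (hI0 : 0 ≤ I0) (hV : 0 ≤ V2) (h1 : I0 ^ 2 ≤ U2 * V2)
    (h2 : U2 ≤ a2 * Z ^ (q + 1)) (h3 : V2 ≤ n2 * Z ^ (q + 1)) (h4 : Z * a2 ≤ 2 * a ^ 2)
    (h5 : n2 * Z ^ (2 - 1) ≤ κ * n1 ^ 2) (h6 : a * n1 ≤ 2 * K * Z * np)
    (h7 : np * nm ≤ K * a ^ 2) (h8 : I1 ≤ ((q : ℝ) + 2) / c * I0) (hnm : 0 ≤ nm) (hnp : 0 ≤ np)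
    (hn1 : 0 ≤ n1) (hn2 : 0 ≤ n2) (ha2 : 0 ≤ a2) (ha : 0 < a) (hκ : 0 ≤ κ) :
    c * nm * I1 ≤ 2 * ((q : ℝ) + 2) * K ^ 2 * √(2 * κ) * (a ^ 2 * Z ^ (q + 1)) := by
  have hK : 0 ≤ K := by
    have h9 : 0 ≤ K * a ^ 2 := (mul_nonneg hnp hnm).trans h7
    exact nonneg_of_mul_nonneg_left h9 (by positivity)
  have hI : I0 ≤ √(2 * κ) * (a * n1) * Z ^ q := by
    have e1 : I0 ^ 2 ≤ (√(2 * κ) * (a * n1) * Z ^ q) ^ 2 := by
      have e2 : (√(2 * κ) * (a * n1) * Z ^ q) ^ 2 = (2 * a ^ 2) * (κ * n1 ^ 2) * (Z ^ q) ^ 2 := by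
        rw [mul_pow, mul_pow, Real.sq_sqrt (by positivity)]
        ring
      rw [e2]
      calc I0 ^ 2 ≤ U2 * V2 := h1
        _ ≤ (a2 * Z ^ (q + 1)) * (n2 * Z ^ (q + 1)) := mul_le_mul h2 h3 hV (by positivity)
        _ = (Z * a2) * (n2 * Z ^ (2 - 1)) * (Z ^ q) ^ 2 := by
          norm_num
          ring
        _ ≤ (2 * a ^ 2) * (κ * n1 ^ 2) * (Z ^ q) ^ 2 :=
          mul_le_mul_of_nonneg_right (mul_le_mul h4 h5 (by positivity) (by positivity))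
            (by positivity)
    exact (pow_le_pow_iff_left₀ hI0 (by positivity) two_ne_zero).1 e1
  calc c * nm * I1 ≤ c * nm * (((q : ℝ) + 2) / c * I0) :=
        mul_le_mul_of_nonneg_left h8 (by positivity)
    _ = ((q : ℝ) + 2) * nm * I0 := by field_simp
    _ ≤ ((q : ℝ) + 2) * nm * (√(2 * κ) * (a * n1) * Z ^ q) :=
        mul_le_mul_of_nonneg_left hI (by positivity)
    _ ≤ ((q : ℝ) + 2) * nm * (√(2 * κ) * (2 * K * Z * np) * Z ^ q) := by gcongr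
    _ = ((q : ℝ) + 2) * √(2 * κ) * 2 * K * Z ^ (q + 1) * (np * nm) := by ring
    _ ≤ ((q : ℝ) + 2) * √(2 * κ) * 2 * K * Z ^ (q + 1) * (K * a ^ 2) :=
        mul_le_mul_of_nonneg_left h7 (by positivity)
    _ = _ := by ring

/-- `ω = c N^(-ρ)`, `m = q + 2`. By `oh_plain` (`ω⁻¹ = N^ρ/c`)
`P0 P2/oh ≤ (m/c) (P2/√P0) (∫ N^ρ wy/√P0)`, Cauchy-Schwarz over `y`, `P2_sq_int` for `A` and the
same for `N^ρ` in place of `A` (`(∫ N^ρ wy)² ≤ P0 ∫ N^(2ρ) wy`, and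
`∫_y ∫_x N^(2ρ) wy = ∫ N^(2ρ) h (∫ h)^(q+1)`: `wy q h y x = h x P0 q h (y - x)`, `P0_int`), then
`l2_conc` and `kah` (`k = 2`): `∫ P0 P2/oh ≤ (m/c) Z^q √(2 cK 2) ∫ A h ∫ N^ρ h`. Finally
`rcmp`: `∫ A h ∫ N^ρ h ≤ 2 K Z ∫ A N^ρ h`, `a2r` for `h A`:
`∫ A N^(-ρ) h ∫ A N^ρ h ≤ K (∫ A h)²`. -/
theorem core_neg {h A : F → ℝ} (H : LCD h) (hA : Measurable A) (A0 : ∀ x, 0 ≤ A x) {Ab : ℝ}
    (hAb : ∀ x, A x ≤ Ab) (Apos : ∀ x, 0 < h x → 0 < A x) (hAC : ACon h A)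
    (hpos : 0 < ∫ x, h x) {P : F →L[ℝ] G}
    (hP : P ≠ 0) {b : G} {ε : ℝ} (hε : 0 < ε) (hN : ∀ x, ε ≤ ‖P x - b‖) {ρ : ℝ} (hρ0 : 0 ≤ ρ)
    (hρ1 : ρ < 1) {K : ℝ} (hK : cA ρ ≤ K) {c : ℝ} (hc : 0 < c) :
    (Integrable fun y => P0 (q + 1) h y * P2 (q + 1) h A y /
      oh (q + 1) h (fun x => c * ‖P x - b‖ ^ (-ρ)) y) ∧
    (∫ x, A x * (c * ‖P x - b‖ ^ (-ρ)) * h x) *
      (∫ y, P0 (q + 1) h y * P2 (q + 1) h A y /
        oh (q + 1) h (fun x => c * ‖P x - b‖ ^ (-ρ)) y) ≤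
      cN q K * ((∫ x, A x * h x) ^ 2 * (∫ x, h x) ^ (q + 1)) := by
  obtain ⟨Hb, hb⟩ := H.hb
  have hh := H.meas
  have h0 := H.h0
  have hi := H.int
  have Npos : ∀ x, 0 < ‖P x - b‖ := fun x => hε.trans_le (hN x)
  have Nm : Measurable fun x => ‖P x - b‖ := (P.continuous.sub continuous_const).norm.measurable
  have ωm : Measurable fun x => c * ‖P x - b‖ ^ (-ρ) := (Nm.pow_const (-ρ)).const_mul c
  have ωp : ∀ x, 0 < c * ‖P x - b‖ ^ (-ρ) := fun x => mul_pos hc (Real.rpow_pos_of_pos (Npos x) _)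
  have ωi : Integrable fun x => h x * (c * ‖P x - b‖ ^ (-ρ)) := by
    refine (hi.mul_const (c * ε ^ (-ρ))).mono' (hh.mul ωm).aestronglyMeasurable
      (Eventually.of_forall fun x => ?_)
    rw [Real.norm_of_nonneg (mul_nonneg (h0 x) (ωp x).le)]
    refine mul_le_mul_of_nonneg_left (mul_le_mul_of_nonneg_left ?_ hc.le) (h0 x)
    exact Real.rpow_le_rpow_of_nonpos hε (hN x) (by linarith)
  have ωinv : ∀ x, (c * ‖P x - b‖ ^ (-ρ))⁻¹ = c⁻¹ * ‖P x - b‖ ^ ρ := fun x => by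
    rw [mul_inv, Real.rpow_neg (Npos x).le, inv_inv]
  have f1 := H.pow_int P b hρ0
  have f2 := H.pow_int P b (t := ((2 : ℕ) : ℝ) * ρ) (by positivity)
  have ωj : Integrable fun x => h x / (c * ‖P x - b‖ ^ (-ρ)) := by
    refine (f1.const_mul c⁻¹).congr (Eventually.of_forall fun x => ?_)
    simp only
    rw [div_eq_mul_inv, ωinv]
    ring
  have g1 := P0_int (q := q) hh h0 hb hi
  have gm : ∀ y, AEStronglyMeasurable (fun x => P0 q h (y - x)) (volume : Measure F) := fun y =>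
    ((P0_meas hh).comp (measurable_const.sub measurable_id)).aestronglyMeasurable
  have hconv : ∀ f : F → ℝ, Integrable f → (Integrable fun y => ∫ x, f x * P0 q h (y - x)) ∧
      ∫ y, ∫ x, f x * P0 q h (y - x) = (∫ x, f x) * (∫ x, h x) ^ (q + 1) := by
    intro f hf
    have h1 := MeasureTheory.Integrable.integrable_convolution (ContinuousLinearMap.mul ℝ ℝ) hf g1.1
    have h2 := MeasureTheory.integral_convolution (ContinuousLinearMap.mul ℝ ℝ) hf g1.1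
    refine ⟨h1, ?_⟩
    rw [← g1.2]
    exact h2
  have hsl : ∀ f : F → ℝ, Integrable f → ∀ y, Integrable fun x => f x * P0 q h (y - x) := by
    intro f hf y
    refine (hf.norm.mul_const (Hb * (∫ x, h x) ^ q)).mono' (hf.aestronglyMeasurable.mul (gm y))
      (Eventually.of_forall fun x => ?_)
    rw [norm_mul, Real.norm_of_nonneg (P0_nonneg h0 _)]
    exact mul_le_mul_of_nonneg_left (P0_le hh h0 hb hi _) (norm_nonneg _)
  have eW : ∀ (t : ℝ) (y x : F), ‖P x - b‖ ^ t * wy q h y x =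
      (‖P x - b‖ ^ t * h x) * P0 q h (y - x) := fun t y x => by
    unfold wy
    ring
  obtain ⟨W, hW⟩ : ∃ W : F → ℝ, W = fun y => ∫ x, ‖P x - b‖ ^ ρ * wy q h y x := ⟨_, rfl⟩
  obtain ⟨V, hV⟩ : ∃ V : F → ℝ, V = fun y => ∫ x, ‖P x - b‖ ^ (((2 : ℕ) : ℝ) * ρ) * wy q h y x :=
    ⟨_, rfl⟩
  have Wi : Integrable W := by
    rw [hW]
    simp only [eW]
    exact (hconv _ f1).1
  have Vi : Integrable V := by
    rw [hV]
    simp only [eW]
    exact (hconv _ f2).1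
  have Ve : ∫ y, V y = (∫ x, ‖P x - b‖ ^ (((2 : ℕ) : ℝ) * ρ) * h x) * (∫ x, h x) ^ (q + 1) := by
    rw [hV]
    simp only [eW]
    exact (hconv _ f2).2
  have wy0 : ∀ y x, 0 ≤ wy q h y x := fun y x => mul_nonneg (h0 x) (P0_nonneg h0 _)
  have W0 : ∀ y, 0 ≤ W y := fun y => by
    rw [hW]
    exact integral_nonneg fun x => mul_nonneg (Real.rpow_nonneg (Npos x).le _) (wy0 y x)
  have V0 : ∀ y, 0 ≤ V y := fun y => by
    rw [hV]
    exact integral_nonneg fun x => mul_nonneg (Real.rpow_nonneg (Npos x).le _) (wy0 y x)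
  have P00 : ∀ y, 0 ≤ P0 (q + 1) h y := fun y => P0_nonneg h0 y
  have P20 : ∀ y, 0 ≤ P2 (q + 1) h A y := fun y => P2_nonneg h0 A0 y
  have hWV : ∀ y, W y ^ 2 ≤ V y * P0 (q + 1) h y := by
    intro y
    obtain ⟨wi, we⟩ := wy_int (q := q) hh h0 hb hi y
    have s1 : ∀ x, (‖P x - b‖ ^ ρ * √(wy q h y x)) ^ 2 =
        ‖P x - b‖ ^ (((2 : ℕ) : ℝ) * ρ) * wy q h y x := fun x => by
      rw [mul_pow, Real.sq_sqrt (wy0 y x), mul_comm ((2 : ℕ) : ℝ) ρ,
        Real.rpow_mul_natCast (Npos x).le]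
    have s2 : ∀ x, √(wy q h y x) ^ 2 = wy q h y x := fun x => Real.sq_sqrt (wy0 y x)
    have s3 : ∀ x, ‖P x - b‖ ^ ρ * √(wy q h y x) * √(wy q h y x) =
        ‖P x - b‖ ^ ρ * wy q h y x := fun x => by
      rw [mul_assoc, Real.mul_self_sqrt (wy0 y x)]
    have hcs := cs_int (μ := (volume : Measure F))
      (a := fun x => ‖P x - b‖ ^ ρ * √(wy q h y x)) (b := fun x => √(wy q h y x))
      (by simp only [s1]; simp only [eW]; exact hsl _ f2 y)
      (by simp only [s2]; exact wi)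
      (by simp only [s3]; simp only [eW]; exact hsl _ f1 y)
    simp only [s1, s2, s3] at hcs
    rw [we] at hcs
    rw [hW, hV]
    exact hcs
  have hWV2 : ∀ y, W y ^ 2 / P0 (q + 1) h y ≤ V y := by
    intro y
    rcases eq_or_lt_of_le (P00 y) with h1 | h1
    · rw [← h1, div_zero]
      exact V0 y
    · rw [div_le_iff₀ h1]
      exact hWV y
  -- Cauchy-Schwarz over `y`
  obtain ⟨p2i, p2e⟩ := P2_sq_int (q := q) hh h0 hb hi hA A0 hAb
  have P0m : Measurable (P0 (q + 1) h) := P0_meas hh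
  have P2m : Measurable (P2 (q + 1) h A) := P2_meas hh hA
  have v2i : Integrable fun y => W y ^ 2 / P0 (q + 1) h y := by
    refine Vi.mono' ((Wi.aestronglyMeasurable.pow 2).div₀ P0m.aestronglyMeasurable)
      (Eventually.of_forall fun y => ?_)
    rw [Real.norm_of_nonneg (div_nonneg (sq_nonneg _) (P00 y))]
    exact hWV2 y
  have r1 : ∀ y, (P2 (q + 1) h A y / √(P0 (q + 1) h y)) ^ 2 =
      P2 (q + 1) h A y ^ 2 / P0 (q + 1) h y := fun y => by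
    rw [div_pow, Real.sq_sqrt (P00 y)]
  have r2 : ∀ y, (W y / √(P0 (q + 1) h y)) ^ 2 = W y ^ 2 / P0 (q + 1) h y := fun y => by
    rw [div_pow, Real.sq_sqrt (P00 y)]
  have r3 : ∀ y, P2 (q + 1) h A y / √(P0 (q + 1) h y) * (W y / √(P0 (q + 1) h y)) =
      P2 (q + 1) h A y * W y / P0 (q + 1) h y := fun y => by
    rw [div_mul_div_comm, Real.mul_self_sqrt (P00 y)]
  have uvi : Integrable fun y => P2 (q + 1) h A y * W y / P0 (q + 1) h y := by
    refine (p2i.add v2i).mono' ((P2m.aestronglyMeasurable.mul Wi.aestronglyMeasurable).div₀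
      P0m.aestronglyMeasurable) (Eventually.of_forall fun y => ?_)
    rw [Real.norm_of_nonneg (div_nonneg (mul_nonneg (P20 y) (W0 y)) (P00 y)), ← r3]
    show _ ≤ P2 (q + 1) h A y ^ 2 / P0 (q + 1) h y + W y ^ 2 / P0 (q + 1) h y
    rw [← r1, ← r2]
    nlinarith [sq_nonneg (P2 (q + 1) h A y / √(P0 (q + 1) h y) - W y / √(P0 (q + 1) h y)),
      sq_nonneg (P2 (q + 1) h A y / √(P0 (q + 1) h y)), sq_nonneg (W y / √(P0 (q + 1) h y))]
  have hcs2 := cs_int (μ := (volume : Measure F))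
    (a := fun y => P2 (q + 1) h A y / √(P0 (q + 1) h y)) (b := fun y => W y / √(P0 (q + 1) h y))
    (by simp only [r1]; exact p2i) (by simp only [r2]; exact v2i) (by simp only [r3]; exact uvi)
  simp only [r1, r2, r3] at hcs2
  have hV2 : ∫ y, W y ^ 2 / P0 (q + 1) h y ≤
      (∫ x, ‖P x - b‖ ^ (((2 : ℕ) : ℝ) * ρ) * h x) * (∫ x, h x) ^ (q + 1) := by
    rw [← Ve]
    exact integral_mono v2i Vi hWV2
  -- pointwise bound
  have key : ∀ y, P0 (q + 1) h y * P2 (q + 1) h A y /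
      oh (q + 1) h (fun x => c * ‖P x - b‖ ^ (-ρ)) y ≤
      ((q : ℝ) + 2) / c * (P2 (q + 1) h A y * W y / P0 (q + 1) h y) := by
    intro y
    have e1 := oh_plain (q := q) hh h0 hb hi ωm (fun x => (ωp x).le) (fun x _ => ωp x) ωi ωj y
    have e2 : ∫ x, (c * ‖P x - b‖ ^ (-ρ))⁻¹ * wy q h y x = c⁻¹ * W y := by
      rw [hW]
      simp only [ωinv, mul_assoc]
      rw [integral_const_mul]
    rw [e2] at e1
    calc P0 (q + 1) h y * P2 (q + 1) h A y / oh (q + 1) h (fun x => c * ‖P x - b‖ ^ (-ρ)) y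
        = P2 (q + 1) h A y *
          (P0 (q + 1) h y / oh (q + 1) h (fun x => c * ‖P x - b‖ ^ (-ρ)) y) := by ring
      _ ≤ P2 (q + 1) h A y * (((q : ℝ) + 2) * (c⁻¹ * W y) / P0 (q + 1) h y) :=
          mul_le_mul_of_nonneg_left e1 (P20 y)
      _ = _ := by ring
  have oh0 : ∀ y, 0 ≤ oh (q + 1) h (fun x => c * ‖P x - b‖ ^ (-ρ)) y := fun y =>
    oh_nonneg h0 (fun x => (ωp x).le) y
  have Gi : Integrable fun y => P0 (q + 1) h y * P2 (q + 1) h A y /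
      oh (q + 1) h (fun x => c * ‖P x - b‖ ^ (-ρ)) y := by
    refine (uvi.const_mul (((q : ℝ) + 2) / c)).mono'
      ((P0m.mul P2m).div (oh_meas hh ωm)).aestronglyMeasurable (Eventually.of_forall fun y => ?_)
    rw [Real.norm_of_nonneg (div_nonneg (mul_nonneg (P00 y) (P20 y)) (oh0 y))]
    exact key y
  refine ⟨Gi, ?_⟩
  have hG : ∫ y, P0 (q + 1) h y * P2 (q + 1) h A y /
      oh (q + 1) h (fun x => c * ‖P x - b‖ ^ (-ρ)) y ≤
      ((q : ℝ) + 2) / c * ∫ y, P2 (q + 1) h A y * W y / P0 (q + 1) h y := by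
    rw [← integral_const_mul]
    exact integral_mono Gi (uvi.const_mul _) key
  have hL2 := l2_conc H hA A0 hAb Apos hAC
  have hK2 := kah H P b hρ0 hρ1.le (k := 2) (by norm_num)
  have hrc := rcmp H hA A0 hAb Apos hAC hP b hρ0 hρ1 hK hpos
  have Hm := LCD.mul H hA A0 hAb hAC
  have hAi : Integrable fun x => h x * A x := Hm.int
  have hApos : 0 < ∫ x, h x * A x := by
    rw [integral_pos_iff_support_of_nonneg (fun x => mul_nonneg (h0 x) (A0 x)) hAi]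
    refine ((integral_pos_iff_support_of_nonneg h0 hi).1 hpos).trans_le (measure_mono fun x hx => ?_)
    rw [Function.mem_support] at hx ⊢
    have h1 : 0 < h x := lt_of_le_of_ne (h0 x) (Ne.symm hx)
    exact (mul_pos h1 (Apos x h1)).ne'
  obtain ⟨-, -, ha2⟩ := a2r Hm hP b hρ0 hρ1 hK hApos
  have eA : ∫ x, h x * A x = ∫ x, A x * h x := by simp only [mul_comm]
  have enp : ∫ x, A x * ‖P x - b‖ ^ ρ * h x = ∫ x, ‖P x - b‖ ^ ρ * (h x * A x) := by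
    refine integral_congr_ae (Eventually.of_forall fun x => ?_)
    simp only
    ring
  have enm : ∫ x, A x * (c * ‖P x - b‖ ^ (-ρ)) * h x =
      c * ∫ x, ‖P x - b‖ ^ (-ρ) * (h x * A x) := by
    rw [← integral_const_mul]
    refine integral_congr_ae (Eventually.of_forall fun x => ?_)
    simp only
    ring
  rw [enm]
  rw [enp] at hrc
  rw [eA] at ha2 hApos
  have hI0 : 0 ≤ ∫ y, P2 (q + 1) h A y * W y / P0 (q + 1) h y :=
    integral_nonneg fun y => div_nonneg (mul_nonneg (P20 y) (W0 y)) (P00 y)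
  have hnm : 0 ≤ ∫ x, ‖P x - b‖ ^ (-ρ) * (h x * A x) :=
    integral_nonneg fun x => mul_nonneg (Real.rpow_nonneg (Npos x).le _)
      (mul_nonneg (h0 x) (A0 x))
  have hnp : 0 ≤ ∫ x, ‖P x - b‖ ^ ρ * (h x * A x) :=
    integral_nonneg fun x => mul_nonneg (Real.rpow_nonneg (Npos x).le _)
      (mul_nonneg (h0 x) (A0 x))
  have hn1 : 0 ≤ ∫ x, ‖P x - b‖ ^ ρ * h x :=
    integral_nonneg fun x => mul_nonneg (Real.rpow_nonneg (Npos x).le _) (h0 x)
  have hn2 : 0 ≤ ∫ x, ‖P x - b‖ ^ (((2 : ℕ) : ℝ) * ρ) * h x :=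
    integral_nonneg fun x => mul_nonneg (Real.rpow_nonneg (Npos x).le _) (h0 x)
  have ha20 : 0 ≤ ∫ x, A x ^ 2 * h x := integral_nonneg fun x => mul_nonneg (sq_nonneg _) (h0 x)
  have hcK : 0 ≤ cK 2 := by
    unfold cK
    positivity
  have hV20 : 0 ≤ ∫ y, W y ^ 2 / P0 (q + 1) h y :=
    integral_nonneg fun y => div_nonneg (sq_nonneg _) (P00 y)
  unfold cN
  exact tf9_arith hpos hc hI0 hV20 hcs2 p2e hV2 hL2 hK2 hrc ha2 hG hnm hnp hn1 hn2 ha20 hApos hcK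

end Pool.Agent.Lib.MP_8d00da_gt.h42t
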