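import Mathlib
import Pool.Agent.Lib.MP_8d00da_gt.h42t.TF9

/-!
# Core inequality, plain form for densities
-/

namespace Pool.Agent.Lib.MP_8d00da_gt.h42t

open MeasureTheory Set Filter
open Pool.Agent.Lib.MP_8d00da_gt.h25 Pool.Agent.Lib.MP_8d00da_gt.h42
open Pool.Agent.Lib.MP_8d00da_gt.h42s Pool.Agent.Lib.MP_8d00da_gt.h42o
open Pool.Agent.Lib.MP_8d00da_gt.h97r Pool.Agent.Lib.MP_8d00da_gt.h42r
open scoped Topology NNReal ENNReal

set_option linter.unusedSectionVars false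

variable {F : Type*} [NormedAddCommGroup F] [InnerProductSpace ℝ F]
    [FiniteDimensional ℝ F] [MeasurableSpace F] [BorelSpace F]

variable {G : Type*} [NormedAddCommGroup G] [InnerProductSpace ℝ G]
    [FiniteDimensional ℝ G] [MeasurableSpace G] [BorelSpace G]

variable {ι : Type*} [Fintype ι]

variable {q : ℕ}

private theorem tf10_xm {ω : F → ℝ} {c : ℝ} (y : F) (s : Fin q → F) :
    xm (fun x => ω x / c) y s = xm ω y s / c := by
  unfold xm
  have h1 : ∀ x : F, (ω x / c)⁻¹ = c * (ω x)⁻¹ := fun x => by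
    rw [inv_div, div_eq_mul_inv]
  simp only [h1]
  rw [← Finset.mul_sum, ← mul_add, mul_inv, mul_comm, div_eq_mul_inv]

private theorem tf10_cm (y : F) (s : Fin q → F) : cm (fun _ : F => (1 : ℝ)) y s = 1 := by
  unfold cm
  simp only [Finset.sum_const, Finset.card_univ, Fintype.card_fin, nsmul_eq_mul, mul_one]
  have h1 : (0 : ℝ) < (q : ℝ) + 1 := by positivity
  rw [add_comm, div_self h1.ne']

private theorem tf10_P2 (h : F → ℝ) (y : F) : P2 q h (fun _ => 1) y = P0 q h y := by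
  unfold P2 P0
  simp only [tf10_cm, mul_one]

private theorem tf10_wy {h ω : F → ℝ} (hh : Measurable h) (h0 : ∀ x, 0 ≤ h x) {Hb : ℝ}
    (hb : ∀ x, h x ≤ Hb) (hi : Integrable h) (ωj : Integrable fun x => h x / ω x) :
    (Integrable fun y => ∫ x, (ω x)⁻¹ * wy q h y x) ∧
      ∫ y, ∫ x, (ω x)⁻¹ * wy q h y x = (∫ x, h x / ω x) * (∫ x, h x) ^ (q + 1) := by
  obtain ⟨h1, h2⟩ := P0_int (q := q) hh h0 hb hi
  have e1 : (fun y => ∫ x, (ω x)⁻¹ * wy q h y x) =
      MeasureTheory.convolution (fun x => h x / ω x) (P0 q h) (ContinuousLinearMap.mul ℝ ℝ)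
        volume := by
    funext y
    rw [MeasureTheory.convolution_def]
    refine integral_congr_ae (Eventually.of_forall fun x => ?_)
    simp only [wy, ContinuousLinearMap.mul_apply']
    rw [div_eq_mul_inv]
    ring
  constructor
  · rw [e1]
    exact ωj.integrable_convolution _ h1
  · have h3 := integral_convolution (μ := (volume : Measure F)) (ν := (volume : Measure F))
      (ContinuousLinearMap.mul ℝ ℝ) ωj h1
    rw [e1, h3, h2]
    rfl

/-- `A = 1`: `P2 = P0`, and by `oh_plain` `P0²/oh ≤ (q+2) ∫ ω⁻¹ wy`, whose integral over `y` is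
`(q+2) (∫ h/ω) (∫ h)^(q+1)` (`wy q h y x = h x P0 q h (y - x)`, `P0_int`). -/
theorem core_plain {h ω : F → ℝ} (hh : Measurable h) (h0 : ∀ x, 0 ≤ h x) {Hb : ℝ}
    (hb : ∀ x, h x ≤ Hb) (hi : Integrable h) (hω : Measurable ω) (ω0 : ∀ x, 0 ≤ ω x)
    (ωpos : ∀ x, 0 < h x → 0 < ω x) (ωi : Integrable fun x => h x * ω x)
    (ωj : Integrable fun x => h x / ω x) {C : ℝ} (hC : 0 ≤ C)
    (hA2 : (∫ x, h x * ω x) * (∫ x, h x / ω x) ≤ C * (∫ x, h x) ^ 2) :
    (Integrable fun y => P0 (q + 1) h y * P2 (q + 1) h (fun _ => 1) y / oh (q + 1) h ω y) ∧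
    (∫ x, 1 * ω x * h x) *
      (∫ y, P0 (q + 1) h y * P2 (q + 1) h (fun _ => 1) y / oh (q + 1) h ω y) ≤
      ((q : ℝ) + 2) * C * ((∫ x, 1 * h x) ^ 2 * (∫ x, h x) ^ (q + 1)) := by
  simp only [tf10_P2, one_mul]
  obtain ⟨w1, w2⟩ := tf10_wy (q := q) hh h0 hb hi ωj
  have b0 : ∀ y, 0 ≤ P0 (q + 1) h y * P0 (q + 1) h y / oh (q + 1) h ω y := fun y =>
    div_nonneg (mul_self_nonneg _) (oh_nonneg h0 ω0 y)
  have b1 : ∀ y, P0 (q + 1) h y * P0 (q + 1) h y / oh (q + 1) h ω y ≤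
      ((q : ℝ) + 2) * ∫ x, (ω x)⁻¹ * wy q h y x := by
    intro y
    have n1 : 0 ≤ ∫ x, (ω x)⁻¹ * wy q h y x := integral_nonneg fun x =>
      mul_nonneg (inv_nonneg.2 (ω0 x)) (mul_nonneg (h0 x) (P0_nonneg h0 _))
    rcases (P0_nonneg (q := q + 1) h0 y).eq_or_lt with hz | hz
    · rw [← hz, zero_mul, zero_div]
      positivity
    · have h3 := oh_plain (q := q) hh h0 hb hi hω ω0 ωpos ωi ωj y
      have h4 := mul_le_mul_of_nonneg_left h3 hz.le
      rw [mul_div_cancel₀ _ hz.ne', ← mul_div_assoc] at h4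
      exact h4
  have m1 : Measurable fun y => P0 (q + 1) h y * P0 (q + 1) h y / oh (q + 1) h ω y :=
    ((P0_meas hh).mul (P0_meas hh)).div (oh_meas hh hω)
  have i2 : Integrable fun y => ((q : ℝ) + 2) * ∫ x, (ω x)⁻¹ * wy q h y x := w1.const_mul _
  have i1 : Integrable fun y => P0 (q + 1) h y * P0 (q + 1) h y / oh (q + 1) h ω y := by
    refine i2.mono' m1.aestronglyMeasurable (Eventually.of_forall fun y => ?_)
    rw [Real.norm_of_nonneg (b0 y)]
    exact b1 y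
  refine ⟨i1, ?_⟩
  have h5 : ∫ y, P0 (q + 1) h y * P0 (q + 1) h y / oh (q + 1) h ω y ≤
      ((q : ℝ) + 2) * ((∫ x, h x / ω x) * (∫ x, h x) ^ (q + 1)) := by
    have h6 := integral_mono i1 i2 b1
    rw [integral_const_mul, w2] at h6
    exact h6
  have hZ : 0 ≤ (∫ x, h x) ^ (q + 1) := pow_nonneg (integral_nonneg h0) _
  have hω1 : 0 ≤ ∫ x, h x * ω x := integral_nonneg fun x => mul_nonneg (h0 x) (ω0 x)
  have e2 : ∫ x, ω x * h x = ∫ x, h x * ω x :=
    integral_congr_ae (Eventually.of_forall fun x => mul_comm _ _)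
  rw [e2]
  calc (∫ x, h x * ω x) * ∫ y, P0 (q + 1) h y * P0 (q + 1) h y / oh (q + 1) h ω y
      ≤ (∫ x, h x * ω x) * (((q : ℝ) + 2) * ((∫ x, h x / ω x) * (∫ x, h x) ^ (q + 1))) :=
        mul_le_mul_of_nonneg_left h5 hω1
    _ = ((q : ℝ) + 2) * (((∫ x, h x * ω x) * (∫ x, h x / ω x)) * (∫ x, h x) ^ (q + 1)) := by
        ring
    _ ≤ ((q : ℝ) + 2) * ((C * (∫ x, h x) ^ 2) * (∫ x, h x) ^ (q + 1)) := by
        refine mul_le_mul_of_nonneg_left (mul_le_mul_of_nonneg_right hA2 hZ) ?_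
        positivity
    _ = ((q : ℝ) + 2) * C * ((∫ x, h x) ^ 2 * (∫ x, h x) ^ (q + 1)) := by ring

/-- Scaling of the averaged weight. -/
theorem oh_scale {h ω : F → ℝ} {c : ℝ} (hc : 0 < c) (y : F) :
    oh q h (fun x => ω x / c) y = oh q h ω y / c := by
  unfold oh
  simp only [tf10_xm]
  rw [← integral_div]
  refine integral_congr_ae (Eventually.of_forall fun s => ?_)
  simp only []
  rw [mul_div_assoc]

end Pool.Agent.Lib.MP_8d00da_gt.h42t
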