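import Mathlib
import Pool.Agent.Lib.MP_8d00da_gt.h97r.RExpI
import Pool.Agent.Lib.MP_8d00da_gt.h97r.RDecay
import Pool.Agent.Lib.MP_8d00da_gt.h42r.AL1
import Pool.Agent.Lib.MP_8d00da_gt.h42t.TF0

/-!
# Log-concave data from integrability
-/

namespace Pool.Agent.Lib.MP_8d00da_gt.h42t

open MeasureTheory Set Filter
open Pool.Agent.Lib.MP_8d00da_gt.h25 Pool.Agent.Lib.MP_8d00da_gt.h42
open Pool.Agent.Lib.MP_8d00da_gt.h42s Pool.Agent.Lib.MP_8d00da_gt.h42o
open Pool.Agent.Lib.MP_8d00da_gt.h97r Pool.Agent.Lib.MP_8d00da_gt.h42r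
open scoped Topology NNReal ENNReal

set_option linter.unusedSectionVars false

variable {F : Type*} [NormedAddCommGroup F] [InnerProductSpace ℝ F]
    [FiniteDimensional ℝ F] [MeasurableSpace F] [BorelSpace F]

variable {G : Type*} [NormedAddCommGroup G] [InnerProductSpace ℝ G]
    [FiniteDimensional ℝ G] [MeasurableSpace G] [BorelSpace G]

variable {ι : Type*} [Fintype ι]

/-- `h97r.decay`: `h x ≤ C exp (-(a ‖x‖))`; `‖x‖^k exp (-(a‖x‖))` is integrable
(compare `h97r.exp_norm_int`, and `‖x‖^k ≤ k! (2/a)^k exp (a ‖x‖/2)`). -/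
theorem lcd_of_int {h : F → ℝ} (h0 : ∀ x, 0 ≤ h x) (hh : Measurable h) (hlc : LogConc h)
    (hi : Integrable h) (hpos : 0 < ∫ x, h x) : LCD h := by
  obtain ⟨C, a, hC, ha, hdec⟩ := decay h0 hh hlc hi hpos
  refine ⟨hh, h0, hlc, ⟨C, fun x => ?_⟩, fun k => ?_⟩
  · refine (hdec x).trans ?_
    have h1 : Real.exp (-(a * ‖x‖)) ≤ 1 := by
      rw [Real.exp_le_one_iff]
      have : 0 ≤ a * ‖x‖ := by positivity
      linarith
    nlinarith
  · have hint : Integrable fun x : F =>
        (k.factorial : ℝ) * (2 / a) ^ k * C * ((1 + ‖x‖ ^ 2) * Real.exp (-(a / 2 * ‖x‖))) :=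
      (exp_norm_int (F := F) (by positivity : 0 < a / 2)).const_mul _
    refine hint.mono' ((measurable_norm.pow_const k).mul hh).aestronglyMeasurable
      (Eventually.of_forall fun x => ?_)
    rw [Real.norm_of_nonneg (mul_nonneg (by positivity) (h0 x))]
    have h1 := Real.pow_div_factorial_le_exp (a / 2 * ‖x‖) (by positivity) k
    have hf : (0 : ℝ) < k.factorial := by exact_mod_cast Nat.factorial_pos k
    rw [div_le_iff₀ hf] at h1
    have h2 : ‖x‖ ^ k = (2 / a) ^ k * (a / 2 * ‖x‖) ^ k := by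
      rw [← mul_pow]
      congr 1
      field_simp
    have h3 : ‖x‖ ^ k ≤ (2 / a) ^ k * (Real.exp (a / 2 * ‖x‖) * k.factorial) := by
      rw [h2]
      exact mul_le_mul_of_nonneg_left h1 (by positivity)
    have h4 : Real.exp (a / 2 * ‖x‖) * Real.exp (-(a * ‖x‖)) = Real.exp (-(a / 2 * ‖x‖)) := by
      rw [← Real.exp_add]
      congr 1
      ring
    calc ‖x‖ ^ k * h x
        ≤ ((2 / a) ^ k * (Real.exp (a / 2 * ‖x‖) * k.factorial)) *
            (C * Real.exp (-(a * ‖x‖))) :=
          mul_le_mul h3 (hdec x) (h0 x) (by positivity)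
      _ = (k.factorial : ℝ) * (2 / a) ^ k * C *
            (Real.exp (a / 2 * ‖x‖) * Real.exp (-(a * ‖x‖))) := by ring
      _ = (k.factorial : ℝ) * (2 / a) ^ k * C * Real.exp (-(a / 2 * ‖x‖)) := by rw [h4]
      _ ≤ _ := by
          refine mul_le_mul_of_nonneg_left ?_ (by positivity)
          have h5 : 0 ≤ ‖x‖ ^ 2 := by positivity
          have h6 := Real.exp_pos (-(a / 2 * ‖x‖))
          nlinarith

/-- `L - V` is concave on `{V < L}`. -/
theorem acon_pp {V : F → ℝ} (hV : ConvexOn ℝ univ V) (L : ℝ) : ACon (ib V L) (pp V L) := by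
  intro x y hx hy a ha0 ha1
  have key : ∀ z, 0 < ib V L z → V z < L := by
    intro z hz
    by_contra hcon
    unfold ib at hz
    rw [Set.indicator_of_notMem (by simpa using hcon)] at hz
    exact lt_irrefl _ hz
  have h1 := key x hx
  have h2 := key y hy
  have h3 := hV.2 (mem_univ x) (mem_univ y) (by linarith : (0 : ℝ) ≤ 1 - a) ha0 (by ring)
  simp only [smul_eq_mul] at h3
  unfold h42r.pp
  rw [max_eq_left (by linarith : (0 : ℝ) ≤ L - V x), max_eq_left (by linarith : (0 : ℝ) ≤ L - V y)]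
  refine le_trans ?_ (le_max_left _ _)
  linarith

theorem acon_one (h : F → ℝ) : ACon h fun _ => 1 := by
  intro x y _ _ a _ _
  linarith

/-- The body `{V < L}`, bounded and not empty (`V` continuous), has positive finite volume;
`lcd_of_int`, `h42r.ib_lc`. -/
theorem lcd_ib {V : F → ℝ} (hV : ConvexOn ℝ univ V) (hVc : Continuous V) {L : ℝ}
    (hbd : Bornology.IsBounded {x | V x < L}) (hne : ∃ x, V x < L) :
    LCD (ib V L) ∧ 0 < ∫ x, ib V L x := by
  have hop : IsOpen {x | V x < L} := isOpen_lt hVc continuous_const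
  have hfin : volume {x | V x < L} ≠ ⊤ := hbd.measure_lt_top.ne
  have hint : Integrable (ib V L) := by
    have h1 : IntegrableOn (fun _ : F => (1 : ℝ)) {x | V x < L} := integrableOn_const hfin
    exact (integrable_indicator_iff hop.measurableSet).2 h1
  have hpos : 0 < ∫ x, ib V L x := by
    have h1 : ∫ x, ib V L x = (volume {x | V x < L}).toReal := by
      have h2 : ∫ x, ib V L x = ∫ x in {x | V x < L}, (1 : ℝ) :=
        integral_indicator hop.measurableSet
      rw [h2, setIntegral_const, smul_eq_mul, mul_one]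
      rfl
    rw [h1]
    exact ENNReal.toReal_pos (hop.measure_pos _ hne).ne' hfin
  exact ⟨lcd_of_int (ib_nonneg V L) (ib_meas hVc L) (ib_lc hV L) hint hpos, hpos⟩

end Pool.Agent.Lib.MP_8d00da_gt.h42t
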