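import Mathlib
import Pool.Agent.Lib.MP_8d00da_gt.h42r.AP3a

namespace Pool.Agent.Lib.MP_8d00da_gt.h25
end Pool.Agent.Lib.MP_8d00da_gt.h25
namespace Pool.Agent.Lib.MP_8d00da_gt.h42s
end Pool.Agent.Lib.MP_8d00da_gt.h42s
namespace Pool.Agent.Lib.MP_8d00da_gt.h42o
end Pool.Agent.Lib.MP_8d00da_gt.h42o
namespace Pool.Agent.Lib.MP_8d00da_gt.h97r
end Pool.Agent.Lib.MP_8d00da_gt.h97r


/-!
# Uniform lower bound for second differences of powers
-/

namespace Pool.Agent.Lib.MP_8d00da_gt.h42t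

open MeasureTheory Set Filter
open Pool.Agent.Lib.MP_8d00da_gt.h25 Pool.Agent.Lib.MP_8d00da_gt.h42
open Pool.Agent.Lib.MP_8d00da_gt.h42s Pool.Agent.Lib.MP_8d00da_gt.h42o
open Pool.Agent.Lib.MP_8d00da_gt.h97r Pool.Agent.Lib.MP_8d00da_gt.h42r
open scoped Topology NNReal ENNReal

set_option linter.unusedSectionVars false

variable {F : Type*} [NormedAddCommGroup F] [InnerProductSpace ℝ F]
    [FiniteDimensional ℝ F] [MeasurableSpace F] [BorelSpace F]

variable {G : Type*} [NormedAddCommGroup G] [InnerProductSpace ℝ G]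
    [FiniteDimensional ℝ G] [MeasurableSpace G] [BorelSpace G]

variable {ι : Type*} [Fintype ι]

private lemma tg1_one {s : ℝ} (hs0 : 0 ≤ s) (hs1 : s ≤ 1) {x : ℝ} (hx0 : 0 ≤ x) (hx : x ≤ 1) :
    s * x ≤ (1 + x) ^ s - (1 - x) ^ s := by
  have h1 := rpow_one_add_le_one_add_mul_self (s := -x) (by linarith) hs0 hs1
  rw [← sub_eq_add_neg] at h1
  have h2 : 1 ≤ (1 + x) ^ s := Real.one_le_rpow (by linarith) hs0
  linarith

private lemma tg1_two {p : ℝ} (hp1 : 1 < p) (hp2 : p < 2) {x : ℝ} (hx0 : 0 ≤ x)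
    (hx : x ≤ 1 / 2) : p * (p - 1) / 2 * x ^ 2 ≤ (1 + x) ^ p + (1 - x) ^ p - 2 := by
  let f : ℝ → ℝ := fun t => (1 + t) ^ p + (1 - t) ^ p - p * (p - 1) / 2 * t ^ 2
  have hf : ∀ t ∈ Icc (0 : ℝ) (1 / 2), HasDerivAt f
      (p * ((1 + t) ^ (p - 1) - (1 - t) ^ (p - 1) - (p - 1) * t)) t := by
    intro t ht
    have h1 : HasDerivAt (fun t : ℝ => 1 + t) 1 t := by
      simpa using (hasDerivAt_id t).const_add 1
    have h2 : HasDerivAt (fun t : ℝ => 1 - t) (-1) t := by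
      simpa using (hasDerivAt_id t).const_sub 1
    have h3 := h1.rpow_const (p := p) (Or.inl (by linarith [ht.1] : (1 + t) ≠ 0))
    have h4 := h2.rpow_const (p := p) (Or.inl (by
      have := ht.2
      linarith : (1 - t) ≠ 0))
    have h5 := ((hasDerivAt_id t).pow 2).const_mul (p * (p - 1) / 2)
    refine ((h3.add h4).sub h5).congr_deriv ?_
    simp only [id]
    push_cast
    ring
  have hmono : MonotoneOn f (Icc 0 (1 / 2)) := by
    apply monotoneOn_of_deriv_nonneg (convex_Icc 0 (1 / 2))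
    · exact fun t ht => (hf t ht).continuousAt.continuousWithinAt
    · intro t ht
      rw [interior_Icc] at ht
      exact (hf t (Ioo_subset_Icc_self ht)).differentiableAt.differentiableWithinAt
    · intro t ht
      rw [interior_Icc] at ht
      have ht' := Ioo_subset_Icc_self ht
      rw [(hf t ht').deriv]
      have h1 := tg1_one (s := p - 1) (by linarith) (by linarith) ht'.1 (by linarith [ht'.2])
      exact mul_nonneg (by linarith) (by linarith)
  have h := hmono (left_mem_Icc.2 (by norm_num)) ⟨hx0, hx⟩ hx0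
  simp only [f, add_zero, sub_zero, Real.one_rpow] at h
  norm_num at h
  linarith

private lemma tg1_three {p : ℝ} (hp1 : 1 < p) (hp2 : p < 2) {α β : ℝ} (hα : 0 < α)
    (hβ0 : 0 ≤ β) (hβ : β ≤ α / 2) :
    p * (p - 1) / 2 * (α ^ (p - 2) * β ^ 2) ≤ (α + β) ^ p + (α - β) ^ p - 2 * α ^ p := by
  have hx0 : 0 ≤ β / α := by positivity
  have hx : β / α ≤ 1 / 2 := by
    rw [div_le_iff₀ hα]; linarith
  have h := tg1_two hp1 hp2 hx0 hx
  have e1 : (α + β) ^ p = α ^ p * (1 + β / α) ^ p := by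
    rw [← Real.mul_rpow hα.le (by linarith)]
    congr 1
    field_simp
  have e2 : (α - β) ^ p = α ^ p * (1 - β / α) ^ p := by
    rw [← Real.mul_rpow hα.le (by linarith)]
    congr 1
    field_simp
  have e3 : α ^ (p - 2) * β ^ 2 = α ^ p * (β / α) ^ 2 := by
    rw [Real.rpow_sub hα, Real.rpow_ofNat]
    field_simp
  rw [e1, e2, e3]
  have hαp : 0 < α ^ p := Real.rpow_pos_of_pos hα _
  have := mul_le_mul_of_nonneg_left h hαp.le
  linarith

private lemma tg1_half (y : G) (p : ℝ) : (‖y‖ ^ 2) ^ (p / 2) = ‖y‖ ^ p := by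
  rw [← Real.rpow_natCast ‖y‖ 2, ← Real.rpow_mul (norm_nonneg y)]
  congr 1
  push_cast
  ring

/-- For `‖v‖ ≤ ‖y‖/2`. If `y = 0` then `v = 0`, both sides are `0`. If `p ≥ 2`:
`(‖y+v‖^p + ‖y-v‖^p)/2 ≥ (‖y‖² + ‖v‖²)^{p/2} ≥ ‖y‖^p + (p/2) ‖y‖^{p-2} ‖v‖²` (convexity of
`t^{p/2}`, parallelogram identity, Bernoulli `Real.one_add_mul_self_le_rpow_one_add`). If
`1 < p < 2`: `g t = ‖y + t v‖^p`, `‖y + t v‖ ∈ [‖y‖/2, 3‖y‖/2]` for `|t| ≤ 1`, so `g` is smooth
there with `g'' ≥ p (p-1) ‖y + t v‖^{p-2} ‖v‖² ≥ p (p-1) (3/2)^{p-2} ‖y‖^{p-2} ‖v‖²` and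
`(3/2)^{p-2} ≥ 2/3`. (Compare the proof of `h42r.pw_low`, file `h42r/AP1.lean`.) -/
theorem pw_unif {p : ℝ} (hp : 1 < p) {y v : G} (hv : ‖v‖ ≤ ‖y‖ / 2) :
    p * min 1 (p - 1) / 2 * ‖y‖ ^ (p - 2) * ‖v‖ ^ 2 ≤ sd (fun y : G => ‖y‖ ^ p) y v := by
  rcases eq_or_ne y 0 with rfl | hy
  · rw [norm_zero, zero_div] at hv
    have hv0 : v = 0 := norm_le_zero_iff.1 hv
    subst hv0
    simp [sd, Real.zero_rpow (by linarith : p ≠ 0)]
  have hα : 0 < ‖y‖ := norm_pos_iff.2 hy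
  set α := ‖y‖ with hαdef
  set β := ‖v‖ with hβdef
  have hβ0 : 0 ≤ β := norm_nonneg v
  set c := inner ℝ y v with hc
  have hcs : |c| ≤ α * β := abs_real_inner_le_norm y v
  have hc1 := (abs_le.1 hcs).1
  have hc2 := (abs_le.1 hcs).2
  have hab : α * β ≤ α ^ 2 / 2 := by nlinarith
  set A := α ^ 2 + β ^ 2 with hA
  have e1 : ‖y + v‖ ^ p = (A + 2 * c) ^ (p / 2) := by
    rw [← tg1_half (y + v) p, norm_add_sq_real]
    congr 1
    ring
  have e2 : ‖y - v‖ ^ p = (A - 2 * c) ^ (p / 2) := by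
    rw [← tg1_half (y - v) p, norm_sub_sq_real]
    congr 1
    ring
  have hA1 : 0 ≤ A + 2 * c := by nlinarith
  have hA2 : 0 ≤ A - 2 * c := by nlinarith
  change p * min 1 (p - 1) / 2 * α ^ (p - 2) * β ^ 2 ≤ ‖y + v‖ ^ p + ‖y - v‖ ^ p - 2 * α ^ p
  rw [e1, e2]
  have hα2 : α ^ p = (α ^ 2) ^ (p / 2) := (tg1_half y p).symm
  rcases le_or_gt 2 p with hp2 | hp2
  · -- p ≥ 2
    rw [min_eq_left (by linarith), mul_one]
    have hq : 1 ≤ p / 2 := by linarith
    have h1 := (convexOn_rpow hq).2 (mem_Ici.2 hA1) (mem_Ici.2 hA2)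
      (by norm_num : (0 : ℝ) ≤ 1 / 2) (by norm_num : (0 : ℝ) ≤ 1 / 2) (by norm_num)
    simp only [smul_eq_mul] at h1
    have e3 : 1 / 2 * (A + 2 * c) + 1 / 2 * (A - 2 * c) = A := by ring
    rw [e3] at h1
    have h2 := one_add_mul_self_le_rpow_one_add (s := β ^ 2 / α ^ 2)
      (by have : 0 ≤ β ^ 2 / α ^ 2 := by positivity
          linarith) hq
    have e4 : A ^ (p / 2) = α ^ p * (1 + β ^ 2 / α ^ 2) ^ (p / 2) := by
      rw [hα2, ← Real.mul_rpow (by positivity) (by positivity)]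
      congr 1
      rw [hA]
      field_simp
    have hαp : 0 < α ^ p := Real.rpow_pos_of_pos hα _
    have h3 := mul_le_mul_of_nonneg_left h2 hαp.le
    rw [← e4] at h3
    have e5 : α ^ (p - 2) * β ^ 2 = α ^ p * (β ^ 2 / α ^ 2) := by
      rw [Real.rpow_sub hα, Real.rpow_ofNat]
      field_simp
    have e6 : p / 2 * α ^ (p - 2) * β ^ 2 = p / 2 * (α ^ p * (β ^ 2 / α ^ 2)) := by
      rw [← e5]; ring
    have h4 : 0 ≤ p / 2 * (α ^ p * (β ^ 2 / α ^ 2)) := by positivity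
    rw [e6]
    have e7 : α ^ p * (1 + p / 2 * (β ^ 2 / α ^ 2)) = α ^ p + p / 2 * (α ^ p * (β ^ 2 / α ^ 2)) := by
      ring
    rw [e7] at h3
    linarith
  · -- p < 2
    rw [min_eq_right (by linarith)]
    have h0 := tg1_three hp hp2 hα hβ0 hv
    have e8 : p * (p - 1) / 2 * α ^ (p - 2) * β ^ 2 = p * (p - 1) / 2 * (α ^ (p - 2) * β ^ 2) := by
      ring
    rw [e8]
    refine h0.trans ?_
    have e3 : (α + β) ^ p = (A + 2 * (α * β)) ^ (p / 2) := by
      have : A + 2 * (α * β) = (α + β) ^ 2 := by rw [hA]; ring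
      rw [this, ← Real.rpow_natCast (α + β) 2, ← Real.rpow_mul (by linarith)]
      congr 1
      push_cast
      ring
    have e4 : (α - β) ^ p = (A - 2 * (α * β)) ^ (p / 2) := by
      have : A - 2 * (α * β) = (α - β) ^ 2 := by rw [hA]; ring
      rw [this, ← Real.rpow_natCast (α - β) 2, ← Real.rpow_mul (by linarith)]
      congr 1
      push_cast
      ring
    rw [e3, e4]
    rcases eq_or_lt_of_le (mul_nonneg hα.le hβ0) with h | h
    · have hc0 : c = 0 := by linarith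
      rw [← h, hc0]
    · set h' := α * β with hh'
      have hcc := Real.concaveOn_rpow (p := p / 2) (by linarith) (by linarith)
      have hX : 0 ≤ A + 2 * h' := by positivity
      have hY : 0 ≤ A - 2 * h' := by nlinarith
      set l := (h' + c) / (2 * h') with hl
      have hl0 : 0 ≤ l := div_nonneg (by linarith) (by linarith)
      have hl1 : 0 ≤ 1 - l := by
        rw [hl, sub_nonneg, div_le_one (by linarith)]
        linarith
      have hlh : l * (2 * h') = h' + c := by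
        rw [hl]; field_simp
      have h1 := hcc.2 (mem_Ici.2 hX) (mem_Ici.2 hY) hl0 hl1 (by ring)
      have h2 := hcc.2 (mem_Ici.2 hX) (mem_Ici.2 hY) hl1 hl0 (by ring)
      simp only [smul_eq_mul] at h1 h2
      have e5 : l * (A + 2 * h') + (1 - l) * (A - 2 * h') = A + 2 * c := by linarith
      have e6 : (1 - l) * (A + 2 * h') + l * (A - 2 * h') = A - 2 * c := by linarith
      rw [e5] at h1
      rw [e6] at h2
      linarith

/-- `r = ε/(2 (1 + ∑ ‖P_j‖))`: then `‖P_j u‖ ≤ ε/2 ≤ ‖P_j x - b_j‖/2`; `sd_Vf`, `pw_unif`. -/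
theorem vf_low {c p : ι → ℝ} {P : ι → F →L[ℝ] G} (hc : ∀ j, 0 < c j) (hp : ∀ j, 1 < p j)
    {b : ι → G} (v : F) {ε : ℝ} (hε : 0 < ε) (hN : ∀ j x, ε ≤ ‖P j x - b j‖) :
    ∃ r : ℝ, 0 < r ∧ ∀ x u, ‖u‖ ≤ r →
      ∑ j, ωf c p P b j x / 2 * ‖P j u‖ ^ 2 ≤ sd (Vf c p P b v) x u := by
  set S : ℝ := ∑ j, ‖P j‖ with hS
  have hS0 : 0 ≤ S := Finset.sum_nonneg fun j _ => norm_nonneg _
  refine ⟨ε / (2 * (1 + S)), by positivity, fun x u hu => ?_⟩
  rw [sd_Vf]
  refine Finset.sum_le_sum fun j _ => ?_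
  have hPj : ‖P j‖ ≤ S := Finset.single_le_sum (f := fun j => ‖P j‖)
    (fun j _ => norm_nonneg _) (Finset.mem_univ j)
  have h1 : ‖P j u‖ ≤ ‖P j x - b j‖ / 2 := by
    calc ‖P j u‖ ≤ ‖P j‖ * ‖u‖ := (P j).le_opNorm u
      _ ≤ (1 + S) * (ε / (2 * (1 + S))) := by
        gcongr
        linarith
      _ = ε / 2 := by field_simp
      _ ≤ ‖P j x - b j‖ / 2 := by linarith [hN j x]
  have h2 := mul_le_mul_of_nonneg_left (pw_unif (hp j) h1) (hc j).le
  refine le_trans (le_of_eq ?_) h2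
  unfold ωf
  ring

end Pool.Agent.Lib.MP_8d00da_gt.h42t
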