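import Mathlib
import Pool.Agent.Lib.MP_8d00da_gt.h42r.AC1
import Pool.Agent.Lib.MP_8d00da_gt.h42r.AC2
import Pool.Agent.Lib.MP_8d00da_gt.h42r.AC4

namespace Pool.Agent.Lib.MP_8d00da_gt.h25
end Pool.Agent.Lib.MP_8d00da_gt.h25
namespace Pool.Agent.Lib.MP_8d00da_gt.h42s
end Pool.Agent.Lib.MP_8d00da_gt.h42s
namespace Pool.Agent.Lib.MP_8d00da_gt.h42o
end Pool.Agent.Lib.MP_8d00da_gt.h42o
namespace Pool.Agent.Lib.MP_8d00da_gt.h97r
end Pool.Agent.Lib.MP_8d00da_gt.h97r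


/-!
# Cramer-Rao inequalities
-/

namespace Pool.Agent.Lib.MP_8d00da_gt.h42t

open MeasureTheory Set Filter
open Pool.Agent.Lib.MP_8d00da_gt.h25 Pool.Agent.Lib.MP_8d00da_gt.h42
open Pool.Agent.Lib.MP_8d00da_gt.h42s Pool.Agent.Lib.MP_8d00da_gt.h42o
open Pool.Agent.Lib.MP_8d00da_gt.h97r Pool.Agent.Lib.MP_8d00da_gt.h42r
open scoped Topology NNReal ENNReal

set_option linter.unusedSectionVars false

variable {F : Type*} [NormedAddCommGroup F] [InnerProductSpace ℝ F]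
    [FiniteDimensional ℝ F] [MeasurableSpace F] [BorelSpace F]

variable {G : Type*} [NormedAddCommGroup G] [InnerProductSpace ℝ G]
    [FiniteDimensional ℝ G] [MeasurableSpace G] [BorelSpace G]

variable {ι : Type*} [Fintype ι]

/-- `CRK` and `up_int`. -/
theorem cr_body {V : F → ℝ} {P : ι → F →L[ℝ] G} {ω : ι → F → ℝ} {Λ : ℝ} (H : RD V P ω Λ) {L : ℝ}
    (hbd : Bornology.IsBounded {x | V x < L}) (hne : ∃ x, V x < L)
    (hω : ∀ j, Integrable fun x => pp V L x * ω j x) (θ u : F) :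
    (inner ℝ θ u * ∫ x, pp V L x) ^ 2 ≤ (∫ x, (inner ℝ θ x) ^ 2 * ib V L x) *
      (Λ * (∑ j, (∫ x, pp V L x * ω j x) * ‖P j u‖ ^ 2)) :=
  CRK H.conv H.cont hbd hne θ u (fun η hη => up_int H hbd hω u hη)

/-- `CRE` and `upE_int`. -/
theorem cr_dens {h : F → ℝ} {P : ι → F →L[ℝ] G} {ω : ι → F → ℝ} {Λ : ℝ} (H : RE h P ω Λ)
    (hi : Integrable h) (hi2 : Integrable fun x => ‖x‖ ^ 2 * h x)
    (hω : ∀ j, Integrable fun x => h x * ω j x) (θ u : F) :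
    (inner ℝ θ u * ∫ x, h x) ^ 2 ≤ (∫ x, (inner ℝ θ x) ^ 2 * h x) *
      (Λ * (∑ j, (∫ x, h x * ω j x) * ‖P j u‖ ^ 2)) := by
  refine CRE H.nn H.cont hi hi2 θ u (fun η hη => ?_)
  obtain ⟨τ0, h1, h2⟩ := upE_int H hi hi2 hω u hη
  refine ⟨τ0, h1, fun τ h3 h4 => (h2 τ h3 h4).trans (le_of_eq ?_)⟩
  ring

end Pool.Agent.Lib.MP_8d00da_gt.h42t
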