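import Mathlib
import Pool.Agent.Lib.MP_8d00da_gt.h42t.TA1
import Pool.Agent.Lib.MP_8d00da_gt.h42t.TF1
import Pool.Agent.Lib.MP_8d00da_gt.h42t.TF4

/-!
# Lower bound for the averaged weight
-/

namespace Pool.Agent.Lib.MP_8d00da_gt.h42t

open MeasureTheory Set Filter
open Pool.Agent.Lib.MP_8d00da_gt.h25 Pool.Agent.Lib.MP_8d00da_gt.h42
open Pool.Agent.Lib.MP_8d00da_gt.h42s Pool.Agent.Lib.MP_8d00da_gt.h42o
open Pool.Agent.Lib.MP_8d00da_gt.h97r Pool.Agent.Lib.MP_8d00da_gt.h42r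
open scoped Topology NNReal ENNReal

set_option linter.unusedSectionVars false

variable {F : Type*} [NormedAddCommGroup F] [InnerProductSpace ℝ F]
    [FiniteDimensional ℝ F] [MeasurableSpace F] [BorelSpace F]

variable {G : Type*} [NormedAddCommGroup G] [InnerProductSpace ℝ G]
    [FiniteDimensional ℝ G] [MeasurableSpace G] [BorelSpace G]

variable {ι : Type*} [Fintype ι]

variable {q : ℕ}

private lemma c1_sum_pow {κ : Type*} (s : Finset κ) (a : κ → ℝ) (h : ∀ i, 0 ≤ a i) {m : ℕ}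
    (hm : m ≠ 0) : ∑ i ∈ s, a i ^ m ≤ (∑ i ∈ s, a i) ^ m := by
  classical
  induction s using Finset.induction_on with
  | empty => simp [hm]
  | insert i s hi ih =>
    rw [Finset.sum_insert hi, Finset.sum_insert hi]
    exact (add_le_add le_rfl ih).trans
      (pow_add_pow_le (h i) (Finset.sum_nonneg fun j _ => h j) hm)

private lemma c1_pt {a ω : F → ℝ} (apos : ∀ x, 0 < a x) {c : ℝ} (hc : 0 < c) {m : ℕ} (hm : m ≠ 0)
    (hω : ∀ x, (ω x)⁻¹ = c⁻¹ * a x ^ m) (y : F) (s : Fin q → F) :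
    c ≤ xm ω y s * (a (y - ∑ i, s i) + ∑ i, a (s i)) ^ m := by
  have h1 : (ω (y - ∑ i, s i))⁻¹ + ∑ i, (ω (s i))⁻¹
      = c⁻¹ * (a (y - ∑ i, s i) ^ m + ∑ i, a (s i) ^ m) := by
    simp only [hω, mul_add, Finset.mul_sum]
  have hs : 0 ≤ ∑ i, a (s i) := Finset.sum_nonneg fun i _ => (apos _).le
  have h2 : a (y - ∑ i, s i) ^ m + ∑ i, a (s i) ^ m
      ≤ (a (y - ∑ i, s i) + ∑ i, a (s i)) ^ m :=
    (add_le_add le_rfl (c1_sum_pow Finset.univ (fun i => a (s i)) (fun i => (apos _).le) hm)).trans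
      (pow_add_pow_le (apos _).le hs hm)
  have h3 : 0 < a (y - ∑ i, s i) ^ m + ∑ i, a (s i) ^ m :=
    add_pos_of_pos_of_nonneg (pow_pos (apos _) m)
      (Finset.sum_nonneg fun i _ => (pow_pos (apos _) m).le)
  unfold xm
  rw [h1, mul_inv, inv_inv, mul_assoc]
  have h4 : 1 ≤ (a (y - ∑ i, s i) ^ m + ∑ i, a (s i) ^ m)⁻¹
      * (a (y - ∑ i, s i) + ∑ i, a (s i)) ^ m := by
    rw [inv_mul_eq_div, one_le_div h3]; exact h2
  exact le_mul_of_one_le_right hc.le h4

private lemma c1_hol {Ω : Type*} [MeasurableSpace Ω] {μ : Measure Ω} {w X g : Ω → ℝ}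
    (w0 : ∀ s, 0 ≤ w s) (X0 : ∀ s, 0 ≤ X s) (G0 : ∀ s, 0 ≤ g s) {m : ℕ} {c : ℝ} (hc : 0 < c)
    (h : ∀ s, c ≤ X s * g s ^ m) (wi : Integrable w μ) (wX : Integrable (fun s => w s * X s) μ)
    (wG : Integrable (fun s => w s * g s) μ) (pw : 0 < ∫ s, w s ∂μ) (pX : 0 < ∫ s, w s * X s ∂μ)
    (pG : 0 < ∫ s, w s * g s ∂μ) :
    c * (∫ s, w s ∂μ) ^ (m + 1) ≤ (∫ s, w s * X s ∂μ) * (∫ s, w s * g s ∂μ) ^ m := by
  set Z := ∫ s, w s ∂μ with hZ
  set A := ∫ s, w s * X s ∂μ with hA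
  set B := ∫ s, w s * g s ∂μ with hB
  set a : ℝ := 1 / ((m : ℝ) + 1) with ha_def
  have hm1 : (0 : ℝ) < (m : ℝ) + 1 := by positivity
  have ha : 0 < a := by rw [ha_def]; positivity
  have hma : 1 - a = a * m := by
    rw [ha_def]; field_simp; ring
  have ha1 : 0 ≤ 1 - a := by rw [hma]; positivity
  have hθ : 0 < c * Z ^ (m + 1) / (A * B ^ m) := by positivity
  have hpt : ∀ s, (c * Z ^ (m + 1) / (A * B ^ m)) ^ a * w s
      ≤ a * (Z / A) * (w s * X s) + (1 - a) * (Z / B) * (w s * g s) := by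
    intro s
    have hX : 0 ≤ X s * (Z / A) := mul_nonneg (X0 s) (by positivity)
    have hG : 0 ≤ g s * (Z / B) := mul_nonneg (G0 s) (by positivity)
    have h1 := Real.geom_mean_le_arith_mean2_weighted ha.le ha1 hX hG (by ring)
    have h2 : (X s * (Z / A)) ^ a * (g s * (Z / B)) ^ (1 - a)
        = ((X s * (Z / A)) * (g s * (Z / B)) ^ m) ^ a := by
      rw [Real.mul_rpow hX (pow_nonneg hG m), hma, mul_comm a (m : ℝ), Real.rpow_mul hG,
        Real.rpow_natCast]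
    have h3 : c * Z ^ (m + 1) / (A * B ^ m) ≤ (X s * (Z / A)) * (g s * (Z / B)) ^ m := by
      have e : (X s * (Z / A)) * (g s * (Z / B)) ^ m
          = (X s * g s ^ m) * (Z ^ (m + 1) / (A * B ^ m)) := by
        rw [mul_pow, div_pow, pow_succ]; field_simp
      rw [e, mul_div_assoc]
      exact mul_le_mul_of_nonneg_right (h s) (by positivity)
    have h4 : (c * Z ^ (m + 1) / (A * B ^ m)) ^ a
        ≤ a * (X s * (Z / A)) + (1 - a) * (g s * (Z / B)) :=
      ((Real.rpow_le_rpow hθ.le h3 ha.le).trans_eq h2.symm).trans h1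
    calc (c * Z ^ (m + 1) / (A * B ^ m)) ^ a * w s
        ≤ (a * (X s * (Z / A)) + (1 - a) * (g s * (Z / B))) * w s :=
          mul_le_mul_of_nonneg_right h4 (w0 s)
      _ = _ := by ring
  have hint := integral_mono (wi.const_mul _) ((wX.const_mul _).add (wG.const_mul _)) hpt
  have e2 : ∫ s, (a * (Z / A) * (w s * X s) + (1 - a) * (Z / B) * (w s * g s)) ∂μ = Z := by
    rw [integral_add (wX.const_mul _) (wG.const_mul _), integral_const_mul, integral_const_mul,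
      ← hA, ← hB]
    field_simp
    ring
  rw [integral_const_mul, ← hZ] at hint
  have h5 : (c * Z ^ (m + 1) / (A * B ^ m)) ^ a * Z ≤ Z := hint.trans_eq e2
  have h6 : (c * Z ^ (m + 1) / (A * B ^ m)) ^ a ≤ 1 := by
    by_contra hcon
    push Not at hcon
    have := mul_lt_mul_of_pos_right hcon pw
    rw [one_mul] at this
    linarith
  have h7 : c * Z ^ (m + 1) / (A * B ^ m) ≤ 1 := by
    by_contra hcon
    push Not at hcon
    exact absurd (Real.one_lt_rpow hcon ha) (not_lt.mpr h6)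
  rwa [div_le_one (by positivity)] at h7

/-- Let `m = q + 2`, `N x = ‖P x - b‖`, `ω = c N^(m α)`, `s = 1/m`. All integrals over
`Fin (q+1) → F` with weight `hm h y`. Hoelder: `P0^(m+1) ≤ oh · (∫ hm X^(-1/m))^m`
(`X = xm ω y > 0` where `hm > 0`; exponents `m+1`, `(m+1)/m`), and
`X^(-1/m) = (∑_l 1/ω(y_l))^(1/m) ≤ ∑_l ω(y_l)^(-1/m) = c^(-1/m) ∑_l N(y_l)^(-α)`
(`Real.rpow_add_le_add_rpow` type inequality). By `marg_int`, `marg_int0` all `m` terms have the
same integral `∫ N^(-α) wy`, which by `a2r` (for `wy`, `wy_lcd`, `pi_pl`) is at most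
`K P0²/∫ N^α wy`. So `P0^(m+1) (∫ N^α wy)^m ≤ oh c⁻¹ (m K)^m P0^(2m)`. If `P0 = 0` both sides are
`0` (`∫ N^α wy = 0`). -/
theorem c1_low {h : F → ℝ} (H : LCD h) {P : F →L[ℝ] G} (hP : P ≠ 0) {b : G} {ε : ℝ} (hε : 0 < ε)
    (hN : ∀ x, ε ≤ ‖P x - b‖) {α : ℝ} (hα0 : 0 ≤ α) (hα1 : α < 1) {K : ℝ} (hK : cA α ≤ K) {c : ℝ}
    (hc : 0 < c) (y : F) :
    (∫ x, ‖P x - b‖ ^ α * wy q h y x) ^ (q + 2) ≤
      (((q : ℝ) + 2) * K) ^ (q + 2) / c *
        oh (q + 1) h (fun x => c * ‖P x - b‖ ^ (((q : ℝ) + 2) * α)) y *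
        P0 (q + 1) h y ^ (q + 1) := by
  obtain ⟨Hb, hb⟩ := H.hb
  have W := wy_lcd H (pi_pl q) y
  obtain ⟨wi, we⟩ := wy_int H.meas H.h0 hb H.int y (q := q)
  have w0 : ∀ x, 0 ≤ wy q h y x := W.h0
  have hP0 : 0 ≤ P0 (q + 1) h y := P0_nonneg H.h0 y
  rcases hP0.eq_or_lt with h0 | hpos
  · -- `P0 = 0`
    have hz : (∫ x, ‖P x - b‖ ^ α * wy q h y x) = 0 := by
      have h1 : wy q h y =ᵐ[volume] 0 := by
        rw [← integral_eq_zero_iff_of_nonneg w0 wi, we, ← h0]
      have h2 : (fun x => ‖P x - b‖ ^ α * wy q h y x) =ᵐ[volume] fun _ => (0 : ℝ) := by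
        filter_upwards [h1] with x hx
        rw [hx, Pi.zero_apply, mul_zero]
      rw [integral_congr_ae h2, integral_zero]
    rw [hz, ← h0, zero_pow (by omega), zero_pow (by omega), mul_zero]
  · have hwpos : 0 < ∫ x, wy q h y x := by rw [we]; exact hpos
    obtain ⟨hJi, hI, hIJ⟩ := a2r W hP b hα0 hα1 hK hwpos
    rw [we] at hIJ
    -- notation
    have hNpos : ∀ x, 0 < ‖P x - b‖ := fun x => hε.trans_le (hN x)
    have apos : ∀ x, 0 < ‖P x - b‖ ^ (-α) := fun x => Real.rpow_pos_of_pos (hNpos x) _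
    have hNm : Measurable fun x => ‖P x - b‖ := (P.continuous.sub continuous_const).norm.measurable
    have am : Measurable fun x => ‖P x - b‖ ^ (-α) := hNm.pow_const _
    have hm' : ((q : ℝ) + 2) * α = (((q + 2 : ℕ) : ℝ)) * α := by push_cast; ring
    have hω : ∀ x, (c * ‖P x - b‖ ^ (((q : ℝ) + 2) * α))⁻¹
        = c⁻¹ * (‖P x - b‖ ^ (-α)) ^ (q + 2) := by
      intro x
      rw [mul_inv, ← Real.rpow_neg (hNpos x).le, ← Real.rpow_natCast, ← Real.rpow_mul (hNpos x).le]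
      congr 2
      push_cast; ring
    have ωm : Measurable fun x => c * ‖P x - b‖ ^ (((q : ℝ) + 2) * α) :=
      (hNm.pow_const _).const_mul c
    have ωpos : ∀ x, 0 < c * ‖P x - b‖ ^ (((q : ℝ) + 2) * α) := fun x =>
      mul_pos hc (Real.rpow_pos_of_pos (hNpos x) _)
    have ωi : Integrable fun x => h x * (c * ‖P x - b‖ ^ (((q : ℝ) + 2) * α)) := by
      have h1 := (H.pow_int P b (t := ((q : ℝ) + 2) * α) (by positivity)).const_mul c
      refine h1.congr (Eventually.of_forall fun x => ?_)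
      simp only
      ring
    have hohpos := oh_pos H.meas H.h0 hb H.int ωm (fun x => (ωpos x).le) (fun x _ => ωpos x) ωi hpos
    -- the marginals
    have hM := fun i => marg_int H.meas H.h0 hb H.int am (fun x => (apos x).le) y hJi i
    have hM0 := marg_int0 H.meas H.h0 hb H.int am (fun x => (apos x).le) y hJi
    set J := ∫ x, ‖P x - b‖ ^ (-α) * wy q h y x with hJ
    set I := ∫ x, ‖P x - b‖ ^ α * wy q h y x with hIdef
    have hsumeq : ∀ s : Fin (q + 1) → F,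
        hm h y s * (‖P (y - ∑ k, s k) - b‖ ^ (-α) + ∑ i, ‖P (s i) - b‖ ^ (-α))
        = ‖P (y - ∑ k, s k) - b‖ ^ (-α) * hm h y s
          + ∑ i, ‖P (s i) - b‖ ^ (-α) * hm h y s := by
      intro s
      rw [mul_add, Finset.mul_sum]
      congr 1
      · ring
      · exact Finset.sum_congr rfl fun i _ => by ring
    have hGi : Integrable fun s : Fin (q + 1) → F =>
        hm h y s * (‖P (y - ∑ k, s k) - b‖ ^ (-α) + ∑ i, ‖P (s i) - b‖ ^ (-α)) := by
      simp only [hsumeq]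
      exact hM0.1.add (integrable_finsetSum _ fun i _ => (hM i).1)
    have hGe : ∫ s : Fin (q + 1) → F,
        hm h y s * (‖P (y - ∑ k, s k) - b‖ ^ (-α) + ∑ i, ‖P (s i) - b‖ ^ (-α))
        = ((q : ℝ) + 2) * J := by
      simp only [hsumeq]
      rw [integral_add hM0.1 (integrable_finsetSum _ fun i _ => (hM i).1), hM0.2,
        integral_finsetSum _ fun i _ => (hM i).1, Finset.sum_congr rfl fun i _ => (hM i).2,
        Finset.sum_const, Finset.card_univ, Fintype.card_fin, nsmul_eq_mul]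
      push_cast
      ring
    have hJpos : 0 < J := by
      rw [hJ, integral_pos_iff_support_of_nonneg (fun x => mul_nonneg (apos x).le (w0 x)) hJi]
      have h1 : Function.support (fun x => ‖P x - b‖ ^ (-α) * wy q h y x)
          = Function.support (wy q h y) := by
        ext x
        simp [Function.mem_support, (apos x).ne']
      rw [h1]
      exact (integral_pos_iff_support_of_nonneg w0 wi).1 hwpos
    have hhol := c1_hol (μ := (volume : Measure (Fin (q + 1) → F)))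
      (w := fun s => hm h y s)
      (X := fun s => xm (fun x => c * ‖P x - b‖ ^ (((q : ℝ) + 2) * α)) y s)
      (g := fun s => ‖P (y - ∑ k, s k) - b‖ ^ (-α) + ∑ i, ‖P (s i) - b‖ ^ (-α))
      (m := q + 2) (c := c)
      (fun s => hm_nonneg H.h0 y s) (fun s => xm_nonneg (fun x => (ωpos x).le) y s)
      (fun s => add_nonneg (apos _).le (Finset.sum_nonneg fun i _ => (apos _).le)) hc
      (fun s => c1_pt (a := fun x => ‖P x - b‖ ^ (-α)) apos hc (by omega) hω y s)
      (hm_int H.meas H.h0 hb H.int y)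
      (hmx_int H.meas H.h0 hb H.int ωm (fun x => (ωpos x).le) (fun x _ => ωpos x) ωi y)
      hGi hpos hohpos (by rw [hGe]; positivity)
    rw [hGe] at hhol
    change c * P0 (q + 1) h y ^ (q + 2 + 1) ≤
      oh (q + 1) h (fun x => c * ‖P x - b‖ ^ (((q : ℝ) + 2) * α)) y * (((q : ℝ) + 2) * J) ^ (q + 2)
      at hhol
    set O := oh (q + 1) h (fun x => c * ‖P x - b‖ ^ (((q : ℝ) + 2) * α)) y with hO
    set Z := P0 (q + 1) h y with hZ
    have h1 : c * Z ^ (q + 2 + 1) * I ^ (q + 2) ≤ O * (((q : ℝ) + 2) * K) ^ (q + 2)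
        * (Z ^ 2) ^ (q + 2) := by
      calc c * Z ^ (q + 2 + 1) * I ^ (q + 2)
          ≤ (O * (((q : ℝ) + 2) * J) ^ (q + 2)) * I ^ (q + 2) :=
            mul_le_mul_of_nonneg_right hhol (pow_nonneg hI.le _)
        _ = O * ((q : ℝ) + 2) ^ (q + 2) * (I * J) ^ (q + 2) := by
            rw [mul_pow, mul_pow]; ring
        _ ≤ O * ((q : ℝ) + 2) ^ (q + 2) * (K * Z ^ 2) ^ (q + 2) := by
            refine mul_le_mul_of_nonneg_left ?_ (by positivity)
            exact pow_le_pow_left₀ (mul_nonneg hI.le hJpos.le) hIJ _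
        _ = _ := by rw [mul_pow, mul_pow]; ring
    have h2 : O * (((q : ℝ) + 2) * K) ^ (q + 2) * (Z ^ 2) ^ (q + 2)
        = c * Z ^ (q + 2 + 1) * ((((q : ℝ) + 2) * K) ^ (q + 2) / c * O * Z ^ (q + 1)) := by
      have e : (Z ^ 2) ^ (q + 2) = Z ^ (q + 2 + 1) * Z ^ (q + 1) := by
        rw [← pow_mul, ← pow_add]; congr 1; omega
      rw [e]
      field_simp
    rw [h2] at h1
    exact le_of_mul_le_mul_left h1 (by positivity)

end Pool.Agent.Lib.MP_8d00da_gt.h42t
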