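import Mathlib
import Pool.Agent.Lib.MP_8d00da_gt.h42t.TF5

/-!
# Pointwise core inequality
-/

namespace Pool.Agent.Lib.MP_8d00da_gt.h42t

open MeasureTheory Set Filter
open Pool.Agent.Lib.MP_8d00da_gt.h25 Pool.Agent.Lib.MP_8d00da_gt.h42
open Pool.Agent.Lib.MP_8d00da_gt.h42s Pool.Agent.Lib.MP_8d00da_gt.h42o
open Pool.Agent.Lib.MP_8d00da_gt.h97r Pool.Agent.Lib.MP_8d00da_gt.h42r
open scoped Topology NNReal ENNReal

set_option linter.unusedSectionVars false

variable {F : Type*} [NormedAddCommGroup F] [InnerProductSpace ℝ F]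
    [FiniteDimensional ℝ F] [MeasurableSpace F] [BorelSpace F]

variable {G : Type*} [NormedAddCommGroup G] [InnerProductSpace ℝ G]
    [FiniteDimensional ℝ G] [MeasurableSpace G] [BorelSpace G]

variable {ι : Type*} [Fintype ι]

variable {q : ℕ}

/-- the `q + 2` points -/
private noncomputable def tf6pt (y : F) (s : Fin (q + 1) → F) : Fin (q + 2) → F :=
  Fin.cons (y - ∑ k, s k) s

private lemma tf6_sum (φ : F → ℝ) (y : F) (s : Fin (q + 1) → F) :
    ∑ l, φ (tf6pt y s l) = φ (y - ∑ k, s k) + ∑ i, φ (s i) := by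
  rw [Fin.sum_univ_succ]
  simp [tf6pt]

private lemma tf6_prod (φ : F → ℝ) (y : F) (s : Fin (q + 1) → F) :
    ∏ l, φ (tf6pt y s l) = φ (y - ∑ k, s k) * ∏ i, φ (s i) := by
  rw [Fin.prod_univ_succ]
  simp [tf6pt]

private lemma tf6_cm (φ : F → ℝ) (y : F) (s : Fin (q + 1) → F) :
    cm φ y s = (∑ l, φ (tf6pt y s l)) / ((q : ℝ) + 2) := by
  rw [tf6_sum]
  unfold cm
  push_cast
  congr 1
  ring

private lemma tf6_marg {h : F → ℝ} (hh : Measurable h) (h0 : ∀ x, 0 ≤ h x) {Hb : ℝ}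
    (hb : ∀ x, h x ≤ Hb) (hi : Integrable h) {φ : F → ℝ} (hφ : Measurable φ) (φ0 : ∀ x, 0 ≤ φ x)
    (y : F) (hφi : Integrable fun x => φ x * wy q h y x) :
    (Integrable fun s : Fin (q + 1) → F => hm h y s * cm φ y s) ∧
      ∫ s : Fin (q + 1) → F, hm h y s * cm φ y s = ∫ x, φ x * wy q h y x := by
  have h1 : ∀ l : Fin (q + 2), (Integrable fun s : Fin (q + 1) → F => φ (tf6pt y s l) * hm h y s) ∧
      ∫ s : Fin (q + 1) → F, φ (tf6pt y s l) * hm h y s = ∫ x, φ x * wy q h y x := by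
    intro l
    refine Fin.cases ?_ (fun i => ?_) l
    · simpa [tf6pt] using marg_int0 hh h0 hb hi hφ φ0 y hφi
    · simpa [tf6pt] using marg_int hh h0 hb hi hφ φ0 y hφi i
  have e : (fun s : Fin (q + 1) → F => hm h y s * cm φ y s) =
      fun s => ((q : ℝ) + 2)⁻¹ * ∑ l, φ (tf6pt y s l) * hm h y s := by
    funext s
    rw [tf6_cm, ← Finset.sum_mul]
    ring
  have hq : (0 : ℝ) < (q : ℝ) + 2 := by positivity
  rw [e]
  refine ⟨(integrable_finsetSum _ fun l _ => (h1 l).1).const_mul _, ?_⟩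
  rw [integral_const_mul, integral_finsetSum _ fun l _ => (h1 l).1,
    Finset.sum_congr rfl fun l _ => (h1 l).2, Finset.sum_const, Finset.card_univ, Fintype.card_fin,
    nsmul_eq_mul]
  push_cast
  field_simp

private lemma tf6_sq (φ : F → ℝ) (y : F) (s : Fin (q + 1) → F) :
    cm φ y s ^ 2 ≤ cm (fun x => φ x ^ 2) y s := by
  rw [tf6_cm, tf6_cm, div_pow, div_le_div_iff₀ (by positivity) (by positivity)]
  have h1 := sq_sum_le_card_mul_sum_sq (s := Finset.univ) (f := fun l => φ (tf6pt y s l))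
  rw [Finset.card_univ, Fintype.card_fin] at h1
  push_cast at h1
  have hq : (0 : ℝ) < (q : ℝ) + 2 := by positivity
  nlinarith

private lemma tf6_amgm {φ : F → ℝ} (φ0 : ∀ x, 0 ≤ φ x) (y : F) (s : Fin (q + 1) → F) :
    φ (y - ∑ k, s k) * ∏ i, φ (s i) ≤ cm φ y s ^ (q + 2) := by
  rw [← tf6_prod, tf6_cm]
  have hq : (0 : ℝ) < (q : ℝ) + 2 := by positivity
  have h1 := Real.geom_mean_le_arith_mean_weighted Finset.univ
    (fun _ : Fin (q + 2) => (((q + 2 : ℕ) : ℝ))⁻¹) (fun l => φ (tf6pt y s l))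
    (fun _ _ => by positivity) (by
      rw [Finset.sum_const, Finset.card_univ, Fintype.card_fin, nsmul_eq_mul]
      field_simp) (fun l _ => φ0 _)
  rw [← Finset.mul_sum] at h1
  have h2 := pow_le_pow_left₀ (Finset.prod_nonneg fun l _ => Real.rpow_nonneg (φ0 _) _) h1 (q + 2)
  rw [← Finset.prod_pow] at h2
  have h3 : ∀ l ∈ (Finset.univ : Finset (Fin (q + 2))),
      (φ (tf6pt y s l) ^ (((q + 2 : ℕ) : ℝ))⁻¹) ^ (q + 2) = φ (tf6pt y s l) := fun l _ =>
    Real.rpow_inv_natCast_pow (φ0 _) (by omega)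
  rw [Finset.prod_congr rfl h3] at h2
  refine h2.trans (le_of_eq ?_)
  congr 1
  push_cast
  rw [inv_mul_eq_div]

private lemma tf6_young (n : ℕ) {t : ℝ} (ht : 0 < t) :
    (n : ℝ) + 1 ≤ n * t + (t⁻¹) ^ n := by
  have h1 := one_add_mul_le_pow (a := t⁻¹ - 1) (by have : 0 < t⁻¹ := inv_pos.2 ht; linarith) n
  rw [add_sub_cancel] at h1
  have h2 : 2 ≤ t + t⁻¹ := by
    have h3 : t + t⁻¹ - 2 = (t - 1) ^ 2 * t⁻¹ := by
      field_simp; ring
    have h4 : 0 ≤ (t - 1) ^ 2 * t⁻¹ := by positivity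
    linarith
  have h3 : (0 : ℝ) ≤ n := Nat.cast_nonneg n
  nlinarith [mul_le_mul_of_nonneg_left h2 h3]

private lemma tf6_cs {α : Type*} [MeasurableSpace α] {μ : Measure α} {a b : α → ℝ}
    (ha : Integrable (fun x => a x ^ 2) μ) (hb : Integrable (fun x => b x ^ 2) μ)
    (hab : Integrable (fun x => a x * b x) μ) :
    (∫ x, a x * b x ∂μ) ^ 2 ≤ (∫ x, a x ^ 2 ∂μ) * (∫ x, b x ^ 2 ∂μ) := by
  have key : ∀ s : ℝ, 0 ≤ (∫ x, a x ^ 2 ∂μ) * (s * s) + (2 * ∫ x, a x * b x ∂μ) * s +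
      ∫ x, b x ^ 2 ∂μ := by
    intro s
    have h1 : 0 ≤ ∫ x, (s * a x + b x) ^ 2 ∂μ := integral_nonneg fun x => sq_nonneg _
    have h2 : (fun x => (s * a x + b x) ^ 2) =
        fun x => s * s * a x ^ 2 + 2 * s * (a x * b x) + b x ^ 2 := by
      ext x; ring
    rw [h2, integral_add, integral_add, integral_const_mul, integral_const_mul] at h1
    · linarith
    · exact ha.const_mul _
    · exact hab.const_mul _
    · exact (ha.const_mul _).add (hab.const_mul _)
    · exact hb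
  have := discrim_le_zero key
  rw [discrim] at this
  nlinarith

/-- `m = q + 2`, `U = (1/m) ∑_l N(y_l)^α`, `C = cm A y`. Hoelder:
`P2^(m+1) ≤ (∫ hm C U)^m ∫ hm C U^(-m)`, arithmetic-geometric mean: `U^m ≥ ∏_l N(y_l)^α`. And
`P0 ∫ hm C U ≤ √(2 cK 2) P2 ∫ N^α wy`: Cauchy-Schwarz
`(∫ hm C U)² ≤ ∫ hm C² ∫ hm U² ≤ ∫ A² wy ∫ N^(2α) wy` (convexity of the square, `marg_int`), then
`l2_conc`, `kah` (`k = 2`) for `wy` and `P2_marg`, `wy_int`. With `c1_low`:
`P0 P2/oh ≤ c⁻¹ (m K)^m P2 (P0/∫ N^α wy)^m ≤ c⁻¹ (m K √(2 cK 2))^m P2 (P2/∫ hm C U)^m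
≤ c⁻¹ (m K √(2 cK 2))^m ∫ hm C U^(-m)`. If `P0 = 0` the left side is `0`. -/
theorem c3_point {h A : F → ℝ} (H : LCD h) (hA : Measurable A) (A0 : ∀ x, 0 ≤ A x) {Ab : ℝ}
    (hAb : ∀ x, A x ≤ Ab) (Apos : ∀ x, 0 < h x → 0 < A x) (hAC : ACon h A) {P : F →L[ℝ] G}
    (hP : P ≠ 0) {b : G} {ε : ℝ} (hε : 0 < ε) (hN : ∀ x, ε ≤ ‖P x - b‖) {α : ℝ} (hα0 : 0 ≤ α)
    (hα1 : α < 1) {K : ℝ} (hK : cA α ≤ K) {c : ℝ} (hc : 0 < c) (y : F) :
    P0 (q + 1) h y * P2 (q + 1) h A y /
        oh (q + 1) h (fun x => c * ‖P x - b‖ ^ (((q : ℝ) + 2) * α)) y ≤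
      (((q : ℝ) + 2) * K * √(2 * cK 2)) ^ (q + 2) / c *
        ∫ s : Fin (q + 1) → F, hm h y s * (cm A y s *
          (‖P (y - ∑ i, s i) - b‖ ^ (-α) * ∏ i, ‖P (s i) - b‖ ^ (-α))) := by
  obtain ⟨Hb, hb⟩ := H.hb
  have hAb0 : 0 ≤ Ab := (A0 0).trans (hAb 0)
  have LW := wy_lcd H (pi_pl q) y
  set N : F → ℝ := fun x => ‖P x - b‖ with hNdef
  have hNm : Measurable N := ((P.continuous.sub continuous_const).norm).measurable
  have hNpos : ∀ x, 0 < N x := fun x => hε.trans_le (hN x)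
  have hNα : ∀ x, 0 < N x ^ α := fun x => Real.rpow_pos_of_pos (hNpos x) _
  have hNαm : Measurable fun x => N x ^ α := hNm.pow_const α
  have hW0 : ∀ s : Fin (q + 1) → F, 0 ≤ hm h y s := fun s => hm_nonneg H.h0 y s
  have hWm : Measurable fun s : Fin (q + 1) → F => hm h y s :=
    (hm_meas H.meas).comp (measurable_const.prodMk measurable_id)
  have hCmeas : ∀ φ : F → ℝ, Measurable φ → Measurable fun s : Fin (q + 1) → F => cm φ y s :=
    fun φ hφ => (cm_meas hφ).comp (measurable_const.prodMk measurable_id)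
  have hWi : Integrable fun s : Fin (q + 1) → F => hm h y s := hm_int H.meas H.h0 hb H.int y
  have hC0 : ∀ s : Fin (q + 1) → F, 0 ≤ cm A y s := fun s => cm_nonneg A0 y s
  have hCb : ∀ s : Fin (q + 1) → F, cm A y s ≤ Ab := fun s => cm_le hAb y s
  set U : (Fin (q + 1) → F) → ℝ := fun s => cm (fun x => N x ^ α) y s with hU
  have hU0 : ∀ s, 0 ≤ U s := fun s => cm_nonneg (fun x => (hNα x).le) y s
  have hεα : 0 < ε ^ α := Real.rpow_pos_of_pos hε _
  have hUε : ∀ s, ε ^ α ≤ U s := by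
    intro s
    rw [hU]
    simp only
    rw [tf6_cm, le_div_iff₀ (by positivity)]
    have h1 : ∑ _l : Fin (q + 2), ε ^ α ≤ ∑ l, N (tf6pt y s l) ^ α :=
      Finset.sum_le_sum fun l _ => Real.rpow_le_rpow hε.le (hN _) hα0
    rw [Finset.sum_const, Finset.card_univ, Fintype.card_fin, nsmul_eq_mul] at h1
    push_cast at h1
    linarith
  have hUpos : ∀ s, 0 < U s := fun s => hεα.trans_le (hUε s)
  set V : (Fin (q + 1) → F) → ℝ := fun s =>
    N (y - ∑ i, s i) ^ (-α) * ∏ i, N (s i) ^ (-α) with hV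
  have hV0 : ∀ s, 0 ≤ V s := fun s => mul_nonneg (Real.rpow_nonneg (hNpos _).le _)
    (Finset.prod_nonneg fun i _ => Real.rpow_nonneg (hNpos _).le _)
  have hVU : ∀ s, ((U s)⁻¹) ^ (q + 2) ≤ V s := by
    intro s
    have h1 := tf6_amgm (φ := fun x => N x ^ α) (fun x => (hNα x).le) y s
    have h2 : V s = (N (y - ∑ k, s k) ^ α * ∏ i, N (s i) ^ α)⁻¹ := by
      rw [hV]
      simp only
      rw [mul_inv, Real.rpow_neg (hNpos _).le, ← Finset.prod_inv_distrib]
      congr 1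
      exact Finset.prod_congr rfl fun i _ => Real.rpow_neg (hNpos _).le _
    rw [h2, inv_pow]
    exact inv_anti₀ (mul_pos (hNα _) (Finset.prod_pos fun i _ => hNα _)) h1
  have hVm : Measurable V := by
    have h1 : Measurable fun x => N x ^ (-α) := hNm.pow_const (-α)
    refine (h1.comp (measurable_const.sub ?_)).mul ?_
    · exact Finset.measurable_sum _ fun i _ => measurable_pi_apply i
    · exact Finset.measurable_prod _ fun i _ => h1.comp (measurable_pi_apply i)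
  have hVb : ∀ s, V s ≤ (ε ^ (-α)) ^ (q + 2) := by
    intro s
    have h1 : ∀ x, N x ^ (-α) ≤ ε ^ (-α) := fun x =>
      Real.rpow_le_rpow_of_nonpos hε (hN x) (by linarith)
    calc V s ≤ ε ^ (-α) * ∏ _i : Fin (q + 1), ε ^ (-α) := by
          refine mul_le_mul (h1 _) (Finset.prod_le_prod (fun i _ =>
            Real.rpow_nonneg (hNpos _).le _) fun i _ => h1 _) (Finset.prod_nonneg fun i _ =>
            Real.rpow_nonneg (hNpos _).le _) (Real.rpow_nonneg hε.le _)
      _ = _ := by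
          rw [Finset.prod_const, Finset.card_univ, Fintype.card_fin]; ring
  -- marginals
  have hNi := LW.pow_int P b hα0
  have hN2i := LW.pow_int P b (show (0 : ℝ) ≤ 2 * α by linarith)
  have hm1 := tf6_marg H.meas H.h0 hb H.int hNαm (fun x => (hNα x).le) y hNi
  have hm2 := tf6_marg H.meas H.h0 hb H.int (hNm.pow_const (2 * α))
    (fun x => Real.rpow_nonneg (hNpos x).le _) y hN2i
  have hA2i : Integrable fun x => A x ^ 2 * wy q h y x := by
    refine Integrable.mono' (LW.int.const_mul (Ab ^ 2)) ((hA.pow_const 2).mul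
      LW.meas).aestronglyMeasurable (Eventually.of_forall fun x => ?_)
    rw [Real.norm_of_nonneg (mul_nonneg (sq_nonneg _) (LW.h0 x))]
    exact mul_le_mul_of_nonneg_right (pow_le_pow_left₀ (A0 x) (hAb x) 2) (LW.h0 x)
  have hm3 := tf6_marg H.meas H.h0 hb H.int (hA.pow_const 2) (fun x => sq_nonneg _) y hA2i
  -- integrability
  have hCm := hCmeas A hA
  have hUm : Measurable U := hCmeas _ hNαm
  have iWC : Integrable fun s : Fin (q + 1) → F => hm h y s * cm A y s := by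
    refine Integrable.mono' (hWi.const_mul Ab) (hWm.mul hCm).aestronglyMeasurable
      (Eventually.of_forall fun s => ?_)
    rw [Real.norm_of_nonneg (mul_nonneg (hW0 s) (hC0 s)), mul_comm]
    exact mul_le_mul_of_nonneg_right (hCb s) (hW0 s)
  have iWCU : Integrable fun s : Fin (q + 1) → F => hm h y s * cm A y s * U s := by
    refine Integrable.mono' (hm1.1.const_mul Ab) ((hWm.mul hCm).mul hUm).aestronglyMeasurable
      (Eventually.of_forall fun s => ?_)
    rw [Real.norm_of_nonneg (mul_nonneg (mul_nonneg (hW0 s) (hC0 s)) (hU0 s))]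
    have h1 := mul_le_mul_of_nonneg_right (hCb s) (mul_nonneg (hW0 s) (hU0 s))
    calc hm h y s * cm A y s * U s = cm A y s * (hm h y s * U s) := by ring
      _ ≤ _ := h1
  have iWCV : Integrable fun s : Fin (q + 1) → F => hm h y s * cm A y s * V s := by
    refine Integrable.mono' (iWC.const_mul ((ε ^ (-α)) ^ (q + 2)))
      ((hWm.mul hCm).mul hVm).aestronglyMeasurable (Eventually.of_forall fun s => ?_)
    rw [Real.norm_of_nonneg (mul_nonneg (mul_nonneg (hW0 s) (hC0 s)) (hV0 s)), mul_comm]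
    exact mul_le_mul_of_nonneg_right (hVb s) (mul_nonneg (hW0 s) (hC0 s))
  have hCsq : ∀ s : Fin (q + 1) → F, cm A y s ^ 2 ≤ cm (fun x => A x ^ 2) y s := tf6_sq A y
  have hUsq : ∀ s, U s ^ 2 ≤ cm (fun x => N x ^ (2 * α)) y s := by
    intro s
    have h1 := tf6_sq (fun x => N x ^ α) y s
    have h2 : (fun x => (N x ^ α) ^ 2) = fun x => N x ^ (2 * α) := by
      funext x
      rw [← Real.rpow_natCast, ← Real.rpow_mul (hNpos x).le]
      congr 1
      push_cast
      ring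
    rw [h2] at h1
    exact h1
  have iWC2 : Integrable fun s : Fin (q + 1) → F => hm h y s * cm A y s ^ 2 := by
    refine Integrable.mono' hm3.1 (hWm.mul (hCm.pow_const 2)).aestronglyMeasurable
      (Eventually.of_forall fun s => ?_)
    rw [Real.norm_of_nonneg (mul_nonneg (hW0 s) (sq_nonneg _))]
    exact mul_le_mul_of_nonneg_left (hCsq s) (hW0 s)
  have iWU2 : Integrable fun s : Fin (q + 1) → F => hm h y s * U s ^ 2 := by
    refine Integrable.mono' hm2.1 (hWm.mul (hUm.pow_const 2)).aestronglyMeasurable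
      (Eventually.of_forall fun s => ?_)
    rw [Real.norm_of_nonneg (mul_nonneg (hW0 s) (sq_nonneg _))]
    exact mul_le_mul_of_nonneg_left (hUsq s) (hW0 s)
  have b1 : ∫ s : Fin (q + 1) → F, hm h y s * cm A y s ^ 2 ≤ ∫ x, A x ^ 2 * wy q h y x := by
    rw [← hm3.2]
    exact integral_mono iWC2 hm3.1 fun s => mul_le_mul_of_nonneg_left (hCsq s) (hW0 s)
  have b2 : ∫ s : Fin (q + 1) → F, hm h y s * U s ^ 2 ≤ ∫ x, N x ^ (2 * α) * wy q h y x := by
    rw [← hm2.2]
    exact integral_mono iWU2 hm2.1 fun s => mul_le_mul_of_nonneg_left (hUsq s) (hW0 s)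
  -- Cauchy-Schwarz
  set B : ℝ := ∫ s : Fin (q + 1) → F, hm h y s * cm A y s * U s with hB
  have hB0 : 0 ≤ B := integral_nonneg fun s =>
    mul_nonneg (mul_nonneg (hW0 s) (hC0 s)) (hU0 s)
  have e1 : ∀ s : Fin (q + 1) → F, (√(hm h y s) * cm A y s) ^ 2 = hm h y s * cm A y s ^ 2 :=
    fun s => by rw [mul_pow, Real.sq_sqrt (hW0 s)]
  have e2 : ∀ s : Fin (q + 1) → F, (√(hm h y s) * U s) ^ 2 = hm h y s * U s ^ 2 :=
    fun s => by rw [mul_pow, Real.sq_sqrt (hW0 s)]
  have e3 : ∀ s : Fin (q + 1) → F, (√(hm h y s) * cm A y s) * (√(hm h y s) * U s) =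
      hm h y s * cm A y s * U s := fun s => by
    have := Real.mul_self_sqrt (hW0 s)
    linear_combination (cm A y s * U s) * this
  have hCS : B ^ 2 ≤ (∫ s : Fin (q + 1) → F, hm h y s * cm A y s ^ 2) *
      ∫ s : Fin (q + 1) → F, hm h y s * U s ^ 2 := by
    have h1 := tf6_cs (μ := (volume : Measure (Fin (q + 1) → F)))
      (a := fun s => √(hm h y s) * cm A y s) (b := fun s => √(hm h y s) * U s)
      (by simpa only [e1] using iWC2) (by simpa only [e2] using iWU2)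
      (by simpa only [e3] using iWCU)
    simpa only [e1, e2, e3] using h1
  -- moments of the marginal
  have hwi := wy_int (q := q) H.meas H.h0 hb H.int y
  have hP2 := P2_marg (q := q) H.meas H.h0 hb H.int hA A0 hAb y
  have Apos' : ∀ x, 0 < wy q h y x → 0 < A x := by
    intro x hx
    apply Apos
    rcases (H.h0 x).eq_or_lt with h1 | h1
    · unfold wy at hx
      rw [← h1, zero_mul] at hx
      exact absurd hx (lt_irrefl _)
    · exact h1
  have hACw : ACon (wy q h y) A := by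
    have hpos : ∀ x, 0 < wy q h y x → 0 < h x := by
      intro x hx
      rcases (H.h0 x).eq_or_lt with h1 | h1
      · unfold wy at hx
        rw [← h1, zero_mul] at hx
        exact absurd hx (lt_irrefl _)
      · exact h1
    intro x x' hx hx' a ha0 ha1
    exact hAC x x' (hpos x hx) (hpos x' hx') a ha0 ha1
  have m1 := l2_conc LW hA A0 hAb Apos' hACw
  have m2 := kah LW P b hα0 hα1.le (k := 2) (by norm_num)
  rw [show (2 : ℕ) - 1 = 1 from rfl, pow_one, Nat.cast_ofNat] at m2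
  rw [hwi.2, ← hP2] at m1
  rw [hwi.2] at m2
  set X : ℝ := ∫ x, ‖P x - b‖ ^ α * wy q h y x with hX
  have hX0 : 0 ≤ X := integral_nonneg fun x => mul_nonneg (hNα x).le (LW.h0 x)
  set p0 : ℝ := P0 (q + 1) h y with hp0
  set p2 : ℝ := P2 (q + 1) h A y with hp2
  have hp0n : 0 ≤ p0 := integral_nonneg hW0
  have hp2e : p2 = ∫ s : Fin (q + 1) → F, hm h y s * cm A y s := rfl
  have hp2n : 0 ≤ p2 := integral_nonneg fun s => mul_nonneg (hW0 s) (hC0 s)
  have hcK : 0 ≤ cK 2 := by unfold cK; positivity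
  set D : ℝ := √(2 * cK 2) with hD
  have hD0 : 0 ≤ D := Real.sqrt_nonneg _
  have hDsq : D ^ 2 = 2 * cK 2 := Real.sq_sqrt (by positivity)
  have f1 : p0 * B ≤ D * p2 * X := by
    have g1 : (p0 * B) ^ 2 ≤ (D * p2 * X) ^ 2 := by
      have i1 : 0 ≤ ∫ x, N x ^ (2 * α) * wy q h y x :=
        integral_nonneg fun x => mul_nonneg (Real.rpow_nonneg (hNpos x).le _) (LW.h0 x)
      have i2 : 0 ≤ ∫ x, A x ^ 2 * wy q h y x :=
        integral_nonneg fun x => mul_nonneg (sq_nonneg _) (LW.h0 x)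
      have i3 : 0 ≤ ∫ s : Fin (q + 1) → F, hm h y s * U s ^ 2 :=
        integral_nonneg fun s => mul_nonneg (hW0 s) (sq_nonneg _)
      calc (p0 * B) ^ 2 = p0 ^ 2 * B ^ 2 := by ring
        _ ≤ p0 ^ 2 * ((∫ x, A x ^ 2 * wy q h y x) * ∫ x, N x ^ (2 * α) * wy q h y x) := by
            refine mul_le_mul_of_nonneg_left (hCS.trans ?_) (sq_nonneg _)
            exact mul_le_mul b1 b2 i3 i2
        _ = (p0 * ∫ x, A x ^ 2 * wy q h y x) * ((∫ x, N x ^ (2 * α) * wy q h y x) * p0) := by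
            ring
        _ ≤ (2 * p2 ^ 2) * (cK 2 * X ^ 2) :=
            mul_le_mul m1 m2 (mul_nonneg i1 hp0n) (by positivity)
        _ = (D * p2 * X) ^ 2 := by rw [mul_pow, mul_pow, hDsq]; ring
    exact (pow_le_pow_iff_left₀ (mul_nonneg hp0n hB0) (by positivity) two_ne_zero).1 g1
  have f2 := c1_low (q := q) H hP hε hN hα0 hα1 hK hc y
  rw [← hX, ← hp0] at f2
  set O : ℝ := oh (q + 1) h (fun x => c * ‖P x - b‖ ^ (((q : ℝ) + 2) * α)) y with hO
  have hO0 : 0 ≤ O := integral_nonneg fun s => mul_nonneg (hW0 s)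
    (xm_nonneg (fun x => mul_nonneg hc.le (Real.rpow_nonneg (hNpos x).le _)) y s)
  have hcA : 0 ≤ K := by
    refine le_trans ?_ hK
    unfold h42r.cA
    have h1 : 0 < 1 - α := by linarith
    have h2 : 0 < 3 - α := by linarith
    positivity
  set I : ℝ := ∫ s : Fin (q + 1) → F, hm h y s * (cm A y s *
          (‖P (y - ∑ i, s i) - b‖ ^ (-α) * ∏ i, ‖P (s i) - b‖ ^ (-α))) with hI
  have hIe : I = ∫ s : Fin (q + 1) → F, hm h y s * cm A y s * V s := by
    rw [hI]
    refine integral_congr_ae (Eventually.of_forall fun s => ?_)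
    simp only [hV, hNdef]
    ring
  have hI0 : 0 ≤ I := by
    rw [hIe]
    exact integral_nonneg fun s => mul_nonneg (mul_nonneg (hW0 s) (hC0 s)) (hV0 s)
  have hRHS : 0 ≤ (((q : ℝ) + 2) * K * D) ^ (q + 2) / c * I := by positivity
  rcases hp0n.eq_or_lt with z0 | z0
  · rw [← z0, zero_mul, zero_div]; exact hRHS
  rcases hp2n.eq_or_lt with z2 | z2
  · rw [← z2, mul_zero, zero_div]; exact hRHS
  rcases hO0.eq_or_lt with zO | zO
  · rw [← zO, div_zero]; exact hRHS
  -- Young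
  have hBpos : 0 < B := by
    have h1 : ε ^ α * p2 ≤ B := by
      rw [hp2e, ← integral_const_mul]
      refine integral_mono (iWC.const_mul _) iWCU fun s => ?_
      have := mul_le_mul_of_nonneg_left (hUε s) (mul_nonneg (hW0 s) (hC0 s))
      linarith
    exact lt_of_lt_of_le (mul_pos hεα z2) h1
  set lam : ℝ := p2 / B with hlam
  have hlam0 : 0 < lam := div_pos z2 hBpos
  have f3 : p2 ^ (q + 3) ≤ B ^ (q + 2) * I := by
    have g1 : ∀ s : Fin (q + 1) → F, ((q : ℝ) + 3) * (hm h y s * cm A y s) ≤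
        ((q : ℝ) + 2) * lam * (hm h y s * cm A y s * U s) +
          (lam⁻¹) ^ (q + 2) * (hm h y s * cm A y s * V s) := by
      intro s
      have h1 := tf6_young (q + 2) (mul_pos hlam0 (hUpos s))
      push_cast at h1
      rw [mul_inv, mul_pow] at h1
      have h2 : (lam⁻¹) ^ (q + 2) * ((U s)⁻¹) ^ (q + 2) ≤ (lam⁻¹) ^ (q + 2) * V s :=
        mul_le_mul_of_nonneg_left (hVU s) (by positivity)
      have h3 : (q : ℝ) + 3 ≤ ((q : ℝ) + 2) * (lam * U s) + (lam⁻¹) ^ (q + 2) * V s := by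
        linarith
      have h4 := mul_le_mul_of_nonneg_left h3 (mul_nonneg (hW0 s) (hC0 s))
      linarith
    have g2 := integral_mono (iWC.const_mul ((q : ℝ) + 3))
      ((iWCU.const_mul (((q : ℝ) + 2) * lam)).add (iWCV.const_mul ((lam⁻¹) ^ (q + 2)))) g1
    simp only [Pi.add_apply] at g2
    rw [integral_add (iWCU.const_mul _) (iWCV.const_mul _), integral_const_mul,
      integral_const_mul, integral_const_mul, ← hIe, ← hp2e, ← hB] at g2
    have h1 : lam * B = p2 := div_mul_cancel₀ _ hBpos.ne'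
    have h2 : p2 ≤ (lam⁻¹) ^ (q + 2) * I := by
      have h3 : ((q : ℝ) + 2) * lam * B = ((q : ℝ) + 2) * p2 := by rw [mul_assoc, h1]
      linarith
    have h3 : (lam⁻¹) ^ (q + 2) * p2 ^ (q + 2) = B ^ (q + 2) := by
      rw [← mul_pow]
      congr 1
      rw [hlam]
      field_simp
    calc p2 ^ (q + 3) = p2 * p2 ^ (q + 2) := by ring
      _ ≤ ((lam⁻¹) ^ (q + 2) * I) * p2 ^ (q + 2) :=
          mul_le_mul_of_nonneg_right h2 (by positivity)
      _ = ((lam⁻¹) ^ (q + 2) * p2 ^ (q + 2)) * I := by ring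
      _ = B ^ (q + 2) * I := by rw [h3]
  rw [div_le_iff₀ zO]
  have hk : 0 < p0 ^ (q + 1) * p2 ^ (q + 2) := by positivity
  refine le_of_mul_le_mul_left ?_ hk
  calc p0 ^ (q + 1) * p2 ^ (q + 2) * (p0 * p2) = p0 ^ (q + 2) * p2 ^ (q + 3) := by ring
    _ ≤ p0 ^ (q + 2) * (B ^ (q + 2) * I) := mul_le_mul_of_nonneg_left f3 (by positivity)
    _ = (p0 * B) ^ (q + 2) * I := by rw [mul_pow]; ring
    _ ≤ (D * p2 * X) ^ (q + 2) * I :=
        mul_le_mul_of_nonneg_right (pow_le_pow_left₀ (mul_nonneg hp0n hB0) f1 _) hI0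
    _ = D ^ (q + 2) * p2 ^ (q + 2) * I * X ^ (q + 2) := by rw [mul_pow, mul_pow]; ring
    _ ≤ D ^ (q + 2) * p2 ^ (q + 2) * I *
        ((((q : ℝ) + 2) * K) ^ (q + 2) / c * O * p0 ^ (q + 1)) :=
        mul_le_mul_of_nonneg_left f2 (by positivity)
    _ = _ := by rw [mul_pow (((q : ℝ) + 2) * K) D]; ring

end Pool.Agent.Lib.MP_8d00da_gt.h42t
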