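import Mathlib
import Pool.Agent.Lib.MP_8d00da_gt.h42t.TF7
import Pool.Agent.Lib.MP_8d00da_gt.h42t.TF6

/-!
# Core inequality, nonnegative exponents
-/

namespace Pool.Agent.Lib.MP_8d00da_gt.h42t

open MeasureTheory Set Filter
open Pool.Agent.Lib.MP_8d00da_gt.h25 Pool.Agent.Lib.MP_8d00da_gt.h42
open Pool.Agent.Lib.MP_8d00da_gt.h42s Pool.Agent.Lib.MP_8d00da_gt.h42o
open Pool.Agent.Lib.MP_8d00da_gt.h97r Pool.Agent.Lib.MP_8d00da_gt.h42r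
open scoped Topology NNReal ENNReal

set_option linter.unusedSectionVars false

variable {F : Type*} [NormedAddCommGroup F] [InnerProductSpace ℝ F]
    [FiniteDimensional ℝ F] [MeasurableSpace F] [BorelSpace F]

variable {G : Type*} [NormedAddCommGroup G] [InnerProductSpace ℝ G]
    [FiniteDimensional ℝ G] [MeasurableSpace G] [BorelSpace G]

variable {ι : Type*} [Fintype ι]

variable {q : ℕ}

noncomputable def cP (q : ℕ) (K : ℝ) : ℝ :=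
  (((q : ℝ) + 2) * K * √(2 * cK 2)) ^ (q + 2) * K ^ (q + 2) * cK (q + 2) *
    √(2 * cK 2) ^ (q + 1)

/-- Integrate `c3_point` (`prod_cm` with `φ = N^(-α) ≤ ε^(-α)`):
`∫ P0 P2/oh ≤ c⁻¹ (m K √(2 cK 2))^m (∫ A N^(-α) h) (∫ N^(-α) h)^(q+1)`, `m = q + 2`.
`a2r` for `h A` (`LCD.mul`) and for `h`: `∫ A N^(-α) h ≤ K (∫ A h)²/∫ A N^α h`,
`∫ N^(-α) h ≤ K Z²/∫ N^α h`; `kah` for `h A` with `k = m`:
`∫ A N^(m α) h ≤ cK m (∫ A N^α h)^m/(∫ A h)^(m-1)`; `cmp`: `Z ∫ A N^α h ≤ √(2 cK 2) ∫ A h ∫ N^α h`. -/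
theorem core_pos {h A : F → ℝ} (H : LCD h) (hA : Measurable A) (A0 : ∀ x, 0 ≤ A x) {Ab : ℝ}
    (hAb : ∀ x, A x ≤ Ab) (Apos : ∀ x, 0 < h x → 0 < A x) (hAC : ACon h A)
    (hpos : 0 < ∫ x, h x) {P : F →L[ℝ] G}
    (hP : P ≠ 0) {b : G} {ε : ℝ} (hε : 0 < ε) (hN : ∀ x, ε ≤ ‖P x - b‖) {α : ℝ} (hα0 : 0 ≤ α)
    (hα1 : α < 1) {K : ℝ} (hK : cA α ≤ K) {c : ℝ} (hc : 0 < c) :
    (Integrable fun y => P0 (q + 1) h y * P2 (q + 1) h A y /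
      oh (q + 1) h (fun x => c * ‖P x - b‖ ^ (((q : ℝ) + 2) * α)) y) ∧
    (∫ x, A x * (c * ‖P x - b‖ ^ (((q : ℝ) + 2) * α)) * h x) *
      (∫ y, P0 (q + 1) h y * P2 (q + 1) h A y /
        oh (q + 1) h (fun x => c * ‖P x - b‖ ^ (((q : ℝ) + 2) * α)) y) ≤
      cP q K * ((∫ x, A x * h x) ^ 2 * (∫ x, h x) ^ (q + 1)) := by
  obtain ⟨Hb, hb⟩ := H.hb
  have K0 : 0 ≤ K := by
    refine le_trans ?_ hK
    unfold h42r.cA
    exact div_nonneg (mul_nonneg (Real.rpow_nonneg (by norm_num) _) (by linarith)) (by linarith)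
  have hφm : Measurable fun x : F => ‖P x - b‖ ^ (-α) := by fun_prop
  have hωm : Measurable fun x : F => c * ‖P x - b‖ ^ (((q : ℝ) + 2) * α) := by fun_prop
  have hφB : ∀ x : F, ‖P x - b‖ ^ (-α) ≤ ε ^ (-α) := fun x =>
    Real.rpow_le_rpow_of_nonpos hε (hN x) (by linarith)
  obtain ⟨pi1, pe1⟩ := prod_cm (q := q + 1) H.meas H.h0 hb H.int hA A0 hAb hφm
    (fun x => Real.rpow_nonneg (norm_nonneg _) _) hφB
  have hc3 := fun y => c3_point (q := q) H hA A0 hAb Apos hAC hP hε hN hα0 hα1 hK hc y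
  have J0 : ∀ y, 0 ≤ P0 (q + 1) h y * P2 (q + 1) h A y /
      oh (q + 1) h (fun x => c * ‖P x - b‖ ^ (((q : ℝ) + 2) * α)) y := fun y =>
    div_nonneg (mul_nonneg (P0_nonneg H.h0 y) (P2_nonneg H.h0 A0 y))
      (oh_nonneg H.h0 (fun x => mul_nonneg hc.le (Real.rpow_nonneg (norm_nonneg _) _)) y)
  have hJi : Integrable fun y => P0 (q + 1) h y * P2 (q + 1) h A y /
      oh (q + 1) h (fun x => c * ‖P x - b‖ ^ (((q : ℝ) + 2) * α)) y := by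
    refine (pi1.const_mul ((((q : ℝ) + 2) * K * √(2 * cK 2)) ^ (q + 2) / c)).mono'
      (((P0_meas H.meas).mul (P2_meas H.meas hA)).div
        (oh_meas H.meas hωm)).aestronglyMeasurable
      (Eventually.of_forall fun y => ?_)
    rw [Real.norm_of_nonneg (J0 y)]
    exact hc3 y
  refine ⟨hJi, ?_⟩
  have hJ := integral_mono hJi
    (pi1.const_mul ((((q : ℝ) + 2) * K * √(2 * cK 2)) ^ (q + 2) / c)) hc3
  rw [integral_const_mul, pe1] at hJ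
  -- the weight `h A`
  have H' := H.mul hA A0 hAb hAC
  have ihA : Integrable fun x => h x * A x := H'.int
  have hApos : 0 < ∫ x, h x * A x := by
    refine lt_of_le_of_ne (integral_nonneg H'.h0) fun h0 => hpos.ne' ?_
    have h1 := (integral_eq_zero_iff_of_nonneg H'.h0 ihA).1 h0.symm
    have h2 : h =ᵐ[volume] 0 := by
      filter_upwards [h1] with x hx
      by_contra hne
      have hx0 : 0 < h x := lt_of_le_of_ne (H.h0 x) (Ne.symm hne)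
      have h3 : h x * A x = 0 := hx
      exact (mul_pos hx0 (Apos x hx0)).ne' h3
    rw [integral_congr_ae h2]
    simp
  obtain ⟨_, D0, ha⟩ := a2r H' hP b hα0 hα1 hK hApos
  obtain ⟨_, T0, hb'⟩ := a2r H hP b hα0 hα1 hK hpos
  have hk := kah H' P b hα0 hα1.le (k := q + 2) (by omega)
  have hcm := cmp H hA A0 hAb Apos hAC P b hα0 hα1.le
  have X0 : 0 ≤ ∫ x, A x * ‖P x - b‖ ^ (-α) * h x := integral_nonneg fun x =>
    mul_nonneg (mul_nonneg (A0 x) (Real.rpow_nonneg (norm_nonneg _) _)) (H.h0 x)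
  have Y0 : 0 ≤ ∫ x, ‖P x - b‖ ^ (-α) * h x := integral_nonneg fun x =>
    mul_nonneg (Real.rpow_nonneg (norm_nonneg _) _) (H.h0 x)
  have E0 : 0 ≤ ∫ x, ‖P x - b‖ ^ (((q + 2 : ℕ) : ℝ) * α) * (h x * A x) :=
    integral_nonneg fun x => mul_nonneg (Real.rpow_nonneg (norm_nonneg _) _)
      (mul_nonneg (H.h0 x) (A0 x))
  have eW : ∫ x, A x * (c * ‖P x - b‖ ^ (((q : ℝ) + 2) * α)) * h x =
      c * ∫ x, ‖P x - b‖ ^ (((q + 2 : ℕ) : ℝ) * α) * (h x * A x) := by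
    rw [← integral_const_mul]
    refine integral_congr_ae (Eventually.of_forall fun x => ?_)
    push_cast
    ring
  have eX : ∫ x, ‖P x - b‖ ^ (-α) * (h x * A x) = ∫ x, A x * ‖P x - b‖ ^ (-α) * h x :=
    integral_congr_ae (Eventually.of_forall fun x => by ring)
  have eM : ∫ x, h x * A x = ∫ x, A x * h x :=
    integral_congr_ae (Eventually.of_forall fun x => by ring)
  have eD : ∫ x, A x * ‖P x - b‖ ^ α * h x = ∫ x, ‖P x - b‖ ^ α * (h x * A x) :=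
    integral_congr_ae (Eventually.of_forall fun x => by ring)
  rw [eX, eM] at ha
  rw [eM] at hk hApos
  rw [eD] at hcm
  rw [eW]
  rw [show q + 2 - 1 = q + 1 from rfl] at hk
  have c0 : 0 ≤ cK (q + 2) := by unfold cK; positivity
  unfold cP
  obtain ⟨C1, hC1⟩ : ∃ C1 : ℝ, C1 = (((q : ℝ) + 2) * K * √(2 * cK 2)) ^ (q + 2) := ⟨_, rfl⟩
  obtain ⟨S, hS⟩ : ∃ S : ℝ, S = √(2 * cK 2) := ⟨_, rfl⟩
  obtain ⟨k, hk'⟩ : ∃ k : ℝ, k = cK (q + 2) := ⟨_, rfl⟩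
  obtain ⟨J, hJ'⟩ : ∃ J : ℝ, J = ∫ y, P0 (q + 1) h y * P2 (q + 1) h A y /
      oh (q + 1) h (fun x => c * ‖P x - b‖ ^ (((q : ℝ) + 2) * α)) y := ⟨_, rfl⟩
  obtain ⟨Z, hZ⟩ : ∃ Z : ℝ, Z = ∫ x, h x := ⟨_, rfl⟩
  obtain ⟨M, hM⟩ : ∃ M : ℝ, M = ∫ x, A x * h x := ⟨_, rfl⟩
  obtain ⟨T, hT⟩ : ∃ T : ℝ, T = ∫ x, ‖P x - b‖ ^ α * h x := ⟨_, rfl⟩
  obtain ⟨D, hD⟩ : ∃ D : ℝ, D = ∫ x, ‖P x - b‖ ^ α * (h x * A x) := ⟨_, rfl⟩
  obtain ⟨X, hX⟩ : ∃ X : ℝ, X = ∫ x, A x * ‖P x - b‖ ^ (-α) * h x := ⟨_, rfl⟩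
  obtain ⟨Y, hY⟩ : ∃ Y : ℝ, Y = ∫ x, ‖P x - b‖ ^ (-α) * h x := ⟨_, rfl⟩
  obtain ⟨E, hE⟩ : ∃ E : ℝ, E = ∫ x, ‖P x - b‖ ^ (((q + 2 : ℕ) : ℝ) * α) * (h x * A x) :=
    ⟨_, rfl⟩
  have C10 : 0 ≤ C1 := by rw [hC1]; positivity
  have S0 : 0 ≤ S := by rw [hS]; positivity
  rw [← hC1, ← hX, ← hY, ← hJ'] at hJ
  rw [← hD, ← hX, ← hM] at ha
  rw [← hT, ← hY, ← hZ] at hb'
  rw [← hE, ← hM, ← hk', ← hD] at hk
  rw [← hZ, ← hD, ← hM, ← hT, ← hS] at hcm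
  rw [← hX] at X0
  rw [← hY] at Y0
  rw [← hE] at E0
  rw [← hD] at D0
  rw [← hT] at T0
  rw [← hM] at hApos
  rw [← hZ] at hpos
  rw [← hk'] at c0
  rw [← hE, ← hJ', ← hC1, ← hk', ← hM, ← hZ, ← hS]
  have g1 : (Z * D) ^ (q + 1) ≤ (S * M * T) ^ (q + 1) := pow_le_pow_left₀ (by positivity) hcm _
  have g2 : (T * Y) ^ (q + 1) ≤ (K * Z ^ 2) ^ (q + 1) := pow_le_pow_left₀ (by positivity) hb' _
  have g3 : (D * T ^ (q + 1) * M ^ (q + 1)) * (E * X * Y ^ (q + 1)) ≤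
      (D * T ^ (q + 1) * M ^ (q + 1)) * (K ^ (q + 2) * k * S ^ (q + 1) * (M ^ 2 * Z ^ (q + 1))) := by
    calc (D * T ^ (q + 1) * M ^ (q + 1)) * (E * X * Y ^ (q + 1))
        = (E * M ^ (q + 1)) * (D * X) * (T * Y) ^ (q + 1) := by ring
      _ ≤ (k * D ^ (q + 2)) * (K * M ^ 2) * (K * Z ^ 2) ^ (q + 1) := by
          refine mul_le_mul (mul_le_mul hk ha (by positivity) (by positivity)) g2
            (by positivity) (by positivity)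
      _ = (k * D * K ^ (q + 2) * M ^ 2 * Z ^ (q + 1)) * (Z * D) ^ (q + 1) := by ring
      _ ≤ (k * D * K ^ (q + 2) * M ^ 2 * Z ^ (q + 1)) * (S * M * T) ^ (q + 1) :=
        mul_le_mul_of_nonneg_left g1 (by positivity)
      _ = _ := by ring
  have g4 : E * X * Y ^ (q + 1) ≤ K ^ (q + 2) * k * S ^ (q + 1) * (M ^ 2 * Z ^ (q + 1)) :=
    le_of_mul_le_mul_left g3 (by positivity)
  calc c * E * J ≤ c * E * (C1 / c * (X * Y ^ (q + 1))) :=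
        mul_le_mul_of_nonneg_left hJ (by positivity)
    _ = C1 * (E * X * Y ^ (q + 1)) := by field_simp
    _ ≤ C1 * (K ^ (q + 2) * k * S ^ (q + 1) * (M ^ 2 * Z ^ (q + 1))) :=
        mul_le_mul_of_nonneg_left g4 C10
    _ = C1 * K ^ (q + 2) * k * S ^ (q + 1) * (M ^ 2 * Z ^ (q + 1)) := by ring

end Pool.Agent.Lib.MP_8d00da_gt.h42t
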