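import Mathlib
import Pool.Agent.Lib.MP_8d00da_gt.h42r.AL3
import Pool.Agent.Lib.MP_8d00da_gt.h42t.TF9
import Pool.Agent.Lib.MP_8d00da_gt.h42t.TF8

/-!
# The core inequality for power weights
-/

namespace Pool.Agent.Lib.MP_8d00da_gt.h42t

open MeasureTheory Set Filter
open Pool.Agent.Lib.MP_8d00da_gt.h25 Pool.Agent.Lib.MP_8d00da_gt.h42
open Pool.Agent.Lib.MP_8d00da_gt.h42s Pool.Agent.Lib.MP_8d00da_gt.h42o
open Pool.Agent.Lib.MP_8d00da_gt.h97r Pool.Agent.Lib.MP_8d00da_gt.h42r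
open scoped Topology NNReal ENNReal

set_option linter.unusedSectionVars false

variable {F : Type*} [NormedAddCommGroup F] [InnerProductSpace ℝ F]
    [FiniteDimensional ℝ F] [MeasurableSpace F] [BorelSpace F]

variable {G : Type*} [NormedAddCommGroup G] [InnerProductSpace ℝ G]
    [FiniteDimensional ℝ G] [MeasurableSpace G] [BorelSpace G]

variable {ι : Type*} [Fintype ι]

variable {q : ℕ}

/-- `core_pos` with `α = (p-2)/(q+2)` if `p ≥ 2` (`1 - α ≥ 4/(p0+2)`, so `cA α ≤ 4/(1-α) ≤ p0 + 2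
≤ K`; `h42r.cA_le`), `core_neg` with `ρ = 2 - p` if `p < 2` (`ρ ≤ 1 - δ`, `cA ρ ≤ 4/δ ≤ K`).
`cP, cN ≥ 0`. -/
theorem core_pow {h A : F → ℝ} (H : LCD h) (hA : Measurable A) (A0 : ∀ x, 0 ≤ A x) {Ab : ℝ}
    (hAb : ∀ x, A x ≤ Ab) (Apos : ∀ x, 0 < h x → 0 < A x) (hAC : ACon h A)
    (hpos : 0 < ∫ x, h x) {P : F →L[ℝ] G} (hP : P ≠ 0) {b : G} {ε : ℝ} (hε : 0 < ε)
    (hN : ∀ x, ε ≤ ‖P x - b‖) {c : ℝ} (hc : 0 < c) {δ p0 p K : ℝ} (hδ : 0 < δ) (hδ1 : δ ≤ 1)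
    (hp0 : 2 ≤ p0) (hp1 : 1 + δ ≤ p) (hp2 : p ≤ p0) (hq : p0 ≤ (q : ℝ))
    (hK : 4 / δ + p0 + 2 ≤ K) :
    (Integrable fun y => P0 (q + 1) h y * P2 (q + 1) h A y /
      oh (q + 1) h (fun x => c * ‖P x - b‖ ^ (p - 2)) y) ∧
    (∫ x, A x * (c * ‖P x - b‖ ^ (p - 2)) * h x) *
      (∫ y, P0 (q + 1) h y * P2 (q + 1) h A y /
        oh (q + 1) h (fun x => c * ‖P x - b‖ ^ (p - 2)) y) ≤
      (cP q K + cN q K) * ((∫ x, A x * h x) ^ 2 * (∫ x, h x) ^ (q + 1)) := by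
  have hK0 : 0 < K := by
    have : 0 < 4 / δ := by positivity
    linarith
  have hδ4 : 0 < 4 / δ := by positivity
  have hcK : ∀ k, 0 ≤ cK k := fun k => by unfold cK; positivity
  have hcP : 0 ≤ cP q K := by
    unfold cP
    have := hcK (q + 2)
    positivity
  have hcN : 0 ≤ cN q K := by
    unfold cN
    positivity
  have hX : 0 ≤ (∫ x, A x * h x) ^ 2 * (∫ x, h x) ^ (q + 1) :=
    mul_nonneg (sq_nonneg _) (pow_nonneg hpos.le _)
  have hq2 : (0 : ℝ) < (q : ℝ) + 2 := by positivity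
  rcases le_or_gt 2 p with h2 | h2
  · obtain ⟨α, hα⟩ : ∃ α : ℝ, α = (p - 2) / ((q : ℝ) + 2) := ⟨_, rfl⟩
    have hα0 : 0 ≤ α := by rw [hα]; exact div_nonneg (by linarith) hq2.le
    have h3 : 4 / (p0 + 2) ≤ 1 - α := by
      rw [hα, div_le_iff₀ (by linarith)]
      have h4 : (p - 2) / ((q : ℝ) + 2) ≤ (p0 - 2) / (p0 + 2) := by
        rw [div_le_div_iff₀ hq2 (by linarith)]
        nlinarith
      have h5 : (p0 - 2) / (p0 + 2) * (p0 + 2) = p0 - 2 := by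
        field_simp
      have h6 := mul_le_mul_of_nonneg_right h4 (by linarith : (0 : ℝ) ≤ p0 + 2)
      rw [h5] at h6
      linarith
    have h3' : 0 < 4 / (p0 + 2) := by positivity
    have hα1 : α < 1 := by linarith
    have hcA : cA α ≤ K := by
      refine (cA_le hα0 hα1).trans ?_
      rw [div_le_iff₀ (by linarith)]
      have h4 : K * (4 / (p0 + 2)) ≤ K * (1 - α) := mul_le_mul_of_nonneg_left h3 hK0.le
      have h5 : (4 : ℝ) ≤ K * (4 / (p0 + 2)) := by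
        rw [← mul_div_assoc, le_div_iff₀ (by linarith)]
        linarith
      linarith
    have he : ((q : ℝ) + 2) * α = p - 2 := by
      rw [hα]
      field_simp
    have h7 := core_pos (q := q) H hA A0 hAb Apos hAC hpos hP hε hN hα0 hα1 hcA hc
    rw [he] at h7
    refine ⟨h7.1, h7.2.trans ?_⟩
    refine mul_le_mul_of_nonneg_right ?_ hX
    linarith
  · have hρ0 : 0 ≤ 2 - p := by linarith
    have hρ1 : 2 - p < 1 := by linarith
    have hcA : cA (2 - p) ≤ K := by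
      refine (cA_le hρ0 hρ1).trans ?_
      have h4 : 4 / (1 - (2 - p)) ≤ 4 / δ :=
        div_le_div_of_nonneg_left (by norm_num) hδ (by linarith)
      linarith
    have he : -(2 - p) = p - 2 := by ring
    have h7 := core_neg (q := q) H hA A0 hAb Apos hAC hpos hP hε hN hρ0 hρ1 hcA hc
    rw [he] at h7
    refine ⟨h7.1, h7.2.trans ?_⟩
    refine mul_le_mul_of_nonneg_right ?_ hX
    linarith

end Pool.Agent.Lib.MP_8d00da_gt.h42t
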