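import Mathlib
import Pool.Agent.Lib.MP_8d00da_gt.h42t.TG1
import Pool.Agent.Lib.MP_8d00da_gt.h42t.TG2
import Pool.Agent.Lib.MP_8d00da_gt.h42t.TG3
import Pool.Agent.Lib.MP_8d00da_gt.h42t.TD6
import Pool.Agent.Lib.MP_8d00da_gt.h42t.TE2
import Pool.Agent.Lib.MP_8d00da_gt.h42t.TG0
import Pool.Agent.Lib.MP_8d00da_gt.h42t.TD5
import Pool.Agent.Lib.MP_8d00da_gt.h42t.TF10
import Pool.Agent.Lib.MP_8d00da_gt.h42t.TG4

/-!
# Regularised bodies
-/

namespace Pool.Agent.Lib.MP_8d00da_gt.h42t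

open MeasureTheory Set Filter
open Pool.Agent.Lib.MP_8d00da_gt.h25 Pool.Agent.Lib.MP_8d00da_gt.h42
open Pool.Agent.Lib.MP_8d00da_gt.h42s Pool.Agent.Lib.MP_8d00da_gt.h42o
open Pool.Agent.Lib.MP_8d00da_gt.h97r Pool.Agent.Lib.MP_8d00da_gt.h42r
open scoped Topology NNReal ENNReal

set_option linter.unusedSectionVars false

variable {F : Type*} [NormedAddCommGroup F] [InnerProductSpace ℝ F]
    [FiniteDimensional ℝ F] [MeasurableSpace F] [BorelSpace F]

variable {G : Type*} [NormedAddCommGroup G] [InnerProductSpace ℝ G]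
    [FiniteDimensional ℝ G] [MeasurableSpace G] [BorelSpace G]

variable {ι : Type*} [Fintype ι]

variable {q : ℕ}

/-- The constant. -/
noncomputable def cF (q : ℕ) (Λ K δ : ℝ) : ℝ :=
  8 * ((q : ℝ) + 2) * Λ * (cP q K + cN q K + 6 * ((q : ℝ) + 2) / δ)

/-- Integrability of powers. -/
private theorem tg5_int {h : F → ℝ} (H : LCD h) (P : F →L[ℝ] G) (b : G) {ε : ℝ} (hε : 0 < ε)
    (hN : ∀ x, ε ≤ ‖P x - b‖) (t : ℝ) : Integrable fun x => h x * ‖P x - b‖ ^ t := by
  rcases le_total 0 t with ht | ht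
  · refine (H.pow_int P b ht).congr (Eventually.of_forall fun x => ?_)
    simp only
    ring
  · refine (H.int.const_mul (ε ^ t)).mono' ?_ (Eventually.of_forall fun x => ?_)
    · exact (H.meas.mul
        ((P.continuous.measurable.sub_const b).norm.pow_const t)).aestronglyMeasurable
    · have hx := H.h0 x
      rw [Real.norm_of_nonneg (mul_nonneg hx (Real.rpow_nonneg (norm_nonneg _) _)),
        mul_comm (ε ^ t)]
      exact mul_le_mul_of_nonneg_left (Real.rpow_le_rpow_of_nonpos hε (hN x) ht) hx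

/-- The function `pp`. -/
private theorem tg5_pp {V : F → ℝ} (hVc : Continuous V) {L : ℝ}
    (hbd : Bornology.IsBounded {x | V x < L}) (hne : ∃ x, V x < L) :
    Integrable (pp V L) ∧ 0 < ∫ x, pp V L x ∧ ∀ x, pp V L x * ib V L x = pp V L x := by
  have hac : Continuous (pp V L) := pp_cont hVc L
  have hsupp : Function.support (pp V L) ⊆ {x | V x < L} := by
    intro x hx
    by_contra h
    simp only [mem_ofPred_eq, not_lt] at h
    exact hx (by unfold h42r.pp; exact max_eq_right (by linarith))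
  have hcs : HasCompactSupport (pp V L) :=
    HasCompactSupport.of_support_subset_isCompact hbd.isCompact_closure
      (hsupp.trans subset_closure)
  have hai : Integrable (pp V L) := hac.integrable_of_hasCompactSupport hcs
  have hApos : 0 < ∫ x, pp V L x := by
    obtain ⟨x0, hx0⟩ := hne
    refine hac.integral_pos_of_hasCompactSupport_nonneg_nonzero hcs (fun x => pp_nonneg V L x)
      (x := x0) ?_
    unfold h42r.pp
    rw [max_eq_left (by linarith)]
    linarith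
  refine ⟨hai, hApos, fun x => ?_⟩
  by_cases hx : V x < L
  · have : ib V L x = 1 := Set.indicator_of_mem (show x ∈ {x | V x < L} from hx) _
    rw [this, mul_one]
  · have : pp V L x = 0 := by
      unfold h42r.pp
      exact max_eq_right (by linarith [not_lt.1 hx])
    rw [this, zero_mul]

/-- Bodies. `V = Vf c p P b v`, `ω = ωf c p P b`, `h = ib V L`, `A = pp V L`, `Λ = p0/δ`
(`max 1 (p-1) ≤ Λ min 1 (p-1)` for `1 + δ ≤ p ≤ p0`), `H = rd_pow'`.
`pd_body` (with `q + 1`, `ω/2`, `vf_low`) gives `PD (q+1) h A P (ω/(4 (q+2))) ..`; `ω_j` is bounded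
on the body (continuous, since `‖P_j x - b_j‖ ≥ ε`).
`γ_j = Λ (∫ A ω_j h)/(∫ A h)²` (`A h = A = pp`); `cr_body` divided by `(∫ pp)²` is `hCR`;
`oh_scale` and `core_pow` (constant factor `c_j p_j min 1 (p_j - 1)` in `ωf`) give
`γ_j J_j ≤ 4 (q+2) Λ (cP + cN) Z^(q+1)`; `ridge_S`, `qj_of_qjs`; the constant `2 · 4 (q+2) Λ (cP + cN)`
is at most `cF` (`QJ C → QJ C'` for `C ≤ C'`). -/
theorem reg_body {c p : ι → ℝ} {P : ι → F →L[ℝ] G} (hc : ∀ j, 0 < c j) {δ p0 K : ℝ} (hδ : 0 < δ)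
    (hδ1 : δ ≤ 1) (hp0 : 2 ≤ p0) (hp1 : ∀ j, 1 + δ ≤ p j) (hp2 : ∀ j, p j ≤ p0)
    (hP : ∀ j, P j ≠ 0) {b : ι → G} (v : F) {ε κ : ℝ} (hε : 0 < ε)
    (hN : ∀ j x, ε ≤ ‖P j x - b j‖) (hκ : 0 < κ)
    (hs : ∀ x u, κ * ‖u‖ ^ 2 ≤ sd (Vf c p P b v) x u) {L : ℝ}
    (hbd : Bornology.IsBounded {x | Vf c p P b v x < L}) (hne : ∃ x, Vf c p P b v x < L)
    (hq : p0 ≤ (q : ℝ)) (hK : 4 / δ + p0 + 2 ≤ K) :
    QJ (cF q (p0 / δ) K δ) (ib (Vf c p P b v) L) := by
  have hp : ∀ j, 1 < p j := fun j => by linarith [hp1 j]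
  have hp0' : 0 < p0 := by linarith
  have hΛ : 0 < p0 / δ := div_pos hp0' hδ
  have hmin : ∀ j, δ ≤ min 1 (p j - 1) := fun j => le_min hδ1 (by linarith [hp1 j])
  have hΛp : ∀ j, max 1 (p j - 1) ≤ p0 / δ * min 1 (p j - 1) := fun j => by
    have h1 : p0 / δ * δ ≤ p0 / δ * min 1 (p j - 1) := mul_le_mul_of_nonneg_left (hmin j) hΛ.le
    rw [div_mul_cancel₀ _ hδ.ne'] at h1
    exact (max_le (by linarith) (by linarith [hp2 j])).trans h1
  have H : RD (Vf c p P b v) P (ωf c p P b) (p0 / δ) := rd_pow' hc hp hP b v hΛ hΛp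
  obtain ⟨hL, hpos⟩ := lcd_ib H.conv H.cont hbd hne
  obtain ⟨r, hr, hlow⟩ := vf_low hc hp v hε hN
  obtain ⟨c', hc'⟩ : ∃ c' : ι → ℝ, c' = fun j => c j * (p j * min 1 (p j - 1)) := ⟨_, rfl⟩
  have hc'0 : ∀ j, 0 < c' j := fun j => by
    rw [hc']
    have h1 := hmin j
    have h2 := hp j
    exact mul_pos (hc j) (mul_pos (by linarith) (by linarith))
  have hω : ∀ j x, ωf c p P b j x = c' j * ‖P j x - b j‖ ^ (p j - 2) := fun j x => by
    rw [hc']
    rfl
  have hωp : ∀ j x, 0 < ωf c p P b j x := fun j x => by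
    rw [hω]
    exact mul_pos (hc'0 j) (Real.rpow_pos_of_pos (lt_of_lt_of_le hε (hN j x)) _)
  have hωi : ∀ j, Integrable fun x => ib (Vf c p P b v) L x * ωf c p P b j x := fun j => by
    refine ((tg5_int hL (P j) (b j) hε (hN j) (p j - 2)).const_mul (c' j)).congr
      (Eventually.of_forall fun x => ?_)
    simp only
    rw [hω]
    ring
  obtain ⟨Ab, Hpd⟩ := pd_body (q := q + 1) H.conv H.cont hbd hκ hr hs
    (ω := fun j x => ωf c p P b j x / 2) (fun j => (H.ωm j).div_const 2)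
    (fun j x => (div_pos (hωp j x) two_pos).le) (fun j x _ => div_pos (hωp j x) two_pos)
    (fun j => by
      refine ((hωi j).div_const 2).congr (Eventually.of_forall fun x => ?_)
      simp only
      ring) hlow
  obtain ⟨hai, hApos, hAh⟩ := tg5_pp H.cont hbd hne
  have hcore := fun j => core_pow (q := q) hL (pp_cont H.cont L).measurable
    (fun x => pp_nonneg _ L x) Hpd.Ab Hpd.Apos (acon_pp H.conv L) hpos (hP j) hε (hN j) (hc'0 j)
    hδ hδ1 hp0 (hp1 j) (hp2 j) hq hK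
  obtain ⟨m, hm⟩ : ∃ m : ℝ, m = 2 * (2 * (((q + 1 : ℕ) : ℝ) + 1)) := ⟨_, rfl⟩
  have hm0 : 0 < m := by rw [hm]; positivity
  have hsc : ∀ j y, P0 (q + 1) (ib (Vf c p P b v) L) y *
      P2 (q + 1) (ib (Vf c p P b v) L) (pp (Vf c p P b v) L) y /
        oh (q + 1) (ib (Vf c p P b v) L)
          (fun x => ωf c p P b j x / 2 / (2 * (((q + 1 : ℕ) : ℝ) + 1))) y =
      m * (P0 (q + 1) (ib (Vf c p P b v) L) y *
        P2 (q + 1) (ib (Vf c p P b v) L) (pp (Vf c p P b v) L) y /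
        oh (q + 1) (ib (Vf c p P b v) L) (fun x => c' j * ‖P j x - b j‖ ^ (p j - 2)) y) := by
    intro j y
    have e : (fun x => ωf c p P b j x / 2 / (2 * (((q + 1 : ℕ) : ℝ) + 1))) =
        fun x => (c' j * ‖P j x - b j‖ ^ (p j - 2)) / m := by
      funext x
      rw [hω, hm, div_div]
    rw [e, oh_scale hm0, div_div_eq_mul_div, mul_comm _ m, mul_div_assoc]
  have hωA : ∀ j, Integrable fun x => pp (Vf c p P b v) L x * ωf c p P b j x := fun j => by
    refine ((hωi j).bdd_mul (c := Ab) (pp_cont H.cont L).aestronglyMeasurable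
      (Eventually.of_forall fun x => ?_)).congr (Eventually.of_forall fun x => ?_)
    · rw [Real.norm_of_nonneg (pp_nonneg _ L x)]
      exact Hpd.Ab x
    · simp only
      rw [← mul_assoc, hAh]
  obtain ⟨S, hS⟩ : ∃ S : ℝ, S = ∫ x, pp (Vf c p P b v) L x := ⟨_, rfl⟩
  rw [← hS] at hApos
  obtain ⟨W, hW⟩ : ∃ W : ι → ℝ, W = fun j => ∫ x, pp (Vf c p P b v) L x * ωf c p P b j x :=
    ⟨_, rfl⟩
  have hW0 : ∀ j, 0 ≤ W j := fun j => by
    rw [hW]
    exact integral_nonneg fun x => mul_nonneg (pp_nonneg _ L x) (hωp j x).le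
  have hK0 : 0 ≤ K := by
    have : 0 < 4 / δ := by positivity
    linarith
  have hcK : ∀ k, 0 ≤ cK k := fun k => by unfold cK; positivity
  have hcP : 0 ≤ cP q K := by
    unfold cP
    have := hcK (q + 2)
    positivity
  have hcN : 0 ≤ cN q K := by
    unfold cN
    positivity
  have hQJS : QJS (2 * (p0 / δ * (m * (cP q K + cN q K)))) (ib (Vf c p P b v) L) := by
    refine ridge_S Hpd (hL.mom 2) hpos (C1 := p0 / δ * (m * (cP q K + cN q K)))
      (by positivity) (γ := fun j => p0 / δ * W j / S ^ 2)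
      (fun j => div_nonneg (mul_nonneg hΛ.le (hW0 j)) (sq_nonneg S)) (fun j => ?_) (fun j => ?_)
      (fun θ u => ?_)
    · exact ((hcore j).1.const_mul m).congr (Eventually.of_forall fun y => (hsc j y).symm)
    · simp only [hsc]
      rw [integral_const_mul]
      have h1 := (hcore j).2
      have e1 : ∫ x, pp (Vf c p P b v) L x * (c' j * ‖P j x - b j‖ ^ (p j - 2)) *
          ib (Vf c p P b v) L x = W j := by
        rw [hW]
        refine integral_congr_ae (Eventually.of_forall fun x => ?_)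
        simp only
        rw [hω, mul_right_comm, hAh]
      have e2 : ∫ x, pp (Vf c p P b v) L x * ib (Vf c p P b v) L x = S := by
        rw [hS]
        exact integral_congr_ae (Eventually.of_forall fun x => hAh x)
      rw [e1, e2] at h1
      obtain ⟨J, hJ⟩ : ∃ J : ℝ, J = ∫ y, P0 (q + 1) (ib (Vf c p P b v) L) y *
        P2 (q + 1) (ib (Vf c p P b v) L) (pp (Vf c p P b v) L) y /
        oh (q + 1) (ib (Vf c p P b v) L) (fun x => c' j * ‖P j x - b j‖ ^ (p j - 2)) y :=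
        ⟨_, rfl⟩
      rw [← hJ] at h1 ⊢
      have h2 : 0 ≤ p0 / δ * m / S ^ 2 := by positivity
      have h3 := mul_le_mul_of_nonneg_left h1 h2
      have hS' := hApos.ne'
      calc p0 / δ * W j / S ^ 2 * (m * J) = p0 / δ * m / S ^ 2 * (W j * J) := by ring
        _ ≤ _ := h3
        _ = _ := by
          field_simp
    · have h1 := cr_body H hbd hne hωA θ u
      rw [← hS] at h1
      have e1 : ∑ j, p0 / δ * W j / S ^ 2 * ‖P j u‖ ^ 2 =
          (p0 / δ * ∑ j, (∫ x, pp (Vf c p P b v) L x * ωf c p P b j x) * ‖P j u‖ ^ 2) / S ^ 2 := by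
        rw [Finset.mul_sum, Finset.sum_div]
        refine Finset.sum_congr rfl fun j _ => ?_
        rw [hW]
        ring
      rw [e1, ← mul_div_assoc, le_div_iff₀ (pow_pos hApos 2), ← mul_pow]
      exact h1
  have hQJ := qj_of_qjs hL.meas hL.h0 hL.int (hL.mom 2) hQJS
  intro f hf
  refine (hQJ f hf).trans (mul_le_mul_of_nonneg_right ?_ (integral_nonneg fun y =>
    mul_nonneg (integral_nonneg fun x => mul_nonneg (sq_nonneg _) (hL.h0 x)) (hL.h0 y)))
  unfold cF
  have h1 : 0 ≤ 8 * ((q : ℝ) + 2) * (p0 / δ) * (6 * ((q : ℝ) + 2) / δ) := by positivity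
  have h2 : 2 * (p0 / δ * (m * (cP q K + cN q K))) =
      8 * ((q : ℝ) + 2) * (p0 / δ) * (cP q K + cN q K) := by
    rw [hm]
    push_cast
    ring
  rw [h2]
  linarith

end Pool.Agent.Lib.MP_8d00da_gt.h42t
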