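import Mathlib
import Pool.Agent.Lib.MP_8d00da_gt.h42r.AP4
import Pool.Agent.Lib.MP_8d00da_gt.h42r.AP4b
import Pool.Agent.Lib.MP_8d00da_gt.h42r.AP5
import Pool.Agent.Lib.MP_8d00da_gt.h42t.TE3
import Pool.Agent.Lib.MP_8d00da_gt.h42t.TG5

/-!
# Regularised densities
-/

namespace Pool.Agent.Lib.MP_8d00da_gt.h42t

open MeasureTheory Set Filter
open Pool.Agent.Lib.MP_8d00da_gt.h25 Pool.Agent.Lib.MP_8d00da_gt.h42
open Pool.Agent.Lib.MP_8d00da_gt.h42s Pool.Agent.Lib.MP_8d00da_gt.h42o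
open Pool.Agent.Lib.MP_8d00da_gt.h97r Pool.Agent.Lib.MP_8d00da_gt.h42r
open scoped Topology NNReal ENNReal

set_option linter.unusedSectionVars false

variable {F : Type*} [NormedAddCommGroup F] [InnerProductSpace ℝ F]
    [FiniteDimensional ℝ F] [MeasurableSpace F] [BorelSpace F]

variable {G : Type*} [NormedAddCommGroup G] [InnerProductSpace ℝ G]
    [FiniteDimensional ℝ G] [MeasurableSpace G] [BorelSpace G]

variable {ι : Type*} [Fintype ι]

variable {q : ℕ}

private lemma tg6_factor {s w β : ℝ} (hβ : 0 < β) :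
    (max (s + w) 0) ^ β * (max (s - w) 0) ^ β ≤
      ((max s 0) ^ β) ^ 2 * Real.exp (-(β * (s ^ 2)⁻¹ * w ^ 2)) := by
  rcases le_or_gt s 0 with hs | hs
  · have h0 : (max (s + w) 0) ^ β * (max (s - w) 0) ^ β = 0 := by
      rcases le_or_gt (s + w) 0 with h | h
      · rw [max_eq_right h, Real.zero_rpow hβ.ne', zero_mul]
      · have h' : s - w ≤ 0 := by linarith
        rw [max_eq_right h', Real.zero_rpow hβ.ne', mul_zero]
    rw [h0]
    positivity
  have hs2 : 0 < s ^ 2 := by positivity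
  rw [← Real.mul_rpow (le_max_right _ _) (le_max_right _ _), max_eq_left hs.le]
  have h1 : max (s + w) 0 * max (s - w) 0 ≤ s ^ 2 * Real.exp (-((s ^ 2)⁻¹ * w ^ 2)) := by
    by_cases h : s + w ≤ 0
    · rw [max_eq_right h, zero_mul]
      positivity
    by_cases h' : s - w ≤ 0
    · rw [max_eq_right h', mul_zero]
      positivity
    push Not at h h'
    rw [max_eq_left h.le, max_eq_left h'.le]
    have h2 : 1 - (s ^ 2)⁻¹ * w ^ 2 ≤ Real.exp (-((s ^ 2)⁻¹ * w ^ 2)) := by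
      have := Real.add_one_le_exp (-((s ^ 2)⁻¹ * w ^ 2))
      linarith
    calc (s + w) * (s - w) = s ^ 2 * (1 - (s ^ 2)⁻¹ * w ^ 2) := by
          have : s ≠ 0 := hs.ne'
          field_simp
          ring
      _ ≤ _ := mul_le_mul_of_nonneg_left h2 hs2.le
  calc (max (s + w) 0 * max (s - w) 0) ^ β ≤ (s ^ 2 * Real.exp (-((s ^ 2)⁻¹ * w ^ 2))) ^ β :=
        Real.rpow_le_rpow (mul_nonneg (le_max_right _ _) (le_max_right _ _)) h1 hβ.le
    _ = (s ^ β) ^ 2 * Real.exp (-(β * (s ^ 2)⁻¹ * w ^ 2)) := by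
        rw [Real.mul_rpow hs2.le (Real.exp_pos _).le, ← Real.exp_mul]
        congr 1
        · rw [← Real.rpow_natCast, ← Real.rpow_natCast, ← Real.rpow_mul hs.le,
            ← Real.rpow_mul hs.le, mul_comm]
        · congr 1
          ring

private lemma tg6_bar {κ' : Type*} [Fintype κ'] {a : κ' → F} (d : κ' → ℝ) {β : κ' → ℝ}
    (hβ : ∀ k, 0 < β k) (x u : F) :
    bar a d β (x + u) * bar a d β (x - u) ≤ (bar a d β x) ^ 2 *
      Real.exp (-∑ k, β k * ((inner ℝ (a k) x - d k) ^ 2)⁻¹ * (inner ℝ (a k) u) ^ 2) := by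
  unfold bar
  rw [← Finset.prod_mul_distrib, ← Finset.prod_pow, ← Finset.sum_neg_distrib, Real.exp_sum,
    ← Finset.prod_mul_distrib]
  refine Finset.prod_le_prod (fun k _ => by positivity) fun k _ => ?_
  have h := tg6_factor (s := inner ℝ (a k) x - d k) (w := inner ℝ (a k) u) (hβ k)
  have e1 : inner ℝ (a k) (x + u) - d k = inner ℝ (a k) x - d k + inner ℝ (a k) u := by
    rw [inner_add_right]
    ring
  have e2 : inner ℝ (a k) (x - u) - d k = inner ℝ (a k) x - d k - inner ℝ (a k) u := by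
    rw [inner_sub_right]
    ring
  rw [e1, e2]
  exact h

/-- The lower bounds for the second differences of the density, with the barrier. One factor
`(s + w)₊^β (s - w)₊^β ≤ s^{2β} exp (-β w²/s²)` for `s = ⟪a,x⟫ - d > 0`, `w = ⟪a,u⟫`, all `w`
(compare `h42r.re_bar`). `L` is the potential `Vf c p P b v`. -/
theorem dens_low {κ' : Type*} [Fintype κ'] {V : F → ℝ} {a : κ' → F} (d : κ' → ℝ) {β : κ' → ℝ}
    (hβ : ∀ k, 0 < β k) {A : ℝ} (hA : 0 < A) {ℓ : ℝ} {x u : F} (hx : ℓ ≤ sd V x u) :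
    (A * (Real.exp (-V (x + u)) * bar a d β (x + u))) *
      (A * (Real.exp (-V (x - u)) * bar a d β (x - u))) ≤
      (A * (Real.exp (-V x) * bar a d β x)) ^ 2 *
        Real.exp (-(ℓ + ∑ k, β k * ((inner ℝ (a k) x - d k) ^ 2)⁻¹ * (inner ℝ (a k) u) ^ 2)) := by
  have hb := tg6_bar (a := a) d hβ x u
  set S : ℝ := ∑ k, β k * ((inner ℝ (a k) x - d k) ^ 2)⁻¹ * (inner ℝ (a k) u) ^ 2 with hS
  have hE : Real.exp (-V (x + u)) * Real.exp (-V (x - u)) ≤
      Real.exp (-V x) ^ 2 * Real.exp (-ℓ) := by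
    rw [← Real.exp_add, ← Real.exp_nat_mul, ← Real.exp_add]
    refine Real.exp_le_exp.2 ?_
    unfold sd at hx
    push_cast
    linarith
  have hb0 : 0 ≤ bar a d β (x + u) * bar a d β (x - u) := by
    unfold bar
    positivity
  calc (A * (Real.exp (-V (x + u)) * bar a d β (x + u))) *
      (A * (Real.exp (-V (x - u)) * bar a d β (x - u))) =
      A ^ 2 * ((Real.exp (-V (x + u)) * Real.exp (-V (x - u))) *
        (bar a d β (x + u) * bar a d β (x - u))) := by ring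
    _ ≤ A ^ 2 * ((Real.exp (-V x) ^ 2 * Real.exp (-ℓ)) *
        ((bar a d β x) ^ 2 * Real.exp (-S))) := by
        refine mul_le_mul_of_nonneg_left ?_ (sq_nonneg A)
        exact mul_le_mul hE hb hb0 (by positivity)
    _ = (A * (Real.exp (-V x) * bar a d β x)) ^ 2 * Real.exp (-(ℓ + S)) := by
        rw [neg_add, Real.exp_add]
        ring

private lemma tg6_mono {C C' : ℝ} {h : F → ℝ} (h0 : ∀ x, 0 ≤ h x) (hC : C ≤ C') (H : QJ C h) :
    QJ C' h := by
  intro f hf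
  refine (H f hf).trans (mul_le_mul_of_nonneg_right hC ?_)
  exact integral_nonneg fun y => mul_nonneg
    (integral_nonneg fun x => mul_nonneg (sq_nonneg _) (h0 x)) (h0 y)

/-- The assembly for an abstract density. -/
private lemma tg6_main {κ' : Type*} [Fintype κ'] {h : F → ℝ} {P : κ' → F →L[ℝ] G}
    {ω : κ' → F → ℝ} {Λ κ0 r : ℝ} (H : RE h P ω Λ) (L : LCD h) (hpos : 0 < ∫ x, h x)
    (hκ : 0 < κ0) (hr : 0 < r)
    (hs : ∀ x u, h (x + u) * h (x - u) ≤ h x ^ 2 * Real.exp (-(κ0 * ‖u‖ ^ 2)))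
    (hωp : ∀ j x, 0 < h x → 0 < ω j x) (hωi : ∀ j, Integrable fun x => h x * ω j x)
    (hlow : ∀ x u, ‖u‖ ≤ r →
      h (x + u) * h (x - u) ≤ h x ^ 2 * Real.exp (-∑ j, ω j x / 2 * ‖P j u‖ ^ 2))
    {C : ℝ} (hC : 0 ≤ C)
    (hcore : ∀ j, (Integrable fun y =>
        P0 (q + 1) h y * P2 (q + 1) h (fun _ => 1) y / oh (q + 1) h (ω j) y) ∧
      (∫ x, 1 * ω j x * h x) *
        (∫ y, P0 (q + 1) h y * P2 (q + 1) h (fun _ => 1) y / oh (q + 1) h (ω j) y) ≤
        C * ((∫ x, 1 * h x) ^ 2 * (∫ x, h x) ^ (q + 1))) :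
    QJ (2 * (4 * Λ * C)) h := by
  obtain ⟨Hb, hb⟩ := L.hb
  have HP := pd_dens (q := q + 1) L.meas L.h0 hb L.int hκ hr hs (P := P)
    (ω := fun j x => ω j x / 2) (fun j => (H.ωm j).div_const 2)
    (fun j x => div_nonneg (H.ω0 j x) (by norm_num)) (fun j x hx => half_pos (hωp j x hx))
    (fun j => by
      have := (hωi j).div_const 2
      refine this.congr (Eventually.of_forall fun x => ?_)
      simp only
      ring) hlow
  have hoh : ∀ j y, oh (q + 1) h (fun x => ω j x / 2 / 2) y = oh (q + 1) h (ω j) y / 2 / 2 := by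
    intro j y
    have e1 := oh_scale (q := q + 1) (h := h) (ω := fun x => ω j x / 2) (c := 2) (by norm_num) y
    have e2 := oh_scale (q := q + 1) (h := h) (ω := ω j) (c := 2) (by norm_num) y
    rw [e1, e2]
  have hquo : ∀ j y, P0 (q + 1) h y * P2 (q + 1) h (fun _ => 1) y /
      oh (q + 1) h (fun x => ω j x / 2 / 2) y =
      4 * (P0 (q + 1) h y * P2 (q + 1) h (fun _ => 1) y / oh (q + 1) h (ω j) y) := by
    intro j y
    rw [hoh, div_div, div_div_eq_mul_div]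
    ring
  set Z : ℝ := ∫ x, h x with hZ
  have hZ2 : 0 < Z ^ 2 := by positivity
  have hm0 : ∀ j, 0 ≤ ∫ x, h x * ω j x := fun j =>
    integral_nonneg fun x => mul_nonneg (L.h0 x) (H.ω0 j x)
  refine qj_of_qjs L.meas L.h0 L.int (L.mom 2) ?_
  refine ridge_S HP (L.mom 2) hpos (C1 := 4 * Λ * C)
    (mul_nonneg (mul_nonneg (by norm_num) H.Λpos.le) hC)
    (γ := fun j => Λ * (∫ x, h x * ω j x) / Z ^ 2)
    (fun j => div_nonneg (mul_nonneg H.Λpos.le (hm0 j)) hZ2.le) ?_ ?_ ?_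
  · intro j
    simp only [hquo]
    exact (hcore j).1.const_mul 4
  · intro j
    simp only [hquo]
    rw [integral_const_mul]
    have h1 := (hcore j).2
    set J : ℝ := ∫ y, P0 (q + 1) h y * P2 (q + 1) h (fun _ => 1) y / oh (q + 1) h (ω j) y with hJ
    have e1 : (∫ x, 1 * ω j x * h x) = ∫ x, h x * ω j x := by
      refine integral_congr_ae (Eventually.of_forall fun x => ?_)
      simp only
      ring
    have e2 : (∫ x, 1 * h x) = Z := by
      simp only [one_mul, hZ]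
    rw [e1, e2] at h1
    have e3 : Λ * (∫ x, h x * ω j x) / Z ^ 2 * (4 * J) =
        4 * Λ * ((∫ x, h x * ω j x) * J) / Z ^ 2 := by ring
    have e4 : 4 * Λ * C * Z ^ (q + 1) = 4 * Λ * (C * (Z ^ 2 * Z ^ (q + 1))) / Z ^ 2 := by
      field_simp
    rw [e3, e4]
    exact div_le_div_of_nonneg_right
      (mul_le_mul_of_nonneg_left h1 (mul_nonneg (by norm_num) H.Λpos.le)) hZ2.le
  · intro θ u
    have h1 := cr_dens H L.int (L.mom 2) hωi θ u
    have e1 : ∑ j, Λ * (∫ x, h x * ω j x) / Z ^ 2 * ‖P j u‖ ^ 2 =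
        Λ * (∑ j, (∫ x, h x * ω j x) * ‖P j u‖ ^ 2) / Z ^ 2 := by
      rw [Finset.mul_sum, Finset.sum_div]
      exact Finset.sum_congr rfl fun j _ => by ring
    rw [e1, ← mul_div_assoc, le_div_iff₀ hZ2, ← mul_pow]
    exact h1

private lemma tg6_ratio {p0 δ p : ℝ} (hδ : 0 < δ) (hδ1 : δ ≤ 1) (hp0 : 2 ≤ p0)
    (h1 : 1 + δ ≤ p) (h2 : p ≤ p0) : max 1 (p - 1) ≤ p0 / δ * min 1 (p - 1) := by
  have h3 : max 1 (p - 1) ≤ p0 := max_le (by linarith) (by linarith)
  have h4 : δ ≤ min 1 (p - 1) := le_min hδ1 (by linarith)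
  calc max 1 (p - 1) ≤ p0 := h3
    _ = p0 / δ * δ := by field_simp
    _ ≤ _ := mul_le_mul_of_nonneg_left h4 (by positivity)

/-- The data `RE` of the densities, all exponents. -/
private lemma tg6_re {κ' : Type*} [Fintype κ'] {c p : ι → ℝ} {P : ι → F →L[ℝ] G}
    (hc : ∀ j, 0 < c j) {δ p0 : ℝ} (hδ : 0 < δ) (hδ1 : δ ≤ 1) (hp0 : 2 ≤ p0)
    (hp1 : ∀ j, 1 + δ ≤ p j) (hp2 : ∀ j, p j ≤ p0) (hP : ∀ j, P j ≠ 0) (b : ι → G) (v : F)
    {a : κ' → F} (ha : ∀ k, a k ≠ 0) (d : κ' → ℝ) {β : κ' → ℝ} (hβ : ∀ k, 1 + δ ≤ β k) {e : G}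
    (he : ‖e‖ = 1) {A : ℝ} (hA : 0 < A) :
    RE (fun x => A * (Real.exp (-Vf c p P b v x) * bar a d β x))
      (Sum.elim P fun k => (innerSL ℝ (a k)).smulRight e)
      (Sum.elim (ωf c p P b) fun k x => β k * ((inner ℝ (a k) x - d k) ^ 2)⁻¹) (p0 / δ) := by
  have hΛ1 : (1 : ℝ) ≤ p0 / δ := by
    rw [le_div_iff₀ hδ]
    linarith
  have H : RD (Vf c p P b v) P (ωf c p P b) (p0 / δ) :=
    rd_pow' hc (fun j => by linarith [hp1 j]) hP b v (by linarith)
      fun j => tg6_ratio hδ hδ1 hp0 (hp1 j) (hp2 j)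
  exact re_smul (re_mul (re_exp H) (re_bar ha d (fun k => by linarith [hβ k]) he hΛ1)) hA

private lemma tg6_pow_int {h : F → ℝ} (L : LCD h) (P : F →L[ℝ] G) {b : G} {ε : ℝ} (hε : 0 < ε)
    (hN : ∀ x, ε ≤ ‖P x - b‖) (c t : ℝ) : Integrable fun x => h x * (c * ‖P x - b‖ ^ t) := by
  rcases le_total 0 t with ht | ht
  · have := (L.pow_int P b ht).const_mul c
    refine this.congr (Eventually.of_forall fun x => ?_)
    simp only
    ring
  · have hm : Measurable fun x => ‖P x - b‖ ^ t :=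
      (P.continuous.measurable.sub_const b).norm.pow_const t
    have h1 : Integrable fun x => ‖P x - b‖ ^ t * h x := by
      refine (L.int.const_mul (ε ^ t)).mono' (hm.mul L.meas).aestronglyMeasurable
        (Eventually.of_forall fun x => ?_)
      rw [Real.norm_of_nonneg (mul_nonneg (Real.rpow_nonneg (norm_nonneg _) _) (L.h0 x))]
      exact mul_le_mul_of_nonneg_right (Real.rpow_le_rpow_of_nonpos hε (hN x) ht) (L.h0 x)
    have := h1.const_mul c
    refine this.congr (Eventually.of_forall fun x => ?_)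
    simp only
    ring

private lemma tg6_cP {K : ℝ} (hK : 0 ≤ K) : 0 ≤ cP q K := by
  have : 0 ≤ cK (q + 2) := by
    unfold cK
    positivity
  unfold cP
  positivity

private lemma tg6_cN {K : ℝ} : 0 ≤ cN q K := by
  unfold cN
  positivity

/-- Densities. `h = A exp (-V) bar`, `ω = Sum.elim (ωf c p P b) (β_k (⟪a_k, ·⟫ - d_k)^{-2})`,
`Sum.elim P (fun k => (innerSL ℝ (a k)).smulRight e)`, `‖e‖ = 1`. `pd_dens` (with `q + 1`, the
weights `ω/2`, `dens_low`, `vf_low`), so `PD (q+1) h 1 _ (ω/4) (κ/2) ..`. `LCD h` by `lcd_of_int`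
(`(re_smul (re_mul (re_exp ..) (re_bar ..))).lc`). `Λ = p0/δ ≥ 1`, `cr_dens` for that `RE`.
Power weights: `core_pow` with `A = 1` (`acon_one`); barrier weights: `A2_bar` (`k` = the product of
the other factors; `cB β ≤ 6/δ`) with `A2.real`, then `core_plain`. The weights `h ω_j` are
integrable (power: bounded by `C (1 + ‖x‖^m) h`; barrier: `A2.real`). `ridge_S`, `qj_of_qjs`:
constant `2 · 4 Λ (cP + cN + 6 (q+2)/δ) ≤ cF`. (`b + d` may be weakened: any proof.) -/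
theorem reg_dens {κ' : Type*} [Fintype κ'] {c p : ι → ℝ} {P : ι → F →L[ℝ] G} (hc : ∀ j, 0 < c j)
    {δ p0 K : ℝ} (hδ : 0 < δ) (hδ1 : δ ≤ 1) (hp0 : 2 ≤ p0) (hp1 : ∀ j, 1 + δ ≤ p j)
    (hp2 : ∀ j, p j ≤ p0) (hP : ∀ j, P j ≠ 0) {b : ι → G} (v : F) {ε κ : ℝ} (hε : 0 < ε)
    (hN : ∀ j x, ε ≤ ‖P j x - b j‖) (hκ : 0 < κ)
    (hs : ∀ x u, κ * ‖u‖ ^ 2 ≤ sd (Vf c p P b v) x u) {a : κ' → F} (ha : ∀ k, a k ≠ 0)
    (d : κ' → ℝ) {β : κ' → ℝ} (hβ : ∀ k, 1 + δ ≤ β k) {e : G} (he : ‖e‖ = 1) {A : ℝ} (hA : 0 < A)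
    (hi : Integrable fun x => A * (Real.exp (-Vf c p P b v x) * bar a d β x))
    (hpos : 0 < ∫ x, A * (Real.exp (-Vf c p P b v x) * bar a d β x))
    (hq : p0 ≤ (q : ℝ)) (hK : 4 / δ + p0 + 2 ≤ K) :
    QJ (cF q (p0 / δ) K δ) fun x => A * (Real.exp (-Vf c p P b v x) * bar a d β x) := by
  classical
  have H := tg6_re hc hδ hδ1 hp0 hp1 hp2 hP b v ha d hβ he hA
  set h : F → ℝ := fun x => A * (Real.exp (-Vf c p P b v x) * bar a d β x) with hh
  have L : LCD h := lcd_of_int H.nn H.cont.measurable H.lc hi hpos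
  obtain ⟨r, hr, hlow⟩ := vf_low (b := b) hc (fun j => by linarith [hp1 j] : ∀ j, 1 < p j) v hε hN
  have hβ0 : ∀ k, 0 < β k := fun k => by linarith [hβ k]
  have hK0 : 0 ≤ K := by
    have : 0 < 4 / δ := by positivity
    linarith
  have hcm : ∀ j, 0 < c j * (p j * min 1 (p j - 1)) := fun j =>
    mul_pos (hc j) (mul_pos (by linarith [hp1 j]) (lt_min one_pos (by linarith [hp1 j])))
  have hS0 : ∀ x u, 0 ≤ ∑ k, β k * ((inner ℝ (a k) x - d k) ^ 2)⁻¹ * (inner ℝ (a k) u) ^ 2 :=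
    fun x u => Finset.sum_nonneg fun k _ => by
      have := hβ0 k
      positivity
  have hbarpos : ∀ x, 0 < h x → ∀ k, 0 < inner ℝ (a k) x - d k := by
    intro x hx k
    by_contra hk
    push Not at hk
    have h0 : bar a d β x = 0 := by
      unfold bar
      refine Finset.prod_eq_zero (Finset.mem_univ k) ?_
      rw [max_eq_right hk, Real.zero_rpow (hβ0 k).ne']
    rw [hh] at hx
    simp only [h0, mul_zero, lt_self_iff_false] at hx
  -- positivity of the weights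
  have hωp : ∀ j x, 0 < h x → 0 < Sum.elim (ωf c p P b)
      (fun k x => β k * ((inner ℝ (a k) x - d k) ^ 2)⁻¹) j x := by
    rintro (j | k) x hx
    · simp only [Sum.elim_inl]
      unfold ωf
      exact mul_pos (hcm j) (Real.rpow_pos_of_pos (hε.trans_le (hN j x)) _)
    · simp only [Sum.elim_inr]
      have := hbarpos x hx k
      have := hβ0 k
      positivity
  -- the barrier weights
  have hA2 : ∀ k, (Integrable fun x => h x * (β k * ((inner ℝ (a k) x - d k) ^ 2)⁻¹)) ∧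
      (Integrable fun x => h x / (β k * ((inner ℝ (a k) x - d k) ^ 2)⁻¹)) ∧
      (∫ x, h x * (β k * ((inner ℝ (a k) x - d k) ^ 2)⁻¹)) *
        (∫ x, h x / (β k * ((inner ℝ (a k) x - d k) ^ 2)⁻¹)) ≤ 6 / δ * (∫ x, h x) ^ 2 := by
    intro k
    let a' : {k' // k' ≠ k} → F := fun k' => a k'
    let d' : {k' // k' ≠ k} → ℝ := fun k' => d k'
    let β' : {k' // k' ≠ k} → ℝ := fun k' => β k'
    have H' := tg6_re hc hδ hδ1 hp0 hp1 hp2 hP b v (a := a') (fun k' => ha k') d' (β := β')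
      (fun k' => hβ k') he hA
    set kk : F → ℝ := fun x => A * (Real.exp (-Vf c p P b v x) * bar a' d' β' x) with hkk
    have e1 : h = fun x => (max (inner ℝ (a k) x - d k) 0) ^ β k * kk x := by
      funext x
      have e2 : bar a d β x = (max (inner ℝ (a k) x - d k) 0) ^ β k * bar a' d' β' x := by
        unfold bar
        exact Fintype.prod_eq_mul_prod_subtype_ne
          (fun k' => (max (inner ℝ (a k') x - d k') 0) ^ β k') k
      rw [hh, hkk]
      simp only [e2]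
      ring
    have hβ1 : 1 < β k := by linarith [hβ k]
    have h1 : A2 (cB (β k)) (fun x => (max (inner ℝ (a k) x - d k) 0) ^ β k * kk x)
        (fun x => β k * ((inner ℝ (a k) x - d k) ^ 2)⁻¹) := by
      refine A2_bar H'.nn H'.cont.measurable H'.lc (ha k) (d k) hβ1 (by linarith) ?_ ?_
      · rw [← e1]
        exact hi
      · have e3 : (fun x => ‖x‖ ^ 2 * ((max (inner ℝ (a k) x - d k) 0) ^ β k * kk x)) =
            fun x => ‖x‖ ^ 2 * h x := by rw [e1]
        rw [e3]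
        exact L.mom 2
    rw [← e1] at h1
    have hcB0 : 0 ≤ cB (β k) := by
      unfold cB
      have : 0 < β k - 1 := by linarith
      have := hβ0 k
      positivity
    obtain ⟨i1, i2, -, -, h2⟩ := h1.real hcB0 L.meas (H.ωm (Sum.inr k)) L.h0 (H.ω0 (Sum.inr k))
      L.int hpos (Eventually.of_forall (hωp (Sum.inr k)))
    exact ⟨i1, i2, h2.trans (mul_le_mul_of_nonneg_right (cB_le hδ hδ1 (hβ k)) (sq_nonneg _))⟩
  have hωi : ∀ j, Integrable fun x => h x * Sum.elim (ωf c p P b)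
      (fun k x => β k * ((inner ℝ (a k) x - d k) ^ 2)⁻¹) j x := by
    rintro (j | k)
    · exact tg6_pow_int L (P j) hε (hN j) _ _
    · exact (hA2 k).1
  have hCp : 0 ≤ cP q K := tg6_cP hK0
  have hCn : 0 ≤ cN q K := tg6_cN
  have h6 : 0 ≤ 6 * ((q : ℝ) + 2) / δ := by positivity
  have hmain := tg6_main (q := q) H L hpos hκ hr ?_ hωp hωi ?_
    (C := cP q K + cN q K + 6 * ((q : ℝ) + 2) / δ) (by positivity) ?_
  · refine tg6_mono L.h0 ?_ hmain
    unfold cF
    have hΛ : 0 ≤ p0 / δ := by positivity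
    have hq2 : (1 : ℝ) ≤ (q : ℝ) + 2 := by
      have : (0 : ℝ) ≤ q := Nat.cast_nonneg q
      linarith
    have hx0 : 0 ≤ p0 / δ * (cP q K + cN q K + 6 * ((q : ℝ) + 2) / δ) :=
      mul_nonneg hΛ (by positivity)
    calc 2 * (4 * (p0 / δ) * (cP q K + cN q K + 6 * ((q : ℝ) + 2) / δ)) =
        8 * 1 * (p0 / δ * (cP q K + cN q K + 6 * ((q : ℝ) + 2) / δ)) := by ring
      _ ≤ 8 * ((q : ℝ) + 2) * (p0 / δ * (cP q K + cN q K + 6 * ((q : ℝ) + 2) / δ)) :=
          mul_le_mul_of_nonneg_right (by linarith) hx0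
      _ = _ := by ring
  · intro x u
    refine (dens_low (V := Vf c p P b v) (a := a) d hβ0 hA (hs x u)).trans ?_
    refine mul_le_mul_of_nonneg_left (Real.exp_le_exp.2 ?_) (sq_nonneg _)
    linarith [hS0 x u]
  · intro x u hu
    refine (dens_low (V := Vf c p P b v) (a := a) d hβ0 hA (hlow x u hu)).trans ?_
    refine mul_le_mul_of_nonneg_left (Real.exp_le_exp.2 ?_) (sq_nonneg _)
    rw [Fintype.sum_sum_type]
    simp only [Sum.elim_inl, Sum.elim_inr]
    have e : ∑ k, β k * ((inner ℝ (a k) x - d k) ^ 2)⁻¹ / 2 *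
        ‖((innerSL ℝ (a k)).smulRight e) u‖ ^ 2 ≤
        ∑ k, β k * ((inner ℝ (a k) x - d k) ^ 2)⁻¹ * (inner ℝ (a k) u) ^ 2 := by
      refine Finset.sum_le_sum fun k _ => ?_
      have e1 : ‖((innerSL ℝ (a k)).smulRight e) u‖ ^ 2 = (inner ℝ (a k) u) ^ 2 := by
        rw [ContinuousLinearMap.smulRight_apply, norm_smul, he, mul_one, Real.norm_eq_abs, sq_abs]
        rfl
      rw [e1]
      refine mul_le_mul_of_nonneg_right ?_ (sq_nonneg _)
      have : 0 ≤ β k * ((inner ℝ (a k) x - d k) ^ 2)⁻¹ := by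
        have := hβ0 k
        positivity
      linarith
    linarith
  · rintro (j | k)
    · simp only [Sum.elim_inl]
      obtain ⟨h1, h2⟩ := core_pow (q := q) L (A := fun _ => (1 : ℝ)) measurable_const
        (fun _ => zero_le_one) (Ab := 1) (fun _ => le_refl _) (fun _ _ => one_pos) (acon_one h)
        hpos (hP j) hε (hN j) (hcm j) hδ hδ1 hp0 (hp1 j) (hp2 j) hq hK
      refine ⟨h1, h2.trans ?_⟩
      refine mul_le_mul_of_nonneg_right (by linarith) ?_
      have : 0 ≤ ∫ x, h x := hpos.le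
      positivity
    · simp only [Sum.elim_inr]
      obtain ⟨i1, i2, h3⟩ := hA2 k
      obtain ⟨Hb, hb⟩ := L.hb
      obtain ⟨h1, h2⟩ := core_plain (q := q) L.meas L.h0 hb L.int (H.ωm (Sum.inr k))
        (H.ω0 (Sum.inr k)) (hωp (Sum.inr k)) (hωi (Sum.inr k)) i2 (C := 6 / δ) (by positivity) h3
      refine ⟨h1, h2.trans ?_⟩
      have e : ((q : ℝ) + 2) * (6 / δ) = 6 * ((q : ℝ) + 2) / δ := by ring
      rw [e]
      refine mul_le_mul_of_nonneg_right (by linarith) ?_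
      have : 0 ≤ ∫ x, h x := hpos.le
      positivity

end Pool.Agent.Lib.MP_8d00da_gt.h42t
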