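import Mathlib
import Pool.Agent.Lib.MP_8d00da_gt.h42r.AP3a

namespace Pool.Agent.Lib.MP_8d00da_gt.h25
end Pool.Agent.Lib.MP_8d00da_gt.h25
namespace Pool.Agent.Lib.MP_8d00da_gt.h42s
end Pool.Agent.Lib.MP_8d00da_gt.h42s
namespace Pool.Agent.Lib.MP_8d00da_gt.h42o
end Pool.Agent.Lib.MP_8d00da_gt.h42o
namespace Pool.Agent.Lib.MP_8d00da_gt.h97r
end Pool.Agent.Lib.MP_8d00da_gt.h97r


/-!
# Regularisation of power sums
-/

namespace Pool.Agent.Lib.MP_8d00da_gt.h42t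

open MeasureTheory Set Filter
open Pool.Agent.Lib.MP_8d00da_gt.h25 Pool.Agent.Lib.MP_8d00da_gt.h42
open Pool.Agent.Lib.MP_8d00da_gt.h42s Pool.Agent.Lib.MP_8d00da_gt.h42o
open Pool.Agent.Lib.MP_8d00da_gt.h97r Pool.Agent.Lib.MP_8d00da_gt.h42r
open scoped Topology NNReal ENNReal

set_option linter.unusedSectionVars false

variable {F : Type*} [NormedAddCommGroup F] [InnerProductSpace ℝ F]
    [FiniteDimensional ℝ F] [MeasurableSpace F] [BorelSpace F]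

variable {G : Type*} [NormedAddCommGroup G] [InnerProductSpace ℝ G]
    [FiniteDimensional ℝ G] [MeasurableSpace G] [BorelSpace G]

variable {ι : Type*} [Fintype ι]

/-- The extended target space. -/
abbrev RG (G F : Type*) := WithLp 2 (G × WithLp 2 (F × ℝ))

noncomputable def rP (P : ι → F →L[ℝ] G) : Option ι → F →L[ℝ] RG G F
  | some j => ((WithLp.prodContinuousLinearEquiv 2 ℝ G (WithLp 2 (F × ℝ))).symm :
      G × WithLp 2 (F × ℝ) →L[ℝ] RG G F).comp ((P j).prod 0)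
  | none => ((WithLp.prodContinuousLinearEquiv 2 ℝ G (WithLp 2 (F × ℝ))).symm :
      G × WithLp 2 (F × ℝ) →L[ℝ] RG G F).comp (ContinuousLinearMap.prod 0
        (((WithLp.prodContinuousLinearEquiv 2 ℝ F ℝ).symm : F × ℝ →L[ℝ] WithLp 2 (F × ℝ)).comp
          ((ContinuousLinearMap.id ℝ F).prod 0)))

noncomputable def rb (b : ι → G) (ε : ℝ) : Option ι → RG G F
  | some j => WithLp.toLp 2 (b j, WithLp.toLp 2 ((0 : F), ε))
  | none => WithLp.toLp 2 ((0 : G), WithLp.toLp 2 ((0 : F), ε))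

def rc (c : ι → ℝ) (ε : ℝ) : Option ι → ℝ
  | some j => c j
  | none => ε

def rp (p : ι → ℝ) : Option ι → ℝ
  | some j => p j
  | none => 2

theorem r_norm_some (P : ι → F →L[ℝ] G) (b : ι → G) (ε : ℝ) (j : ι) (x : F) :
    ‖rP P (some j) x - rb (F := F) b ε (some j)‖ ^ 2 = ‖P j x - b j‖ ^ 2 + ε ^ 2 := by
  have h1 : rP P (some j) x - rb (F := F) b ε (some j) =
      WithLp.toLp 2 (P j x - b j, WithLp.toLp 2 ((0 : F) - 0, (0 : ℝ) - ε)) := rfl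
  rw [h1, WithLp.prod_norm_sq_eq_of_L2]
  show ‖P j x - b j‖ ^ 2 + ‖WithLp.toLp 2 ((0 : F) - 0, (0 : ℝ) - ε)‖ ^ 2 = _
  rw [WithLp.prod_norm_sq_eq_of_L2]
  show ‖P j x - b j‖ ^ 2 + (‖(0 : F) - 0‖ ^ 2 + ‖(0 : ℝ) - ε‖ ^ 2) = _
  rw [sub_zero, norm_zero, Real.norm_eq_abs, sq_abs]
  ring

theorem r_norm_none (P : ι → F →L[ℝ] G) (b : ι → G) (ε : ℝ) (x : F) :
    ‖rP P none x - rb (F := F) b ε none‖ ^ 2 = ‖x‖ ^ 2 + ε ^ 2 := by
  have h1 : rP P none x - rb (F := F) b ε none =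
      WithLp.toLp 2 ((0 : G) - 0, WithLp.toLp 2 (x - (0 : F), (0 : ℝ) - ε)) := rfl
  rw [h1, WithLp.prod_norm_sq_eq_of_L2]
  show ‖(0 : G) - 0‖ ^ 2 + ‖WithLp.toLp 2 (x - (0 : F), (0 : ℝ) - ε)‖ ^ 2 = _
  rw [WithLp.prod_norm_sq_eq_of_L2]
  show ‖(0 : G) - 0‖ ^ 2 + (‖x - (0 : F)‖ ^ 2 + ‖(0 : ℝ) - ε‖ ^ 2) = _
  rw [sub_zero, sub_zero, norm_zero, Real.norm_eq_abs, sq_abs]
  ring

private theorem r_norm_eq_some (P : ι → F →L[ℝ] G) (b : ι → G) (ε : ℝ) (j : ι) (x : F) :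
    ‖rP P (some j) x - rb (F := F) b ε (some j)‖ = √(‖P j x - b j‖ ^ 2 + ε ^ 2) := by
  rw [← r_norm_some, Real.sqrt_sq (norm_nonneg _)]

private theorem r_norm_eq_none (P : ι → F →L[ℝ] G) (b : ι → G) (ε : ℝ) (x : F) :
    ‖rP P none x - rb (F := F) b ε none‖ = √(‖x‖ ^ 2 + ε ^ 2) := by
  rw [← r_norm_none P b, Real.sqrt_sq (norm_nonneg _)]

theorem r_low (P : ι → F →L[ℝ] G) (b : ι → G) {ε : ℝ} (hε : 0 < ε) (j : Option ι) (x : F) :
    ε ≤ ‖rP P j x - rb (F := F) b ε j‖ := by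
  cases j with
  | none =>
    rw [r_norm_eq_none]
    exact Real.le_sqrt_of_sq_le (by nlinarith [sq_nonneg ‖x‖])
  | some j =>
    rw [r_norm_eq_some]
    exact Real.le_sqrt_of_sq_le (by nlinarith [sq_nonneg ‖P j x - b j‖])

theorem rP_ne [Nontrivial F] {P : ι → F →L[ℝ] G} (hP : ∀ j, P j ≠ 0) (j : Option ι) :
    rP P j ≠ 0 := by
  intro h
  cases j with
  | none =>
    obtain ⟨x, hx⟩ := exists_ne (0 : F)
    have h1 := r_norm_none P (fun _ => 0) 0 x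
    have h2 := r_norm_none P (fun _ => 0) 0 0
    rw [h, ContinuousLinearMap.zero_apply] at h1 h2
    rw [h1, norm_zero] at h2
    have h3 : 0 < ‖x‖ := norm_pos_iff.2 hx
    nlinarith
  | some j =>
    obtain ⟨x, hx⟩ : ∃ x, P j x ≠ 0 := by
      by_contra hcon
      push Not at hcon
      exact hP j (ContinuousLinearMap.ext hcon)
    have h1 := r_norm_some P (fun _ => 0) 0 j x
    have h2 := r_norm_some P (fun _ => 0) 0 j 0
    rw [h, ContinuousLinearMap.zero_apply] at h1 h2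
    rw [h1, map_zero, sub_zero, sub_zero, norm_zero] at h2
    have h3 : 0 < ‖P j x‖ := norm_pos_iff.2 hx
    nlinarith

/-- The regularised potential. -/
noncomputable def RV (c p : ι → ℝ) (P : ι → F →L[ℝ] G) (b : ι → G) (v : F) (ε : ℝ) : F → ℝ :=
  Vf (rc c ε) (rp p) (rP P) (rb (F := F) b ε) v

/-- `RV = ∑ c_j (‖P_j x - b_j‖² + ε²)^{p_j/2} + ε (‖x‖² + ε²) + ⟪v, x⟫ ≥ Vf`. -/
theorem rv_ge {c p : ι → ℝ} (P : ι → F →L[ℝ] G) (b : ι → G) (v : F) (hc : ∀ j, 0 < c j)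
    (hp : ∀ j, 0 < p j) {ε : ℝ} (hε : 0 < ε) (x : F) : Vf c p P b v x ≤ RV c p P b v ε x := by
  unfold RV Vf
  rw [Fintype.sum_option]
  have h1 : 0 ≤ rc c ε none * ‖rP P none x - rb (F := F) b ε none‖ ^ rp p none :=
    mul_nonneg hε.le (Real.rpow_nonneg (norm_nonneg _) _)
  have h2 : ∑ j, c j * ‖P j x - b j‖ ^ p j ≤ ∑ j, rc c ε (some j) *
      ‖rP P (some j) x - rb (F := F) b ε (some j)‖ ^ rp p (some j) := by
    refine Finset.sum_le_sum fun j _ => ?_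
    show c j * ‖P j x - b j‖ ^ p j ≤ c j *
      ‖rP P (some j) x - rb (F := F) b ε (some j)‖ ^ p j
    refine mul_le_mul_of_nonneg_left (Real.rpow_le_rpow (norm_nonneg _) ?_ (hp j).le) (hc j).le
    rw [r_norm_eq_some]
    exact Real.le_sqrt_of_sq_le (by nlinarith [sq_nonneg ε])
  linarith

theorem rv_tend {c p : ι → ℝ} (P : ι → F →L[ℝ] G) (b : ι → G) (v : F) (hp : ∀ j, 0 < p j)
    (x : F) : Tendsto (fun ε => RV c p P b v ε x) (𝓝[>] 0) (𝓝 (Vf c p P b v x)) := by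
  have hid : Tendsto (fun ε : ℝ => ε) (𝓝[>] 0) (𝓝 0) := tendsto_nhdsWithin_of_tendsto_nhds tendsto_id
  have hsq : ∀ a : ℝ, Tendsto (fun ε : ℝ => √(a ^ 2 + ε ^ 2)) (𝓝[>] 0) (𝓝 √(a ^ 2)) := fun a => by
    have h1 : Tendsto (fun ε : ℝ => a ^ 2 + ε ^ 2) (𝓝[>] 0) (𝓝 (a ^ 2 + 0 ^ 2)) :=
      (hid.pow 2).const_add _
    rw [zero_pow two_ne_zero, add_zero] at h1
    exact (Real.continuous_sqrt.tendsto _).comp h1
  have hsome : ∀ j, Tendsto (fun ε : ℝ => rc c ε (some j) *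
      ‖rP P (some j) x - rb (F := F) b ε (some j)‖ ^ rp p (some j)) (𝓝[>] 0)
      (𝓝 (c j * ‖P j x - b j‖ ^ p j)) := fun j => by
    show Tendsto (fun ε : ℝ => c j *
      ‖rP P (some j) x - rb (F := F) b ε (some j)‖ ^ p j) (𝓝[>] 0) _
    refine Tendsto.const_mul _ ?_
    have h2 := hsq ‖P j x - b j‖
    rw [Real.sqrt_sq (norm_nonneg _)] at h2
    refine Tendsto.rpow_const ?_ (Or.inr (hp j).le)
    refine h2.congr fun ε => ?_
    rw [r_norm_eq_some]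
  have hnone : Tendsto (fun ε : ℝ => rc c ε none *
      ‖rP P none x - rb (F := F) b ε none‖ ^ rp p none) (𝓝[>] 0) (𝓝 0) := by
    have h2 := hsq ‖x‖
    rw [Real.sqrt_sq (norm_nonneg _)] at h2
    have h3 : Tendsto (fun ε : ℝ => ε * √(‖x‖ ^ 2 + ε ^ 2) ^ (2 : ℝ)) (𝓝[>] 0)
        (𝓝 (0 * ‖x‖ ^ (2 : ℝ))) := hid.mul (Tendsto.rpow_const h2 (Or.inr (by norm_num)))
    rw [zero_mul] at h3
    refine h3.congr fun ε => ?_
    show ε * √(‖x‖ ^ 2 + ε ^ 2) ^ (2 : ℝ) =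
      ε * ‖rP P none x - rb (F := F) b ε none‖ ^ (2 : ℝ)
    rw [r_norm_eq_none]
  have hall : Tendsto (fun ε : ℝ => (rc c ε none *
      ‖rP P none x - rb (F := F) b ε none‖ ^ rp p none + ∑ j, rc c ε (some j) *
      ‖rP P (some j) x - rb (F := F) b ε (some j)‖ ^ rp p (some j)) + inner ℝ v x) (𝓝[>] 0)
      (𝓝 ((0 + ∑ j, c j * ‖P j x - b j‖ ^ p j) + inner ℝ v x)) :=
    (hnone.add (tendsto_finsetSum _ fun j _ => hsome j)).add_const _
  rw [zero_add] at hall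
  refine hall.congr fun ε => ?_
  unfold RV Vf
  rw [Fintype.sum_option]

/-- `sd (ε ‖·‖²) x u = 2 ε ‖u‖²`, and the other terms are convex. -/
theorem rv_strong {c p : ι → ℝ} (P : ι → F →L[ℝ] G) (b : ι → G) (v : F) (hc : ∀ j, 0 < c j)
    (hp : ∀ j, 1 < p j) {ε : ℝ} (hε : 0 < ε) (x u : F) :
    2 * ε * ‖u‖ ^ 2 ≤ sd (RV c p P b v ε) x u := by
  have hsd : sd (RV c p P b v ε) x u = ∑ j : Option ι, rc c ε j *
      sd (fun y : RG G F => ‖y‖ ^ rp p j) (rP P j x - rb (F := F) b ε j) (rP P j u) :=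
    sd_Vf (rc c ε) (rp p) (rP P) (rb (F := F) b ε) v x u
  rw [hsd, Fintype.sum_option]
  have h1 : rc c ε none * sd (fun y : RG G F => ‖y‖ ^ rp p none)
      (rP P none x - rb (F := F) b ε none) (rP P none u) = 2 * ε * ‖u‖ ^ 2 := by
    show ε * sd (fun y : RG G F => ‖y‖ ^ (2 : ℝ))
      (rP P none x - rb (F := F) b ε none) (rP P none u) = 2 * ε * ‖u‖ ^ 2
    unfold sd
    simp only [Real.rpow_two]
    have h2 := parallelogram_law_with_norm ℝ (rP P none x - rb (F := F) b ε none) (rP P none u)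
    have h3 : ‖rP P none u‖ ^ 2 = ‖u‖ ^ 2 := by
      have h4 : rP P none u = WithLp.toLp 2 ((0 : G), WithLp.toLp 2 (u, (0 : ℝ))) := rfl
      rw [h4, WithLp.prod_norm_sq_eq_of_L2]
      show ‖(0 : G)‖ ^ 2 + ‖WithLp.toLp 2 (u, (0 : ℝ))‖ ^ 2 = _
      rw [WithLp.prod_norm_sq_eq_of_L2]
      show ‖(0 : G)‖ ^ 2 + (‖u‖ ^ 2 + ‖(0 : ℝ)‖ ^ 2) = _
      rw [norm_zero, norm_zero]
      ring
    nlinarith
  have h5 : 0 ≤ ∑ j, rc c ε (some j) * sd (fun y : RG G F => ‖y‖ ^ rp p (some j))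
      (rP P (some j) x - rb (F := F) b ε (some j)) (rP P (some j) u) := by
    refine Finset.sum_nonneg fun j _ => mul_nonneg (hc j).le ?_
    show 0 ≤ ‖_ + _‖ ^ p j + ‖_ - _‖ ^ p j - 2 * ‖_‖ ^ p j
    obtain ⟨y, hy⟩ : ∃ y : RG G F, y = rP P (some j) x - rb (F := F) b ε (some j) := ⟨_, rfl⟩
    obtain ⟨w, hw⟩ : ∃ w : RG G F, w = rP P (some j) u := ⟨_, rfl⟩
    rw [← hy, ← hw]
    have h6 := (convexOn_rpow (hp j).le).2 (mem_Ici.2 (norm_nonneg (y + w)))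
      (mem_Ici.2 (norm_nonneg (y - w))) (by norm_num : (0 : ℝ) ≤ 1 / 2)
      (by norm_num : (0 : ℝ) ≤ 1 / 2) (by norm_num)
    simp only [smul_eq_mul] at h6
    have h7 : ‖y‖ ≤ 1 / 2 * ‖y + w‖ + 1 / 2 * ‖y - w‖ := by
      have h8 : ‖(y + w) + (y - w)‖ ≤ ‖y + w‖ + ‖y - w‖ := norm_add_le _ _
      have h9 : (y + w) + (y - w) = (2 : ℝ) • y := by module
      rw [h9, norm_smul, Real.norm_eq_abs, abs_of_pos (by norm_num : (0 : ℝ) < 2)] at h8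
      linarith
    have h10 : ‖y‖ ^ p j ≤ (1 / 2 * ‖y + w‖ + 1 / 2 * ‖y - w‖) ^ p j :=
      Real.rpow_le_rpow (norm_nonneg _) h7 (by linarith [hp j])
    linarith
  linarith

end Pool.Agent.Lib.MP_8d00da_gt.h42t
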