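import Mathlib
import Pool.Agent.Lib.MP_8d00da_gt.h97r.RLim

namespace Pool.Agent.Lib.MP_8d00da_gt.h42r
end Pool.Agent.Lib.MP_8d00da_gt.h42r


/-!
# Limits in the linearly invariant inequality
-/

namespace Pool.Agent.Lib.MP_8d00da_gt.h42t

open MeasureTheory Set Filter
open Pool.Agent.Lib.MP_8d00da_gt.h25 Pool.Agent.Lib.MP_8d00da_gt.h42
open Pool.Agent.Lib.MP_8d00da_gt.h42s Pool.Agent.Lib.MP_8d00da_gt.h42o
open Pool.Agent.Lib.MP_8d00da_gt.h97r Pool.Agent.Lib.MP_8d00da_gt.h42r
open scoped Topology NNReal ENNReal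

set_option linter.unusedSectionVars false

variable {F : Type*} [NormedAddCommGroup F] [InnerProductSpace ℝ F]
    [FiniteDimensional ℝ F] [MeasurableSpace F] [BorelSpace F]

variable {G : Type*} [NormedAddCommGroup G] [InnerProductSpace ℝ G]
    [FiniteDimensional ℝ G] [MeasurableSpace G] [BorelSpace G]

variable {ι : Type*} [Fintype ι]

/-- Dominated convergence in all the integrals; `|f| ≤ B`, `|fderiv f y x| ≤ L ‖x‖` (also the outer
integral is dominated by a multiple of `g`). -/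
theorem qj_lim {C : ℝ} {h g : F → ℝ} {H : ℕ → F → ℝ} (hm : ∀ n, Measurable (H n))
    (h0 : ∀ n x, 0 ≤ H n x) (hg : ∀ n x, H n x ≤ g x) (gi : Integrable g)
    (g2 : Integrable fun x => ‖x‖ ^ 2 * g x)
    (hlim : ∀ x, Tendsto (fun n => H n x) atTop (𝓝 (h x))) (hQ : ∀ n, QJ C (H n)) : QJ C h := by
  refine QJ_limit (H := g) hm h0 hg ?_ (Eventually.of_forall hlim) hQ
  have e : (fun x : F => (1 + ‖x‖ ^ 2) * g x) = fun x => g x + ‖x‖ ^ 2 * g x := by
    funext x
    ring
  rw [e]
  exact gi.add g2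

/-- Every function on a point is constant. -/
theorem qj_triv [Subsingleton F] (C : ℝ) (h : F → ℝ) : QJ C h := by
  intro f _
  have e0 : ∀ x : F, x = 0 := fun x => Subsingleton.elim x 0
  have e1 : ∫ x, f x ^ 2 * h x = f 0 ^ 2 * ∫ x, h x := by
    rw [← integral_const_mul]
    exact integral_congr_ae (Eventually.of_forall fun x => by simp only; rw [e0 x])
  have e2 : ∫ x, f x * h x = f 0 * ∫ x, h x := by
    rw [← integral_const_mul]
    exact integral_congr_ae (Eventually.of_forall fun x => by simp only; rw [e0 x])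
  have e3 : ∀ y x : F, (fderiv ℝ f y x) ^ 2 * h x = 0 := by
    intro y x
    rw [e0 x, map_zero]
    ring
  have e4 : ∫ y, (∫ x, (fderiv ℝ f y x) ^ 2 * h x) * h y = 0 := by
    simp only [e3, integral_zero, zero_mul]
  rw [e1, e2, e4]
  apply le_of_eq
  ring

theorem qj_zero (C : ℝ) : QJ C fun _ : F => 0 := by
  intro f _
  simp

end Pool.Agent.Lib.MP_8d00da_gt.h42t
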