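import Mathlib
import Pool.Agent.Lib.MP_8d00da_gt.h42t.TG7
import Pool.Agent.Lib.MP_8d00da_gt.h42t.TH0
import Pool.Agent.Lib.MP_8d00da_gt.h42t.TG5

/-!
# All bodies
-/

namespace Pool.Agent.Lib.MP_8d00da_gt.h42t

open MeasureTheory Set Filter
open Pool.Agent.Lib.MP_8d00da_gt.h25 Pool.Agent.Lib.MP_8d00da_gt.h42
open Pool.Agent.Lib.MP_8d00da_gt.h42s Pool.Agent.Lib.MP_8d00da_gt.h42o
open Pool.Agent.Lib.MP_8d00da_gt.h97r Pool.Agent.Lib.MP_8d00da_gt.h42r
open scoped Topology NNReal ENNReal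

set_option linter.unusedSectionVars false

variable {F : Type*} [NormedAddCommGroup F] [InnerProductSpace ℝ F]
    [FiniteDimensional ℝ F] [MeasurableSpace F] [BorelSpace F]

variable {G : Type*} [NormedAddCommGroup G] [InnerProductSpace ℝ G]
    [FiniteDimensional ℝ G] [MeasurableSpace G] [BorelSpace G]

variable {ι : Type*} [Fintype ι]

variable {q : ℕ}

theorem ratio_all {δ p0 p : ℝ} (hδ : 0 < δ) (hδ1 : δ ≤ 1) (hp0 : 2 ≤ p0) (hp1 : 1 + δ ≤ p)
    (hp2 : p ≤ p0) : max 1 (p - 1) ≤ p0 / δ * min 1 (p - 1) := by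
  have h1 : δ ≤ min 1 (p - 1) := le_min hδ1 (by linarith)
  have h2 : max 1 (p - 1) ≤ p0 := max_le (by linarith) (by linarith)
  calc max 1 (p - 1) ≤ p0 := h2
    _ = p0 / δ * δ := by field_simp
    _ ≤ p0 / δ * min 1 (p - 1) := mul_le_mul_of_nonneg_left h1 (by positivity)

theorem rc_pos {c : ι → ℝ} (hc : ∀ j, 0 < c j) {ε : ℝ} (hε : 0 < ε) (j : Option ι) :
    0 < rc c ε j := by
  cases j with
  | none => exact hε
  | some j => exact hc j

theorem rp_low {p : ι → ℝ} {δ : ℝ} (hδ1 : δ ≤ 1) (hp1 : ∀ j, 1 + δ ≤ p j) (j : Option ι) :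
    1 + δ ≤ rp p j := by
  cases j with
  | none => show 1 + δ ≤ 2; linarith
  | some j => exact hp1 j

theorem rp_high {p : ι → ℝ} {p0 : ℝ} (hp0 : 2 ≤ p0) (hp2 : ∀ j, p j ≤ p0) (j : Option ι) :
    rp p j ≤ p0 := by
  cases j with
  | none => exact hp0
  | some j => exact hp2 j

theorem eps_tend : Tendsto (fun n : ℕ => 1 / ((n : ℝ) + 1)) atTop (𝓝[>] 0) := by
  refine tendsto_nhdsWithin_iff.2 ⟨tendsto_one_div_add_atTop_nhds_zero_nat, ?_⟩
  exact Eventually.of_forall fun n => by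
    show (0 : ℝ) < 1 / ((n : ℝ) + 1)
    positivity

/-- `QJ` for all the bodies. -/
theorem qj_body_all {c p : ι → ℝ} {P : ι → F →L[ℝ] G} (hc : ∀ j, 0 < c j) {δ p0 K : ℝ}
    (hδ : 0 < δ) (hδ1 : δ ≤ 1) (hp0 : 2 ≤ p0) (hp1 : ∀ j, 1 + δ ≤ p j) (hp2 : ∀ j, p j ≤ p0)
    (hP : ∀ j, P j ≠ 0) (b : ι → G) (v : F) {L : ℝ}
    (hbd : Bornology.IsBounded {x | Vf c p P b v x < L}) (hq : p0 ≤ (q : ℝ))
    (hK : 4 / δ + p0 + 2 ≤ K) : QJ (cF q (p0 / δ) K δ) (ib (Vf c p P b v) L) := by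
  rcases subsingleton_or_nontrivial F with hF | hF
  · exact qj_triv _ _
  have hp' : ∀ j, 0 < p j := fun j => by linarith [hp1 j]
  have hp'' : ∀ j, 1 < p j := fun j => by linarith [hp1 j]
  have hΛ : 0 < p0 / δ := by positivity
  have hRD : RD (Vf c p P b v) P (ωf c p P b) (p0 / δ) :=
    rd_pow' hc (fun j => by linarith [hp1 j]) hP b v hΛ
      fun j => ratio_all hδ hδ1 hp0 (hp1 j) (hp2 j)
  have hεn : ∀ n : ℕ, 0 < 1 / ((n : ℝ) + 1) := fun n => by positivity
  have hRDn : ∀ n : ℕ, RD (RV c p P b v (1 / ((n : ℝ) + 1))) (rP P)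
      (ωf (rc c (1 / ((n : ℝ) + 1))) (rp p) (rP P) (rb (F := F) b (1 / ((n : ℝ) + 1))))
      (p0 / δ) := by
    intro n
    exact rd_pow' (rc_pos hc (hεn n)) (fun j => by linarith [rp_low hδ1 hp1 j]) (rP_ne hP) _ v hΛ
      fun j => ratio_all hδ hδ1 hp0 (rp_low hδ1 hp1 j) (rp_high hp0 hp2 j)
  have hSm : MeasurableSet {x | Vf c p P b v x < L} :=
    (isOpen_lt hRD.cont continuous_const).measurableSet
  have gi : Integrable (ib (Vf c p P b v) L) := by
    unfold ib
    exact (integrable_indicator_iff hSm).2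
      (integrableOn_const (hbd.measure_lt_top.ne) (by simp))
  obtain ⟨R, hR⟩ := isBounded_iff_forall_norm_le.1 hbd
  refine qj_lim (g := ib (Vf c p P b v) L)
    (H := fun n => ib (RV c p P b v (1 / ((n : ℝ) + 1))) L)
    (fun n => ib_meas (hRDn n).cont L) (fun n x => ib_nonneg _ _ _) (fun n x => ?_) gi ?_
    (fun x => ?_) (fun n => ?_)
  · have h1 := rv_ge P b v hc hp' (hεn n) x
    unfold ib
    by_cases hx : RV c p P b v (1 / ((n : ℝ) + 1)) x < L
    · rw [Set.indicator_of_mem (by exact hx), Set.indicator_of_mem (by exact h1.trans_lt hx)]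
    · rw [Set.indicator_of_notMem (by exact hx)]
      exact Set.indicator_nonneg (fun _ _ => zero_le_one) x
  · refine (gi.const_mul (R ^ 2)).mono'
      ((measurable_norm.pow_const 2).mul (ib_meas hRD.cont L)).aestronglyMeasurable
      (Eventually.of_forall fun x => ?_)
    rw [Real.norm_eq_abs, abs_of_nonneg (mul_nonneg (sq_nonneg _) (ib_nonneg _ _ _))]
    by_cases hx : Vf c p P b v x < L
    · have h1 := hR x hx
      exact mul_le_mul_of_nonneg_right (pow_le_pow_left₀ (norm_nonneg _) h1 2)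
        (ib_nonneg _ _ _)
    · unfold ib
      rw [Set.indicator_of_notMem (by exact hx)]
      simp
  · by_cases hx : Vf c p P b v x < L
    · have h1 := (rv_tend (c := c) P b v hp' x).comp eps_tend
      have h2 := h1.eventually_lt_const hx
      refine tendsto_const_nhds.congr' ?_
      filter_upwards [h2] with n hn
      unfold ib
      rw [Set.indicator_of_mem (by exact hx), Set.indicator_of_mem (by exact hn)]
    · refine tendsto_const_nhds.congr fun n => ?_
      have h1 := rv_ge P b v hc hp' (hεn n) x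
      unfold ib
      rw [Set.indicator_of_notMem (by exact hx), Set.indicator_of_notMem]
      exact fun h2 => hx (h1.trans_lt h2)
  · by_cases hne : ∃ x, RV c p P b v (1 / ((n : ℝ) + 1)) x < L
    · exact reg_body (rc_pos hc (hεn n)) hδ hδ1 hp0 (rp_low hδ1 hp1) (rp_high hp0 hp2) (rP_ne hP) v
        (hεn n) (fun j x => r_low P b (hεn n) j x) (κ := 2 * (1 / ((n : ℝ) + 1)))
        (mul_pos two_pos (hεn n))
        (fun x u => rv_strong P b v hc hp'' (hεn n) x u)
        (hbd.subset fun x hx => (rv_ge P b v hc hp' (hεn n) x).trans_lt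
          hx) hne hq hK
    · have e : ib (RV c p P b v (1 / ((n : ℝ) + 1))) L = fun _ => 0 := by
        funext x
        unfold ib
        rw [Set.indicator_of_notMem]
        exact fun hx => hne ⟨x, hx⟩
      rw [e]
      exact qj_zero _

end Pool.Agent.Lib.MP_8d00da_gt.h42t
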