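import Mathlib
import Pool.Agent.Lib.MP_8d00da_gt.h42t.TG6
import Pool.Agent.Lib.MP_8d00da_gt.h42t.TH1

/-!
# All densities
-/

namespace Pool.Agent.Lib.MP_8d00da_gt.h42t

open MeasureTheory Set Filter
open Pool.Agent.Lib.MP_8d00da_gt.h25 Pool.Agent.Lib.MP_8d00da_gt.h42
open Pool.Agent.Lib.MP_8d00da_gt.h42s Pool.Agent.Lib.MP_8d00da_gt.h42o
open Pool.Agent.Lib.MP_8d00da_gt.h97r Pool.Agent.Lib.MP_8d00da_gt.h42r
open scoped Topology NNReal ENNReal

set_option linter.unusedSectionVars false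

variable {F : Type*} [NormedAddCommGroup F] [InnerProductSpace ℝ F]
    [FiniteDimensional ℝ F] [MeasurableSpace F] [BorelSpace F]

variable {G : Type*} [NormedAddCommGroup G] [InnerProductSpace ℝ G]
    [FiniteDimensional ℝ G] [MeasurableSpace G] [BorelSpace G]

variable {ι : Type*} [Fintype ι]

variable {q : ℕ}

theorem dens_data {κ' : Type*} [Fintype κ'] {V : F → ℝ} {P : ι → F →L[ℝ] G} {ω : ι → F → ℝ}
    {Λ : ℝ} (H : RD V P ω Λ) {a : κ' → F} (ha : ∀ k, a k ≠ 0) (d : κ' → ℝ) {β : κ' → ℝ}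
    (hβ : ∀ k, 1 < β k) {A : ℝ} (hA : 0 < A) :
    Continuous (fun x => A * (Real.exp (-V x) * bar a d β x)) ∧
    (∀ x, 0 ≤ A * (Real.exp (-V x) * bar a d β x)) ∧
    LogConc fun x => A * (Real.exp (-V x) * bar a d β x) := by
  have H1 := re_exp H
  have H2 := re_bar (G := ℝ) ha d hβ (e := (1 : ℝ)) norm_one (le_refl (1 : ℝ))
  refine ⟨continuous_const.mul (H1.cont.mul H2.cont),
    fun x => mul_nonneg hA.le (mul_nonneg (H1.nn x) (H2.nn x)), ?_⟩
  intro t ht0 ht1 x y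
  show (A * (Real.exp (-V x) * bar a d β x)) ^ (1 - t) *
    (A * (Real.exp (-V y) * bar a d β y)) ^ t ≤ _
  rw [Real.mul_rpow hA.le (mul_nonneg (H1.nn x) (H2.nn x)),
    Real.mul_rpow hA.le (mul_nonneg (H1.nn y) (H2.nn y)), Real.mul_rpow (H1.nn x) (H2.nn x),
    Real.mul_rpow (H1.nn y) (H2.nn y)]
  have k1 := H1.lc t ht0 ht1 x y
  have k2 := H2.lc t ht0 ht1 x y
  have e : A ^ (1 - t) * A ^ t = A := by
    rw [← Real.rpow_add hA]
    norm_num
  calc _ = (A ^ (1 - t) * A ^ t) * ((Real.exp (-V x) ^ (1 - t) * Real.exp (-V y) ^ t) *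
        (bar a d β x ^ (1 - t) * bar a d β y ^ t)) := by ring
    _ = A * ((Real.exp (-V x) ^ (1 - t) * Real.exp (-V y) ^ t) *
        (bar a d β x ^ (1 - t) * bar a d β y ^ t)) := by rw [e]
    _ ≤ _ := mul_le_mul_of_nonneg_left (mul_le_mul k1 k2
        (mul_nonneg (Real.rpow_nonneg (H2.nn x) _) (Real.rpow_nonneg (H2.nn y) _)) (H1.nn _)) hA.le

theorem unit_vec : ‖(WithLp.toLp 2 ((0 : G), WithLp.toLp 2 ((0 : F), (1 : ℝ))) : RG G F)‖ = 1 := by
  rw [WithLp.prod_norm_eq_of_L2]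
  simp [WithLp.prod_norm_eq_of_L2]

/-- `QJ` for all the densities. -/
theorem qj_dens_all {κ' : Type*} [Fintype κ'] {c p : ι → ℝ} {P : ι → F →L[ℝ] G}
    (hc : ∀ j, 0 < c j) {δ p0 K : ℝ} (hδ : 0 < δ) (hδ1 : δ ≤ 1) (hp0 : 2 ≤ p0)
    (hp1 : ∀ j, 1 + δ ≤ p j) (hp2 : ∀ j, p j ≤ p0) (hP : ∀ j, P j ≠ 0) (b : ι → G) (v : F)
    {a : κ' → F} (ha : ∀ k, a k ≠ 0) (d : κ' → ℝ) {β : κ' → ℝ} (hβ : ∀ k, 1 + δ ≤ β k) {A : ℝ}
    (hA : 0 < A) (hi : Integrable fun x => A * (Real.exp (-Vf c p P b v x) * bar a d β x))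
    (hi2 : Integrable fun x => ‖x‖ ^ 2 * (A * (Real.exp (-Vf c p P b v x) * bar a d β x)))
    (hpos : 0 < ∫ x, A * (Real.exp (-Vf c p P b v x) * bar a d β x)) (hq : p0 ≤ (q : ℝ))
    (hK : 4 / δ + p0 + 2 ≤ K) :
    QJ (cF q (p0 / δ) K δ) fun x => A * (Real.exp (-Vf c p P b v x) * bar a d β x) := by
  rcases subsingleton_or_nontrivial F with hF | hF
  · exact qj_triv _ _
  have hp' : ∀ j, 0 < p j := fun j => by linarith [hp1 j]
  have hp'' : ∀ j, 1 < p j := fun j => by linarith [hp1 j]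
  have hβ' : ∀ k, 1 < β k := fun k => by linarith [hβ k]
  have hΛ : 0 < p0 / δ := by positivity
  have hRD : RD (Vf c p P b v) P (ωf c p P b) (p0 / δ) :=
    rd_pow' hc hp'' hP b v hΛ fun j => ratio_all hδ hδ1 hp0 (hp1 j) (hp2 j)
  have hεn : ∀ n : ℕ, 0 < 1 / ((n : ℝ) + 1) := fun n => by positivity
  have hRDn : ∀ n : ℕ, RD (RV c p P b v (1 / ((n : ℝ) + 1))) (rP P)
      (ωf (rc c (1 / ((n : ℝ) + 1))) (rp p) (rP P) (rb (F := F) b (1 / ((n : ℝ) + 1))))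
      (p0 / δ) := by
    intro n
    exact rd_pow' (rc_pos hc (hεn n)) (fun j => by linarith [rp_low hδ1 hp1 j]) (rP_ne hP) _ v hΛ
      fun j => ratio_all hδ hδ1 hp0 (rp_low hδ1 hp1 j) (rp_high hp0 hp2 j)
  have D0 := dens_data hRD ha d hβ' hA
  have Dn := fun n => dens_data (hRDn n) ha d hβ' hA
  have bn : ∀ x, 0 ≤ bar a d β x := fun x =>
    Finset.prod_nonneg fun k _ => Real.rpow_nonneg (le_max_right _ _) _
  have hle : ∀ (n : ℕ) x, A * (Real.exp (-RV c p P b v (1 / ((n : ℝ) + 1)) x) * bar a d β x) ≤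
      A * (Real.exp (-Vf c p P b v x) * bar a d β x) := by
    intro n x
    have h1 := rv_ge P b v hc hp' (hεn n) x
    exact mul_le_mul_of_nonneg_left (mul_le_mul_of_nonneg_right
      (Real.exp_le_exp.2 (neg_le_neg h1)) (bn x)) hA.le
  have hin : ∀ n : ℕ, Integrable fun x =>
      A * (Real.exp (-RV c p P b v (1 / ((n : ℝ) + 1)) x) * bar a d β x) := by
    intro n
    refine hi.mono' (Dn n).1.aestronglyMeasurable (Eventually.of_forall fun x => ?_)
    rw [Real.norm_eq_abs, abs_of_nonneg ((Dn n).2.1 x)]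
    exact hle n x
  have hposn : ∀ n : ℕ, 0 < ∫ x,
      A * (Real.exp (-RV c p P b v (1 / ((n : ℝ) + 1)) x) * bar a d β x) := by
    intro n
    rw [integral_pos_iff_support_of_nonneg (Dn n).2.1 (hin n)]
    rw [integral_pos_iff_support_of_nonneg D0.2.1 hi] at hpos
    refine hpos.trans_le (measure_mono fun x hx => ?_)
    have h1 : A * (Real.exp (-Vf c p P b v x) * bar a d β x) ≠ 0 := hx
    have h2 : bar a d β x ≠ 0 := fun h => h1 (by rw [h, mul_zero, mul_zero])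
    exact mul_ne_zero hA.ne' (mul_ne_zero (Real.exp_pos _).ne' h2)
  refine qj_lim (g := fun x => A * (Real.exp (-Vf c p P b v x) * bar a d β x))
    (H := fun (n : ℕ) x => A * (Real.exp (-RV c p P b v (1 / ((n : ℝ) + 1)) x) * bar a d β x))
    (fun n => (Dn n).1.measurable) (fun n x => (Dn n).2.1 x) hle hi hi2 (fun x => ?_) (fun n => ?_)
  · have h1 := (rv_tend (c := c) P b v hp' x).comp eps_tend
    exact (((Real.continuous_exp.tendsto _).comp h1.neg).mul_const _).const_mul _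
  · exact reg_dens (rc_pos hc (hεn n)) hδ hδ1 hp0 (rp_low hδ1 hp1) (rp_high hp0 hp2) (rP_ne hP) v
      (hεn n) (fun j x => r_low P b (hεn n) j x) (κ := 2 * (1 / ((n : ℝ) + 1)))
      (mul_pos two_pos (hεn n)) (fun x u => rv_strong P b v hc hp'' (hεn n) x u) ha d hβ
      (e := (WithLp.toLp 2 ((0 : G), WithLp.toLp 2 ((0 : F), (1 : ℝ))) : RG G F)) unit_vec hA
      (hin n) (hposn n) hq hK

end Pool.Agent.Lib.MP_8d00da_gt.h42t
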