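import Mathlib

namespace Pool.Agent.Lib.MP_8d00da_gt.h25
end Pool.Agent.Lib.MP_8d00da_gt.h25
namespace Pool.Agent.Lib.MP_8d00da_gt.h42
end Pool.Agent.Lib.MP_8d00da_gt.h42
namespace Pool.Agent.Lib.MP_8d00da_gt.h42s
end Pool.Agent.Lib.MP_8d00da_gt.h42s
namespace Pool.Agent.Lib.MP_8d00da_gt.h42o
end Pool.Agent.Lib.MP_8d00da_gt.h42o
namespace Pool.Agent.Lib.MP_8d00da_gt.h97r
end Pool.Agent.Lib.MP_8d00da_gt.h97r
namespace Pool.Agent.Lib.MP_8d00da_gt.h42r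
end Pool.Agent.Lib.MP_8d00da_gt.h42r


/-!
# Orlicz functions and growth of weights: definitions
-/

namespace Pool.Agent.Lib.MP_8d00da_gt.h42t

open MeasureTheory Set Filter
open Pool.Agent.Lib.MP_8d00da_gt.h25 Pool.Agent.Lib.MP_8d00da_gt.h42
open Pool.Agent.Lib.MP_8d00da_gt.h42s Pool.Agent.Lib.MP_8d00da_gt.h42o
open Pool.Agent.Lib.MP_8d00da_gt.h97r Pool.Agent.Lib.MP_8d00da_gt.h42r
open scoped Topology NNReal ENNReal

set_option linter.unusedSectionVars false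

variable {F : Type*} [NormedAddCommGroup F] [InnerProductSpace ℝ F]
    [FiniteDimensional ℝ F] [MeasurableSpace F] [BorelSpace F]

variable {G : Type*} [NormedAddCommGroup G] [InnerProductSpace ℝ G]
    [FiniteDimensional ℝ G] [MeasurableSpace G] [BorelSpace G]

variable {ι : Type*} [Fintype ι]

/-- `ψ` is an Orlicz type function with derivative `g`, and `g t / t ^ δ` is non-decreasing,
`g t / t ^ ρ` is non-increasing on `(0, ∞)`. -/
structure Orl (δ ρ : ℝ) (ψ g : ℝ → ℝ) : Prop where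
  cont : ContinuousOn ψ (Ici 0)
  der : ∀ t, 0 < t → HasDerivAt ψ (g t) t
  pos : ∀ t, 0 < t → 0 < g t
  low : ∀ s t, 0 < s → s ≤ t → g s * (t / s) ^ δ ≤ g t
  high : ∀ s t, 0 < s → s ≤ t → g t ≤ g s * (t / s) ^ ρ

/-- Growth condition for a weight on `(0, ∞)`. -/
structure WG (q : ℕ) (δ : ℝ) (w : ℝ → ℝ) : Prop where
  pos : ∀ t, 0 < t → 0 < w t
  cont : ContinuousOn w (Ioi 0)
  cmp : ∀ s t, 0 < s → 0 < t → w t ≤ w s * ((s / t) ^ (1 - δ) + (t / s) ^ (((q : ℝ) + 2) / 2))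

/-- The potential `∑ ψ_j(‖P_j x - b_j‖) + ⟪v, x⟫`. -/
noncomputable def Vo (ψ : ι → ℝ → ℝ) (P : ι → F →L[ℝ] G) (b : ι → G) (v : F) (x : F) : ℝ :=
  ∑ j, ψ j ‖P j x - b j‖ + inner ℝ v x

/-- Constant in the lower bound for second differences. -/
noncomputable def ko (δ ρ : ℝ) : ℝ := δ / 2 ^ (ρ + 2)

/-- The weights. -/
noncomputable def wo (δ ρ : ℝ) (g : ℝ → ℝ) (t : ℝ) : ℝ := ko δ ρ * (g t / t)

/-- The ratio of the bounds for second differences. -/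
noncomputable def Lo (δ ρ : ℝ) : ℝ := 4 * ρ * 12 ^ ρ / δ

end Pool.Agent.Lib.MP_8d00da_gt.h42t
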