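import Mathlib
import Pool.Agent.Lib.MP_8d00da_gt.h42t.TODefs
import Pool.Agent.Lib.MP_8d00da_gt.h42t.TA1
import Pool.Agent.Lib.MP_8d00da_gt.h42r.AL3
import Pool.Agent.Lib.MP_8d00da_gt.h42t.TF1
import Pool.Agent.Lib.MP_8d00da_gt.h42t.TF4

/-!
# Lower bound for the averaged weight
-/

namespace Pool.Agent.Lib.MP_8d00da_gt.h42t

open MeasureTheory Set Filter
open Pool.Agent.Lib.MP_8d00da_gt.h25 Pool.Agent.Lib.MP_8d00da_gt.h42
open Pool.Agent.Lib.MP_8d00da_gt.h42s Pool.Agent.Lib.MP_8d00da_gt.h42o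
open Pool.Agent.Lib.MP_8d00da_gt.h97r Pool.Agent.Lib.MP_8d00da_gt.h42r
open scoped Topology NNReal ENNReal

set_option linter.unusedSectionVars false

variable {F : Type*} [NormedAddCommGroup F] [InnerProductSpace ℝ F]
    [FiniteDimensional ℝ F] [MeasurableSpace F] [BorelSpace F]

variable {G : Type*} [NormedAddCommGroup G] [InnerProductSpace ℝ G]
    [FiniteDimensional ℝ G] [MeasurableSpace G] [BorelSpace G]

variable {ι : Type*} [Fintype ι]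

variable {q : ℕ}

private theorem to3_sum {n m : ℕ} (hm : m ≠ 0) (a : Fin n → ℝ) (ha : ∀ i, 0 ≤ a i) :
    ∑ i, a i ^ m ≤ (∑ i, a i) ^ m := by
  obtain ⟨k, rfl⟩ := Nat.exists_eq_succ_of_ne_zero hm
  have hS : 0 ≤ ∑ i, a i := Finset.sum_nonneg fun i _ => ha i
  calc ∑ i, a i ^ (k + 1) ≤ ∑ i, a i * (∑ i, a i) ^ k := by
        refine Finset.sum_le_sum fun i _ => ?_
        rw [pow_succ']
        refine mul_le_mul_of_nonneg_left (pow_le_pow_left₀ (ha i) ?_ k) (ha i)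
        exact Finset.single_le_sum (f := a) (fun i _ => ha i) (Finset.mem_univ i)
    _ = (∑ i, a i) ^ (k + 1) := by rw [← Finset.sum_mul, pow_succ']

private theorem to3_root {m : ℕ} (hm : m ≠ 0) {t : ℝ} (ht : 0 < t) :
    (t ^ (-(1 / (m : ℝ)))) ^ m = t⁻¹ := by
  rw [← Real.rpow_natCast, ← Real.rpow_mul ht.le]
  have : -(1 / (m : ℝ)) * (m : ℝ) = -1 := by
    have hm' : (m : ℝ) ≠ 0 := by exact_mod_cast hm
    field_simp
  rw [this, Real.rpow_neg_one]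

/-- The comparison of the weights. -/
private theorem to3_cmp {δ : ℝ} (hδ0 : 0 < δ) (hδ : δ ≤ 1 / 2) {w : ℝ → ℝ} (hw : WG q δ w)
    {τ n : ℝ} (hτ : 0 < τ) (hn : 0 < n) :
    w (n ^ 2) ^ (-(1 / ((q + 2 : ℕ) : ℝ))) ≤
      w (τ ^ 2) ^ (-(1 / ((q + 2 : ℕ) : ℝ))) * (1 + (n / τ + τ / n)) := by
  have hn2 : 0 < n ^ 2 := by positivity
  have hτ2 : 0 < τ ^ 2 := by positivity
  have hwn := hw.pos _ hn2
  have hwτ := hw.pos _ hτ2
  have h1 := hw.cmp (n ^ 2) (τ ^ 2) hn2 hτ2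
  set r : ℝ := n / τ with hr
  have hr0 : 0 < r := by positivity
  have e1 : n ^ 2 / τ ^ 2 = r ^ 2 := by rw [hr, div_pow]
  have e2 : τ ^ 2 / n ^ 2 = (r⁻¹) ^ 2 := by rw [hr, inv_div, div_pow]
  have e3 : τ / n = r⁻¹ := by rw [hr, inv_div]
  rw [e1, e2] at h1
  rw [e3]
  have h2 : (r ^ 2) ^ (1 - δ) ≤ (1 + r) ^ (q + 2) := by
    rcases le_total 1 r with h | h
    · calc (r ^ 2) ^ (1 - δ) ≤ (r ^ 2) ^ (1 : ℝ) :=
            Real.rpow_le_rpow_of_exponent_le (one_le_pow₀ h) (by linarith)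
        _ = r ^ 2 := Real.rpow_one _
        _ ≤ r ^ (q + 2) := pow_le_pow_right₀ h (by omega)
        _ ≤ (1 + r) ^ (q + 2) := pow_le_pow_left₀ hr0.le (by linarith) _
    · calc (r ^ 2) ^ (1 - δ) ≤ 1 :=
            Real.rpow_le_one (by positivity) (pow_le_one₀ hr0.le h) (by linarith)
        _ ≤ (1 + r) ^ (q + 2) := one_le_pow₀ (by linarith)
  have h3 : ((r⁻¹) ^ 2) ^ (((q : ℝ) + 2) / 2) = (r⁻¹) ^ (q + 2) := by
    have hri : 0 ≤ r⁻¹ := by positivity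
    rw [← Real.rpow_natCast (r⁻¹) 2, ← Real.rpow_mul hri, ← Real.rpow_natCast (r⁻¹) (q + 2)]
    congr 1
    push_cast
    ring
  rw [h3] at h1
  have h4 : (1 + r) ^ (q + 2) + (r⁻¹) ^ (q + 2) ≤ (1 + r + r⁻¹) ^ (q + 2) :=
    pow_add_pow_le (by positivity) (by positivity) (by omega)
  have h5 : w (τ ^ 2) ≤ w (n ^ 2) * (1 + r + r⁻¹) ^ (q + 2) :=
    h1.trans (mul_le_mul_of_nonneg_left ((add_le_add h2 le_rfl).trans h4) hwn.le)
  have hne : q + 2 ≠ 0 := by omega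
  have e4 := to3_root hne hwn
  have e5 := to3_root hne hwτ
  set a := w (n ^ 2) ^ (-(1 / ((q + 2 : ℕ) : ℝ))) with ha
  set b := w (τ ^ 2) ^ (-(1 / ((q + 2 : ℕ) : ℝ))) with hb
  have ha0 : 0 < a := Real.rpow_pos_of_pos hwn _
  have hb0 : 0 < b := Real.rpow_pos_of_pos hwτ _
  have h6 : a ^ (q + 2) ≤ (b * (1 + (r + r⁻¹))) ^ (q + 2) := by
    rw [mul_pow, e4, e5, ← add_assoc, inv_mul_eq_div, le_div_iff₀ hwτ, inv_mul_le_iff₀ hwn]
    exact h5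
  exact le_of_pow_le_pow_left₀ hne (by positivity) h6

/-- The tangent of `t ↦ t ^ (-m)`. -/
private theorem to3_tan {m : ℕ} {Y Y0 : ℝ} (hY : 0 < Y) (hY0 : 0 < Y0) :
    (Y0⁻¹) ^ m * (1 + (m : ℝ) - (m : ℝ) / Y0 * Y) ≤ (Y ^ m)⁻¹ := by
  set u := Y / Y0 with hu
  have hu0 : 0 < u := by positivity
  have h1 : 1 + (m : ℝ) * (u⁻¹ - 1) ≤ (1 + (u⁻¹ - 1)) ^ m :=
    one_add_mul_le_pow (by have : 0 < u⁻¹ := by positivity
                           linarith) m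
  rw [add_sub_cancel] at h1
  have h2 : 1 - u ≤ u⁻¹ - 1 := by
    have h3 : u * u⁻¹ = 1 := mul_inv_cancel₀ hu0.ne'
    have h4 : 0 < u⁻¹ := by positivity
    nlinarith [sq_nonneg (u - 1), mul_pos hu0 h4]
  have h5 : 1 + (m : ℝ) - (m : ℝ) / Y0 * Y ≤ (u⁻¹) ^ m := by
    have h6 : (m : ℝ) * (1 - u) ≤ (m : ℝ) * (u⁻¹ - 1) :=
      mul_le_mul_of_nonneg_left h2 (Nat.cast_nonneg m)
    have h7 : (m : ℝ) / Y0 * Y = (m : ℝ) * u := by rw [hu]; ring
    rw [h7]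
    linarith
  calc (Y0⁻¹) ^ m * (1 + (m : ℝ) - (m : ℝ) / Y0 * Y) ≤ (Y0⁻¹) ^ m * (u⁻¹) ^ m :=
        mul_le_mul_of_nonneg_left h5 (by positivity)
    _ = (Y ^ m)⁻¹ := by
        rw [← mul_pow, ← inv_pow]
        congr 1
        rw [hu]
        field_simp

/-- Let `m = q + 2`, `N x = ‖P x - b‖`, `E₁ = ∫ N^(1/2) wy`, `T = (E₁/P0)²`. Hoelder:
`P0^(m+1) ≤ oh · (∫ hm X^(-1/m))^m` (`X = xm (w ∘ N) y > 0`; exponents `m+1`, `(m+1)/m`; compare
`TF5.lean`), `X^(-1/m) ≤ ∑_l w(N(y_l))^(-1/m)`, and by `WG.cmp` (with `w T ≤ ..`)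
`w(N)^(-1/m) ≤ w(T)^(-1/m) ((N/T)^((1-δ)/m) + (N/T)^(-1/2)) ≤
w(T)^(-1/m) (1 + (N/T)^(1/2) + (N/T)^(-1/2))`. By `marg_int`, `marg_int0` all `m` terms have the same
integral `≤ w(T)^(-1/m) (P0 + T^(-1/2) E₁ + T^(1/2) ∫ N^(-1/2) wy) ≤ w(T)^(-1/m) (2 + K) P0`
(`a2r` with `α = 1/2` for `wy`, `wy_lcd`, `pi_pl`; `h42r.cA_le`: `cA (1/2) ≤ 8 ≤ 4/δ ≤ K`). -/
theorem o_low {h : F → ℝ} (H : LCD h) {P : F →L[ℝ] G} (hP : P ≠ 0) {b : G} {ε : ℝ} (hε : 0 < ε)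
    (hN : ∀ x, ε ≤ ‖P x - b‖) {δ : ℝ} (hδ0 : 0 < δ) (hδ : δ ≤ 1 / 2) {w : ℝ → ℝ} (hw : WG q δ w)
    {K : ℝ} (hK : 4 / δ ≤ K) (y : F) (hy : 0 < P0 (q + 1) h y) :
    P0 (q + 1) h y *
        w (((∫ x, ‖P x - b‖ ^ (1 / 2 : ℝ) * wy q h y x) / P0 (q + 1) h y) ^ 2) ≤
      (((q : ℝ) + 2) * (2 + K)) ^ (q + 2) * oh (q + 1) h (fun x => w ‖P x - b‖) y := by
  obtain ⟨Hb, hHb⟩ := H.hb
  have Hw : LCD (wy q h y) := wy_lcd H (pi_pl q) y
  obtain ⟨iw, ew⟩ := wy_int (q := q) H.meas H.h0 hHb H.int y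
  have hcA : h42r.cA (1 / 2) ≤ K := by
    refine (cA_le (by norm_num) (by norm_num)).trans (le_trans ?_ hK)
    rw [div_le_div_iff₀ (by norm_num) hδ0]
    linarith
  obtain ⟨ineg, E1pos, hE⟩ := a2r Hw hP b (by norm_num : (0 : ℝ) ≤ 1 / 2) (by norm_num) hcA
    (by rw [ew]; exact hy)
  have ipos : Integrable fun x => ‖P x - b‖ ^ (1 / 2 : ℝ) * wy q h y x :=
    Hw.pow_int P b (by norm_num)
  rw [ew] at hE
  set Z := P0 (q + 1) h y with hZ
  set E1 := ∫ x, ‖P x - b‖ ^ (1 / 2 : ℝ) * wy q h y x with hE1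
  set E2 := ∫ x, ‖P x - b‖ ^ (-(1 / 2) : ℝ) * wy q h y x with hE2
  set τ := E1 / Z with hτ
  have hτ0 : 0 < τ := div_pos E1pos hy
  have hNpos : ∀ x, 0 < ‖P x - b‖ := fun x => hε.trans_le (hN x)
  have hm0 : q + 2 ≠ 0 := by omega
  set φ : F → ℝ := fun x => w ‖P x - b‖ ^ (-(1 / ((q + 2 : ℕ) : ℝ))) with hφ
  set φT : ℝ := w (τ ^ 2) ^ (-(1 / ((q + 2 : ℕ) : ℝ))) with hφT
  have hwT : 0 < w (τ ^ 2) := hw.pos _ (by positivity)
  have hφT0 : 0 < φT := Real.rpow_pos_of_pos hwT _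
  have hφTm : φT ^ (q + 2) = (w (τ ^ 2))⁻¹ := to3_root hm0 hwT
  have hφ0 : ∀ x, 0 < φ x := fun x => Real.rpow_pos_of_pos (hw.pos _ (hNpos x)) _
  have hφm : ∀ x, φ x ^ (q + 2) = (w ‖P x - b‖)⁻¹ := fun x => to3_root hm0 (hw.pos _ (hNpos x))
  have hNc : Continuous fun x => ‖P x - b‖ := (P.continuous.sub continuous_const).norm
  have hwc : Continuous fun x => w ‖P x - b‖ :=
    hw.cont.comp_continuous hNc fun x => hNpos x
  have hφc : Continuous φ := hwc.rpow_const fun x => Or.inl (hw.pos _ (hNpos x)).ne'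
  -- pointwise bound of `φ`
  have hφle : ∀ x, φ x ≤ φT * (1 + (‖P x - b‖ ^ (1 / 2 : ℝ) / τ +
      τ * ‖P x - b‖ ^ (-(1 / 2) : ℝ))) := by
    intro x
    have hn : 0 < ‖P x - b‖ ^ (1 / 2 : ℝ) := Real.rpow_pos_of_pos (hNpos x) _
    have h1 := to3_cmp hδ0 hδ hw hτ0 hn
    have e1 : (‖P x - b‖ ^ (1 / 2 : ℝ)) ^ 2 = ‖P x - b‖ := by
      rw [← Real.rpow_natCast, ← Real.rpow_mul (norm_nonneg _)]
      norm_num
    have e2 : τ / ‖P x - b‖ ^ (1 / 2 : ℝ) = τ * ‖P x - b‖ ^ (-(1 / 2) : ℝ) := by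
      rw [Real.rpow_neg (norm_nonneg _), div_eq_mul_inv]
    rw [e1, e2] at h1
    exact h1
  have hwy0 : ∀ x, 0 ≤ wy q h y x := Hw.h0
  have ibd : Integrable fun x => φT * (wy q h y x + (τ⁻¹ * (‖P x - b‖ ^ (1 / 2 : ℝ) *
      wy q h y x) + τ * (‖P x - b‖ ^ (-(1 / 2) : ℝ) * wy q h y x))) :=
    (iw.add ((ipos.const_mul _).add (ineg.const_mul _))).const_mul _
  have hbd : ∀ x, φ x * wy q h y x ≤ φT * (wy q h y x + (τ⁻¹ * (‖P x - b‖ ^ (1 / 2 : ℝ) *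
      wy q h y x) + τ * (‖P x - b‖ ^ (-(1 / 2) : ℝ) * wy q h y x))) := by
    intro x
    refine (mul_le_mul_of_nonneg_right (hφle x) (hwy0 x)).trans (le_of_eq ?_)
    rw [div_eq_mul_inv]
    ring
  have iφ : Integrable fun x => φ x * wy q h y x := by
    refine ibd.mono' (hφc.measurable.mul Hw.meas).aestronglyMeasurable
      (Eventually.of_forall fun x => ?_)
    rw [Real.norm_of_nonneg (mul_nonneg (hφ0 x).le (hwy0 x))]
    exact hbd x
  have hIφ : ∫ x, φ x * wy q h y x ≤ φT * ((2 + K) * Z) := by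
    refine (integral_mono iφ ibd hbd).trans ?_
    have e1 : ∫ x, φT * (wy q h y x + (τ⁻¹ * (‖P x - b‖ ^ (1 / 2 : ℝ) *
        wy q h y x) + τ * (‖P x - b‖ ^ (-(1 / 2) : ℝ) * wy q h y x))) =
        φT * (Z + (τ⁻¹ * E1 + τ * E2)) := by
      rw [integral_const_mul]
      congr 1
      have e2 : Integrable fun x => τ⁻¹ * (‖P x - b‖ ^ (1 / 2 : ℝ) * wy q h y x) +
          τ * (‖P x - b‖ ^ (-(1 / 2) : ℝ) * wy q h y x) :=
        (ipos.const_mul _).add (ineg.const_mul _)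
      rw [integral_add iw e2, integral_add (ipos.const_mul _) (ineg.const_mul _),
        integral_const_mul, integral_const_mul, ew]
    rw [e1]
    refine mul_le_mul_of_nonneg_left ?_ hφT0.le
    have e3 : τ⁻¹ * E1 = Z := by
      rw [hτ]
      field_simp
    have e4 : τ * E2 ≤ K * Z := by
      rw [hτ, div_mul_eq_mul_div, div_le_iff₀ hy]
      calc E1 * E2 ≤ K * Z ^ 2 := hE
        _ = K * Z * Z := by ring
    rw [e3]
    linarith
  -- the integral of `hm * Y`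
  obtain ⟨j0, f0⟩ := marg_int0 (q := q) H.meas H.h0 hHb H.int hφc.measurable
    (fun x => (hφ0 x).le) y iφ
  have hj := fun i : Fin (q + 1) => marg_int (q := q) H.meas H.h0 hHb H.int hφc.measurable
    (fun x => (hφ0 x).le) y iφ i
  set Iφ := ∫ x, φ x * wy q h y x with hIφd
  set Y : (Fin (q + 1) → F) → ℝ := fun s => φ (y - ∑ k, s k) + ∑ i, φ (s i) with hY
  have hYm : ∀ s : Fin (q + 1) → F, Y s * hm h y s =
      φ (y - ∑ k, s k) * hm h y s + ∑ i, φ (s i) * hm h y s := by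
    intro s
    rw [hY]
    simp only
    rw [add_mul, Finset.sum_mul]
  have iY : Integrable fun s : Fin (q + 1) → F => Y s * hm h y s := by
    simp only [hYm]
    exact j0.add (integrable_finsetSum _ fun i _ => (hj i).1)
  have eY : ∫ s : Fin (q + 1) → F, Y s * hm h y s = ((q : ℝ) + 2) * Iφ := by
    simp only [hYm]
    rw [integral_add j0 (integrable_finsetSum _ fun i _ => (hj i).1), f0,
      integral_finsetSum _ fun i _ => (hj i).1]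
    rw [Finset.sum_congr rfl fun i _ => (hj i).2, Finset.sum_const, Finset.card_univ,
      Fintype.card_fin, nsmul_eq_mul]
    push_cast
    ring
  -- integrability of `hm * xm`
  have iω : Integrable fun x => h x * w ‖P x - b‖ := by
    have hwε := hw.pos ε hε
    have i1 : Integrable fun x => w ε * (h x + (ε⁻¹) ^ (((q : ℝ) + 2) / 2) *
        (‖P x - b‖ ^ (((q : ℝ) + 2) / 2) * h x)) :=
      (H.int.add ((H.pow_int P b (by positivity)).const_mul _)).const_mul _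
    refine i1.mono' (H.meas.mul hwc.measurable).aestronglyMeasurable
      (Eventually.of_forall fun x => ?_)
    rw [Real.norm_of_nonneg (mul_nonneg (H.h0 x) (hw.pos _ (hNpos x)).le)]
    have h1 := hw.cmp ε ‖P x - b‖ hε (hNpos x)
    have h2 : (ε / ‖P x - b‖) ^ (1 - δ) ≤ 1 := by
      refine Real.rpow_le_one (by positivity) ?_ (by linarith)
      rw [div_le_one (hNpos x)]
      exact hN x
    have h3 : (‖P x - b‖ / ε) ^ (((q : ℝ) + 2) / 2) =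
        (ε⁻¹) ^ (((q : ℝ) + 2) / 2) * ‖P x - b‖ ^ (((q : ℝ) + 2) / 2) := by
      rw [div_eq_inv_mul, Real.mul_rpow (by positivity) (norm_nonneg _)]
    have h4 : w ‖P x - b‖ ≤ w ε * (1 + (ε⁻¹) ^ (((q : ℝ) + 2) / 2) *
        ‖P x - b‖ ^ (((q : ℝ) + 2) / 2)) := by
      refine h1.trans (mul_le_mul_of_nonneg_left ?_ hwε.le)
      rw [h3]
      linarith
    calc h x * w ‖P x - b‖ ≤ h x * (w ε * (1 + (ε⁻¹) ^ (((q : ℝ) + 2) / 2) *
        ‖P x - b‖ ^ (((q : ℝ) + 2) / 2))) := mul_le_mul_of_nonneg_left h4 (H.h0 x)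
      _ = _ := by ring
  have ihm : Integrable fun s : Fin (q + 1) → F => hm h y s :=
    hm_int H.meas H.h0 hHb H.int y
  have ihx : Integrable fun s : Fin (q + 1) → F => hm h y s * xm (fun x => w ‖P x - b‖) y s :=
    hmx_int H.meas H.h0 hHb H.int hwc.measurable (fun x => (hw.pos _ (hNpos x)).le)
      (fun x _ => hw.pos _ (hNpos x)) iω y
  -- the pointwise lower bound
  have hK0 : 0 < 2 + K := by
    have : 0 < 4 / δ := by positivity
    linarith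
  set Y0 : ℝ := ((q : ℝ) + 2) * (φT * (2 + K)) with hY0
  have hY00 : 0 < Y0 := by positivity
  have hYpos : ∀ s, 0 < Y s := fun s =>
    add_pos_of_pos_of_nonneg (hφ0 _) (Finset.sum_nonneg fun i _ => (hφ0 _).le)
  have hX : ∀ s : Fin (q + 1) → F,
      (Y0⁻¹) ^ (q + 2) * (1 + ((q + 2 : ℕ) : ℝ) - ((q + 2 : ℕ) : ℝ) / Y0 * Y s) ≤
        xm (fun x => w ‖P x - b‖) y s := by
    intro s
    refine (to3_tan (hYpos s) hY00).trans ?_
    unfold xm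
    have h1 : (w ‖P (y - ∑ i, s i) - b‖)⁻¹ + ∑ i, (w ‖P (s i) - b‖)⁻¹ ≤ Y s ^ (q + 2) := by
      rw [← hφm (y - ∑ i, s i)]
      have h2 : ∑ i, (w ‖P (s i) - b‖)⁻¹ = ∑ i, φ (s i) ^ (q + 2) :=
        Finset.sum_congr rfl fun i _ => (hφm (s i)).symm
      rw [h2]
      refine (add_le_add le_rfl (to3_sum hm0 _ fun i => (hφ0 _).le)).trans ?_
      exact pow_add_pow_le (hφ0 _).le (Finset.sum_nonneg fun i _ => (hφ0 _).le) hm0
    refine inv_anti₀ ?_ h1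
    exact add_pos_of_pos_of_nonneg (inv_pos.2 (hw.pos _ (hNpos _)))
      (Finset.sum_nonneg fun i _ => inv_nonneg.2 (hw.pos _ (hNpos _)).le)
  have hoh : (Y0⁻¹) ^ (q + 2) * ((1 + ((q : ℝ) + 2)) * Z - ((q : ℝ) + 2) / Y0 *
      (((q : ℝ) + 2) * Iφ)) ≤ oh (q + 1) h (fun x => w ‖P x - b‖) y := by
    have i2 : Integrable fun s : Fin (q + 1) → F =>
        (Y0⁻¹) ^ (q + 2) * ((1 + ((q : ℝ) + 2)) * hm h y s - ((q : ℝ) + 2) / Y0 *
          (Y s * hm h y s)) := ((ihm.const_mul _).sub (iY.const_mul _)).const_mul _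
    have e1 : ∫ s : Fin (q + 1) → F, (Y0⁻¹) ^ (q + 2) * ((1 + ((q : ℝ) + 2)) * hm h y s -
        ((q : ℝ) + 2) / Y0 * (Y s * hm h y s)) =
        (Y0⁻¹) ^ (q + 2) * ((1 + ((q : ℝ) + 2)) * Z - ((q : ℝ) + 2) / Y0 *
          (((q : ℝ) + 2) * Iφ)) := by
      rw [integral_const_mul, integral_sub (ihm.const_mul _) (iY.const_mul _),
        integral_const_mul, integral_const_mul, eY]
      rfl
    rw [← e1]
    refine integral_mono i2 ihx fun s => ?_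
    have h1 := mul_le_mul_of_nonneg_left (hX s) (hm_nonneg H.h0 y s)
    refine le_trans (le_of_eq ?_) h1
    push_cast
    ring
  have hq0 : (0 : ℝ) < (q : ℝ) + 2 := by positivity
  have h7 : (Y0⁻¹) ^ (q + 2) * Z ≤ oh (q + 1) h (fun x => w ‖P x - b‖) y := by
    refine le_trans (mul_le_mul_of_nonneg_left ?_ (by positivity)) hoh
    have h8 : ((q : ℝ) + 2) / Y0 * (((q : ℝ) + 2) * Iφ) ≤ ((q : ℝ) + 2) * Z := by
      calc ((q : ℝ) + 2) / Y0 * (((q : ℝ) + 2) * Iφ)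
          ≤ ((q : ℝ) + 2) / Y0 * (((q : ℝ) + 2) * (φT * ((2 + K) * Z))) := by gcongr
        _ = ((q : ℝ) + 2) * Z := by
          rw [hY0]
          field_simp
    linarith
  have h9 : (((q : ℝ) + 2) * (2 + K)) ^ (q + 2) * (Y0⁻¹) ^ (q + 2) = w (τ ^ 2) := by
    rw [← mul_pow]
    have e1 : ((q : ℝ) + 2) * (2 + K) * Y0⁻¹ = φT⁻¹ := by
      rw [hY0]
      field_simp
    rw [e1, inv_pow, hφTm, inv_inv]
  calc Z * w (τ ^ 2) = (((q : ℝ) + 2) * (2 + K)) ^ (q + 2) * ((Y0⁻¹) ^ (q + 2) * Z) := by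
        rw [← mul_assoc, h9, mul_comm]
    _ ≤ _ := mul_le_mul_of_nonneg_left h7 (by positivity)

end Pool.Agent.Lib.MP_8d00da_gt.h42t
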