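import Mathlib
import Pool.Agent.Lib.MP_8d00da_gt.h42t.TF7
import Pool.Agent.Lib.MP_8d00da_gt.h42t.TF4
import Pool.Agent.Lib.MP_8d00da_gt.h42t.TO2

/-!
# Two moments of the averages
-/

namespace Pool.Agent.Lib.MP_8d00da_gt.h42t

open MeasureTheory Set Filter
open Pool.Agent.Lib.MP_8d00da_gt.h25 Pool.Agent.Lib.MP_8d00da_gt.h42
open Pool.Agent.Lib.MP_8d00da_gt.h42s Pool.Agent.Lib.MP_8d00da_gt.h42o
open Pool.Agent.Lib.MP_8d00da_gt.h97r Pool.Agent.Lib.MP_8d00da_gt.h42r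
open scoped Topology NNReal ENNReal

set_option linter.unusedSectionVars false

variable {F : Type*} [NormedAddCommGroup F] [InnerProductSpace ℝ F]
    [FiniteDimensional ℝ F] [MeasurableSpace F] [BorelSpace F]

variable {G : Type*} [NormedAddCommGroup G] [InnerProductSpace ℝ G]
    [FiniteDimensional ℝ G] [MeasurableSpace G] [BorelSpace G]

variable {ι : Type*} [Fintype ι]

variable {q : ℕ}

private lemma to4_sl {h : F → ℝ} (H : LCD h) {f : F → ℝ} (hf : Integrable f) (y : F) :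
    Integrable fun x => f x * P0 q h (y - x) := by
  obtain ⟨Hb, hb⟩ := H.hb
  have gm : AEStronglyMeasurable (fun x => P0 q h (y - x)) (volume : Measure F) :=
    ((P0_meas H.meas).comp (measurable_const.sub measurable_id)).aestronglyMeasurable
  refine (hf.norm.mul_const (Hb * (∫ x, h x) ^ q)).mono' (hf.aestronglyMeasurable.mul gm)
    (Eventually.of_forall fun x => ?_)
  rw [norm_mul, Real.norm_of_nonneg (P0_nonneg H.h0 _)]
  exact mul_le_mul_of_nonneg_left (P0_le H.meas H.h0 hb H.int _) (norm_nonneg _)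

private lemma to4_conv {h : F → ℝ} (H : LCD h) {f : F → ℝ} (hf : Integrable f) :
    (Integrable fun y => ∫ x, f x * P0 q h (y - x)) ∧
      ∫ y, ∫ x, f x * P0 q h (y - x) = (∫ x, f x) * (∫ x, h x) ^ (q + 1) := by
  obtain ⟨Hb, hb⟩ := H.hb
  have g1 := P0_int (q := q) H.meas H.h0 hb H.int
  have h1 := MeasureTheory.Integrable.integrable_convolution (ContinuousLinearMap.mul ℝ ℝ) hf g1.1
  have h2 := MeasureTheory.integral_convolution (ContinuousLinearMap.mul ℝ ℝ) hf g1.1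
  refine ⟨h1, ?_⟩
  rw [← g1.2]
  exact h2

private lemma to4_eW (h : F → ℝ) (P : F →L[ℝ] G) (b : G) (t : ℝ) (y x : F) :
    ‖P x - b‖ ^ t * wy q h y x = (‖P x - b‖ ^ t * h x) * P0 q h (y - x) := by
  unfold wy
  ring

private lemma to4_W {h : F → ℝ} (H : LCD h) (P : F →L[ℝ] G) (b : G) {t : ℝ} (ht : 0 ≤ t) :
    (Integrable fun y => ∫ x, ‖P x - b‖ ^ t * wy q h y x) ∧
      ∫ y, ∫ x, ‖P x - b‖ ^ t * wy q h y x =
        (∫ x, ‖P x - b‖ ^ t * h x) * (∫ x, h x) ^ (q + 1) := by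
  simp only [to4_eW]
  exact to4_conv H (H.pow_int P b ht)

private lemma to4_cs {h : F → ℝ} (H : LCD h) (P : F →L[ℝ] G) (b : G) {t : ℝ} (ht : 0 ≤ t) (y : F) :
    (∫ x, ‖P x - b‖ ^ t * wy q h y x) ^ 2 ≤
      (∫ x, ‖P x - b‖ ^ (t * 2) * wy q h y x) * P0 (q + 1) h y := by
  obtain ⟨Hb, hb⟩ := H.hb
  have wy0 : ∀ x, 0 ≤ wy q h y x := fun x => mul_nonneg (H.h0 x) (P0_nonneg H.h0 _)
  obtain ⟨wi, we⟩ := wy_int (q := q) H.meas H.h0 hb H.int y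
  have s1 : ∀ x, (‖P x - b‖ ^ t * √(wy q h y x)) ^ 2 =
      ‖P x - b‖ ^ (t * 2) * wy q h y x := fun x => by
    rw [mul_pow, Real.sq_sqrt (wy0 x)]
    congr 1
    have := Real.rpow_mul_natCast (norm_nonneg (P x - b)) t 2
    rw [← this]
    norm_num
  have s2 : ∀ x, √(wy q h y x) ^ 2 = wy q h y x := fun x => Real.sq_sqrt (wy0 x)
  have s3 : ∀ x, ‖P x - b‖ ^ t * √(wy q h y x) * √(wy q h y x) =
      ‖P x - b‖ ^ t * wy q h y x := fun x => by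
    rw [mul_assoc, Real.mul_self_sqrt (wy0 x)]
  have hcs := cs_int (μ := (volume : Measure F))
    (a := fun x => ‖P x - b‖ ^ t * √(wy q h y x)) (b := fun x => √(wy q h y x))
    (by simp only [s1]; simp only [to4_eW]; exact to4_sl H (H.pow_int P b (by positivity)) y)
    (by simp only [s2]; exact wi)
    (by simp only [s3]; simp only [to4_eW]; exact to4_sl H (H.pow_int P b ht) y)
  simp only [s1, s2, s3] at hcs
  rw [we] at hcs
  exact hcs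

private lemma to4_arith {q : ℕ} {I0 I1 U2 V2 a2 n2 a n1 Z κ : ℝ} (hZ : 0 < Z)
    (hI0 : 0 ≤ I0) (hV : 0 ≤ V2) (h1 : I0 ^ 2 ≤ U2 * V2)
    (h2 : U2 ≤ a2 * Z ^ (q + 1)) (h3 : V2 ≤ n2 * Z ^ (q + 1)) (h4 : Z * a2 ≤ 2 * a ^ 2)
    (h5 : n2 * Z ^ (4 - 1) ≤ κ * n1 ^ 4) (h8 : I1 ≤ I0)
    (hn1 : 0 ≤ n1) (hn2 : 0 ≤ n2) (ha2 : 0 ≤ a2) (ha : 0 ≤ a) (hκ : 0 ≤ κ) :
    I1 ≤ √(2 * κ) * (a * Z ^ (q + 1)) * (n1 / Z) ^ 2 := by
  have hI : I0 ≤ √(2 * κ) * (a * Z ^ (q + 1)) * (n1 / Z) ^ 2 := by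
    have e1 : I0 ^ 2 ≤ (√(2 * κ) * (a * Z ^ (q + 1)) * (n1 / Z) ^ 2) ^ 2 := by
      have e2 : (√(2 * κ) * (a * Z ^ (q + 1)) * (n1 / Z) ^ 2) ^ 2 =
          (2 * a ^ 2) * (κ * n1 ^ 4) * (Z ^ (q + 1)) ^ 2 / Z ^ 4 := by
        rw [mul_pow, mul_pow, Real.sq_sqrt (by positivity)]
        field_simp
      rw [e2, le_div_iff₀ (by positivity)]
      calc I0 ^ 2 * Z ^ 4 ≤ U2 * V2 * Z ^ 4 := mul_le_mul_of_nonneg_right h1 (by positivity)
        _ ≤ (a2 * Z ^ (q + 1)) * (n2 * Z ^ (q + 1)) * Z ^ 4 :=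
          mul_le_mul_of_nonneg_right (mul_le_mul h2 h3 hV (by positivity)) (by positivity)
        _ = (Z * a2) * (n2 * Z ^ (4 - 1)) * (Z ^ (q + 1)) ^ 2 := by
          norm_num
          ring
        _ ≤ (2 * a ^ 2) * (κ * n1 ^ 4) * (Z ^ (q + 1)) ^ 2 :=
          mul_le_mul_of_nonneg_right (mul_le_mul h4 h5 (by positivity) (by positivity))
            (by positivity)
    exact (pow_le_pow_iff_left₀ hI0 (by positivity) two_ne_zero).1 e1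
  exact h8.trans hI

/-- `P2 (∫ N^(1/2) wy/P0)² ≤ (P2/√P0) (∫ N wy/√P0)` (Cauchy-Schwarz: `(∫ N^(1/2) wy)² ≤ P0 ∫ N wy`,
`wy_int`), Cauchy-Schwarz over `y`, `P2_sq_int` and the same for `N`
(`(∫ N wy)² ≤ P0 ∫ N² wy`, `∫_y ∫_x N² wy = ∫ N² h (∫ h)^(q+1)`; compare `TF9.lean`), `l2_conc`,
`kah` (`s = 1/2`, `k = 4`): `∫ N² h (∫ h)³ ≤ cK 4 (∫ N^(1/2) h)⁴`. (`x / 0 = 0`.) -/
theorem o_m1 {h A : F → ℝ} (H : LCD h) (hA : Measurable A) (A0 : ∀ x, 0 ≤ A x) {Ab : ℝ}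
    (hAb : ∀ x, A x ≤ Ab) (Apos : ∀ x, 0 < h x → 0 < A x) (hAC : ACon h A)
    (hpos : 0 < ∫ x, h x) {P : F →L[ℝ] G} (b : G) :
    (Integrable fun y => P2 (q + 1) h A y *
      ((∫ x, ‖P x - b‖ ^ (1 / 2 : ℝ) * wy q h y x) / P0 (q + 1) h y) ^ 2) ∧
    ∫ y, P2 (q + 1) h A y *
      ((∫ x, ‖P x - b‖ ^ (1 / 2 : ℝ) * wy q h y x) / P0 (q + 1) h y) ^ 2 ≤
      √(2 * cK 4) * ((∫ x, A x * h x) * (∫ x, h x) ^ (q + 1)) *
        ((∫ x, ‖P x - b‖ ^ (1 / 2 : ℝ) * h x) / ∫ x, h x) ^ 2 := by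
  obtain ⟨Hb, hb⟩ := H.hb
  have hh := H.meas
  have h0 := H.h0
  have hi := H.int
  obtain ⟨W, hW⟩ : ∃ W : F → ℝ, W = fun y => ∫ x, ‖P x - b‖ ^ (1 / 2 : ℝ) * wy q h y x :=
    ⟨_, rfl⟩
  obtain ⟨W1, hW1⟩ : ∃ W1 : F → ℝ, W1 = fun y => ∫ x, ‖P x - b‖ ^ (1 : ℝ) * wy q h y x :=
    ⟨_, rfl⟩
  obtain ⟨V, hV⟩ : ∃ V : F → ℝ, V = fun y => ∫ x, ‖P x - b‖ ^ (2 : ℝ) * wy q h y x :=
    ⟨_, rfl⟩
  have Wi : Integrable W := by
    rw [hW]
    exact (to4_W H P b (by norm_num)).1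
  have W1i : Integrable W1 := by
    rw [hW1]
    exact (to4_W H P b (by norm_num)).1
  have Vi : Integrable V := by
    rw [hV]
    exact (to4_W H P b (by norm_num)).1
  have Ve : ∫ y, V y = (∫ x, ‖P x - b‖ ^ (2 : ℝ) * h x) * (∫ x, h x) ^ (q + 1) := by
    rw [hV]
    exact (to4_W H P b (by norm_num)).2
  have wy0 : ∀ y x, 0 ≤ wy q h y x := fun y x => mul_nonneg (h0 x) (P0_nonneg h0 _)
  have W0 : ∀ y, 0 ≤ W y := fun y => by
    rw [hW]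
    exact integral_nonneg fun x => mul_nonneg (Real.rpow_nonneg (norm_nonneg _) _) (wy0 y x)
  have W10 : ∀ y, 0 ≤ W1 y := fun y => by
    rw [hW1]
    exact integral_nonneg fun x => mul_nonneg (Real.rpow_nonneg (norm_nonneg _) _) (wy0 y x)
  have V0 : ∀ y, 0 ≤ V y := fun y => by
    rw [hV]
    exact integral_nonneg fun x => mul_nonneg (Real.rpow_nonneg (norm_nonneg _) _) (wy0 y x)
  have P00 : ∀ y, 0 ≤ P0 (q + 1) h y := fun y => P0_nonneg h0 y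
  have P20 : ∀ y, 0 ≤ P2 (q + 1) h A y := fun y => P2_nonneg h0 A0 y
  have c1 : ∀ y, W y ^ 2 ≤ W1 y * P0 (q + 1) h y := by
    intro y
    have := to4_cs (q := q) H P b (t := 1 / 2) (by norm_num) y
    rw [show (1 / 2 : ℝ) * 2 = 1 by norm_num] at this
    rw [hW, hW1]
    exact this
  have c2 : ∀ y, W1 y ^ 2 ≤ V y * P0 (q + 1) h y := by
    intro y
    have := to4_cs (q := q) H P b (t := 1) (by norm_num) y
    rw [show (1 : ℝ) * 2 = 2 by norm_num] at this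
    rw [hW1, hV]
    exact this
  have hWV2 : ∀ y, W1 y ^ 2 / P0 (q + 1) h y ≤ V y := by
    intro y
    rcases eq_or_lt_of_le (P00 y) with h1 | h1
    · rw [← h1, div_zero]
      exact V0 y
    · rw [div_le_iff₀ h1]
      exact c2 y
  -- Cauchy-Schwarz over `y`
  obtain ⟨p2i, p2e⟩ := P2_sq_int (q := q) hh h0 hb hi hA A0 hAb
  have P0m : Measurable (P0 (q + 1) h) := P0_meas hh
  have P2m : Measurable (P2 (q + 1) h A) := P2_meas hh hA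
  have v2i : Integrable fun y => W1 y ^ 2 / P0 (q + 1) h y := by
    refine Vi.mono' ((W1i.aestronglyMeasurable.pow 2).div₀ P0m.aestronglyMeasurable)
      (Eventually.of_forall fun y => ?_)
    rw [Real.norm_of_nonneg (div_nonneg (sq_nonneg _) (P00 y))]
    exact hWV2 y
  have r1 : ∀ y, (P2 (q + 1) h A y / √(P0 (q + 1) h y)) ^ 2 =
      P2 (q + 1) h A y ^ 2 / P0 (q + 1) h y := fun y => by
    rw [div_pow, Real.sq_sqrt (P00 y)]
  have r2 : ∀ y, (W1 y / √(P0 (q + 1) h y)) ^ 2 = W1 y ^ 2 / P0 (q + 1) h y := fun y => by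
    rw [div_pow, Real.sq_sqrt (P00 y)]
  have r3 : ∀ y, P2 (q + 1) h A y / √(P0 (q + 1) h y) * (W1 y / √(P0 (q + 1) h y)) =
      P2 (q + 1) h A y * W1 y / P0 (q + 1) h y := fun y => by
    rw [div_mul_div_comm, Real.mul_self_sqrt (P00 y)]
  have uvi : Integrable fun y => P2 (q + 1) h A y * W1 y / P0 (q + 1) h y := by
    refine (p2i.add v2i).mono' ((P2m.aestronglyMeasurable.mul W1i.aestronglyMeasurable).div₀
      P0m.aestronglyMeasurable) (Eventually.of_forall fun y => ?_)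
    rw [Real.norm_of_nonneg (div_nonneg (mul_nonneg (P20 y) (W10 y)) (P00 y)), ← r3]
    show _ ≤ P2 (q + 1) h A y ^ 2 / P0 (q + 1) h y + W1 y ^ 2 / P0 (q + 1) h y
    rw [← r1, ← r2]
    nlinarith [sq_nonneg (P2 (q + 1) h A y / √(P0 (q + 1) h y) - W1 y / √(P0 (q + 1) h y)),
      sq_nonneg (P2 (q + 1) h A y / √(P0 (q + 1) h y)), sq_nonneg (W1 y / √(P0 (q + 1) h y))]
  have hcs2 := cs_int (μ := (volume : Measure F))
    (a := fun y => P2 (q + 1) h A y / √(P0 (q + 1) h y)) (b := fun y => W1 y / √(P0 (q + 1) h y))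
    (by simp only [r1]; exact p2i) (by simp only [r2]; exact v2i) (by simp only [r3]; exact uvi)
  simp only [r1, r2, r3] at hcs2
  have hV2 : ∫ y, W1 y ^ 2 / P0 (q + 1) h y ≤
      (∫ x, ‖P x - b‖ ^ (2 : ℝ) * h x) * (∫ x, h x) ^ (q + 1) := by
    rw [← Ve]
    exact integral_mono v2i Vi hWV2
  have key : ∀ y, P2 (q + 1) h A y * (W y / P0 (q + 1) h y) ^ 2 ≤
      P2 (q + 1) h A y * W1 y / P0 (q + 1) h y := by
    intro y
    rcases eq_or_lt_of_le (P00 y) with h1 | h1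
    · rw [← h1]
      simp
    · rw [mul_div_assoc]
      refine mul_le_mul_of_nonneg_left ?_ (P20 y)
      rw [div_pow, div_le_div_iff₀ (by positivity) h1]
      calc W y ^ 2 * P0 (q + 1) h y ≤ W1 y * P0 (q + 1) h y * P0 (q + 1) h y :=
            mul_le_mul_of_nonneg_right (c1 y) h1.le
        _ = W1 y * P0 (q + 1) h y ^ 2 := by ring
  have Gi : Integrable fun y => P2 (q + 1) h A y * (W y / P0 (q + 1) h y) ^ 2 := by
    refine uvi.mono' (P2m.aestronglyMeasurable.mul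
      ((Wi.aestronglyMeasurable.div₀ P0m.aestronglyMeasurable).pow 2))
      (Eventually.of_forall fun y => ?_)
    rw [Real.norm_of_nonneg (mul_nonneg (P20 y) (sq_nonneg _))]
    exact key y
  have eWW : (fun y => P2 (q + 1) h A y *
      ((∫ x, ‖P x - b‖ ^ (1 / 2 : ℝ) * wy q h y x) / P0 (q + 1) h y) ^ 2) =
      fun y => P2 (q + 1) h A y * (W y / P0 (q + 1) h y) ^ 2 := by
    rw [hW]
  rw [eWW]
  refine ⟨Gi, ?_⟩
  have hG := integral_mono Gi uvi key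
  have hL2 := l2_conc H hA A0 hAb Apos hAC
  have hK4 := kah H P b (s := 1 / 2) (by norm_num) (by norm_num) (k := 4) (by norm_num)
  rw [show (((4 : ℕ) : ℝ) * (1 / 2 : ℝ)) = 2 by norm_num] at hK4
  have hI0 : 0 ≤ ∫ y, P2 (q + 1) h A y * W1 y / P0 (q + 1) h y :=
    integral_nonneg fun y => div_nonneg (mul_nonneg (P20 y) (W10 y)) (P00 y)
  have hn1 : 0 ≤ ∫ x, ‖P x - b‖ ^ (1 / 2 : ℝ) * h x :=
    integral_nonneg fun x => mul_nonneg (Real.rpow_nonneg (norm_nonneg _) _) (h0 x)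
  have hn2 : 0 ≤ ∫ x, ‖P x - b‖ ^ (2 : ℝ) * h x :=
    integral_nonneg fun x => mul_nonneg (Real.rpow_nonneg (norm_nonneg _) _) (h0 x)
  have ha20 : 0 ≤ ∫ x, A x ^ 2 * h x := integral_nonneg fun x => mul_nonneg (sq_nonneg _) (h0 x)
  have ha0 : 0 ≤ ∫ x, A x * h x := integral_nonneg fun x => mul_nonneg (A0 x) (h0 x)
  have hcK : 0 ≤ cK 4 := by
    unfold cK
    positivity
  have hV20 : 0 ≤ ∫ y, W1 y ^ 2 / P0 (q + 1) h y :=
    integral_nonneg fun y => div_nonneg (sq_nonneg _) (P00 y)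
  exact to4_arith hpos hI0 hV20 hcs2 p2e hV2 hL2 hK4 hG hn1 hn2 ha20 ha0 hcK

/-- Integrate `c3_half` (`prod_cm` with `φ = N^(-1/2) ≤ ε^(-1/2)`), `a2r` for `h A` and for `h`
(`α = 1/2`), `rcmp`: `∫ N^(-1/2) h ≤ K Z²/E`, `∫ A N^(-1/2) h ≤ K (∫ A h)²/∫ A N^(1/2) h ≤
2 K² (∫ A h) Z/E`, `E = ∫ N^(1/2) h`, `Z = ∫ h`. -/
theorem o_m2 {h A : F → ℝ} (H : LCD h) (hA : Measurable A) (A0 : ∀ x, 0 ≤ A x) {Ab : ℝ}
    (hAb : ∀ x, A x ≤ Ab) (Apos : ∀ x, 0 < h x → 0 < A x) (hAC : ACon h A)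
    (hpos : 0 < ∫ x, h x) {P : F →L[ℝ] G} (hP : P ≠ 0) {b : G} {ε : ℝ} (hε : 0 < ε)
    (hN : ∀ x, ε ≤ ‖P x - b‖) {K : ℝ} (hK : cA (1 / 2) ≤ K) :
    (Integrable fun y => P2 (q + 1) h A y *
      (P0 (q + 1) h y / ∫ x, ‖P x - b‖ ^ (1 / 2 : ℝ) * wy q h y x) ^ (q + 2)) ∧
    (∫ y, P2 (q + 1) h A y *
      (P0 (q + 1) h y / ∫ x, ‖P x - b‖ ^ (1 / 2 : ℝ) * wy q h y x) ^ (q + 2)) *
        ((∫ x, ‖P x - b‖ ^ (1 / 2 : ℝ) * h x) / ∫ x, h x) ^ (q + 2) ≤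
      2 * √(2 * cK 2) ^ (q + 2) * K ^ (q + 3) * ((∫ x, A x * h x) * (∫ x, h x) ^ (q + 1)) := by
  obtain ⟨Hb, hb⟩ := H.hb
  have K0 : 0 ≤ K := by
    refine le_trans ?_ hK
    unfold h42r.cA
    exact div_nonneg (mul_nonneg (Real.rpow_nonneg (by norm_num) _) (by norm_num)) (by norm_num)
  have hφm : Measurable fun x : F => ‖P x - b‖ ^ (-(1 / 2) : ℝ) := by fun_prop
  have hφB : ∀ x : F, ‖P x - b‖ ^ (-(1 / 2) : ℝ) ≤ ε ^ (-(1 / 2) : ℝ) := fun x =>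
    Real.rpow_le_rpow_of_nonpos hε (hN x) (by norm_num)
  obtain ⟨pi1, pe1⟩ := prod_cm (q := q + 1) H.meas H.h0 hb H.int hA A0 hAb hφm
    (fun x => Real.rpow_nonneg (norm_nonneg _) _) hφB
  have hc3 := fun y => c3_half (q := q) H hA A0 hAb Apos hAC hP hε hN y
  have hWi := (to4_W (q := q) H P b (t := 1 / 2) (by norm_num)).1
  have wy0 : ∀ y x, 0 ≤ wy q h y x := fun y x => mul_nonneg (H.h0 x) (P0_nonneg H.h0 _)
  have J0 : ∀ y, 0 ≤ P2 (q + 1) h A y *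
      (P0 (q + 1) h y / ∫ x, ‖P x - b‖ ^ (1 / 2 : ℝ) * wy q h y x) ^ (q + 2) := fun y =>
    mul_nonneg (P2_nonneg H.h0 A0 y) (pow_nonneg (div_nonneg (P0_nonneg H.h0 y)
      (integral_nonneg fun x => mul_nonneg (Real.rpow_nonneg (norm_nonneg _) _) (wy0 y x))) _)
  have hJi : Integrable fun y => P2 (q + 1) h A y *
      (P0 (q + 1) h y / ∫ x, ‖P x - b‖ ^ (1 / 2 : ℝ) * wy q h y x) ^ (q + 2) := by
    refine (pi1.const_mul (√(2 * cK 2) ^ (q + 2))).mono'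
      ((P2_meas H.meas hA).aestronglyMeasurable.mul
        (((P0_meas H.meas).aestronglyMeasurable.div₀ hWi.aestronglyMeasurable).pow (q + 2)))
      (Eventually.of_forall fun y => ?_)
    rw [Real.norm_of_nonneg (J0 y)]
    exact hc3 y
  refine ⟨hJi, ?_⟩
  have hJ := integral_mono hJi (pi1.const_mul (√(2 * cK 2) ^ (q + 2))) hc3
  rw [integral_const_mul, pe1] at hJ
  -- the weight `h A`
  have H' := H.mul hA A0 hAb hAC
  have ihA : Integrable fun x => h x * A x := H'.int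
  have hApos : 0 < ∫ x, h x * A x := by
    refine lt_of_le_of_ne (integral_nonneg H'.h0) fun h0 => hpos.ne' ?_
    have h1 := (integral_eq_zero_iff_of_nonneg H'.h0 ihA).1 h0.symm
    have h2 : h =ᵐ[volume] 0 := by
      filter_upwards [h1] with x hx
      by_contra hne
      have hx0 : 0 < h x := lt_of_le_of_ne (H.h0 x) (Ne.symm hne)
      have h3 : h x * A x = 0 := hx
      exact (mul_pos hx0 (Apos x hx0)).ne' h3
    rw [integral_congr_ae h2]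
    simp
  obtain ⟨_, D0, ha⟩ := a2r H' hP b (α := 1 / 2) (by norm_num) (by norm_num) hK hApos
  obtain ⟨_, T0, hb'⟩ := a2r H hP b (α := 1 / 2) (by norm_num) (by norm_num) hK hpos
  have hr := rcmp H hA A0 hAb Apos hAC hP b (ρ := 1 / 2) (by norm_num) (by norm_num) hK hpos
  have X0 : 0 ≤ ∫ x, A x * ‖P x - b‖ ^ (-(1 / 2) : ℝ) * h x := integral_nonneg fun x =>
    mul_nonneg (mul_nonneg (A0 x) (Real.rpow_nonneg (norm_nonneg _) _)) (H.h0 x)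
  have Y0 : 0 ≤ ∫ x, ‖P x - b‖ ^ (-(1 / 2) : ℝ) * h x := integral_nonneg fun x =>
    mul_nonneg (Real.rpow_nonneg (norm_nonneg _) _) (H.h0 x)
  have eX : ∫ x, ‖P x - b‖ ^ (-(1 / 2) : ℝ) * (h x * A x) =
      ∫ x, A x * ‖P x - b‖ ^ (-(1 / 2) : ℝ) * h x :=
    integral_congr_ae (Eventually.of_forall fun x => by ring)
  have eM : ∫ x, h x * A x = ∫ x, A x * h x :=
    integral_congr_ae (Eventually.of_forall fun x => by ring)
  have eD : ∫ x, A x * ‖P x - b‖ ^ (1 / 2 : ℝ) * h x =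
      ∫ x, ‖P x - b‖ ^ (1 / 2 : ℝ) * (h x * A x) :=
    integral_congr_ae (Eventually.of_forall fun x => by ring)
  rw [eX, eM] at ha
  rw [eM] at hApos
  rw [eD] at hr
  obtain ⟨S, hS⟩ : ∃ S : ℝ, S = √(2 * cK 2) := ⟨_, rfl⟩
  obtain ⟨J, hJ'⟩ : ∃ J : ℝ, J = ∫ y, P2 (q + 1) h A y *
      (P0 (q + 1) h y / ∫ x, ‖P x - b‖ ^ (1 / 2 : ℝ) * wy q h y x) ^ (q + 2) := ⟨_, rfl⟩
  obtain ⟨Z, hZ⟩ : ∃ Z : ℝ, Z = ∫ x, h x := ⟨_, rfl⟩
  obtain ⟨M, hM⟩ : ∃ M : ℝ, M = ∫ x, A x * h x := ⟨_, rfl⟩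
  obtain ⟨T, hT⟩ : ∃ T : ℝ, T = ∫ x, ‖P x - b‖ ^ (1 / 2 : ℝ) * h x := ⟨_, rfl⟩
  obtain ⟨D, hD⟩ : ∃ D : ℝ, D = ∫ x, ‖P x - b‖ ^ (1 / 2 : ℝ) * (h x * A x) := ⟨_, rfl⟩
  obtain ⟨X, hX⟩ : ∃ X : ℝ, X = ∫ x, A x * ‖P x - b‖ ^ (-(1 / 2) : ℝ) * h x := ⟨_, rfl⟩
  obtain ⟨Y, hY⟩ : ∃ Y : ℝ, Y = ∫ x, ‖P x - b‖ ^ (-(1 / 2) : ℝ) * h x := ⟨_, rfl⟩
  have S0 : 0 ≤ S := by rw [hS]; positivity
  rw [← hX, ← hY, ← hJ', ← hS] at hJ
  rw [← hD, ← hX, ← hM] at ha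
  rw [← hT, ← hY, ← hZ] at hb'
  rw [← hZ, ← hD, ← hM, ← hT] at hr
  rw [← hX] at X0
  rw [← hY] at Y0
  rw [← hD] at D0
  rw [← hT] at T0
  rw [← hM] at hApos
  rw [← hZ] at hpos
  rw [← hJ', ← hM, ← hZ, ← hS, ← hT]
  have g1 : T * X ≤ 2 * K ^ 2 * Z * M := by
    have g2 : M * (T * X) ≤ M * (2 * K ^ 2 * Z * M) := by
      calc M * (T * X) = (M * T) * X := by ring
        _ ≤ (2 * K * Z * D) * X := mul_le_mul_of_nonneg_right hr X0
        _ = 2 * K * Z * (D * X) := by ring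
        _ ≤ 2 * K * Z * (K * M ^ 2) := mul_le_mul_of_nonneg_left ha (by positivity)
        _ = _ := by ring
    exact le_of_mul_le_mul_left g2 hApos
  have g3 : (T * Y) ^ (q + 1) ≤ (K * Z ^ 2) ^ (q + 1) := pow_le_pow_left₀ (by positivity) hb' _
  rw [div_pow, mul_div_assoc', div_le_iff₀ (by positivity)]
  calc J * T ^ (q + 2) ≤ (S ^ (q + 2) * (X * Y ^ (q + 1))) * T ^ (q + 2) :=
        mul_le_mul_of_nonneg_right hJ (by positivity)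
    _ = S ^ (q + 2) * ((T * X) * (T * Y) ^ (q + 1)) := by ring
    _ ≤ S ^ (q + 2) * ((2 * K ^ 2 * Z * M) * (K * Z ^ 2) ^ (q + 1)) := by
        refine mul_le_mul_of_nonneg_left ?_ (by positivity)
        exact mul_le_mul g1 g3 (by positivity) (by positivity)
    _ = _ := by ring

end Pool.Agent.Lib.MP_8d00da_gt.h42t
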