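import Mathlib
import Pool.Agent.Lib.MP_8d00da_gt.h42t.TO3
import Pool.Agent.Lib.MP_8d00da_gt.h42t.TO4

/-!
# The dual weight
-/

namespace Pool.Agent.Lib.MP_8d00da_gt.h42t

open MeasureTheory Set Filter
open Pool.Agent.Lib.MP_8d00da_gt.h25 Pool.Agent.Lib.MP_8d00da_gt.h42
open Pool.Agent.Lib.MP_8d00da_gt.h42s Pool.Agent.Lib.MP_8d00da_gt.h42o
open Pool.Agent.Lib.MP_8d00da_gt.h97r Pool.Agent.Lib.MP_8d00da_gt.h42r
open scoped Topology NNReal ENNReal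

set_option linter.unusedSectionVars false

variable {F : Type*} [NormedAddCommGroup F] [InnerProductSpace ℝ F]
    [FiniteDimensional ℝ F] [MeasurableSpace F] [BorelSpace F]

variable {G : Type*} [NormedAddCommGroup G] [InnerProductSpace ℝ G]
    [FiniteDimensional ℝ G] [MeasurableSpace G] [BorelSpace G]

variable {ι : Type*} [Fintype ι]

variable {q : ℕ}

noncomputable def cJ (q : ℕ) (K : ℝ) : ℝ :=
  (((q : ℝ) + 2) * (2 + K)) ^ (q + 2) *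
    (1 + √(2 * cK 4) + 2 * √(2 * cK 2) ^ (q + 2) * K ^ (q + 3))

/-- `E₁ = ∫ N^(1/2) wy`, `T_y = (E₁/P0)²`, `S = (∫ N^(1/2) h)/∫ h`, `T₀ = S²`. Where `P0 > 0`, by
`o_low` and `WG.cmp` (`w T₀ ≤ w T_y ((T_y/T₀)^(1-δ) + (T₀/T_y)^(m/2))`, `m = q + 2`)
`w T₀ P0 P2/oh ≤ C₁ P2 w T₀/w T_y ≤ C₁ (P2 + P2 T_y/T₀ + P2 (P0/E₁)^m S^m)`,
`C₁ = (m (2 + K))^m`. Integrate: `∫ P2 = (∫ A h) Z^(q+1)` (`P2_marg`, `P0_int`), `o_m1`,
`o_m2`. -/
theorem o_J {h A : F → ℝ} (H : LCD h) (hA : Measurable A) (A0 : ∀ x, 0 ≤ A x) {Ab : ℝ}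
    (hAb : ∀ x, A x ≤ Ab) (Apos : ∀ x, 0 < h x → 0 < A x) (hAC : ACon h A)
    (hpos : 0 < ∫ x, h x) {P : F →L[ℝ] G} (hP : P ≠ 0) {b : G} {ε : ℝ} (hε : 0 < ε)
    (hN : ∀ x, ε ≤ ‖P x - b‖) {δ : ℝ} (hδ0 : 0 < δ) (hδ : δ ≤ 1 / 2) {w : ℝ → ℝ} (hw : WG q δ w)
    {K : ℝ} (hK : 4 / δ ≤ K) :
    (Integrable fun y => P0 (q + 1) h y * P2 (q + 1) h A y /
      oh (q + 1) h (fun x => w ‖P x - b‖) y) ∧
    w (((∫ x, ‖P x - b‖ ^ (1 / 2 : ℝ) * h x) / ∫ x, h x) ^ 2) *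
      (∫ y, P0 (q + 1) h y * P2 (q + 1) h A y / oh (q + 1) h (fun x => w ‖P x - b‖) y) ≤
      cJ q K * ((∫ x, A x * h x) * (∫ x, h x) ^ (q + 1)) := by
  have hKh : h42r.cA (1 / 2) ≤ K := by
    refine (cA_le (by norm_num) (by norm_num)).trans (le_trans ?_ hK)
    rw [div_le_div_iff₀ (by norm_num) hδ0]
    nlinarith
  have K0 : 0 < K := lt_of_lt_of_le (by positivity) hK
  obtain ⟨-, E0, -⟩ := a2r H hP b (by norm_num : (0 : ℝ) ≤ 1 / 2) (by norm_num) hKh hpos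
  obtain ⟨Hb, hHb⟩ := H.hb
  obtain ⟨i1, h1⟩ := o_m1 (q := q) H hA A0 hAb Apos hAC hpos (P := P) b
  obtain ⟨i2, h2⟩ := o_m2 (q := q) H hA A0 hAb Apos hAC hpos hP hε hN hKh
  have hP2 := prod_cm (q := q + 1) (A := A) (φ := fun _ => 1) (B := 1)
    H.meas H.h0 hHb H.int hA A0 hAb measurable_const (fun _ => zero_le_one) (fun _ => le_rfl)
  simp only [mul_one, one_mul, Finset.prod_const_one] at hP2
  have i0 : Integrable (P2 (q + 1) h A) := hP2.1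
  have h0 : ∫ y, P2 (q + 1) h A y = (∫ x, A x * h x) * (∫ x, h x) ^ (q + 1) := hP2.2
  have hwc : Continuous fun x : F => w ‖P x - b‖ :=
    hw.cont.comp_continuous (by fun_prop) fun x => hε.trans_le (hN x)
  have hw0 : ∀ x : F, 0 ≤ w ‖P x - b‖ := fun x => (hw.pos _ (hε.trans_le (hN x))).le
  obtain ⟨Z, hZ⟩ : ∃ Z : ℝ, Z = ∫ x, h x := ⟨_, rfl⟩
  obtain ⟨E, hEE⟩ : ∃ E : ℝ, E = ∫ x, ‖P x - b‖ ^ (1 / 2 : ℝ) * h x := ⟨_, rfl⟩
  obtain ⟨M, hM⟩ : ∃ M : ℝ, M = ∫ x, A x * h x := ⟨_, rfl⟩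
  rw [← hM, ← hZ, ← hEE] at h1 h2
  rw [← hM, ← hZ] at h0
  rw [← hZ] at hpos
  rw [← hEE] at E0
  rw [← hZ, ← hEE, ← hM]
  obtain ⟨S, hSS⟩ : ∃ S : ℝ, S = E / Z := ⟨_, rfl⟩
  have hS : 0 < S := by rw [hSS]; exact div_pos E0 hpos
  rw [← hSS] at h1 h2 ⊢
  have M0 : 0 ≤ M := by
    rw [hM]; exact integral_nonneg fun x => mul_nonneg (A0 x) (H.h0 x)
  have hS2 : (0 : ℝ) < S ^ 2 := by positivity
  have wT : 0 < w (S ^ 2) := hw.pos _ hS2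
  obtain ⟨C1, hC1⟩ : ∃ C1 : ℝ, C1 = (((q : ℝ) + 2) * (2 + K)) ^ (q + 2) := ⟨_, rfl⟩
  have C10 : 0 < C1 := by rw [hC1]; positivity
  -- nonnegativity
  have n0 : ∀ y, 0 ≤ P0 (q + 1) h y := P0_nonneg H.h0
  have n2 : ∀ y, 0 ≤ P2 (q + 1) h A y := P2_nonneg H.h0 A0
  have nE : ∀ y, 0 ≤ ∫ x, ‖P x - b‖ ^ (1 / 2 : ℝ) * wy q h y x := fun y =>
    integral_nonneg fun x => mul_nonneg (Real.rpow_nonneg (norm_nonneg _) _)
      (mul_nonneg (H.h0 x) (P0_nonneg H.h0 _))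
  have noh : ∀ y, 0 ≤ oh (q + 1) h (fun x => w ‖P x - b‖) y := oh_nonneg H.h0 hw0
  have nf : ∀ y, 0 ≤ P0 (q + 1) h y * P2 (q + 1) h A y /
      oh (q + 1) h (fun x => w ‖P x - b‖) y := fun y =>
    div_nonneg (mul_nonneg (n0 y) (n2 y)) (noh y)
  -- the pointwise bound
  have hpt : ∀ y, w (S ^ 2) * (P0 (q + 1) h y * P2 (q + 1) h A y /
      oh (q + 1) h (fun x => w ‖P x - b‖) y) ≤
      C1 * (P2 (q + 1) h A y + (S ^ 2)⁻¹ * (P2 (q + 1) h A y *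
        ((∫ x, ‖P x - b‖ ^ (1 / 2 : ℝ) * wy q h y x) / P0 (q + 1) h y) ^ 2) +
        S ^ (q + 2) * (P2 (q + 1) h A y *
        (P0 (q + 1) h y / ∫ x, ‖P x - b‖ ^ (1 / 2 : ℝ) * wy q h y x) ^ (q + 2))) := by
    intro y
    rcases (n0 y).eq_or_lt with hz | hz
    · rw [← hz, zero_mul, zero_div, mul_zero]
      refine mul_nonneg C10.le (add_nonneg (add_nonneg (n2 y) ?_) ?_)
      · exact mul_nonneg (inv_nonneg.2 hS2.le) (mul_nonneg (n2 y) (sq_nonneg _))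
      · exact mul_nonneg (by positivity) (mul_nonneg (n2 y)
          (pow_nonneg (div_nonneg le_rfl (nE y)) _))
    · have hLy : LCD (wy q h y) := wy_lcd H (pi_pl _) y
      have hwi := (wy_int (q := q) H.meas H.h0 hHb H.int y).2
      obtain ⟨-, Ey0, -⟩ := a2r hLy hP b (by norm_num : (0 : ℝ) ≤ 1 / 2) (by norm_num) hKh
        (by rw [hwi]; exact hz)
      have hol := o_low (q := q) H hP hε hN hδ0 hδ hw hK y hz
      obtain ⟨Ey, hEy⟩ : ∃ Ey : ℝ, Ey = ∫ x, ‖P x - b‖ ^ (1 / 2 : ℝ) * wy q h y x := ⟨_, rfl⟩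
      obtain ⟨p0, hp0⟩ : ∃ p0 : ℝ, p0 = P0 (q + 1) h y := ⟨_, rfl⟩
      obtain ⟨p2, hp2⟩ : ∃ p2 : ℝ, p2 = P2 (q + 1) h A y := ⟨_, rfl⟩
      obtain ⟨oo, hoo⟩ : ∃ oo : ℝ, oo = oh (q + 1) h (fun x => w ‖P x - b‖) y := ⟨_, rfl⟩
      have p20 := n2 y
      rw [← hp2] at p20
      rw [← hp0] at hz
      rw [← hEy] at Ey0
      rw [← hp0, ← hEy, ← hoo, ← hC1] at hol
      rw [← hp0, ← hp2, ← hoo, ← hEy]
      have Ty0 : 0 < (Ey / p0) ^ 2 := by positivity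
      have wy0 : 0 < w ((Ey / p0) ^ 2) := hw.pos _ Ty0
      have oo0 : 0 < oo := by
        have c1 : 0 < C1 * oo := lt_of_lt_of_le (mul_pos hz wy0) hol
        exact (mul_pos_iff_of_pos_left C10).1 c1
      have hc := hw.cmp ((Ey / p0) ^ 2) (S ^ 2) Ty0 hS2
      have c2 : ((Ey / p0) ^ 2 / S ^ 2) ^ (1 - δ) ≤ 1 + (Ey / p0) ^ 2 * (S ^ 2)⁻¹ := by
        have c3 : 0 ≤ (Ey / p0) ^ 2 / S ^ 2 := by positivity
        rw [← div_eq_mul_inv]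
        rcases le_total ((Ey / p0) ^ 2 / S ^ 2) 1 with c4 | c4
        · have := Real.rpow_le_one c3 c4 (by linarith : 0 ≤ 1 - δ)
          linarith
        · have := Real.rpow_le_rpow_of_exponent_le c4 (by linarith : 1 - δ ≤ 1)
          rw [Real.rpow_one] at this
          linarith
      have c5 : (S ^ 2 / (Ey / p0) ^ 2) ^ (((q : ℝ) + 2) / 2) = (p0 / Ey) ^ (q + 2) * S ^ (q + 2) := by
        have c6 : S ^ 2 / (Ey / p0) ^ 2 = (p0 / Ey * S) ^ 2 := by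
          field_simp
        rw [c6, ← mul_pow, ← Real.rpow_natCast, ← Real.rpow_mul (by positivity),
          ← Real.rpow_natCast]
        congr 1
        push_cast
        ring
      rw [c5] at hc
      have c7 : w (S ^ 2) ≤ w ((Ey / p0) ^ 2) *
          (1 + (Ey / p0) ^ 2 * (S ^ 2)⁻¹ + (p0 / Ey) ^ (q + 2) * S ^ (q + 2)) :=
        hc.trans (mul_le_mul_of_nonneg_left (add_le_add c2 le_rfl) wy0.le)
      obtain ⟨R, hR⟩ : ∃ R : ℝ, R = 1 + (Ey / p0) ^ 2 * (S ^ 2)⁻¹ +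
        (p0 / Ey) ^ (q + 2) * S ^ (q + 2) := ⟨_, rfl⟩
      rw [← hR] at c7
      have R0 : 0 ≤ R := by rw [hR]; positivity
      have c8 : w (S ^ 2) * (p0 * p2 / oo) ≤ C1 * (p2 * R) := by
        rw [← mul_div_assoc, div_le_iff₀ oo0]
        calc w (S ^ 2) * (p0 * p2) ≤ (w ((Ey / p0) ^ 2) * R) * (p0 * p2) :=
              mul_le_mul_of_nonneg_right c7 (mul_nonneg hz.le p20)
          _ = (p0 * w ((Ey / p0) ^ 2)) * (p2 * R) := by ring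
          _ ≤ (C1 * oo) * (p2 * R) := mul_le_mul_of_nonneg_right hol (mul_nonneg p20 R0)
          _ = C1 * (p2 * R) * oo := by ring
      refine c8.trans (le_of_eq ?_)
      rw [hR]
      ring
  have iB := ((i0.add (i1.const_mul (S ^ 2)⁻¹)).add (i2.const_mul (S ^ (q + 2)))).const_mul C1
  have mf : Measurable fun y => P0 (q + 1) h y * P2 (q + 1) h A y /
      oh (q + 1) h (fun x => w ‖P x - b‖) y :=
    ((P0_meas H.meas).mul (P2_meas H.meas hA)).div (oh_meas H.meas hwc.measurable)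
  have iwf : Integrable fun y => w (S ^ 2) * (P0 (q + 1) h y * P2 (q + 1) h A y /
      oh (q + 1) h (fun x => w ‖P x - b‖) y) := by
    refine iB.mono' (mf.const_mul _).aestronglyMeasurable (Eventually.of_forall fun y => ?_)
    rw [Real.norm_of_nonneg (mul_nonneg wT.le (nf y))]
    exact hpt y
  have iF : Integrable fun y => P0 (q + 1) h y * P2 (q + 1) h A y /
      oh (q + 1) h (fun x => w ‖P x - b‖) y := by
    have := iwf.const_mul (w (S ^ 2))⁻¹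
    refine this.congr (Eventually.of_forall fun y => ?_)
    simp only
    rw [← mul_assoc, inv_mul_cancel₀ wT.ne', one_mul]
  refine ⟨iF, ?_⟩
  have hI : (∫ y, w (S ^ 2) * (P0 (q + 1) h y * P2 (q + 1) h A y /
      oh (q + 1) h (fun x => w ‖P x - b‖) y)) ≤
      ∫ y, C1 * (P2 (q + 1) h A y + (S ^ 2)⁻¹ * (P2 (q + 1) h A y *
        ((∫ x, ‖P x - b‖ ^ (1 / 2 : ℝ) * wy q h y x) / P0 (q + 1) h y) ^ 2) +
        S ^ (q + 2) * (P2 (q + 1) h A y *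
        (P0 (q + 1) h y / ∫ x, ‖P x - b‖ ^ (1 / 2 : ℝ) * wy q h y x) ^ (q + 2))) :=
    integral_mono iwf iB hpt
  have i01 : Integrable fun y => P2 (q + 1) h A y + (S ^ 2)⁻¹ * (P2 (q + 1) h A y *
        ((∫ x, ‖P x - b‖ ^ (1 / 2 : ℝ) * wy q h y x) / P0 (q + 1) h y) ^ 2) :=
    i0.add (i1.const_mul _)
  rw [integral_const_mul, integral_const_mul, integral_add i01 (i2.const_mul _),
    integral_add i0 (i1.const_mul _), integral_const_mul, integral_const_mul, h0] at hI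
  refine hI.trans ?_
  have g1 : (S ^ 2)⁻¹ * (∫ y, P2 (q + 1) h A y *
      ((∫ x, ‖P x - b‖ ^ (1 / 2 : ℝ) * wy q h y x) / P0 (q + 1) h y) ^ 2) ≤
      √(2 * cK 4) * (M * Z ^ (q + 1)) := by
    rw [inv_mul_le_iff₀ hS2]
    linarith
  have g2 : S ^ (q + 2) * (∫ y, P2 (q + 1) h A y *
      (P0 (q + 1) h y / ∫ x, ‖P x - b‖ ^ (1 / 2 : ℝ) * wy q h y x) ^ (q + 2)) ≤
      2 * √(2 * cK 2) ^ (q + 2) * K ^ (q + 3) * (M * Z ^ (q + 1)) := by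
    rw [mul_comm]
    exact h2
  calc C1 * (M * Z ^ (q + 1) + (S ^ 2)⁻¹ * (∫ y, P2 (q + 1) h A y *
      ((∫ x, ‖P x - b‖ ^ (1 / 2 : ℝ) * wy q h y x) / P0 (q + 1) h y) ^ 2) +
      S ^ (q + 2) * (∫ y, P2 (q + 1) h A y *
      (P0 (q + 1) h y / ∫ x, ‖P x - b‖ ^ (1 / 2 : ℝ) * wy q h y x) ^ (q + 2)))
      ≤ C1 * (M * Z ^ (q + 1) + √(2 * cK 4) * (M * Z ^ (q + 1)) +
        2 * √(2 * cK 2) ^ (q + 2) * K ^ (q + 3) * (M * Z ^ (q + 1))) :=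
        mul_le_mul_of_nonneg_left (add_le_add (add_le_add le_rfl g1) g2) C10.le
    _ = cJ q K * (M * Z ^ (q + 1)) := by unfold cJ; rw [hC1]; ring

end Pool.Agent.Lib.MP_8d00da_gt.h42t
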