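import Mathlib
import Pool.Agent.Lib.MP_8d00da_gt.h42t.TO5

/-!
# The weight from above, and the core inequality
-/

namespace Pool.Agent.Lib.MP_8d00da_gt.h42t

open MeasureTheory Set Filter
open Pool.Agent.Lib.MP_8d00da_gt.h25 Pool.Agent.Lib.MP_8d00da_gt.h42
open Pool.Agent.Lib.MP_8d00da_gt.h42s Pool.Agent.Lib.MP_8d00da_gt.h42o
open Pool.Agent.Lib.MP_8d00da_gt.h97r Pool.Agent.Lib.MP_8d00da_gt.h42r
open scoped Topology NNReal ENNReal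

set_option linter.unusedSectionVars false

variable {F : Type*} [NormedAddCommGroup F] [InnerProductSpace ℝ F]
    [FiniteDimensional ℝ F] [MeasurableSpace F] [BorelSpace F]

variable {G : Type*} [NormedAddCommGroup G] [InnerProductSpace ℝ G]
    [FiniteDimensional ℝ G] [MeasurableSpace G] [BorelSpace G]

variable {ι : Type*} [Fintype ι]

variable {q : ℕ}

noncomputable def cU (q : ℕ) (K : ℝ) : ℝ := 2 * K ^ 2 + cK (q + 2) * √(2 * cK 2) ^ (q + 2)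

private theorem to6_tangent {p t S : ℝ} (hp : 1 ≤ p) (ht : 0 ≤ t) (hS : 0 < S) :
    S ^ p + p * S ^ (p - 1) * (t - S) ≤ t ^ p := by
  have h1 := one_add_mul_self_le_rpow_one_add (s := t / S - 1)
    (by have := div_nonneg ht hS.le; linarith) hp
  have h2 : 1 + (t / S - 1) = t / S := by ring
  rw [h2, Real.div_rpow ht hS.le] at h1
  have h3 : 0 < S ^ p := Real.rpow_pos_of_pos hS p
  rw [le_div_iff₀ h3] at h1
  have h4 : S ^ p = S ^ (p - 1) * S := by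
    rw [← Real.rpow_add_one hS.ne']
    congr 1
    ring
  calc S ^ p + p * S ^ (p - 1) * (t - S) = (1 + p * (t / S - 1)) * S ^ p := by
        rw [h4]; field_simp
    _ ≤ t ^ p := h1

private theorem to6_jensen {h : F → ℝ} (H : LCD h) (P : F →L[ℝ] G) (b : G) {α : ℝ}
    (hα : 1 / 2 ≤ α) (hpos : 0 < ∫ x, h x) (hE : 0 < ∫ x, ‖P x - b‖ ^ (1 / 2 : ℝ) * h x) :
    (∫ x, h x) * (((∫ x, ‖P x - b‖ ^ (1 / 2 : ℝ) * h x) / ∫ x, h x) ^ 2) ^ α ≤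
      ∫ x, ‖P x - b‖ ^ α * h x := by
  have i1 : Integrable fun x => ‖P x - b‖ ^ (1 / 2 : ℝ) * h x := H.pow_int P b (by norm_num)
  have i2 : Integrable fun x => ‖P x - b‖ ^ α * h x := H.pow_int P b (by linarith)
  obtain ⟨Z, hZ⟩ : ∃ Z : ℝ, Z = ∫ x, h x := ⟨_, rfl⟩
  obtain ⟨E, hEE⟩ : ∃ E : ℝ, E = ∫ x, ‖P x - b‖ ^ (1 / 2 : ℝ) * h x := ⟨_, rfl⟩
  rw [← hZ] at hpos
  rw [← hEE] at hE
  rw [← hZ, ← hEE]
  obtain ⟨S, hSS⟩ : ∃ S : ℝ, S = E / Z := ⟨_, rfl⟩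
  have hS : 0 < S := by rw [hSS]; exact div_pos hE hpos
  rw [← hSS]
  have h1 : ∀ x, S ^ (2 * α) * h x + 2 * α * S ^ (2 * α - 1) *
      (‖P x - b‖ ^ (1 / 2 : ℝ) * h x - S * h x) ≤ ‖P x - b‖ ^ α * h x := by
    intro x
    have h2 := to6_tangent (p := 2 * α) (t := ‖P x - b‖ ^ (1 / 2 : ℝ)) (by linarith)
      (by positivity) hS
    have h3 : (‖P x - b‖ ^ (1 / 2 : ℝ)) ^ (2 * α) = ‖P x - b‖ ^ α := by
      rw [← Real.rpow_mul (norm_nonneg _)]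
      congr 1
      ring
    rw [h3] at h2
    calc S ^ (2 * α) * h x + 2 * α * S ^ (2 * α - 1) *
          (‖P x - b‖ ^ (1 / 2 : ℝ) * h x - S * h x)
        = (S ^ (2 * α) + 2 * α * S ^ (2 * α - 1) * (‖P x - b‖ ^ (1 / 2 : ℝ) - S)) * h x := by ring
      _ ≤ ‖P x - b‖ ^ α * h x := mul_le_mul_of_nonneg_right h2 (H.h0 x)
  have i3 : Integrable fun x => S ^ (2 * α) * h x := H.int.const_mul _
  have i4 : Integrable fun x => ‖P x - b‖ ^ (1 / 2 : ℝ) * h x - S * h x :=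
    i1.sub (H.int.const_mul S)
  have i5 : Integrable fun x => 2 * α * S ^ (2 * α - 1) *
      (‖P x - b‖ ^ (1 / 2 : ℝ) * h x - S * h x) := i4.const_mul _
  have h4 : (∫ x, (S ^ (2 * α) * h x + 2 * α * S ^ (2 * α - 1) *
      (‖P x - b‖ ^ (1 / 2 : ℝ) * h x - S * h x))) ≤ ∫ x, ‖P x - b‖ ^ α * h x :=
    integral_mono (i3.add i5) i2 h1
  rw [integral_add i3 i5, integral_const_mul,
    integral_const_mul, integral_sub i1 (H.int.const_mul S), integral_const_mul, ← hZ, ← hEE] at h4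
  have h5 : E - S * Z = 0 := by rw [hSS, div_mul_cancel₀ _ hpos.ne', sub_self]
  rw [h5, mul_zero, add_zero] at h4
  have h6 : (S ^ 2) ^ α = S ^ (2 * α) := by
    rw [← Real.rpow_natCast, ← Real.rpow_mul hS.le]
    norm_num
  rw [h6, mul_comm]
  exact h4

/-- `S = (∫ N^(1/2) h)/∫ h`, `T₀ = S²`, `m = q + 2`:
`w(N) ≤ w(T₀) ((T₀/N)^(1-δ) + (N/T₀)^(m/2))`. `∫ A N^(-(1-δ)) h ≤ K (∫ A h)²/∫ A N^(1-δ) h`
(`a2r` for `h A`, `α = 1 - δ`, `cA (1-δ) ≤ 4/δ ≤ K`), `∫ A N^(1-δ) h ≥ (∫ A h)(∫ N^(1-δ) h)/(2 K Z)`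
(`rcmp`), `∫ N^(1-δ) h ≥ Z T₀^(1-δ)` (Jensen or Hoelder, `1 - δ ≥ 1/2`). `kah` for `h A`, `s = 1/2`,
`k = m`: `∫ A N^(m/2) h (∫ A h)^(m-1) ≤ cK m (∫ A N^(1/2) h)^m`, `cmp`:
`∫ A N^(1/2) h ≤ √(2 cK 2) (∫ A h) S`. -/
theorem o_up {h A : F → ℝ} (H : LCD h) (hA : Measurable A) (A0 : ∀ x, 0 ≤ A x) {Ab : ℝ}
    (hAb : ∀ x, A x ≤ Ab) (Apos : ∀ x, 0 < h x → 0 < A x) (hAC : ACon h A)
    (hpos : 0 < ∫ x, h x) {P : F →L[ℝ] G} (hP : P ≠ 0) {b : G} {ε : ℝ} (hε : 0 < ε)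
    (hN : ∀ x, ε ≤ ‖P x - b‖) {δ : ℝ} (hδ0 : 0 < δ) (hδ : δ ≤ 1 / 2) {w : ℝ → ℝ} (hw : WG q δ w)
    {K : ℝ} (hK : 4 / δ ≤ K) :
    (Integrable fun x => A x * w ‖P x - b‖ * h x) ∧
    ∫ x, A x * w ‖P x - b‖ * h x ≤
      cU q K * w (((∫ x, ‖P x - b‖ ^ (1 / 2 : ℝ) * h x) / ∫ x, h x) ^ 2) * ∫ x, A x * h x := by
  have hα0 : (0 : ℝ) ≤ 1 - δ := by linarith
  have hα1 : 1 - δ < 1 := by linarith
  have hKα : h42r.cA (1 - δ) ≤ K := by
    refine (cA_le hα0 hα1).trans ?_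
    rw [sub_sub_cancel]
    exact hK
  have hKh : h42r.cA (1 / 2) ≤ K := by
    refine (cA_le (by norm_num) (by norm_num)).trans (le_trans ?_ hK)
    rw [div_le_div_iff₀ (by norm_num) hδ0]
    nlinarith
  obtain ⟨-, E0, -⟩ := a2r H hP b (by norm_num : (0 : ℝ) ≤ 1 / 2) (by norm_num) hKh hpos
  have iM : Integrable fun x => A x * h x := by
    refine (H.int.const_mul Ab).mono' (hA.mul H.meas).aestronglyMeasurable
      (Eventually.of_forall fun x => ?_)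
    rw [Real.norm_of_nonneg (mul_nonneg (A0 x) (H.h0 x))]
    exact mul_le_mul_of_nonneg_right (hAb x) (H.h0 x)
  have HA := H.mul hA A0 hAb hAC
  have ecomm : ∀ x, h x * A x = A x * h x := fun x => mul_comm _ _
  have M0 : 0 < ∫ x, A x * h x := by
    rw [integral_pos_iff_support_of_nonneg (fun x => mul_nonneg (A0 x) (H.h0 x)) iM]
    rw [integral_pos_iff_support_of_nonneg H.h0 H.int] at hpos
    refine hpos.trans_le (measure_mono fun x hx => ?_)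
    have hx0 : 0 < h x := lt_of_le_of_ne (H.h0 x) (Ne.symm hx)
    exact (mul_pos (Apos x hx0) hx0).ne'
  have M0' : 0 < ∫ x, h x * A x := by simpa only [ecomm] using M0
  obtain ⟨iI1, -, h1⟩ := a2r HA hP b hα0 hα1 hKα M0'
  have h2 := rcmp H hA A0 hAb Apos hAC hP b hα0 hα1 hKα hpos
  have h3 := to6_jensen H P b (α := 1 - δ) (by linarith) hpos E0
  have h4 := kah HA P b (s := 1 / 2) (by norm_num) (by norm_num) (k := q + 2) (by omega)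
  have h5 := cmp H hA A0 hAb Apos hAC P b (s := 1 / 2) (by norm_num) (by norm_num)
  have e1 : ∀ (t : ℝ) (x : F), ‖P x - b‖ ^ t * (h x * A x) = A x * ‖P x - b‖ ^ t * h x :=
    fun t x => by ring
  simp only [e1] at iI1 h1 h4
  simp only [ecomm] at h1 h4
  have em : ((q + 2 : ℕ) : ℝ) * (1 / 2) = ((q : ℝ) + 2) / 2 := by push_cast; ring
  rw [em, show q + 2 - 1 = q + 1 from rfl] at h4
  have iI2 : Integrable fun x => A x * ‖P x - b‖ ^ (((q : ℝ) + 2) / 2) * h x := by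
    refine ((H.pow_int P b (by positivity : (0 : ℝ) ≤ ((q : ℝ) + 2) / 2)).const_mul Ab).mono'
      ((hA.mul (by fun_prop)).mul H.meas).aestronglyMeasurable (Eventually.of_forall fun x => ?_)
    have hp : 0 ≤ ‖P x - b‖ ^ (((q : ℝ) + 2) / 2) := Real.rpow_nonneg (norm_nonneg _) _
    rw [Real.norm_of_nonneg (mul_nonneg (mul_nonneg (A0 x) hp) (H.h0 x)), mul_assoc]
    exact mul_le_mul_of_nonneg_right (hAb x) (mul_nonneg hp (H.h0 x))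
  obtain ⟨Z, hZ⟩ : ∃ Z : ℝ, Z = ∫ x, h x := ⟨_, rfl⟩
  obtain ⟨E, hEE⟩ : ∃ E : ℝ, E = ∫ x, ‖P x - b‖ ^ (1 / 2 : ℝ) * h x := ⟨_, rfl⟩
  obtain ⟨M, hM⟩ : ∃ M : ℝ, M = ∫ x, A x * h x := ⟨_, rfl⟩
  obtain ⟨Ea, hEa⟩ : ∃ Ea : ℝ, Ea = ∫ x, ‖P x - b‖ ^ (1 - δ) * h x := ⟨_, rfl⟩
  obtain ⟨J1, hJ1⟩ : ∃ J1 : ℝ, J1 = ∫ x, A x * ‖P x - b‖ ^ (1 - δ) * h x := ⟨_, rfl⟩
  obtain ⟨I1, hI1⟩ : ∃ I1 : ℝ, I1 = ∫ x, A x * ‖P x - b‖ ^ (-(1 - δ)) * h x := ⟨_, rfl⟩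
  obtain ⟨I2, hI2⟩ : ∃ I2 : ℝ, I2 = ∫ x, A x * ‖P x - b‖ ^ (((q : ℝ) + 2) / 2) * h x := ⟨_, rfl⟩
  obtain ⟨D, hD⟩ : ∃ D : ℝ, D = ∫ x, A x * ‖P x - b‖ ^ (1 / 2 : ℝ) * h x := ⟨_, rfl⟩
  rw [← hZ] at hpos
  rw [← hEE] at E0
  rw [← hM] at M0
  rw [← hJ1, ← hI1, ← hM] at h1
  rw [← hM, ← hEa, ← hZ, ← hJ1] at h2
  rw [← hZ, ← hEE, ← hEa] at h3
  rw [← hI2, ← hM, ← hD] at h4
  rw [← hZ, ← hD, ← hM, ← hEE] at h5
  rw [← hZ, ← hEE, ← hM]
  obtain ⟨S, hSS⟩ : ∃ S : ℝ, S = E / Z := ⟨_, rfl⟩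
  have hS : 0 < S := by rw [hSS]; exact div_pos E0 hpos
  rw [← hSS] at h3 ⊢
  obtain ⟨T, hT⟩ : ∃ T : ℝ, T = S ^ 2 := ⟨_, rfl⟩
  have T0 : 0 < T := by rw [hT]; positivity
  rw [← hT] at h3 ⊢
  have K0 : 0 < K := lt_of_lt_of_le (by positivity) hK
  have I10 : 0 ≤ I1 := by
    rw [hI1]
    exact integral_nonneg fun x =>
      mul_nonneg (mul_nonneg (A0 x) (Real.rpow_nonneg (norm_nonneg _) _)) (H.h0 x)
  have I20 : 0 ≤ I2 := by
    rw [hI2]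
    exact integral_nonneg fun x =>
      mul_nonneg (mul_nonneg (A0 x) (Real.rpow_nonneg (norm_nonneg _) _)) (H.h0 x)
  have D0 : 0 ≤ D := by
    rw [hD]
    exact integral_nonneg fun x =>
      mul_nonneg (mul_nonneg (A0 x) (Real.rpow_nonneg (norm_nonneg _) _)) (H.h0 x)
  have Ta : 0 < T ^ (1 - δ) := Real.rpow_pos_of_pos T0 _
  -- the negative moment
  have b1 : T ^ (1 - δ) * I1 ≤ 2 * K ^ 2 * M := by
    have c1 : M * T ^ (1 - δ) ≤ 2 * K * J1 := by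
      have c2 : Z * (M * T ^ (1 - δ)) ≤ Z * (2 * K * J1) := by
        calc Z * (M * T ^ (1 - δ)) = M * (Z * T ^ (1 - δ)) := by ring
          _ ≤ M * Ea := mul_le_mul_of_nonneg_left h3 M0.le
          _ ≤ 2 * K * Z * J1 := h2
          _ = Z * (2 * K * J1) := by ring
      exact le_of_mul_le_mul_left c2 hpos
    have c3 : M * (T ^ (1 - δ) * I1) ≤ M * (2 * K ^ 2 * M) := by
      calc M * (T ^ (1 - δ) * I1) = (M * T ^ (1 - δ)) * I1 := by ring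
        _ ≤ (2 * K * J1) * I1 := mul_le_mul_of_nonneg_right c1 I10
        _ = 2 * K * (J1 * I1) := by ring
        _ ≤ 2 * K * (K * M ^ 2) := mul_le_mul_of_nonneg_left h1 (by positivity)
        _ = M * (2 * K ^ 2 * M) := by ring
    exact le_of_mul_le_mul_left c3 M0
  -- the positive moment
  have k1 : 0 ≤ cK (q + 2) := by unfold cK; positivity
  have c0 : 0 ≤ √(2 * cK 2) := Real.sqrt_nonneg _
  have b2 : I2 ≤ cK (q + 2) * √(2 * cK 2) ^ (q + 2) * M * S ^ (q + 2) := by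
    have c1 : D ≤ √(2 * cK 2) * M * S := by
      have c2 : Z * D ≤ Z * (√(2 * cK 2) * M * S) := by
        refine h5.trans (le_of_eq ?_)
        rw [hSS]
        field_simp
      exact le_of_mul_le_mul_left c2 hpos
    have c3 : M ^ (q + 1) * I2 ≤
        M ^ (q + 1) * (cK (q + 2) * √(2 * cK 2) ^ (q + 2) * M * S ^ (q + 2)) := by
      calc M ^ (q + 1) * I2 = I2 * M ^ (q + 1) := by ring
        _ ≤ cK (q + 2) * D ^ (q + 2) := h4
        _ ≤ cK (q + 2) * (√(2 * cK 2) * M * S) ^ (q + 2) :=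
            mul_le_mul_of_nonneg_left (pow_le_pow_left₀ D0 c1 _) k1
        _ = M ^ (q + 1) * (cK (q + 2) * √(2 * cK 2) ^ (q + 2) * M * S ^ (q + 2)) := by
            rw [mul_pow, mul_pow]; ring
    exact le_of_mul_le_mul_left c3 (by positivity)
  have eS : T ^ (((q : ℝ) + 2) / 2) = S ^ (q + 2) := by
    rw [hT, ← Real.rpow_natCast, ← Real.rpow_mul hS.le, ← Real.rpow_natCast]
    congr 1
    push_cast
    ring
  -- the pointwise bound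
  have wT : 0 < w T := hw.pos T T0
  have hpt : ∀ x, A x * w ‖P x - b‖ * h x ≤
      w T * (T ^ (1 - δ) * (A x * ‖P x - b‖ ^ (-(1 - δ)) * h x) +
        (S ^ (q + 2))⁻¹ * (A x * ‖P x - b‖ ^ (((q : ℝ) + 2) / 2) * h x)) := by
    intro x
    have hn : 0 < ‖P x - b‖ := hε.trans_le (hN x)
    have c1 := hw.cmp T ‖P x - b‖ T0 hn
    rw [Real.div_rpow T0.le hn.le, Real.div_rpow hn.le T0.le, eS] at c1
    have c2 := mul_le_mul_of_nonneg_right (mul_le_mul_of_nonneg_left c1 (A0 x)) (H.h0 x)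
    refine c2.trans (le_of_eq ?_)
    rw [Real.rpow_neg hn.le]
    ring
  have iB : Integrable fun x => w T * (T ^ (1 - δ) * (A x * ‖P x - b‖ ^ (-(1 - δ)) * h x) +
      (S ^ (q + 2))⁻¹ * (A x * ‖P x - b‖ ^ (((q : ℝ) + 2) / 2) * h x)) :=
    ((iI1.const_mul _).add (iI2.const_mul _)).const_mul _
  have hwc : Continuous fun x : F => w ‖P x - b‖ :=
    hw.cont.comp_continuous (by fun_prop) fun x => hε.trans_le (hN x)
  have iW : Integrable fun x => A x * w ‖P x - b‖ * h x := by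
    refine iB.mono' ((hA.mul hwc.measurable).mul H.meas).aestronglyMeasurable
      (Eventually.of_forall fun x => ?_)
    rw [Real.norm_of_nonneg (mul_nonneg (mul_nonneg (A0 x)
      (hw.pos _ (hε.trans_le (hN x))).le) (H.h0 x))]
    exact hpt x
  refine ⟨iW, (integral_mono iW iB hpt).trans ?_⟩
  rw [integral_const_mul, integral_add (iI1.const_mul _) (iI2.const_mul _), integral_const_mul,
    integral_const_mul, ← hI1, ← hI2]
  have b3 : (S ^ (q + 2))⁻¹ * I2 ≤ cK (q + 2) * √(2 * cK 2) ^ (q + 2) * M := by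
    rw [inv_mul_le_iff₀ (by positivity)]
    linarith
  calc w T * (T ^ (1 - δ) * I1 + (S ^ (q + 2))⁻¹ * I2)
      ≤ w T * (2 * K ^ 2 * M + cK (q + 2) * √(2 * cK 2) ^ (q + 2) * M) :=
        mul_le_mul_of_nonneg_left (add_le_add b1 b3) wT.le
    _ = cU q K * w T * M := by unfold cU; ring

theorem core_orl {h A : F → ℝ} (H : LCD h) (hA : Measurable A) (A0 : ∀ x, 0 ≤ A x) {Ab : ℝ}
    (hAb : ∀ x, A x ≤ Ab) (Apos : ∀ x, 0 < h x → 0 < A x) (hAC : ACon h A)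
    (hpos : 0 < ∫ x, h x) {P : F →L[ℝ] G} (hP : P ≠ 0) {b : G} {ε : ℝ} (hε : 0 < ε)
    (hN : ∀ x, ε ≤ ‖P x - b‖) {δ : ℝ} (hδ0 : 0 < δ) (hδ : δ ≤ 1 / 2) {w : ℝ → ℝ} (hw : WG q δ w)
    {K : ℝ} (hK : 4 / δ ≤ K) :
    (Integrable fun y => P0 (q + 1) h y * P2 (q + 1) h A y /
      oh (q + 1) h (fun x => w ‖P x - b‖) y) ∧
    (∫ x, A x * w ‖P x - b‖ * h x) *
      (∫ y, P0 (q + 1) h y * P2 (q + 1) h A y / oh (q + 1) h (fun x => w ‖P x - b‖) y) ≤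
      cU q K * cJ q K * ((∫ x, A x * h x) ^ 2 * (∫ x, h x) ^ (q + 1)) := by
  obtain ⟨i1, h1⟩ := o_J (q := q) H hA A0 hAb Apos hAC hpos hP hε hN hδ0 hδ hw hK
  obtain ⟨-, h2⟩ := o_up (q := q) H hA A0 hAb Apos hAC hpos hP hε hN hδ0 hδ hw hK
  have k1 : 0 ≤ cK (q + 2) := by unfold cK; positivity
  have k2 : 0 ≤ cU q K := by unfold cU; positivity
  have j0 : 0 ≤ ∫ y, P0 (q + 1) h y * P2 (q + 1) h A y /
      oh (q + 1) h (fun x => w ‖P x - b‖) y := by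
    refine integral_nonneg fun y => div_nonneg (mul_nonneg (P0_nonneg H.h0 y)
      (P2_nonneg H.h0 A0 y)) (oh_nonneg H.h0 (fun x => (hw.pos _ (hε.trans_le (hN x))).le) y)
  have a0 : 0 ≤ ∫ x, A x * h x := integral_nonneg fun x => mul_nonneg (A0 x) (H.h0 x)
  refine ⟨i1, (mul_le_mul_of_nonneg_right h2 j0).trans ?_⟩
  have h3 := mul_le_mul_of_nonneg_left h1 (mul_nonneg k2 a0)
  refine le_trans (le_of_eq ?_) (h3.trans (le_of_eq ?_))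
  · ring
  · ring

end Pool.Agent.Lib.MP_8d00da_gt.h42t
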