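import Mathlib
import Pool.Agent.Lib.MP_8d00da_gt.h42t.TODefs

namespace Pool.Agent.Lib.MP_8d00da_gt.h25
end Pool.Agent.Lib.MP_8d00da_gt.h25
namespace Pool.Agent.Lib.MP_8d00da_gt.h42
end Pool.Agent.Lib.MP_8d00da_gt.h42
namespace Pool.Agent.Lib.MP_8d00da_gt.h42s
end Pool.Agent.Lib.MP_8d00da_gt.h42s
namespace Pool.Agent.Lib.MP_8d00da_gt.h42o
end Pool.Agent.Lib.MP_8d00da_gt.h42o
namespace Pool.Agent.Lib.MP_8d00da_gt.h97r
end Pool.Agent.Lib.MP_8d00da_gt.h97r
namespace Pool.Agent.Lib.MP_8d00da_gt.h42r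
end Pool.Agent.Lib.MP_8d00da_gt.h42r


/-!
# Growth of Orlicz weights
-/

namespace Pool.Agent.Lib.MP_8d00da_gt.h42t

open MeasureTheory Set Filter
open Pool.Agent.Lib.MP_8d00da_gt.h25 Pool.Agent.Lib.MP_8d00da_gt.h42
open Pool.Agent.Lib.MP_8d00da_gt.h42s Pool.Agent.Lib.MP_8d00da_gt.h42o
open Pool.Agent.Lib.MP_8d00da_gt.h97r Pool.Agent.Lib.MP_8d00da_gt.h42r
open scoped Topology NNReal ENNReal

set_option linter.unusedSectionVars false

variable {F : Type*} [NormedAddCommGroup F] [InnerProductSpace ℝ F]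
    [FiniteDimensional ℝ F] [MeasurableSpace F] [BorelSpace F]

variable {G : Type*} [NormedAddCommGroup G] [InnerProductSpace ℝ G]
    [FiniteDimensional ℝ G] [MeasurableSpace G] [BorelSpace G]

variable {ι : Type*} [Fintype ι]

variable {δ ρ : ℝ} {ψ g : ℝ → ℝ}

/-- Both cases `s ≤ t`, `t ≤ s`: `g t / t = (g t / g s) (s / t) g s / s`. -/
theorem Orl.ratio (H : Orl δ ρ ψ g) {s t : ℝ} (hs : 0 < s) (ht : 0 < t) :
    g t / t ≤ g s / s * ((s / t) ^ (1 - δ) + (t / s) ^ (ρ - 1)) := by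
  have hgs := H.pos s hs
  have hgt := H.pos t ht
  have h1 : 0 ≤ (s / t) ^ (1 - δ) := Real.rpow_nonneg (by positivity) _
  have h2 : 0 ≤ (t / s) ^ (ρ - 1) := Real.rpow_nonneg (by positivity) _
  have h3 : 0 < g s / s := by positivity
  rcases le_total s t with hst | hst
  · have h4 := H.high s t hs hst
    have h5 : g t / t ≤ g s / s * (t / s) ^ (ρ - 1) := by
      rw [Real.rpow_sub_one (by positivity), div_le_iff₀ ht]
      calc g t ≤ g s * (t / s) ^ ρ := h4
        _ = g s / s * ((t / s) ^ ρ / (t / s)) * t := by field_simp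
    nlinarith
  · have h4 := H.low t s ht hst
    have h5 : g t / t ≤ g s / s * (s / t) ^ (1 - δ) := by
      rw [Real.rpow_sub (by positivity), Real.rpow_one, div_le_iff₀ ht]
      have h6 : 0 < (s / t) ^ δ := Real.rpow_pos_of_pos (by positivity) _
      have h7 : g t ≤ g s / (s / t) ^ δ := by rwa [le_div_iff₀ h6]
      calc g t ≤ g s / (s / t) ^ δ := h7
        _ = g s / s * (s / t / (s / t) ^ δ) * t := by field_simp
    nlinarith

theorem Orl.weaken (H : Orl δ ρ ψ g) {δ' ρ' : ℝ} (h1 : δ' ≤ δ) (h2 : ρ ≤ ρ') :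
    Orl δ' ρ' ψ g := by
  refine ⟨H.cont, H.der, H.pos, fun s t hs hst => ?_, fun s t hs hst => ?_⟩
  · have h3 : 1 ≤ t / s := by rwa [one_le_div hs]
    exact (mul_le_mul_of_nonneg_left (Real.rpow_le_rpow_of_exponent_le h3 h1)
      (H.pos s hs).le).trans (H.low s t hs hst)
  · have h3 : 1 ≤ t / s := by rwa [one_le_div hs]
    exact (H.high s t hs hst).trans (mul_le_mul_of_nonneg_left
      (Real.rpow_le_rpow_of_exponent_le h3 h2) (H.pos s hs).le)

/-- monotonicity of `g` -/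
private theorem to1_mono (H : Orl δ ρ ψ g) (hδ : 0 ≤ δ) {s t : ℝ} (hs : 0 < s) (hst : s ≤ t) :
    g s ≤ g t := by
  have h3 : 1 ≤ t / s := by rwa [one_le_div hs]
  have h4 : 1 ≤ (t / s) ^ δ := Real.one_le_rpow h3 hδ
  have h5 := H.low s t hs hst
  have h6 := H.pos s hs
  nlinarith

/-- Squeeze: `g s ≤ g t ≤ g s (t/s)^ρ` for `s ≤ t` (`δ ≥ 0`). -/
theorem Orl.gcont (H : Orl δ ρ ψ g) (hδ : 0 ≤ δ) : ContinuousOn g (Ioi 0) := by
  intro a ha
  have ha0 : 0 < a := ha
  apply ContinuousAt.continuousWithinAt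
  have hga := H.pos a ha0
  have hr : ContinuousAt (fun t : ℝ => (t / a) ^ ρ) a := by
    apply ContinuousAt.rpow_const (continuousAt_id.div_const a)
    left
    simp [ha0.ne']
  have e1 : (a / a) ^ ρ = 1 := by rw [div_self ha0.ne', Real.one_rpow]
  have hlow : Tendsto (fun t : ℝ => g a * min 1 ((t / a) ^ ρ)) (𝓝 a) (𝓝 (g a)) := by
    have h1 : ContinuousAt (fun t : ℝ => g a * min 1 ((t / a) ^ ρ)) a :=
      continuousAt_const.mul (continuousAt_const.min hr)
    have h2 := h1.tendsto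
    rw [e1, min_self, mul_one] at h2
    exact h2
  have hup : Tendsto (fun t : ℝ => g a * max 1 ((t / a) ^ ρ)) (𝓝 a) (𝓝 (g a)) := by
    have h1 : ContinuousAt (fun t : ℝ => g a * max 1 ((t / a) ^ ρ)) a :=
      continuousAt_const.mul (continuousAt_const.max hr)
    have h2 := h1.tendsto
    rw [e1, max_self, mul_one] at h2
    exact h2
  refine tendsto_of_tendsto_of_tendsto_of_le_of_le' hlow hup ?_ ?_
  · filter_upwards [lt_mem_nhds ha0] with t ht
    rcases le_total a t with h | h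
    · calc g a * min 1 ((t / a) ^ ρ) ≤ g a * 1 :=
          mul_le_mul_of_nonneg_left (min_le_left _ _) hga.le
        _ = g a := mul_one _
        _ ≤ g t := to1_mono H hδ ha0 h
    · have h1 := H.high t a ht h
      have h2 : 0 < (t / a) ^ ρ := Real.rpow_pos_of_pos (by positivity) _
      have h3 : (a / t) ^ ρ * (t / a) ^ ρ = 1 := by
        rw [← Real.mul_rpow (by positivity) (by positivity)]
        have : a / t * (t / a) = 1 := by field_simp
        rw [this, Real.one_rpow]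
      calc g a * min 1 ((t / a) ^ ρ) ≤ g a * (t / a) ^ ρ :=
          mul_le_mul_of_nonneg_left (min_le_right _ _) hga.le
        _ ≤ g t * (a / t) ^ ρ * (t / a) ^ ρ := mul_le_mul_of_nonneg_right h1 h2.le
        _ = g t := by rw [mul_assoc, h3, mul_one]
  · filter_upwards [lt_mem_nhds ha0] with t ht
    rcases le_total a t with h | h
    · exact (H.high a t ha0 h).trans
        (mul_le_mul_of_nonneg_left (le_max_right _ _) hga.le)
    · calc g t ≤ g a := to1_mono H hδ ht h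
        _ = g a * 1 := (mul_one _).symm
        _ ≤ g a * max 1 ((t / a) ^ ρ) := mul_le_mul_of_nonneg_left (le_max_left _ _) hga.le

theorem Orl.mono (H : Orl δ ρ ψ g) (hδ : 0 ≤ δ) {s t : ℝ} (hs : 0 < s) (hst : s ≤ t) :
    g s ≤ g t := to1_mono H hδ hs hst

/-- `ψ` is monotone and convex on `[0, ∞)` (`ψ' = g ≥ 0` non-decreasing on `(0, ∞)`, `ψ` continuous
on `[0, ∞)`). -/
theorem Orl.psi_mono (H : Orl δ ρ ψ g) : MonotoneOn ψ (Ici 0) := by
  refine monotoneOn_of_deriv_nonneg (convex_Ici 0) H.cont ?_ ?_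
  · rw [interior_Ici]
    intro t ht
    exact (H.der t ht).differentiableAt.differentiableWithinAt
  · rw [interior_Ici]
    intro t ht
    rw [(H.der t ht).deriv]
    exact (H.pos t ht).le

theorem Orl.psi_conv (H : Orl δ ρ ψ g) (hδ : 0 ≤ δ) : ConvexOn ℝ (Ici 0) ψ := by
  refine MonotoneOn.convexOn_of_deriv (convex_Ici 0) H.cont ?_ ?_
  · rw [interior_Ici]
    intro t ht
    exact (H.der t ht).differentiableAt.differentiableWithinAt
  · rw [interior_Ici]
    intro s hs t ht hst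
    rw [(H.der s hs).deriv, (H.der t ht).deriv]
    exact to1_mono H hδ hs hst

/-- `wo` with `ρ = (q + 2)/2 + 1`. -/
theorem Orl.wg {q : ℕ} {δ : ℝ} (hδ : 0 < δ) (H : Orl δ (((q : ℝ) + 2) / 2 + 1) ψ g) :
    WG q δ (wo δ (((q : ℝ) + 2) / 2 + 1) g) := by
  have hko : 0 < ko δ (((q : ℝ) + 2) / 2 + 1) := by
    unfold ko
    positivity
  refine ⟨fun t ht => ?_, ?_, fun s t hs ht => ?_⟩
  · have := H.pos t ht
    unfold wo
    positivity
  · unfold wo
    exact continuousOn_const.mul ((H.gcont hδ.le).div continuousOn_id fun t ht => ne_of_gt ht)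
  · have h1 := H.ratio hs ht
    have e : (((q : ℝ) + 2) / 2 + 1) - 1 = ((q : ℝ) + 2) / 2 := by ring
    rw [e] at h1
    unfold wo
    calc ko δ (((q : ℝ) + 2) / 2 + 1) * (g t / t)
        ≤ ko δ (((q : ℝ) + 2) / 2 + 1) *
          (g s / s * ((s / t) ^ (1 - δ) + (t / s) ^ (((q : ℝ) + 2) / 2))) :=
          mul_le_mul_of_nonneg_left h1 hko.le
      _ = _ := by ring

end Pool.Agent.Lib.MP_8d00da_gt.h42t
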