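import Mathlib
import Pool.Agent.Lib.MP_8d00da_gt.h42r.ADefs
import Pool.Agent.Lib.MP_8d00da_gt.h42t.TO1

namespace Pool.Agent.Lib.MP_8d00da_gt.h25
end Pool.Agent.Lib.MP_8d00da_gt.h25
namespace Pool.Agent.Lib.MP_8d00da_gt.h42s
end Pool.Agent.Lib.MP_8d00da_gt.h42s
namespace Pool.Agent.Lib.MP_8d00da_gt.h42o
end Pool.Agent.Lib.MP_8d00da_gt.h42o
namespace Pool.Agent.Lib.MP_8d00da_gt.h97r
end Pool.Agent.Lib.MP_8d00da_gt.h97r


/-!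
# Second differences of Orlicz functions of norms
-/

namespace Pool.Agent.Lib.MP_8d00da_gt.h42t

open MeasureTheory Set Filter
open Pool.Agent.Lib.MP_8d00da_gt.h25 Pool.Agent.Lib.MP_8d00da_gt.h42
open Pool.Agent.Lib.MP_8d00da_gt.h42s Pool.Agent.Lib.MP_8d00da_gt.h42o
open Pool.Agent.Lib.MP_8d00da_gt.h97r Pool.Agent.Lib.MP_8d00da_gt.h42r
open scoped Topology NNReal ENNReal

set_option linter.unusedSectionVars false

variable {F : Type*} [NormedAddCommGroup F] [InnerProductSpace ℝ F]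
    [FiniteDimensional ℝ F] [MeasurableSpace F] [BorelSpace F]

variable {G : Type*} [NormedAddCommGroup G] [InnerProductSpace ℝ G]
    [FiniteDimensional ℝ G] [MeasurableSpace G] [BorelSpace G]

variable {ι : Type*} [Fintype ι]

variable {δ ρ : ℝ} {ψ g : ℝ → ℝ}

private theorem to7_diff_low (hδ0 : 0 < δ) (H : Orl δ ρ ψ g) {r s : ℝ} (hs : 0 < s)
    (hsr : s ≤ r) (hr : r ≤ 3 * s) : δ / 3 * (g s / s) * (r - s) ≤ g r - g s := by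
  have h1 := H.low s r hs hsr
  have hgs := H.pos s hs
  have hr0 : 0 < r := hs.trans_le hsr
  have hx : 0 < r / s := by positivity
  have h2 : 1 + δ * Real.log (r / s) ≤ (r / s) ^ δ := by
    rw [Real.rpow_def_of_pos hx]
    have := Real.add_one_le_exp (Real.log (r / s) * δ)
    linarith
  have h3 : 1 - (r / s)⁻¹ ≤ Real.log (r / s) := Real.one_sub_inv_le_log_of_pos hx
  have h4 : (r - s) / (3 * s) ≤ 1 - (r / s)⁻¹ := by
    rw [inv_div]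
    have : 1 - s / r = (r - s) / r := by field_simp
    rw [this]
    exact div_le_div_of_nonneg_left (by linarith) hr0 hr
  have h5 : 1 + δ * ((r - s) / (3 * s)) ≤ (r / s) ^ δ := by
    have := mul_le_mul_of_nonneg_left (h4.trans h3) hδ0.le
    linarith
  have h6 : g s * (1 + δ * ((r - s) / (3 * s))) ≤ g r :=
    (mul_le_mul_of_nonneg_left h5 hgs.le).trans h1
  have h7 : g s * (1 + δ * ((r - s) / (3 * s))) = g s + δ / 3 * (g s / s) * (r - s) := by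
    field_simp
  linarith

private theorem to7_diff_up (hρ : 1 ≤ ρ) (H : Orl δ ρ ψ g) {r s : ℝ} (hs : 0 < s)
    (hsr : s ≤ r) (hr : r ≤ 3 * s) : g r - g s ≤ ρ * 3 ^ ρ * (g s / s) * (r - s) := by
  have h1 := H.high s r hs hsr
  have hgs := H.pos s hs
  have hr0 : 0 < r := hs.trans_le hsr
  have hx : 0 < r / s := by positivity
  have h2 : 1 + ρ * (s / r - 1) ≤ (1 + (s / r - 1)) ^ ρ :=
    one_add_mul_self_le_rpow_one_add (by have : 0 ≤ s / r := by positivity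
                                         linarith) hρ
  have h3 : (1 + (s / r - 1)) = s / r := by ring
  rw [h3] at h2
  have h4 : (s / r) ^ ρ * (r / s) ^ ρ = 1 := by
    rw [← Real.mul_rpow (by positivity) (by positivity)]
    have : s / r * (r / s) = 1 := by field_simp
    rw [this, Real.one_rpow]
  have h5 : (r / s) ^ ρ ≤ 3 ^ ρ :=
    Real.rpow_le_rpow hx.le (by rw [div_le_iff₀ hs]; linarith) (by linarith)
  have h6 : 0 < (r / s) ^ ρ := Real.rpow_pos_of_pos hx _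
  have h7 : (r / s) ^ ρ - 1 ≤ (r / s) ^ ρ * (ρ * (1 - s / r)) := by
    have := mul_le_mul_of_nonneg_right h2 h6.le
    rw [h4] at this
    linarith
  have h8 : 1 - s / r ≤ (r - s) / s := by
    have : 1 - s / r = (r - s) / r := by field_simp
    rw [this]
    exact div_le_div_of_nonneg_left (by linarith) hs hsr
  have h8' : 0 ≤ 1 - s / r := by
    rw [sub_nonneg, div_le_one hr0]
    exact hsr
  have h9 : (r / s) ^ ρ - 1 ≤ 3 ^ ρ * (ρ * ((r - s) / s)) := by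
    refine h7.trans (mul_le_mul h5 (mul_le_mul_of_nonneg_left h8 (by linarith)) ?_ (by positivity))
    exact mul_nonneg (by linarith) h8'
  calc g r - g s ≤ g s * ((r / s) ^ ρ - 1) := by linarith
    _ ≤ g s * (3 ^ ρ * (ρ * ((r - s) / s))) := mul_le_mul_of_nonneg_left h9 hgs.le
    _ = _ := by ring

private theorem to7_cmp (hδ0 : 0 < δ) (hρ : 1 ≤ ρ) (H : Orl δ ρ ψ g) {s t : ℝ} (hs : 0 < s)
    (ht : 0 < t) (h1 : s ≤ 2 * t) (h2 : t ≤ 2 * s) : g t / t ≤ 2 ^ ρ * (g s / s) := by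
  have hgs := H.pos s hs
  have hgt := H.pos t ht
  have h20 : (2 : ℝ) ≤ 2 ^ ρ := by
    calc (2 : ℝ) = 2 ^ (1 : ℝ) := (Real.rpow_one 2).symm
      _ ≤ 2 ^ ρ := Real.rpow_le_rpow_of_exponent_le (by norm_num) hρ
  rcases le_total s t with hst | hst
  · have h3 := H.high s t hs hst
    have h4 : (t / s) ^ ρ ≤ 2 ^ ρ :=
      Real.rpow_le_rpow (by positivity) (by rw [div_le_iff₀ hs]; linarith) (by linarith)
    have h5 : g t ≤ g s * 2 ^ ρ := h3.trans (mul_le_mul_of_nonneg_left h4 hgs.le)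
    calc g t / t ≤ (g s * 2 ^ ρ) / t := div_le_div_of_nonneg_right h5 ht.le
      _ ≤ (g s * 2 ^ ρ) / s := div_le_div_of_nonneg_left (by positivity) hs hst
      _ = _ := by ring
  · have h3 := H.mono hδ0.le ht hst
    rw [div_le_iff₀ ht]
    have h5 : 0 < g s / s := by positivity
    calc g t ≤ g s := h3
      _ = g s / s * s := by field_simp
      _ ≤ g s / s * (2 * t) := mul_le_mul_of_nonneg_left h1 h5.le
      _ ≤ g s / s * (2 ^ ρ * t) :=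
        mul_le_mul_of_nonneg_left (mul_le_mul_of_nonneg_right h20 ht.le) h5.le
      _ = _ := by ring

/-- `⟪g(‖a‖) a/‖a‖ - g(‖b‖) b/‖b‖, a - b⟫ =
(g r - g s)(r - s) + (g r/r + g s/s)/2 (‖a - b‖² - (r - s)²)`, `r = ‖a‖`, `s = ‖b‖`
(`⟪a, b⟫ = (r² + s² - ‖a - b‖²)/2`). -/
theorem grad_id (g : ℝ → ℝ) {a b : G} (ha : a ≠ 0) (hb : b ≠ 0) :
    inner ℝ ((g ‖a‖ / ‖a‖) • a - (g ‖b‖ / ‖b‖) • b) (a - b) =
      (g ‖a‖ - g ‖b‖) * (‖a‖ - ‖b‖) +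
        (g ‖a‖ / ‖a‖ + g ‖b‖ / ‖b‖) / 2 * (‖a - b‖ ^ 2 - (‖a‖ - ‖b‖) ^ 2) := by
  have ha' : ‖a‖ ≠ 0 := norm_ne_zero_iff.2 ha
  have hb' : ‖b‖ ≠ 0 := norm_ne_zero_iff.2 hb
  have h1 := norm_sub_sq_real a b
  have h2 : inner ℝ ((g ‖a‖ / ‖a‖) • a - (g ‖b‖ / ‖b‖) • b) (a - b) =
      g ‖a‖ / ‖a‖ * (‖a‖ ^ 2 - inner ℝ a b) - g ‖b‖ / ‖b‖ * (inner ℝ a b - ‖b‖ ^ 2) := by
    rw [inner_sub_left, real_inner_smul_left, real_inner_smul_left, inner_sub_right,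
      inner_sub_right, real_inner_self_eq_norm_sq, real_inner_self_eq_norm_sq,
      real_inner_comm a b]
  rw [h2, h1]
  field_simp
  ring

private theorem to7_core (hδ0 : 0 < δ) (hδ : δ ≤ 1) (hρ : 1 ≤ ρ) (H : Orl δ ρ ψ g) {y a b : G}
    (hy : y ≠ 0) (ha' : ‖a‖ ≤ 3 / 2 * ‖y‖) (hb : ‖y‖ / 2 ≤ ‖b‖) (hab : ‖b‖ ≤ ‖a‖) :
    wo δ ρ g ‖y‖ * ‖a - b‖ ^ 2 ≤ inner ℝ ((g ‖a‖ / ‖a‖) • a - (g ‖b‖ / ‖b‖) • b) (a - b) ∧
    inner ℝ ((g ‖a‖ / ‖a‖) • a - (g ‖b‖ / ‖b‖) • b) (a - b) ≤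
      Lo δ ρ * wo δ ρ g ‖y‖ * ‖a - b‖ ^ 2 := by
  have hY : 0 < ‖y‖ := norm_pos_iff.2 hy
  have hs : 0 < ‖b‖ := by linarith
  have hr : 0 < ‖a‖ := by linarith
  have hd : |‖a‖ - ‖b‖| ≤ ‖a - b‖ := abs_norm_sub_norm_le a b
  have he : (‖a‖ - ‖b‖) ^ 2 ≤ ‖a - b‖ ^ 2 := sq_le_sq' (by linarith [(abs_le.1 hd).1])
    (by linarith [(abs_le.1 hd).2])
  rw [grad_id g (norm_pos_iff.1 hr) (norm_pos_iff.1 hs)]
  set r := ‖a‖
  set s := ‖b‖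
  set Y := ‖y‖
  set D := ‖a - b‖
  have h1 := to7_diff_low hδ0 H hs hab (by linarith)
  have h2 := to7_diff_up hρ H hs hab (by linarith)
  have h3 := to7_cmp hδ0 hρ H hs hY (by linarith) (by linarith)
  have h4 := to7_cmp hδ0 hρ H hY hs (by linarith) (by linarith)
  have hgr := H.pos r hr
  have hgs := H.pos s hs
  have hgY := H.pos Y hY
  have hT : 0 < g s / s := by positivity
  have hR : 0 < g r / r := by positivity
  have h5 : g r / r ≤ 3 ^ ρ * (g s / s) := by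
    have h5a : (r / s) ^ ρ ≤ 3 ^ ρ :=
      Real.rpow_le_rpow (by positivity) (by rw [div_le_iff₀ hs]; linarith) (by linarith)
    have h5b : g r ≤ g s * 3 ^ ρ :=
      (H.high s r hs hab).trans (mul_le_mul_of_nonneg_left h5a hgs.le)
    calc g r / r ≤ (g s * 3 ^ ρ) / r := div_le_div_of_nonneg_right h5b hr.le
      _ ≤ (g s * 3 ^ ρ) / s := div_le_div_of_nonneg_left (by positivity) hs hab
      _ = _ := by ring
  have h30 : (1 : ℝ) ≤ 3 ^ ρ := Real.one_le_rpow (by norm_num) (by linarith)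
  have h2pos : (0 : ℝ) < 2 ^ ρ := by positivity
  have hrs : 0 ≤ r - s := by linarith
  have hE : 0 ≤ D ^ 2 - (r - s) ^ 2 := by linarith
  constructor
  · have e1 : wo δ ρ g Y = δ / 4 * (g Y / Y / 2 ^ ρ) := by
      unfold wo ko
      rw [Real.rpow_add (by norm_num)]
      norm_num
      ring
    have e2 : wo δ ρ g Y ≤ δ / 3 * (g s / s) := by
      rw [e1]
      have : g Y / Y / 2 ^ ρ ≤ g s / s := by
        rw [div_le_iff₀ h2pos]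
        linarith
      nlinarith [mul_le_mul_of_nonneg_left this hδ0.le, mul_pos hδ0 hT]
    have e3 : δ / 3 * (g s / s) * (r - s) ^ 2 ≤ (g r - g s) * (r - s) := by
      have := mul_le_mul_of_nonneg_right h1 hrs
      linarith [this]
    have e4 : δ / 3 * (g s / s) ≤ (g r / r + g s / s) / 2 := by
      nlinarith
    have e5 := mul_le_mul_of_nonneg_right e4 hE
    calc wo δ ρ g Y * D ^ 2 ≤ δ / 3 * (g s / s) * D ^ 2 :=
          mul_le_mul_of_nonneg_right e2 (sq_nonneg _)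
      _ = δ / 3 * (g s / s) * (r - s) ^ 2 + δ / 3 * (g s / s) * (D ^ 2 - (r - s) ^ 2) := by ring
      _ ≤ _ := add_le_add e3 e5
  · have e1 : Lo δ ρ * wo δ ρ g Y = ρ * 3 ^ ρ * (2 ^ ρ * (g Y / Y)) := by
      unfold Lo wo ko
      have e12 : (12 : ℝ) ^ ρ = 3 ^ ρ * (2 ^ ρ * 2 ^ ρ) := by
        rw [← Real.mul_rpow (by norm_num) (by norm_num), ← Real.mul_rpow (by norm_num)
          (by norm_num)]
        norm_num
      rw [e12, Real.rpow_add (by norm_num)]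
      have : (2 : ℝ) ^ (2 : ℝ) = 4 := by norm_num
      rw [this]
      field_simp
    have e2 : ρ * 3 ^ ρ * (g s / s) ≤ Lo δ ρ * wo δ ρ g Y := by
      rw [e1]
      exact mul_le_mul_of_nonneg_left h4 (by positivity)
    have e3 : (g r - g s) * (r - s) ≤ ρ * 3 ^ ρ * (g s / s) * (r - s) ^ 2 := by
      have := mul_le_mul_of_nonneg_right h2 hrs
      linarith [this]
    have e4 : (g r / r + g s / s) / 2 ≤ ρ * 3 ^ ρ * (g s / s) := by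
      have e6 : g s / s ≤ 3 ^ ρ * (g s / s) := by nlinarith
      have e7 : 3 ^ ρ * (g s / s) ≤ ρ * (3 ^ ρ * (g s / s)) := by
        have : 0 < 3 ^ ρ * (g s / s) := by positivity
        nlinarith
      linarith
    have e5 := mul_le_mul_of_nonneg_right e4 hE
    calc (g r - g s) * (r - s) + (g r / r + g s / s) / 2 * (D ^ 2 - (r - s) ^ 2)
        ≤ ρ * 3 ^ ρ * (g s / s) * (r - s) ^ 2 +
          ρ * 3 ^ ρ * (g s / s) * (D ^ 2 - (r - s) ^ 2) := add_le_add e3 e5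
      _ = ρ * 3 ^ ρ * (g s / s) * D ^ 2 := by ring
      _ ≤ _ := mul_le_mul_of_nonneg_right e2 (sq_nonneg _)

private theorem to7_core2 (hδ0 : 0 < δ) (hδ : δ ≤ 1) (hρ : 1 ≤ ρ) (H : Orl δ ρ ψ g) {y a b : G}
    (hy : y ≠ 0) (ha : ‖y‖ / 2 ≤ ‖a‖) (ha' : ‖a‖ ≤ 3 / 2 * ‖y‖) (hb : ‖y‖ / 2 ≤ ‖b‖)
    (hb' : ‖b‖ ≤ 3 / 2 * ‖y‖) :
    wo δ ρ g ‖y‖ * ‖a - b‖ ^ 2 ≤ inner ℝ ((g ‖a‖ / ‖a‖) • a - (g ‖b‖ / ‖b‖) • b) (a - b) ∧
    inner ℝ ((g ‖a‖ / ‖a‖) • a - (g ‖b‖ / ‖b‖) • b) (a - b) ≤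
      Lo δ ρ * wo δ ρ g ‖y‖ * ‖a - b‖ ^ 2 := by
  rcases le_total ‖b‖ ‖a‖ with h | h
  · exact to7_core hδ0 hδ hρ H hy ha' hb h
  · have h1 := to7_core hδ0 hδ hρ H hy hb' ha h
    have e1 : inner ℝ ((g ‖b‖ / ‖b‖) • b - (g ‖a‖ / ‖a‖) • a) (b - a) =
        inner ℝ ((g ‖a‖ / ‖a‖) • a - (g ‖b‖ / ‖b‖) • b) (a - b) := by
      rw [← neg_sub a b, ← neg_sub ((g ‖a‖ / ‖a‖) • a) ((g ‖b‖ / ‖b‖) • b), inner_neg_neg]
    rw [e1, norm_sub_rev b a] at h1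
    exact h1

/-- For `‖y‖/2 ≤ ‖a‖, ‖b‖ ≤ 3‖y‖/2`. Let `r ≥ s` be the two norms (symmetry), `x = r/s ≤ 3`,
`0 ≤ r - s ≤ ‖a - b‖`. Below: `g r - g s ≥ g s (x^δ - 1) ≥ g s (δ/2)(x - 1)` (concavity of `x^δ` on
`[1, 3]`: `x^δ - 1 ≥ (x - 1)(3^δ - 1)/2`, `3^δ - 1 ≥ δ log 3 ≥ δ`), `g r/r ≥ 0`, so the left side is
at least `(δ/2)(g s/s)‖a - b‖²`; and `g s/s ≥ 2^(-ρ-1) g(‖y‖)/‖y‖` (cases `s ≤ ‖y‖`, `s ≥ ‖y‖`).
Above: `g r - g s ≤ g s (x^ρ - 1) ≤ ρ 3^(ρ-1) (g s/s)(r - s)`, `g r/r ≤ 3^(ρ-1) g s/s`,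
`g s/s ≤ 2^ρ g(‖y‖)/‖y‖`. -/
theorem grad_low (hδ0 : 0 < δ) (hδ : δ ≤ 1) (hρ : 1 ≤ ρ) (H : Orl δ ρ ψ g) {y a b : G}
    (hy : y ≠ 0) (ha : ‖y‖ / 2 ≤ ‖a‖) (ha' : ‖a‖ ≤ 3 / 2 * ‖y‖) (hb : ‖y‖ / 2 ≤ ‖b‖)
    (hb' : ‖b‖ ≤ 3 / 2 * ‖y‖) :
    wo δ ρ g ‖y‖ * ‖a - b‖ ^ 2 ≤ inner ℝ ((g ‖a‖ / ‖a‖) • a - (g ‖b‖ / ‖b‖) • b) (a - b) := by
  exact (to7_core2 hδ0 hδ hρ H hy ha ha' hb hb').1

theorem grad_up (hδ0 : 0 < δ) (hδ : δ ≤ 1) (hρ : 1 ≤ ρ) (H : Orl δ ρ ψ g) {y a b : G}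
    (hy : y ≠ 0) (ha : ‖y‖ / 2 ≤ ‖a‖) (ha' : ‖a‖ ≤ 3 / 2 * ‖y‖) (hb : ‖y‖ / 2 ≤ ‖b‖)
    (hb' : ‖b‖ ≤ 3 / 2 * ‖y‖) :
    inner ℝ ((g ‖a‖ / ‖a‖) • a - (g ‖b‖ / ‖b‖) • b) (a - b) ≤
      Lo δ ρ * wo δ ρ g ‖y‖ * ‖a - b‖ ^ 2 := by
  exact (to7_core2 hδ0 hδ hρ H hy ha ha' hb hb').2

private theorem to7_norm_deriv {y v : G} {t : ℝ} (h : y + t • v ≠ 0) :
    HasDerivAt (fun t : ℝ => ‖y + t • v‖) (inner ℝ (y + t • v) v / ‖y + t • v‖) t := by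
  have h1 : HasDerivAt (fun t : ℝ => y + t • v) v t := by
    have := ((hasDerivAt_id t).smul_const v).const_add y
    simpa using this
  have h2 := h1.norm_sq
  have h3 : ‖y + t • v‖ ≠ 0 := norm_ne_zero_iff.2 h
  have h4 := h2.sqrt (by positivity)
  have e1 : (fun t : ℝ => √(‖y + t • v‖ ^ 2)) = fun t : ℝ => ‖y + t • v‖ := by
    funext u
    exact Real.sqrt_sq (norm_nonneg _)
  rw [e1, Real.sqrt_sq (norm_nonneg _)] at h4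
  convert h4 using 1
  field_simp

private theorem to7_psi_deriv (H : Orl δ ρ ψ g) {y v : G} {t : ℝ} (h : y + t • v ≠ 0) :
    HasDerivAt (fun t : ℝ => ψ ‖y + t • v‖)
      (inner ℝ ((g ‖y + t • v‖ / ‖y + t • v‖) • (y + t • v)) v) t := by
  have h1 := (H.der ‖y + t • v‖ (norm_pos_iff.2 h)).comp t (to7_norm_deriv h)
  rw [real_inner_smul_left]
  have e : g ‖y + t • v‖ / ‖y + t • v‖ * inner ℝ (y + t • v) v =
      g ‖y + t • v‖ * (inner ℝ (y + t • v) v / ‖y + t • v‖) := by ring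
  rw [e]
  exact h1

private theorem to7_bd {y v : G} (hv : ‖v‖ ≤ ‖y‖ / 2) {t : ℝ} (ht : t ∈ Icc (0 : ℝ) 1) :
    (‖y‖ / 2 ≤ ‖y + t • v‖ ∧ ‖y + t • v‖ ≤ 3 / 2 * ‖y‖) ∧
      (‖y‖ / 2 ≤ ‖y - t • v‖ ∧ ‖y - t • v‖ ≤ 3 / 2 * ‖y‖) := by
  have h0 : ‖t • v‖ ≤ ‖y‖ / 2 := by
    rw [norm_smul, Real.norm_eq_abs, abs_of_nonneg ht.1]
    have := norm_nonneg v
    nlinarith [ht.2]
  have h1 := norm_add_le y (t • v)
  have h2 := norm_sub_le y (t • v)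
  have h3 : ‖y‖ ≤ ‖y + t • v‖ + ‖t • v‖ := by
    have := norm_sub_le (y + t • v) (t • v)
    rwa [add_sub_cancel_right] at this
  have h4 : ‖y‖ ≤ ‖y - t • v‖ + ‖t • v‖ := by
    have := norm_add_le (y - t • v) (t • v)
    rwa [sub_add_cancel] at this
  refine ⟨⟨?_, ?_⟩, ?_, ?_⟩ <;> linarith

private theorem to7_phi_deriv (H : Orl δ ρ ψ g) {y v : G} (hy : y ≠ 0)
    (hv : ‖v‖ ≤ ‖y‖ / 2) {t : ℝ} (ht : t ∈ Icc (0 : ℝ) 1) :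
    HasDerivAt (fun t : ℝ => ψ ‖y + t • v‖ + ψ ‖y - t • v‖)
      (inner ℝ ((g ‖y + t • v‖ / ‖y + t • v‖) • (y + t • v) -
        (g ‖y - t • v‖ / ‖y - t • v‖) • (y - t • v)) v) t := by
  have hY : 0 < ‖y‖ := norm_pos_iff.2 hy
  obtain ⟨⟨b1, -⟩, b2, -⟩ := to7_bd hv ht
  have h1 : y + t • v ≠ 0 := norm_pos_iff.1 (by linarith)
  have h2 : y - t • v ≠ 0 := norm_pos_iff.1 (by linarith)
  have h3 : y + t • (-v) ≠ 0 := by rwa [smul_neg, ← sub_eq_add_neg]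
  have d1 := to7_psi_deriv H h1
  have d2 := to7_psi_deriv H h3
  have e1 : ∀ u : ℝ, y + u • (-v) = y - u • v := fun u => by rw [smul_neg, ← sub_eq_add_neg]
  simp only [e1] at d2
  have d3 := d1.add d2
  rw [inner_neg_right, ← sub_eq_add_neg, ← inner_sub_left] at d3
  exact d3

private theorem to7_phi (hδ0 : 0 < δ) (hδ : δ ≤ 1) (hρ : 1 ≤ ρ) (H : Orl δ ρ ψ g) {y v : G}
    (hy : y ≠ 0) (hv : ‖v‖ ≤ ‖y‖ / 2) {t : ℝ} (ht : t ∈ Ioo (0 : ℝ) 1) :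
    2 * t * (wo δ ρ g ‖y‖ * ‖v‖ ^ 2) ≤
      inner ℝ ((g ‖y + t • v‖ / ‖y + t • v‖) • (y + t • v) -
        (g ‖y - t • v‖ / ‖y - t • v‖) • (y - t • v)) v ∧
      inner ℝ ((g ‖y + t • v‖ / ‖y + t • v‖) • (y + t • v) -
        (g ‖y - t • v‖ / ‖y - t • v‖) • (y - t • v)) v ≤
      2 * t * (Lo δ ρ * wo δ ρ g ‖y‖ * ‖v‖ ^ 2) := by
  obtain ⟨⟨b1, b2⟩, b3, b4⟩ := to7_bd (y := y) hv (Ioo_subset_Icc_self ht)
  have h1 := to7_core2 hδ0 hδ hρ H hy b1 b2 b3 b4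
  have e1 : y + t • v - (y - t • v) = (2 * t) • v := by
    rw [two_mul, add_smul]
    abel
  have ht0 : 0 < t := ht.1
  have e2 : ‖(2 * t) • v‖ ^ 2 = (2 * t) ^ 2 * ‖v‖ ^ 2 := by
    rw [norm_smul, mul_pow, Real.norm_eq_abs, sq_abs]
  rw [e1, real_inner_smul_right, e2] at h1
  have h2 : 0 < 2 * t := by linarith
  constructor
  · refine le_of_mul_le_mul_left ?_ h2
    calc 2 * t * (2 * t * (wo δ ρ g ‖y‖ * ‖v‖ ^ 2)) =
        wo δ ρ g ‖y‖ * ((2 * t) ^ 2 * ‖v‖ ^ 2) := by ring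
      _ ≤ _ := h1.1
  · refine le_of_mul_le_mul_left ?_ h2
    calc _ ≤ _ := h1.2
      _ = 2 * t * (2 * t * (Lo δ ρ * wo δ ρ g ‖y‖ * ‖v‖ ^ 2)) := by ring

private theorem to7_sub_deriv {φ φ' : ℝ → ℝ} (c : ℝ)
    (h : ∀ t ∈ Icc (0 : ℝ) 1, HasDerivAt φ (φ' t) t)
    (h2 : ∀ t ∈ Ioo (0 : ℝ) 1, 2 * t * c ≤ φ' t) : c ≤ φ 1 - φ 0 := by
  have hd : ∀ t ∈ Icc (0 : ℝ) 1, HasDerivAt (fun t => φ t - t ^ 2 * c) (φ' t - 2 * t * c) t := by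
    intro t ht
    have h5 : HasDerivAt (fun t : ℝ => t ^ 2 * c) (2 * t * c) t := by
      have := (hasDerivAt_pow 2 t).mul_const c
      simpa using this
    exact (h t ht).sub h5
  have hm : MonotoneOn (fun t => φ t - t ^ 2 * c) (Icc (0 : ℝ) 1) := by
    refine monotoneOn_of_deriv_nonneg (convex_Icc 0 1)
      (fun t ht => (hd t ht).continuousAt.continuousWithinAt) ?_ ?_
    · rw [interior_Icc]
      intro t ht
      exact (hd t (Ioo_subset_Icc_self ht)).differentiableAt.differentiableWithinAt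
    · rw [interior_Icc]
      intro t ht
      rw [(hd t (Ioo_subset_Icc_self ht)).deriv]
      linarith [h2 t ht]
  have := hm (left_mem_Icc.2 zero_le_one) (right_mem_Icc.2 zero_le_one) zero_le_one
  simp only at this
  linarith

/-- `φ t = ψ ‖y + t v‖ + ψ ‖y - t v‖` on `[0, 1]` (`‖y ± t v‖ ≥ ‖y‖/2 > 0`),
`φ' t = ⟪∇(y + t v) - ∇(y - t v), v⟫ = (1/(2t)) ⟪.., 2 t v⟫ ∈ [2 t wo ‖v‖², 2 t Lo wo ‖v‖²]` (`t > 0`),
`∇ a = (g ‖a‖/‖a‖) a`; so `φ t - t² wo ‖v‖²` is non-decreasing (`monotoneOn_of_deriv_nonneg`). -/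
theorem orl_sd_low (hδ0 : 0 < δ) (hδ : δ ≤ 1) (hρ : 1 ≤ ρ) (H : Orl δ ρ ψ g) {y v : G}
    (hy : y ≠ 0) (hv : ‖v‖ ≤ ‖y‖ / 2) :
    wo δ ρ g ‖y‖ * ‖v‖ ^ 2 ≤ sd (fun y : G => ψ ‖y‖) y v := by
  have h := to7_sub_deriv (φ := fun t : ℝ => ψ ‖y + t • v‖ + ψ ‖y - t • v‖) _
    (fun t ht => to7_phi_deriv H hy hv ht) (fun t ht => (to7_phi hδ0 hδ hρ H hy hv ht).1)
  unfold sd
  simp only [one_smul, zero_smul, add_zero, sub_zero] at h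
  linarith

theorem orl_sd_up (hδ0 : 0 < δ) (hδ : δ ≤ 1) (hρ : 1 ≤ ρ) (H : Orl δ ρ ψ g) {y v : G}
    (hy : y ≠ 0) (hv : ‖v‖ ≤ ‖y‖ / 2) :
    sd (fun y : G => ψ ‖y‖) y v ≤ Lo δ ρ * wo δ ρ g ‖y‖ * ‖v‖ ^ 2 := by
  have h := to7_sub_deriv (φ := fun t : ℝ => -(ψ ‖y + t • v‖ + ψ ‖y - t • v‖))
    (-(Lo δ ρ * wo δ ρ g ‖y‖ * ‖v‖ ^ 2))
    (fun t ht => (to7_phi_deriv H hy hv ht).neg)
    (fun t ht => by
      have := (to7_phi hδ0 hδ hρ H hy hv ht).2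
      linarith)
  unfold sd
  simp only [one_smul, zero_smul, add_zero, sub_zero] at h
  linarith

end Pool.Agent.Lib.MP_8d00da_gt.h42t
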