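import Mathlib
import Pool.Agent.Lib.MP_8d00da_gt.h42t.TO7

namespace Pool.Agent.Lib.MP_8d00da_gt.h25
end Pool.Agent.Lib.MP_8d00da_gt.h25
namespace Pool.Agent.Lib.MP_8d00da_gt.h42s
end Pool.Agent.Lib.MP_8d00da_gt.h42s
namespace Pool.Agent.Lib.MP_8d00da_gt.h42o
end Pool.Agent.Lib.MP_8d00da_gt.h42o
namespace Pool.Agent.Lib.MP_8d00da_gt.h97r
end Pool.Agent.Lib.MP_8d00da_gt.h97r


/-!
# Orlicz sums: continuity, convexity, second differences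
-/

namespace Pool.Agent.Lib.MP_8d00da_gt.h42t

open MeasureTheory Set Filter
open Pool.Agent.Lib.MP_8d00da_gt.h25 Pool.Agent.Lib.MP_8d00da_gt.h42
open Pool.Agent.Lib.MP_8d00da_gt.h42s Pool.Agent.Lib.MP_8d00da_gt.h42o
open Pool.Agent.Lib.MP_8d00da_gt.h97r Pool.Agent.Lib.MP_8d00da_gt.h42r
open scoped Topology NNReal ENNReal

set_option linter.unusedSectionVars false

variable {F : Type*} [NormedAddCommGroup F] [InnerProductSpace ℝ F]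
    [FiniteDimensional ℝ F] [MeasurableSpace F] [BorelSpace F]

variable {G : Type*} [NormedAddCommGroup G] [InnerProductSpace ℝ G]
    [FiniteDimensional ℝ G] [MeasurableSpace G] [BorelSpace G]

variable {ι : Type*} [Fintype ι]

variable {δ ρ : ℝ} {ψ g : ι → ℝ → ℝ}

theorem sd_Vo (ψ : ι → ℝ → ℝ) (P : ι → F →L[ℝ] G) (b : ι → G) (v x u : F) :
    sd (Vo ψ P b v) x u = ∑ j, sd (fun y : G => ψ j ‖y‖) (P j x - b j) (P j u) := by
  have e1 : ∀ j, P j (x + u) - b j = P j x - b j + P j u := fun j => by rw [map_add]; abel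
  have e2 : ∀ j, P j (x - u) - b j = P j x - b j - P j u := fun j => by rw [map_sub]; abel
  simp only [sd, Vo, e1, e2, inner_add_right, inner_sub_right]
  have h3 : ∑ j, (ψ j ‖P j x - b j + P j u‖ + ψ j ‖P j x - b j - P j u‖ -
      2 * ψ j ‖P j x - b j‖) = ∑ j, ψ j ‖P j x - b j + P j u‖ +
      ∑ j, ψ j ‖P j x - b j - P j u‖ - 2 * ∑ j, ψ j ‖P j x - b j‖ := by
    rw [Finset.mul_sum, ← Finset.sum_add_distrib, ← Finset.sum_sub_distrib]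
  rw [h3]
  ring

theorem vo_cont (H : ∀ j, Orl δ ρ (ψ j) (g j)) (P : ι → F →L[ℝ] G) (b : ι → G) (v : F) :
    Continuous (Vo ψ P b v) := by
  unfold Vo
  refine Continuous.add (continuous_finsetSum _ fun j _ => ?_) (by fun_prop)
  exact (H j).cont.comp_continuous (by fun_prop) fun x => norm_nonneg _

private theorem to8_conv {ψ g : ℝ → ℝ} (hδ : 0 ≤ δ) (H : Orl δ ρ ψ g) (x y : G) {a c : ℝ}
    (ha : 0 ≤ a) (hc : 0 ≤ c) (hac : a + c = 1) :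
    ψ ‖a • x + c • y‖ ≤ a * ψ ‖x‖ + c * ψ ‖y‖ := by
  have h1 : ‖a • x + c • y‖ ≤ a * ‖x‖ + c * ‖y‖ := by
    calc ‖a • x + c • y‖ ≤ ‖a • x‖ + ‖c • y‖ := norm_add_le _ _
      _ = _ := by rw [norm_smul, norm_smul, Real.norm_of_nonneg ha, Real.norm_of_nonneg hc]
  have h2 : 0 ≤ a * ‖x‖ + c * ‖y‖ := by positivity
  calc ψ ‖a • x + c • y‖ ≤ ψ (a * ‖x‖ + c * ‖y‖) := H.psi_mono (norm_nonneg _) h2 h1
    _ ≤ a * ψ ‖x‖ + c * ψ ‖y‖ :=
      (H.psi_conv hδ).2 (norm_nonneg x) (norm_nonneg y) ha hc hac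

/-- `Orl.psi_conv`, `Orl.psi_mono`. -/
theorem vo_conv (hδ : 0 ≤ δ) (H : ∀ j, Orl δ ρ (ψ j) (g j)) (P : ι → F →L[ℝ] G) (b : ι → G)
    (v : F) : ConvexOn ℝ univ (Vo ψ P b v) := by
  refine ⟨convex_univ, fun x _ y _ a c ha hc hac => ?_⟩
  have hj : ∀ j, ψ j ‖P j (a • x + c • y) - b j‖ ≤
      a * ψ j ‖P j x - b j‖ + c * ψ j ‖P j y - b j‖ := by
    intro j
    have e : P j (a • x + c • y) - b j = a • (P j x - b j) + c • (P j y - b j) := by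
      obtain rfl : c = 1 - a := by linarith
      rw [map_add, map_smul, map_smul]
      module
    rw [e]
    exact to8_conv hδ (H j) _ _ ha hc hac
  have hs := Finset.sum_le_sum (s := Finset.univ) fun j _ => hj j
  rw [Finset.sum_add_distrib, ← Finset.mul_sum, ← Finset.mul_sum] at hs
  simp only [Vo, smul_eq_mul, inner_add_right, real_inner_smul_right]
  linarith

theorem orl_sd_nonneg {ψ g : ℝ → ℝ} (hδ : 0 ≤ δ) (H : Orl δ ρ ψ g) (y v : G) :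
    0 ≤ sd (fun y : G => ψ ‖y‖) y v := by
  have h := to8_conv hδ H (y + v) (y - v) (a := 1 / 2) (c := 1 / 2) (by norm_num) (by norm_num)
    (by norm_num)
  have e : (1 / 2 : ℝ) • (y + v) + (1 / 2 : ℝ) • (y - v) = y := by module
  rw [e] at h
  unfold sd
  linarith

/-- `r = ε/(2 (1 + ∑ ‖P_j‖))`: then `‖P_j u‖ ≤ ε/2 ≤ ‖P_j x - b_j‖/2`; `sd_Vo`, `orl_sd_low`. -/
theorem vo_low (hδ0 : 0 < δ) (hδ : δ ≤ 1) (hρ : 1 ≤ ρ) (H : ∀ j, Orl δ ρ (ψ j) (g j))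
    {P : ι → F →L[ℝ] G} {b : ι → G} (v : F) {ε : ℝ} (hε : 0 < ε)
    (hN : ∀ j x, ε ≤ ‖P j x - b j‖) :
    ∃ r : ℝ, 0 < r ∧ ∀ x u, ‖u‖ ≤ r →
      ∑ j, wo δ ρ (g j) ‖P j x - b j‖ * ‖P j u‖ ^ 2 ≤ sd (Vo ψ P b v) x u := by
  have hS : 0 ≤ ∑ j, ‖P j‖ := Finset.sum_nonneg fun j _ => norm_nonneg _
  refine ⟨ε / (2 * (1 + ∑ j, ‖P j‖)), by positivity, fun x u hu => ?_⟩
  rw [sd_Vo]
  refine Finset.sum_le_sum fun j _ => ?_
  have h1 : 0 < ‖P j x - b j‖ := lt_of_lt_of_le hε (hN j x)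
  refine orl_sd_low hδ0 hδ hρ (H j) (norm_pos_iff.1 h1) ?_
  have h2 : ‖P j‖ ≤ ∑ j, ‖P j‖ :=
    Finset.single_le_sum (f := fun j => ‖P j‖) (fun i _ => norm_nonneg _) (Finset.mem_univ j)
  calc ‖P j u‖ ≤ ‖P j‖ * ‖u‖ := (P j).le_opNorm u
    _ ≤ (1 + ∑ j, ‖P j‖) * (ε / (2 * (1 + ∑ j, ‖P j‖))) :=
      mul_le_mul (by linarith) hu (norm_nonneg _) (by positivity)
    _ = ε / 2 := by field_simp
    _ ≤ ‖P j x - b j‖ / 2 := by linarith [hN j x]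

end Pool.Agent.Lib.MP_8d00da_gt.h42t
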