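import Mathlib
import Pool.Agent.Lib.MP_8d00da_gt.h42t.TO8

namespace Pool.Agent.Lib.MP_8d00da_gt.h25
end Pool.Agent.Lib.MP_8d00da_gt.h25
namespace Pool.Agent.Lib.MP_8d00da_gt.h42s
end Pool.Agent.Lib.MP_8d00da_gt.h42s
namespace Pool.Agent.Lib.MP_8d00da_gt.h42o
end Pool.Agent.Lib.MP_8d00da_gt.h42o
namespace Pool.Agent.Lib.MP_8d00da_gt.h97r
end Pool.Agent.Lib.MP_8d00da_gt.h97r


/-!
# The data of Orlicz sums
-/

namespace Pool.Agent.Lib.MP_8d00da_gt.h42t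

open MeasureTheory Set Filter
open Pool.Agent.Lib.MP_8d00da_gt.h25 Pool.Agent.Lib.MP_8d00da_gt.h42
open Pool.Agent.Lib.MP_8d00da_gt.h42s Pool.Agent.Lib.MP_8d00da_gt.h42o
open Pool.Agent.Lib.MP_8d00da_gt.h97r Pool.Agent.Lib.MP_8d00da_gt.h42r
open scoped Topology NNReal ENNReal

set_option linter.unusedSectionVars false

variable {F : Type*} [NormedAddCommGroup F] [InnerProductSpace ℝ F]
    [FiniteDimensional ℝ F] [MeasurableSpace F] [BorelSpace F]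

variable {G : Type*} [NormedAddCommGroup G] [InnerProductSpace ℝ G]
    [FiniteDimensional ℝ G] [MeasurableSpace G] [BorelSpace G]

variable {ι : Type*} [Fintype ι]

variable {δ ρ : ℝ} {ψ g : ι → ℝ → ℝ}

private lemma to9_wo_cont {δ ρ : ℝ} {ψ g : ℝ → ℝ} (hδ0 : 0 < δ) (H : Orl δ ρ ψ g) {P : F →L[ℝ] G}
    {b : G} (hN : ∀ x, 0 < ‖P x - b‖) : Continuous fun x => wo δ ρ g ‖P x - b‖ := by
  have h1 : ContinuousOn (fun t : ℝ => wo δ ρ g t) (Ioi 0) := by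
    unfold wo
    exact continuousOn_const.mul ((H.gcont hδ0.le).div continuousOn_id fun t ht => ne_of_gt ht)
  exact h1.comp_continuous ((P.continuous.sub continuous_const).norm) fun x => hN x

private lemma to9_wo_pos {δ ρ : ℝ} {ψ g : ℝ → ℝ} (hδ0 : 0 < δ) (H : Orl δ ρ ψ g) {t : ℝ}
    (ht : 0 < t) : 0 < wo δ ρ g t := by
  have := H.pos t ht
  unfold wo ko
  positivity

private lemma to9_far {δ ρ : ℝ} {ψ g : ℝ → ℝ} (hδ0 : 0 < δ) (H : Orl δ ρ ψ g) {y w : G}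
    {s τ ε : ℝ} (hε : 0 < ε) (hy : ε ≤ ‖y‖) (hw : ‖w‖ = τ * s) (hs : 0 ≤ s) (hτ : 0 < τ)
    (hτ1 : τ ≤ 1) (hfar : ‖y‖ / 2 < τ * s) :
    sd (fun y : G => ψ ‖y‖) y w ≤ τ ^ 2 * (4 * s ^ 2 / ε * |g (3 * s)|) := by
  have hy0 : 0 < ‖y‖ := lt_of_lt_of_le hε hy
  have hτs : 0 < τ * s := by linarith
  have hs0 : 0 < s := pos_of_mul_pos_right hτs hτ.le
  have hmono := H.psi_mono
  have h1 : ψ ‖y + w‖ ≤ ψ (‖y‖ + τ * s) :=
    hmono (norm_nonneg _) (by show (0 : ℝ) ≤ ‖y‖ + τ * s; linarith)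
      ((norm_add_le _ _).trans (by rw [hw]))
  have h2 : ψ ‖y - w‖ ≤ ψ (‖y‖ + τ * s) :=
    hmono (norm_nonneg _) (by show (0 : ℝ) ≤ ‖y‖ + τ * s; linarith)
      ((norm_sub_le _ _).trans (by rw [hw]))
  obtain ⟨c, ⟨hc1, hc2⟩, hc⟩ := exists_hasDerivAt_eq_slope ψ g
    (show ‖y‖ < ‖y‖ + τ * s by linarith)
    (H.cont.mono fun t ht => hy0.le.trans ht.1) (fun t ht => H.der t (hy0.trans ht.1))
  have hc3 : ψ (‖y‖ + τ * s) - ψ ‖y‖ = τ * s * g c := by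
    rw [hc]
    field_simp
    ring
  have hc0 : 0 < c := hy0.trans hc1
  have hcs : c ≤ 3 * s := by
    have : τ * s ≤ 1 * s := mul_le_mul_of_nonneg_right hτ1 hs
    linarith
  have hgc : g c ≤ |g (3 * s)| := (H.mono hδ0.le hc0 hcs).trans (le_abs_self _)
  have hgc0 : 0 < g c := H.pos c hc0
  have hg0 : 0 ≤ |g (3 * s)| := abs_nonneg _
  have h3 : 1 ≤ 2 * (τ * s) / ε := by
    rw [le_div_iff₀ hε]
    linarith
  unfold sd
  calc ψ ‖y + w‖ + ψ ‖y - w‖ - 2 * ψ ‖y‖ ≤ 2 * (ψ (‖y‖ + τ * s) - ψ ‖y‖) := by linarith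
    _ = 2 * (τ * s * g c) := by rw [hc3]
    _ ≤ 2 * (τ * s * |g (3 * s)|) := by
        have := mul_le_mul_of_nonneg_left hgc hτs.le
        linarith
    _ = 1 * (2 * (τ * s * |g (3 * s)|)) := (one_mul _).symm
    _ ≤ (2 * (τ * s) / ε) * (2 * (τ * s * |g (3 * s)|)) :=
        mul_le_mul_of_nonneg_right h3 (by positivity)
    _ = _ := by field_simp; ring

/-- `wo` is positive and continuous on `(0, ∞)` (`Orl.gcont`), `‖P_j x - b_j‖ ≥ ε`, so the weights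
are continuous and positive. `low`: `vo_low`. `up`: `orl_sd_up` for `τ ‖P_j u‖ ≤ ε/2`. `dom`: if
`τ ‖P_j u‖ ≤ ‖y‖/2`, `y = P_j x - b_j`, `orl_sd_up`; otherwise `τ ‖P_j u‖ ≥ ε/2`, and
`sd ≤ 2 (ψ_j(‖y‖ + τ‖P_j u‖) - ψ_j ‖y‖) ≤ 2 τ ‖P_j u‖ g_j(3 τ ‖P_j u‖) ≤ 2 ‖P_j u‖ g_j(3 ‖P_j u‖)`
(mean value theorem, `Orl.mono`), and `1 ≤ τ² (2 ‖P_j u‖/ε)²`. -/
theorem rd_orl (hδ0 : 0 < δ) (hδ : δ ≤ 1) (hρ : 1 ≤ ρ) (H : ∀ j, Orl δ ρ (ψ j) (g j))
    {P : ι → F →L[ℝ] G} {b : ι → G} (v : F) {ε : ℝ} (hε : 0 < ε)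
    (hN : ∀ j x, ε ≤ ‖P j x - b j‖) :
    RD (Vo ψ P b v) P (fun j x => wo δ ρ (g j) ‖P j x - b j‖) (Lo δ ρ) := by
  have hN0 : ∀ j x, 0 < ‖P j x - b j‖ := fun j x => lt_of_lt_of_le hε (hN j x)
  have hyne : ∀ j x, P j x - b j ≠ 0 := fun j x => norm_pos_iff.1 (hN0 j x)
  have hLo : 0 < Lo δ ρ := by
    unfold Lo
    have : 0 < ρ := by linarith
    positivity
  have hω : ∀ j x, 0 < wo δ ρ (g j) ‖P j x - b j‖ := fun j x => to9_wo_pos hδ0 (H j) (hN0 j x)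
  refine ⟨vo_cont H P b v, vo_conv hδ0.le H P b v, hLo, fun j =>
    (to9_wo_cont hδ0 (H j) (hN0 j)).measurable, fun j x => (hω j x).le,
    fun j => Filter.Eventually.of_forall fun x => hω j x, ?_, ?_, ?_⟩
  · obtain ⟨r, hr0, hr⟩ := vo_low hδ0 hδ hρ H v hε hN
    refine Filter.Eventually.of_forall fun x δ' hδ' => ⟨r, hr0, fun u hu => ?_⟩
    have h1 := hr x u hu.le
    have h2 : 0 ≤ δ' * ‖u‖ ^ 2 := by positivity
    linarith
  · intro u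
    refine Filter.Eventually.of_forall fun x η hη => ?_
    have hS : 0 ≤ ∑ j, ‖P j u‖ := Finset.sum_nonneg fun j _ => norm_nonneg _
    refine ⟨ε / (2 * (1 + ∑ j, ‖P j u‖)), by positivity, fun τ hτ hττ => ?_⟩
    have hτS : τ * (1 + ∑ j, ‖P j u‖) < ε / 2 := by
      rw [lt_div_iff₀ (by positivity)] at hττ
      linarith
    rw [sd_Vo]
    have key : ∀ j, sd (fun y : G => ψ j ‖y‖) (P j x - b j) (P j (τ • u)) ≤
        τ ^ 2 * (Lo δ ρ * (wo δ ρ (g j) ‖P j x - b j‖ * ‖P j u‖ ^ 2)) := by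
      intro j
      have h1 : ‖P j u‖ ≤ ∑ i, ‖P i u‖ :=
        Finset.single_le_sum (fun i _ => norm_nonneg (P i u)) (Finset.mem_univ j)
      have h2 : ‖P j (τ • u)‖ = τ * ‖P j u‖ := by
        rw [map_smul, norm_smul, Real.norm_of_nonneg hτ.le]
      have h3 : ‖P j (τ • u)‖ ≤ ‖P j x - b j‖ / 2 := by
        rw [h2]
        have h4 : τ * ‖P j u‖ ≤ τ * (1 + ∑ i, ‖P i u‖) :=
          mul_le_mul_of_nonneg_left (by linarith) hτ.le
        have h5 := hN j x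
        linarith
      have h6 := orl_sd_up hδ0 hδ hρ (H j) (hyne j x) h3
      rw [h2] at h6
      calc _ ≤ _ := h6
        _ = _ := by ring
    calc ∑ j, sd (fun y : G => ψ j ‖y‖) (P j x - b j) (P j (τ • u))
        ≤ ∑ j, τ ^ 2 * (Lo δ ρ * (wo δ ρ (g j) ‖P j x - b j‖ * ‖P j u‖ ^ 2)) :=
          Finset.sum_le_sum fun j _ => key j
      _ = τ ^ 2 * (Lo δ ρ * ∑ j, wo δ ρ (g j) ‖P j x - b j‖ * ‖P j u‖ ^ 2) := by
          rw [← Finset.mul_sum, ← Finset.mul_sum]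
      _ ≤ _ := by
          refine mul_le_mul_of_nonneg_left ?_ (by positivity)
          linarith
  · intro u
    refine ⟨∑ j, (Lo δ ρ * ‖P j u‖ ^ 2 + 4 * ‖P j u‖ ^ 2 / ε * |g j (3 * ‖P j u‖)|),
      Finset.sum_nonneg fun j _ => by positivity, ?_⟩
    refine Filter.Eventually.of_forall fun x τ hτ hτ1 => ?_
    rw [sd_Vo, Finset.sum_mul, Finset.mul_sum]
    refine Finset.sum_le_sum fun j _ => ?_
    have h2 : ‖P j (τ • u)‖ = τ * ‖P j u‖ := by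
      rw [map_smul, norm_smul, Real.norm_of_nonneg hτ.le]
    have hsum0 : 0 ≤ ∑ i, wo δ ρ (g i) ‖P i x - b i‖ := Finset.sum_nonneg fun i _ => (hω i x).le
    have hj : wo δ ρ (g j) ‖P j x - b j‖ ≤ ∑ i, wo δ ρ (g i) ‖P i x - b i‖ :=
      Finset.single_le_sum (f := fun i => wo δ ρ (g i) ‖P i x - b i‖)
        (fun i _ => (hω i x).le) (Finset.mem_univ j)
    have hx2 : 0 ≤ ‖x‖ ^ 2 := by positivity
    set M : ℝ := 1 + ‖x‖ ^ 2 + ∑ i, wo δ ρ (g i) ‖P i x - b i‖ with hM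
    have hM1 : 1 ≤ M := by linarith
    have hMj : wo δ ρ (g j) ‖P j x - b j‖ ≤ M := by linarith
    have hc1 : 0 ≤ Lo δ ρ * ‖P j u‖ ^ 2 := by positivity
    have hc2 : 0 ≤ 4 * ‖P j u‖ ^ 2 / ε * |g j (3 * ‖P j u‖)| := by positivity
    rcases le_or_gt (τ * ‖P j u‖) (‖P j x - b j‖ / 2) with hle | hgt
    · have h6 := orl_sd_up hδ0 hδ hρ (H j) (hyne j x) (h2.le.trans hle)
      rw [h2] at h6
      calc _ ≤ _ := h6
        _ = τ ^ 2 * (Lo δ ρ * ‖P j u‖ ^ 2 * wo δ ρ (g j) ‖P j x - b j‖) := by ring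
        _ ≤ τ ^ 2 * (Lo δ ρ * ‖P j u‖ ^ 2 * M) := by
            refine mul_le_mul_of_nonneg_left ?_ (by positivity)
            exact mul_le_mul_of_nonneg_left hMj hc1
        _ ≤ _ := by
            refine mul_le_mul_of_nonneg_left ?_ (by positivity)
            exact mul_le_mul_of_nonneg_right (by linarith) (by linarith)
    · have h6 := to9_far hδ0 (H j) hε (hN j x) h2 (norm_nonneg _) hτ hτ1 hgt
      calc _ ≤ _ := h6
        _ ≤ _ := by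
            refine mul_le_mul_of_nonneg_left ?_ (by positivity)
            calc 4 * ‖P j u‖ ^ 2 / ε * |g j (3 * ‖P j u‖)|
                = (4 * ‖P j u‖ ^ 2 / ε * |g j (3 * ‖P j u‖)|) * 1 := (mul_one _).symm
              _ ≤ (4 * ‖P j u‖ ^ 2 / ε * |g j (3 * ‖P j u‖)|) * M :=
                  mul_le_mul_of_nonneg_left hM1 hc2
              _ ≤ _ := mul_le_mul_of_nonneg_right (by linarith) (by linarith)

end Pool.Agent.Lib.MP_8d00da_gt.h42t
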