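import Mathlib
import Pool.Agent.Lib.MP_8d00da_gt.h42t.TG3
import Pool.Agent.Lib.MP_8d00da_gt.h42t.TO9
import Pool.Agent.Lib.MP_8d00da_gt.h42t.TD6
import Pool.Agent.Lib.MP_8d00da_gt.h42t.TE2
import Pool.Agent.Lib.MP_8d00da_gt.h42t.TG0
import Pool.Agent.Lib.MP_8d00da_gt.h42t.TD5
import Pool.Agent.Lib.MP_8d00da_gt.h42t.TF10
import Pool.Agent.Lib.MP_8d00da_gt.h42t.TO6

/-!
# Regularised bodies, Orlicz sums
-/

namespace Pool.Agent.Lib.MP_8d00da_gt.h42t

open MeasureTheory Set Filter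
open Pool.Agent.Lib.MP_8d00da_gt.h25 Pool.Agent.Lib.MP_8d00da_gt.h42
open Pool.Agent.Lib.MP_8d00da_gt.h42s Pool.Agent.Lib.MP_8d00da_gt.h42o
open Pool.Agent.Lib.MP_8d00da_gt.h97r Pool.Agent.Lib.MP_8d00da_gt.h42r
open scoped Topology NNReal ENNReal

set_option linter.unusedSectionVars false

variable {F : Type*} [NormedAddCommGroup F] [InnerProductSpace ℝ F]
    [FiniteDimensional ℝ F] [MeasurableSpace F] [BorelSpace F]

variable {G : Type*} [NormedAddCommGroup G] [InnerProductSpace ℝ G]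
    [FiniteDimensional ℝ G] [MeasurableSpace G] [BorelSpace G]

variable {ι : Type*} [Fintype ι]

variable {q : ℕ}

/-- The constant. -/
noncomputable def cO (q : ℕ) (Λ K δ : ℝ) : ℝ :=
  8 * ((q : ℝ) + 2) * Λ * (cU q K * cJ q K + 6 * ((q : ℝ) + 2) / δ)

/-- The function `pp`. -/
private theorem to10_pp {V : F → ℝ} (hVc : Continuous V) {L : ℝ}
    (hbd : Bornology.IsBounded {x | V x < L}) (hne : ∃ x, V x < L) :
    Integrable (pp V L) ∧ 0 < ∫ x, pp V L x ∧ ∀ x, pp V L x * ib V L x = pp V L x := by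
  have hac : Continuous (pp V L) := pp_cont hVc L
  have hsupp : Function.support (pp V L) ⊆ {x | V x < L} := by
    intro x hx
    by_contra h
    simp only [mem_ofPred_eq, not_lt] at h
    exact hx (by unfold h42r.pp; exact max_eq_right (by linarith))
  have hcs : HasCompactSupport (pp V L) :=
    HasCompactSupport.of_support_subset_isCompact hbd.isCompact_closure
      (hsupp.trans subset_closure)
  have hai : Integrable (pp V L) := hac.integrable_of_hasCompactSupport hcs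
  have hApos : 0 < ∫ x, pp V L x := by
    obtain ⟨x0, hx0⟩ := hne
    refine hac.integral_pos_of_hasCompactSupport_nonneg_nonzero hcs (fun x => pp_nonneg V L x)
      (x := x0) ?_
    unfold h42r.pp
    rw [max_eq_left (by linarith)]
    linarith
  refine ⟨hai, hApos, fun x => ?_⟩
  by_cases hx : V x < L
  · have : ib V L x = 1 := Set.indicator_of_mem (show x ∈ {x | V x < L} from hx) _
    rw [this, mul_one]
  · have : pp V L x = 0 := by
      unfold h42r.pp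
      exact max_eq_right (by linarith [not_lt.1 hx])
    rw [this, zero_mul]

/-- Integrability of a continuous weight on the body. -/
private theorem to10_int {V : F → ℝ} {L : ℝ}
    (hbd : Bornology.IsBounded {x | V x < L}) {w : F → ℝ} (hw : Continuous w)
    (hi : Integrable (ib V L)) : Integrable fun x => ib V L x * w x := by
  obtain ⟨M, hM⟩ := (hbd.isCompact_closure.image hw.norm).bddAbove
  refine (hi.norm.mul_const M).mono' ((hi.aestronglyMeasurable).mul hw.aestronglyMeasurable)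
    (Eventually.of_forall fun x => ?_)
  rw [norm_mul]
  by_cases hx : V x < L
  · exact mul_le_mul_of_nonneg_left (hM ⟨x, subset_closure hx, rfl⟩) (norm_nonneg _)
  · have h0 : ib V L x = 0 := Set.indicator_of_notMem (s := {x | V x < L}) hx _
    rw [h0, norm_zero, zero_mul, zero_mul]

/-- Bodies; compare `reg_body` (`TG5.lean`). `V = Vo ψ P b v`, `ρ = (q+2)/2 + 1`,
`ω_j x = wo δ ρ (g j) ‖P_j x - b_j‖`, `h = ib V L`, `A = pp V L`, `Λ = Lo δ ρ`, `H = rd_orl`,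
`WG` by `Orl.wg`. `pd_body` (with `q + 1`, `ω`, `vo_low`) gives `PD (q+1) h A P (ω/(2 (q+2))) ..`;
`ω_j` is bounded on the body (continuous, `‖P_j x - b_j‖ ≥ ε`). `γ_j = Λ (∫ A ω_j h)/(∫ A h)²`
(`A h = A = pp`); `cr_body` divided by `(∫ pp)²` is `hCR`; `oh_scale` and `core_orl` give
`γ_j J_j ≤ 2 (q+2) Λ cU cJ Z^(q+1)`; `ridge_S`, `qj_of_qjs`; the constant `2 · 2 (q+2) Λ cU cJ`
is at most `cO` (`QJ C → QJ C'` for `C ≤ C'`). -/
theorem reg_body_o {ψ g : ι → ℝ → ℝ} {P : ι → F →L[ℝ] G} {δ K : ℝ} (hδ : 0 < δ)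
    (hδ1 : δ ≤ 1 / 2) (H : ∀ j, Orl δ (((q : ℝ) + 2) / 2 + 1) (ψ j) (g j))
    (hP : ∀ j, P j ≠ 0) {b : ι → G} (v : F) {ε κ : ℝ} (hε : 0 < ε)
    (hN : ∀ j x, ε ≤ ‖P j x - b j‖) (hκ : 0 < κ)
    (hs : ∀ x u, κ * ‖u‖ ^ 2 ≤ sd (Vo ψ P b v) x u) {L : ℝ}
    (hbd : Bornology.IsBounded {x | Vo ψ P b v x < L}) (hne : ∃ x, Vo ψ P b v x < L)
    (hK : 4 / δ ≤ K) :
    QJ (cO q (Lo δ (((q : ℝ) + 2) / 2 + 1)) K δ) (ib (Vo ψ P b v) L) := by
  obtain ⟨ρ, hρ⟩ : ∃ ρ : ℝ, ρ = ((q : ℝ) + 2) / 2 + 1 := ⟨_, rfl⟩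
  have hq0 : (0 : ℝ) ≤ q := Nat.cast_nonneg q
  have hρ1 : 1 ≤ ρ := by rw [hρ]; linarith
  have hδ2 : δ ≤ 1 := by linarith
  have hwg : ∀ j, WG q δ (wo δ ρ (g j)) := fun j => by
    rw [hρ]
    exact (H j).wg hδ
  rw [← hρ] at H ⊢
  have HR : RD (Vo ψ P b v) P (fun j x => wo δ ρ (g j) ‖P j x - b j‖) (Lo δ ρ) :=
    rd_orl hδ hδ2 hρ1 H v hε hN
  have hΛ : 0 < Lo δ ρ := HR.Λpos
  obtain ⟨hL, hpos⟩ := lcd_ib HR.conv HR.cont hbd hne
  obtain ⟨r, hr, hlow⟩ := vo_low hδ hδ2 hρ1 H v hε hN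
  have hωp : ∀ j x, 0 < wo δ ρ (g j) ‖P j x - b j‖ := fun j x =>
    (hwg j).pos _ (lt_of_lt_of_le hε (hN j x))
  have hωc : ∀ j, Continuous fun x => wo δ ρ (g j) ‖P j x - b j‖ := fun j =>
    (hwg j).cont.comp_continuous (((P j).continuous.sub continuous_const).norm)
      fun x => lt_of_lt_of_le hε (hN j x)
  have hωi : ∀ j, Integrable fun x => ib (Vo ψ P b v) L x * wo δ ρ (g j) ‖P j x - b j‖ :=
    fun j => to10_int hbd (hωc j) hL.int
  obtain ⟨Ab, Hpd⟩ := pd_body (q := q + 1) HR.conv HR.cont hbd hκ hr hs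
    (ω := fun j x => wo δ ρ (g j) ‖P j x - b j‖) HR.ωm
    (fun j x => (hωp j x).le) (fun j x _ => hωp j x) hωi hlow
  obtain ⟨hai, hApos, hAh⟩ := to10_pp HR.cont hbd hne
  have hcore := fun j => core_orl (q := q) hL (pp_cont HR.cont L).measurable
    (fun x => pp_nonneg _ L x) Hpd.Ab Hpd.Apos (acon_pp HR.conv L) hpos (hP j) hε (hN j)
    hδ hδ1 (hwg j) hK
  obtain ⟨m, hm⟩ : ∃ m : ℝ, m = 2 * (((q + 1 : ℕ) : ℝ) + 1) := ⟨_, rfl⟩
  have hm0 : 0 < m := by rw [hm]; positivity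
  have hsc : ∀ j y, P0 (q + 1) (ib (Vo ψ P b v) L) y *
      P2 (q + 1) (ib (Vo ψ P b v) L) (pp (Vo ψ P b v) L) y /
        oh (q + 1) (ib (Vo ψ P b v) L)
          (fun x => wo δ ρ (g j) ‖P j x - b j‖ / (2 * (((q + 1 : ℕ) : ℝ) + 1))) y =
      m * (P0 (q + 1) (ib (Vo ψ P b v) L) y *
        P2 (q + 1) (ib (Vo ψ P b v) L) (pp (Vo ψ P b v) L) y /
        oh (q + 1) (ib (Vo ψ P b v) L) (fun x => wo δ ρ (g j) ‖P j x - b j‖) y) := by
    intro j y
    rw [← hm, oh_scale hm0, div_div_eq_mul_div, mul_comm _ m, mul_div_assoc]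
  have hωA : ∀ j, Integrable fun x => pp (Vo ψ P b v) L x * wo δ ρ (g j) ‖P j x - b j‖ :=
    fun j => by
    refine ((hωi j).bdd_mul (c := Ab) (pp_cont HR.cont L).aestronglyMeasurable
      (Eventually.of_forall fun x => ?_)).congr (Eventually.of_forall fun x => ?_)
    · rw [Real.norm_of_nonneg (pp_nonneg _ L x)]
      exact Hpd.Ab x
    · simp only
      rw [← mul_assoc, hAh]
  obtain ⟨S, hS⟩ : ∃ S : ℝ, S = ∫ x, pp (Vo ψ P b v) L x := ⟨_, rfl⟩
  rw [← hS] at hApos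
  obtain ⟨W, hW⟩ : ∃ W : ι → ℝ, W = fun j =>
    ∫ x, pp (Vo ψ P b v) L x * wo δ ρ (g j) ‖P j x - b j‖ := ⟨_, rfl⟩
  have hW0 : ∀ j, 0 ≤ W j := fun j => by
    rw [hW]
    exact integral_nonneg fun x => mul_nonneg (pp_nonneg _ L x) (hωp j x).le
  have hK0 : 0 ≤ K := by
    have : 0 < 4 / δ := by positivity
    linarith
  have hcK : ∀ k, 0 ≤ cK k := fun k => by unfold cK; positivity
  have hcU : 0 ≤ cU q K := by
    unfold cU
    have := hcK (q + 2)
    positivity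
  have hcJ : 0 ≤ cJ q K := by
    unfold cJ
    positivity
  have hQJS : QJS (2 * (Lo δ ρ * (m * (cU q K * cJ q K)))) (ib (Vo ψ P b v) L) := by
    refine ridge_S Hpd (hL.mom 2) hpos (C1 := Lo δ ρ * (m * (cU q K * cJ q K)))
      (by positivity) (γ := fun j => Lo δ ρ * W j / S ^ 2)
      (fun j => div_nonneg (mul_nonneg hΛ.le (hW0 j)) (sq_nonneg S)) (fun j => ?_) (fun j => ?_)
      (fun θ u => ?_)
    · exact ((hcore j).1.const_mul m).congr (Eventually.of_forall fun y => (hsc j y).symm)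
    · simp only [hsc]
      rw [integral_const_mul]
      have h1 := (hcore j).2
      have e1 : ∫ x, pp (Vo ψ P b v) L x * wo δ ρ (g j) ‖P j x - b j‖ *
          ib (Vo ψ P b v) L x = W j := by
        rw [hW]
        refine integral_congr_ae (Eventually.of_forall fun x => ?_)
        simp only
        rw [mul_right_comm, hAh]
      have e2 : ∫ x, pp (Vo ψ P b v) L x * ib (Vo ψ P b v) L x = S := by
        rw [hS]
        exact integral_congr_ae (Eventually.of_forall fun x => hAh x)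
      rw [e1, e2] at h1
      obtain ⟨J, hJ⟩ : ∃ J : ℝ, J = ∫ y, P0 (q + 1) (ib (Vo ψ P b v) L) y *
        P2 (q + 1) (ib (Vo ψ P b v) L) (pp (Vo ψ P b v) L) y /
        oh (q + 1) (ib (Vo ψ P b v) L) (fun x => wo δ ρ (g j) ‖P j x - b j‖) y :=
        ⟨_, rfl⟩
      rw [← hJ] at h1 ⊢
      have h2 : 0 ≤ Lo δ ρ * m / S ^ 2 := by positivity
      have h3 := mul_le_mul_of_nonneg_left h1 h2
      have hS' := hApos.ne'
      calc Lo δ ρ * W j / S ^ 2 * (m * J) = Lo δ ρ * m / S ^ 2 * (W j * J) := by ring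
        _ ≤ _ := h3
        _ = _ := by
          field_simp
    · have h1 := cr_body HR hbd hne hωA θ u
      rw [← hS] at h1
      have e1 : ∑ j, Lo δ ρ * W j / S ^ 2 * ‖P j u‖ ^ 2 =
          (Lo δ ρ * ∑ j, (∫ x, pp (Vo ψ P b v) L x * wo δ ρ (g j) ‖P j x - b j‖) *
            ‖P j u‖ ^ 2) / S ^ 2 := by
        rw [Finset.mul_sum, Finset.sum_div]
        refine Finset.sum_congr rfl fun j _ => ?_
        rw [hW]
        ring
      rw [e1, ← mul_div_assoc, le_div_iff₀ (pow_pos hApos 2), ← mul_pow]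
      exact h1
  have hQJ := qj_of_qjs hL.meas hL.h0 hL.int (hL.mom 2) hQJS
  intro f hf
  refine (hQJ f hf).trans (mul_le_mul_of_nonneg_right ?_ (integral_nonneg fun y =>
    mul_nonneg (integral_nonneg fun x => mul_nonneg (sq_nonneg _) (hL.h0 x)) (hL.h0 y)))
  unfold cO
  have h1 : 0 ≤ 8 * ((q : ℝ) + 2) * (Lo δ ρ) * (6 * ((q : ℝ) + 2) / δ) := by positivity
  have h3 : 0 ≤ 4 * ((q : ℝ) + 2) * Lo δ ρ * (cU q K * cJ q K) := by positivity
  have h2 : 2 * (Lo δ ρ * (m * (cU q K * cJ q K))) =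
      4 * ((q : ℝ) + 2) * Lo δ ρ * (cU q K * cJ q K) := by
    rw [hm]
    push_cast
    ring
  rw [h2]
  linarith

end Pool.Agent.Lib.MP_8d00da_gt.h42t
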