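import Mathlib
import Pool.Agent.Lib.MP_8d00da_gt.h42t.TO10
import Pool.Agent.Lib.MP_8d00da_gt.h42t.TG6

/-!
# Regularised densities, Orlicz sums
-/

namespace Pool.Agent.Lib.MP_8d00da_gt.h42t

open MeasureTheory Set Filter
open Pool.Agent.Lib.MP_8d00da_gt.h25 Pool.Agent.Lib.MP_8d00da_gt.h42
open Pool.Agent.Lib.MP_8d00da_gt.h42s Pool.Agent.Lib.MP_8d00da_gt.h42o
open Pool.Agent.Lib.MP_8d00da_gt.h97r Pool.Agent.Lib.MP_8d00da_gt.h42r
open scoped Topology NNReal ENNReal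

set_option linter.unusedSectionVars false

variable {F : Type*} [NormedAddCommGroup F] [InnerProductSpace ℝ F]
    [FiniteDimensional ℝ F] [MeasurableSpace F] [BorelSpace F]

variable {G : Type*} [NormedAddCommGroup G] [InnerProductSpace ℝ G]
    [FiniteDimensional ℝ G] [MeasurableSpace G] [BorelSpace G]

variable {ι : Type*} [Fintype ι]

variable {q : ℕ}

private lemma to11_mono {C C' : ℝ} {h : F → ℝ} (h0 : ∀ x, 0 ≤ h x) (hC : C ≤ C') (H : QJ C h) :
    QJ C' h := by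
  intro f hf
  refine (H f hf).trans (mul_le_mul_of_nonneg_right hC ?_)
  exact integral_nonneg fun y => mul_nonneg
    (integral_nonneg fun x => mul_nonneg (sq_nonneg _) (h0 x)) (h0 y)

/-- The assembly for an abstract density. -/
private lemma to11_main {κ' : Type*} [Fintype κ'] {h : F → ℝ} {P : κ' → F →L[ℝ] G}
    {ω : κ' → F → ℝ} {Λ κ0 r : ℝ} (H : RE h P ω Λ) (L : LCD h) (hpos : 0 < ∫ x, h x)
    (hκ : 0 < κ0) (hr : 0 < r)
    (hs : ∀ x u, h (x + u) * h (x - u) ≤ h x ^ 2 * Real.exp (-(κ0 * ‖u‖ ^ 2)))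
    (hωp : ∀ j x, 0 < h x → 0 < ω j x) (hωi : ∀ j, Integrable fun x => h x * ω j x)
    (hlow : ∀ x u, ‖u‖ ≤ r →
      h (x + u) * h (x - u) ≤ h x ^ 2 * Real.exp (-∑ j, ω j x / 2 * ‖P j u‖ ^ 2))
    {C : ℝ} (hC : 0 ≤ C)
    (hcore : ∀ j, (Integrable fun y =>
        P0 (q + 1) h y * P2 (q + 1) h (fun _ => 1) y / oh (q + 1) h (ω j) y) ∧
      (∫ x, 1 * ω j x * h x) *
        (∫ y, P0 (q + 1) h y * P2 (q + 1) h (fun _ => 1) y / oh (q + 1) h (ω j) y) ≤
        C * ((∫ x, 1 * h x) ^ 2 * (∫ x, h x) ^ (q + 1))) :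
    QJ (2 * (4 * Λ * C)) h := by
  obtain ⟨Hb, hb⟩ := L.hb
  have HP := pd_dens (q := q + 1) L.meas L.h0 hb L.int hκ hr hs (P := P)
    (ω := fun j x => ω j x / 2) (fun j => (H.ωm j).div_const 2)
    (fun j x => div_nonneg (H.ω0 j x) (by norm_num)) (fun j x hx => half_pos (hωp j x hx))
    (fun j => by
      have := (hωi j).div_const 2
      refine this.congr (Eventually.of_forall fun x => ?_)
      simp only
      ring) hlow
  have hoh : ∀ j y, oh (q + 1) h (fun x => ω j x / 2 / 2) y = oh (q + 1) h (ω j) y / 2 / 2 := by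
    intro j y
    have e1 := oh_scale (q := q + 1) (h := h) (ω := fun x => ω j x / 2) (c := 2) (by norm_num) y
    have e2 := oh_scale (q := q + 1) (h := h) (ω := ω j) (c := 2) (by norm_num) y
    rw [e1, e2]
  have hquo : ∀ j y, P0 (q + 1) h y * P2 (q + 1) h (fun _ => 1) y /
      oh (q + 1) h (fun x => ω j x / 2 / 2) y =
      4 * (P0 (q + 1) h y * P2 (q + 1) h (fun _ => 1) y / oh (q + 1) h (ω j) y) := by
    intro j y
    rw [hoh, div_div, div_div_eq_mul_div]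
    ring
  set Z : ℝ := ∫ x, h x with hZ
  have hZ2 : 0 < Z ^ 2 := by positivity
  have hm0 : ∀ j, 0 ≤ ∫ x, h x * ω j x := fun j =>
    integral_nonneg fun x => mul_nonneg (L.h0 x) (H.ω0 j x)
  refine qj_of_qjs L.meas L.h0 L.int (L.mom 2) ?_
  refine ridge_S HP (L.mom 2) hpos (C1 := 4 * Λ * C)
    (mul_nonneg (mul_nonneg (by norm_num) H.Λpos.le) hC)
    (γ := fun j => Λ * (∫ x, h x * ω j x) / Z ^ 2)
    (fun j => div_nonneg (mul_nonneg H.Λpos.le (hm0 j)) hZ2.le) ?_ ?_ ?_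
  · intro j
    simp only [hquo]
    exact (hcore j).1.const_mul 4
  · intro j
    simp only [hquo]
    rw [integral_const_mul]
    have h1 := (hcore j).2
    set J : ℝ := ∫ y, P0 (q + 1) h y * P2 (q + 1) h (fun _ => 1) y / oh (q + 1) h (ω j) y with hJ
    have e1 : (∫ x, 1 * ω j x * h x) = ∫ x, h x * ω j x := by
      refine integral_congr_ae (Eventually.of_forall fun x => ?_)
      simp only
      ring
    have e2 : (∫ x, 1 * h x) = Z := by
      simp only [one_mul, hZ]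
    rw [e1, e2] at h1
    have e3 : Λ * (∫ x, h x * ω j x) / Z ^ 2 * (4 * J) =
        4 * Λ * ((∫ x, h x * ω j x) * J) / Z ^ 2 := by ring
    have e4 : 4 * Λ * C * Z ^ (q + 1) = 4 * Λ * (C * (Z ^ 2 * Z ^ (q + 1))) / Z ^ 2 := by
      field_simp
    rw [e3, e4]
    exact div_le_div_of_nonneg_right
      (mul_le_mul_of_nonneg_left h1 (mul_nonneg (by norm_num) H.Λpos.le)) hZ2.le
  · intro θ u
    have h1 := cr_dens H L.int (L.mom 2) hωi θ u
    have e1 : ∑ j, Λ * (∫ x, h x * ω j x) / Z ^ 2 * ‖P j u‖ ^ 2 =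
        Λ * (∑ j, (∫ x, h x * ω j x) * ‖P j u‖ ^ 2) / Z ^ 2 := by
      rw [Finset.mul_sum, Finset.sum_div]
      exact Finset.sum_congr rfl fun j _ => by ring
    rw [e1, ← mul_div_assoc, le_div_iff₀ hZ2, ← mul_pow]
    exact h1

private lemma to11_lo {δ ρ : ℝ} (hδ : 0 < δ) (hδ1 : δ ≤ 1) (hρ : 1 ≤ ρ) : 1 ≤ Lo δ ρ := by
  unfold Lo
  rw [le_div_iff₀ hδ]
  have h1 : (1 : ℝ) ≤ 12 ^ ρ := Real.one_le_rpow (by norm_num) (by linarith)
  have h2 : 4 * 1 ≤ 4 * ρ := by linarith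
  have h3 : (4 * 1) * 1 ≤ 4 * ρ * 12 ^ ρ := mul_le_mul h2 h1 (by norm_num) (by linarith)
  linarith

/-- The data `RE` of the densities. -/
private lemma to11_re {κ' : Type*} [Fintype κ'] {ψ g : ι → ℝ → ℝ} {P : ι → F →L[ℝ] G}
    {δ ρ : ℝ} (hδ : 0 < δ) (hδ1 : δ ≤ 1) (hρ : 1 ≤ ρ) (H : ∀ j, Orl δ ρ (ψ j) (g j))
    {b : ι → G} (v : F) {ε : ℝ} (hε : 0 < ε) (hN : ∀ j x, ε ≤ ‖P j x - b j‖)
    {a : κ' → F} (ha : ∀ k, a k ≠ 0) (d : κ' → ℝ) {β : κ' → ℝ} (hβ : ∀ k, 1 + δ ≤ β k) {e : G}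
    (he : ‖e‖ = 1) {A : ℝ} (hA : 0 < A) :
    RE (fun x => A * (Real.exp (-Vo ψ P b v x) * bar a d β x))
      (Sum.elim P fun k => (innerSL ℝ (a k)).smulRight e)
      (Sum.elim (fun j x => wo δ ρ (g j) ‖P j x - b j‖)
        fun k x => β k * ((inner ℝ (a k) x - d k) ^ 2)⁻¹) (Lo δ ρ) :=
  re_smul (re_mul (re_exp (rd_orl hδ hδ1 hρ H v hε hN))
    (re_bar ha d (fun k => by linarith [hβ k]) he (to11_lo hδ hδ1 hρ))) hA

private lemma to11_cU {K : ℝ} : 0 ≤ cU q K := by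
  have : 0 ≤ cK (q + 2) := by
    unfold cK
    positivity
  unfold cU
  positivity

private lemma to11_cJ {K : ℝ} (hK : 0 ≤ K) : 0 ≤ cJ q K := by
  unfold cJ
  positivity

/-- Densities; compare `reg_dens` (`TG6.lean`). `h = A exp (-V) bar`, `V = Vo ψ P b v`,
`ρ = (q+2)/2 + 1`, weights `Sum.elim (wo δ ρ (g j) ‖P_j x - b_j‖) (β_k (⟪a_k, ·⟫ - d_k)^{-2})`, maps
`Sum.elim P (fun k => (innerSL ℝ (a k)).smulRight e)`. `pd_dens` (with `q + 1`, these weights,
`dens_low`, `vo_low`) gives `PD (q+1) h 1 _ (ω/2) (κ/2) ..`. `LCD h` by `lcd_of_int`.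
`Λ = Lo δ ρ ≥ 1`, `RE` by `re_smul (re_mul (re_exp rd_orl) re_bar)`, `cr_dens`. Orlicz weights:
`core_orl` with `A = 1` (`acon_one`); barrier weights: `A2_bar` (`k` = the product of the other
factors; `cB β ≤ 6/δ`) with `A2.real`, then `core_plain`. `ridge_S`, `qj_of_qjs`: constant
`2 · 2 Λ (cU cJ + 6 (q+2)/δ) ≤ cO`. -/
theorem reg_dens_o {κ' : Type*} [Fintype κ'] {ψ g : ι → ℝ → ℝ} {P : ι → F →L[ℝ] G} {δ K : ℝ}
    (hδ : 0 < δ) (hδ1 : δ ≤ 1 / 2) (H : ∀ j, Orl δ (((q : ℝ) + 2) / 2 + 1) (ψ j) (g j))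
    (hP : ∀ j, P j ≠ 0) {b : ι → G} (v : F) {ε κ : ℝ} (hε : 0 < ε)
    (hN : ∀ j x, ε ≤ ‖P j x - b j‖) (hκ : 0 < κ)
    (hs : ∀ x u, κ * ‖u‖ ^ 2 ≤ sd (Vo ψ P b v) x u) {a : κ' → F} (ha : ∀ k, a k ≠ 0)
    (d : κ' → ℝ) {β : κ' → ℝ} (hβ : ∀ k, 1 + δ ≤ β k) {e : G} (he : ‖e‖ = 1) {A : ℝ} (hA : 0 < A)
    (hi : Integrable fun x => A * (Real.exp (-Vo ψ P b v x) * bar a d β x))
    (hpos : 0 < ∫ x, A * (Real.exp (-Vo ψ P b v x) * bar a d β x))
    (hK : 4 / δ ≤ K) :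
    QJ (cO q (Lo δ (((q : ℝ) + 2) / 2 + 1)) K δ)
      fun x => A * (Real.exp (-Vo ψ P b v x) * bar a d β x) := by
  classical
  have hδ2 : δ ≤ 1 := by linarith
  have hρ1 : (1 : ℝ) ≤ ((q : ℝ) + 2) / 2 + 1 := by
    have : (0 : ℝ) ≤ q := Nat.cast_nonneg q
    linarith
  have hΛ1 := to11_lo hδ hδ2 hρ1
  have H' := to11_re hδ hδ2 hρ1 H v hε hN ha d hβ he hA
  set ρ : ℝ := ((q : ℝ) + 2) / 2 + 1 with hρ
  set h : F → ℝ := fun x => A * (Real.exp (-Vo ψ P b v x) * bar a d β x) with hh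
  have L : LCD h := lcd_of_int H'.nn H'.cont.measurable H'.lc hi hpos
  obtain ⟨r, hr, hlow⟩ := vo_low (b := b) hδ hδ2 hρ1 H v hε hN
  have hβ0 : ∀ k, 0 < β k := fun k => by linarith [hβ k]
  have hK0 : 0 ≤ K := by
    have : 0 < 4 / δ := by positivity
    linarith
  have hwp : ∀ j x, 0 < wo δ ρ (g j) ‖P j x - b j‖ := fun j x =>
    ((H j).wg hδ).pos _ (hε.trans_le (hN j x))
  have hS0 : ∀ x u, 0 ≤ ∑ k, β k * ((inner ℝ (a k) x - d k) ^ 2)⁻¹ * (inner ℝ (a k) u) ^ 2 :=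
    fun x u => Finset.sum_nonneg fun k _ => by
      have := hβ0 k
      positivity
  have hbarpos : ∀ x, 0 < h x → ∀ k, 0 < inner ℝ (a k) x - d k := by
    intro x hx k
    by_contra hk
    push Not at hk
    have h0 : bar a d β x = 0 := by
      unfold bar
      refine Finset.prod_eq_zero (Finset.mem_univ k) ?_
      rw [max_eq_right hk, Real.zero_rpow (hβ0 k).ne']
    rw [hh] at hx
    simp only [h0, mul_zero, lt_self_iff_false] at hx
  -- positivity of the weights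
  have hωp : ∀ j x, 0 < h x → 0 < Sum.elim (fun j x => wo δ ρ (g j) ‖P j x - b j‖)
      (fun k x => β k * ((inner ℝ (a k) x - d k) ^ 2)⁻¹) j x := by
    rintro (j | k) x hx
    · simp only [Sum.elim_inl]
      exact hwp j x
    · simp only [Sum.elim_inr]
      have := hbarpos x hx k
      have := hβ0 k
      positivity
  -- the barrier weights
  have hA2 : ∀ k, (Integrable fun x => h x * (β k * ((inner ℝ (a k) x - d k) ^ 2)⁻¹)) ∧
      (Integrable fun x => h x / (β k * ((inner ℝ (a k) x - d k) ^ 2)⁻¹)) ∧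
      (∫ x, h x * (β k * ((inner ℝ (a k) x - d k) ^ 2)⁻¹)) *
        (∫ x, h x / (β k * ((inner ℝ (a k) x - d k) ^ 2)⁻¹)) ≤ 6 / δ * (∫ x, h x) ^ 2 := by
    intro k
    let a' : {k' // k' ≠ k} → F := fun k' => a k'
    let d' : {k' // k' ≠ k} → ℝ := fun k' => d k'
    let β' : {k' // k' ≠ k} → ℝ := fun k' => β k'
    have H'' := to11_re hδ hδ2 hρ1 H v hε hN (a := a') (fun k' => ha k') d' (β := β')
      (fun k' => hβ k') he hA
    set kk : F → ℝ := fun x => A * (Real.exp (-Vo ψ P b v x) * bar a' d' β' x) with hkk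
    have e1 : h = fun x => (max (inner ℝ (a k) x - d k) 0) ^ β k * kk x := by
      funext x
      have e2 : bar a d β x = (max (inner ℝ (a k) x - d k) 0) ^ β k * bar a' d' β' x := by
        unfold bar
        exact Fintype.prod_eq_mul_prod_subtype_ne
          (fun k' => (max (inner ℝ (a k') x - d k') 0) ^ β k') k
      rw [hh, hkk]
      simp only [e2]
      ring
    have hβ1 : 1 < β k := by linarith [hβ k]
    have h1 : A2 (cB (β k)) (fun x => (max (inner ℝ (a k) x - d k) 0) ^ β k * kk x)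
        (fun x => β k * ((inner ℝ (a k) x - d k) ^ 2)⁻¹) := by
      refine A2_bar H''.nn H''.cont.measurable H''.lc (ha k) (d k) hβ1 (by linarith) ?_ ?_
      · rw [← e1]
        exact hi
      · have e3 : (fun x => ‖x‖ ^ 2 * ((max (inner ℝ (a k) x - d k) 0) ^ β k * kk x)) =
            fun x => ‖x‖ ^ 2 * h x := by rw [e1]
        rw [e3]
        exact L.mom 2
    rw [← e1] at h1
    have hcB0 : 0 ≤ cB (β k) := by
      unfold cB
      have : 0 < β k - 1 := by linarith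
      have := hβ0 k
      positivity
    obtain ⟨i1, i2, -, -, h2⟩ := h1.real hcB0 L.meas (H'.ωm (Sum.inr k)) L.h0 (H'.ω0 (Sum.inr k))
      L.int hpos (Eventually.of_forall (hωp (Sum.inr k)))
    exact ⟨i1, i2, h2.trans (mul_le_mul_of_nonneg_right (cB_le hδ hδ2 (hβ k)) (sq_nonneg _))⟩
  have hωi : ∀ j, Integrable fun x => h x * Sum.elim (fun j x => wo δ ρ (g j) ‖P j x - b j‖)
      (fun k x => β k * ((inner ℝ (a k) x - d k) ^ 2)⁻¹) j x := by
    rintro (j | k)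
    · obtain ⟨h1, -⟩ := o_up (q := q) L (A := fun _ => (1 : ℝ)) measurable_const
        (fun _ => zero_le_one) (Ab := 1) (fun _ => le_refl _) (fun _ _ => one_pos) (acon_one h)
        hpos (hP j) hε (hN j) hδ hδ1 ((H j).wg hδ) hK
      refine h1.congr (Eventually.of_forall fun x => ?_)
      simp only [Sum.elim_inl, one_mul]
      rw [mul_comm]
    · exact (hA2 k).1
  have hCp : 0 ≤ cU q K * cJ q K := mul_nonneg to11_cU (to11_cJ hK0)
  have h6 : 0 ≤ 6 * ((q : ℝ) + 2) / δ := by positivity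
  have hmain := to11_main (q := q) H' L hpos hκ hr ?_ hωp hωi ?_
    (C := cU q K * cJ q K + 6 * ((q : ℝ) + 2) / δ) (by positivity) ?_
  · refine to11_mono L.h0 ?_ hmain
    unfold cO
    have hΛ : 0 ≤ Lo δ ρ := by linarith
    have hq2 : (1 : ℝ) ≤ (q : ℝ) + 2 := by
      have : (0 : ℝ) ≤ q := Nat.cast_nonneg q
      linarith
    have hx0 : 0 ≤ Lo δ ρ * (cU q K * cJ q K + 6 * ((q : ℝ) + 2) / δ) :=
      mul_nonneg hΛ (by positivity)
    calc 2 * (4 * Lo δ ρ * (cU q K * cJ q K + 6 * ((q : ℝ) + 2) / δ)) =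
        8 * 1 * (Lo δ ρ * (cU q K * cJ q K + 6 * ((q : ℝ) + 2) / δ)) := by ring
      _ ≤ 8 * ((q : ℝ) + 2) * (Lo δ ρ * (cU q K * cJ q K + 6 * ((q : ℝ) + 2) / δ)) :=
          mul_le_mul_of_nonneg_right (by linarith) hx0
      _ = _ := by ring
  · intro x u
    refine (dens_low (V := Vo ψ P b v) (a := a) d hβ0 hA (hs x u)).trans ?_
    refine mul_le_mul_of_nonneg_left (Real.exp_le_exp.2 ?_) (sq_nonneg _)
    linarith [hS0 x u]
  · intro x u hu
    refine (dens_low (V := Vo ψ P b v) (a := a) d hβ0 hA (hlow x u hu)).trans ?_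
    refine mul_le_mul_of_nonneg_left (Real.exp_le_exp.2 ?_) (sq_nonneg _)
    rw [Fintype.sum_sum_type]
    simp only [Sum.elim_inl, Sum.elim_inr]
    have e' : ∑ j, wo δ ρ (g j) ‖P j x - b j‖ / 2 * ‖P j u‖ ^ 2 ≤
        ∑ j, wo δ ρ (g j) ‖P j x - b j‖ * ‖P j u‖ ^ 2 := by
      refine Finset.sum_le_sum fun j _ => ?_
      refine mul_le_mul_of_nonneg_right ?_ (sq_nonneg _)
      have := hwp j x
      linarith
    have e : ∑ k, β k * ((inner ℝ (a k) x - d k) ^ 2)⁻¹ / 2 *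
        ‖((innerSL ℝ (a k)).smulRight e) u‖ ^ 2 ≤
        ∑ k, β k * ((inner ℝ (a k) x - d k) ^ 2)⁻¹ * (inner ℝ (a k) u) ^ 2 := by
      refine Finset.sum_le_sum fun k _ => ?_
      have e1 : ‖((innerSL ℝ (a k)).smulRight e) u‖ ^ 2 = (inner ℝ (a k) u) ^ 2 := by
        rw [ContinuousLinearMap.smulRight_apply, norm_smul, he, mul_one, Real.norm_eq_abs, sq_abs]
        rfl
      rw [e1]
      refine mul_le_mul_of_nonneg_right ?_ (sq_nonneg _)
      have : 0 ≤ β k * ((inner ℝ (a k) x - d k) ^ 2)⁻¹ := by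
        have := hβ0 k
        positivity
      linarith
    linarith
  · rintro (j | k)
    · simp only [Sum.elim_inl]
      obtain ⟨h1, h2⟩ := core_orl (q := q) L (A := fun _ => (1 : ℝ)) measurable_const
        (fun _ => zero_le_one) (Ab := 1) (fun _ => le_refl _) (fun _ _ => one_pos) (acon_one h)
        hpos (hP j) hε (hN j) hδ hδ1 ((H j).wg hδ) hK
      refine ⟨h1, h2.trans ?_⟩
      refine mul_le_mul_of_nonneg_right (by linarith) ?_
      have : 0 ≤ ∫ x, h x := hpos.le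
      positivity
    · simp only [Sum.elim_inr]
      obtain ⟨i1, i2, h3⟩ := hA2 k
      obtain ⟨Hb, hb⟩ := L.hb
      obtain ⟨h1, h2⟩ := core_plain (q := q) L.meas L.h0 hb L.int (H'.ωm (Sum.inr k))
        (H'.ω0 (Sum.inr k)) (hωp (Sum.inr k)) (hωi (Sum.inr k)) i2 (C := 6 / δ) (by positivity) h3
      refine ⟨h1, h2.trans ?_⟩
      have e : ((q : ℝ) + 2) * (6 / δ) = 6 * ((q : ℝ) + 2) / δ := by ring
      rw [e]
      refine mul_le_mul_of_nonneg_right (by linarith) ?_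
      have : 0 ≤ ∫ x, h x := hpos.le
      positivity

end Pool.Agent.Lib.MP_8d00da_gt.h42t
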