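import Mathlib
import Pool.Agent.Lib.MP_8d00da_gt.h42t.TG7
import Pool.Agent.Lib.MP_8d00da_gt.h42t.TO8

namespace Pool.Agent.Lib.MP_8d00da_gt.h25
end Pool.Agent.Lib.MP_8d00da_gt.h25
namespace Pool.Agent.Lib.MP_8d00da_gt.h42s
end Pool.Agent.Lib.MP_8d00da_gt.h42s
namespace Pool.Agent.Lib.MP_8d00da_gt.h42o
end Pool.Agent.Lib.MP_8d00da_gt.h42o
namespace Pool.Agent.Lib.MP_8d00da_gt.h97r
end Pool.Agent.Lib.MP_8d00da_gt.h97r


/-!
# Regularisation of Orlicz sums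
-/

namespace Pool.Agent.Lib.MP_8d00da_gt.h42t

open MeasureTheory Set Filter
open Pool.Agent.Lib.MP_8d00da_gt.h25 Pool.Agent.Lib.MP_8d00da_gt.h42
open Pool.Agent.Lib.MP_8d00da_gt.h42s Pool.Agent.Lib.MP_8d00da_gt.h42o
open Pool.Agent.Lib.MP_8d00da_gt.h97r Pool.Agent.Lib.MP_8d00da_gt.h42r
open scoped Topology NNReal ENNReal

set_option linter.unusedSectionVars false

variable {F : Type*} [NormedAddCommGroup F] [InnerProductSpace ℝ F]
    [FiniteDimensional ℝ F] [MeasurableSpace F] [BorelSpace F]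

variable {G : Type*} [NormedAddCommGroup G] [InnerProductSpace ℝ G]
    [FiniteDimensional ℝ G] [MeasurableSpace G] [BorelSpace G]

variable {ι : Type*} [Fintype ι]

variable {δ ρ : ℝ} {ψ g : ι → ℝ → ℝ}

def rψ (ψ : ι → ℝ → ℝ) (ε : ℝ) : Option ι → ℝ → ℝ
  | some j => ψ j
  | none => fun t => ε * t ^ 2

def rg (g : ι → ℝ → ℝ) (ε : ℝ) : Option ι → ℝ → ℝ
  | some j => g j
  | none => fun t => 2 * ε * t

theorem r_orl (hδ : δ ≤ 1) (hρ : 1 ≤ ρ) (H : ∀ j, Orl δ ρ (ψ j) (g j)) {ε : ℝ} (hε : 0 < ε)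
    (j : Option ι) : Orl δ ρ (rψ ψ ε j) (rg g ε j) := by
  cases j with
  | some j => exact H j
  | none =>
    refine ⟨?_, ?_, ?_, ?_, ?_⟩
    · show ContinuousOn (fun t : ℝ => ε * t ^ 2) (Ici 0)
      fun_prop
    · intro t ht
      show HasDerivAt (fun t : ℝ => ε * t ^ 2) (2 * ε * t) t
      have h1 := (hasDerivAt_pow 2 t).const_mul ε
      have e : ε * (((2 : ℕ) : ℝ) * t ^ (2 - 1)) = 2 * ε * t := by
        push_cast
        ring
      rw [e] at h1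
      exact h1
    · intro t ht
      show 0 < 2 * ε * t
      positivity
    · intro s t hs hst
      show 2 * ε * s * (t / s) ^ δ ≤ 2 * ε * t
      have h3 : 1 ≤ t / s := by rwa [one_le_div hs]
      calc 2 * ε * s * (t / s) ^ δ ≤ 2 * ε * s * (t / s) ^ (1 : ℝ) :=
            mul_le_mul_of_nonneg_left (Real.rpow_le_rpow_of_exponent_le h3 hδ) (by positivity)
        _ = 2 * ε * t := by
            rw [Real.rpow_one]
            field_simp
    · intro s t hs hst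
      show 2 * ε * t ≤ 2 * ε * s * (t / s) ^ ρ
      have h3 : 1 ≤ t / s := by rwa [one_le_div hs]
      calc 2 * ε * t = 2 * ε * s * (t / s) ^ (1 : ℝ) := by
            rw [Real.rpow_one]
            field_simp
        _ ≤ 2 * ε * s * (t / s) ^ ρ :=
            mul_le_mul_of_nonneg_left (Real.rpow_le_rpow_of_exponent_le h3 hρ) (by positivity)

private theorem to12_norm_some (P : ι → F →L[ℝ] G) (b : ι → G) (ε : ℝ) (j : ι) (x : F) :
    ‖rP P (some j) x - rb (F := F) b ε (some j)‖ = √(‖P j x - b j‖ ^ 2 + ε ^ 2) := by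
  rw [← r_norm_some, Real.sqrt_sq (norm_nonneg _)]

/-- The regularised potential. -/
noncomputable def RO (ψ : ι → ℝ → ℝ) (P : ι → F →L[ℝ] G) (b : ι → G) (v : F) (ε : ℝ) : F → ℝ :=
  Vo (rψ ψ ε) (rP P) (rb (F := F) b ε) v

/-- `RO = ∑ ψ_j(√(‖P_j x - b_j‖² + ε²)) + ε (‖x‖² + ε²) + ⟪v, x⟫ ≥ Vo` (`Orl.psi_mono`,
`r_norm_some`, `r_norm_none`). -/
theorem ro_ge (H : ∀ j, Orl δ ρ (ψ j) (g j)) (P : ι → F →L[ℝ] G) (b : ι → G) (v : F) {ε : ℝ}
    (hε : 0 < ε) (x : F) : Vo ψ P b v x ≤ RO ψ P b v ε x := by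
  unfold RO Vo
  rw [Fintype.sum_option]
  have h1 : 0 ≤ rψ ψ ε none ‖rP P none x - rb (F := F) b ε none‖ := by
    show 0 ≤ ε * ‖rP P none x - rb (F := F) b ε none‖ ^ 2
    positivity
  have h2 : ∑ j, ψ j ‖P j x - b j‖ ≤ ∑ j, rψ ψ ε (some j)
      ‖rP P (some j) x - rb (F := F) b ε (some j)‖ := by
    refine Finset.sum_le_sum fun j _ => ?_
    show ψ j ‖P j x - b j‖ ≤ ψ j ‖rP P (some j) x - rb (F := F) b ε (some j)‖
    refine (H j).psi_mono (mem_Ici.2 (norm_nonneg _)) (mem_Ici.2 (norm_nonneg _)) ?_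
    rw [to12_norm_some]
    exact Real.le_sqrt_of_sq_le (by nlinarith [sq_nonneg ε])
  linarith

theorem ro_tend (H : ∀ j, Orl δ ρ (ψ j) (g j)) (P : ι → F →L[ℝ] G) (b : ι → G) (v : F)
    (x : F) : Tendsto (fun ε => RO ψ P b v ε x) (𝓝[>] 0) (𝓝 (Vo ψ P b v x)) := by
  have hid : Tendsto (fun ε : ℝ => ε) (𝓝[>] 0) (𝓝 0) := tendsto_nhdsWithin_of_tendsto_nhds tendsto_id
  have hsq : ∀ a : ℝ, Tendsto (fun ε : ℝ => √(a ^ 2 + ε ^ 2)) (𝓝[>] 0) (𝓝 √(a ^ 2)) := fun a => by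
    have h1 : Tendsto (fun ε : ℝ => a ^ 2 + ε ^ 2) (𝓝[>] 0) (𝓝 (a ^ 2 + 0 ^ 2)) :=
      (hid.pow 2).const_add _
    rw [zero_pow two_ne_zero, add_zero] at h1
    exact (Real.continuous_sqrt.tendsto _).comp h1
  have hsome : ∀ j, Tendsto (fun ε : ℝ => rψ ψ ε (some j)
      ‖rP P (some j) x - rb (F := F) b ε (some j)‖) (𝓝[>] 0)
      (𝓝 (ψ j ‖P j x - b j‖)) := fun j => by
    show Tendsto (fun ε : ℝ => ψ j ‖rP P (some j) x - rb (F := F) b ε (some j)‖) (𝓝[>] 0) _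
    have h2 := hsq ‖P j x - b j‖
    rw [Real.sqrt_sq (norm_nonneg _)] at h2
    have h3 : Tendsto (fun ε : ℝ => ‖rP P (some j) x - rb (F := F) b ε (some j)‖) (𝓝[>] 0)
        (𝓝[Ici 0] ‖P j x - b j‖) := by
      refine tendsto_nhdsWithin_iff.2 ⟨h2.congr fun ε => ?_,
        Eventually.of_forall fun ε => mem_Ici.2 (norm_nonneg _)⟩
      rw [to12_norm_some]
    exact ((H j).cont _ (mem_Ici.2 (norm_nonneg _))).tendsto.comp h3
  have hnone : Tendsto (fun ε : ℝ => rψ ψ ε none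
      ‖rP P none x - rb (F := F) b ε none‖) (𝓝[>] 0) (𝓝 0) := by
    have h3 : Tendsto (fun ε : ℝ => ε * (‖x‖ ^ 2 + ε ^ 2)) (𝓝[>] 0)
        (𝓝 (0 * (‖x‖ ^ 2 + 0 ^ 2))) := hid.mul ((hid.pow 2).const_add _)
    rw [zero_mul] at h3
    refine h3.congr fun ε => ?_
    show ε * (‖x‖ ^ 2 + ε ^ 2) = ε * ‖rP P none x - rb (F := F) b ε none‖ ^ 2
    rw [r_norm_none]
  have hall : Tendsto (fun ε : ℝ => (rψ ψ ε none
      ‖rP P none x - rb (F := F) b ε none‖ + ∑ j, rψ ψ ε (some j)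
      ‖rP P (some j) x - rb (F := F) b ε (some j)‖) + inner ℝ v x) (𝓝[>] 0)
      (𝓝 ((0 + ∑ j, ψ j ‖P j x - b j‖) + inner ℝ v x)) :=
    (hnone.add (tendsto_finsetSum _ fun j _ => hsome j)).add_const _
  rw [zero_add] at hall
  refine hall.congr fun ε => ?_
  unfold RO Vo
  rw [Fintype.sum_option]

/-- The term `ε (‖x‖² + ε²)` has second difference `2 ε ‖u‖²`, the others are convex
(`orl_sd_nonneg`, `sd_Vo`). -/
theorem ro_strong (hδ : 0 ≤ δ) (H : ∀ j, Orl δ ρ (ψ j) (g j)) (P : ι → F →L[ℝ] G) (b : ι → G)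
    (v : F) {ε : ℝ} (hε : 0 < ε) (x u : F) :
    2 * ε * ‖u‖ ^ 2 ≤ sd (RO ψ P b v ε) x u := by
  have hsd : sd (RO ψ P b v ε) x u = ∑ j : Option ι,
      sd (fun y : RG G F => rψ ψ ε j ‖y‖) (rP P j x - rb (F := F) b ε j) (rP P j u) :=
    sd_Vo (rψ ψ ε) (rP P) (rb (F := F) b ε) v x u
  rw [hsd, Fintype.sum_option]
  have h1 : sd (fun y : RG G F => rψ ψ ε none ‖y‖)
      (rP P none x - rb (F := F) b ε none) (rP P none u) = 2 * ε * ‖u‖ ^ 2 := by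
    show sd (fun y : RG G F => ε * ‖y‖ ^ 2)
      (rP P none x - rb (F := F) b ε none) (rP P none u) = 2 * ε * ‖u‖ ^ 2
    unfold sd
    have h2 := parallelogram_law_with_norm ℝ (rP P none x - rb (F := F) b ε none) (rP P none u)
    have h3 : ‖rP P none u‖ ^ 2 = ‖u‖ ^ 2 := by
      have h4 : rP P none u = WithLp.toLp 2 ((0 : G), WithLp.toLp 2 (u, (0 : ℝ))) := rfl
      rw [h4, WithLp.prod_norm_sq_eq_of_L2]
      show ‖(0 : G)‖ ^ 2 + ‖WithLp.toLp 2 (u, (0 : ℝ))‖ ^ 2 = _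
      rw [WithLp.prod_norm_sq_eq_of_L2]
      show ‖(0 : G)‖ ^ 2 + (‖u‖ ^ 2 + ‖(0 : ℝ)‖ ^ 2) = _
      rw [norm_zero, norm_zero]
      ring
    simp only
    rw [← h3]
    linear_combination ε * h2
  have h5 : 0 ≤ ∑ j, sd (fun y : RG G F => rψ ψ ε (some j) ‖y‖)
      (rP P (some j) x - rb (F := F) b ε (some j)) (rP P (some j) u) :=
    Finset.sum_nonneg fun j _ => orl_sd_nonneg hδ (H j) _ _
  linarith

end Pool.Agent.Lib.MP_8d00da_gt.h42t
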