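import Mathlib
import Pool.Agent.Lib.MP_8d00da_gt.h42t.TO12
import Pool.Agent.Lib.MP_8d00da_gt.h42t.TH2
import Pool.Agent.Lib.MP_8d00da_gt.h42t.TO11

/-!
# All densities, Orlicz sums
-/

namespace Pool.Agent.Lib.MP_8d00da_gt.h42t

open MeasureTheory Set Filter
open Pool.Agent.Lib.MP_8d00da_gt.h25 Pool.Agent.Lib.MP_8d00da_gt.h42
open Pool.Agent.Lib.MP_8d00da_gt.h42s Pool.Agent.Lib.MP_8d00da_gt.h42o
open Pool.Agent.Lib.MP_8d00da_gt.h97r Pool.Agent.Lib.MP_8d00da_gt.h42r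
open scoped Topology NNReal ENNReal

set_option linter.unusedSectionVars false

variable {F : Type*} [NormedAddCommGroup F] [InnerProductSpace ℝ F]
    [FiniteDimensional ℝ F] [MeasurableSpace F] [BorelSpace F]

variable {G : Type*} [NormedAddCommGroup G] [InnerProductSpace ℝ G]
    [FiniteDimensional ℝ G] [MeasurableSpace G] [BorelSpace G]

variable {ι : Type*} [Fintype ι]

variable {q : ℕ}

theorem dens_data_o {κ' : Type*} [Fintype κ'] {V : F → ℝ} (hV : ConvexOn ℝ univ V)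
    (hVc : Continuous V) {a : κ' → F} (ha : ∀ k, a k ≠ 0) (d : κ' → ℝ) {β : κ' → ℝ}
    (hβ : ∀ k, 1 < β k) {A : ℝ} (hA : 0 < A) :
    Continuous (fun x => A * (Real.exp (-V x) * bar a d β x)) ∧
    (∀ x, 0 ≤ A * (Real.exp (-V x) * bar a d β x)) ∧
    LogConc fun x => A * (Real.exp (-V x) * bar a d β x) := by
  have H2 := re_bar (G := ℝ) ha d hβ (e := (1 : ℝ)) norm_one (le_refl (1 : ℝ))
  have e0 : ∀ x, 0 ≤ Real.exp (-V x) := fun x => (Real.exp_pos _).le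
  refine ⟨continuous_const.mul ((Real.continuous_exp.comp hVc.neg).mul H2.cont),
    fun x => mul_nonneg hA.le (mul_nonneg (e0 x) (H2.nn x)), ?_⟩
  intro t ht0 ht1 x y
  show (A * (Real.exp (-V x) * bar a d β x)) ^ (1 - t) *
    (A * (Real.exp (-V y) * bar a d β y)) ^ t ≤ _
  rw [Real.mul_rpow hA.le (mul_nonneg (e0 x) (H2.nn x)),
    Real.mul_rpow hA.le (mul_nonneg (e0 y) (H2.nn y)), Real.mul_rpow (e0 x) (H2.nn x),
    Real.mul_rpow (e0 y) (H2.nn y)]
  have k1 : Real.exp (-V x) ^ (1 - t) * Real.exp (-V y) ^ t ≤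
      Real.exp (-V ((1 - t) • x + t • y)) := by
    rw [← Real.exp_mul, ← Real.exp_mul, ← Real.exp_add]
    refine Real.exp_le_exp.2 ?_
    have h1 := hV.2 (mem_univ x) (mem_univ y) (by linarith : (0 : ℝ) ≤ 1 - t) ht0.le (by ring)
    simp only [smul_eq_mul] at h1
    linarith
  have k2 := H2.lc t ht0 ht1 x y
  have e : A ^ (1 - t) * A ^ t = A := by
    rw [← Real.rpow_add hA]
    norm_num
  calc _ = (A ^ (1 - t) * A ^ t) * ((Real.exp (-V x) ^ (1 - t) * Real.exp (-V y) ^ t) *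
        (bar a d β x ^ (1 - t) * bar a d β y ^ t)) := by ring
    _ = A * ((Real.exp (-V x) ^ (1 - t) * Real.exp (-V y) ^ t) *
        (bar a d β x ^ (1 - t) * bar a d β y ^ t)) := by rw [e]
    _ ≤ _ := mul_le_mul_of_nonneg_left (mul_le_mul k1 k2
        (mul_nonneg (Real.rpow_nonneg (H2.nn x) _) (Real.rpow_nonneg (H2.nn y) _)) (e0 _)) hA.le

/-- `QJ` for all the densities. -/
theorem qj_dens_o {κ' : Type*} [Fintype κ'] {ψ g : ι → ℝ → ℝ} {P : ι → F →L[ℝ] G} {δ K : ℝ}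
    (hδ : 0 < δ) (hδ1 : δ ≤ 1 / 2) (H : ∀ j, Orl δ (((q : ℝ) + 2) / 2 + 1) (ψ j) (g j))
    (hP : ∀ j, P j ≠ 0) (b : ι → G) (v : F)
    {a : κ' → F} (ha : ∀ k, a k ≠ 0) (d : κ' → ℝ) {β : κ' → ℝ} (hβ : ∀ k, 1 + δ ≤ β k) {A : ℝ}
    (hA : 0 < A) (hi : Integrable fun x => A * (Real.exp (-Vo ψ P b v x) * bar a d β x))
    (hi2 : Integrable fun x => ‖x‖ ^ 2 * (A * (Real.exp (-Vo ψ P b v x) * bar a d β x)))
    (hpos : 0 < ∫ x, A * (Real.exp (-Vo ψ P b v x) * bar a d β x)) (hK : 4 / δ ≤ K) :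
    QJ (cO q (Lo δ (((q : ℝ) + 2) / 2 + 1)) K δ)
      fun x => A * (Real.exp (-Vo ψ P b v x) * bar a d β x) := by
  rcases subsingleton_or_nontrivial F with hF | hF
  · exact qj_triv _ _
  have hρ : (1 : ℝ) ≤ ((q : ℝ) + 2) / 2 + 1 := by
    have : (0 : ℝ) ≤ ((q : ℝ) + 2) / 2 := by positivity
    linarith
  have hδ1' : δ ≤ 1 := by linarith
  have hβ' : ∀ k, 1 < β k := fun k => by linarith [hβ k]
  have hεn : ∀ n : ℕ, 0 < 1 / ((n : ℝ) + 1) := fun n => by positivity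
  have Hn := fun n : ℕ => r_orl hδ1' hρ H (hεn n)
  have D0 := dens_data_o (vo_conv hδ.le H P b v) (vo_cont H P b v) ha d hβ' hA
  have Dn := fun n : ℕ => dens_data_o (V := RO ψ P b v (1 / ((n : ℝ) + 1)))
    (vo_conv hδ.le (Hn n) (rP P) (rb (F := F) b (1 / ((n : ℝ) + 1))) v)
    (vo_cont (Hn n) (rP P) (rb (F := F) b (1 / ((n : ℝ) + 1))) v) ha d hβ' hA
  have bn : ∀ x, 0 ≤ bar a d β x := fun x =>
    Finset.prod_nonneg fun k _ => Real.rpow_nonneg (le_max_right _ _) _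
  have hle : ∀ (n : ℕ) x, A * (Real.exp (-RO ψ P b v (1 / ((n : ℝ) + 1)) x) * bar a d β x) ≤
      A * (Real.exp (-Vo ψ P b v x) * bar a d β x) := by
    intro n x
    have h1 := ro_ge H P b v (hεn n) x
    exact mul_le_mul_of_nonneg_left (mul_le_mul_of_nonneg_right
      (Real.exp_le_exp.2 (neg_le_neg h1)) (bn x)) hA.le
  have hin : ∀ n : ℕ, Integrable fun x =>
      A * (Real.exp (-RO ψ P b v (1 / ((n : ℝ) + 1)) x) * bar a d β x) := by
    intro n
    refine hi.mono' (Dn n).1.aestronglyMeasurable (Eventually.of_forall fun x => ?_)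
    rw [Real.norm_eq_abs, abs_of_nonneg ((Dn n).2.1 x)]
    exact hle n x
  have hposn : ∀ n : ℕ, 0 < ∫ x,
      A * (Real.exp (-RO ψ P b v (1 / ((n : ℝ) + 1)) x) * bar a d β x) := by
    intro n
    rw [integral_pos_iff_support_of_nonneg (Dn n).2.1 (hin n)]
    rw [integral_pos_iff_support_of_nonneg D0.2.1 hi] at hpos
    refine hpos.trans_le (measure_mono fun x hx => ?_)
    have h1 : A * (Real.exp (-Vo ψ P b v x) * bar a d β x) ≠ 0 := hx
    have h2 : bar a d β x ≠ 0 := fun h => h1 (by rw [h, mul_zero, mul_zero])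
    exact mul_ne_zero hA.ne' (mul_ne_zero (Real.exp_pos _).ne' h2)
  refine qj_lim (g := fun x => A * (Real.exp (-Vo ψ P b v x) * bar a d β x))
    (H := fun (n : ℕ) x => A * (Real.exp (-RO ψ P b v (1 / ((n : ℝ) + 1)) x) * bar a d β x))
    (fun n => (Dn n).1.measurable) (fun n x => (Dn n).2.1 x) hle hi hi2 (fun x => ?_) (fun n => ?_)
  · have h1 := (ro_tend H P b v x).comp eps_tend
    exact (((Real.continuous_exp.tendsto _).comp h1.neg).mul_const _).const_mul _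
  · exact reg_dens_o hδ hδ1 (Hn n) (rP_ne hP) v
      (hεn n) (fun j x => r_low P b (hεn n) j x) (κ := 2 * (1 / ((n : ℝ) + 1)))
      (mul_pos two_pos (hεn n)) (fun x u => ro_strong hδ.le H P b v (hεn n) x u) ha d hβ
      (e := (WithLp.toLp 2 ((0 : G), WithLp.toLp 2 ((0 : F), (1 : ℝ))) : RG G F)) unit_vec hA
      (hin n) (hposn n) hK

end Pool.Agent.Lib.MP_8d00da_gt.h42t
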