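import Mathlib
import Pool.Agent.Lib.MP_8d00da_gt.h42r.AF2
import Pool.Agent.Lib.MP_8d00da_gt.h42t.TH1

/-!
# KLS for all the bodies
-/

namespace Pool.Agent.Lib.MP_8d00da_gt.h42t

open MeasureTheory Set Filter
open Pool.Agent.Lib.MP_8d00da_gt.h25 Pool.Agent.Lib.MP_8d00da_gt.h42
open Pool.Agent.Lib.MP_8d00da_gt.h42s Pool.Agent.Lib.MP_8d00da_gt.h42o
open Pool.Agent.Lib.MP_8d00da_gt.h97r Pool.Agent.Lib.MP_8d00da_gt.h42r
open scoped Topology NNReal ENNReal

set_option linter.unusedSectionVars false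

variable {F : Type*} [NormedAddCommGroup F] [InnerProductSpace ℝ F]
    [FiniteDimensional ℝ F] [MeasurableSpace F] [BorelSpace F]

variable {G : Type*} [NormedAddCommGroup G] [InnerProductSpace ℝ G]
    [FiniteDimensional ℝ G] [MeasurableSpace G] [BorelSpace G]

variable {ι : Type*} [Fintype ι]

variable {q : ℕ}

variable {n : ℕ} {E : Type*} [NormedAddCommGroup E] [InnerProductSpace ℝ E]
    [FiniteDimensional ℝ E] [MeasurableSpace E] [BorelSpace E]

private lemma th3_logconc_smul {h : F → ℝ} (h0 : ∀ x, 0 ≤ h x) (hlc : LogConc h) {c : ℝ}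
    (hc : 0 < c) : LogConc fun x => c * h x := by
  intro a ha0 ha1 x y
  have h1 := mul_le_mul_of_nonneg_left (hlc a ha0 ha1 x y) hc.le
  refine le_trans (le_of_eq ?_) h1
  show (c * h x) ^ (1 - a) * (c * h y) ^ a = c * (h x ^ (1 - a) * h y ^ a)
  rw [Real.mul_rpow hc.le (h0 x), Real.mul_rpow hc.le (h0 y)]
  have e : c ^ (1 - a) * c ^ a = c := by
    rw [← Real.rpow_add hc, sub_add_cancel, Real.rpow_one]
  calc c ^ (1 - a) * h x ^ (1 - a) * (c ^ a * h y ^ a) =
      (c ^ (1 - a) * c ^ a) * (h x ^ (1 - a) * h y ^ a) := by ring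
    _ = _ := by rw [e]

theorem cK_nonneg (k : ℕ) : 0 ≤ cK k := by
  unfold cK
  positivity

theorem cF_nonneg {Λ K δ : ℝ} (hΛ : 0 ≤ Λ) (hK : 0 ≤ K) (hδ : 0 < δ) : 0 ≤ cF q Λ K δ := by
  have h1 := cK_nonneg (q + 2)
  unfold cF cP cN
  positivity

/-- The final theorem for bodies. -/
theorem body_final_all {c p : ι → ℝ} {P : ι → Vn n →L[ℝ] G} (hc : ∀ j, 0 < c j) {δ p0 K : ℝ}
    (hδ : 0 < δ) (hδ1 : δ ≤ 1) (hp0 : 2 ≤ p0) (hp1 : ∀ j, 1 + δ ≤ p j) (hp2 : ∀ j, p j ≤ p0)
    (hP : ∀ j, P j ≠ 0) (b : ι → G) (v : Vn n) {L : ℝ}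
    (hbd : Bornology.IsBounded {x | Vf c p P b v x ≤ L}) (hne : ∃ x, Vf c p P b v x < L)
    {μ : Measure (Vn n)}
    (hμ : μ = (volume {x | Vf c p P b v x ≤ L})⁻¹ • volume.restrict {x | Vf c p P b v x ≤ L})
    (hq : p0 ≤ (q : ℝ)) (hK : 4 / δ + p0 + 2 ≤ K) {D' : ℝ} (hD' : 0 ≤ D')
    (hCD : cF q (p0 / δ) K δ ≤ D' ^ 2)
    (T : Vn n →L[ℝ] E) (hT : Function.Surjective T) (b' : E) {D : ℝ}
    (hD : LinPoincareWith (μ.map fun x => T x + b') D) :
    PoincareWith (μ.map fun x => T x + b') (D' * D) := by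
  have hΛ : 0 < p0 / δ := by positivity
  have hK0 : 0 ≤ K := le_trans (by positivity) hK
  have H : RD (Vf c p P b v) P (ωf c p P b) (p0 / δ) :=
    rd_pow' hc (fun j => by linarith [hp1 j]) hP b v hΛ
      fun j => ratio_all hδ hδ1 hp0 (hp1 j) (hp2 j)
  set V := Vf c p P b v with hV
  set S : Set (Vn n) := {x | V x ≤ L} with hS
  have hSm : MeasurableSet S := (isClosed_le H.cont continuous_const).measurableSet
  have hUo : IsOpen {x | V x < L} := isOpen_lt H.cont continuous_const
  have hUS : {x | V x < L} ⊆ S := fun x hx => (show V x < L from hx).le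
  have hvt : volume S ≠ ⊤ := hbd.measure_lt_top.ne
  have hv0 : volume S ≠ 0 := by
    have h1 : 0 < volume {x | V x < L} := hUo.measure_pos volume hne
    exact (h1.trans_le (measure_mono hUS)).ne'
  have hprob : IsProbabilityMeasure μ := by
    constructor
    rw [hμ, Measure.smul_apply, Measure.restrict_apply MeasurableSet.univ, Set.univ_inter,
      smul_eq_mul]
    exact ENNReal.inv_mul_cancel hv0 hvt
  set κ : ℝ := (volume S).toReal⁻¹ with hκ
  have hκ0 : 0 < κ := inv_pos.2 (ENNReal.toReal_pos hv0 hvt)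
  have hae : ∀ᵐ x : Vn n, V x ≠ L := by
    have h1 := level_null H.conv hne
    rw [ae_iff]
    simpa using h1
  have hμd : μ = volume.withDensity fun x => ENNReal.ofReal (κ * ib V L x) := by
    have h1 : (fun x : Vn n => ENNReal.ofReal (κ * ib V L x)) =ᵐ[volume]
        fun x => (volume S)⁻¹ * S.indicator 1 x := by
      filter_upwards [hae] with x hx
      unfold ib
      by_cases h : V x < L
      · rw [Set.indicator_of_mem (by exact h), Set.indicator_of_mem (by exact hUS h), mul_one,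
          Pi.one_apply, mul_one, hκ, ENNReal.ofReal_inv_of_pos (ENNReal.toReal_pos hv0 hvt),
          ENNReal.ofReal_toReal hvt]
      · have h' : x ∉ S := fun h2 => hx (le_antisymm h2 (not_lt.1 h))
        rw [Set.indicator_of_notMem (by exact h), Set.indicator_of_notMem h', mul_zero, mul_zero,
          ENNReal.ofReal_zero]
    rw [withDensity_congr_ae h1, hμ]
    ext s hs
    rw [withDensity_apply _ hs, lintegral_const_mul _ (measurable_one.indicator hSm),
      lintegral_indicator_one hSm, Measure.smul_apply, smul_eq_mul, Measure.restrict_apply hSm,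
      Measure.restrict_apply hs, Set.inter_comm]
  have hlc : LogConc fun x => κ * ib V L x := th3_logconc_smul (ib_nonneg V L) (ib_lc H.conv L) hκ0
  have hQ : ∀ m : Vn n, QJ (cF q (p0 / δ) K δ) fun x => κ * ib V L (x + m) := by
    intro m
    have e : (fun x => κ * ib V L (x + m)) =
        fun x => κ * ib (Vf c p P (fun j => b j - P j m) v) (L - inner ℝ v m) x := by
      funext x
      congr 1
      unfold ib
      have h1 : V (x + m) = Vf c p P (fun j => b j - P j m) v x + inner ℝ v m :=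
        Vf_translate c p P b v x m
      by_cases h : V (x + m) < L
      · rw [Set.indicator_of_mem (by exact h), Set.indicator_of_mem]
        show Vf c p P (fun j => b j - P j m) v x < L - inner ℝ v m
        linarith
      · rw [Set.indicator_of_notMem (by exact h), Set.indicator_of_notMem]
        show ¬ Vf c p P (fun j => b j - P j m) v x < L - inner ℝ v m
        intro h2
        exact h (by linarith)
    rw [e]
    refine QJ.smul (qj_body_all hc hδ hδ1 hp0 hp1 hp2 hP _ v ?_ hq hK) κ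
    obtain ⟨R, hR⟩ := isBounded_iff_forall_norm_le.1 hbd
    refine isBounded_iff_forall_norm_le.2 ⟨R + ‖m‖, fun x hx => ?_⟩
    have hx' : Vf c p P (fun j => b j - P j m) v x < L - inner ℝ v m := hx
    have h1 : V (x + m) = Vf c p P (fun j => b j - P j m) v x + inner ℝ v m :=
      Vf_translate c p P b v x m
    have h2 := hR (x + m) (by show V (x + m) ≤ L; linarith)
    calc ‖x‖ = ‖(x + m) - m‖ := by rw [add_sub_cancel_right]
      _ ≤ ‖x + m‖ + ‖m‖ := norm_sub_le _ _
      _ ≤ R + ‖m‖ := by linarith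
  exact final_gen (C := cF q (p0 / δ) K δ) (D' := D') (cF_nonneg hΛ.le hK0 hδ)
    (fun x => mul_nonneg hκ0.le (ib_nonneg V L x)) ((ib_meas H.cont L).const_mul κ) hlc hQ hμd T hT
    b' hD hCD hD'

end Pool.Agent.Lib.MP_8d00da_gt.h42t
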