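import Mathlib
import Pool.Agent.Lib.MP_8d00da_gt.h42t.TO12
import Pool.Agent.Lib.MP_8d00da_gt.h42t.TO10
import Pool.Agent.Lib.MP_8d00da_gt.h42t.TH1

/-!
# All bodies, Orlicz sums
-/

namespace Pool.Agent.Lib.MP_8d00da_gt.h42t

open MeasureTheory Set Filter
open Pool.Agent.Lib.MP_8d00da_gt.h25 Pool.Agent.Lib.MP_8d00da_gt.h42
open Pool.Agent.Lib.MP_8d00da_gt.h42s Pool.Agent.Lib.MP_8d00da_gt.h42o
open Pool.Agent.Lib.MP_8d00da_gt.h97r Pool.Agent.Lib.MP_8d00da_gt.h42r
open scoped Topology NNReal ENNReal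

set_option linter.unusedSectionVars false

variable {F : Type*} [NormedAddCommGroup F] [InnerProductSpace ℝ F]
    [FiniteDimensional ℝ F] [MeasurableSpace F] [BorelSpace F]

variable {G : Type*} [NormedAddCommGroup G] [InnerProductSpace ℝ G]
    [FiniteDimensional ℝ G] [MeasurableSpace G] [BorelSpace G]

variable {ι : Type*} [Fintype ι]

variable {q : ℕ}

/-- `QJ` for all the bodies. -/
theorem qj_body_o {ψ g : ι → ℝ → ℝ} {P : ι → F →L[ℝ] G} {δ K : ℝ} (hδ : 0 < δ)
    (hδ1 : δ ≤ 1 / 2) (H : ∀ j, Orl δ (((q : ℝ) + 2) / 2 + 1) (ψ j) (g j))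
    (hP : ∀ j, P j ≠ 0) (b : ι → G) (v : F) {L : ℝ}
    (hbd : Bornology.IsBounded {x | Vo ψ P b v x < L}) (hK : 4 / δ ≤ K) :
    QJ (cO q (Lo δ (((q : ℝ) + 2) / 2 + 1)) K δ) (ib (Vo ψ P b v) L) := by
  rcases subsingleton_or_nontrivial F with hF | hF
  · exact qj_triv _ _
  have hρ : (1 : ℝ) ≤ ((q : ℝ) + 2) / 2 + 1 := by
    have : (0 : ℝ) ≤ ((q : ℝ) + 2) / 2 := by positivity
    linarith
  have hδ1' : δ ≤ 1 := by linarith
  have hεn : ∀ n : ℕ, 0 < 1 / ((n : ℝ) + 1) := fun n => by positivity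
  have Hn := fun n : ℕ => r_orl hδ1' hρ H (hεn n)
  have hc0 : Continuous (Vo ψ P b v) := vo_cont H P b v
  have hcn : ∀ n : ℕ, Continuous (RO ψ P b v (1 / ((n : ℝ) + 1))) := fun n =>
    vo_cont (Hn n) (rP P) _ v
  have hSm : MeasurableSet {x | Vo ψ P b v x < L} := (isOpen_lt hc0 continuous_const).measurableSet
  have gi : Integrable (ib (Vo ψ P b v) L) := by
    unfold ib
    exact (integrable_indicator_iff hSm).2
      (integrableOn_const (hbd.measure_lt_top.ne) (by simp))
  obtain ⟨R, hR⟩ := isBounded_iff_forall_norm_le.1 hbd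
  refine qj_lim (g := ib (Vo ψ P b v) L)
    (H := fun n => ib (RO ψ P b v (1 / ((n : ℝ) + 1))) L)
    (fun n => ib_meas (hcn n) L) (fun n x => ib_nonneg _ _ _) (fun n x => ?_) gi ?_
    (fun x => ?_) (fun n => ?_)
  · have h1 := ro_ge H P b v (hεn n) x
    unfold ib
    by_cases hx : RO ψ P b v (1 / ((n : ℝ) + 1)) x < L
    · rw [Set.indicator_of_mem (by exact hx), Set.indicator_of_mem (by exact h1.trans_lt hx)]
    · rw [Set.indicator_of_notMem (by exact hx)]
      exact Set.indicator_nonneg (fun _ _ => zero_le_one) x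
  · refine (gi.const_mul (R ^ 2)).mono'
      ((measurable_norm.pow_const 2).mul (ib_meas hc0 L)).aestronglyMeasurable
      (Eventually.of_forall fun x => ?_)
    rw [Real.norm_eq_abs, abs_of_nonneg (mul_nonneg (sq_nonneg _) (ib_nonneg _ _ _))]
    by_cases hx : Vo ψ P b v x < L
    · have h1 := hR x hx
      exact mul_le_mul_of_nonneg_right (pow_le_pow_left₀ (norm_nonneg _) h1 2)
        (ib_nonneg _ _ _)
    · unfold ib
      rw [Set.indicator_of_notMem (by exact hx)]
      simp
  · by_cases hx : Vo ψ P b v x < L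
    · have h1 := (ro_tend H P b v x).comp eps_tend
      have h2 := h1.eventually_lt_const hx
      refine tendsto_const_nhds.congr' ?_
      filter_upwards [h2] with n hn
      unfold ib
      rw [Set.indicator_of_mem (by exact hx), Set.indicator_of_mem (by exact hn)]
    · refine tendsto_const_nhds.congr fun n => ?_
      have h1 := ro_ge H P b v (hεn n) x
      unfold ib
      rw [Set.indicator_of_notMem (by exact hx), Set.indicator_of_notMem]
      exact fun h2 => hx (h1.trans_lt h2)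
  · by_cases hne : ∃ x, RO ψ P b v (1 / ((n : ℝ) + 1)) x < L
    · exact reg_body_o hδ hδ1 (Hn n) (rP_ne hP) v
        (hεn n) (fun j x => r_low P b (hεn n) j x) (κ := 2 * (1 / ((n : ℝ) + 1)))
        (mul_pos two_pos (hεn n))
        (fun x u => ro_strong hδ.le H P b v (hεn n) x u)
        (hbd.subset fun x hx => (ro_ge H P b v (hεn n) x).trans_lt hx) hne hK
    · have e : ib (RO ψ P b v (1 / ((n : ℝ) + 1))) L = fun _ => 0 := by
        funext x
        unfold ib
        rw [Set.indicator_of_notMem]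
        exact fun hx => hne ⟨x, hx⟩
      rw [e]
      exact qj_zero _

end Pool.Agent.Lib.MP_8d00da_gt.h42t
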