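import Pool.Agent.Lib.MP_8d00da_gt.h42t.TH2
import Pool.Agent.Lib.MP_8d00da_gt.h42t.TH3
import Pool.Agent.Lib.MP_8d00da_gt.h42r.AF1

/-!
# KLS for all the densities
-/

namespace Pool.Agent.Lib.MP_8d00da_gt.h42t

open MeasureTheory Set Filter
open Pool.Agent.Lib.MP_8d00da_gt.h25 Pool.Agent.Lib.MP_8d00da_gt.h42
open Pool.Agent.Lib.MP_8d00da_gt.h42s Pool.Agent.Lib.MP_8d00da_gt.h42o
open Pool.Agent.Lib.MP_8d00da_gt.h97r Pool.Agent.Lib.MP_8d00da_gt.h42r
open scoped Topology NNReal ENNReal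

set_option linter.unusedSectionVars false

variable {F : Type*} [NormedAddCommGroup F] [InnerProductSpace ℝ F]
    [FiniteDimensional ℝ F] [MeasurableSpace F] [BorelSpace F]

variable {G : Type*} [NormedAddCommGroup G] [InnerProductSpace ℝ G]
    [FiniteDimensional ℝ G] [MeasurableSpace G] [BorelSpace G]

variable {ι : Type*} [Fintype ι]

variable {q : ℕ}

variable {n : ℕ} {E : Type*} [NormedAddCommGroup E] [InnerProductSpace ℝ E]
    [FiniteDimensional ℝ E] [MeasurableSpace E] [BorelSpace E]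

/-- The final theorem for densities. -/
theorem dens_final_all {κ' : Type*} [Fintype κ'] {c p : ι → ℝ} {P : ι → Vn n →L[ℝ] G}
    (hc : ∀ j, 0 < c j) {δ p0 K : ℝ} (hδ : 0 < δ) (hδ1 : δ ≤ 1) (hp0 : 2 ≤ p0)
    (hp1 : ∀ j, 1 + δ ≤ p j) (hp2 : ∀ j, p j ≤ p0) (hP : ∀ j, P j ≠ 0) (b : ι → G) (v : Vn n)
    {a : κ' → Vn n} (ha : ∀ k, a k ≠ 0) (d : κ' → ℝ) {β : κ' → ℝ} (hβ : ∀ k, 1 + δ ≤ β k) {A : ℝ}
    (hA : 0 < A) {μ : Measure (Vn n)} (hμ : μ = volume.withDensity fun x =>
      ENNReal.ofReal (A * (Real.exp (-Vf c p P b v x) * bar a d β x))) [IsProbabilityMeasure μ]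
    (hq : p0 ≤ (q : ℝ)) (hK : 4 / δ + p0 + 2 ≤ K) {D' : ℝ} (hD' : 0 ≤ D')
    (hCD : cF q (p0 / δ) K δ ≤ D' ^ 2)
    (T : Vn n →L[ℝ] E) (hT : Function.Surjective T) (b' : E) {D : ℝ}
    (hD : LinPoincareWith (μ.map fun x => T x + b') D) :
    PoincareWith (μ.map fun x => T x + b') (D' * D) := by
  have hΛ : 0 < p0 / δ := by positivity
  have hK0 : 0 ≤ K := le_trans (by positivity) hK
  have hβ' : ∀ k, 1 < β k := fun k => by linarith [hβ k]
  have hRD : ∀ b : ι → G, RD (Vf c p P b v) P (ωf c p P b) (p0 / δ) := fun b =>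
    rd_pow' hc (fun j => by linarith [hp1 j]) hP b v hΛ
      fun j => ratio_all hδ hδ1 hp0 (hp1 j) (hp2 j)
  obtain ⟨hcont, hnn, hlc⟩ := dens_data (hRD b) ha d hβ' hA
  set h : Vn n → ℝ := fun x => A * (Real.exp (-Vf c p P b v x) * bar a d β x) with hh
  have hi : Integrable h := by
    have h1 : Integrable (fun _ : Vn n => (1 : ℝ)) μ := integrable_const 1
    rw [integrable_mu hnn hcont.measurable hμ] at h1
    simpa using h1
  have hI1 : ∫ x, h x = 1 := by
    have h1 := integral_mu hnn hcont.measurable hμ fun _ => 1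
    simp only [one_mul, integral_const, probReal_univ, smul_eq_mul, mul_one] at h1
    exact h1.symm
  have hQ : ∀ m : Vn n, QJ (cF q (p0 / δ) K δ) fun x => h (x + m) := by
    intro m
    have e1 : (fun x => h (x + m)) = fun x => A * Real.exp (-inner ℝ v m) *
        (Real.exp (-Vf c p P (fun j => b j - P j m) v x) *
          bar a (fun k => d k - inner ℝ (a k) m) β x) := by
      funext x
      rw [hh]
      simp only
      have e2 : bar a d β (x + m) = bar a (fun k => d k - inner ℝ (a k) m) β x := by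
        unfold bar
        refine Finset.prod_congr rfl fun k _ => ?_
        have e3 : inner ℝ (a k) (x + m) - d k = inner ℝ (a k) x - (d k - inner ℝ (a k) m) := by
          rw [inner_add_right]
          ring
        rw [e3]
      rw [Vf_translate, e2, neg_add, Real.exp_add]
      ring
    have hA' : 0 < A * Real.exp (-inner ℝ v m) := mul_pos hA (Real.exp_pos _)
    obtain ⟨hcont', hnn', hlc'⟩ := dens_data (hRD fun j => b j - P j m) ha
      (fun k => d k - inner ℝ (a k) m) hβ' hA'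
    have hi' : Integrable fun x => h (x + m) := hi.comp_add_right m
    have hI' : 0 < ∫ x, h (x + m) := by
      rw [integral_add_right_eq_self h m, hI1]
      exact one_pos
    rw [e1] at hi' hI' ⊢
    have h2' := second_moment hnn' hcont'.measurable hlc' hi' hI'
    exact qj_dens_all hc hδ hδ1 hp0 hp1 hp2 hP _ v ha _ hβ hA' hi' h2' hI' hq hK
  exact final_gen (C := cF q (p0 / δ) K δ) (D' := D') (cF_nonneg hΛ.le hK0 hδ) hnn
    hcont.measurable hlc hQ hμ T hT b' hD hCD hD'

end Pool.Agent.Lib.MP_8d00da_gt.h42t
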